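import Mathlib

/-!
Definitions for duration-aware pinwheel scheduling (DAPS).
-/

namespace Pool.Agent.V11167.Daps

open Finset

/-- A DAPS instance with `n` jobs: job `i` has duration `p i` and frequency `f i`, all positive,
with the frequencies in non-decreasing order. -/
structure Inst (n : ℕ) where
  p : Fin n → ℕ
  f : Fin n → ℕ
  p_pos : ∀ i, 0 < p i
  f_pos : ∀ i, 0 < f i
  mono : ∀ i j, i ≤ j → f i ≤ f j

/-- The schedule `S` is feasible: every job is processed infinitely often, and between any two
consecutive processings `a < b` of job `i` the total duration of the jobs processed at the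
times `a+1, ..., b` is at most `f i`. -/
def Inst.FeasibleBy {n : ℕ} (V : Inst n) (S : ℕ → Fin n) : Prop :=
  ∀ i, (∀ N, ∃ t, N ≤ t ∧ S t = i) ∧
    ∀ a b, a < b → S a = i → S b = i → (∀ t, a < t → t < b → S t ≠ i) →
      ∑ t ∈ Finset.Ioc a b, V.p (S t) ≤ V.f i

/-- The instance is feasible. -/
def Inst.Feasible {n : ℕ} (V : Inst n) : Prop := ∃ S : ℕ → Fin n, V.FeasibleBy S

/-- The density. -/
noncomputable def Inst.rho {n : ℕ} (V : Inst n) : ℝ := ∑ i, (V.p i : ℝ) / (V.f i : ℝ)

/-- The `i`-th term of the localized measure. -/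
noncomputable def Inst.muTerm {n : ℕ} (V : Inst n) (i : Fin n) : ℝ :=
  ((∑ j ∈ Finset.univ.filter (fun j => j ≤ i), (V.f i / V.f j) * V.p j +
    (Finset.univ.filter (fun j => i < j)).sup V.p : ℕ) : ℝ) / (V.f i : ℝ)

/-- `L(V) ≤ α`, where `L(V)` is the maximum of the density and the localized measure
(the maximum of the terms `muTerm i` over all `i` except the last one). -/
def Inst.LAtMost {n : ℕ} (V : Inst n) (α : ℝ) : Prop :=
  V.rho ≤ α ∧ ∀ i : Fin n, (i : ℕ) + 1 < n → V.muTerm i ≤ α

/-- The threshold: the supremum of all `α` such that every instance with `L(V) ≤ α` is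
feasible. -/
noncomputable def alphaStar : ℝ :=
  sSup {α : ℝ | ∀ (n : ℕ) (V : Inst n), 0 < n → V.LAtMost α → V.Feasible}

end Pool.Agent.V11167.Daps
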