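import Mathlib
import Pool.Agent.V11167.DapsDefs

namespace Pool.Agent.V11167.Daps

open Finset

/-- If job `i` does not occur at the times strictly between `x` and `y`, but occurs infinitely
often and at least once at or before `x`, there are consecutive occurrences `a ≤ x < y ≤ b`. -/
theorem exists_gap {n : ℕ} (S : ℕ → Fin n) (i : Fin n) (hinf : ∀ N, ∃ t, N ≤ t ∧ S t = i)
    (x y : ℕ) (_hxy : x < y) (hprev : ∃ t, t ≤ x ∧ S t = i)
    (hno : ∀ t, x < t → t < y → S t ≠ i) :
    ∃ a b, a ≤ x ∧ y ≤ b ∧ S a = i ∧ S b = i ∧ ∀ t, a < t → t < b → S t ≠ i := by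
  classical
  obtain ⟨t0, ht0, hS0⟩ := hprev
  -- last occurrence at or before x
  have hne : ((Finset.range (x + 1)).filter (fun t => S t = i)).Nonempty :=
    ⟨t0, by simp only [Finset.mem_filter, Finset.mem_range]; exact ⟨by omega, hS0⟩⟩
  set a := ((Finset.range (x + 1)).filter (fun t => S t = i)).max' hne with ha
  have hamem := Finset.max'_mem _ hne
  rw [← ha] at hamem
  simp only [Finset.mem_filter, Finset.mem_range] at hamem
  have hamax : ∀ t, t ≤ x → S t = i → t ≤ a := by
    intro t h1 h2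
    rw [ha]
    apply Finset.le_max'
    simp only [Finset.mem_filter, Finset.mem_range]
    exact ⟨by omega, h2⟩
  -- first occurrence at or after y
  have hex : ∃ t, y ≤ t ∧ S t = i := hinf y
  set b := Nat.find hex with hb
  have hbs := Nat.find_spec hex
  rw [← hb] at hbs
  have hbmin : ∀ t, t < b → ¬ (y ≤ t ∧ S t = i) := by
    intro t ht
    rw [hb] at ht
    exact Nat.find_min hex ht
  refine ⟨a, b, by omega, hbs.1, hamem.2, hbs.2, ?_⟩
  intro t h1 h2 h3
  by_cases htx : t ≤ x
  · have := hamax t htx h3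
    omega
  · by_cases hty : t < y
    · exact hno t (by omega) hty h3
    · exact hbmin t h2 ⟨by omega, h3⟩

/-- The data of the instance used: job `0` has duration `2700`, the four others `10000`. -/
def V : Inst 5 where
  p := ![2700, 10000, 10000, 10000, 10000]
  f := ![22699, 38099, 76197, 101599, 1000000000]
  p_pos := by decide
  f_pos := by decide
  mono := by decide

theorem V_p_zero : V.p 0 = 2700 := rfl

theorem V_p_ne (i : Fin 5) (h : i ≠ 0) : V.p i = 10000 := by
  fin_cases i
  · exact absurd rfl h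
  all_goals rfl

variable {S : ℕ → Fin 5} (hS : V.FeasibleBy S)

include hS in
/-- Between two long jobs there is an occurrence of job `0`. -/
theorem short_between : ∃ N0, ∀ x y, N0 ≤ x → x < y → S x ≠ 0 → S y ≠ 0 →
    ∃ t, x < t ∧ t < y ∧ S t = 0 := by
  obtain ⟨t0, _, ht0⟩ := (hS 0).1 0
  refine ⟨t0, ?_⟩
  intro x y hx hxy hSx hSy
  by_contra hno
  push Not at hno
  obtain ⟨a, b, hax, hyb, hSa, hSb, hab⟩ := exists_gap S 0 (hS 0).1 x y hxy ⟨t0, hx, ht0⟩ hno
  have hax' : a < x := lt_of_le_of_ne hax (fun h => hSx (h ▸ hSa))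
  have hyb' : y < b := lt_of_le_of_ne hyb (fun h => hSy (h ▸ hSb))
  have hsum := (hS 0).2 a b (by omega) hSa hSb hab
  have hsub : ({x, y, b} : Finset ℕ) ⊆ Finset.Ioc a b := by
    intro t ht
    simp only [Finset.mem_insert, Finset.mem_singleton] at ht
    rw [Finset.mem_Ioc]
    omega
  have hle : ∑ t ∈ ({x, y, b} : Finset ℕ), V.p (S t) ≤ ∑ t ∈ Finset.Ioc a b, V.p (S t) :=
    Finset.sum_le_sum_of_subset hsub
  rw [Finset.sum_insert (by simp only [Finset.mem_insert, Finset.mem_singleton]; omega),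
    Finset.sum_insert (by simp only [Finset.mem_singleton]; omega), Finset.sum_singleton,
    V_p_ne _ hSx, V_p_ne _ hSy, hSb, V_p_zero] at hle
  have hf : V.f 0 = 22699 := rfl
  omega

include hS in
theorem long_infinite : {t | S t ≠ 0}.Infinite := by
  rw [Set.infinite_iff_exists_gt]
  intro N
  obtain ⟨t, ht, hSt⟩ := (hS 1).1 (N + 1)
  refine ⟨t, ?_, by omega⟩
  show S t ≠ 0
  rw [hSt]
  decide

/-- The times of the long jobs. -/
noncomputable def T (S : ℕ → Fin 5) (k : ℕ) : ℕ := Nat.nth (fun t => S t ≠ 0) k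

include hS in
theorem T_strictMono : StrictMono (T S) := Nat.nth_strictMono (long_infinite hS)

include hS in
theorem T_mem (k : ℕ) : S (T S k) ≠ 0 := Nat.nth_mem_of_infinite (long_infinite hS) k

theorem exists_T (t : ℕ) (ht : S t ≠ 0) : ∃ k, T S k = t := by
  classical
  exact ⟨Nat.count (fun t => S t ≠ 0) t, Nat.nth_count ht⟩

include hS in
/-- The total duration between two long jobs. -/
theorem sum_lower : ∃ K0, ∀ u v, K0 ≤ u → u ≤ v →
    (v - u) * 12700 ≤ ∑ t ∈ Finset.Ioc (T S u) (T S v), V.p (S t) := by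
  obtain ⟨N0, hN0⟩ := short_between hS
  refine ⟨N0, ?_⟩
  intro u v hu huv
  induction v, huv using Nat.le_induction with
  | base => simp
  | succ v huv ih =>
    have hmono := T_strictMono hS
    have h1 : T S v < T S (v + 1) := hmono (Nat.lt_succ_self v)
    have h2 : T S u ≤ T S v := hmono.monotone huv
    have h3 : N0 ≤ T S v := le_trans (le_trans hu huv) (hmono.id_le v)
    obtain ⟨s, hs1, hs2, hs3⟩ := hN0 _ _ h3 h1 (T_mem hS v) (T_mem hS (v + 1))
    have hsplit : Finset.Ioc (T S u) (T S v) ∪ Finset.Ioc (T S v) (T S (v + 1)) =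
        Finset.Ioc (T S u) (T S (v + 1)) := Finset.Ioc_union_Ioc_eq_Ioc h2 h1.le
    have hdisj : Disjoint (Finset.Ioc (T S u) (T S v)) (Finset.Ioc (T S v) (T S (v + 1))) := by
      rw [Finset.disjoint_left]
      intro t h4 h5
      rw [Finset.mem_Ioc] at h4 h5
      omega
    rw [← hsplit, Finset.sum_union hdisj]
    have hsub : ({s, T S (v + 1)} : Finset ℕ) ⊆ Finset.Ioc (T S v) (T S (v + 1)) := by
      intro t ht
      simp only [Finset.mem_insert, Finset.mem_singleton] at ht
      rw [Finset.mem_Ioc]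
      omega
    have hle : ∑ t ∈ ({s, T S (v + 1)} : Finset ℕ), V.p (S t) ≤
        ∑ t ∈ Finset.Ioc (T S v) (T S (v + 1)), V.p (S t) :=
      Finset.sum_le_sum_of_subset hsub
    rw [Finset.sum_insert (by simp only [Finset.mem_singleton]; omega), Finset.sum_singleton,
      hs3, V_p_zero, V_p_ne _ (T_mem hS (v + 1))] at hle
    have h6 : (v + 1 - u) * 12700 = (v - u) * 12700 + 12700 := by
      have : v + 1 - u = (v - u) + 1 := by omega
      rw [this, Nat.add_mul, Nat.one_mul]
    rw [h6]
    exact Nat.add_le_add ih (le_trans (by norm_num) hle)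

include hS in
/-- Every window of `m` consecutive long jobs contains job `i`, if `f i < 12700 (m + 1)`. -/
theorem window (i : Fin 5) (hi : i ≠ 0) (m : ℕ) (hm : V.f i < 12700 * (m + 1)) :
    ∃ K, ∀ k, K ≤ k → ∃ j, j < m ∧ S (T S (k + j)) = i := by
  obtain ⟨K0, hK0⟩ := sum_lower hS
  obtain ⟨t0, ht0, hSt0⟩ := (hS i).1 (T S K0)
  obtain ⟨k0, hk0⟩ := exists_T (S := S) t0 (by rw [hSt0]; exact hi)
  have hmono := T_strictMono hS
  have hk0K : K0 ≤ k0 := by
    rw [← hk0] at ht0
    exact hmono.le_iff_le.1 ht0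
  refine ⟨k0 + 1, ?_⟩
  intro k hk
  by_contra hno
  push Not at hno
  -- no occurrence of i strictly between T (k-1) and T (k+m)
  have hxy : T S (k - 1) < T S (k + m) := hmono (by omega)
  have hno' : ∀ t, T S (k - 1) < t → t < T S (k + m) → S t ≠ i := by
    intro t h1 h2 h3
    obtain ⟨l, hl⟩ := exists_T (S := S) t (by rw [h3]; exact hi)
    rw [← hl] at h1 h2 h3
    have h4 := hmono.lt_iff_lt.1 h1
    have h5 := hmono.lt_iff_lt.1 h2
    have h6 := hno (l - k) (by omega)
    rw [show k + (l - k) = l by omega] at h6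
    exact h6 h3
  obtain ⟨a, b, hax, hyb, hSa, hSb, hab⟩ := exists_gap S i (hS i).1 _ _ hxy
    ⟨T S k0, hmono.monotone (by omega), by rw [hk0]; exact hSt0⟩ hno'
  have hsum := (hS i).2 a b (by omega) hSa hSb hab
  obtain ⟨u, hu⟩ := exists_T (S := S) a (by rw [hSa]; exact hi)
  obtain ⟨v, hv⟩ := exists_T (S := S) b (by rw [hSb]; exact hi)
  have hu1 : u ≤ k - 1 := by
    rw [← hu] at hax
    exact hmono.le_iff_le.1 hax
  have hv1 : k + m ≤ v := by
    rw [← hv] at hyb
    exact hmono.le_iff_le.1 hyb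
  have hk0u : k0 ≤ u := by
    by_contra hc
    have h7 : T S u < T S k0 := hmono (by omega)
    have h8 : T S k0 < T S v := hmono (by omega)
    rw [hu] at h7
    rw [hv] at h8
    exact hab (T S k0) h7 h8 (by rw [hk0]; exact hSt0)
  have hl := hK0 u v (by omega) (by omega)
  rw [hu, hv] at hl
  have h9 : (m + 1) * 12700 ≤ (v - u) * 12700 := Nat.mul_le_mul_right _ (by omega)
  omega

/-- The instance is infeasible. -/
theorem V_infeasible : ¬ V.Feasible := by
  rintro ⟨S, hS⟩
  obtain ⟨K1, h1⟩ := window hS 1 (by decide) 2 (by decide)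
  obtain ⟨K2, h2⟩ := window hS 2 (by decide) 5 (by decide)
  obtain ⟨K3, h3⟩ := window hS 3 (by decide) 7 (by decide)
  set K := K1 + K2 + K3 + 3 with hK
  obtain ⟨t0, ht0, hSt0⟩ := (hS 4).1 (T S K)
  obtain ⟨n, hn⟩ := exists_T (S := S) t0 (by rw [hSt0]; decide)
  have hmono := T_strictMono hS
  have hnK : K ≤ n := by
    rw [← hn] at ht0
    exact hmono.le_iff_le.1 ht0
  have h0 : S (T S n) = 4 := by rw [hn]; exact hSt0
  obtain ⟨q, hq⟩ : ∃ q, n = q + 3 := ⟨n - 3, by omega⟩
  subst hq
  have w2 : ∀ k, K1 ≤ k → S (T S k) = 1 ∨ S (T S (k + 1)) = 1 := by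
    intro k hk
    obtain ⟨j, hj, hj2⟩ := h1 k hk
    interval_cases j
    · left; exact hj2
    · right; exact hj2
  have w5 : ∀ k, K2 ≤ k → S (T S k) = 2 ∨ S (T S (k + 1)) = 2 ∨ S (T S (k + 2)) = 2 ∨
      S (T S (k + 3)) = 2 ∨ S (T S (k + 4)) = 2 := by
    intro k hk
    obtain ⟨j, hj, hj2⟩ := h2 k hk
    interval_cases j
    · left; exact hj2
    · right; left; exact hj2
    · right; right; left; exact hj2
    · right; right; right; left; exact hj2
    · right; right; right; right; exact hj2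
  have w7 : ∀ k, K3 ≤ k → S (T S k) = 3 ∨ S (T S (k + 1)) = 3 ∨ S (T S (k + 2)) = 3 ∨
      S (T S (k + 3)) = 3 ∨ S (T S (k + 4)) = 3 ∨ S (T S (k + 5)) = 3 ∨
      S (T S (k + 6)) = 3 := by
    intro k hk
    obtain ⟨j, hj, hj2⟩ := h3 k hk
    interval_cases j
    · left; exact hj2
    · right; left; exact hj2
    · right; right; left; exact hj2
    · right; right; right; left; exact hj2
    · right; right; right; right; left; exact hj2
    · right; right; right; right; right; left; exact hj2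
    · right; right; right; right; right; right; exact hj2
  have a1 := w2 q (by omega)
  have a2 := w2 (q + 2) (by omega)
  have a3 := w2 (q + 3) (by omega)
  have a4 := w2 (q + 5) (by omega)
  have b1 := w5 q (by omega)
  have b2 := w5 (q + 1) (by omega)
  have b3 := w5 (q + 2) (by omega)
  have c1 := w7 q (by omega)
  simp only [Nat.add_assoc, Nat.reduceAdd] at a1 a2 a3 a4 b1 b2 b3 c1
  generalize S (T S q) = x0 at *
  generalize S (T S (q + 1)) = x1 at *
  generalize S (T S (q + 2)) = x2 at *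
  generalize S (T S (q + 3)) = x3 at *
  generalize S (T S (q + 4)) = x4 at *
  generalize S (T S (q + 5)) = x5 at *
  generalize S (T S (q + 6)) = x6 at *
  clear h1 h2 h3 w2 w5 w7 hmono hS hSt0 hn ht0
  omega

end Pool.Agent.V11167.Daps
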