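import Mathlib

/-! Definitions for MP_3da004_co. -/

noncomputable section

namespace Pool.Agent.V11167.SqDefs

open MeasureTheory

/-- The closed square in the Euclidean plane with centre `p`, side length `2 s`, and sides parallel
to the orthogonal unit vectors `(cos θ, sin θ)` and `(-sin θ, cos θ)`. -/
def square (p : ℝ × ℝ) (θ s : ℝ) : Set (ℝ × ℝ) :=
  {z | |Real.cos θ * (z.1 - p.1) + Real.sin θ * (z.2 - p.2)| ≤ s ∧
    |-Real.sin θ * (z.1 - p.1) + Real.cos θ * (z.2 - p.2)| ≤ s}

/-- The closed half-plane with outer normal `(cos θ, sin θ)` and offset `c`. -/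
def halfPlane (θ c : ℝ) : Set (ℝ × ℝ) := {z | Real.cos θ * z.1 + Real.sin θ * z.2 ≤ c}

/-- Three finite measures on the plane, absolutely continuous with respect to Lebesgue measure. -/
def FiniteAC (μ : Fin 3 → Measure (ℝ × ℝ)) : Prop :=
  ∀ i, IsFiniteMeasure (μ i) ∧ μ i ≪ volume

/-- `A` contains exactly half of each of the three measures. -/
def Halves (A : Set (ℝ × ℝ)) (μ : Fin 3 → Measure (ℝ × ℝ)) : Prop :=
  ∀ i, μ i A = μ i Set.univ / 2

end Pool.Agent.V11167.SqDefs
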