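import Mathlib

/-! Squares bisecting three measures (for MP_3da004_co): geometry. -/

noncomputable section

namespace Pool.Agent.V11167.Sq3

open MeasureTheory Set Filter Topology

abbrev Pt : Type := ℝ × ℝ

def uu (θ : ℝ) (z : Pt) : ℝ := Real.cos θ * z.1 + Real.sin θ * z.2
def vv (θ : ℝ) (z : Pt) : ℝ := -Real.sin θ * z.1 + Real.cos θ * z.2
def mm (θ x : ℝ) (z : Pt) : ℝ := max |uu θ z - x| |vv θ z|

/-- the closed square with centre `x (cos θ, sin θ)`, half side `s` and one side orthogonal to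
`(cos θ, sin θ)` -/
def Sq (θ x s : ℝ) : Set Pt := {z | mm θ x z ≤ s}
def Dk (M : ℝ) : Set Pt := {z | z.1 ^ 2 + z.2 ^ 2 < M ^ 2}

lemma uu_vv (θ : ℝ) (z : Pt) : uu θ z ^ 2 + vv θ z ^ 2 = z.1 ^ 2 + z.2 ^ 2 := by
  unfold uu vv
  have := Real.sin_sq_add_cos_sq θ
  linear_combination (z.1 ^ 2 + z.2 ^ 2) * this

lemma abs_uu {θ M : ℝ} (hM : 0 < M) {z : Pt} (hz : z ∈ Dk M) : |uu θ z| < M := by
  apply abs_lt_of_sq_lt_sq _ hM.le
  have := uu_vv θ z
  have h2 : z.1 ^ 2 + z.2 ^ 2 < M ^ 2 := hz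
  nlinarith [sq_nonneg (vv θ z)]

lemma abs_vv {θ M : ℝ} (hM : 0 < M) {z : Pt} (hz : z ∈ Dk M) : |vv θ z| < M := by
  apply abs_lt_of_sq_lt_sq _ hM.le
  have := uu_vv θ z
  have h2 : z.1 ^ 2 + z.2 ^ 2 < M ^ 2 := hz
  nlinarith [sq_nonneg (uu θ z)]

lemma cont_uu : Continuous (fun p : ℝ × Pt => uu p.1 p.2) := by
  unfold uu; fun_prop
lemma cont_vv : Continuous (fun p : ℝ × Pt => vv p.1 p.2) := by
  unfold vv; fun_prop
lemma cont_mm : Continuous (fun p : ℝ × ℝ × Pt => mm p.1 p.2.1 p.2.2) := by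
  unfold mm uu vv; fun_prop

lemma cont_mm' (θ x : ℝ) : Continuous (mm θ x) := by
  unfold mm uu vv; fun_prop

lemma closed_Sq (θ x s : ℝ) : IsClosed (Sq θ x s) :=
  isClosed_le (cont_mm' θ x) continuous_const

lemma meas_Sq (θ x s : ℝ) : MeasurableSet (Sq θ x s) := (closed_Sq θ x s).measurableSet

lemma open_Dk (M : ℝ) : IsOpen (Dk M) := isOpen_lt (by fun_prop) continuous_const

lemma meas_Dk (M : ℝ) : MeasurableSet (Dk M) := (open_Dk M).measurableSet

lemma convex_Dk (M : ℝ) : Convex ℝ (Dk M) := by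
  have : Dk M = {z : Pt | z ∈ (univ : Set Pt) ∧ z.1 ^ 2 + z.2 ^ 2 < M ^ 2} := by
    ext z; simp [Dk]
  rw [this]
  apply ConvexOn.convex_lt
  refine ⟨convex_univ, ?_⟩
  rintro ⟨x1, y1⟩ - ⟨x2, y2⟩ - a b ha hb hab
  simp only [Prod.smul_mk, Prod.mk_add_mk, smul_eq_mul]
  have : b = 1 - a := by linarith
  subst this
  nlinarith [mul_nonneg ha hb, mul_nonneg (mul_nonneg ha hb) (sq_nonneg (x1 - x2)),
    mul_nonneg (mul_nonneg ha hb) (sq_nonneg (y1 - y2))]

/-- a line has measure zero -/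
lemma null_line {a b : ℝ} (hab : a ^ 2 + b ^ 2 = 1) (c : ℝ) :
    volume {z : Pt | a * z.1 + b * z.2 = c} = 0 := by
  have hmeas : MeasurableSet {z : Pt | a * z.1 + b * z.2 = c} :=
    (isClosed_eq (by fun_prop) continuous_const).measurableSet
  rw [Measure.volume_eq_prod]
  rw [Measure.measure_prod_null hmeas]
  by_cases hb : b = 0
  · have ha : a ≠ 0 := by
      rintro rfl
      rw [hb] at hab
      norm_num at hab
    have h1 : ∀ᵐ x : ℝ, x ≠ c / a := by
      rw [ae_iff]
      simp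
    filter_upwards [h1] with x hx
    have : Prod.mk x ⁻¹' {z : Pt | a * z.1 + b * z.2 = c} = ∅ := by
      ext y
      simp only [mem_preimage, mem_setOf_eq, mem_empty_iff_false, iff_false, hb, zero_mul, add_zero]
      intro h
      apply hx
      rw [← h]
      field_simp
    rw [this]; simp
  · filter_upwards with x
    have : Prod.mk x ⁻¹' {z : Pt | a * z.1 + b * z.2 = c} = {(c - a * x) / b} := by
      ext y
      simp only [mem_preimage, mem_setOf_eq, mem_singleton_iff]
      rw [eq_div_iff hb]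
      constructor <;> intro h <;> linarith
    rw [this]; simp

lemma null_uu (θ c : ℝ) : volume {z : Pt | uu θ z = c} = 0 :=
  null_line (by rw [add_comm]; exact Real.sin_sq_add_cos_sq θ) c

lemma null_vv (θ c : ℝ) : volume {z : Pt | vv θ z = c} = 0 :=
  null_line (by rw [neg_sq]; exact Real.sin_sq_add_cos_sq θ) c

lemma null_mm (θ x s : ℝ) : volume {z : Pt | mm θ x z = s} = 0 := by
  have hsub : {z : Pt | mm θ x z = s} ⊆ ({z : Pt | uu θ z = x + s} ∪ {z : Pt | uu θ z = x - s}) ∪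
      ({z : Pt | vv θ z = s} ∪ {z : Pt | vv θ z = -s}) := by
    intro z hz
    simp only [mem_setOf_eq, mm] at hz
    rcases max_choice |uu θ z - x| |vv θ z| with h | h
    · rw [h] at hz
      left
      rcases abs_cases (uu θ z - x) with ⟨h1, -⟩ | ⟨h1, -⟩
      · left; simp only [mem_setOf_eq]; linarith
      · right; simp only [mem_setOf_eq]; linarith
    · rw [h] at hz
      right
      rcases abs_cases (vv θ z) with ⟨h1, -⟩ | ⟨h1, -⟩
      · left; simp only [mem_setOf_eq]; linarith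
      · right; simp only [mem_setOf_eq]; linarith
  refine measure_mono_null hsub ?_
  rw [measure_union_null_iff, measure_union_null_iff, measure_union_null_iff]
  exact ⟨⟨null_uu _ _, null_uu _ _⟩, ⟨null_vv _ _, null_vv _ _⟩⟩

/-- the measure of the square depends continuously on the square -/
lemma cont_meas' {X : Type*} [TopologicalSpace X] [FirstCountableTopology X] (μ : Measure Pt)
    [IsFiniteMeasure μ] (hμ : μ ≪ volume) {a b c : X → ℝ} (ha : Continuous a) (hb : Continuous b)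
    (hc : Continuous c) : Continuous (fun p => μ.real (Sq (a p) (b p) (c p))) := by
  rw [continuous_iff_continuousAt]
  intro p
  have key : Tendsto (fun q => μ (Sq (a q) (b q) (c q))) (𝓝 p) (𝓝 (μ (Sq (a p) (b p) (c p)))) := by
    refine tendsto_measure_of_ae_tendsto_indicator_of_isFiniteMeasure (𝓝 p) (meas_Sq _ _ _)
      (fun q => meas_Sq _ _ _) ?_
    have h0 : ∀ᵐ z ∂μ, mm (a p) (b p) z ≠ c p := by
      rw [ae_iff]
      simpa using hμ (null_mm (a p) (b p) (c p))
    filter_upwards [h0] with z hz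
    have hcc : Continuous (fun q => mm (a q) (b q) z - c q) := by
      unfold mm uu vv
      fun_prop
    rcases lt_or_gt_of_ne hz with h | h
    · have h1 : ∀ᶠ q in 𝓝 p, mm (a q) (b q) z - c q < 0 :=
        hcc.continuousAt.eventually_lt continuousAt_const (by simpa using h)
      filter_upwards [h1] with q hq
      constructor
      · intro _; exact h.le
      · intro _
        show mm (a q) (b q) z ≤ c q
        linarith
    · have h1 : ∀ᶠ q in 𝓝 p, 0 < mm (a q) (b q) z - c q :=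
        continuousAt_const.eventually_lt hcc.continuousAt (by simpa using h)
      filter_upwards [h1] with q hq
      constructor
      · intro h2
        have : mm (a q) (b q) z ≤ c q := h2
        linarith
      · intro h2
        have : mm (a p) (b p) z ≤ c p := h2
        linarith
  exact (ENNReal.tendsto_toReal (measure_ne_top _ _)).comp key

lemma Sq_mono (θ x : ℝ) {s t : ℝ} (h : s ≤ t) : Sq θ x s ⊆ Sq θ x t := fun _ hz => le_trans hz h

lemma mm_pi (θ x : ℝ) (z : Pt) : mm (θ + Real.pi) x z = mm θ (-x) z := by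
  unfold mm uu vv
  rw [Real.cos_add_pi, Real.sin_add_pi]
  have h1 : -Real.cos θ * z.1 + -Real.sin θ * z.2 - x =
      -(Real.cos θ * z.1 + Real.sin θ * z.2 - -x) := by ring
  have h2 : - -Real.sin θ * z.1 + -Real.cos θ * z.2 = -(-Real.sin θ * z.1 + Real.cos θ * z.2) := by
    ring
  rw [h1, h2, abs_neg, abs_neg]

lemma Sq_pi (θ x s : ℝ) : Sq (θ + Real.pi) x s = Sq θ (-x) s := by
  ext z
  simp only [Sq, mem_setOf_eq, mm_pi]

lemma mem_Sq {θ x s : ℝ} {z : Pt} : z ∈ Sq θ x s ↔ (x - s ≤ uu θ z ∧ uu θ z ≤ x + s) ∧ |vv θ z| ≤ s := by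
  simp only [Sq, mm, mem_setOf_eq, max_le_iff, abs_le (a := uu θ z - x)]
  constructor
  · rintro ⟨⟨h1, h2⟩, h3⟩; exact ⟨⟨by linarith, by linarith⟩, h3⟩
  · rintro ⟨⟨h1, h2⟩, h3⟩; exact ⟨⟨by linarith, by linarith⟩, h3⟩

end Pool.Agent.V11167.Sq3
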