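import Mathlib
import Pool.Agent.V11167.SqA

/-! Squares bisecting three measures (for MP_3da004_co): the topological core. -/

noncomputable section

namespace Pool.Agent.V11167.Sq3

open MeasureTheory Set Filter Topology

/-- a finite measure living on the disc `Dk M` and charging every nonempty open subset of it -/
structure Good (ν : Measure Pt) (M : ℝ) : Prop where
  fin : IsFiniteMeasure ν
  ac : ν ≪ volume
  supp : ν (Dk M)ᶜ = 0
  pos : ∀ U : Set Pt, IsOpen U → U.Nonempty → U ⊆ Dk M → 0 < ν U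

section core

variable {ν : Measure Pt} {M : ℝ} (hM : 0 < M) (hν : Good ν M)

lemma real_inter {μ : Measure Pt} [IsFiniteMeasure μ] (hμ : μ (Dk M)ᶜ = 0) (A : Set Pt) :
    μ.real (A ∩ Dk M) = μ.real A := by
  unfold Measure.real
  rw [measure_inter_conull' (by
    apply measure_mono_null _ hμ
    intro z hz; exact hz.2)]

lemma congr_inter {μ : Measure Pt} [IsFiniteMeasure μ] (hμ : μ (Dk M)ᶜ = 0) {A B : Set Pt}
    (h : ∀ z ∈ Dk M, z ∈ A ↔ z ∈ B) : μ.real A = μ.real B := by
  rw [← real_inter hμ A, ← real_inter hμ B]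
  congr 1
  ext z
  constructor
  · rintro ⟨h1, h2⟩; exact ⟨(h z h2).1 h1, h2⟩
  · rintro ⟨h1, h2⟩; exact ⟨(h z h2).2 h1, h2⟩

include hM hν

lemma zero_mem_Dk : (0 : Pt) ∈ Dk M := by
  show (0 : ℝ) ^ 2 + (0 : ℝ) ^ 2 < M ^ 2
  have := pow_pos hM 2
  linarith

lemma tot_pos : 0 < ν.real univ := by
  have := hν.fin
  have h1 : 0 < ν (Dk M) := hν.pos _ (open_Dk M) ⟨0, zero_mem_Dk hM hν⟩ subset_rfl
  have h2 : 0 < ν univ := h1.trans_le (measure_mono (subset_univ _))
  exact ENNReal.toReal_pos h2.ne' (measure_ne_top _ _)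

lemma F_zero (θ x : ℝ) : ν.real (Sq θ x 0) = 0 := by
  have := hν.fin
  have : ν (Sq θ x 0) = 0 := by
    apply hν.ac
    apply measure_mono_null _ (null_mm θ x 0)
    intro z hz
    have h1 : mm θ x z ≤ 0 := hz
    exact le_antisymm h1 (le_max_of_le_left (abs_nonneg _))
  simp [Measure.real, this]

lemma F_big (θ x : ℝ) {s : ℝ} (hs : |x| + M ≤ s) : ν.real (Sq θ x s) = ν.real univ := by
  have := hν.fin
  apply congr_inter (M := M) hν.supp
  intro z hz
  simp only [mem_univ, iff_true]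
  rw [mem_Sq]
  have h1 := abs_lt.1 (abs_uu (θ := θ) hM hz)
  have h2 := abs_vv (θ := θ) hM hz
  have h3 := abs_le.1 (le_refl |x|)
  exact ⟨⟨by linarith, by linarith⟩, by linarith [abs_nonneg x]⟩

lemma F_unique (θ x : ℝ) {s t : ℝ} (hs : ν.real (Sq θ x s) = ν.real univ / 2)
    (ht : ν.real (Sq θ x t) = ν.real univ / 2) : s = t := by
  have := hν.fin
  have htot := tot_pos hM hν
  wlog hst : s < t generalizing s t
  · rcases eq_or_lt_of_le (not_lt.1 hst) with h | h
    · exact h.symm
    · exact (this ht hs h).symm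
  exfalso
  -- a point of the disc in the small square
  obtain ⟨p, hp, hpm⟩ : ∃ p ∈ Dk M, mm θ x p ≤ s := by
    by_contra hcon
    push Not at hcon
    have : ν.real (Sq θ x s) = ν.real ∅ := by
      apply congr_inter (M := M) hν.supp
      intro z hz
      simp only [mem_empty_iff_false, iff_false]
      intro h
      exact absurd h (not_le.2 (hcon z hz))
    rw [measureReal_empty] at this
    linarith
  obtain ⟨q, hq, hqm⟩ : ∃ q ∈ Dk M, t < mm θ x q := by
    by_contra hcon
    push Not at hcon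
    have : ν.real (Sq θ x t) = ν.real univ := by
      apply congr_inter (M := M) hν.supp
      intro z hz
      simp only [mem_univ, iff_true]
      exact hcon z hz
    linarith
  obtain ⟨z, hz, hzm⟩ := (convex_Dk M).isPreconnected.intermediate_value hp hq
    (cont_mm' θ x).continuousOn (⟨by linarith, by linarith⟩ : (s + t) / 2 ∈ Icc (mm θ x p) (mm θ x q))
  set U : Set Pt := Dk M ∩ {w | s < mm θ x w ∧ mm θ x w < t} with hU
  have hUo : IsOpen U := (open_Dk M).inter
    ((isOpen_lt continuous_const (cont_mm' θ x)).inter (isOpen_lt (cont_mm' θ x) continuous_const))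
  have hUpos : 0 < ν U := hν.pos U hUo ⟨z, hz, by show s < mm θ x z; linarith, by
    show mm θ x z < t; linarith⟩ inter_subset_left
  have hdisj : Disjoint (Sq θ x s) U := by
    rw [Set.disjoint_left]
    intro w hw hwU
    exact absurd hwU.2.1 (not_lt.2 hw)
  have h1 : ν (Sq θ x s) + ν U ≤ ν (Sq θ x t) := by
    rw [← measure_union hdisj hUo.measurableSet]
    apply measure_mono
    rintro w (hw | hw)
    · exact Sq_mono θ x hst.le hw
    · exact hw.2.2.le
  have h2 : ν.real (Sq θ x s) + ν.real U ≤ ν.real (Sq θ x t) := by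
    unfold Measure.real
    rw [← ENNReal.toReal_add (measure_ne_top _ _) (measure_ne_top _ _)]
    exact ENNReal.toReal_mono (measure_ne_top _ _) h1
  have h3 : 0 < ν.real U := ENNReal.toReal_pos hUpos.ne' (measure_ne_top _ _)
  linarith

lemma F_exists (θ x : ℝ) : ∃ s, 0 ≤ s ∧ s ≤ |x| + M ∧ ν.real (Sq θ x s) = ν.real univ / 2 := by
  have := hν.fin
  have htot := tot_pos hM hν
  have hc : Continuous fun s : ℝ => ν.real (Sq θ x s) :=
    cont_meas' ν hν.ac continuous_const continuous_const continuous_id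
  have h0 : (0 : ℝ) ≤ |x| + M := by positivity
  have := intermediate_value_Icc h0 hc.continuousOn
  rw [F_zero hM hν, F_big hM hν θ x le_rfl] at this
  obtain ⟨s, hs, hs2⟩ := this (⟨by positivity, by linarith⟩ :
    ν.real univ / 2 ∈ Icc 0 (ν.real univ))
  exact ⟨s, hs.1, hs.2, hs2⟩

/-- the half side of the bisecting square -/
def SS (hM : 0 < M) (hν : Good ν M) (θ x : ℝ) : ℝ := (F_exists hM hν θ x).choose

lemma SS_nonneg (θ x : ℝ) : 0 ≤ SS hM hν θ x := (F_exists hM hν θ x).choose_spec.1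
lemma SS_le (θ x : ℝ) : SS hM hν θ x ≤ |x| + M := (F_exists hM hν θ x).choose_spec.2.1
lemma SS_spec (θ x : ℝ) : ν.real (Sq θ x (SS hM hν θ x)) = ν.real univ / 2 :=
  (F_exists hM hν θ x).choose_spec.2.2
lemma SS_eq {θ x s : ℝ} (hs : ν.real (Sq θ x s) = ν.real univ / 2) : SS hM hν θ x = s :=
  F_unique hM hν θ x (SS_spec hM hν θ x) hs

lemma SS_cont : Continuous (fun p : ℝ × ℝ => SS hM hν p.1 p.2) := by
  have := hν.fin
  rw [continuous_iff_continuousAt]
  intro p
  have hmono : ∀ θ x : ℝ, Monotone fun s => ν.real (Sq θ x s) := fun θ x s t hst =>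
    measureReal_mono (Sq_mono θ x hst)
  have hc : ∀ s, Continuous fun q : ℝ × ℝ => ν.real (Sq q.1 q.2 s) := fun s =>
    cont_meas' ν hν.ac continuous_fst continuous_snd continuous_const
  refine tendsto_order.2 ⟨fun a ha => ?_, fun a ha => ?_⟩
  · have h1 : ν.real (Sq p.1 p.2 a) < ν.real univ / 2 := by
      refine lt_of_le_of_ne ?_ fun h => ha.ne (SS_eq hM hν h).symm
      rw [← SS_spec hM hν p.1 p.2]
      exact hmono _ _ ha.le
    filter_upwards [(hc a).continuousAt.eventually_lt continuousAt_const h1] with q hq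
    by_contra hcon
    have := hmono q.1 q.2 (not_lt.1 hcon)
    simp only at this
    rw [SS_spec] at this
    linarith
  · have h1 : ν.real univ / 2 < ν.real (Sq p.1 p.2 a) := by
      refine lt_of_le_of_ne ?_ fun h => ha.ne (SS_eq hM hν h.symm)
      rw [← SS_spec hM hν p.1 p.2]
      exact hmono _ _ ha.le
    filter_upwards [continuousAt_const.eventually_lt (hc a).continuousAt h1] with q hq
    by_contra hcon
    have := hmono q.1 q.2 (not_lt.1 hcon)
    simp only at this
    rw [SS_spec] at this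
    linarith

lemma SS_pi (θ x : ℝ) : SS hM hν (θ + Real.pi) x = SS hM hν θ (-x) := by
  apply SS_eq
  rw [Sq_pi]
  exact SS_spec hM hν θ (-x)

/-- inside the disc, far away squares are half-planes -/
lemma far_neg {θ s : ℝ} (hs : M ≤ s) {z : Pt} (hz : z ∈ Dk M) :
    z ∈ Sq θ (-(3 * M)) s ↔ uu θ z ≤ s - 3 * M := by
  have h1 := abs_lt.1 (abs_uu (θ := θ) hM hz)
  have h2 := abs_vv (θ := θ) hM hz
  rw [mem_Sq]
  constructor
  · rintro ⟨⟨-, h⟩, -⟩; linarith
  · intro h; exact ⟨⟨by linarith, by linarith⟩, by linarith⟩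

lemma far_pos {θ s : ℝ} (hs : M ≤ s) {z : Pt} (hz : z ∈ Dk M) :
    z ∈ Sq θ (3 * M) s ↔ 3 * M - s ≤ uu θ z := by
  have h1 := abs_lt.1 (abs_uu (θ := θ) hM hz)
  have h2 := abs_vv (θ := θ) hM hz
  rw [mem_Sq]
  constructor
  · rintro ⟨⟨h, -⟩, -⟩; linarith
  · intro h; exact ⟨⟨by linarith, by linarith⟩, by linarith⟩

lemma SS_neg_bounds (θ : ℝ) : 2 * M ≤ SS hM hν θ (-(3 * M)) ∧ SS hM hν θ (-(3 * M)) ≤ 4 * M := by
  have := hν.fin
  have htot := tot_pos hM hν
  have hspec := SS_spec hM hν θ (-(3 * M))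
  refine ⟨?_, ?_⟩
  · by_contra hcon
    push Not at hcon
    have : ν.real (Sq θ (-(3 * M)) (SS hM hν θ (-(3 * M)))) = ν.real ∅ := by
      apply congr_inter (M := M) hν.supp
      intro z hz
      simp only [mem_empty_iff_false, iff_false]
      intro h
      have h1 := abs_lt.1 (abs_uu (θ := θ) hM hz)
      rw [mem_Sq] at h
      linarith [h.1.2]
    rw [measureReal_empty] at this
    linarith
  · have := SS_le hM hν θ (-(3 * M))
    rw [abs_neg, abs_of_pos (by positivity : 0 < 3 * M)] at this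
    linarith

lemma compl_eq {μ : Measure Pt} [IsFiniteMeasure μ] (hac : μ ≪ volume) (θ a : ℝ) :
    μ.real {z : Pt | a ≤ uu θ z} = μ.real univ - μ.real {z : Pt | uu θ z ≤ a} := by
  have hcont : Continuous (uu θ) := by unfold uu; fun_prop
  have h1 : μ.real {z : Pt | uu θ z ≤ a} = μ.real {z : Pt | uu θ z < a} := by
    apply le_antisymm
    · have : μ.real {z : Pt | uu θ z ≤ a} ≤
          μ.real ({z : Pt | uu θ z < a} ∪ {z : Pt | uu θ z = a}) := by
        refine measureReal_mono ?_ (measure_ne_top _ _)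
        intro z hz
        have hz' : uu θ z ≤ a := hz
        rcases lt_or_eq_of_le hz' with h | h
        · exact Or.inl h
        · exact Or.inr h
      have h2 : μ.real {z : Pt | uu θ z = a} = 0 := by
        simp [Measure.real, hac (null_uu θ a)]
      linarith [measureReal_union_le (μ := μ) {z : Pt | uu θ z < a} {z : Pt | uu θ z = a}]
    · refine measureReal_mono ?_ (measure_ne_top _ _)
      intro z hz
      have hz' : uu θ z < a := hz
      exact hz'.le
  have h2 : {z : Pt | a ≤ uu θ z} = {z : Pt | uu θ z < a}ᶜ := by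
    ext z; simp
  rw [h1, h2, measureReal_compl (isOpen_lt hcont continuous_const).measurableSet]

/-- the two extreme squares have the same boundary line -/
lemma SS_sum (θ : ℝ) : SS hM hν θ (3 * M) = 6 * M - SS hM hν θ (-(3 * M)) := by
  have := hν.fin
  have hb := SS_neg_bounds hM hν θ
  have hspec := SS_spec hM hν θ (-(3 * M))
  set s := SS hM hν θ (-(3 * M)) with hs
  apply SS_eq
  have h1 : ν.real (Sq θ (3 * M) (6 * M - s)) = ν.real {z : Pt | s - 3 * M ≤ uu θ z} := by
    apply congr_inter (M := M) hν.supp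
    intro z hz
    rw [far_pos hM hν (by linarith) hz]
    simp only [mem_setOf_eq]
    constructor <;> intro h <;> linarith
  have h2 : ν.real (Sq θ (-(3 * M)) s) = ν.real {z : Pt | uu θ z ≤ s - 3 * M} := by
    apply congr_inter (M := M) hν.supp
    intro z hz
    rw [far_neg hM hν (by linarith) hz]
    rfl
  rw [h1, compl_eq hM hν hν.ac, ← h2, hspec]
  ring

/-- antisymmetry at the ends -/
lemma anti {μ : Measure Pt} [IsFiniteMeasure μ] (hac : μ ≪ volume) (hsupp : μ (Dk M)ᶜ = 0)
    (θ : ℝ) : μ.real (Sq θ (3 * M) (SS hM hν θ (3 * M))) - μ.real univ / 2 =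
      -(μ.real (Sq θ (-(3 * M)) (SS hM hν θ (-(3 * M)))) - μ.real univ / 2) := by
  have hb := SS_neg_bounds hM hν θ
  rw [SS_sum hM hν]
  set s := SS hM hν θ (-(3 * M)) with hs
  have h1 : μ.real (Sq θ (3 * M) (6 * M - s)) = μ.real {z : Pt | s - 3 * M ≤ uu θ z} := by
    apply congr_inter (M := M) hsupp
    intro z hz
    rw [far_pos hM hν (by linarith) hz]
    simp only [mem_setOf_eq]
    constructor <;> intro h <;> linarith
  have h2 : μ.real (Sq θ (-(3 * M)) s) = μ.real {z : Pt | uu θ z ≤ s - 3 * M} := by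
    apply congr_inter (M := M) hsupp
    intro z hz
    rw [far_neg hM hν (by linarith) hz]
    rfl
  rw [h1, h2, compl_eq hM hν hac]
  ring

end core

/-- the topological statement: a Moebius band argument -/
theorem band (G : ℝ × ℝ → ℂ) (hG : Continuous G) (L : ℝ)
    (h1 : ∀ θ x, G (θ + Real.pi, x) = G (θ, -x)) (h2 : ∀ θ, G (θ, L) = -G (θ, -L)) :
    ∃ p, G p = 0 := by
  by_contra hcon
  push Not at hcon
  obtain ⟨f, hf, hfe⟩ : ∃ f : ℝ × ℝ → ℂ, Continuous f ∧ ∀ p, Complex.exp (f p) = G p := by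
    obtain ⟨f, ⟨-, hf⟩, -⟩ := Complex.isCoveringMapOn_exp.existsUnique_continuousMap_lifts
      (⟨G, hG⟩ : C(ℝ × ℝ, ℂ)) (a₀ := ((0, 0) : ℝ × ℝ)) (e₀ := Complex.log (G (0, 0)))
      (Complex.exp_log (hcon _)) (fun p => hcon p)
    exact ⟨f, f.continuous, fun p => congrFun hf p⟩
  -- the two lifts along the line
  have hlift : ∀ θ x, f (θ + Real.pi, x) - f (θ, -x) = f (θ + Real.pi, L) - f (θ, -L) := by
    intro θ x
    have hc : Continuous fun y : ℝ => f (θ + Real.pi, y) - f (θ, -y) := by fun_prop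
    have := Complex.isCoveringMap_exp.const_of_comp hc (fun y y' => by
      apply Subtype.ext
      simp only [Complex.exp_sub, hfe, h1]
      rw [div_self (hcon _), div_self (hcon _)]) x L
    exact this
  have hodd : ∀ θ, f (θ + Real.pi, L) - f (θ + Real.pi, -L) = -(f (θ, L) - f (θ, -L)) := by
    intro θ
    have := hlift θ (-L)
    rw [neg_neg] at this
    linear_combination -this
  set d : ℝ → ℝ := fun θ => (f (θ, L) - f (θ, -L)).im with hd
  have hdc : Continuous d := by
    simp only [hd]; fun_prop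
  have hdodd : d (0 + Real.pi) = -d 0 := by
    simp only [hd]
    rw [hodd 0, Complex.neg_im]
  obtain ⟨θ, hθ⟩ : ∃ θ, d θ = 0 := by
    rcases le_total (d 0) 0 with h | h
    · exact mem_range_of_exists_le_of_exists_ge hdc ⟨0, h⟩ ⟨0 + Real.pi, by rw [hdodd]; linarith⟩
    · exact mem_range_of_exists_le_of_exists_ge hdc ⟨0 + Real.pi, by rw [hdodd]; linarith⟩ ⟨0, h⟩
  -- the contradiction
  have h3 : f (θ, L) - f (θ, -L) = (((f (θ, L) - f (θ, -L)).re : ℝ) : ℂ) := by
    apply Complex.ext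
    · simp
    · rw [Complex.ofReal_im]; exact hθ
  have h4 : Complex.exp (f (θ, L) - f (θ, -L)) = -1 := by
    rw [Complex.exp_sub, hfe, hfe, h2 θ, neg_div, div_self (hcon _)]
  rw [h3, ← Complex.ofReal_exp] at h4
  have h5 := congrArg Complex.re h4
  simp only [Complex.ofReal_re, Complex.neg_re, Complex.one_re] at h5
  linarith [Real.exp_pos (f (θ, L) - f (θ, -L)).re]

/-- the core statement -/
theorem core {ν μ₁ μ₂ : Measure Pt} {M : ℝ} (hM : 0 < M) (hν : Good ν M)
    [IsFiniteMeasure μ₁] [IsFiniteMeasure μ₂] (hac₁ : μ₁ ≪ volume) (hac₂ : μ₂ ≪ volume)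
    (hs₁ : μ₁ (Dk M)ᶜ = 0) (hs₂ : μ₂ (Dk M)ᶜ = 0) :
    ∃ θ x s : ℝ, 0 ≤ s ∧ ν.real (Sq θ x s) = ν.real univ / 2 ∧
      μ₁.real (Sq θ x s) = μ₁.real univ / 2 ∧ μ₂.real (Sq θ x s) = μ₂.real univ / 2 := by
  have := hν.fin
  have hL : (0 : ℝ) ≤ 3 * M := by positivity
  set G : ℝ × ℝ → ℂ := fun p =>
    ((μ₁.real (Sq p.1 p.2 (SS hM hν p.1 p.2)) - μ₁.real univ / 2 : ℝ) : ℂ) +
    ((μ₂.real (Sq p.1 p.2 (SS hM hν p.1 p.2)) - μ₂.real univ / 2 : ℝ) : ℂ) * Complex.I with hGdef
  have hSc := SS_cont hM hν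
  have hc₁ : Continuous fun p : ℝ × ℝ => μ₁.real (Sq p.1 p.2 (SS hM hν p.1 p.2)) :=
    cont_meas' μ₁ hac₁ continuous_fst continuous_snd hSc
  have hc₂ : Continuous fun p : ℝ × ℝ => μ₂.real (Sq p.1 p.2 (SS hM hν p.1 p.2)) :=
    cont_meas' μ₂ hac₂ continuous_fst continuous_snd hSc
  have hG : Continuous G := by
    simp only [hGdef]; fun_prop
  obtain ⟨p, hp⟩ := band G hG (3 * M) (by
      intro θ x
      simp only [hGdef]
      rw [SS_pi, Sq_pi]) (by
      intro θ
      simp only [hGdef]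
      rw [anti hM hν hac₁ hs₁, anti hM hν hac₂ hs₂]
      push_cast
      ring)
  have hre := congrArg Complex.re hp
  have him := congrArg Complex.im hp
  simp only [hGdef, Complex.add_re, Complex.add_im, Complex.ofReal_re, Complex.ofReal_im,
    Complex.mul_re, Complex.mul_im, Complex.I_re, Complex.I_im, Complex.zero_re,
    Complex.zero_im, mul_zero, mul_one, zero_add, add_zero, sub_zero] at hre him
  exact ⟨p.1, p.2, SS hM hν p.1 p.2, SS_nonneg hM hν _ _, SS_spec hM hν _ _, by linarith, by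
    linarith⟩

end Pool.Agent.V11167.Sq3
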