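import Mathlib
import Pool.Agent.V11167.SqB

/-! Squares bisecting three measures (for MP_3da004_co): passage to the limit. -/

noncomputable section

namespace Pool.Agent.V11167.Sq3

open MeasureTheory Set Filter Topology

lemma exists_angle (θ : ℝ) : ∃ φ ∈ Icc 0 (2 * Real.pi), ∀ x s, Sq θ x s = Sq φ x s := by
  have hpi := Real.two_pi_pos
  refine ⟨θ - ⌊θ / (2 * Real.pi)⌋ * (2 * Real.pi), ⟨?_, ?_⟩, ?_⟩
  · have h1 := Int.floor_le (θ / (2 * Real.pi))
    rw [le_div_iff₀ hpi] at h1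
    linarith
  · have h1 := (Int.lt_floor_add_one (θ / (2 * Real.pi))).le
    rw [div_le_iff₀ hpi] at h1
    linarith
  · intro x s
    unfold Sq mm uu vv
    rw [Real.cos_sub_int_mul_two_pi, Real.sin_sub_int_mul_two_pi]

/-- the family of approximately bisecting squares -/
lemma approx (μ : Fin 3 → Measure Pt) (hfin : ∀ i, IsFiniteMeasure (μ i))
    (hac : ∀ i, μ i ≪ volume) {ε : ℝ} (hε : 0 < ε) :
    ∃ θ x s : ℝ, θ ∈ Icc 0 (2 * Real.pi) ∧ 0 ≤ s ∧
      ∀ i, |(μ i).real (Sq θ x s) - (μ i).real univ / 2| ≤ ε := by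
  -- a large disc
  have hM : ∀ i, ∀ᶠ n : ℕ in atTop, (μ i).real (Dk (n + 1))ᶜ < ε / 2 := by
    intro i
    have := hfin i
    have h1 : Tendsto (fun n : ℕ => (μ i) (Dk ((n : ℝ) + 1))ᶜ) atTop (𝓝 ((μ i) (⋂ n : ℕ,
        (Dk ((n : ℝ) + 1))ᶜ))) := by
      apply tendsto_measure_iInter_atTop
      · exact fun n => (meas_Dk _).compl.nullMeasurableSet
      · intro m n hmn z hz hz2
        apply hz
        have h3 : z.1 ^ 2 + z.2 ^ 2 < ((m : ℝ) + 1) ^ 2 := hz2
        have h4 : ((m : ℝ) + 1) ^ 2 ≤ ((n : ℝ) + 1) ^ 2 := by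
          have : (m : ℝ) ≤ n := by exact_mod_cast hmn
          gcongr
        exact lt_of_lt_of_le h3 h4
      · exact ⟨0, measure_ne_top _ _⟩
    have h2 : (⋂ n : ℕ, (Dk ((n : ℝ) + 1))ᶜ) = ∅ := by
      rw [eq_empty_iff_forall_notMem]
      intro z hz
      rw [mem_iInter] at hz
      obtain ⟨n, hn⟩ := exists_nat_gt (z.1 ^ 2 + z.2 ^ 2)
      apply hz n
      show z.1 ^ 2 + z.2 ^ 2 < ((n : ℝ) + 1) ^ 2
      nlinarith [(Nat.cast_nonneg n : (0 : ℝ) ≤ n)]
    rw [h2, measure_empty] at h1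
    have h3 := (ENNReal.tendsto_toReal ENNReal.zero_ne_top).comp h1
    exact h3.eventually (gt_mem_nhds (by simpa using half_pos hε))
  obtain ⟨n, hn⟩ := (((hM 0).and (hM 1)).and (hM 2)).exists
  obtain ⟨M, hMdef⟩ : ∃ M : ℝ, M = n + 1 := ⟨_, rfl⟩
  have hM0 : 0 < M := by rw [hMdef]; positivity
  rw [← hMdef] at hn
  have hsmall : ∀ i, (μ i).real (Dk M)ᶜ < ε / 2 := by
    intro i
    fin_cases i
    · exact hn.1.1
    · exact hn.1.2
    · exact hn.2
  -- the volume of the disc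
  have hvol : volume (Dk M) ≠ ⊤ := by
    have hsub : Dk M ⊆ Icc (-M) M ×ˢ Icc (-M) M := by
      intro z hz
      have h3 : z.1 ^ 2 + z.2 ^ 2 < M ^ 2 := hz
      have h1 : |z.1| ≤ M := abs_le_of_sq_le_sq (by nlinarith [sq_nonneg z.2]) hM0.le
      have h2 : |z.2| ≤ M := abs_le_of_sq_le_sq (by nlinarith [sq_nonneg z.1]) hM0.le
      exact ⟨abs_le.1 h1, abs_le.1 h2⟩
    exact ((measure_mono hsub).trans_lt (isCompact_Icc.prod isCompact_Icc).measure_lt_top).ne
  obtain ⟨V, hV⟩ : ∃ V : ℝ, V = volume.real (Dk M) := ⟨_, rfl⟩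
  have hV0 : 0 ≤ V := by rw [hV]; exact measureReal_nonneg
  obtain ⟨δ, hδ⟩ : ∃ δ : ℝ, δ = ε / (2 * (V + 1)) := ⟨_, rfl⟩
  have hδ0 : 0 < δ := by rw [hδ]; positivity
  have hδV : δ * V ≤ ε / 2 := by
    rw [hδ, div_mul_eq_mul_div, div_le_div_iff₀ (by positivity) (by norm_num)]
    nlinarith
  have hf0 := hfin 0
  have hf1 := hfin 1
  have hf2 := hfin 2
  set ν : Measure Pt := (μ 0).restrict (Dk M) + (ENNReal.ofReal δ) • volume.restrict (Dk M) with hν
  have hνapp : ∀ A, MeasurableSet A → ν A = (μ 0) (A ∩ Dk M) +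
      ENNReal.ofReal δ * volume (A ∩ Dk M) := by
    intro A hA
    rw [hν, Measure.add_apply, Measure.smul_apply, Measure.restrict_apply hA,
      Measure.restrict_apply hA, smul_eq_mul]
  have hνfin : IsFiniteMeasure ν := by
    refine ⟨?_⟩
    rw [hνapp _ MeasurableSet.univ, univ_inter]
    exact ENNReal.add_lt_top.2 ⟨measure_lt_top _ _, ENNReal.mul_lt_top ENNReal.ofReal_lt_top
      (lt_top_iff_ne_top.2 hvol)⟩
  have hgood : Good ν M := by
    refine ⟨hνfin, ?_, ?_, ?_⟩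
    · rw [hν]
      refine Measure.AbsolutelyContinuous.add_left ?_ ?_
      · exact (Measure.restrict_le_self.absolutelyContinuous).trans (hac 0)
      · exact (Measure.smul_absolutelyContinuous).trans
          (Measure.restrict_le_self.absolutelyContinuous)
    · rw [hνapp _ (meas_Dk M).compl, compl_inter_self]
      simp
    · intro U hU hUne hUD
      rw [hνapp _ hU.measurableSet, inter_eq_self_of_subset_left hUD]
      have h1 : 0 < volume U := hU.measure_pos volume hUne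
      have h2 : 0 < ENNReal.ofReal δ * volume U :=
        ENNReal.mul_pos (ENNReal.ofReal_pos.2 hδ0).ne' h1.ne'
      exact h2.trans_le le_add_self
  have hac' : ∀ i, (μ i).restrict (Dk M) ≪ volume := fun i =>
    (Measure.restrict_le_self.absolutelyContinuous).trans (hac i)
  have hsupp : ∀ i, (μ i).restrict (Dk M) (Dk M)ᶜ = 0 := by
    intro i
    rw [Measure.restrict_apply (meas_Dk M).compl, compl_inter_self, measure_empty]
  obtain ⟨θ, x, s, hs, h0, h1, h2⟩ := core hM0 hgood (hac' 1) (hac' 2) (hsupp 1) (hsupp 2)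
  obtain ⟨φ, hφ, hφe⟩ := exists_angle θ
  refine ⟨φ, x, s, hφ, hs, ?_⟩
  rw [hφe] at h0 h1 h2
  -- splitting
  have hsplit : ∀ i, ∀ A, (μ i).real A = (μ i).real (A ∩ Dk M) + (μ i).real (A \ Dk M) := by
    intro i A
    have := hfin i
    exact (measureReal_inter_add_diff (meas_Dk M)).symm
  have hdiff : ∀ i, ∀ A, (μ i).real (A \ Dk M) ≤ (μ i).real (Dk M)ᶜ := by
    intro i A
    have := hfin i
    exact measureReal_mono (fun z hz => hz.2) (measure_ne_top _ _)
  have hD : ∀ i, (μ i).real univ = (μ i).real (Dk M) + (μ i).real (Dk M)ᶜ := by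
    intro i
    have := hsplit i univ
    rwa [univ_inter, ← compl_eq_univ_diff] at this
  have hrestr : ∀ i, ∀ A, MeasurableSet A → ((μ i).restrict (Dk M)).real A =
      (μ i).real (A ∩ Dk M) := by
    intro i A hA
    unfold Measure.real
    rw [Measure.restrict_apply hA]
  have hmain : ∀ i, |(μ i).real (Sq φ x s ∩ Dk M) - (μ i).real (Dk M) / 2| ≤ ε / 2 →
      |(μ i).real (Sq φ x s) - (μ i).real univ / 2| ≤ ε := by
    intro i hi
    have e1 := hsplit i (Sq φ x s)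
    have e2 := hdiff i (Sq φ x s)
    have e3 := hD i
    have e4 := hsmall i
    have e5 : 0 ≤ (μ i).real (Sq φ x s \ Dk M) := measureReal_nonneg
    have e6 : 0 ≤ (μ i).real (Dk M)ᶜ := measureReal_nonneg
    rw [abs_le] at hi ⊢
    constructor <;> linarith [hi.1, hi.2]
  intro i
  apply hmain
  fin_cases i
  · -- the perturbed measure
    have e1 : ν.real (Sq φ x s) = (μ 0).real (Sq φ x s ∩ Dk M) +
        δ * volume.real (Sq φ x s ∩ Dk M) := by
      unfold Measure.real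
      rw [hνapp _ (meas_Sq _ _ _), ENNReal.toReal_add (measure_ne_top _ _)
        (ENNReal.mul_ne_top ENNReal.ofReal_ne_top ((measure_mono inter_subset_right).trans_lt
          (lt_top_iff_ne_top.2 hvol)).ne), ENNReal.toReal_mul, ENNReal.toReal_ofReal hδ0.le]
    have e2 : ν.real univ = (μ 0).real (Dk M) + δ * V := by
      rw [hV]
      unfold Measure.real
      rw [hνapp _ MeasurableSet.univ, univ_inter, ENNReal.toReal_add (measure_ne_top _ _)
        (ENNReal.mul_ne_top ENNReal.ofReal_ne_top hvol), ENNReal.toReal_mul,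
        ENNReal.toReal_ofReal hδ0.le]
    have e3 : volume.real (Sq φ x s ∩ Dk M) ≤ V := by
      rw [hV]
      exact measureReal_mono inter_subset_right hvol
    have e4 : 0 ≤ volume.real (Sq φ x s ∩ Dk M) := measureReal_nonneg
    have e5 := mul_le_mul_of_nonneg_left e3 hδ0.le
    have e6 := mul_nonneg hδ0.le e4
    rw [e1, e2] at h0
    show |(μ 0).real (Sq φ x s ∩ Dk M) - (μ 0).real (Dk M) / 2| ≤ ε / 2
    rw [abs_le]
    constructor <;> linarith
  · rw [hrestr 1 _ (meas_Sq _ _ _), hrestr 1 _ MeasurableSet.univ, univ_inter] at h1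
    show |(μ 1).real (Sq φ x s ∩ Dk M) - (μ 1).real (Dk M) / 2| ≤ ε / 2
    rw [h1, sub_self, abs_zero]
    positivity
  · rw [hrestr 2 _ (meas_Sq _ _ _), hrestr 2 _ MeasurableSet.univ, univ_inter] at h2
    show |(μ 2).real (Sq φ x s ∩ Dk M) - (μ 2).real (Dk M) / 2| ≤ ε / 2
    rw [h2, sub_self, abs_zero]
    positivity

/-- trichotomy for sequences up to subsequences -/
lemma tri (a : ℕ → ℝ) (c : EReal) (h : Tendsto (fun n => (a n : EReal)) atTop (𝓝 c)) :
    Tendsto a atTop atBot ∨ (∃ c', Tendsto a atTop (𝓝 c')) ∨ Tendsto a atTop atTop := by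
  induction c using EReal.rec with
  | bot => exact Or.inl (EReal.tendsto_coe_nhds_bot_iff.1 h)
  | coe c' => exact Or.inr (Or.inl ⟨c', EReal.tendsto_coe.1 h⟩)
  | top => exact Or.inr (Or.inr (EReal.tendsto_coe_nhds_top_iff.1 h))

lemma subseq (θ a b : ℕ → ℝ) (hθ : ∀ n, θ n ∈ Icc 0 (2 * Real.pi)) :
    ∃ φ : ℕ → ℕ, StrictMono φ ∧ (∃ θ₀, Tendsto (θ ∘ φ) atTop (𝓝 θ₀)) ∧
      (Tendsto (a ∘ φ) atTop atBot ∨ (∃ c, Tendsto (a ∘ φ) atTop (𝓝 c)) ∨
        Tendsto (a ∘ φ) atTop atTop) ∧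
      (Tendsto (b ∘ φ) atTop atBot ∨ (∃ c, Tendsto (b ∘ φ) atTop (𝓝 c)) ∨
        Tendsto (b ∘ φ) atTop atTop) := by
  have hK : IsCompact (Icc (0 : ℝ) (2 * Real.pi) ×ˢ (univ : Set (EReal × EReal))) :=
    isCompact_Icc.prod isCompact_univ
  obtain ⟨p, -, φ, hφ, hp⟩ := hK.tendsto_subseq
    (x := fun n => (θ n, ((a n : EReal), (b n : EReal)))) (fun n => ⟨hθ n, mem_univ _⟩)
  refine ⟨φ, hφ, ⟨p.1, (continuous_fst.tendsto p).comp hp⟩, ?_, ?_⟩
  · exact tri _ p.2.1 (((continuous_fst.comp continuous_snd).tendsto p).comp hp)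
  · exact tri _ p.2.2 (((continuous_snd.comp continuous_snd).tendsto p).comp hp)

end Pool.Agent.V11167.Sq3
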