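import Mathlib
import Pool.Agent.V11167.SqC

/-! Squares bisecting three measures (for MP_3da004_co): the general theorem. -/

noncomputable section

namespace Pool.Agent.V11167.Sq3

open MeasureTheory Set Filter Topology

lemma mem_Sq' {θ x s : ℝ} {z : Pt} : z ∈ Sq θ x s ↔
    (x - s ≤ uu θ z ∧ uu θ z ≤ x + s) ∧ |vv θ z| ≤ ((x + s) - (x - s)) / 2 := by
  rw [mem_Sq]
  have : ((x + s) - (x - s)) / 2 = s := by ring
  rw [this]

/-- limits of approximately bisecting squares bisect -/
lemma lim_bisect (μ : Fin 3 → Measure Pt) (hfin : ∀ i, IsFiniteMeasure (μ i))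
    (hac : ∀ i, μ i ≪ volume) (A : ℕ → Set Pt) (hA : ∀ n, MeasurableSet (A n))
    (happ : ∀ i, Tendsto (fun n => (μ i).real (A n)) atTop (𝓝 ((μ i).real univ / 2)))
    (L : Set Pt) (hL : MeasurableSet L)
    (h : ∀ᵐ z ∂(volume : Measure Pt), ∀ᶠ n in atTop, z ∈ A n ↔ z ∈ L) (i : Fin 3) :
    (μ i).real L = (μ i).real univ / 2 := by
  have := hfin i
  have h1 : Tendsto (fun n => (μ i) (A n)) atTop (𝓝 ((μ i) L)) :=
    tendsto_measure_of_ae_tendsto_indicator_of_isFiniteMeasure atTop hL hA ((hac i).ae_le h)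
  have h2 := (ENNReal.tendsto_toReal (measure_ne_top (μ i) L)).comp h1
  exact tendsto_nhds_unique h2 (happ i)

lemma cont_uu' (z : Pt) : Continuous fun θ => uu θ z := by unfold uu; fun_prop
lemma cont_vv' (z : Pt) : Continuous fun θ => vv θ z := by unfold vv; fun_prop
lemma cont_uuz (θ : ℝ) : Continuous (uu θ) := by unfold uu; fun_prop

theorem general (μ : Fin 3 → Measure Pt) (hfin : ∀ i, IsFiniteMeasure (μ i))
    (hac : ∀ i, μ i ≪ volume) (hne : ∃ i, 0 < (μ i).real univ) :
    (∃ θ x s : ℝ, 0 < s ∧ ∀ i, (μ i).real (Sq θ x s) = (μ i).real univ / 2) ∨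
    (∃ θ c : ℝ, ∀ i, (μ i).real {z | uu θ z ≤ c} = (μ i).real univ / 2) := by
  obtain ⟨i₀, hi₀⟩ := hne
  have hε : ∀ n : ℕ, (0 : ℝ) < 1 / ((n : ℝ) + 1) := fun n => by positivity
  choose θ x s hθ hs happ using fun n : ℕ => approx μ hfin hac (hε n)
  obtain ⟨φ, hφ, ⟨θ₀, hθ₀⟩, ha, hb⟩ := subseq θ (fun n => x n - s n) (fun n => x n + s n) hθ
  set A : ℕ → Set Pt := fun n => Sq (θ (φ n)) (x (φ n)) (s (φ n)) with hAdef
  have hA : ∀ n, MeasurableSet (A n) := fun n => meas_Sq _ _ _
  have happ' : ∀ i, Tendsto (fun n => (μ i).real (A n)) atTop (𝓝 ((μ i).real univ / 2)) := by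
    intro i
    rw [tendsto_iff_norm_sub_tendsto_zero]
    have h0 : Tendsto (fun n : ℕ => 1 / ((φ n : ℝ) + 1)) atTop (𝓝 0) :=
      (tendsto_one_div_add_atTop_nhds_zero_nat (𝕜 := ℝ)).comp hφ.tendsto_atTop
    refine squeeze_zero (fun n => norm_nonneg _) (fun n => ?_) h0
    rw [Real.norm_eq_abs]
    exact happ (φ n) i
  have hlim := lim_bisect μ hfin hac A hA happ'
  have hu : ∀ z : Pt, Tendsto (fun n => uu (θ (φ n)) z) atTop (𝓝 (uu θ₀ z)) := fun z =>
    ((cont_uu' z).tendsto θ₀).comp hθ₀
  have hv : ∀ z : Pt, Tendsto (fun n => |vv (θ (φ n)) z|) atTop (𝓝 |vv θ₀ z|) := fun z =>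
    (((cont_vv' z).abs).tendsto θ₀).comp hθ₀
  have hmem : ∀ n z, z ∈ A n ↔ (x (φ n) - s (φ n) ≤ uu (θ (φ n)) z ∧
      uu (θ (φ n)) z ≤ x (φ n) + s (φ n)) ∧ |vv (θ (φ n)) z| ≤
      ((x (φ n) + s (φ n)) - (x (φ n) - s (φ n))) / 2 := fun n z => mem_Sq'
  have hle : ∀ n, x (φ n) - s (φ n) ≤ x (φ n) + s (φ n) := fun n => by linarith [hs (φ n)]
  set a : ℕ → ℝ := fun n => x (φ n) - s (φ n) with hadef
  set b : ℕ → ℝ := fun n => x (φ n) + s (φ n) with hbdef
  change Tendsto a atTop atBot ∨ (∃ c, Tendsto a atTop (𝓝 c)) ∨ Tendsto a atTop atTop at ha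
  change Tendsto b atTop atBot ∨ (∃ c, Tendsto b atTop (𝓝 c)) ∨ Tendsto b atTop atTop at hb
  -- the empty limit is impossible
  have hempty : (∀ z : Pt, ∀ᶠ n in atTop, z ∉ A n) → False := by
    intro h
    have := hlim ∅ MeasurableSet.empty (Eventually.of_forall fun z => by
      filter_upwards [h z] with n hn
      simp [hn]) i₀
    rw [measureReal_empty] at this
    linarith
  have hcase1 : Tendsto b atTop atBot → False := by
    intro hb
    apply hempty
    intro z
    have h1 : ∀ᶠ n in atTop, b n < uu θ₀ z - 1 := hb.eventually (eventually_lt_atBot _)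
    have h2 : ∀ᶠ n in atTop, uu θ₀ z - 1 < uu (θ (φ n)) z :=
      (hu z).eventually (lt_mem_nhds (by linarith))
    filter_upwards [h1, h2] with n h1 h2 hz
    rw [hmem] at hz
    linarith [hz.1.2]
  have hcase2 : Tendsto a atTop atTop → False := by
    intro ha
    apply hempty
    intro z
    have h1 : ∀ᶠ n in atTop, uu θ₀ z + 1 < a n := ha.eventually (eventually_gt_atTop _)
    have h2 : ∀ᶠ n in atTop, uu (θ (φ n)) z < uu θ₀ z + 1 :=
      (hu z).eventually (gt_mem_nhds (by linarith))
    filter_upwards [h1, h2] with n h1 h2 hz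
    rw [hmem] at hz
    linarith [hz.1.1]
  rcases ha with ha | ⟨a₀, ha⟩ | ha
  · rcases hb with hb | ⟨b₀, hb⟩ | hb
    · exact (hcase1 hb).elim
    · -- half-plane `u ≤ b₀`
      right
      refine ⟨θ₀, b₀, hlim _ (isClosed_le (cont_uuz θ₀) continuous_const).measurableSet ?_⟩
      have h0 : ∀ᵐ z ∂(volume : Measure Pt), uu θ₀ z ≠ b₀ := by
        rw [ae_iff]; simpa using null_uu θ₀ b₀
      filter_upwards [h0] with z hz
      have e1 : ∀ᶠ n in atTop, a n < uu θ₀ z - 1 := ha.eventually (eventually_lt_atBot _)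
      have e2 : ∀ᶠ n in atTop, uu θ₀ z - 1 < uu (θ (φ n)) z :=
        (hu z).eventually (lt_mem_nhds (by linarith))
      have e3 : ∀ᶠ n in atTop, a n < b₀ - 1 - 2 * (|vv θ₀ z| + 1) :=
        ha.eventually (eventually_lt_atBot _)
      have e4 : ∀ᶠ n in atTop, b₀ - 1 < b n := hb.eventually (lt_mem_nhds (by linarith))
      have e5 : ∀ᶠ n in atTop, |vv (θ (φ n)) z| < |vv θ₀ z| + 1 :=
        (hv z).eventually (gt_mem_nhds (by linarith))
      rcases lt_or_gt_of_ne hz with h | h
      · have e6 : ∀ᶠ n in atTop, uu (θ (φ n)) z < b n := (hu z).eventually_lt hb h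
        filter_upwards [e1, e2, e3, e4, e5, e6] with n e1 e2 e3 e4 e5 e6
        rw [hmem]
        constructor
        · intro _; exact h.le
        · intro _
          exact ⟨⟨by linarith, e6.le⟩, by
            change |vv (θ (φ n)) z| ≤ (b n - a n) / 2
            linarith⟩
      · have e6 : ∀ᶠ n in atTop, b n < uu (θ (φ n)) z := hb.eventually_lt (hu z) h
        filter_upwards [e6] with n e6
        rw [hmem]
        constructor
        · intro h2
          exact absurd h2.1.2 (not_le.2 e6)
        · intro h2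
          have h3 : uu θ₀ z ≤ b₀ := h2
          exact absurd h3 (not_le.2 h)
    · -- everything
      exfalso
      have := hlim univ MeasurableSet.univ (Eventually.of_forall fun z => by
        have e1 : ∀ᶠ n in atTop, a n < uu θ₀ z - 1 - (|vv θ₀ z| + 1) :=
          ha.eventually (eventually_lt_atBot _)
        have e2 : ∀ᶠ n in atTop, uu θ₀ z - 1 < uu (θ (φ n)) z :=
          (hu z).eventually (lt_mem_nhds (by linarith))
        have e3 : ∀ᶠ n in atTop, uu θ₀ z + 1 + (|vv θ₀ z| + 1) < b n :=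
          hb.eventually (eventually_gt_atTop _)
        have e4 : ∀ᶠ n in atTop, uu (θ (φ n)) z < uu θ₀ z + 1 :=
          (hu z).eventually (gt_mem_nhds (by linarith))
        have e5 : ∀ᶠ n in atTop, |vv (θ (φ n)) z| < |vv θ₀ z| + 1 :=
          (hv z).eventually (gt_mem_nhds (by linarith))
        filter_upwards [e1, e2, e3, e4, e5] with n e1 e2 e3 e4 e5
        rw [hmem]
        simp only [mem_univ, iff_true]
        have h0 := abs_nonneg (vv θ₀ z)
        exact ⟨⟨by linarith, by
          change uu (θ (φ n)) z ≤ b n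
          linarith⟩, by
          change |vv (θ (φ n)) z| ≤ (b n - a n) / 2
          linarith⟩) i₀
      linarith
  · rcases hb with hb | ⟨b₀, hb⟩ | hb
    · exact (hcase1 hb).elim
    · -- a genuine square
      left
      have hab : a₀ ≤ b₀ := le_of_tendsto_of_tendsto' ha hb hle
      have hsq := hlim (Sq θ₀ ((a₀ + b₀) / 2) ((b₀ - a₀) / 2)) (meas_Sq _ _ _) (by
        have h0 : ∀ᵐ z ∂(volume : Measure Pt), mm θ₀ ((a₀ + b₀) / 2) z ≠ (b₀ - a₀) / 2 := by
          rw [ae_iff]; simpa using null_mm θ₀ ((a₀ + b₀) / 2) ((b₀ - a₀) / 2)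
        filter_upwards [h0] with z hz
        have hmmlim : Tendsto (fun n => mm (θ (φ n)) (x (φ n)) z) atTop
            (𝓝 (mm θ₀ ((a₀ + b₀) / 2) z)) := by
          have hx : Tendsto (fun n => x (φ n)) atTop (𝓝 ((a₀ + b₀) / 2)) := by
            have := (ha.add hb).div_const 2
            refine this.congr fun n => ?_
            simp only [hadef, hbdef]; ring
          unfold mm
          exact ((hu z).sub hx).abs.max (hv z)
        have hslim : Tendsto (fun n => s (φ n)) atTop (𝓝 ((b₀ - a₀) / 2)) := by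
          have := (hb.sub ha).div_const 2
          refine this.congr fun n => ?_
          simp only [hadef, hbdef]; ring
        rcases lt_or_gt_of_ne hz with h | h
        · filter_upwards [hmmlim.eventually_lt hslim h] with n hn
          constructor
          · intro _; exact h.le
          · intro _; exact hn.le
        · filter_upwards [hslim.eventually_lt hmmlim h] with n hn
          constructor
          · intro h2; exact absurd h2 (not_le.2 hn)
          · intro h2; exact absurd h2 (not_le.2 h))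
      refine ⟨θ₀, (a₀ + b₀) / 2, (b₀ - a₀) / 2, ?_, hsq⟩
      rcases hab.lt_or_eq with h | h
      · linarith
      · exfalso
        have h1 := hsq i₀
        have h2 : (b₀ - a₀) / 2 = 0 := by rw [h]; ring
        rw [h2] at h1
        have h3 : (μ i₀).real (Sq θ₀ ((a₀ + b₀) / 2) 0) = 0 := by
          have : (μ i₀) (Sq θ₀ ((a₀ + b₀) / 2) 0) = 0 := by
            apply hac i₀
            apply measure_mono_null _ (null_mm θ₀ ((a₀ + b₀) / 2) 0)
            intro z hz
            have h1 : mm θ₀ ((a₀ + b₀) / 2) z ≤ 0 := hz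
            exact le_antisymm h1 (le_max_of_le_left (abs_nonneg _))
          simp [Measure.real, this]
        linarith
    · -- half-plane `a₀ ≤ u`
      right
      refine ⟨θ₀ + Real.pi, -a₀, ?_⟩
      have hset : {z : Pt | uu (θ₀ + Real.pi) z ≤ -a₀} = {z : Pt | a₀ ≤ uu θ₀ z} := by
        ext z
        simp only [mem_setOf_eq, uu, Real.cos_add_pi, Real.sin_add_pi]
        constructor <;> intro h <;> linarith
      rw [hset]
      refine hlim _ (isClosed_le continuous_const (cont_uuz θ₀)).measurableSet ?_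
      have h0 : ∀ᵐ z ∂(volume : Measure Pt), uu θ₀ z ≠ a₀ := by
        rw [ae_iff]; simpa using null_uu θ₀ a₀
      filter_upwards [h0] with z hz
      have e1 : ∀ᶠ n in atTop, uu θ₀ z + 1 < b n := hb.eventually (eventually_gt_atTop _)
      have e2 : ∀ᶠ n in atTop, uu (θ (φ n)) z < uu θ₀ z + 1 :=
        (hu z).eventually (gt_mem_nhds (by linarith))
      have e3 : ∀ᶠ n in atTop, a₀ + 1 + 2 * (|vv θ₀ z| + 1) < b n :=
        hb.eventually (eventually_gt_atTop _)
      have e4 : ∀ᶠ n in atTop, a n < a₀ + 1 := ha.eventually (gt_mem_nhds (by linarith))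
      have e5 : ∀ᶠ n in atTop, |vv (θ (φ n)) z| < |vv θ₀ z| + 1 :=
        (hv z).eventually (gt_mem_nhds (by linarith))
      rcases lt_or_gt_of_ne hz with h | h
      · have e6 : ∀ᶠ n in atTop, uu (θ (φ n)) z < a n := (hu z).eventually_lt ha h
        filter_upwards [e6] with n e6
        rw [hmem]
        constructor
        · intro h2
          exact absurd h2.1.1 (not_le.2 e6)
        · intro h2
          have h3 : a₀ ≤ uu θ₀ z := h2
          exact absurd h3 (not_le.2 h)
      · have e6 : ∀ᶠ n in atTop, a n < uu (θ (φ n)) z := ha.eventually_lt (hu z) h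
        filter_upwards [e1, e2, e3, e4, e5, e6] with n e1 e2 e3 e4 e5 e6
        rw [hmem]
        constructor
        · intro _; exact h.le
        · intro _
          exact ⟨⟨e6.le, by
            change uu (θ (φ n)) z ≤ b n
            linarith⟩, by
            change |vv (θ (φ n)) z| ≤ (b n - a n) / 2
            linarith⟩
  · exact (hcase2 ha).elim

end Pool.Agent.V11167.Sq3
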