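import Mathlib
import Pool.Agent.V11167.SqD
import Pool.Agent.V11167.SqDefs

/-! Squares bisecting three measures (for MP_3da004_co): the example with unbounded support and
the final statements. -/

noncomputable section

namespace Pool.Agent.V11167.Sq3

open MeasureTheory Set Filter Topology Pool.Agent.V11167.SqDefs

/-! ### the example -/

def K : Set Pt := Icc (-1 : ℝ) 1 ×ˢ Icc (-1 : ℝ) 1

def μ0 : Measure Pt := (volume : Measure Pt).restrict K

def μk (k : ℕ) : Measure Pt := μ0.map (fun z => ((k : ℝ) + 1) • z)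

def μs : Measure Pt := Measure.sum fun k : ℕ => ((1 / 2 : ENNReal) ^ k) • μk k

lemma vol_K : (volume : Measure Pt) K = 4 := by
  rw [K, Measure.volume_eq_prod, Measure.prod_prod, Real.volume_Icc]
  rw [← ENNReal.ofReal_mul (by norm_num)]
  norm_num

lemma meas_K : MeasurableSet K := measurableSet_Icc.prod measurableSet_Icc

lemma μ0_univ : μ0 univ = 4 := by
  rw [μ0, Measure.restrict_apply_univ, vol_K]

instance : IsFiniteMeasure μ0 := ⟨by rw [μ0_univ]; simp⟩

lemma meas_scale (k : ℕ) : Measurable (fun z : Pt => ((k : ℝ) + 1) • z) := by fun_prop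

lemma μk_apply (k : ℕ) {A : Set Pt} (hA : MeasurableSet A) :
    μk k A = μ0 ((fun z : Pt => ((k : ℝ) + 1) • z) ⁻¹' A) := by
  rw [μk, Measure.map_apply (meas_scale k) hA]

lemma μs_apply {A : Set Pt} (hA : MeasurableSet A) :
    μs A = ∑' k : ℕ, (1 / 2 : ENNReal) ^ k * μ0 ((fun z : Pt => ((k : ℝ) + 1) • z) ⁻¹' A) := by
  rw [μs, Measure.sum_apply _ hA]
  congr 1
  ext k
  rw [Measure.smul_apply, μk_apply k hA, smul_eq_mul]

lemma geom : ∑' k : ℕ, (1 / 2 : ENNReal) ^ k = 2 := by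
  rw [ENNReal.tsum_geometric, one_div, ENNReal.one_sub_inv_two, inv_inv]

lemma μs_univ : μs univ = 8 := by
  rw [μs_apply MeasurableSet.univ]
  simp only [preimage_univ, μ0_univ]
  rw [ENNReal.tsum_mul_right, geom]
  norm_num

lemma μs_fin : IsFiniteMeasure μs := ⟨by rw [μs_univ]; simp⟩

lemma μ0_ac : μ0 ≪ volume := Measure.restrict_le_self.absolutelyContinuous

lemma μs_ac : μs ≪ volume := by
  rw [μs]
  refine Measure.absolutelyContinuous_sum_left fun k => ?_
  refine Measure.smul_absolutelyContinuous.trans ?_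
  have h1 : μk k ≪ (volume : Measure Pt).map (fun z => ((k : ℝ) + 1) • z) :=
    μ0_ac.map (meas_scale k)
  refine h1.trans ?_
  rw [Measure.map_addHaar_smul volume (by positivity : ((k : ℝ) + 1) ≠ 0)]
  exact Measure.smul_absolutelyContinuous

lemma μ0_neg {A : Set Pt} (hA : MeasurableSet A) : μ0 (Neg.neg ⁻¹' A) = μ0 A := by
  rw [μ0, Measure.restrict_apply (measurable_neg hA), Measure.restrict_apply hA]
  have : (Neg.neg ⁻¹' A : Set Pt) ∩ K = Neg.neg ⁻¹' (A ∩ K) := by
    ext z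
    simp only [mem_inter_iff, mem_preimage, K, mem_prod, mem_Icc, Prod.fst_neg, Prod.snd_neg]
    constructor
    · rintro ⟨h1, ⟨h2, h3⟩, h4, h5⟩
      exact ⟨h1, ⟨by linarith, by linarith⟩, by linarith, by linarith⟩
    · rintro ⟨h1, ⟨h2, h3⟩, h4, h5⟩
      exact ⟨h1, ⟨by linarith, by linarith⟩, by linarith, by linarith⟩
  rw [this]
  exact Measure.measure_preimage_neg (volume : Measure Pt) (A ∩ K)

/-- no compact convex set contains exactly half of both measures -/
lemma no_convex {Q : Set Pt} (hQc : Convex ℝ Q) (hQk : IsCompact Q) (h0 : μ0 Q = μ0 univ / 2)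
    (h1 : μs Q = μs univ / 2) : False := by
  have hQm : MeasurableSet Q := hQk.isClosed.measurableSet
  rw [μ0_univ] at h0
  have h0' : μ0 Q = 2 := by
    rw [h0, show (4 : ENNReal) = 2 * 2 by norm_num, ENNReal.mul_div_cancel_right (by simp) (by simp)]
  by_cases hz : (0 : Pt) ∈ Q
  · -- comparison term by term
    rw [μs_univ, μs_apply hQm] at h1
    have hle : ∀ k : ℕ, (1 / 2 : ENNReal) ^ k * μ0 ((fun z : Pt => ((k : ℝ) + 1) • z) ⁻¹' Q) ≤
        (1 / 2 : ENNReal) ^ k * 2 := by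
      intro k
      gcongr
      rw [← h0']
      apply measure_mono
      intro z hzk
      have hk : (0 : ℝ) < (k : ℝ) + 1 := by positivity
      have h2 : ((k : ℝ) + 1) • z ∈ Q := hzk
      have h3 := hQc.smul_mem_of_zero_mem hz h2 (t := 1 / ((k : ℝ) + 1)) ⟨by positivity, by
        rw [div_le_one hk]; linarith [(Nat.cast_nonneg k : (0 : ℝ) ≤ k)]⟩
      rwa [smul_smul, one_div, inv_mul_cancel₀ hk.ne', one_smul] at h3
    obtain ⟨R, hR⟩ := hQk.isBounded.subset_closedBall (0 : Pt)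
    obtain ⟨k, hk⟩ := exists_nat_gt (2 * |R|)
    have hlt : (1 / 2 : ENNReal) ^ k * μ0 ((fun z : Pt => ((k : ℝ) + 1) • z) ⁻¹' Q) <
        (1 / 2 : ENNReal) ^ k * 2 := by
      refine (ENNReal.mul_lt_mul_iff_right (by simp) (by simp)).2 ?_
      have hsub : (fun z : Pt => ((k : ℝ) + 1) • z) ⁻¹' Q ⊆
          Icc (-(1 / 2) : ℝ) (1 / 2) ×ˢ Icc (-(1 / 2) : ℝ) (1 / 2) := by
        intro z hzk
        have hkp : (0 : ℝ) < (k : ℝ) + 1 := by positivity
        have h2 := hR (show ((k : ℝ) + 1) • z ∈ Q from hzk)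
        rw [mem_closedBall_zero_iff, norm_smul, Real.norm_eq_abs, abs_of_pos hkp] at h2
        have h3 : ‖z‖ ≤ 1 / 2 := by
          have h4 : ((k : ℝ) + 1) * ‖z‖ ≤ ((k : ℝ) + 1) * (1 / 2) := by
            have := le_abs_self R
            linarith
          exact le_of_mul_le_mul_left h4 hkp
        have h5 : ‖z.1‖ ≤ 1 / 2 := (norm_fst_le z).trans h3
        have h6 : ‖z.2‖ ≤ 1 / 2 := (norm_snd_le z).trans h3
        rw [Real.norm_eq_abs] at h5 h6
        exact ⟨abs_le.1 h5, abs_le.1 h6⟩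
      calc μ0 ((fun z : Pt => ((k : ℝ) + 1) • z) ⁻¹' Q)
          ≤ volume ((fun z : Pt => ((k : ℝ) + 1) • z) ⁻¹' Q) := Measure.restrict_le_self _
        _ ≤ volume (Icc (-(1 / 2) : ℝ) (1 / 2) ×ˢ Icc (-(1 / 2) : ℝ) (1 / 2)) := measure_mono hsub
        _ = 1 := by
            rw [Measure.volume_eq_prod, Measure.prod_prod, Real.volume_Icc]
            norm_num
        _ < 2 := by norm_num
    have htot : ∑' k : ℕ, (1 / 2 : ENNReal) ^ k * 2 = 4 := by
      rw [ENNReal.tsum_mul_right, geom]; norm_num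
    have h8 : (8 : ENNReal) / 2 = 4 := by
      rw [show (8 : ENNReal) = 4 * 2 by norm_num, ENNReal.mul_div_cancel_right (by simp) (by simp)]
    have hfin : ∑' k : ℕ, (1 / 2 : ENNReal) ^ k *
        μ0 ((fun z : Pt => ((k : ℝ) + 1) • z) ⁻¹' Q) ≠ ⊤ := by
      rw [h1, h8]; simp
    have := ENNReal.tsum_lt_tsum hfin hle hlt
    rw [h1, htot, h8] at this
    exact lt_irrefl _ this
  · obtain ⟨f, u, hfu, hfQ⟩ := geometric_hahn_banach_point_closed hQc hQk.isClosed hz
    rw [map_zero] at hfu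
    set W : Set Pt := {z | |f z| < u} with hW
    have hWo : IsOpen W := isOpen_lt (f.continuous.abs) continuous_const
    have hWpos : 0 < μ0 W := by
      rw [μ0, Measure.restrict_apply hWo.measurableSet]
      have hint : IsOpen (W ∩ (Ioo (-1 : ℝ) 1 ×ˢ Ioo (-1 : ℝ) 1)) := hWo.inter
        (isOpen_Ioo.prod isOpen_Ioo)
      have hne : (W ∩ (Ioo (-1 : ℝ) 1 ×ˢ Ioo (-1 : ℝ) 1)).Nonempty := by
        refine ⟨0, ?_, ?_⟩
        · show |f 0| < u
          rw [map_zero, abs_zero]; exact hfu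
        · constructor <;> constructor <;> norm_num
      refine (hint.measure_pos volume hne).trans_le (measure_mono ?_)
      rintro z ⟨h1, h2, h3⟩
      exact ⟨h1, ⟨h2.1.le, h2.2.le⟩, ⟨h3.1.le, h3.2.le⟩⟩
    have hneg : μ0 (Neg.neg ⁻¹' Q) = 2 := by rw [μ0_neg hQm, h0']
    have hd1 : Disjoint Q (Neg.neg ⁻¹' Q) := by
      rw [Set.disjoint_left]
      intro z h1 h2
      have h3 := hfQ z h1
      have h4 := hfQ (-z) h2
      rw [map_neg] at h4
      linarith
    have hd2 : Disjoint (Q ∪ Neg.neg ⁻¹' Q) W := by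
      rw [Set.disjoint_left]
      rintro z (h1 | h1) h2
      · have h3 := hfQ z h1
        have h4 : |f z| < u := h2
        linarith [le_abs_self (f z)]
      · have h3 := hfQ (-z) h1
        have h4 : |f z| < u := h2
        rw [map_neg] at h3
        linarith [neg_abs_le (f z)]
    have hsum : μ0 (Q ∪ Neg.neg ⁻¹' Q ∪ W) = 2 + 2 + μ0 W := by
      rw [measure_union hd2 hWo.measurableSet, measure_union hd1 (measurable_neg hQm), h0', hneg]
    have hle : 2 + 2 + μ0 W ≤ 4 := by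
      rw [← hsum, ← μ0_univ]
      exact measure_mono (subset_univ _)
    have h22 : (2 : ENNReal) + 2 = 4 := by norm_num
    rw [h22] at hle
    have h4 : (4 : ENNReal) < 4 + μ0 W := ENNReal.lt_add_right (by simp) hWpos.ne'
    exact absurd hle (not_le.2 h4)

/-! ### relation between the two descriptions of squares -/

lemma square_eq (θ x s : ℝ) :
    square (x * Real.cos θ, x * Real.sin θ) θ s = Sq θ x s := by
  ext z
  simp only [square, Sq, mm, uu, vv, mem_setOf_eq, max_le_iff]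
  have h1 : Real.cos θ * (z.1 - x * Real.cos θ) + Real.sin θ * (z.2 - x * Real.sin θ) =
      Real.cos θ * z.1 + Real.sin θ * z.2 - x := by
    linear_combination -x * Real.sin_sq_add_cos_sq θ
  have h2 : -Real.sin θ * (z.1 - x * Real.cos θ) + Real.cos θ * (z.2 - x * Real.sin θ) =
      -Real.sin θ * z.1 + Real.cos θ * z.2 := by ring
  rw [h1, h2]

lemma square_closed (p : Pt) (θ s : ℝ) : IsClosed (square p θ s) := by
  have h1 : IsClosed {z : Pt | |Real.cos θ * (z.1 - p.1) + Real.sin θ * (z.2 - p.2)| ≤ s} :=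
    isClosed_le (by fun_prop) continuous_const
  have h2 : IsClosed {z : Pt | |-Real.sin θ * (z.1 - p.1) + Real.cos θ * (z.2 - p.2)| ≤ s} :=
    isClosed_le (by fun_prop) continuous_const
  exact h1.inter h2

lemma square_convex (p : Pt) (θ s : ℝ) : Convex ℝ (square p θ s) := by
  intro z hz w hw a b ha hb hab
  obtain ⟨h1, h2⟩ := hz
  obtain ⟨h3, h4⟩ := hw
  have hb' : b = 1 - a := by linarith
  rw [abs_le] at h1 h2 h3 h4
  constructor
  · rw [abs_le]
    simp only [Prod.fst_add, Prod.smul_fst, Prod.snd_add, Prod.smul_snd, smul_eq_mul]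
    subst hb'
    constructor
    · have := mul_le_mul_of_nonneg_left h1.1 ha
      have := mul_le_mul_of_nonneg_left h3.1 hb
      linarith
    · have := mul_le_mul_of_nonneg_left h1.2 ha
      have := mul_le_mul_of_nonneg_left h3.2 hb
      linarith
  · rw [abs_le]
    simp only [Prod.fst_add, Prod.smul_fst, Prod.snd_add, Prod.smul_snd, smul_eq_mul]
    subst hb'
    constructor
    · have := mul_le_mul_of_nonneg_left h2.1 ha
      have := mul_le_mul_of_nonneg_left h4.1 hb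
      linarith
    · have := mul_le_mul_of_nonneg_left h2.2 ha
      have := mul_le_mul_of_nonneg_left h4.2 hb
      linarith

lemma square_compact (p : Pt) (θ s : ℝ) : IsCompact (square p θ s) := by
  rw [Metric.isCompact_iff_isClosed_bounded]
  refine ⟨square_closed p θ s, ?_⟩
  have hsub : square p θ s ⊆ Icc (p.1 - 2 * s) (p.1 + 2 * s) ×ˢ Icc (p.2 - 2 * s) (p.2 + 2 * s) := by
    intro z hz
    obtain ⟨h1, h2⟩ := hz
    have hs : 0 ≤ s := (abs_nonneg _).trans h1
    set u := Real.cos θ * (z.1 - p.1) + Real.sin θ * (z.2 - p.2) with hu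
    set v := -Real.sin θ * (z.1 - p.1) + Real.cos θ * (z.2 - p.2) with hv
    have hsum : u ^ 2 + v ^ 2 = (z.1 - p.1) ^ 2 + (z.2 - p.2) ^ 2 := by
      rw [hu, hv]
      linear_combination ((z.1 - p.1) ^ 2 + (z.2 - p.2) ^ 2) * Real.sin_sq_add_cos_sq θ
    have hu2 : u ^ 2 ≤ s ^ 2 := sq_le_sq' (abs_le.1 h1).1 (abs_le.1 h1).2
    have hv2 : v ^ 2 ≤ s ^ 2 := sq_le_sq' (abs_le.1 h2).1 (abs_le.1 h2).2
    have h3 : |z.1 - p.1| ≤ 2 * s := abs_le_of_sq_le_sq (by nlinarith [sq_nonneg (z.2 - p.2)])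
      (by linarith)
    have h4 : |z.2 - p.2| ≤ 2 * s := abs_le_of_sq_le_sq (by nlinarith [sq_nonneg (z.1 - p.1)])
      (by linarith)
    rw [abs_le] at h3 h4
    exact ⟨⟨by linarith [h3.1], by linarith [h3.2]⟩, ⟨by linarith [h4.1], by linarith [h4.2]⟩⟩
  exact (isCompact_Icc.prod isCompact_Icc).isBounded.subset hsub

lemma halves_of_real {μ : Fin 3 → Measure Pt} (hμ : FiniteAC μ) {A : Set Pt}
    (h : ∀ i, (μ i).real A = (μ i).real univ / 2) : Halves A μ := by
  intro i
  have := (hμ i).1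
  have h1 := h i
  unfold Measure.real at h1
  rw [← ENNReal.ofReal_toReal (measure_ne_top (μ i) A), h1,
    ENNReal.ofReal_div_of_pos (by norm_num), ENNReal.ofReal_toReal (measure_ne_top (μ i) univ)]
  norm_num

theorem partA (μ : Fin 3 → Measure Pt) (hμ : FiniteAC μ) :
    (∃ (p : ℝ × ℝ) (θ s : ℝ), 0 < s ∧ Halves (square p θ s) μ) ∨
      ∃ θ c : ℝ, Halves (halfPlane θ c) μ := by
  by_cases hne : ∃ i, 0 < (μ i).real univ
  · rcases general μ (fun i => (hμ i).1) (fun i => (hμ i).2) hne with ⟨θ, x, s, hs, h⟩ | ⟨θ, c, h⟩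
    · left
      refine ⟨(x * Real.cos θ, x * Real.sin θ), θ, s, hs, halves_of_real hμ ?_⟩
      rw [square_eq]
      exact h
    · right
      exact ⟨θ, c, halves_of_real hμ h⟩
  · left
    refine ⟨0, 0, 1, one_pos, halves_of_real hμ fun i => ?_⟩
    push Not at hne
    have := (hμ i).1
    have h1 : (μ i).real univ = 0 := le_antisymm (hne i) measureReal_nonneg
    have h2 : (μ i).real (square 0 0 1) = 0 :=
      le_antisymm ((measureReal_mono (subset_univ _) (measure_ne_top _ _)).trans h1.le)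
        measureReal_nonneg
    rw [h1, h2]; simp

theorem partB (μ : Fin 3 → Measure Pt) (hμ : FiniteAC μ)
    (hsupp : ∀ i, ∃ B : Set (ℝ × ℝ), Bornology.IsBounded B ∧ μ i Bᶜ = 0) :
    ∃ (p : ℝ × ℝ) (θ s : ℝ), 0 < s ∧ Halves (square p θ s) μ := by
  rcases partA μ hμ with h | ⟨θ, c, h⟩
  · exact h
  choose B hB hB0 using hsupp
  have hbig : ∀ i, ∃ R : ℝ, 0 < R ∧ ∀ z ∈ B i, ‖z‖ ≤ R := by
    intro i
    obtain ⟨R, hR⟩ := (hB i).exists_norm_le
    exact ⟨|R| + 1, by positivity, fun z hz => (hR z hz).trans ((le_abs_self R).trans (by linarith))⟩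
  choose R hR0 hR using hbig
  set M : ℝ := R 0 + R 1 + R 2 with hM
  have hRM : ∀ i, R i ≤ M := by
    intro i
    fin_cases i
    · show R 0 ≤ M; linarith [hR0 1, hR0 2]
    · show R 1 ≤ M; linarith [hR0 0, hR0 2]
    · show R 2 ≤ M; linarith [hR0 0, hR0 1]
  have hM0 : 0 < M := (hR0 0).trans_le (hRM 0)
  set T : ℝ := |c| + 2 * M with hT
  have hT0 : 0 < T := by positivity
  refine ⟨((c - T) * Real.cos θ, (c - T) * Real.sin θ), θ, T, hT0, ?_⟩
  rw [square_eq]
  have hkey : ∀ i, ∀ z ∈ B i, z ∈ Sq θ (c - T) T ↔ z ∈ halfPlane θ c := by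
    intro i z hz
    have h1 : ‖z‖ ≤ M := (hR i z hz).trans (hRM i)
    have h2 : |z.1| ≤ M := (norm_fst_le z).trans h1
    have h3 : |z.2| ≤ M := (norm_snd_le z).trans h1
    have hcos := Real.abs_cos_le_one θ
    have hsin := Real.abs_sin_le_one θ
    have h4 : |Real.cos θ * z.1| ≤ M := by
      rw [abs_mul]
      nlinarith [abs_nonneg z.1, abs_nonneg (Real.cos θ)]
    have h5 : |Real.sin θ * z.2| ≤ M := by
      rw [abs_mul]
      nlinarith [abs_nonneg z.2, abs_nonneg (Real.sin θ)]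
    have h6 : |Real.sin θ * z.1| ≤ M := by
      rw [abs_mul]
      nlinarith [abs_nonneg z.1, abs_nonneg (Real.sin θ)]
    have h7 : |Real.cos θ * z.2| ≤ M := by
      rw [abs_mul]
      nlinarith [abs_nonneg z.2, abs_nonneg (Real.cos θ)]
    rw [abs_le] at h4 h5 h6 h7
    rw [mem_Sq]
    have hcc := neg_abs_le c
    have hc0 := abs_nonneg c
    show ((c - T) - T ≤ Real.cos θ * z.1 + Real.sin θ * z.2 ∧
      Real.cos θ * z.1 + Real.sin θ * z.2 ≤ (c - T) + T) ∧
      |-Real.sin θ * z.1 + Real.cos θ * z.2| ≤ T ↔ Real.cos θ * z.1 + Real.sin θ * z.2 ≤ c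
    constructor
    · rintro ⟨⟨-, h⟩, -⟩; linarith
    · intro h
      refine ⟨⟨by linarith [h4.1, h5.1, le_abs_self c], by linarith⟩, ?_⟩
      rw [abs_le]
      constructor <;> linarith [h6.1, h6.2, h7.1, h7.2]
  intro i
  rw [← h i]
  have e : ∀ A : Set Pt, μ i (A ∩ B i) = μ i A := fun A =>
    measure_inter_conull' (measure_mono_null (fun z hz => hz.2) (hB0 i))
  rw [← e (Sq θ (c - T) T), ← e (halfPlane θ c)]
  congr 1
  ext z
  constructor
  · rintro ⟨h1, h2⟩; exact ⟨(hkey i z h2).1 h1, h2⟩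
  · rintro ⟨h1, h2⟩; exact ⟨(hkey i z h2).2 h1, h2⟩

theorem partC : ∃ μ : Fin 3 → Measure (ℝ × ℝ), FiniteAC μ ∧
    ∀ (p : ℝ × ℝ) (θ s : ℝ), 0 < s → ¬ Halves (square p θ s) μ := by
  refine ⟨![μ0, μs, μs], ?_, ?_⟩
  · intro i
    have := μs_fin
    fin_cases i
    · exact ⟨inferInstanceAs (IsFiniteMeasure μ0), μ0_ac⟩
    · exact ⟨μs_fin, μs_ac⟩
    · exact ⟨μs_fin, μs_ac⟩
  · intro p θ s _ h
    exact no_convex (square_convex p θ s) (square_compact p θ s) (h 0) (h 1)

end Pool.Agent.V11167.Sq3
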