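import Mathlib

open MeasureTheory Complex

namespace Pool.Agent.V11167.Sh

/-- circumradius of the regular `n`-gon of side `1` -/
noncomputable def circR (n : ℕ) : ℝ := 1 / (2 * Real.sin (Real.pi / n))

/-- the vertices of the regular `m`-gon with centre `0` and circumradius `r` having a vertex in the
direction `θ` -/
def regVerts (m : ℕ) (r θ : ℝ) : Set ℂ :=
  {z | ∃ t : ℕ, t < m ∧ z = (r : ℂ) * cexp (((θ + 2 * Real.pi * t / m : ℝ) : ℂ) * I)}

/-- the (filled) regular `n`-gon of side `1` with centre `0` and a vertex in the direction `θ` -/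
def ngon (n : ℕ) (θ : ℝ) : Set ℂ := convexHull ℝ (regVerts n (circR n) θ)

/-- basic `(k,n)`-setup: the vertices of the `k` regular `n`-gons of side `1` centred at the origin
form together a regular `kn`-gon -/
def IsBasic (k n : ℕ) (θ : Fin k → ℝ) : Prop :=
  ∃ γ : ℝ, (⋃ i, regVerts n (circR n) (θ i)) = regVerts (k * n) (circR n) γ

/-- marking: a vertex `A i` of each polygon, such that the marked vertices form a regular `k`-gon
centred at the origin -/
def IsMarking (k n : ℕ) (θ : Fin k → ℝ) (A : Fin k → ℂ) : Prop :=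
  (∀ i, A i ∈ regVerts n (circR n) (θ i)) ∧ ∃ β : ℝ, Set.range A = regVerts k (circR n) β

/-- union of the polygons translated by `ε • A i` -/
def shifted (k n : ℕ) (θ : Fin k → ℝ) (A : Fin k → ℂ) (ε : ℝ) : Set ℂ :=
  ⋃ i, (fun z => z + (ε : ℂ) * A i) '' ngon n (θ i)

/-- perimeter: the length (1-dimensional Hausdorff measure) of the boundary -/
noncomputable def perim (U : Set ℂ) : ℝ := ((μH[1] : Measure ℂ) (frontier U)).toReal

/-- area -/
noncomputable def area (U : Set ℂ) : ℝ := (volume U).toReal

/-- perimeter-to-area ratio -/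
noncomputable def ratio (U : Set ℂ) : ℝ := perim U / area U

end Pool.Agent.V11167.Sh
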