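import Mathlib

open MeasureTheory Complex Set

namespace Pool.Agent.V11167.Sh

/-- A closed star-shaped polygon with vertices `Z 0, Z 1, ..., Z N = Z 0` around the origin,
in polar coordinates. -/
structure Star (N : ℕ) (Z : ℕ → ℂ) (r θ : ℕ → ℝ) : Prop where
  pos : ∀ m ≤ N, 0 < r m
  eq : ∀ m ≤ N, Z m = (r m : ℂ) * cexp ((θ m : ℂ) * I)
  lt : ∀ m < N, θ m < θ (m+1)
  lt_pi : ∀ m < N, θ (m+1) - θ m < Real.pi
  wrap : θ N = θ 0 + 2 * Real.pi

/-- the half open cone between `P` and `Q` -/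
def cone (P Q : ℂ) : Set ℂ := {z | ∃ a b : ℝ, 0 < a ∧ 0 ≤ b ∧ z = (a : ℂ) * P + (b : ℂ) * Q}

theorem exp_comb (A B C : ℝ) :
    (Real.sin (C - B) : ℂ) * cexp ((A : ℂ) * I) + (Real.sin (B - A) : ℂ) * cexp ((C : ℂ) * I)
      = (Real.sin (C - A) : ℂ) * cexp ((B : ℂ) * I) := by
  apply Complex.ext
  · simp [Complex.exp_ofReal_mul_I_re, Complex.exp_ofReal_mul_I_im, Real.sin_sub,
      -Complex.ofReal_sin, -Complex.ofReal_cos]
    ring
  · simp [Complex.exp_ofReal_mul_I_re, Complex.exp_ofReal_mul_I_im, Real.sin_sub,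
      -Complex.ofReal_sin, -Complex.ofReal_cos]
    ring

theorem exists_angle (z : ℂ) (s : ℝ) :
    ∃ φ : ℝ, s ≤ φ ∧ φ < s + 2 * Real.pi ∧ z = (‖z‖ : ℂ) * cexp ((φ : ℂ) * I) := by
  refine ⟨toIcoMod Real.two_pi_pos s (arg z), (toIcoMod_mem_Ico Real.two_pi_pos s (arg z)).1,
    (toIcoMod_mem_Ico Real.two_pi_pos s (arg z)).2, ?_⟩
  have h := self_sub_toIcoDiv_zsmul Real.two_pi_pos s (arg z)
  rw [← h]
  push_cast
  rw [sub_mul, Complex.exp_sub]
  have : cexp ((toIcoDiv Real.two_pi_pos s (arg z) • (2 * (Real.pi : ℂ))) * I) = 1 := by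
    rw [Complex.exp_eq_one_iff]
    refine ⟨toIcoDiv Real.two_pi_pos s (arg z), ?_⟩
    simp only [zsmul_eq_mul]
    ring
  rw [this]
  simp [Complex.norm_mul_exp_arg_mul_I]

theorem find_index {θ : ℕ → ℝ} {φ : ℝ} : ∀ M : ℕ, θ 0 ≤ φ → φ < θ M →
    ∃ m < M, θ m ≤ φ ∧ φ < θ (m+1) := by
  intro M
  induction M with
  | zero => intro h0 h1; exact absurd h1 (not_lt.mpr h0)
  | succ M ih =>
    intro h0 h1
    by_cases h : φ < θ M
    · obtain ⟨m, hm, h2⟩ := ih h0 h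
      exact ⟨m, by omega, h2⟩
    · exact ⟨M, by omega, not_lt.mp h, h1⟩

theorem mem_cone_of_angle {P Q : ℂ} {r r' A C : ℝ} (hr : 0 < r) (hr' : 0 < r')
    (hP : P = (r : ℂ) * cexp ((A : ℂ) * I)) (hQ : Q = (r' : ℂ) * cexp ((C : ℂ) * I))
    (hAC : A < C) (hpi : C - A < Real.pi) {ρ B : ℝ} (hρ : 0 < ρ) (hB : A ≤ B) (hB' : B < C) :
    (ρ : ℂ) * cexp ((B : ℂ) * I) ∈ cone P Q := by
  have hs : 0 < Real.sin (C - A) := Real.sin_pos_of_pos_of_lt_pi (by linarith) hpi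
  refine ⟨ρ * Real.sin (C - B) / (r * Real.sin (C - A)),
    ρ * Real.sin (B - A) / (r' * Real.sin (C - A)), ?_, ?_, ?_⟩
  · apply div_pos (mul_pos hρ (Real.sin_pos_of_pos_of_lt_pi (by linarith) (by linarith)))
      (mul_pos hr hs)
  · apply div_nonneg (mul_nonneg hρ.le
      (Real.sin_nonneg_of_nonneg_of_le_pi (by linarith) (by linarith))) (mul_pos hr' hs).le
  · rw [hP, hQ]
    have h := exp_comb A B C
    have h1 : (Real.sin (C - A) : ℂ) ≠ 0 := by exact_mod_cast hs.ne'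
    have h2 : (r : ℂ) ≠ 0 := by exact_mod_cast hr.ne'
    have h3 : (r' : ℂ) ≠ 0 := by exact_mod_cast hr'.ne'
    have h4 : cexp ((B : ℂ) * I) = ((Real.sin (C - B) : ℂ) * cexp ((A : ℂ) * I) +
      (Real.sin (B - A) : ℂ) * cexp ((C : ℂ) * I)) / (Real.sin (C - A) : ℂ) := by
      rw [h]; field_simp
    rw [h4]
    push_cast [-Complex.ofReal_sin]
    field_simp

theorem angle_of_mem_cone {P Q : ℂ} {r r' A C : ℝ} (hr : 0 < r) (hr' : 0 < r')
    (hP : P = (r : ℂ) * cexp ((A : ℂ) * I)) (hQ : Q = (r' : ℂ) * cexp ((C : ℂ) * I))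
    (hAC : A < C) (hpi : C - A < Real.pi) {z : ℂ} (hz : z ∈ cone P Q) :
    ∃ ρ B : ℝ, 0 < ρ ∧ A ≤ B ∧ B < C ∧ z = (ρ : ℂ) * cexp ((B : ℂ) * I) := by
  obtain ⟨a, b, ha, hb, rfl⟩ := hz
  have hs : 0 < Real.sin (C - A) := Real.sin_pos_of_pos_of_lt_pi (by linarith) hpi
  set w : ℂ := (a * r : ℝ) + (b * r' : ℝ) * cexp (((C - A : ℝ) : ℂ) * I) with hw
  have hzw : (a : ℂ) * P + (b : ℂ) * Q = w * cexp ((A : ℂ) * I) := by
    rw [hP, hQ, hw]
    have : cexp ((C : ℂ) * I) = cexp (((C - A : ℝ) : ℂ) * I) * cexp ((A : ℂ) * I) := by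
      rw [← Complex.exp_add]; congr 1; push_cast; ring
    rw [this]; push_cast; ring
  have him : w.im = b * r' * Real.sin (C - A) := by
    rw [hw]
    simp [Complex.exp_ofReal_mul_I_im, -Complex.ofReal_sub, -Complex.ofReal_mul]
  have hre : w.re = a * r + b * r' * Real.cos (C - A) := by
    rw [hw]
    simp [Complex.exp_ofReal_mul_I_re, -Complex.ofReal_sub, -Complex.ofReal_mul]
  have hw0 : w ≠ 0 := by
    intro h
    have h1 : w.im = 0 := by rw [h]; rfl
    have h2 : w.re = 0 := by rw [h]; rfl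
    rw [him] at h1
    rw [hre] at h2
    have h3 : b * r' = 0 := by
      rcases mul_eq_zero.mp h1 with h | h
      · exact h
      · exact absurd h hs.ne'
    rw [h3] at h2
    have : 0 < a * r := mul_pos ha hr
    linarith
  have harg0 : 0 ≤ arg w := by
    rw [Complex.arg_nonneg_iff, him]
    exact mul_nonneg (mul_nonneg hb hr'.le) hs.le
  have hn : 0 < ‖w‖ := norm_pos_iff.mpr hw0
  have hwe := Complex.norm_mul_exp_arg_mul_I w
  have hre' : w.re = ‖w‖ * Real.cos (arg w) := by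
    conv_lhs => rw [← hwe]
    simp [Complex.exp_ofReal_mul_I_re]
  have him' : w.im = ‖w‖ * Real.sin (arg w) := by
    conv_lhs => rw [← hwe]
    simp [Complex.exp_ofReal_mul_I_im]
  refine ⟨‖w‖, A + arg w, hn, by linarith, ?_, ?_⟩
  · -- sin (arg w - (C - A)) < 0
    by_contra hcon
    have hge : 0 ≤ arg w - (C - A) := by linarith [not_lt.mp hcon]
    have hle : arg w - (C - A) ≤ Real.pi := by
      have := Complex.arg_le_pi w
      linarith
    have h1 : 0 ≤ Real.sin (arg w - (C - A)) := Real.sin_nonneg_of_nonneg_of_le_pi hge hle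
    have h2 : ‖w‖ * Real.sin (arg w - (C - A)) = - (a * r * Real.sin (C - A)) := by
      rw [Real.sin_sub]
      have e1 : ‖w‖ * (Real.sin (arg w) * Real.cos (C - A) - Real.cos (arg w) * Real.sin (C - A))
        = w.im * Real.cos (C - A) - w.re * Real.sin (C - A) := by rw [him', hre']; ring
      rw [e1, him, hre]; ring
    have h3 : 0 < a * r * Real.sin (C - A) := mul_pos (mul_pos ha hr) hs
    have h4 : 0 ≤ ‖w‖ * Real.sin (arg w - (C - A)) := mul_nonneg hn.le h1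
    linarith
  · rw [hzw]
    have e : cexp (((A + arg w : ℝ) : ℂ) * I) = cexp ((A : ℂ) * I) * cexp ((arg w : ℂ) * I) := by
      rw [← Complex.exp_add]; congr 1; push_cast; ring
    rw [e]
    conv_lhs => rw [← hwe]
    ring

namespace Star

variable {N : ℕ} {Z : ℕ → ℂ} {r θ : ℕ → ℝ}

theorem mono (h : Star N Z r θ) : ∀ {i j : ℕ}, i ≤ j → j ≤ N → θ i ≤ θ j := by
  intro i j hij
  induction hij with
  | refl => intro _; exact le_rfl
  | step hij ih =>
    intro hj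
    exact (ih (by omega)).trans (h.lt _ (by omega)).le

theorem cover (h : Star N Z r θ) {z : ℂ} (hz : z ≠ 0) : ∃ m < N, z ∈ cone (Z m) (Z (m+1)) := by
  obtain ⟨φ, h1, h2, h3⟩ := exists_angle z (θ 0)
  rw [← h.wrap] at h2
  obtain ⟨m, hm, h4, h5⟩ := find_index N h1 h2
  refine ⟨m, hm, ?_⟩
  rw [h3]
  exact mem_cone_of_angle (h.pos m hm.le) (h.pos (m+1) hm) (h.eq m hm.le) (h.eq (m+1) hm) (h.lt m hm)
    (h.lt_pi m hm) (norm_pos_iff.mpr hz) h4 h5

theorem disj_lt (h : Star N Z r θ) {m m' : ℕ} (hmm : m < m') (hm' : m' < N) :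
    Disjoint (cone (Z m) (Z (m+1))) (cone (Z m') (Z (m'+1))) := by
  rw [Set.disjoint_left]
  intro z hz hz'
  obtain ⟨ρ, B, hρ, hB1, hB2, e1⟩ := angle_of_mem_cone (h.pos m (by omega))
    (h.pos (m+1) (by omega)) (h.eq m (by omega))
    (h.eq (m+1) (by omega)) (h.lt m (by omega)) (h.lt_pi m (by omega)) hz
  obtain ⟨ρ', B', hρ', hB1', hB2', e2⟩ := angle_of_mem_cone (h.pos m' (by omega))
    (h.pos (m'+1) (by omega)) (h.eq m' (by omega))
    (h.eq (m'+1) (by omega)) (h.lt m' (by omega)) (h.lt_pi m' (by omega)) hz'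
  have hlt : B < B' := lt_of_lt_of_le hB2 ((h.mono (by omega : m + 1 ≤ m') (by omega)).trans hB1')
  have h0 : θ 0 ≤ B := (h.mono (Nat.zero_le m) (by omega)).trans hB1
  have hN : B' < θ 0 + 2 * Real.pi := by
    rw [← h.wrap]
    exact lt_of_lt_of_le hB2' (h.mono (by omega) le_rfl)
  have hnorm : ρ = ρ' := by
    have e3 : ‖z‖ = ρ := by
      rw [e1, norm_mul, Complex.norm_exp_ofReal_mul_I]
      simp [abs_of_pos hρ]
    have e4 : ‖z‖ = ρ' := by
      rw [e2, norm_mul, Complex.norm_exp_ofReal_mul_I]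
      simp [abs_of_pos hρ']
    rw [← e3, e4]
  have e5 : cexp ((B : ℂ) * I) = cexp ((B' : ℂ) * I) := by
    have : (ρ : ℂ) ≠ 0 := by exact_mod_cast hρ.ne'
    apply mul_left_cancel₀ this
    rw [← e1, e2, hnorm]
  rw [Complex.exp_eq_exp_iff_exists_int] at e5
  obtain ⟨n, hn⟩ := e5
  have h6 : B = B' + n * (2 * Real.pi) := by
    have : (B : ℂ) * I = ((B' + n * (2 * Real.pi) : ℝ) : ℂ) * I := by
      rw [hn]; push_cast; ring
    have h7 := mul_right_cancel₀ Complex.I_ne_zero this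
    exact_mod_cast h7
  have hpi := Real.pi_pos
  have h8 : (n : ℝ) < 0 := by
    by_contra hcon
    have : 0 ≤ (n : ℝ) * (2 * Real.pi) := mul_nonneg (not_lt.mp hcon) (by linarith)
    linarith
  have h9 : n ≤ -1 := by
    have : n < 0 := by exact_mod_cast h8
    omega
  have h10 : (n : ℝ) ≤ -1 := by exact_mod_cast h9
  have : (n : ℝ) * (2 * Real.pi) ≤ -1 * (2 * Real.pi) :=
    mul_le_mul_of_nonneg_right h10 (by linarith)
  linarith

theorem disj (h : Star N Z r θ) : (↑(Finset.range N) : Set ℕ).PairwiseDisjoint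
    (fun m => cone (Z m) (Z (m+1))) := by
  intro m hm m' hm' hne
  simp only [Finset.coe_range, mem_Iio] at hm hm'
  rcases lt_or_gt_of_ne hne with hlt | hlt
  · exact h.disj_lt hlt hm'
  · exact (h.disj_lt hlt hm).symm

end Star

end Pool.Agent.V11167.Sh
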