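import Mathlib
import Pool.Agent.V11167.ShA

open MeasureTheory Complex Set

namespace Pool.Agent.V11167.Sh

/-- the real linear map with `1 ↦ P`, `I ↦ Q` -/
noncomputable def lin (P Q : ℂ) : ℂ →ₗ[ℝ] ℂ where
  toFun z := (z.re : ℂ) * P + (z.im : ℂ) * Q
  map_add' x y := by simp; ring
  map_smul' c x := by simp; ring

theorem lin_apply (P Q z : ℂ) : lin P Q z = (z.re : ℂ) * P + (z.im : ℂ) * Q := rfl

theorem det_lin (P Q : ℂ) : LinearMap.det (lin P Q) = P.re * Q.im - P.im * Q.re := by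
  rw [← LinearMap.det_toMatrix Complex.basisOneI, Matrix.det_fin_two]
  simp [LinearMap.toMatrix_apply, lin_apply, Complex.coe_basisOneI, Complex.coe_basisOneI_repr]
  ring

theorem det_polar (r r' A C : ℝ) :
    ((r : ℂ) * cexp ((A : ℂ) * I)).re * ((r' : ℂ) * cexp ((C : ℂ) * I)).im -
    ((r : ℂ) * cexp ((A : ℂ) * I)).im * ((r' : ℂ) * cexp ((C : ℂ) * I)).re
      = r * r' * Real.sin (C - A) := by
  simp only [Complex.re_ofReal_mul, Complex.im_ofReal_mul, Complex.exp_ofReal_mul_I_re,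
    Complex.exp_ofReal_mul_I_im, Real.sin_sub]
  ring

theorem vol_T' : volume {p : ℝ × ℝ | 0 < p.1 ∧ 0 ≤ p.2 ∧ p.1 + p.2 ≤ 1} = ENNReal.ofReal (1/2) := by
  have hm : MeasurableSet {p : ℝ × ℝ | 0 < p.1 ∧ 0 ≤ p.2 ∧ p.1 + p.2 ≤ 1} := by
    apply MeasurableSet.inter
    · exact measurableSet_lt measurable_const measurable_fst
    · apply MeasurableSet.inter
      · exact measurableSet_le measurable_const measurable_snd
      · exact measurableSet_le (measurable_fst.add measurable_snd) measurable_const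
  rw [Measure.volume_eq_prod, Measure.prod_apply hm]
  have h1 : ∀ x : ℝ, volume (Prod.mk x ⁻¹' {p : ℝ × ℝ | 0 < p.1 ∧ 0 ≤ p.2 ∧ p.1 + p.2 ≤ 1})
      = (Set.Ioc (0:ℝ) 1).indicator (fun x => ENNReal.ofReal (1 - x)) x := by
    intro x
    by_cases hx : x ∈ Set.Ioc (0:ℝ) 1
    · rw [Set.indicator_of_mem hx]
      have : Prod.mk x ⁻¹' {p : ℝ × ℝ | 0 < p.1 ∧ 0 ≤ p.2 ∧ p.1 + p.2 ≤ 1} = Set.Icc 0 (1 - x) := by
        ext y
        simp only [mem_preimage, mem_ofPred_eq, mem_Icc]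
        constructor
        · rintro ⟨_, h2, h3⟩; exact ⟨h2, by linarith⟩
        · rintro ⟨h2, h3⟩; exact ⟨hx.1, h2, by linarith⟩
      rw [this, Real.volume_Icc, sub_zero]
    · rw [Set.indicator_of_notMem hx]
      have : Prod.mk x ⁻¹' {p : ℝ × ℝ | 0 < p.1 ∧ 0 ≤ p.2 ∧ p.1 + p.2 ≤ 1} = ∅ := by
        ext y
        simp only [mem_preimage, mem_ofPred_eq, mem_empty_iff_false, iff_false]
        rintro ⟨h1, h2, h3⟩
        exact hx ⟨h1, by linarith⟩
      rw [this, measure_empty]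
  simp_rw [h1]
  rw [lintegral_indicator measurableSet_Ioc, ← ofReal_integral_eq_lintegral_ofReal]
  · congr 1
    rw [← intervalIntegral.integral_of_le zero_le_one, intervalIntegral.integral_sub
      intervalIntegrable_const intervalIntegral.intervalIntegrable_id]
    simp
    norm_num
  · have : IntegrableOn (fun x : ℝ => 1 - x) (Set.Icc 0 1) :=
      (continuous_const.sub continuous_id).continuousOn.integrableOn_Icc
    exact this.mono_set Set.Ioc_subset_Icc_self
  · filter_upwards [ae_restrict_mem measurableSet_Ioc] with x hx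
    simp only [Pi.zero_apply]
    linarith [hx.2]

theorem vol_T : volume {z : ℂ | 0 < z.re ∧ 0 ≤ z.im ∧ z.re + z.im ≤ 1} = ENNReal.ofReal (1/2) := by
  have hm : MeasurableSet {p : ℝ × ℝ | 0 < p.1 ∧ 0 ≤ p.2 ∧ p.1 + p.2 ≤ 1} := by
    apply MeasurableSet.inter
    · exact measurableSet_lt measurable_const measurable_fst
    · apply MeasurableSet.inter
      · exact measurableSet_le measurable_const measurable_snd
      · exact measurableSet_le (measurable_fst.add measurable_snd) measurable_const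
  have h := Complex.volume_preserving_equiv_real_prod.measure_preimage hm.nullMeasurableSet
  rw [vol_T'] at h
  rw [← h]
  congr 1

/-- the half open triangle -/
def tri (P Q : ℂ) : Set ℂ :=
  {z | ∃ a b : ℝ, 0 < a ∧ 0 ≤ b ∧ a + b ≤ 1 ∧ z = (a : ℂ) * P + (b : ℂ) * Q}

theorem tri_eq (P Q : ℂ) : tri P Q = lin P Q '' {z : ℂ | 0 < z.re ∧ 0 ≤ z.im ∧ z.re + z.im ≤ 1} := by
  ext z
  constructor
  · rintro ⟨a, b, ha, hb, hab, rfl⟩
    exact ⟨⟨a, b⟩, ⟨ha, hb, hab⟩, rfl⟩
  · rintro ⟨w, ⟨h1, h2, h3⟩, rfl⟩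
    exact ⟨w.re, w.im, h1, h2, h3, rfl⟩

theorem volume_tri (P Q : ℂ) : volume (tri P Q) = ENNReal.ofReal (|P.re * Q.im - P.im * Q.re| / 2) := by
  rw [tri_eq, Measure.addHaar_image_linearMap, det_lin, vol_T,
    ← ENNReal.ofReal_mul (abs_nonneg _)]
  congr 1
  ring

/-- half open segment -/
def hseg (P Q : ℂ) : Set ℂ :=
  {z | ∃ a b : ℝ, 0 < a ∧ 0 ≤ b ∧ a + b = 1 ∧ z = (a : ℂ) * P + (b : ℂ) * Q}

theorem hseg_eq {P Q : ℂ} (hPQ : P ≠ Q) : hseg P Q = segment ℝ P Q \ {Q} := by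
  ext z
  constructor
  · rintro ⟨a, b, ha, hb, hab, rfl⟩
    refine ⟨⟨a, b, ha.le, hb, hab, by simp⟩, ?_⟩
    simp only [mem_singleton_iff]
    intro h
    apply hPQ
    have h1 : (a : ℂ) ≠ 0 := by exact_mod_cast ha.ne'
    apply mul_left_cancel₀ h1
    have h2 : (b : ℂ) = 1 - a := by
      have : b = 1 - a := by linarith
      rw [this]; push_cast; ring
    rw [h2] at h
    linear_combination h
  · rintro ⟨⟨a, b, ha, hb, hab, rfl⟩, h⟩
    refine ⟨a, b, ?_, hb, hab, by simp⟩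
    rcases ha.lt_or_eq with h1 | h1
    · exact h1
    · exfalso
      apply h
      have : b = 1 := by linarith
      simp [← h1, this]

theorem hausdorff_hseg {P Q : ℂ} (hPQ : P ≠ Q) :
    (μH[1] : Measure ℂ) (hseg P Q) = ENNReal.ofReal (dist P Q) := by
  rw [hseg_eq hPQ]
  haveI : NullSingletonClass (μH[1] : Measure ℂ) := Measure.nullSingletonClass_hausdorff ℂ one_pos
  rw [measure_sdiff_null (measure_singleton Q), hausdorffMeasure_segment, edist_dist]

theorem measurable_hseg {P Q : ℂ} (hPQ : P ≠ Q) : MeasurableSet (hseg P Q) := by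
  rw [hseg_eq hPQ]
  have hc : IsCompact (segment ℝ P Q) := by
    rw [← convexHull_pair]
    exact (Set.toFinite {P, Q}).isCompact_convexHull ℝ
  exact hc.isClosed.measurableSet.diff (measurableSet_singleton _)

end Pool.Agent.V11167.Sh
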