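import Mathlib
import Pool.Agent.V11167.ShB

open MeasureTheory Complex Set

namespace Pool.Agent.V11167.Sh

/-- `U` is the star polygon with vertices `Z 0, ..., Z N = Z 0` -/
structure Fits (N : ℕ) (Z : ℕ → ℂ) (U : Set ℂ) : Prop where
  closed : IsClosed U
  star : ∀ x ∈ U, ∀ t : ℝ, 0 ≤ t → t < 1 → (t : ℂ) * x ∈ interior U
  cone : ∀ m < N, ∀ a b : ℝ, 0 < a → 0 ≤ b →
    ((a : ℂ) * Z m + (b : ℂ) * Z (m+1) ∈ U ↔ a + b ≤ 1)

namespace Star

variable {N : ℕ} {Z : ℕ → ℂ} {r θ : ℕ → ℝ} {U : Set ℂ}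

theorem det_eq (h : Star N Z r θ) {m : ℕ} (hm : m < N) :
    (Z m).re * (Z (m+1)).im - (Z m).im * (Z (m+1)).re
      = r m * r (m+1) * Real.sin (θ (m+1) - θ m) := by
  rw [h.eq m hm.le, h.eq (m+1) hm]
  exact det_polar _ _ _ _

theorem det_pos (h : Star N Z r θ) {m : ℕ} (hm : m < N) :
    0 < (Z m).re * (Z (m+1)).im - (Z m).im * (Z (m+1)).re := by
  rw [h.det_eq hm]
  exact mul_pos (mul_pos (h.pos _ hm.le) (h.pos _ hm))
    (Real.sin_pos_of_pos_of_lt_pi (by linarith [h.lt m hm]) (h.lt_pi m hm))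

theorem ne (h : Star N Z r θ) {m : ℕ} (hm : m < N) : Z m ≠ Z (m+1) := by
  intro he
  have := h.det_pos hm
  rw [he] at this
  linarith

theorem inter_cone (hU : Fits N Z U) {m : ℕ} (hm : m < N) :
    U ∩ cone (Z m) (Z (m+1)) = tri (Z m) (Z (m+1)) := by
  ext z
  constructor
  · rintro ⟨hz, a, b, ha, hb, rfl⟩
    exact ⟨a, b, ha, hb, (hU.cone m hm a b ha hb).mp hz, rfl⟩
  · rintro ⟨a, b, ha, hb, hab, rfl⟩
    exact ⟨(hU.cone m hm a b ha hb).mpr hab, a, b, ha, hb, rfl⟩

theorem frontier_inter_cone (hU : Fits N Z U) {m : ℕ} (hm : m < N) :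
    frontier U ∩ cone (Z m) (Z (m+1)) = hseg (Z m) (Z (m+1)) := by
  ext z
  constructor
  · rintro ⟨hz, a, b, ha, hb, rfl⟩
    refine ⟨a, b, ha, hb, ?_, rfl⟩
    rw [frontier, hU.closed.closure_eq] at hz
    have h1 := (hU.cone m hm a b ha hb).mp hz.1
    rcases h1.lt_or_eq with h2 | h2
    · exfalso
      apply hz.2
      have hs : 0 < a + b := by linarith
      have hx : ((a / (a+b) : ℝ) : ℂ) * Z m + ((b / (a+b) : ℝ) : ℂ) * Z (m+1) ∈ U := by
        rw [hU.cone m hm _ _ (div_pos ha hs) (div_nonneg hb hs.le)]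
        rw [← add_div, div_self hs.ne']
      have h3 := hU.star _ hx (a+b) hs.le h2
      convert h3 using 1
      have h4 : ((a : ℂ) + (b : ℂ)) ≠ 0 := by exact_mod_cast hs.ne'
      push_cast
      field_simp
    · exact h2
  · rintro ⟨a, b, ha, hb, hab, rfl⟩
    refine ⟨?_, a, b, ha, hb, rfl⟩
    rw [frontier, hU.closed.closure_eq]
    refine ⟨(hU.cone m hm a b ha hb).mpr hab.le, ?_⟩
    intro hint
    have hcont : Continuous (fun t : ℝ => (t : ℂ) * ((a : ℂ) * Z m + (b : ℂ) * Z (m+1))) := by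
      fun_prop
    have hopen : IsOpen ((fun t : ℝ => (t : ℂ) * ((a : ℂ) * Z m + (b : ℂ) * Z (m+1))) ⁻¹'
        interior U) := isOpen_interior.preimage hcont
    have h1 : (1 : ℝ) ∈ (fun t : ℝ => (t : ℂ) * ((a : ℂ) * Z m + (b : ℂ) * Z (m+1))) ⁻¹'
        interior U := by
      simpa using hint
    obtain ⟨δ, hδ, hball⟩ := Metric.isOpen_iff.mp hopen 1 h1
    have h2 : (1 + δ/2 : ℝ) ∈ Metric.ball (1:ℝ) δ := by
      rw [Metric.mem_ball, Real.dist_eq]
      rw [show (1 + δ/2 - 1 : ℝ) = δ/2 by ring, abs_of_pos (by linarith)]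
      linarith
    have h3 := interior_subset (hball h2)
    have h4 : (((1 + δ/2) * a : ℝ) : ℂ) * Z m + (((1 + δ/2) * b : ℝ) : ℂ) * Z (m+1) ∈ U := by
      convert h3 using 1
      push_cast; ring
    have h5 := (hU.cone m hm _ _ (by positivity) (by positivity)).mp h4
    rw [← mul_add, hab] at h5
    linarith

theorem zero_not_mem_frontier (hN : 0 < N) (hU : Fits N Z U) : (0 : ℂ) ∉ frontier U := by
  have h1 : ((1 : ℝ) : ℂ) * Z 0 + ((0 : ℝ) : ℂ) * Z (0+1) ∈ U := by
    rw [hU.cone 0 hN 1 0 one_pos le_rfl]; norm_num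
  have h2 := hU.star _ h1 0 le_rfl zero_lt_one
  intro h
  apply h.2
  simpa using h2

theorem frontier_eq (h : Star N Z r θ) (hN : 0 < N) (hU : Fits N Z U) :
    frontier U = ⋃ m ∈ Finset.range N, hseg (Z m) (Z (m+1)) := by
  ext z
  simp only [Finset.mem_range, mem_iUnion, exists_prop]
  constructor
  · intro hz
    have hz0 : z ≠ 0 := by
      rintro rfl
      exact zero_not_mem_frontier hN hU hz
    obtain ⟨m, hm, hc⟩ := h.cover hz0
    refine ⟨m, hm, ?_⟩
    rw [← frontier_inter_cone hU hm]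
    exact ⟨hz, hc⟩
  · rintro ⟨m, hm, hz⟩
    rw [← frontier_inter_cone hU hm] at hz
    exact hz.1

theorem perim (h : Star N Z r θ) (hN : 0 < N) (hU : Fits N Z U) :
    (μH[1] : Measure ℂ) (frontier U) =
      ENNReal.ofReal (∑ m ∈ Finset.range N, dist (Z m) (Z (m+1))) := by
  rw [h.frontier_eq hN hU, measure_biUnion_finset, ENNReal.ofReal_sum_of_nonneg]
  · apply Finset.sum_congr rfl
    intro m hm
    exact hausdorff_hseg (h.ne (Finset.mem_range.mp hm))
  · intro m _; exact dist_nonneg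
  · intro i hi j hj hij
    have hi' : i < N := by simpa using hi
    have hj' : j < N := by simpa using hj
    have := h.disj hi hj hij
    simp only [Function.onFun] at this ⊢
    rw [← frontier_inter_cone hU hi', ← frontier_inter_cone hU hj']
    exact this.mono inter_subset_right inter_subset_right
  · intro m hm
    exact measurable_hseg (h.ne (Finset.mem_range.mp hm))

theorem measurable_cone' (h : Star N Z r θ) {m : ℕ} (hm : m < N) :
    MeasurableSet (cone (Z m) (Z (m+1))) := by
  -- cone = preimage of a quadrant under a linear map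
  set D := (Z m).re * (Z (m+1)).im - (Z m).im * (Z (m+1)).re with hD
  have hpos : 0 < D := h.det_pos hm
  have : cone (Z m) (Z (m+1)) = {z : ℂ | 0 < (z.re * (Z (m+1)).im - z.im * (Z (m+1)).re) / D ∧
      0 ≤ ((Z m).re * z.im - (Z m).im * z.re) / D} := by
    ext z
    constructor
    · rintro ⟨a, b, ha, hb, rfl⟩
      constructor
      · have : ((((a:ℂ) * Z m + (b:ℂ) * Z (m+1)).re * (Z (m+1)).im
          - ((a:ℂ) * Z m + (b:ℂ) * Z (m+1)).im * (Z (m+1)).re) / D) = a := by
          rw [div_eq_iff hpos.ne', hD]; simp; ring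
        rw [this]; exact ha
      · have : (((Z m).re * ((a:ℂ) * Z m + (b:ℂ) * Z (m+1)).im
          - (Z m).im * ((a:ℂ) * Z m + (b:ℂ) * Z (m+1)).re) / D) = b := by
          rw [div_eq_iff hpos.ne', hD]; simp; ring
        rw [this]; exact hb
    · rintro ⟨h1, h2⟩
      refine ⟨_, _, h1, h2, ?_⟩
      apply Complex.ext
      · simp
        field_simp
        rw [hD]; ring
      · simp
        field_simp
        rw [hD]; ring
  rw [this]
  have m1 : Measurable (fun z : ℂ => (z.re * (Z (m+1)).im - z.im * (Z (m+1)).re) / D) := by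
    fun_prop
  have m2 : Measurable (fun z : ℂ => ((Z m).re * z.im - (Z m).im * z.re) / D) := by
    fun_prop
  exact (measurableSet_lt measurable_const m1).inter (measurableSet_le measurable_const m2)

theorem area (h : Star N Z r θ) (hU : Fits N Z U) :
    volume U = ENNReal.ofReal (∑ m ∈ Finset.range N,
      ((Z m).re * (Z (m+1)).im - (Z m).im * (Z (m+1)).re) / 2) := by
  have h1 : volume U = volume (⋃ m ∈ Finset.range N, U ∩ cone (Z m) (Z (m+1))) := by
    apply measure_congr
    have h0 : (volume : Measure ℂ) {0} = 0 := measure_singleton 0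
    rw [MeasureTheory.ae_eq_set]
    constructor
    · apply measure_mono_null _ h0
      rintro z ⟨hz, hz'⟩
      by_contra hne
      apply hz'
      obtain ⟨m, hm, hc⟩ := h.cover hne
      simp only [Finset.mem_range, mem_iUnion, exists_prop]
      exact ⟨m, hm, hz, hc⟩
    · apply measure_mono_null _ h0
      rintro z ⟨hz, hz'⟩
      exfalso
      apply hz'
      simp only [Finset.mem_range, mem_iUnion, exists_prop] at hz
      obtain ⟨m, hm, hz, _⟩ := hz
      exact hz
  rw [h1, measure_biUnion_finset, ENNReal.ofReal_sum_of_nonneg]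
  · apply Finset.sum_congr rfl
    intro m hm
    rw [inter_cone hU (Finset.mem_range.mp hm), volume_tri,
      abs_of_pos (h.det_pos (Finset.mem_range.mp hm))]
  · intro m hm
    have := h.det_pos (Finset.mem_range.mp hm)
    linarith
  · intro i hi j hj hij
    have := h.disj hi hj hij
    simp only [Function.onFun] at this ⊢
    exact this.mono inter_subset_right inter_subset_right
  · intro m hm
    exact hU.closed.measurableSet.inter (h.measurable_cone' (Finset.mem_range.mp hm))

end Star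

end Pool.Agent.V11167.Sh
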