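import Mathlib
import Pool.Agent.V11167.ShC
import Pool.Agent.V11167.ShDefs

open MeasureTheory Complex Set

namespace Pool.Agent.V11167.Sh

/-- inner product with the unit vector of direction `φ` -/
noncomputable def ip (z : ℂ) (φ : ℝ) : ℝ := z.re * Real.cos φ + z.im * Real.sin φ

/-- tangential component -/
noncomputable def tc (z : ℂ) (φ : ℝ) : ℝ := - z.re * Real.sin φ + z.im * Real.cos φ

/-- point in polar coordinates -/
noncomputable def pol (r x : ℝ) : ℂ := (r : ℂ) * cexp ((x : ℂ) * I)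

theorem pol_re (r x : ℝ) : (pol r x).re = r * Real.cos x := by
  simp only [pol, Complex.re_ofReal_mul, Complex.exp_ofReal_mul_I_re]

theorem pol_im (r x : ℝ) : (pol r x).im = r * Real.sin x := by
  simp only [pol, Complex.im_ofReal_mul, Complex.exp_ofReal_mul_I_im]

theorem pol_add_int (r x : ℝ) (m : ℤ) : pol r (x + m * (2 * Real.pi)) = pol r x := by
  apply Complex.ext
  · rw [pol_re, pol_re, Real.cos_add_int_mul_two_pi]
  · rw [pol_im, pol_im, Real.sin_add_int_mul_two_pi]

theorem ip_pol (r x φ : ℝ) : ip (pol r x) φ = r * Real.cos (x - φ) := by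
  rw [ip, pol_re, pol_im, Real.cos_sub]; ring

theorem tc_pol (r x φ : ℝ) : tc (pol r x) φ = r * Real.sin (x - φ) := by
  rw [tc, pol_re, pol_im, Real.sin_sub]; ring

theorem ip_add (z w : ℂ) (φ : ℝ) : ip (z + w) φ = ip z φ + ip w φ := by
  simp [ip]; ring

theorem ip_sub (z w : ℂ) (φ : ℝ) : ip (z - w) φ = ip z φ - ip w φ := by
  simp [ip]; ring

theorem ip_smul (a : ℝ) (z : ℂ) (φ : ℝ) : ip ((a : ℂ) * z) φ = a * ip z φ := by
  simp [ip]; ring

theorem tc_add (z w : ℂ) (φ : ℝ) : tc (z + w) φ = tc z φ + tc w φ := by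
  simp [tc]; ring

theorem tc_smul (a : ℝ) (z : ℂ) (φ : ℝ) : tc ((a : ℂ) * z) φ = a * tc z φ := by
  simp [tc]; ring

theorem ip_zero (φ : ℝ) : ip 0 φ = 0 := by simp [ip]

theorem ip_add_int (z : ℂ) (φ : ℝ) (m : ℤ) : ip z (φ + m * (2 * Real.pi)) = ip z φ := by
  rw [ip, ip, Real.cos_add_int_mul_two_pi, Real.sin_add_int_mul_two_pi]

/-- an edge on the line `ip = h` -/
theorem edge_det {P Q : ℂ} {φ h : ℝ} (hP : ip P φ = h) (hQ : ip Q φ = h) :
    P.re * Q.im - P.im * Q.re = h * (tc Q φ - tc P φ) := by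
  have hcs := Real.sin_sq_add_cos_sq φ
  have e1 : P.re = h * Real.cos φ - tc P φ * Real.sin φ := by
    rw [← hP, ip, tc]; linear_combination (-P.re) * hcs
  have e2 : P.im = h * Real.sin φ + tc P φ * Real.cos φ := by
    rw [← hP, ip, tc]; linear_combination (-P.im) * hcs
  have e3 : Q.re = h * Real.cos φ - tc Q φ * Real.sin φ := by
    rw [← hQ, ip, tc]; linear_combination (-Q.re) * hcs
  have e4 : Q.im = h * Real.sin φ + tc Q φ * Real.cos φ := by
    rw [← hQ, ip, tc]; linear_combination (-Q.im) * hcs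
  rw [e1, e2, e3, e4]
  linear_combination (h * (tc Q φ - tc P φ)) * hcs

theorem edge_dist {P Q : ℂ} {φ h : ℝ} (hP : ip P φ = h) (hQ : ip Q φ = h) :
    dist P Q = |tc Q φ - tc P φ| := by
  have hcs := Real.sin_sq_add_cos_sq φ
  have e1 : P.re = h * Real.cos φ - tc P φ * Real.sin φ := by
    rw [← hP, ip, tc]; linear_combination (-P.re) * hcs
  have e2 : P.im = h * Real.sin φ + tc P φ * Real.cos φ := by
    rw [← hP, ip, tc]; linear_combination (-P.im) * hcs
  have e3 : Q.re = h * Real.cos φ - tc Q φ * Real.sin φ := by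
    rw [← hQ, ip, tc]; linear_combination (-Q.re) * hcs
  have e4 : Q.im = h * Real.sin φ + tc Q φ * Real.cos φ := by
    rw [← hQ, ip, tc]; linear_combination (-Q.im) * hcs
  rw [Complex.dist_eq_re_im, e1, e2, e3, e4, ← Real.sqrt_sq_eq_abs]
  congr 1
  linear_combination ((tc Q φ - tc P φ)^2) * hcs

theorem cos_le_of {x y : ℝ} (hy : 0 ≤ y) (h1 : y ≤ x) (h2 : x ≤ 2 * Real.pi - y) :
    Real.cos x ≤ Real.cos y := by
  by_cases hx : x ≤ Real.pi
  · exact Real.cos_le_cos_of_nonneg_of_le_pi hy hx h1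
  · have : Real.cos x = Real.cos (2 * Real.pi - x) := by
      rw [Real.cos_two_pi_sub]
    rw [this]
    exact Real.cos_le_cos_of_nonneg_of_le_pi hy (by linarith) (by linarith)

theorem cos_lt_of {x y : ℝ} (hy : 0 ≤ y) (h1 : y < x) (h2 : x < 2 * Real.pi - y) :
    Real.cos x < Real.cos y := by
  by_cases hx : x ≤ Real.pi
  · exact Real.cos_lt_cos_of_nonneg_of_le_pi hy hx h1
  · have : Real.cos x = Real.cos (2 * Real.pi - x) := by
      rw [Real.cos_two_pi_sub]
    rw [this]
    exact Real.cos_lt_cos_of_nonneg_of_le_pi hy (by linarith) (by linarith)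

theorem cos_lt_of_abs {x y : ℝ} (hy : y ≤ Real.pi) (h : |x| < y) : Real.cos y < Real.cos x := by
  rw [← Real.cos_abs x]
  exact Real.cos_lt_cos_of_nonneg_of_le_pi (abs_nonneg _) hy h

/-- reduction of the integer parameter -/
theorem red (n : ℕ) (hn : 0 < n) (t : ℤ) : ∃ (s : ℕ) (m : ℤ), s < n ∧ t = s + n * m := by
  have hn' : (0:ℤ) < n := by exact_mod_cast hn
  refine ⟨(t % n).toNat, t / n, ?_, ?_⟩
  · have h1 := Int.emod_lt_of_pos t hn'
    have h2 := Int.emod_nonneg t hn'.ne'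
    omega
  · have h2 := Int.emod_nonneg t hn'.ne'
    rw [Int.toNat_of_nonneg h2]
    exact (Int.emod_add_mul_ediv t n).symm

/-- `cos (y + 2 t π / n) < cos y` if `n` does not divide `t` and `0 ≤ y < π / n` -/
theorem cos_shift_lt {n : ℕ} (hn : 0 < n) {y : ℝ} (hy : 0 ≤ y) (hy' : y < Real.pi / n) {t : ℤ}
    (ht : ¬ (n : ℤ) ∣ t) : Real.cos (y + 2 * t * (Real.pi / n)) < Real.cos y := by
  obtain ⟨s, m, hs, rfl⟩ := red n hn t
  have hs0 : s ≠ 0 := by
    rintro rfl
    apply ht
    simp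
  have hn' : (0:ℝ) < n := by exact_mod_cast hn
  have e : y + 2 * ((s : ℤ) + n * m : ℤ) * (Real.pi / n) = y + 2 * s * (Real.pi / n) +
      m * (2 * Real.pi) := by
    push_cast; field_simp; ring
  rw [e, Real.cos_add_int_mul_two_pi]
  have hs1 : (1:ℝ) ≤ s := by exact_mod_cast Nat.one_le_iff_ne_zero.mpr hs0
  have hs2 : (s:ℝ) ≤ n - 1 := by
    have : s + 1 ≤ n := hs
    have : ((s+1 : ℕ) : ℝ) ≤ n := by exact_mod_cast this
    push_cast at this; linarith
  have hpn : 0 < Real.pi / n := div_pos Real.pi_pos hn'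
  have hpn' : (n : ℝ) * (Real.pi / n) = Real.pi := by field_simp
  apply cos_lt_of hy
  · nlinarith
  · nlinarith

theorem cos_shift_le {n : ℕ} (hn : 0 < n) {y : ℝ} (hy : 0 ≤ y) (hy' : y ≤ Real.pi / n) (t : ℤ) :
    Real.cos (y + 2 * t * (Real.pi / n)) ≤ Real.cos y := by
  obtain ⟨s, m, hs, rfl⟩ := red n hn t
  have hn' : (0:ℝ) < n := by exact_mod_cast hn
  have e : y + 2 * ((s : ℤ) + n * m : ℤ) * (Real.pi / n) = y + 2 * s * (Real.pi / n) +
      m * (2 * Real.pi) := by
    push_cast; field_simp; ring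
  rw [e, Real.cos_add_int_mul_two_pi]
  have hs1 : (0:ℝ) ≤ s := Nat.cast_nonneg s
  have hs2 : (s:ℝ) ≤ n - 1 := by
    have : s + 1 ≤ n := hs
    have : ((s+1 : ℕ) : ℝ) ≤ n := by exact_mod_cast this
    push_cast at this; linarith
  have hpn : 0 < Real.pi / n := div_pos Real.pi_pos hn'
  have hpn' : (n : ℝ) * (Real.pi / n) = Real.pi := by field_simp
  apply cos_le_of hy
  · nlinarith
  · nlinarith

theorem pi_div_pos {n : ℕ} (hn : 3 ≤ n) : 0 < Real.pi / n := by
  have : (0:ℝ) < n := by exact_mod_cast (by omega : 0 < n)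
  exact div_pos Real.pi_pos this

theorem pi_div_le {n : ℕ} (hn : 3 ≤ n) : Real.pi / n ≤ Real.pi / 3 := by
  have : (3:ℝ) ≤ n := by exact_mod_cast hn
  exact div_le_div_of_nonneg_left Real.pi_pos.le (by norm_num) this

theorem sin_pi_div_pos {n : ℕ} (hn : 3 ≤ n) : 0 < Real.sin (Real.pi / n) := by
  apply Real.sin_pos_of_pos_of_lt_pi (pi_div_pos hn)
  linarith [pi_div_le hn, Real.pi_pos]

theorem cos_pi_div_pos {n : ℕ} (hn : 3 ≤ n) : 0 < Real.cos (Real.pi / n) := by
  apply Real.cos_pos_of_mem_Ioo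
  constructor
  · linarith [pi_div_pos hn, Real.pi_pos]
  · linarith [pi_div_le hn, Real.pi_pos]

theorem circR_pos {n : ℕ} (hn : 3 ≤ n) : 0 < circR n := by
  unfold circR
  have := sin_pi_div_pos hn
  positivity

theorem circR_sin {n : ℕ} (hn : 3 ≤ n) : circR n * Real.sin (Real.pi / n) = 1 / 2 := by
  unfold circR
  have := (sin_pi_div_pos hn).ne'
  field_simp

/-- inradius -/
noncomputable def inr (n : ℕ) : ℝ := circR n * Real.cos (Real.pi / n)

theorem inr_pos {n : ℕ} (hn : 3 ≤ n) : 0 < inr n := mul_pos (circR_pos hn) (cos_pi_div_pos hn)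

theorem star_ngon {n : ℕ} (hn : 3 ≤ n) {R : ℝ} (hR : 0 < R) (θ : ℝ) :
    Star n (fun m => pol R (θ + 2 * m * (Real.pi / n))) (fun _ => R)
      (fun m => θ + 2 * m * (Real.pi / n)) where
  pos _ _ := hR
  eq _ _ := rfl
  lt m _ := by
    have := pi_div_pos hn
    push_cast
    linarith
  lt_pi m _ := by
    have := pi_div_le hn
    have := Real.pi_pos
    push_cast
    linarith
  wrap := by
    have : (n:ℝ) ≠ 0 := by exact_mod_cast (by omega : n ≠ 0)
    field_simp
    push_cast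
    ring

theorem regVerts_eq {n : ℕ} (hn : 0 < n) (r θ : ℝ) :
    regVerts n r θ = {z | ∃ t : ℤ, z = pol r (θ + 2 * t * (Real.pi / n))} := by
  have hn' : (n:ℝ) ≠ 0 := by exact_mod_cast hn.ne'
  ext z
  constructor
  · rintro ⟨t, ht, rfl⟩
    refine ⟨t, ?_⟩
    unfold pol
    congr 4
    push_cast; field_simp
  · rintro ⟨t, rfl⟩
    obtain ⟨s, m, hs, rfl⟩ := red n hn t
    refine ⟨s, hs, ?_⟩
    have e : θ + 2 * ((s : ℤ) + n * m : ℤ) * (Real.pi / n) = (θ + 2 * Real.pi * s / n) +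
      m * (2 * Real.pi) := by
      push_cast; field_simp; ring
    rw [e, pol_add_int]
    rfl

theorem zero_mem_ngon {n : ℕ} (hn : 3 ≤ n) (θ : ℝ) : (0 : ℂ) ∈ ngon n θ := by
  have hn' : (n:ℝ) ≠ 0 := by exact_mod_cast (by omega : n ≠ 0)
  have hroot := Complex.isPrimitiveRoot_exp n (by omega)
  have hsum := hroot.geom_sum_eq_zero (by omega)
  have hz : (0 : ℂ) = ∑ t ∈ Finset.range n, (1 / n : ℝ) • pol (circR n) (θ + 2 * t * (Real.pi / n)) := by
    have : ∀ t : ℕ, (1 / n : ℝ) • pol (circR n) (θ + 2 * t * (Real.pi / n)) =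
        ((1 / n : ℝ) * (circR n : ℂ) * cexp ((θ : ℂ) * I)) * (cexp (2 * Real.pi * I / n)) ^ t := by
      intro t
      have e1 : cexp ((θ : ℂ) * I) * (cexp (2 * Real.pi * I / n)) ^ t =
          cexp (((θ + 2 * t * (Real.pi / n) : ℝ) : ℂ) * I) := by
        rw [← Complex.exp_nat_mul, ← Complex.exp_add]
        congr 1
        push_cast
        ring
      rw [Complex.real_smul, pol, ← e1]
      ring
    rw [Finset.sum_congr rfl (fun t _ => this t), ← Finset.mul_sum, hsum, mul_zero]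
  rw [hz]
  apply (convex_convexHull ℝ _).sum_mem
  · intro t _; positivity
  · simp [hn']
  · intro t ht
    apply subset_convexHull
    rw [regVerts_eq (by omega)]
    exact ⟨t, by push_cast; rfl⟩

theorem mem_ngon {n : ℕ} (hn : 3 ≤ n) (θ : ℝ) (z : ℂ) :
    z ∈ ngon n θ ↔ ∀ t : ℤ, ip z (θ + (2 * t + 1) * (Real.pi / n)) ≤ inr n := by
  constructor
  · intro hz t
    have hsub : convexHull ℝ (regVerts n (circR n) θ) ⊆
        {z | ip z (θ + (2 * t + 1) * (Real.pi / n)) ≤ inr n} := by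
      apply convexHull_min
      · rw [regVerts_eq (by omega)]
        rintro _ ⟨s, rfl⟩
        simp only [mem_ofPred_eq]
        rw [ip_pol, inr]
        apply mul_le_mul_of_nonneg_left _ (circR_pos hn).le
        have e : θ + 2 * s * (Real.pi / n) - (θ + (2 * t + 1) * (Real.pi / n)) =
          -(Real.pi / n + 2 * ((t - s : ℤ) : ℝ) * (Real.pi / n)) := by push_cast; ring
        rw [e, Real.cos_neg]
        exact cos_shift_le (by omega) (pi_div_pos hn).le le_rfl _
      · intro x hx y hy a b ha hb hab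
        simp only [mem_ofPred_eq, Complex.real_smul] at hx hy ⊢
        rw [ip_add, ip_smul, ip_smul]
        calc a * ip x _ + b * ip y _ ≤ a * inr n + b * inr n :=
              add_le_add (mul_le_mul_of_nonneg_left hx ha) (mul_le_mul_of_nonneg_left hy hb)
          _ = inr n := by rw [← add_mul, hab, one_mul]
    exact hsub hz
  · intro h
    by_cases hz : z = 0
    · rw [hz]; exact zero_mem_ngon hn θ
    · obtain ⟨m, hm, a, b, ha, hb, e⟩ := (star_ngon hn (circR_pos hn) θ).cover hz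
      have h1 := h m
      rw [e, ip_add, ip_smul, ip_smul, ip_pol, ip_pol] at h1
      have e1 : θ + 2 * (m:ℝ) * (Real.pi / n) - (θ + (2 * ((m : ℤ) : ℝ) + 1) * (Real.pi / n))
        = -(Real.pi / n) := by push_cast; ring
      have e2 : θ + 2 * ((m + 1 : ℕ):ℝ) * (Real.pi / n) -
        (θ + (2 * ((m : ℤ) : ℝ) + 1) * (Real.pi / n)) = (Real.pi / n) := by push_cast; ring
      rw [e1, e2, Real.cos_neg] at h1
      have h2 : (a + b) * inr n ≤ 1 * inr n := by
        unfold inr at h1 ⊢; linarith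
      have h3 : a + b ≤ 1 := le_of_mul_le_mul_right h2 (inr_pos hn)
      have hv : ∀ t : ℕ, pol (circR n) (θ + 2 * t * (Real.pi / n)) ∈ ngon n θ := by
        intro t
        apply subset_convexHull
        rw [regVerts_eq (by omega)]
        exact ⟨t, by push_cast; rfl⟩
      have hconv : Convex ℝ (ngon n θ) := convex_convexHull ℝ _
      have hs : 0 < a + b := by linarith
      have h4 : (a / (a+b)) • pol (circR n) (θ + 2 * m * (Real.pi / n)) +
          (b / (a+b)) • pol (circR n) (θ + 2 * (m+1 : ℕ) * (Real.pi / n)) ∈ ngon n θ := by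
        apply hconv (hv m) (hv (m+1)) (div_nonneg ha.le hs.le) (div_nonneg hb hs.le)
        rw [← add_div, div_self hs.ne']
      have h5 := hconv (zero_mem_ngon hn θ) h4 (sub_nonneg.mpr h3) hs.le (by ring)
      rw [smul_zero, zero_add] at h5
      rw [e]
      convert h5 using 1
      have h6 : ((a : ℂ) + (b : ℂ)) ≠ 0 := by exact_mod_cast hs.ne'
      simp only [Complex.real_smul]
      push_cast
      field_simp

end Pool.Agent.V11167.Sh
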