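import Mathlib
import Pool.Agent.V11167.ShD

open MeasureTheory Complex Set Filter Topology

namespace Pool.Agent.V11167.Sh

/-- intersection of the lines `ip = h1` (direction `x1`) and `ip = h2` (direction `x2`) -/
noncomputable def isect (h1 x1 h2 x2 : ℝ) : ℂ :=
  (((h2 * Real.sin x1 - h1 * Real.sin x2) / Real.sin (x1 - x2) : ℝ) : ℂ) +
  (((h1 * Real.cos x2 - h2 * Real.cos x1) / Real.sin (x1 - x2) : ℝ) : ℂ) * I

theorem isect_re (h1 x1 h2 x2 : ℝ) : (isect h1 x1 h2 x2).re =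
    (h2 * Real.sin x1 - h1 * Real.sin x2) / Real.sin (x1 - x2) := by
  unfold isect
  rw [Complex.add_re, Complex.re_ofReal_mul, Complex.ofReal_re, Complex.I_re, mul_zero, add_zero]

theorem isect_im (h1 x1 h2 x2 : ℝ) : (isect h1 x1 h2 x2).im =
    (h1 * Real.cos x2 - h2 * Real.cos x1) / Real.sin (x1 - x2) := by
  unfold isect
  rw [Complex.add_im, Complex.im_ofReal_mul, Complex.ofReal_im, Complex.I_im, mul_one, zero_add]

theorem ip_isect (h1 x1 h2 x2 φ : ℝ) : ip (isect h1 x1 h2 x2) φ =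
    (h2 * Real.sin (x1 - φ) + h1 * Real.sin (φ - x2)) / Real.sin (x1 - x2) := by
  rw [ip, isect_re, isect_im, Real.sin_sub x1 φ, Real.sin_sub φ x2]
  ring

theorem tc_isect (h1 x1 h2 x2 φ : ℝ) : tc (isect h1 x1 h2 x2) φ =
    (h1 * Real.cos (x2 - φ) - h2 * Real.cos (x1 - φ)) / Real.sin (x1 - x2) := by
  rw [tc, isect_re, isect_im, Real.cos_sub x1 φ, Real.cos_sub x2 φ]
  ring

theorem isect_pol (ρ m d : ℝ) (hd : Real.sin d ≠ 0) (hc : Real.cos d ≠ 0) :
    isect ρ (m + d) ρ (m - d) = pol (ρ / Real.cos d) m := by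
  have e : m + d - (m - d) = 2 * d := by ring
  apply Complex.ext
  · rw [isect_re, pol_re, e, Real.sin_two_mul, Real.sin_add, Real.sin_sub]
    field_simp
    ring
  · rw [isect_im, pol_im, e, Real.sin_two_mul, Real.cos_add, Real.cos_sub]
    field_simp
    ring

theorem ip_le_norm (z : ℂ) (φ : ℝ) : ip z φ ≤ ‖z‖ := by
  rw [Complex.norm_def, Complex.normSq_apply]
  apply Real.le_sqrt_of_sq_le
  have hcs := Real.sin_sq_add_cos_sq φ
  have : (z.re * z.re + z.im * z.im) - (ip z φ)^2 = (z.re * Real.sin φ - z.im * Real.cos φ)^2 := by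
    unfold ip
    linear_combination (-z.re^2 - z.im^2) * hcs
  nlinarith [sq_nonneg (z.re * Real.sin φ - z.im * Real.cos φ)]

theorem abs_ip_le_norm (z : ℂ) (φ : ℝ) : |ip z φ| ≤ ‖z‖ := by
  rw [abs_le]
  refine ⟨?_, ip_le_norm z φ⟩
  have := ip_le_norm (-z) φ
  rw [norm_neg] at this
  have e : ip (-z) φ = - ip z φ := by simp [ip]; ring
  linarith

theorem norm_pol {r : ℝ} (hr : 0 ≤ r) (x : ℝ) : ‖pol r x‖ = r := by
  rw [pol, norm_mul, Complex.norm_exp_ofReal_mul_I, mul_one, Complex.norm_real, Real.norm_eq_abs,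
    abs_of_nonneg hr]

/-- parameters of a shifted setup -/
structure Par where
  k : ℕ
  n : ℕ
  hk : 2 ≤ k
  hn : 3 ≤ n
  γ : ℝ
  a0 : ℤ
  w : ℤ
  z : ℤ
  y : ℤ
  hw1 : w = 1 + k * z
  hw2 : w = n * y

namespace Par

variable (p : Par)

/-- the angle of one step -/
noncomputable def al : ℝ := 2 * Real.pi / (p.k * p.n)
/-- half of the angle of a side -/
noncomputable def de : ℝ := Real.pi / p.n

theorem k_pos : (0:ℝ) < p.k := by exact_mod_cast (by have := p.hk; omega : 0 < p.k)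
theorem n_pos : (0:ℝ) < p.n := by exact_mod_cast (by have := p.hn; omega : 0 < p.n)

theorem k_al : p.k * p.al = 2 * p.de := by
  have := p.k_pos.ne'
  have := p.n_pos.ne'
  unfold al de
  field_simp

theorem n_de : p.n * p.de = Real.pi := by
  have := p.n_pos.ne'
  unfold de
  field_simp

theorem al_pos : 0 < p.al := div_pos Real.two_pi_pos (mul_pos p.k_pos p.n_pos)
theorem de_pos : 0 < p.de := pi_div_pos p.hn
theorem de_le : p.de ≤ Real.pi / 3 := pi_div_le p.hn
theorem al_le : p.al ≤ p.de := by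
  have h := p.k_al
  have h2 : (2:ℝ) ≤ p.k := by exact_mod_cast p.hk
  nlinarith [p.al_pos]

/-- marked vertex -/
noncomputable def A (j : ℤ) : ℂ := pol (circR p.n) (p.γ + (p.a0 + p.w * j) * p.al)
/-- convex vertices of the union -/
noncomputable def V (ε : ℝ) (j : ℤ) : ℂ := pol (circR p.n) (p.γ + j * p.al) + (ε : ℂ) * p.A j
noncomputable def h1 (ε : ℝ) (j : ℤ) : ℝ := inr p.n + ε * ip (p.A j) (p.γ + j * p.al + p.de)
noncomputable def h2 (ε : ℝ) (j : ℤ) : ℝ := inr p.n + ε * ip (p.A j) (p.γ + j * p.al - p.de)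
/-- reflex vertices of the union -/
noncomputable def W (ε : ℝ) (j : ℤ) : ℂ :=
  isect (p.h1 ε j) (p.γ + j * p.al + p.de) (p.h2 ε (j+1)) (p.γ + (j+1) * p.al - p.de)
/-- the translated polygons -/
def P (ε : ℝ) (j : ℤ) : Set ℂ := (fun z => z + (ε : ℂ) * p.A j) '' ngon p.n (p.γ + j * p.al)

theorem mem_P (ε : ℝ) (j : ℤ) (z : ℂ) : z ∈ p.P ε j ↔ ∀ t : ℤ,
    ip z (p.γ + j * p.al + (2 * t + 1) * p.de) ≤
      inr p.n + ε * ip (p.A j) (p.γ + j * p.al + (2 * t + 1) * p.de) := by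
  have h : z ∈ p.P ε j ↔ z - (ε : ℂ) * p.A j ∈ ngon p.n (p.γ + j * p.al) := by
    unfold P
    constructor
    · rintro ⟨x, hx, rfl⟩
      simpa using hx
    · intro hx
      exact ⟨_, hx, by ring⟩
  rw [h, mem_ngon p.hn]
  simp only [ip_sub, ip_smul]
  apply forall_congr'
  intro t
  rw [sub_le_iff_le_add]
  exact Iff.rfl

theorem A_add (j s : ℤ) : p.A (j + p.k * s) = p.A j := by
  unfold A
  have e : p.γ + (p.a0 + p.w * ((j + p.k * s : ℤ) : ℝ)) * p.al = p.γ + (p.a0 + p.w * j) * p.al +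
      ((p.y * s : ℤ) : ℝ) * (2 * Real.pi) := by
    have h1 := p.k_al
    have h2 := p.n_de
    have h3 : (p.w : ℝ) = p.n * p.y := by exact_mod_cast p.hw2
    push_cast
    rw [h3]
    linear_combination ((p.n : ℝ) * p.y * s) * h1 + (2 * (p.y : ℝ) * s) * h2
  rw [e, pol_add_int]

theorem P_add (ε : ℝ) (j s : ℤ) : p.P ε (j + p.k * s) = p.P ε j := by
  ext z
  rw [mem_P, mem_P, p.A_add]
  have h1 := p.k_al
  constructor
  · intro h t
    have := h (t - s)
    have e : p.γ + ((j + p.k * s : ℤ) : ℝ) * p.al + (2 * ((t - s : ℤ) : ℝ) + 1) * p.de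
      = p.γ + j * p.al + (2 * t + 1) * p.de := by
      push_cast; linear_combination (s : ℝ) * h1
    rw [e] at this
    exact this
  · intro h t
    have := h (t + s)
    have e : p.γ + ((j + p.k * s : ℤ) : ℝ) * p.al + (2 * (t : ℝ) + 1) * p.de
      = p.γ + j * p.al + (2 * ((t + s : ℤ) : ℝ) + 1) * p.de := by
      push_cast; linear_combination (s : ℝ) * h1
    rw [e]
    exact this

/-- reduction of the side index -/
theorem mem_P_of (ε : ℝ) (j : ℤ) (z : ℂ) (h : ∀ s : ℕ, s < p.n →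
    ip z (p.γ + j * p.al + (2 * s + 1) * p.de) ≤
      inr p.n + ε * ip (p.A j) (p.γ + j * p.al + (2 * s + 1) * p.de)) : z ∈ p.P ε j := by
  rw [mem_P]
  intro t
  obtain ⟨s, m, hs, rfl⟩ := red p.n (by have := p.hn; omega) t
  have e : p.γ + j * p.al + (2 * ((s + p.n * m : ℤ) : ℝ) + 1) * p.de =
    p.γ + j * p.al + (2 * (s : ℝ) + 1) * p.de + m * (2 * Real.pi) := by
    have := p.n_de
    push_cast
    linear_combination (2 * (m : ℝ)) * this
  rw [e, ip_add_int, ip_add_int]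
  exact h s hs

/-- the union -/
def U (ε : ℝ) : Set ℂ := ⋃ j : ℤ, p.P ε j

theorem U_eq (ε : ℝ) : p.U ε = ⋃ i ∈ Finset.range p.k, p.P ε (i : ℤ) := by
  ext z
  simp only [U, mem_iUnion, Finset.mem_range, exists_prop]
  constructor
  · rintro ⟨j, hj⟩
    obtain ⟨s, m, hs, rfl⟩ := red p.k (by have := p.hk; omega) j
    refine ⟨s, hs, ?_⟩
    rw [P_add] at hj
    exact hj
  · rintro ⟨i, _, hi⟩
    exact ⟨i, hi⟩

theorem compact_P (ε : ℝ) (j : ℤ) : IsCompact (p.P ε j) := by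
  have h : IsCompact (ngon p.n (p.γ + j * p.al)) := by
    apply Set.Finite.isCompact_convexHull
    have : regVerts p.n (circR p.n) (p.γ + j * p.al) = (fun t : ℕ => ((circR p.n : ℝ) : ℂ) *
      cexp (((p.γ + j * p.al + 2 * Real.pi * t / p.n : ℝ) : ℂ) * I)) '' (Set.Iio p.n) := by
      ext z
      constructor
      · rintro ⟨t, ht, rfl⟩
        exact ⟨t, ht, rfl⟩
      · rintro ⟨t, ht, rfl⟩
        exact ⟨t, ht, rfl⟩
    rw [this]
    exact (Set.finite_Iio _).image _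
  exact h.image (by fun_prop)

theorem closed_U (ε : ℝ) : IsClosed (p.U ε) := by
  rw [U_eq]
  exact isClosed_biUnion_finset (fun i _ => (p.compact_P ε i).isClosed)

theorem convex_P (ε : ℝ) (j : ℤ) : Convex ℝ (p.P ε j) := by
  have h : Convex ℝ (ngon p.n (p.γ + j * p.al)) := convex_convexHull ℝ _
  intro x hx y hy a b ha hb hab
  rw [mem_P] at hx hy ⊢
  intro t
  have h1 := hx t
  have h2 := hy t
  simp only [Complex.real_smul]
  rw [ip_add, ip_smul, ip_smul]
  calc a * ip x _ + b * ip y _ ≤ a * _ + b * _ :=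
        add_le_add (mul_le_mul_of_nonneg_left h1 ha) (mul_le_mul_of_nonneg_left h2 hb)
    _ = _ := by rw [← add_mul, hab, one_mul]

theorem norm_A (j : ℤ) : ‖p.A j‖ = circR p.n := norm_pol (circR_pos p.hn).le _

theorem height_ge (ε : ℝ) (j : ℤ) (φ : ℝ) :
    inr p.n - |ε| * circR p.n ≤ inr p.n + ε * ip (p.A j) φ := by
  have h1 : |ε * ip (p.A j) φ| ≤ |ε| * circR p.n := by
    rw [abs_mul]
    apply mul_le_mul_of_nonneg_left _ (abs_nonneg _)
    rw [← p.norm_A j]
    exact abs_ip_le_norm _ _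
  have := (abs_le.mp h1).1
  linarith

theorem zero_mem_interior {ε : ℝ} (hε : |ε| * circR p.n < inr p.n) (j : ℤ) :
    (0 : ℂ) ∈ interior (p.P ε j) := by
  rw [mem_interior_iff_mem_nhds]
  apply Filter.mem_of_superset (Metric.ball_mem_nhds (0:ℂ) (sub_pos.mpr hε))
  intro z hz
  rw [mem_P]
  intro t
  have h1 := ip_le_norm z (p.γ + j * p.al + (2 * t + 1) * p.de)
  rw [mem_ball_zero_iff] at hz
  have h2 := p.height_ge ε j (p.γ + j * p.al + (2 * t + 1) * p.de)
  linarith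

theorem star_U {ε : ℝ} (hε : |ε| * circR p.n < inr p.n) :
    ∀ x ∈ p.U ε, ∀ t : ℝ, 0 ≤ t → t < 1 → (t : ℂ) * x ∈ interior (p.U ε) := by
  intro x hx t ht0 ht1
  simp only [U, mem_iUnion] at hx
  obtain ⟨j, hj⟩ := hx
  have h1 : (t : ℂ) * x ∈ interior (p.P ε j) := by
    have := (p.convex_P ε j).combo_interior_self_mem_interior (p.zero_mem_interior hε j) hj
      (sub_pos.mpr ht1) ht0 (by ring)
    simpa using this
  exact interior_mono (subset_iUnion (fun j : ℤ => p.P ε j) j) h1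

end Par

end Pool.Agent.V11167.Sh
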