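import Mathlib
import Pool.Agent.V11167.ShE

open MeasureTheory Complex Set Filter Topology

namespace Pool.Agent.V11167.Sh

theorem ev_lt {f g : ℝ → ℝ} (hf : Continuous f) (hg : Continuous g) (h : f 0 < g 0) :
    ∀ᶠ ε in 𝓝 (0:ℝ), f ε < g ε :=
  hf.continuousAt.eventually_lt hg.continuousAt h

theorem ev_arg {f : ℝ → ℂ} (hf : Continuous f) {r x δ : ℝ} (hr : 0 < r) (h0 : f 0 = pol r x)
    (hδ : 0 < δ) :
    ∀ᶠ ε in 𝓝 (0:ℝ), f ε ≠ 0 ∧ |arg (f ε * cexp ((-x : ℝ) * I))| < δ := by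
  have h1 : f 0 * cexp ((-x : ℝ) * I) = (r : ℂ) := by
    rw [h0, pol, mul_assoc, ← Complex.exp_add]
    push_cast
    ring_nf
    simp
  have hc : Continuous (fun ε => f ε * cexp ((-x : ℝ) * I)) := by fun_prop
  have hne : f 0 ≠ 0 := by
    intro h
    rw [h, zero_mul] at h1
    have : (r : ℂ) ≠ 0 := by exact_mod_cast hr.ne'
    exact this h1.symm
  have e1 : ∀ᶠ ε in 𝓝 (0:ℝ), f ε ≠ 0 := hf.continuousAt.eventually_ne hne
  have hslit : f 0 * cexp ((-x : ℝ) * I) ∈ slitPlane := by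
    rw [h1]
    exact Complex.ofReal_mem_slitPlane.mpr hr
  have hca : ContinuousAt (fun ε => arg (f ε * cexp ((-x : ℝ) * I))) 0 :=
    (Complex.continuousAt_arg hslit).comp (f := fun ε => f ε * cexp ((-x : ℝ) * I)) hc.continuousAt
  have hz : arg (f 0 * cexp ((-x : ℝ) * I)) = 0 := by
    rw [h1]
    exact Complex.arg_ofReal_of_nonneg hr.le
  have hca2 : ContinuousAt (fun ε => |arg (f ε * cexp ((-x : ℝ) * I))|) 0 := hca.abs
  have e2 : ∀ᶠ ε in 𝓝 (0:ℝ), |arg (f ε * cexp ((-x : ℝ) * I))| < δ := by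
    apply hca2.eventually_lt continuousAt_const
    simp only [hz, abs_zero]
    exact hδ
  exact e1.and e2

namespace Par

variable (p : Par)

/-- half of the angle at a reflex vertex -/
noncomputable def hd : ℝ := p.de - p.al / 2

theorem hd_pos : 0 < p.hd := by
  have := p.al_le; have := p.al_pos; unfold hd; linarith

theorem hd_lt : p.hd < p.de := by
  have := p.al_pos; unfold hd; linarith

theorem sin_hd_pos : 0 < Real.sin p.hd := by
  apply Real.sin_pos_of_pos_of_lt_pi p.hd_pos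
  have := p.hd_lt; have := p.de_le; have := Real.pi_pos
  linarith

theorem cos_hd_pos : 0 < Real.cos p.hd := by
  apply Real.cos_pos_of_mem_Ioo
  have := p.hd_lt; have := p.de_le; have := Real.pi_pos; have := p.hd_pos
  constructor <;> linarith

theorem sin_2hd_pos : 0 < Real.sin (2 * p.hd) := by
  rw [Real.sin_two_mul]
  have := p.sin_hd_pos; have := p.cos_hd_pos
  positivity

theorem x1_sub_x2 (j : ℤ) : (p.γ + j * p.al + p.de) - (p.γ + (j+1) * p.al - p.de) = 2 * p.hd := by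
  unfold hd; ring

theorem cont_h1 (j : ℤ) : Continuous (fun ε => p.h1 ε j) := by
  unfold h1; fun_prop

theorem cont_h2 (j : ℤ) : Continuous (fun ε => p.h2 ε j) := by
  unfold h2; fun_prop

theorem cont_V (j : ℤ) : Continuous (fun ε => p.V ε j) := by
  unfold V; fun_prop

theorem cont_W (j : ℤ) : Continuous (fun ε => p.W ε j) := by
  have h1 := p.cont_h1 j
  have h2 := p.cont_h2 (j+1)
  unfold W isect
  fun_prop

theorem cont_ip {f : ℝ → ℂ} (hf : Continuous f) (φ : ℝ) : Continuous (fun ε => ip (f ε) φ) := by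
  unfold ip; fun_prop

theorem V_zero (j : ℤ) : p.V 0 j = pol (circR p.n) (p.γ + j * p.al) := by
  simp [V]

theorem h1_zero (j : ℤ) : p.h1 0 j = inr p.n := by simp [h1]
theorem h2_zero (j : ℤ) : p.h2 0 j = inr p.n := by simp [h2]

theorem W_zero (j : ℤ) : p.W 0 j = pol (inr p.n / Real.cos p.hd) (p.γ + (j + 1/2) * p.al) := by
  rw [W, h1_zero, h2_zero, ← isect_pol _ _ _ p.sin_hd_pos.ne' p.cos_hd_pos.ne']
  unfold hd
  congr 1 <;> ring

theorem ip_V (ε : ℝ) (j : ℤ) (φ : ℝ) : ip (p.V ε j) φ =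
    circR p.n * Real.cos (p.γ + j * p.al - φ) + ε * ip (p.A j) φ := by
  rw [V, ip_add, ip_smul, ip_pol]

theorem tc_V (ε : ℝ) (j : ℤ) (φ : ℝ) : tc (p.V ε j) φ =
    circR p.n * Real.sin (p.γ + j * p.al - φ) + ε * tc (p.A j) φ := by
  rw [V, tc_add, tc_smul, tc_pol]

theorem V_on1 (ε : ℝ) (j : ℤ) : ip (p.V ε j) (p.γ + j * p.al + p.de) = p.h1 ε j := by
  rw [ip_V, h1, inr]
  congr 2
  rw [← Real.cos_neg]; congr 1; unfold de; ring

theorem V_on2 (ε : ℝ) (j : ℤ) : ip (p.V ε j) (p.γ + j * p.al - p.de) = p.h2 ε j := by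
  rw [ip_V, h2, inr]
  congr 2
  congr 1; unfold de; ring

theorem W_on1 (ε : ℝ) (j : ℤ) : ip (p.W ε j) (p.γ + j * p.al + p.de) = p.h1 ε j := by
  have h := p.sin_2hd_pos.ne'
  rw [W, ip_isect, x1_sub_x2, sub_self, Real.sin_zero]
  field_simp
  ring

theorem W_on2 (ε : ℝ) (j : ℤ) : ip (p.W ε j) (p.γ + (j+1) * p.al - p.de) = p.h2 ε (j+1) := by
  have h := p.sin_2hd_pos.ne'
  rw [W, ip_isect, x1_sub_x2, sub_self, Real.sin_zero]
  field_simp
  ring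

theorem ip_W_zero (j : ℤ) (φ : ℝ) : ip (p.W 0 j) φ =
    inr p.n / Real.cos p.hd * Real.cos (p.γ + (j + 1/2) * p.al - φ) := by
  rw [W_zero, ip_pol]

theorem lt_W_of {j : ℤ} {φ : ℝ} (h : Real.cos p.hd < Real.cos (p.γ + (j + 1/2) * p.al - φ)) :
    inr p.n < ip (p.W 0 j) φ := by
  rw [ip_W_zero, div_mul_eq_mul_div, lt_div_iff₀ p.cos_hd_pos]
  exact mul_lt_mul_of_pos_left h (inr_pos p.hn)

theorem W_lt_of {j : ℤ} {φ : ℝ} (h : Real.cos (p.γ + (j + 1/2) * p.al - φ) < Real.cos p.hd) :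
    ip (p.W 0 j) φ < inr p.n := by
  rw [ip_W_zero, div_mul_eq_mul_div, div_lt_iff₀ p.cos_hd_pos]
  exact mul_lt_mul_of_pos_left h (inr_pos p.hn)

theorem a_al {a : ℕ} (h1 : 1 ≤ a) (h2 : a < p.k) : p.al ≤ a * p.al ∧ a * p.al ≤ 2 * p.de - p.al := by
  have h3 : (1:ℝ) ≤ a := by exact_mod_cast h1
  have h4 : (a:ℝ) + 1 ≤ p.k := by exact_mod_cast h2
  have h5 := p.k_al
  have h6 := p.al_pos
  constructor
  · nlinarith
  · nlinarith

theorem ev_g1 (j : ℤ) {a : ℕ} (ha : 1 ≤ a) (ha' : a < p.k) : ∀ᶠ ε in 𝓝 (0:ℝ),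
    p.h2 ε (j+a) < ip (p.V ε j) (p.γ + (j+a) * p.al - p.de) := by
  apply ev_lt (p.cont_h2 _) (cont_ip (p.cont_V j) _)
  rw [h2_zero, V_zero, ip_pol, inr]
  apply mul_lt_mul_of_pos_left _ (circR_pos p.hn)
  obtain ⟨h1, h2⟩ := p.a_al ha ha'
  have := p.al_pos
  have hde := p.de_le
  apply cos_lt_of_abs
  · change p.de ≤ Real.pi; linarith [Real.pi_pos]
  · change _ < p.de
    rw [abs_lt]
    constructor <;> linarith

theorem ev_g1' (j : ℤ) {a : ℕ} (ha : 1 ≤ a) (ha' : a < p.k) : ∀ᶠ ε in 𝓝 (0:ℝ),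
    p.h1 ε (j+1-a) < ip (p.V ε (j+1)) (p.γ + (j+1-a) * p.al + p.de) := by
  apply ev_lt (p.cont_h1 _) (cont_ip (p.cont_V (j+1)) _)
  rw [h1_zero, V_zero, ip_pol, inr]
  apply mul_lt_mul_of_pos_left _ (circR_pos p.hn)
  obtain ⟨h1, h2⟩ := p.a_al ha ha'
  have := p.al_pos
  have hde := p.de_le
  apply cos_lt_of_abs
  · change p.de ≤ Real.pi; linarith [Real.pi_pos]
  · change _ < p.de
    push_cast
    rw [abs_lt]
    constructor <;> linarith

theorem ev_g2 (j : ℤ) {a : ℕ} (ha : 1 ≤ a) (ha' : a < p.k) : ∀ᶠ ε in 𝓝 (0:ℝ),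
    p.h2 ε (j+a) ≤ ip (p.W ε j) (p.γ + (j+a) * p.al - p.de) := by
  rcases ha.eq_or_lt with h | h
  · subst h
    apply Eventually.of_forall
    intro ε
    have := p.W_on2 ε j
    push_cast
    rw [this]
  · have key : ∀ᶠ ε in 𝓝 (0:ℝ), p.h2 ε (j+a) < ip (p.W ε j) (p.γ + (j+a) * p.al - p.de) := by
      apply ev_lt (p.cont_h2 _) (cont_ip (p.cont_W j) _)
      rw [h2_zero]
      apply p.lt_W_of
      obtain ⟨h1, h2⟩ := p.a_al ha ha'
      have h3 : (2:ℝ) ≤ a := by exact_mod_cast h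
      have := p.al_pos
      have h4 : 2 * p.al ≤ a * p.al := by nlinarith
      have hde := p.de_le
      apply cos_lt_of_abs
      · have := p.hd_lt; linarith [Real.pi_pos]
      · unfold hd
        rw [abs_lt]
        constructor <;> linarith
    exact key.mono (fun ε h => h.le)

theorem ev_g2' (j : ℤ) {a : ℕ} (ha : 1 ≤ a) (ha' : a < p.k) : ∀ᶠ ε in 𝓝 (0:ℝ),
    p.h1 ε (j+1-a) ≤ ip (p.W ε j) (p.γ + (j+1-a) * p.al + p.de) := by
  rcases ha.eq_or_lt with h | h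
  · subst h
    apply Eventually.of_forall
    intro ε
    have := p.W_on1 ε j
    push_cast
    rw [show j + 1 - 1 = j by ring, show (j:ℝ) + 1 - 1 = j by ring, this]
  · have key : ∀ᶠ ε in 𝓝 (0:ℝ), p.h1 ε (j+1-a) < ip (p.W ε j) (p.γ + (j+1-a) * p.al + p.de) := by
      apply ev_lt (p.cont_h1 _) (cont_ip (p.cont_W j) _)
      rw [h1_zero]
      apply p.lt_W_of
      obtain ⟨h1, h2⟩ := p.a_al ha ha'
      have h3 : (2:ℝ) ≤ a := by exact_mod_cast h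
      have := p.al_pos
      have h4 : 2 * p.al ≤ a * p.al := by nlinarith
      have hde := p.de_le
      apply cos_lt_of_abs
      · have := p.hd_lt; linarith [Real.pi_pos]
      · unfold hd
        rw [abs_lt]
        constructor <;> linarith
    exact key.mono (fun ε h => h.le)

theorem ev_g3 (j : ℤ) : ∀ᶠ ε in 𝓝 (0:ℝ), p.W ε j ∈ p.P ε j := by
  have key : ∀ᶠ ε in 𝓝 (0:ℝ), ∀ s ∈ Finset.range p.n,
      ip (p.W ε j) (p.γ + j * p.al + (2 * (s:ℕ) + 1) * p.de) ≤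
      inr p.n + ε * ip (p.A j) (p.γ + j * p.al + (2 * (s:ℕ) + 1) * p.de) := by
    rw [Filter.eventually_all_finset]
    intro s hs
    rw [Finset.mem_range] at hs
    rcases Nat.eq_zero_or_pos s with h | h
    · subst h
      apply Eventually.of_forall
      intro ε
      have := p.W_on1 ε j
      push_cast
      rw [show (2 * (0:ℝ) + 1) * p.de = p.de by ring, this, h1]
    · have key2 : ∀ᶠ ε in 𝓝 (0:ℝ), ip (p.W ε j) (p.γ + j * p.al + (2 * (s:ℕ) + 1) * p.de) <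
        inr p.n + ε * ip (p.A j) (p.γ + j * p.al + (2 * (s:ℕ) + 1) * p.de) := by
        apply ev_lt (cont_ip (p.cont_W j) _) (by fun_prop)
        rw [zero_mul, add_zero]
        apply p.W_lt_of
        have e : p.γ + (j + 1/2) * p.al - (p.γ + j * p.al + (2 * (s:ℕ) + 1) * p.de) =
          -(p.hd + 2 * ((s : ℤ) : ℝ) * (Real.pi / p.n)) := by
          unfold hd de; push_cast; ring
        rw [e, Real.cos_neg]
        apply cos_shift_lt (by have := p.hn; omega) p.hd_pos.le p.hd_lt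
        intro hdvd
        have := Int.le_of_dvd (by exact_mod_cast h) hdvd
        have : p.n ≤ s := by exact_mod_cast this
        omega
      exact key2.mono (fun ε h => h.le)
  apply key.mono
  intro ε hε
  apply p.mem_P_of
  intro s hs
  exact hε s (Finset.mem_range.mpr hs)

theorem ev_g3' (j : ℤ) : ∀ᶠ ε in 𝓝 (0:ℝ), p.W ε j ∈ p.P ε (j+1) := by
  have key : ∀ᶠ ε in 𝓝 (0:ℝ), ∀ s ∈ Finset.range p.n,
      ip (p.W ε j) (p.γ + ((j+1 : ℤ) : ℝ) * p.al + (2 * (s:ℕ) + 1) * p.de) ≤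
      inr p.n + ε * ip (p.A (j+1)) (p.γ + ((j+1 : ℤ) : ℝ) * p.al + (2 * (s:ℕ) + 1) * p.de) := by
    rw [Filter.eventually_all_finset]
    intro s hs
    rw [Finset.mem_range] at hs
    by_cases h : s + 1 = p.n
    · apply Eventually.of_forall
      intro ε
      have h2 := p.W_on2 ε j
      have h3 : (s : ℝ) + 1 = p.n := by exact_mod_cast h
      have e : p.γ + ((j+1 : ℤ) : ℝ) * p.al + (2 * (s:ℕ) + 1) * p.de =
        p.γ + (j+1) * p.al - p.de + ((1:ℤ) : ℝ) * (2 * Real.pi) := by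
        have := p.n_de
        rw [← h3] at this
        push_cast
        linear_combination 2 * this
      rw [e, ip_add_int, ip_add_int, h2, Par.h2]
      push_cast
      exact le_rfl
    · have key2 : ∀ᶠ ε in 𝓝 (0:ℝ),
        ip (p.W ε j) (p.γ + ((j+1 : ℤ) : ℝ) * p.al + (2 * (s:ℕ) + 1) * p.de) <
        inr p.n + ε * ip (p.A (j+1)) (p.γ + ((j+1 : ℤ) : ℝ) * p.al + (2 * (s:ℕ) + 1) * p.de) := by
        apply ev_lt (cont_ip (p.cont_W j) _) (by fun_prop)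
        rw [zero_mul, add_zero]
        apply p.W_lt_of
        have e : p.γ + (j + 1/2) * p.al - (p.γ + ((j+1 : ℤ) : ℝ) * p.al + (2 * (s:ℕ) + 1) * p.de) =
          (p.hd + 2 * ((-(s+1) : ℤ) : ℝ) * (Real.pi / p.n)) := by
          unfold hd de; push_cast; ring
        rw [e]
        apply cos_shift_lt (by have := p.hn; omega) p.hd_pos.le p.hd_lt
        intro hdvd
        rw [dvd_neg] at hdvd
        have := Int.le_of_dvd (by positivity) hdvd
        have : p.n ≤ s + 1 := by exact_mod_cast this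
        omega
      exact key2.mono (fun ε h => h.le)
  apply key.mono
  intro ε hε
  apply p.mem_P_of
  intro s hs
  exact hε s (Finset.mem_range.mpr hs)

theorem V_mem (ε : ℝ) (j : ℤ) : p.V ε j ∈ p.P ε j := by
  refine ⟨pol (circR p.n) (p.γ + j * p.al), ?_, rfl⟩
  apply subset_convexHull
  rw [regVerts_eq (by have := p.hn; omega)]
  exact ⟨0, by simp⟩

/-- the vertices of the union in cyclic order -/
noncomputable def Z (ε : ℝ) (m : ℕ) : ℂ :=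
  if m % 2 = 0 then p.V ε ((m / 2 : ℕ) : ℤ) else p.W ε ((m / 2 : ℕ) : ℤ)

theorem Z_even (ε : ℝ) (j : ℕ) : p.Z ε (2 * j) = p.V ε j := by
  have h1 : (2 * j) % 2 = 0 := by omega
  have h2 : (2 * j) / 2 = j := by omega
  rw [Z, if_pos h1, h2]

theorem Z_odd (ε : ℝ) (j : ℕ) : p.Z ε (2 * j + 1) = p.W ε j := by
  have h1 : ¬ (2 * j + 1) % 2 = 0 := by omega
  have h2 : (2 * j + 1) / 2 = j := by omega
  rw [Z, if_neg h1, h2]

theorem ev_Z (m : ℕ) : ∀ᶠ ε in 𝓝 (0:ℝ), p.Z ε m ≠ 0 ∧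
    |arg (p.Z ε m * cexp ((-(p.γ + m * (p.al / 2)) : ℝ) * I))| < p.al / 8 := by
  have hal : 0 < p.al / 8 := by have := p.al_pos; linarith
  obtain ⟨j, hj | hj⟩ : ∃ j, m = 2 * j ∨ m = 2 * j + 1 := ⟨m / 2, by omega⟩
  · subst hj
    simp_rw [Z_even]
    apply ev_arg (p.cont_V j) (circR_pos p.hn) _ hal
    rw [V_zero]
    congr 1
    push_cast; ring
  · subst hj
    simp_rw [Z_odd]
    apply ev_arg (p.cont_W j) (div_pos (inr_pos p.hn) p.cos_hd_pos) _ hal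
    rw [W_zero]
    congr 1
    push_cast; ring

theorem ev_small : ∀ᶠ ε in 𝓝 (0:ℝ), |ε| * circR p.n < inr p.n := by
  apply ev_lt (by fun_prop) continuous_const
  simpa using inr_pos p.hn

/-- the parameter is small enough -/
structure Good (ε : ℝ) : Prop where
  small : |ε| * circR p.n < inr p.n
  g1 : ∀ j ∈ Finset.range (p.k * p.n + 1), ∀ a ∈ Finset.Ico 1 p.k,
    p.h2 ε ((j:ℤ)+a) < ip (p.V ε j) (p.γ + ((j:ℤ)+a) * p.al - p.de)
  g1' : ∀ j ∈ Finset.range (p.k * p.n + 1), ∀ a ∈ Finset.Ico 1 p.k,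
    p.h1 ε ((j:ℤ)+1-a) < ip (p.V ε ((j:ℤ)+1)) (p.γ + ((j:ℤ)+1-a) * p.al + p.de)
  g2 : ∀ j ∈ Finset.range (p.k * p.n + 1), ∀ a ∈ Finset.Ico 1 p.k,
    p.h2 ε ((j:ℤ)+a) ≤ ip (p.W ε j) (p.γ + ((j:ℤ)+a) * p.al - p.de)
  g2' : ∀ j ∈ Finset.range (p.k * p.n + 1), ∀ a ∈ Finset.Ico 1 p.k,
    p.h1 ε ((j:ℤ)+1-a) ≤ ip (p.W ε j) (p.γ + ((j:ℤ)+1-a) * p.al + p.de)
  g3 : ∀ j ∈ Finset.range (p.k * p.n + 1), p.W ε j ∈ p.P ε j
  g3' : ∀ j ∈ Finset.range (p.k * p.n + 1), p.W ε j ∈ p.P ε (j+1)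
  g4 : ∀ m ∈ Finset.range (2 * (p.k * p.n) + 1), p.Z ε m ≠ 0 ∧
    |arg (p.Z ε m * cexp ((-(p.γ + m * (p.al / 2)) : ℝ) * I))| < p.al / 8

theorem ev_good : ∀ᶠ ε in 𝓝 (0:ℝ), p.Good ε := by
  have e1 : ∀ᶠ ε in 𝓝 (0:ℝ), ∀ j ∈ Finset.range (p.k * p.n + 1), ∀ a ∈ Finset.Ico 1 p.k,
    p.h2 ε ((j:ℤ)+a) < ip (p.V ε j) (p.γ + ((j:ℤ)+a) * p.al - p.de) := by
    simp only [Filter.eventually_all_finset]
    intro j _ a ha
    rw [Finset.mem_Ico] at ha
    exact p.ev_g1 j ha.1 ha.2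
  have e1' : ∀ᶠ ε in 𝓝 (0:ℝ), ∀ j ∈ Finset.range (p.k * p.n + 1), ∀ a ∈ Finset.Ico 1 p.k,
    p.h1 ε ((j:ℤ)+1-a) < ip (p.V ε ((j:ℤ)+1)) (p.γ + ((j:ℤ)+1-a) * p.al + p.de) := by
    simp only [Filter.eventually_all_finset]
    intro j _ a ha
    rw [Finset.mem_Ico] at ha
    exact p.ev_g1' j ha.1 ha.2
  have e2 : ∀ᶠ ε in 𝓝 (0:ℝ), ∀ j ∈ Finset.range (p.k * p.n + 1), ∀ a ∈ Finset.Ico 1 p.k,
    p.h2 ε ((j:ℤ)+a) ≤ ip (p.W ε j) (p.γ + ((j:ℤ)+a) * p.al - p.de) := by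
    simp only [Filter.eventually_all_finset]
    intro j _ a ha
    rw [Finset.mem_Ico] at ha
    exact p.ev_g2 j ha.1 ha.2
  have e2' : ∀ᶠ ε in 𝓝 (0:ℝ), ∀ j ∈ Finset.range (p.k * p.n + 1), ∀ a ∈ Finset.Ico 1 p.k,
    p.h1 ε ((j:ℤ)+1-a) ≤ ip (p.W ε j) (p.γ + ((j:ℤ)+1-a) * p.al + p.de) := by
    simp only [Filter.eventually_all_finset]
    intro j _ a ha
    rw [Finset.mem_Ico] at ha
    exact p.ev_g2' j ha.1 ha.2
  have e3 : ∀ᶠ ε in 𝓝 (0:ℝ), ∀ j ∈ Finset.range (p.k * p.n + 1), p.W ε j ∈ p.P ε j := by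
    simp only [Filter.eventually_all_finset]
    intro j _
    exact p.ev_g3 j
  have e3' : ∀ᶠ ε in 𝓝 (0:ℝ), ∀ j ∈ Finset.range (p.k * p.n + 1), p.W ε j ∈ p.P ε (j+1) := by
    simp only [Filter.eventually_all_finset]
    intro j _
    exact p.ev_g3' j
  have e4 : ∀ᶠ ε in 𝓝 (0:ℝ), ∀ m ∈ Finset.range (2 * (p.k * p.n) + 1), p.Z ε m ≠ 0 ∧
    |arg (p.Z ε m * cexp ((-(p.γ + m * (p.al / 2)) : ℝ) * I))| < p.al / 8 := by
    simp only [Filter.eventually_all_finset]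
    intro m _
    exact p.ev_Z m
  filter_upwards [p.ev_small, e1, e1', e2, e2', e3, e3', e4] with ε h1 h2 h3 h4 h5 h6 h7 h8
  exact ⟨h1, h2, h3, h4, h5, h6, h7, h8⟩

end Par

end Pool.Agent.V11167.Sh
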