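import Mathlib
import Pool.Agent.V11167.ShF

open MeasureTheory Complex Set Filter Topology

namespace Pool.Agent.V11167.Sh

theorem sum_two (f : ℕ → ℝ) (K : ℕ) :
    ∑ m ∈ Finset.range (2 * K), f m = ∑ j ∈ Finset.range K, (f (2*j) + f (2*j+1)) := by
  induction K with
  | zero => simp
  | succ K ih =>
    rw [Finset.sum_range_succ, ← ih, show 2 * (K+1) = 2 * K + 1 + 1 by ring,
      Finset.sum_range_succ, Finset.sum_range_succ]
    ring

theorem sum_exp_zero {K : ℕ} {η : ℝ} (c : ℝ) (h1 : cexp ((η : ℂ) * I) ≠ 1)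
    (h2 : cexp (((η * K : ℝ) : ℂ) * I) = 1) :
    ∑ j ∈ Finset.range K, cexp (((c + j * η : ℝ) : ℂ) * I) = 0 := by
  have e : ∀ j : ℕ, cexp (((c + j * η : ℝ) : ℂ) * I) =
      cexp ((c : ℂ) * I) * (cexp ((η : ℂ) * I)) ^ j := by
    intro j
    rw [← Complex.exp_nat_mul, ← Complex.exp_add]
    congr 1
    push_cast; ring
  rw [Finset.sum_congr rfl (fun j _ => e j), ← Finset.mul_sum, geom_sum_eq h1]
  have : cexp ((η : ℂ) * I) ^ K = 1 := by
    rw [← Complex.exp_nat_mul, ← h2]
    congr 1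
    push_cast; ring
  rw [this]; simp

theorem sum_cos_zero {K : ℕ} {η : ℝ} (c : ℝ) (h1 : cexp ((η : ℂ) * I) ≠ 1)
    (h2 : cexp (((η * K : ℝ) : ℂ) * I) = 1) :
    ∑ j ∈ Finset.range K, Real.cos (c + j * η) = 0 := by
  have h := congrArg Complex.re (sum_exp_zero c h1 h2)
  rw [Complex.re_sum] at h
  simpa only [Complex.exp_ofReal_mul_I_re, Complex.zero_re] using h

theorem sum_sin_zero {K : ℕ} {η : ℝ} (c : ℝ) (h1 : cexp ((η : ℂ) * I) ≠ 1)
    (h2 : cexp (((η * K : ℝ) : ℂ) * I) = 1) :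
    ∑ j ∈ Finset.range K, Real.sin (c + j * η) = 0 := by
  have h := congrArg Complex.im (sum_exp_zero c h1 h2)
  rw [Complex.im_sum] at h
  simpa only [Complex.exp_ofReal_mul_I_im, Complex.zero_im] using h

theorem exp_int (m : ℤ) : cexp (((m * (2 * Real.pi) : ℝ) : ℂ) * I) = 1 := by
  rw [Complex.exp_eq_one_iff]
  exact ⟨m, by push_cast; ring⟩

namespace Par

variable (p : Par)

theorem K_al : (p.k * p.n : ℝ) * p.al = 2 * Real.pi := by
  have h1 := p.k_al
  have h2 := p.n_de
  linear_combination (p.n : ℝ) * h1 + 2 * h2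

theorem V_per (ε : ℝ) : p.V ε ((p.k * p.n : ℕ) : ℤ) = p.V ε 0 := by
  unfold V
  have e1 : p.A ((p.k * p.n : ℕ) : ℤ) = p.A 0 := by
    have := p.A_add 0 p.n
    push_cast
    rwa [zero_add] at this
  rw [e1]
  congr 1
  have e2 : p.γ + (((p.k * p.n : ℕ) : ℤ) : ℝ) * p.al = p.γ + ((0 : ℤ) : ℝ) * p.al +
    ((1:ℤ) : ℝ) * (2 * Real.pi) := by
    have := p.K_al
    push_cast
    linear_combination this
  rw [e2, pol_add_int]

/-- polar angle of the vertices -/
noncomputable def th (ε : ℝ) (m : ℕ) : ℝ :=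
  p.γ + m * (p.al / 2) + arg (p.Z ε m * cexp ((-(p.γ + m * (p.al / 2)) : ℝ) * I))

theorem star_Z {ε : ℝ} (h : p.Good ε) :
    Star (2 * (p.k * p.n)) (p.Z ε) (fun m => ‖p.Z ε m‖) (p.th ε) where
  pos m hm := by
    exact norm_pos_iff.mpr (h.g4 m (Finset.mem_range.mpr (by omega))).1
  eq m hm := by
    have h1 := Complex.norm_mul_exp_arg_mul_I (p.Z ε m * cexp ((-(p.γ + m * (p.al / 2)) : ℝ) * I))
    have h2 : ‖p.Z ε m * cexp ((-(p.γ + m * (p.al / 2)) : ℝ) * I)‖ = ‖p.Z ε m‖ := by
      rw [norm_mul, Complex.norm_exp_ofReal_mul_I, mul_one]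
    rw [h2] at h1
    have e : cexp ((p.th ε m : ℂ) * I) = cexp (((p.γ + m * (p.al / 2) : ℝ) : ℂ) * I) *
      cexp ((arg (p.Z ε m * cexp ((-(p.γ + m * (p.al / 2)) : ℝ) * I)) : ℂ) * I) := by
      rw [← Complex.exp_add, th]
      congr 1
      push_cast; ring
    rw [e, mul_left_comm, h1, mul_left_comm, ← Complex.exp_add]
    have : ((p.γ + m * (p.al / 2) : ℝ) : ℂ) * I + ((-(p.γ + m * (p.al / 2)) : ℝ) : ℂ) * I = 0 := by
      push_cast; ring
    rw [this, Complex.exp_zero, mul_one]
  lt m hm := by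
    have h1 := (h.g4 m (Finset.mem_range.mpr (by omega))).2
    have h2 := (h.g4 (m+1) (Finset.mem_range.mpr (by omega))).2
    have h3 := (abs_lt.mp h1).2
    have h4 := (abs_lt.mp h2).1
    have := p.al_pos
    have e1 : p.th ε (m+1) = p.γ + m * (p.al / 2) + p.al / 2 + arg (p.Z ε (m+1) *
      cexp ((-(p.γ + ((m+1 : ℕ) : ℝ) * (p.al / 2)) : ℝ) * I)) := by
      rw [th]; push_cast; ring
    rw [e1, th]
    linarith
  lt_pi m hm := by
    have h1 := (h.g4 m (Finset.mem_range.mpr (by omega))).2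
    have h2 := (h.g4 (m+1) (Finset.mem_range.mpr (by omega))).2
    have h3 := (abs_lt.mp h1).1
    have h4 := (abs_lt.mp h2).2
    have := p.al_pos
    have := p.al_le
    have := p.de_le
    have := Real.pi_pos
    have e1 : p.th ε (m+1) = p.γ + m * (p.al / 2) + p.al / 2 + arg (p.Z ε (m+1) *
      cexp ((-(p.γ + ((m+1 : ℕ) : ℝ) * (p.al / 2)) : ℝ) * I)) := by
      rw [th]; push_cast; ring
    rw [e1, th]
    linarith
  wrap := by
    have e1 : p.Z ε (2 * (p.k * p.n)) = p.Z ε 0 := by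
      have := p.V_per ε
      rw [Z_even, this]
      have h0 := p.Z_even ε 0
      simp only [Nat.cast_zero, mul_zero] at h0
      rw [h0]
    have hK := p.K_al
    have e2 : cexp ((-(p.γ + ((2 * (p.k * p.n) : ℕ) : ℝ) * (p.al / 2)) : ℝ) * I) =
      cexp ((-(p.γ + ((0 : ℕ) : ℝ) * (p.al / 2)) : ℝ) * I) := by
      rw [Complex.exp_eq_exp_iff_exists_int]
      refine ⟨-1, ?_⟩
      have : ((-(p.γ + ((2 * (p.k * p.n) : ℕ) : ℝ) * (p.al / 2)) : ℝ) : ℂ) =
        ((-(p.γ + ((0 : ℕ) : ℝ) * (p.al / 2)) - 2 * Real.pi : ℝ) : ℂ) := by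
        congr 1
        push_cast
        linear_combination -hK
      rw [this]
      push_cast; ring
    rw [th, th, e1, e2]
    push_cast
    linear_combination hK

theorem P_line1 {ε : ℝ} {j : ℤ} {z : ℂ} (h : z ∈ p.P ε j) :
    ip z (p.γ + j * p.al + p.de) ≤ p.h1 ε j := by
  have := (p.mem_P ε j z).mp h 0
  rw [show (2 * ((0:ℤ):ℝ) + 1) * p.de = p.de by push_cast; ring] at this
  exact this

theorem P_line2 {ε : ℝ} {j : ℤ} {z : ℂ} (h : z ∈ p.P ε j) :
    ip z (p.γ + j * p.al - p.de) ≤ p.h2 ε j := by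
  have := (p.mem_P ε j z).mp h (-1)
  rw [show p.γ + j * p.al + (2 * ((-1:ℤ):ℝ) + 1) * p.de = p.γ + j * p.al - p.de by
    push_cast; ring] at this
  exact this

theorem h1_pos {ε : ℝ} (h : p.Good ε) (j : ℤ) : 0 < p.h1 ε j := by
  have := p.height_ge ε j (p.γ + j * p.al + p.de)
  have := h.small
  unfold h1; linarith

theorem h2_pos {ε : ℝ} (h : p.Good ε) (j : ℤ) : 0 < p.h2 ε j := by
  have := p.height_ge ε j (p.γ + j * p.al - p.de)
  have := h.small
  unfold h2; linarith

theorem comb_mem {ε : ℝ} (h : p.Good ε) {j : ℤ} {x y : ℂ} (hx : x ∈ p.P ε j) (hy : y ∈ p.P ε j)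
    {a b : ℝ} (ha : 0 < a) (hb : 0 ≤ b) (hab : a + b ≤ 1) : (a : ℂ) * x + (b : ℂ) * y ∈ p.U ε := by
  have h0 : (0:ℂ) ∈ p.P ε j := interior_subset (p.zero_mem_interior h.small j)
  have hs : 0 < a + b := by linarith
  have h4 : (a / (a+b)) • x + (b / (a+b)) • y ∈ p.P ε j := by
    apply (p.convex_P ε j) hx hy (div_nonneg ha.le hs.le) (div_nonneg hb hs.le)
    rw [← add_div, div_self hs.ne']
  have h5 := (p.convex_P ε j) h0 h4 (sub_nonneg.mpr hab) hs.le (by ring)
  rw [smul_zero, zero_add] at h5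
  apply mem_iUnion.mpr ⟨j, _⟩
  convert h5 using 1
  have h6 : ((a : ℂ) + (b : ℂ)) ≠ 0 := by exact_mod_cast hs.ne'
  simp only [Complex.real_smul]
  push_cast
  field_simp

theorem le_one_of {a b h u v : ℝ} (hh : 0 < h) (ha : 0 < a) (hb : 0 ≤ b) (hu : h ≤ u) (hv : h ≤ v)
    (hle : a * u + b * v ≤ h) : a + b ≤ 1 := by
  have h1 : a * h ≤ a * u := mul_le_mul_of_nonneg_left hu ha.le
  have h2 : b * h ≤ b * v := mul_le_mul_of_nonneg_left hv hb
  have h3 : (a + b) * h ≤ 1 * h := by linarith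
  exact le_of_mul_le_mul_right h3 hh

theorem fits {ε : ℝ} (h : p.Good ε) : Fits (2 * (p.k * p.n)) (p.Z ε) (p.U ε) where
  closed := p.closed_U ε
  star := p.star_U h.small
  cone := by
    intro m hm a b ha hb
    have hk : 0 < p.k := by have := p.hk; omega
    obtain ⟨j, hj | hj⟩ : ∃ j, m = 2 * j ∨ m = 2 * j + 1 := ⟨m / 2, by omega⟩
    · subst hj
      have hjr : j ∈ Finset.range (p.k * p.n + 1) := Finset.mem_range.mpr (by omega)
      rw [Z_even, Z_odd]
      constructor
      · intro hz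
        simp only [U, mem_iUnion] at hz
        obtain ⟨j', hj'⟩ := hz
        obtain ⟨c, s, hc, hcs⟩ := red p.k hk (j' - j)
        have e : j' = (j + c : ℤ) + p.k * s := by linarith
        rw [e, P_add] at hj'
        rcases Nat.eq_zero_or_pos c with h0 | h0
        · subst h0
          have := p.P_line1 hj'
          rw [ip_add, ip_smul, ip_smul] at this
          push_cast at this
          simp only [add_zero] at this
          have e1 := p.V_on1 ε j
          have e2 := p.W_on1 ε j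
          push_cast at e1 e2
          rw [e1, e2] at this
          exact le_one_of (p.h1_pos h j) ha hb le_rfl le_rfl this
        · have := p.P_line2 hj'
          rw [ip_add, ip_smul, ip_smul] at this
          push_cast at this
          have hci : c ∈ Finset.Ico 1 p.k := Finset.mem_Ico.mpr ⟨h0, hc⟩
          have g1 := h.g1 j hjr c hci
          have g2 := h.g2 j hjr c hci
          push_cast at g1 g2
          exact le_one_of (p.h2_pos h (j+c)) ha hb g1.le g2 this
      · intro hab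
        exact p.comb_mem h (p.V_mem ε j) (h.g3 j hjr) ha hb hab
    · subst hj
      have hjr : j ∈ Finset.range (p.k * p.n + 1) := Finset.mem_range.mpr (by omega)
      rw [show 2 * j + 1 + 1 = 2 * (j+1) by ring, Z_even, Z_odd]
      push_cast
      constructor
      · intro hz
        simp only [U, mem_iUnion] at hz
        obtain ⟨j', hj'⟩ := hz
        obtain ⟨c, s, hc, hcs⟩ := red p.k hk (j + 1 - j')
        have e : j' = (j + 1 - c : ℤ) + p.k * (-s) := by linarith
        rw [e, P_add] at hj'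
        rcases Nat.eq_zero_or_pos c with h0 | h0
        · subst h0
          have := p.P_line2 hj'
          rw [ip_add, ip_smul, ip_smul] at this
          push_cast at this
          simp only [sub_zero] at this
          have e1 := p.V_on2 ε (j+1)
          have e2 := p.W_on2 ε j
          push_cast at e1 e2
          rw [e1, e2] at this
          exact le_one_of (p.h2_pos h (j+1)) ha hb le_rfl le_rfl this
        · have := p.P_line1 hj'
          rw [ip_add, ip_smul, ip_smul] at this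
          push_cast at this
          have hci : c ∈ Finset.Ico 1 p.k := Finset.mem_Ico.mpr ⟨h0, hc⟩
          have g1 := h.g1' j hjr c hci
          have g2 := h.g2' j hjr c hci
          push_cast at g1 g2
          exact le_one_of (p.h1_pos h (j+1-c)) ha hb g2 g1.le this
      · intro hab
        exact p.comb_mem h (h.g3' j hjr) (p.V_mem ε (j+1)) ha hb hab

end Par

end Pool.Agent.V11167.Sh
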