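import Mathlib
import Pool.Agent.V11167.ShG

open MeasureTheory Complex Set Filter Topology

namespace Pool.Agent.V11167.Sh

namespace Par

variable (p : Par)

noncomputable def pp (j : ℕ) : ℝ := (j - (p.a0 + p.w * j)) * p.al + p.de
noncomputable def qq (j : ℕ) : ℝ := (j + 1 - (p.a0 + p.w * (j + 1))) * p.al - p.de

theorem ipA1 (j : ℕ) : ip (p.A j) (p.γ + (j:ℤ) * p.al + p.de) = circR p.n * Real.cos (p.pp j) := by
  rw [A, ip_pol, ← Real.cos_neg]
  congr 2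
  unfold pp; push_cast; ring

theorem tcA1 (j : ℕ) : tc (p.A j) (p.γ + (j:ℤ) * p.al + p.de) = - circR p.n * Real.sin (p.pp j) := by
  rw [A, tc_pol, neg_mul, ← mul_neg, ← Real.sin_neg]
  congr 2
  unfold pp; push_cast; ring

theorem ipA2 (j : ℕ) : ip (p.A ((j:ℤ)+1)) (p.γ + ((j:ℤ)+1) * p.al - p.de) =
    circR p.n * Real.cos (p.qq j) := by
  rw [A, ip_pol, ← Real.cos_neg]
  congr 2
  unfold qq; push_cast; ring

theorem tcA2 (j : ℕ) : tc (p.A ((j:ℤ)+1)) (p.γ + ((j:ℤ)+1) * p.al - p.de) =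
    - circR p.n * Real.sin (p.qq j) := by
  rw [A, tc_pol, neg_mul, ← mul_neg, ← Real.sin_neg]
  congr 2
  unfold qq; push_cast; ring

theorem h1_eq (ε : ℝ) (j : ℕ) : p.h1 ε j = inr p.n + ε * (circR p.n * Real.cos (p.pp j)) := by
  rw [h1, ipA1]

theorem h2_eq (ε : ℝ) (j : ℕ) : p.h2 ε ((j:ℤ)+1) =
    inr p.n + ε * (circR p.n * Real.cos (p.qq j)) := by
  rw [h2]
  have := p.ipA2 j
  push_cast at this ⊢
  rw [this]

/-- length of the edge from `V j` to `W j` -/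
noncomputable def t1 (ε : ℝ) (j : ℕ) : ℝ :=
  (p.h1 ε j * Real.cos (2 * p.hd) - p.h2 ε ((j:ℤ)+1)) / Real.sin (2 * p.hd) +
    circR p.n * Real.sin p.de + ε * (circR p.n * Real.sin (p.pp j))

/-- length of the edge from `W j` to `V (j+1)` -/
noncomputable def t2 (ε : ℝ) (j : ℕ) : ℝ :=
  circR p.n * Real.sin p.de - ε * (circR p.n * Real.sin (p.qq j)) -
  (p.h1 ε j - p.h2 ε ((j:ℤ)+1) * Real.cos (2 * p.hd)) / Real.sin (2 * p.hd)

theorem t1_eq (ε : ℝ) (j : ℕ) : tc (p.W ε j) (p.γ + (j:ℤ) * p.al + p.de) -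
    tc (p.V ε j) (p.γ + (j:ℤ) * p.al + p.de) = p.t1 ε j := by
  have e := p.x1_sub_x2 j
  rw [W, tc_isect, e, tc_V, tcA1, sub_self, Real.cos_zero, t1]
  have e2 : p.γ + ((j:ℤ) + 1) * p.al - p.de - (p.γ + (j:ℤ) * p.al + p.de) = -(2 * p.hd) := by
    unfold hd; ring
  have e3 : p.γ + (j:ℤ) * p.al - (p.γ + (j:ℤ) * p.al + p.de) = - p.de := by ring
  rw [e2, e3, Real.cos_neg, Real.sin_neg]
  ring

theorem t2_eq (ε : ℝ) (j : ℕ) : tc (p.V ε ((j:ℤ)+1)) (p.γ + ((j:ℤ)+1) * p.al - p.de) -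
    tc (p.W ε j) (p.γ + ((j:ℤ)+1) * p.al - p.de) = p.t2 ε j := by
  have e := p.x1_sub_x2 j
  rw [W, tc_isect, e, tc_V, tcA2, sub_self, Real.cos_zero, t2]
  have e3 : p.γ + (((j:ℤ) + 1 : ℤ) : ℝ) * p.al - (p.γ + ((j:ℤ)+1) * p.al - p.de) = p.de := by
    push_cast; ring
  rw [e3]
  ring

theorem edge1 {ε : ℝ} (h : p.Good ε) {j : ℕ} (hj : j < p.k * p.n) :
    dist (p.Z ε (2*j)) (p.Z ε (2*j+1)) = p.t1 ε j ∧
    (p.Z ε (2*j)).re * (p.Z ε (2*j+1)).im - (p.Z ε (2*j)).im * (p.Z ε (2*j+1)).re =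
      p.h1 ε j * p.t1 ε j := by
  have hd := (p.star_Z h).det_pos (m := 2*j) (by omega)
  have e1 := p.V_on1 ε j
  have e2 := p.W_on1 ε j
  rw [Z_even, Z_odd] at hd ⊢
  have e3 := edge_det e1 e2
  have e4 := edge_dist e1 e2
  rw [t1_eq] at e3 e4
  rw [e3] at hd
  have h1 := p.h1_pos h j
  have h2 : 0 < p.t1 ε j := pos_of_mul_pos_right hd h1.le
  rw [abs_of_pos h2] at e4
  exact ⟨e4, e3⟩

theorem edge2 {ε : ℝ} (h : p.Good ε) {j : ℕ} (hj : j < p.k * p.n) :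
    dist (p.Z ε (2*j+1)) (p.Z ε (2*j+1+1)) = p.t2 ε j ∧
    (p.Z ε (2*j+1)).re * (p.Z ε (2*j+1+1)).im - (p.Z ε (2*j+1)).im * (p.Z ε (2*j+1+1)).re =
      p.h2 ε ((j:ℤ)+1) * p.t2 ε j := by
  have hd := (p.star_Z h).det_pos (m := 2*j+1) (by omega)
  have e1 := p.V_on2 ε ((j:ℤ)+1)
  have e2 := p.W_on2 ε j
  rw [show 2 * j + 1 + 1 = 2 * (j+1) by ring, Z_even, Z_odd] at hd ⊢
  push_cast at hd e1 e2 ⊢
  have e3 := edge_det e2 e1
  have e4 := edge_dist e2 e1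
  have t := p.t2_eq ε j
  push_cast at t
  rw [t] at e3 e4
  rw [e3] at hd
  have h1 := p.h2_pos h ((j:ℤ)+1)
  have h2 : 0 < p.t2 ε j := pos_of_mul_pos_right hd h1.le
  rw [abs_of_pos h2] at e4
  exact ⟨e4, e3⟩

theorem n_not_dvd : ¬ (p.n : ℤ) ∣ 2 * p.z := by
  intro h
  have h1 : (p.n : ℤ) ∣ 2 * p.w := ⟨2 * p.y, by rw [p.hw2]; ring⟩
  have h2 : (p.n : ℤ) ∣ p.k * (2 * p.z) := Dvd.dvd.mul_left h _
  have h3 : (p.n : ℤ) ∣ 2 := by
    have : (2:ℤ) = 2 * p.w - p.k * (2 * p.z) := by rw [p.hw1]; ring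
    rw [this]
    exact dvd_sub h1 h2
  have h4 := Int.le_of_dvd (by norm_num) h3
  have := p.hn
  omega

theorem n_not_dvd' : ¬ (p.n : ℤ) ∣ p.z := fun h => p.n_not_dvd (Dvd.dvd.mul_left h _)

theorem n_not_dvd4 : ¬ (p.n : ℤ) ∣ 2 * p.z := p.n_not_dvd

/-- the step of the angles -/
noncomputable def et : ℝ := (1 - p.w) * p.al

theorem et_eq : p.et = -2 * p.z * p.de := by
  have h1 := p.k_al
  have h2 : (p.w : ℝ) = 1 + p.k * p.z := by exact_mod_cast p.hw1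
  unfold et
  rw [h2]
  linear_combination (-(p.z : ℝ)) * h1

theorem exp_ne {m : ℤ} (hm : ¬ (p.n : ℤ) ∣ m) : cexp (((-2 * m * p.de : ℝ) : ℂ) * I) ≠ 1 := by
  intro h
  rw [Complex.exp_eq_one_iff] at h
  obtain ⟨s, hs⟩ := h
  have h1 : (-2 * m * p.de : ℝ) = s * (2 * Real.pi) := by
    have : ((-2 * m * p.de : ℝ) : ℂ) * I = ((s * (2 * Real.pi) : ℝ) : ℂ) * I := by
      rw [hs]; push_cast; ring
    exact_mod_cast mul_right_cancel₀ Complex.I_ne_zero this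
  have h2 := p.n_de
  have hpi := p.de_pos
  have h3 : (-(m:ℝ)) = s * p.n := by
    rw [← h2] at h1
    have : (2 * p.de) * (-(m:ℝ)) = (2 * p.de) * (s * p.n) := by linarith
    exact mul_left_cancel₀ (by positivity) this
  apply hm
  refine ⟨-s, ?_⟩
  have : (m:ℝ) = ((p.n : ℤ) * (-s) : ℤ) := by push_cast; linarith
  exact_mod_cast this

theorem exp_one1 : cexp (((p.et * (p.k * p.n : ℕ) : ℝ) : ℂ) * I) = 1 := by
  have e : p.et * (p.k * p.n : ℕ) = ((-(p.z * p.k) : ℤ) : ℝ) * (2 * Real.pi) := by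
    rw [et_eq]
    have := p.n_de
    push_cast
    linear_combination (-2 * (p.z:ℝ) * p.k) * this
  rw [e]
  exact exp_int _

theorem exp_one2 : cexp ((((2 * p.et) * (p.k * p.n : ℕ) : ℝ) : ℂ) * I) = 1 := by
  have e : (2 * p.et) * (p.k * p.n : ℕ) = ((-(2 * p.z * p.k) : ℤ) : ℝ) * (2 * Real.pi) := by
    rw [et_eq]
    have := p.n_de
    push_cast
    linear_combination (-4 * (p.z:ℝ) * p.k) * this
  rw [e]
  exact exp_int _

theorem exp_ne1 : cexp ((p.et : ℂ) * I) ≠ 1 := by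
  rw [et_eq]
  exact p.exp_ne p.n_not_dvd'

theorem exp_ne2 : cexp (((2 * p.et : ℝ) : ℂ) * I) ≠ 1 := by
  have := p.exp_ne p.n_not_dvd
  have e : (2 * p.et) = -2 * ((2 * p.z : ℤ) : ℝ) * p.de := by rw [et_eq]; push_cast; ring
  rw [e]
  exact this

theorem pp_eq (j : ℕ) : p.pp j = p.pp 0 + j * p.et := by
  unfold pp et; push_cast; ring

theorem qq_eq (j : ℕ) : p.qq j = p.qq 0 + j * p.et := by
  unfold qq et; push_cast; ring

/-- the decisive angle -/
noncomputable def mu : ℝ := 2 * (p.z + 1) * p.de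

theorem pp_sub_qq (j : ℕ) : p.pp j - p.qq j = p.mu := by
  have h := p.et_eq
  unfold et at h
  unfold pp qq mu
  linear_combination -h

section sums

theorem s1 : ∑ j ∈ Finset.range (p.k * p.n), Real.cos (p.pp j) = 0 := by
  rw [Finset.sum_congr rfl (fun j _ => congrArg Real.cos (p.pp_eq j))]
  exact sum_cos_zero _ p.exp_ne1 p.exp_one1

theorem s2 : ∑ j ∈ Finset.range (p.k * p.n), Real.cos (p.qq j) = 0 := by
  rw [Finset.sum_congr rfl (fun j _ => congrArg Real.cos (p.qq_eq j))]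
  exact sum_cos_zero _ p.exp_ne1 p.exp_one1

theorem s3 : ∑ j ∈ Finset.range (p.k * p.n), Real.cos (2 * p.pp j) = 0 := by
  have e : ∀ j : ℕ, 2 * p.pp j = 2 * p.pp 0 + j * (2 * p.et) := by
    intro j; rw [pp_eq]; ring
  rw [Finset.sum_congr rfl (fun j _ => congrArg Real.cos (e j))]
  exact sum_cos_zero _ p.exp_ne2 p.exp_one2

theorem s4 : ∑ j ∈ Finset.range (p.k * p.n), Real.cos (2 * p.qq j) = 0 := by
  have e : ∀ j : ℕ, 2 * p.qq j = 2 * p.qq 0 + j * (2 * p.et) := by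
    intro j; rw [qq_eq]; ring
  rw [Finset.sum_congr rfl (fun j _ => congrArg Real.cos (e j))]
  exact sum_cos_zero _ p.exp_ne2 p.exp_one2

theorem s5 : ∑ j ∈ Finset.range (p.k * p.n), Real.sin (2 * p.pp j) = 0 := by
  have e : ∀ j : ℕ, 2 * p.pp j = 2 * p.pp 0 + j * (2 * p.et) := by
    intro j; rw [pp_eq]; ring
  rw [Finset.sum_congr rfl (fun j _ => congrArg Real.sin (e j))]
  exact sum_sin_zero _ p.exp_ne2 p.exp_one2

theorem s6 : ∑ j ∈ Finset.range (p.k * p.n), Real.sin (2 * p.qq j) = 0 := by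
  have e : ∀ j : ℕ, 2 * p.qq j = 2 * p.qq 0 + j * (2 * p.et) := by
    intro j; rw [qq_eq]; ring
  rw [Finset.sum_congr rfl (fun j _ => congrArg Real.sin (e j))]
  exact sum_sin_zero _ p.exp_ne2 p.exp_one2

theorem s7 : ∑ j ∈ Finset.range (p.k * p.n), Real.cos (p.pp j + p.qq j) = 0 := by
  have e : ∀ j : ℕ, p.pp j + p.qq j = (p.pp 0 + p.qq 0) + j * (2 * p.et) := by
    intro j; rw [pp_eq, qq_eq]; ring
  rw [Finset.sum_congr rfl (fun j _ => congrArg Real.cos (e j))]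
  exact sum_cos_zero _ p.exp_ne2 p.exp_one2

end sums

/-- the basic identity -/
theorem formula {ε : ℝ} (h : p.Good ε) :
    perim (p.U ε) - 2 / inr p.n * area (p.U ε) =
      - (ε ^ 2 * circR p.n ^ 2 * (p.k * p.n) / (inr p.n * Real.sin (2 * p.hd))) *
        (Real.cos (2 * p.hd) - Real.cos p.mu) := by
  have hN : 0 < 2 * (p.k * p.n) := by
    have h1 : 0 < p.k := by have := p.hk; omega
    have h2 : 0 < p.n := by have := p.hn; omega
    positivity
  have hS := p.star_Z h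
  have hF := p.fits h
  have hP : perim (p.U ε) = ∑ j ∈ Finset.range (p.k * p.n), (p.t1 ε j + p.t2 ε j) := by
    unfold perim
    rw [hS.perim hN hF, ENNReal.toReal_ofReal (Finset.sum_nonneg (fun _ _ => dist_nonneg)), sum_two]
    apply Finset.sum_congr rfl
    intro j hj
    rw [Finset.mem_range] at hj
    rw [(p.edge1 h hj).1, (p.edge2 h hj).1]
  have hA : area (p.U ε) = ∑ j ∈ Finset.range (p.k * p.n),
      (p.h1 ε j * p.t1 ε j / 2 + p.h2 ε ((j:ℤ)+1) * p.t2 ε j / 2) := by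
    unfold area
    rw [hS.area hF, ENNReal.toReal_ofReal, sum_two]
    · apply Finset.sum_congr rfl
      intro j hj
      rw [Finset.mem_range] at hj
      rw [(p.edge1 h hj).2, (p.edge2 h hj).2]
    · apply Finset.sum_nonneg
      intro m hm
      have := hS.det_pos (Finset.mem_range.mp hm)
      linarith
  rw [hP, hA, Finset.mul_sum, ← Finset.sum_sub_distrib]
  have hρ := (inr_pos p.hn).ne'
  have hs := p.sin_2hd_pos.ne'
  set ρ := inr p.n with hρd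
  set R := circR p.n with hRd
  set c := Real.cos (2 * p.hd) with hc
  set s := Real.sin (2 * p.hd) with hsd
  set D := Real.sin p.de with hD
  have key : ∀ j : ℕ, (p.t1 ε j + p.t2 ε j) - 2 / ρ * (p.h1 ε j * p.t1 ε j / 2 +
      p.h2 ε ((j:ℤ)+1) * p.t2 ε j / 2) =
      (-(ε * R / ρ) * (ρ * (c - 1) / s + R * D)) * (Real.cos (p.pp j) + Real.cos (p.qq j)) +
      (-(ε^2 * R^2 / ρ)) * (c / s * (1 + Real.cos (2 * p.pp j) / 2 + Real.cos (2 * p.qq j) / 2)
        - (1 / s) * (Real.cos p.mu + Real.cos (p.pp j + p.qq j))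
        + Real.sin (2 * p.pp j) / 2 - Real.sin (2 * p.qq j) / 2) := by
    intro j
    have hmu : Real.cos p.mu = Real.cos (p.pp j) * Real.cos (p.qq j) +
        Real.sin (p.pp j) * Real.sin (p.qq j) := by
      rw [← p.pp_sub_qq j, Real.cos_sub]
    rw [t1, t2, h1_eq, h2_eq, hmu, ← hρd, ← hRd, ← hc, ← hsd, ← hD, Real.cos_add,
      Real.sin_two_mul (p.pp j), Real.sin_two_mul (p.qq j),
      Real.cos_two_mul (p.pp j), Real.cos_two_mul (p.qq j)]
    field_simp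
    ring
  rw [Finset.sum_congr rfl (fun j _ => key j), Finset.sum_add_distrib, ← Finset.mul_sum,
    ← Finset.mul_sum, Finset.sum_add_distrib, s1, s2]
  have key2 : ∑ j ∈ Finset.range (p.k * p.n),
      (c / s * (1 + Real.cos (2 * p.pp j) / 2 + Real.cos (2 * p.qq j) / 2)
        - (1 / s) * (Real.cos p.mu + Real.cos (p.pp j + p.qq j))
        + Real.sin (2 * p.pp j) / 2 - Real.sin (2 * p.qq j) / 2) =
      (p.k * p.n : ℕ) * ((c - Real.cos p.mu) / s) := by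
    rw [Finset.sum_sub_distrib, Finset.sum_add_distrib, Finset.sum_sub_distrib, ← Finset.mul_sum,
      ← Finset.mul_sum, Finset.sum_add_distrib, Finset.sum_add_distrib, Finset.sum_add_distrib,
      ← Finset.sum_div, ← Finset.sum_div, ← Finset.sum_div, ← Finset.sum_div,
      s3, s4, s5, s6, s7]
    simp only [Finset.sum_const, Finset.card_range, nsmul_eq_mul]
    ring
  rw [key2]
  push_cast
  field_simp
  ring

end Par

end Pool.Agent.V11167.Sh
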