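import Mathlib
import Pool.Agent.V11167.ShH

open MeasureTheory Complex Set Filter Topology

namespace Pool.Agent.V11167.Sh

theorem two_div_inr {n : ℕ} (hn : 3 ≤ n) : 2 / inr n = 4 * Real.tan (Real.pi / n) := by
  have h1 := (sin_pi_div_pos hn).ne'
  have h2 := (cos_pi_div_pos hn).ne'
  rw [inr, circR, Real.tan_eq_sin_div_cos]
  field_simp
  norm_num

namespace Par

variable (p : Par)

theorem area_pos {ε : ℝ} (h : p.Good ε) : 0 < area (p.U ε) := by
  have hS := p.star_Z h
  have hF := p.fits h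
  have hN : 0 < 2 * (p.k * p.n) := by
    have h1 : 0 < p.k := by have := p.hk; omega
    have h2 : 0 < p.n := by have := p.hn; omega
    positivity
  have hpos : 0 < ∑ m ∈ Finset.range (2 * (p.k * p.n)),
      ((p.Z ε m).re * (p.Z ε (m+1)).im - (p.Z ε m).im * (p.Z ε (m+1)).re) / 2 := by
    apply Finset.sum_pos
    · intro m hm
      have := hS.det_pos (Finset.mem_range.mp hm)
      linarith
    · exact ⟨0, Finset.mem_range.mpr hN⟩
  unfold area
  rw [hS.area hF, ENNReal.toReal_ofReal hpos.le]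
  exact hpos

theorem cos_2hd_lt_one : Real.cos (2 * p.hd) < 1 := by
  have := p.hd_pos
  have := p.hd_lt
  have := p.de_le
  have := Real.pi_pos
  rw [← Real.cos_zero]
  exact Real.cos_lt_cos_of_nonneg_of_le_pi le_rfl (by linarith) (by linarith)

theorem cos_mu_eq_one (h : (p.n : ℤ) ∣ p.z + 1) : Real.cos p.mu = 1 := by
  obtain ⟨s, hs⟩ := h
  have h2 := p.n_de
  have h3 : (p.z : ℝ) + 1 = p.n * s := by exact_mod_cast hs
  have : p.mu = 0 + s * (2 * Real.pi) := by
    unfold mu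
    rw [h3, ← h2]; ring
  rw [this, Real.cos_add_int_mul_two_pi, Real.cos_zero]

theorem cos_mu_lt (h : ¬ (p.n : ℤ) ∣ p.z + 1) : Real.cos p.mu < Real.cos (2 * p.hd) := by
  have hn : 0 < p.n := by have := p.hn; omega
  obtain ⟨s, m, hs, hsm⟩ := red p.n hn (p.z + 1)
  have hs0 : s ≠ 0 := by
    rintro rfl
    apply h
    rw [hsm]; simp
  have h2 := p.n_de
  have h3 : (p.z : ℝ) + 1 = s + p.n * m := by exact_mod_cast hsm
  have e : p.mu = 2 * s * p.de + m * (2 * Real.pi) := by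
    unfold mu
    rw [h3, ← h2]; ring
  rw [e, Real.cos_add_int_mul_two_pi]
  have hs1 : (1:ℝ) ≤ s := by exact_mod_cast Nat.one_le_iff_ne_zero.mpr hs0
  have hs2 : (s:ℝ) + 1 ≤ p.n := by exact_mod_cast hs
  have := p.hd_pos
  have := p.hd_lt
  have := p.de_pos
  have := Real.pi_pos
  apply cos_lt_of
  · linarith
  · nlinarith
  · nlinarith

theorem dvd_iff : (p.n : ℤ) ∣ p.z + 1 ↔ (p.n : ℤ) ∣ p.k - 1 := by
  have h1 := p.hw1
  have h2 := p.hw2
  constructor
  · rintro ⟨s, hs⟩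
    refine ⟨p.k * s - p.y, ?_⟩
    linear_combination p.k * hs + h1 - h2
  · rintro ⟨s, hs⟩
    refine ⟨p.y - s * p.z, ?_⟩
    linear_combination -h1 + h2 - p.z * hs

theorem ratio_gt {ε : ℝ} (h : p.Good ε) (hε : 0 < ε) (hd : (p.n : ℤ) ∣ p.k - 1) :
    4 * Real.tan (Real.pi / p.n) < ratio (p.U ε) := by
  have hf := p.formula h
  have ha := p.area_pos h
  rw [ratio, lt_div_iff₀ ha, ← two_div_inr p.hn]
  rw [p.cos_mu_eq_one (p.dvd_iff.mpr hd)] at hf
  have h1 := p.cos_2hd_lt_one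
  have h2 : 0 < ε ^ 2 * circR p.n ^ 2 * (p.k * p.n) / (inr p.n * Real.sin (2 * p.hd)) := by
    have := circR_pos p.hn
    have := inr_pos p.hn
    have := p.sin_2hd_pos
    have := p.k_pos
    have := p.n_pos
    positivity
  nlinarith

theorem ratio_lt {ε : ℝ} (h : p.Good ε) (hε : 0 < ε) (hd : ¬ (p.n : ℤ) ∣ p.k - 1) :
    ratio (p.U ε) < 4 * Real.tan (Real.pi / p.n) := by
  have hf := p.formula h
  have ha := p.area_pos h
  rw [ratio, div_lt_iff₀ ha, ← two_div_inr p.hn]
  have h1 := p.cos_mu_lt (fun h => hd (p.dvd_iff.mp h))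
  have h2 : 0 < ε ^ 2 * circR p.n ^ 2 * (p.k * p.n) / (inr p.n * Real.sin (2 * p.hd)) := by
    have := circR_pos p.hn
    have := inr_pos p.hn
    have := p.sin_2hd_pos
    have := p.k_pos
    have := p.n_pos
    positivity
  nlinarith

end Par

theorem pol_inj {R x y : ℝ} (hR : 0 < R) (h : pol R x = pol R y) :
    ∃ m : ℤ, x = y + m * (2 * Real.pi) := by
  unfold pol at h
  have hR' : (R : ℂ) ≠ 0 := by exact_mod_cast hR.ne'
  have h1 := mul_left_cancel₀ hR' h
  rw [Complex.exp_eq_exp_iff_exists_int] at h1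
  obtain ⟨m, hm⟩ := h1
  refine ⟨m, ?_⟩
  have : (x : ℂ) * I = ((y + m * (2 * Real.pi) : ℝ) : ℂ) * I := by
    rw [hm]; push_cast; ring
  exact_mod_cast mul_right_cancel₀ Complex.I_ne_zero this

theorem regVerts_per (m : ℕ) (r θ : ℝ) (s : ℤ) :
    regVerts m r (θ + s * (2 * Real.pi)) = regVerts m r θ := by
  unfold regVerts
  ext z
  have e : ∀ t : ℕ, (r : ℂ) * cexp (((θ + s * (2 * Real.pi) + 2 * Real.pi * t / m : ℝ) : ℂ) * I) =
    (r : ℂ) * cexp (((θ + 2 * Real.pi * t / m : ℝ) : ℂ) * I) := by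
    intro t
    have := pol_add_int r (θ + 2 * Real.pi * t / m) s
    unfold pol at this
    rw [← this]
    congr 3
    push_cast; ring
  simp only [e]

theorem ngon_per (n : ℕ) (θ : ℝ) (s : ℤ) : ngon n (θ + s * (2 * Real.pi)) = ngon n θ := by
  unfold ngon
  rw [regVerts_per]

/-- every shifted setup with `k ≥ 2` is of the standard form -/
theorem exists_par {k n : ℕ} (hk : 2 ≤ k) (hn : 3 ≤ n) (hc : Nat.Coprime k n)
    {θ : Fin k → ℝ} {A : Fin k → ℂ} (hB : IsBasic k n θ) (hM : IsMarking k n θ A) :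
    ∃ p : Par, p.k = k ∧ p.n = n ∧ ∀ ε, shifted k n θ A ε = p.U ε := by
  obtain ⟨γ, hγ⟩ := hB
  obtain ⟨hA, β, hβ⟩ := hM
  have hR := circR_pos hn
  have hk0 : 0 < k := by omega
  have hn0 : 0 < n := by omega
  have hkn0 : 0 < k * n := Nat.mul_pos hk0 hn0
  have hkR : (k : ℝ) ≠ 0 := by exact_mod_cast hk0.ne'
  have hnR : (n : ℝ) ≠ 0 := by exact_mod_cast hn0.ne'
  set al : ℝ := 2 * Real.pi / (k * n) with hal
  have hal0 : al ≠ 0 := by
    rw [hal]
    exact div_ne_zero (by have := Real.pi_pos; positivity) (mul_ne_zero hkR hnR)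
  have kal : k * al = 2 * (Real.pi / n) := by rw [hal]; field_simp
  have nal : n * al = 2 * (Real.pi / k) := by rw [hal]; field_simp
  have knal : (k * n : ℝ) * al = 2 * Real.pi := by rw [hal]; field_simp
  -- cancel
  have cancel : ∀ a b : ℤ, ∀ m : ℤ, (a : ℝ) * al = b * al + m * (2 * Real.pi) →
      a = b + k * n * m := by
    intro a b m h
    rw [← knal] at h
    have h2 : ((a : ℝ) - b - k * n * m) * al = 0 := by linear_combination h
    have h3 : (a : ℝ) - b - k * n * m = 0 := by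
      rcases mul_eq_zero.mp h2 with h | h
      · exact h
      · exact absurd h hal0
    have h4 : (a : ℝ) = ((b + k * n * m : ℤ) : ℝ) := by push_cast; linarith
    exact_mod_cast h4
  -- (a)
  have ha : ∀ i : Fin k, ∃ c : ℤ, ∃ m : ℤ, θ i = γ + c * al + m * (2 * Real.pi) := by
    intro i
    have h1 : pol (circR n) (θ i) ∈ regVerts (k * n) (circR n) γ := by
      rw [← hγ]
      apply mem_iUnion.mpr ⟨i, _⟩
      rw [regVerts_eq hn0]
      exact ⟨0, by simp⟩
    rw [regVerts_eq hkn0] at h1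
    obtain ⟨t, ht⟩ := h1
    obtain ⟨m, hm⟩ := pol_inj hR ht
    refine ⟨t, m, ?_⟩
    rw [hm, hal]
    push_cast
    field_simp
  choose c mc hcm using ha
  -- (b)
  have hb : ∀ j : ℤ, ∃ i : Fin k, ∃ s : ℤ, j = c i + k * s := by
    intro j
    have h1 : pol (circR n) (γ + j * al) ∈ ⋃ i, regVerts n (circR n) (θ i) := by
      rw [hγ, regVerts_eq hkn0]
      refine ⟨j, ?_⟩
      congr 1
      rw [hal]
      push_cast
      field_simp
    obtain ⟨i, hi⟩ := mem_iUnion.mp h1
    rw [regVerts_eq hn0] at hi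
    obtain ⟨t, ht⟩ := hi
    obtain ⟨m, hm⟩ := pol_inj hR ht
    refine ⟨i, t + n * (mc i + m), ?_⟩
    rw [hcm i] at hm
    have h2 : (j : ℝ) * al = ((c i + k * t : ℤ) : ℝ) * al + ((mc i + m : ℤ) : ℝ) * (2 * Real.pi) := by
      push_cast
      linear_combination hm - (t : ℝ) * kal
    have h3 := cancel _ _ _ h2
    rw [h3]; ring
  -- (c)
  have hcA : ∀ i : Fin k, ∃ e s : ℤ, A i = pol (circR n) (γ + e * al) ∧ e = c i + k * s := by
    intro i
    have h1 := hA i
    rw [regVerts_eq hn0] at h1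
    obtain ⟨t, ht⟩ := h1
    refine ⟨c i + k * t, t, ?_, rfl⟩
    rw [ht, hcm i]
    have : γ + c i * al + mc i * (2 * Real.pi) + 2 * t * (Real.pi / n) =
      γ + ((c i + k * t : ℤ) : ℝ) * al + mc i * (2 * Real.pi) := by
      push_cast
      linear_combination (-(t : ℝ)) * kal
    rw [this, pol_add_int]
  choose e se hAe hes using hcA
  have hen : ∀ i i' : Fin k, ∃ u : ℤ, e i = e i' + n * u := by
    intro i i'
    have h1 : A i ∈ regVerts k (circR n) β := by rw [← hβ]; exact mem_range_self i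
    have h2 : A i' ∈ regVerts k (circR n) β := by rw [← hβ]; exact mem_range_self i'
    rw [regVerts_eq hk0] at h1 h2
    obtain ⟨t, ht⟩ := h1
    obtain ⟨t', ht'⟩ := h2
    rw [hAe] at ht ht'
    obtain ⟨m, hm⟩ := pol_inj hR ht
    obtain ⟨m', hm'⟩ := pol_inj hR ht'
    refine ⟨t - t' + k * (m - m'), ?_⟩
    have h3 : (e i : ℝ) * al = ((e i' + n * (t - t') : ℤ) : ℝ) * al +
        ((m - m' : ℤ) : ℝ) * (2 * Real.pi) := by
      push_cast
      linear_combination hm - hm' - ((t : ℝ) - t') * nal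
    have h4 := cancel _ _ _ h3
    rw [h4]; ring
  -- (d)
  obtain ⟨u, v, huv⟩ : ∃ u v : ℤ, u * k + v * n = 1 := by
    have : IsCoprime (k : ℤ) (n : ℤ) := Nat.isCoprime_iff_coprime.mpr hc
    obtain ⟨u, v, h⟩ := this
    exact ⟨u, v, h⟩
  let i0 : Fin k := ⟨0, hk0⟩
  let p : Par :=
    { k := k, n := n, hk := hk, hn := hn, γ := γ, a0 := e i0 * (1 - n * v), w := n * v, z := -u,
      y := v, hw1 := by linarith, hw2 := rfl }
  refine ⟨p, rfl, rfl, ?_⟩
  have hpal : p.al = al := rfl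
  have hAp : ∀ i : Fin k, A i = p.A (c i) := by
    intro i
    rw [hAe i]
    -- e i ≡ a0 + w c_i mod kn
    obtain ⟨u1, hu1⟩ := hen i i0
    have h1 : e i = e i0 * (1 - n * v) + n * v * c i + k * n * (v * se i + u * u1) := by
      have h2 := hes i
      -- e i = e i0 + n u1, e i = c i + k se
      -- e i (1 - n v) = (e i0 + n u1) (u k);  e i (n v) = (c i + k se) n v
      have h3 : e i = e i * (u * k + v * n) := by rw [huv, mul_one]
      have h4 : (1 - n * v : ℤ) = u * k := by linarith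
      rw [h4]
      calc e i = e i * (u * k) + e i * (v * n) := by linarith
        _ = (e i0 + n * u1) * (u * k) + (c i + k * se i) * (v * n) := by
            rw [← hu1, ← h2]
        _ = _ := by ring
    unfold Par.A
    have h5 : γ + (e i : ℝ) * al = p.γ + (p.a0 + p.w * (c i)) * p.al +
        ((v * se i + u * u1 : ℤ) : ℝ) * (2 * Real.pi) := by
      change γ + (e i : ℝ) * al = γ + (((e i0 * (1 - n * v) : ℤ) : ℝ) + ((n * v : ℤ) : ℝ) *
        (c i)) * al + ((v * se i + u * u1 : ℤ) : ℝ) * (2 * Real.pi)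
      have h6 : (e i : ℝ) = ((e i0 * (1 - n * v) + n * v * c i + k * n * (v * se i + u * u1) : ℤ) : ℝ) := by
        exact_mod_cast h1
      rw [h6, ← knal]
      push_cast
      ring
    rw [h5, pol_add_int]
  intro ε
  ext x
  simp only [shifted, Par.U, mem_iUnion]
  have hPi : ∀ i : Fin k, (fun z => z + (ε : ℂ) * A i) '' ngon n (θ i) = p.P ε (c i) := by
    intro i
    rw [hcm i, ngon_per, hAp i]
    rfl
  constructor
  · rintro ⟨i, hi⟩
    rw [hPi i] at hi
    exact ⟨c i, hi⟩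
  · rintro ⟨j, hj⟩
    obtain ⟨i, s, hs⟩ := hb j
    refine ⟨i, ?_⟩
    rw [hPi i]
    have : p.P ε j = p.P ε (c i) := by
      rw [hs]
      exact p.P_add ε (c i) s
    rwa [this] at hj

end Pool.Agent.V11167.Sh
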