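import Mathlib
import Pool.Agent.V11167.ShI

open MeasureTheory Complex Set Filter Topology

namespace Pool.Agent.V11167.Sh

theorem perim_trans (S : Set ℂ) (v : ℂ) : perim ((fun z => z + v) '' S) = perim S := by
  unfold perim
  have h1 : frontier ((fun z => z + v) '' S) = (fun z => z + v) '' frontier S :=
    ((Homeomorph.addRight v).image_frontier S).symm
  rw [h1]
  have h2 := (IsometryEquiv.addRight v).hausdorffMeasure_image 1 (frontier S)
  congr 1

theorem area_trans (S : Set ℂ) (v : ℂ) : area ((fun z => z + v) '' S) = area S := by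
  unfold area
  have h1 : (fun z => z + v) '' S = (fun z => z + (-v)) ⁻¹' S := by
    ext z
    constructor
    · rintro ⟨x, hx, rfl⟩
      simpa using hx
    · intro hz
      exact ⟨z + (-v), hz, by simp⟩
  rw [h1, measure_preimage_add_right]

theorem closed_ngon (n : ℕ) (θ : ℝ) : IsClosed (ngon n θ) := by
  have : regVerts n (circR n) θ = (fun t : ℕ => ((circR n : ℝ) : ℂ) *
    cexp (((θ + 2 * Real.pi * t / n : ℝ) : ℂ) * I)) '' (Set.Iio n) := by
    ext z
    constructor
    · rintro ⟨t, ht, rfl⟩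
      exact ⟨t, ht, rfl⟩
    · rintro ⟨t, ht, rfl⟩
      exact ⟨t, ht, rfl⟩
  have hf : (regVerts n (circR n) θ).Finite := by
    rw [this]
    exact (Set.finite_Iio _).image _
  exact (hf.isCompact_convexHull ℝ).isClosed

theorem fits_ngon {n : ℕ} (hn : 3 ≤ n) (θ : ℝ) :
    Fits n (fun m => pol (circR n) (θ + 2 * m * (Real.pi / n))) (ngon n θ) where
  closed := closed_ngon n θ
  star := by
    intro x hx t ht0 ht1
    have h0 : (0:ℂ) ∈ interior (ngon n θ) := by
      rw [mem_interior_iff_mem_nhds]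
      apply Filter.mem_of_superset (Metric.ball_mem_nhds (0:ℂ) (inr_pos hn))
      intro z hz
      rw [mem_ngon hn]
      intro t
      have h1 := ip_le_norm z (θ + (2 * t + 1) * (Real.pi / n))
      rw [mem_ball_zero_iff] at hz
      linarith
    have hconv : Convex ℝ (ngon n θ) := convex_convexHull ℝ _
    have := hconv.combo_interior_self_mem_interior h0 hx (sub_pos.mpr ht1) ht0 (by ring)
    simpa using this
  cone := by
    intro m hm a b ha hb
    have e1 : θ + 2 * (m:ℝ) * (Real.pi / n) - (θ + (2 * ((m : ℤ) : ℝ) + 1) * (Real.pi / n))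
        = -(Real.pi / n) := by push_cast; ring
    have e2 : θ + 2 * ((m + 1 : ℕ):ℝ) * (Real.pi / n) -
        (θ + (2 * ((m : ℤ) : ℝ) + 1) * (Real.pi / n)) = (Real.pi / n) := by push_cast; ring
    constructor
    · intro hz
      have h1 := (mem_ngon hn θ _).mp hz m
      rw [ip_add, ip_smul, ip_smul, ip_pol, ip_pol, e1, e2, Real.cos_neg] at h1
      have h2 : (a + b) * inr n ≤ 1 * inr n := by
        unfold inr at h1 ⊢; linarith
      exact le_of_mul_le_mul_right h2 (inr_pos hn)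
    · intro h3
      have hv : ∀ t : ℕ, pol (circR n) (θ + 2 * t * (Real.pi / n)) ∈ ngon n θ := by
        intro t
        apply subset_convexHull
        rw [regVerts_eq (by omega)]
        exact ⟨t, by push_cast; rfl⟩
      have hconv : Convex ℝ (ngon n θ) := convex_convexHull ℝ _
      have hs : 0 < a + b := by linarith
      have h4 : (a / (a+b)) • pol (circR n) (θ + 2 * m * (Real.pi / n)) +
          (b / (a+b)) • pol (circR n) (θ + 2 * (m+1 : ℕ) * (Real.pi / n)) ∈ ngon n θ := by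
        apply hconv (hv m) (hv (m+1)) (div_nonneg ha.le hs.le) (div_nonneg hb hs.le)
        rw [← add_div, div_self hs.ne']
      have h5 := hconv (zero_mem_ngon hn θ) h4 (sub_nonneg.mpr h3) hs.le (by ring)
      rw [smul_zero, zero_add] at h5
      convert h5 using 1
      have h6 : ((a : ℂ) + (b : ℂ)) ≠ 0 := by exact_mod_cast hs.ne'
      simp only [Complex.real_smul]
      push_cast
      field_simp

theorem ngon_edge {n : ℕ} (hn : 3 ≤ n) (θ : ℝ) (m : ℕ) :
    dist (pol (circR n) (θ + 2 * m * (Real.pi / n)))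
      (pol (circR n) (θ + 2 * (m+1 : ℕ) * (Real.pi / n))) = 1 ∧
    (pol (circR n) (θ + 2 * m * (Real.pi / n))).re *
      (pol (circR n) (θ + 2 * (m+1 : ℕ) * (Real.pi / n))).im -
    (pol (circR n) (θ + 2 * m * (Real.pi / n))).im *
      (pol (circR n) (θ + 2 * (m+1 : ℕ) * (Real.pi / n))).re = inr n := by
  set φ : ℝ := θ + (2 * (m : ℝ) + 1) * (Real.pi / n) with hφ
  have e1 : θ + 2 * (m:ℝ) * (Real.pi / n) - φ = -(Real.pi / n) := by rw [hφ]; ring
  have e2 : θ + 2 * ((m + 1 : ℕ):ℝ) * (Real.pi / n) - φ = (Real.pi / n) := by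
    rw [hφ]; push_cast; ring
  have h1 : ip (pol (circR n) (θ + 2 * m * (Real.pi / n))) φ = inr n := by
    rw [ip_pol, e1, Real.cos_neg]; rfl
  have h2 : ip (pol (circR n) (θ + 2 * (m+1 : ℕ) * (Real.pi / n))) φ = inr n := by
    rw [ip_pol, e2]; rfl
  have t1 : tc (pol (circR n) (θ + 2 * m * (Real.pi / n))) φ = -(1/2) := by
    rw [tc_pol, e1, Real.sin_neg, mul_neg, circR_sin hn]
  have t2 : tc (pol (circR n) (θ + 2 * (m+1 : ℕ) * (Real.pi / n))) φ = 1/2 := by
    rw [tc_pol, e2, circR_sin hn]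
  constructor
  · rw [edge_dist h1 h2, t1, t2]; norm_num
  · rw [edge_det h1 h2, t1, t2]; ring

theorem perim_ngon {n : ℕ} (hn : 3 ≤ n) (θ : ℝ) : perim (ngon n θ) = n := by
  unfold perim
  rw [(star_ngon hn (circR_pos hn) θ).perim (by omega) (fits_ngon hn θ),
    ENNReal.toReal_ofReal (Finset.sum_nonneg (fun _ _ => dist_nonneg)),
    Finset.sum_congr rfl (fun m _ => (ngon_edge hn θ m).1)]
  simp

theorem area_ngon {n : ℕ} (hn : 3 ≤ n) (θ : ℝ) : area (ngon n θ) = n * (inr n / 2) := by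
  unfold area
  have h := (star_ngon hn (circR_pos hn) θ).area (fits_ngon hn θ)
  rw [h, ENNReal.toReal_ofReal]
  · rw [Finset.sum_congr rfl (fun m _ => congrArg (· / 2) (ngon_edge hn θ m).2)]
    simp
  · apply Finset.sum_nonneg
    intro m _
    rw [(ngon_edge hn θ m).2]
    have := inr_pos hn
    positivity

theorem ratio_ngon {n : ℕ} (hn : 3 ≤ n) (θ : ℝ) (v : ℂ) :
    ratio ((fun z => z + v) '' ngon n θ) = 4 * Real.tan (Real.pi / n) := by
  rw [ratio, perim_trans, area_trans, perim_ngon hn, area_ngon hn, ← two_div_inr hn]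
  have h1 : (n:ℝ) ≠ 0 := by exact_mod_cast (by omega : n ≠ 0)
  have h2 := (inr_pos hn).ne'
  field_simp

theorem ratio_one {n : ℕ} (hn : 3 ≤ n) (θ : Fin 1 → ℝ) (A : Fin 1 → ℂ) (ε : ℝ) :
    ratio (shifted 1 n θ A ε) = 4 * Real.tan (Real.pi / n) := by
  have : shifted 1 n θ A ε = (fun z => z + (ε : ℂ) * A 0) '' ngon n (θ 0) := by
    unfold shifted
    exact iUnion_eq_const (fun i => by rw [Subsingleton.elim i 0]) |>.trans rfl
  rw [this]
  exact ratio_ngon hn _ _

/-- existence of setups with marking -/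
theorem exists_setup {k n : ℕ} (hk : 1 ≤ k) (hn : 3 ≤ n) (hc : Nat.Coprime k n) :
    ∃ (θ : Fin k → ℝ) (A : Fin k → ℂ), IsBasic k n θ ∧ IsMarking k n θ A := by
  have hn0 : 0 < n := by omega
  have hkn0 : 0 < k * n := Nat.mul_pos hk hn0
  have hkR : (k : ℝ) ≠ 0 := by exact_mod_cast (by omega : k ≠ 0)
  have hnR : (n : ℝ) ≠ 0 := by exact_mod_cast hn0.ne'
  obtain ⟨u, v, huv⟩ : ∃ u v : ℤ, u * k + v * n = 1 := by
    have : IsCoprime (k : ℤ) (n : ℤ) := Nat.isCoprime_iff_coprime.mpr hc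
    obtain ⟨u, v, h⟩ := this
    exact ⟨u, v, h⟩
  refine ⟨fun i => 2 * (i : ℕ) * (Real.pi / ((k * n : ℕ) : ℝ)),
    fun i => pol (circR n) (2 * ((v * n * (i : ℕ) : ℤ) : ℝ) * (Real.pi / ((k * n : ℕ) : ℝ))), ?_, ?_, ?_⟩
  · refine ⟨0, ?_⟩
    ext z
    rw [regVerts_eq hkn0]
    simp only [mem_iUnion]
    constructor
    · rintro ⟨i, hi⟩
      rw [regVerts_eq hn0] at hi
      obtain ⟨t, rfl⟩ := hi
      refine ⟨(i : ℕ) + k * t, ?_⟩
      congr 1
      push_cast
      field_simp
      ring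
    · rintro ⟨t, rfl⟩
      obtain ⟨s, m, hs, rfl⟩ := red k hk t
      refine ⟨⟨s, hs⟩, ?_⟩
      rw [regVerts_eq hn0]
      refine ⟨m, ?_⟩
      congr 1
      push_cast
      field_simp
      ring
  · intro i
    rw [regVerts_eq hn0]
    refine ⟨-u * (i : ℕ), ?_⟩
    apply congrArg (pol (circR n))
    have h2 : (u : ℝ) * k + v * n = 1 := by exact_mod_cast huv
    push_cast
    field_simp
    linear_combination ((i : ℕ) : ℝ) * h2
  · refine ⟨0, ?_⟩
    rw [regVerts_eq hk]
    ext z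
    constructor
    · rintro ⟨i, rfl⟩
      refine ⟨v * (i : ℕ), ?_⟩
      simp only
      congr 1
      push_cast
      field_simp
      ring
    · rintro ⟨t, rfl⟩
      obtain ⟨s, m, hs, hsm⟩ := red k hk (n * t)
      refine ⟨⟨s, hs⟩, ?_⟩
      simp only
      have e : 2 * ((v * n * (s : ℕ) : ℤ) : ℝ) * (Real.pi / ((k * n : ℕ) : ℝ)) =
        0 + 2 * t * (Real.pi / k) + ((- u * t - v * m : ℤ) : ℝ) * (2 * Real.pi) := by
        have h1 : ((s : ℤ) : ℝ) = n * t - k * m := by
          have : (s : ℤ) = n * t - k * m := by linarith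
          exact_mod_cast this
        have h2 : ((u : ℤ) : ℝ) * k + v * n = 1 := by exact_mod_cast huv
        push_cast at h1 ⊢
        rw [h1]
        field_simp
        linear_combination (2 * (t:ℝ) * Real.pi) * h2
      rw [e, pol_add_int]

/-- the full statement -/
theorem all_cases {k n : ℕ} (hk : 1 ≤ k) (hn : 3 ≤ n) (hc : Nat.Coprime k n)
    {θ : Fin k → ℝ} {A : Fin k → ℂ} (hB : IsBasic k n θ) (hM : IsMarking k n θ A) :
    ∃ ε₀ > 0, ∀ ε : ℝ, 0 < ε → ε < ε₀ →
      ((1 < k ∧ k ≡ 1 [MOD n]) → 4 * Real.tan (Real.pi / n) < ratio (shifted k n θ A ε)) ∧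
      ((1 < k ∧ ¬ k ≡ 1 [MOD n]) → ratio (shifted k n θ A ε) < 4 * Real.tan (Real.pi / n)) ∧
      (k = 1 → ratio (shifted k n θ A ε) = 4 * Real.tan (Real.pi / n)) := by
  rcases hk.eq_or_lt with h | h
  · subst h
    refine ⟨1, one_pos, ?_⟩
    intro ε _ _
    refine ⟨fun h => absurd h.1 (lt_irrefl _), fun h => absurd h.1 (lt_irrefl _), fun _ => ?_⟩
    exact ratio_one hn θ A ε
  · obtain ⟨p, hpk, hpn, hU⟩ := exists_par h hn hc hB hM
    obtain ⟨ε₀, hε₀, hgood⟩ := Metric.eventually_nhds_iff.mp p.ev_good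
    refine ⟨ε₀, hε₀, ?_⟩
    intro ε h0 h1
    have hg : p.Good ε := hgood (by rw [Real.dist_eq, sub_zero, abs_of_pos h0]; exact h1)
    have hd : (k ≡ 1 [MOD n]) ↔ (p.n : ℤ) ∣ p.k - 1 := by
      rw [hpk, hpn]
      constructor
      · intro h
        exact_mod_cast (Nat.modEq_iff_dvd.mp h.symm)
      · intro h
        exact (Nat.modEq_iff_dvd.mpr (by exact_mod_cast h)).symm
    rw [hU ε]
    refine ⟨?_, ?_, ?_⟩
    · rintro ⟨_, h2⟩
      have := p.ratio_gt hg h0 (hd.mp h2)
      rwa [hpn] at this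
    · rintro ⟨_, h2⟩
      have := p.ratio_lt hg h0 (fun h => h2 (hd.mpr h))
      rwa [hpn] at this
    · intro h2; omega

end Pool.Agent.V11167.Sh
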