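import Mathlib

/-!
Definitions for MP_7578b2_co: `d`-sphere graphs and strongly universal countable `d`-sphere graphs.
-/

namespace Pool.Agent.V11167.Sph

/-- The family `H_d`: all intersections of the closed unit ball of `ℝ^{d+1}` with the affine
hyperplanes `{x | ⟪n, x⟫ = c}`, `n ≠ 0`. -/
def discs (d : ℕ) : Set (Set (EuclideanSpace ℝ (Fin (d + 1)))) :=
  {S | ∃ (n : EuclideanSpace ℝ (Fin (d + 1))) (c : ℝ), n ≠ 0 ∧
    S = Metric.closedBall 0 1 ∩ {x | inner ℝ n x = c}}

/-- The intersection graph of a family of sets: the vertices are the members of the family and two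
distinct members are adjacent exactly when they have a common point. -/
def interGraph {X : Type*} (F : Set (Set X)) : SimpleGraph F where
  Adj A B := A ≠ B ∧ ((A : Set X) ∩ (B : Set X)).Nonempty
  symm := ⟨fun A B h => ⟨h.1.symm, by rw [Set.inter_comm]; exact h.2⟩⟩
  loopless := ⟨fun A h => h.1 rfl⟩

/-- `G` is a `d`-sphere graph: it is isomorphic to the intersection graph of some subfamily
of `H_d`. -/
def IsSphereGraph (d : ℕ) {V : Type*} (G : SimpleGraph V) : Prop :=
  ∃ F : Set (Set (EuclideanSpace ℝ (Fin (d + 1)))), F ⊆ discs d ∧ Nonempty (G ≃g interGraph F)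

/-- The class of countable `d`-sphere graphs has a strongly universal element: a countable
`d`-sphere graph `U` such that every countable `d`-sphere graph is isomorphic to an induced
subgraph of `U` (`G ↪g U` are the embeddings onto induced subgraphs). -/
def HasStronglyUniversal (d : ℕ) : Prop :=
  ∃ (V : Type) (_ : Countable V) (U : SimpleGraph V), IsSphereGraph d U ∧
    ∀ (W : Type) (_ : Countable W) (G : SimpleGraph W), IsSphereGraph d G → Nonempty (G ↪g U)

end Pool.Agent.V11167.Sph
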