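import Mathlib
import Pool.Agent.V11167.SphDefs

/-! Sections of the unit ball, sign lemma, bead lemma. -/

namespace Pool.Agent.V11167.Sph

open Filter Topology

variable {E : Type*} [NormedAddCommGroup E] [InnerProductSpace ℝ E]

/-- plane section of the unit ball -/
def sec (n : E) (c : ℝ) : Set E := Metric.closedBall 0 1 ∩ {x | inner ℝ n x = c}

lemma mem_sec {n : E} {c : ℝ} {x : E} : x ∈ sec n c ↔ ‖x‖ ≤ 1 ∧ inner ℝ n x = c := by
  simp [sec]

lemma sec_convex (n : E) (c : ℝ) : Convex ℝ (sec n c) := by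
  intro x hx y hy a b ha hb hab
  rw [mem_sec] at *
  refine ⟨?_, ?_⟩
  · calc ‖a • x + b • y‖ ≤ ‖a • x‖ + ‖b • y‖ := norm_add_le _ _
      _ = a * ‖x‖ + b * ‖y‖ := by rw [norm_smul, norm_smul, Real.norm_of_nonneg ha, Real.norm_of_nonneg hb]
      _ ≤ a * 1 + b * 1 := by gcongr; exact hx.1; exact hy.1
      _ = 1 := by linarith
  · rw [inner_add_right, inner_smul_right, inner_smul_right, hx.2, hy.2, ← add_mul, hab, one_mul]

lemma sec_sub_ball (n : E) (c : ℝ) : sec n c ⊆ Metric.closedBall 0 1 := fun _ h => h.1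

lemma sec_isClosed (n : E) (c : ℝ) : IsClosed (sec n c) := by
  apply IsClosed.inter Metric.isClosed_closedBall
  exact isClosed_eq (by fun_prop) continuous_const

lemma sec_isCompact [ProperSpace E] (n : E) (c : ℝ) : IsCompact (sec n c) :=
  (isCompact_closedBall (0 : E) 1).of_isClosed_subset (sec_isClosed n c) (sec_sub_ball n c)

/-- affine zero on a segment -/
lemma seg_zero {a b : ℝ} (h : a * b ≤ 0) : ∃ t : ℝ, 0 ≤ t ∧ t ≤ 1 ∧ (1 - t) * a + t * b = 0 := by
  by_cases hab : a = b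
  · subst hab
    have : a = 0 := by nlinarith [mul_self_nonneg a]
    exact ⟨0, le_refl _, zero_le_one, by simp [this]⟩
  · have hab' : a - b ≠ 0 := sub_ne_zero.mpr hab
    refine ⟨a / (a - b), ?_, ?_, ?_⟩
    · rcases lt_or_gt_of_ne hab' with h1 | h1
      · have : a ≤ 0 := by
          by_contra h2; push Not at h2
          nlinarith
        exact div_nonneg_of_nonpos this h1.le
      · have : 0 ≤ a := by
          by_contra h2; push Not at h2
          nlinarith
        exact div_nonneg this h1.le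
    · rcases lt_or_gt_of_ne hab' with h1 | h1
      · rw [div_le_one_of_neg h1]
        by_contra h2; push Not at h2
        nlinarith
      · rw [div_le_one h1]
        by_contra h2; push Not at h2
        nlinarith
    · field_simp
      ring

/-- affine function vanishing inside a convex set -/
lemma convex_zero {Z : Set E} (hZ : Convex ℝ Z) {z1 z2 : E} (h1 : z1 ∈ Z) (h2 : z2 ∈ Z)
    (n : E) (c : ℝ) (h : (inner ℝ n z1 - c) * (inner ℝ n z2 - c) ≤ 0) :
    ∃ z ∈ Z, inner ℝ n z = c := by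
  obtain ⟨t, ht0, ht1, ht⟩ := seg_zero h
  refine ⟨(1 - t) • z1 + t • z2, hZ h1 h2 (by linarith) ht0 (by ring), ?_⟩
  rw [inner_add_right, inner_smul_right, inner_smul_right]
  linarith

lemma sign_pos {Z : Set E} (hZ : Convex ℝ Z) (hB : Z ⊆ Metric.closedBall 0 1) {z1 z2 : E}
    (h1 : z1 ∈ Z) (h2 : z2 ∈ Z) {n : E} {c : ℝ} (hd : ¬ (Z ∩ sec n c).Nonempty) :
    0 < (inner ℝ n z1 - c) * (inner ℝ n z2 - c) := by
  by_contra h
  push Not at h
  obtain ⟨z, hz, hzc⟩ := convex_zero hZ h1 h2 n c h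
  exact hd ⟨z, hz, hB hz, hzc⟩

lemma exists_normal {n : E} (hn : n ≠ 0) (c : ℝ) :
    ∃ (n' : E) (h : ℝ), ‖n'‖ = 1 ∧ 0 ≤ h ∧ sec n c = sec n' h := by
  have hpos : 0 < ‖n‖ := norm_pos_iff.mpr hn
  rcases le_total 0 c with hc | hc
  · refine ⟨‖n‖⁻¹ • n, ‖n‖⁻¹ * c, ?_, by positivity, ?_⟩
    · rw [norm_smul, norm_inv, norm_norm, inv_mul_cancel₀ hpos.ne']
    · ext x
      rw [mem_sec, mem_sec, inner_smul_left]
      simp only [conj_trivial]
      constructor
      · rintro ⟨h1, h2⟩; exact ⟨h1, by rw [h2]⟩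
      · rintro ⟨h1, h2⟩
        exact ⟨h1, mul_left_cancel₀ (inv_pos.mpr hpos).ne' h2⟩
  · refine ⟨-(‖n‖⁻¹ • n), -(‖n‖⁻¹ * c), ?_, ?_, ?_⟩
    · rw [norm_neg, norm_smul, norm_inv, norm_norm, inv_mul_cancel₀ hpos.ne']
    · have := mul_nonneg (inv_pos.mpr hpos).le (neg_nonneg.mpr hc)
      linarith
    · ext x
      rw [mem_sec, mem_sec, inner_neg_left, inner_smul_left]
      simp only [conj_trivial]
      constructor
      · rintro ⟨h1, h2⟩; exact ⟨h1, by rw [h2]⟩
      · rintro ⟨h1, h2⟩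
        exact ⟨h1, mul_left_cancel₀ (inv_pos.mpr hpos).ne' (neg_injective h2)⟩

lemma height_le_one {n : E} (hn : ‖n‖ = 1) {h : ℝ} (hne : (sec n h).Nonempty) : h ≤ 1 := by
  obtain ⟨x, hx⟩ := hne
  rw [mem_sec] at hx
  calc h = inner ℝ n x := hx.2.symm
    _ ≤ ‖n‖ * ‖x‖ := real_inner_le_norm _ _
    _ ≤ 1 := by rw [hn, one_mul]; exact hx.1

lemma center_mem {n : E} (hn : ‖n‖ = 1) {h : ℝ} (h0 : 0 ≤ h) (h1 : h ≤ 1) : h • n ∈ sec n h := by
  rw [mem_sec]
  refine ⟨?_, ?_⟩
  · rw [norm_smul, hn, mul_one, Real.norm_of_nonneg h0]; exact h1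
  · rw [inner_smul_right, real_inner_self_eq_norm_sq, hn]; ring

/-- **Bead lemma.** -/
lemma bead [ProperSpace E] (n : ℕ → E) (h : ℕ → ℝ) (hn : ∀ k, ‖n k‖ = 1) (h0 : ∀ k, 0 ≤ h k)
    (hne : ∀ k, (sec (n k) (h k)).Nonempty)
    (hdisj : ∀ i j, i ≠ j → ¬ (sec (n i) (h i) ∩ sec (n j) (h j)).Nonempty)
    (hconn : ∀ i j l, i ≠ j → i ≠ l → j ≠ l → ∃ Z : Set E, Convex ℝ Z ∧
      Z ⊆ Metric.closedBall 0 1 ∧ (Z ∩ sec (n j) (h j)).Nonempty ∧
      (Z ∩ sec (n l) (h l)).Nonempty ∧ ¬ (Z ∩ sec (n i) (h i)).Nonempty)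
    (η : ℝ) (hη : η < 1) : ∀ᶠ k in atTop, η < h k := by
  have h1 : ∀ k, h k ≤ 1 := fun k => height_le_one (hn k) (hne k)
  -- same sign
  have same : ∀ i j l, i ≠ j → i ≠ l → ∀ x ∈ sec (n j) (h j), ∀ y ∈ sec (n l) (h l),
      0 < (inner ℝ (n i) x - h i) * (inner ℝ (n i) y - h i) := by
    intro i j l hij hil x hx y hy
    have hdj : ¬ (sec (n j) (h j) ∩ sec (n i) (h i)).Nonempty := hdisj j i hij.symm
    have hdl : ¬ (sec (n l) (h l) ∩ sec (n i) (h i)).Nonempty := hdisj l i hil.symm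
    by_cases hjl : j = l
    · subst hjl
      exact sign_pos (sec_convex _ _) (sec_sub_ball _ _) hx hy hdj
    · obtain ⟨Z, hZ, hZB, ⟨z1, hz1, hz1'⟩, ⟨z2, hz2, hz2'⟩, hZi⟩ := hconn i j l hij hil hjl
      have a1 := sign_pos (sec_convex _ _) (sec_sub_ball _ _) hx hz1' hdj
      have a2 := sign_pos hZ hZB hz1 hz2 hZi
      have a3 := sign_pos (sec_convex _ _) (sec_sub_ball _ _) hz2' hy hdl
      have a4 := mul_pos (mul_pos a1 a2) a3
      have e : (inner ℝ (n i) x - h i) * (inner ℝ (n i) z1 - h i) *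
        ((inner ℝ (n i) z1 - h i) * (inner ℝ (n i) z2 - h i)) *
        ((inner ℝ (n i) z2 - h i) * (inner ℝ (n i) y - h i)) =
        ((inner ℝ (n i) z1 - h i) * (inner ℝ (n i) z2 - h i)) ^ 2 *
          ((inner ℝ (n i) x - h i) * (inner ℝ (n i) y - h i)) := by ring
      rw [e] at a4
      by_contra hneg
      push Not at hneg
      have := mul_nonpos_of_nonneg_of_nonpos
        (sq_nonneg ((inner ℝ (n i) z1 - h i) * (inner ℝ (n i) z2 - h i))) hneg
      linarith
  have cm : ∀ k, h k • n k ∈ sec (n k) (h k) := fun k => center_mem (hn k) (h0 k) (h1 k)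
  -- the set of positive indices
  set Pos : ℕ → Prop := fun i => ∃ j, j ≠ i ∧ h i < inner ℝ (n i) (h j • n j) with hPos
  have posall : ∀ i, Pos i → ∀ j, j ≠ i → ∀ x ∈ sec (n j) (h j), h i < inner ℝ (n i) x := by
    intro i ⟨j, hj, hji⟩ l hl x hx
    have := same i j l hj.symm hl.symm _ (cm j) x hx
    have h2 : 0 < inner ℝ (n i) (h j • n j) - h i := by linarith
    have := (mul_pos_iff_of_pos_left h2).mp this
    linarith
  have negall : ∀ i, ¬ Pos i → ∀ j, j ≠ i → ∀ x ∈ sec (n j) (h j), inner ℝ (n i) x < h i := by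
    intro i hi j hj x hx
    by_contra hcon
    push Not at hcon
    have hs := same i j j hj.symm hj.symm _ (cm j) x hx
    have hx' : 0 ≤ inner ℝ (n i) x - h i := by linarith
    have hx'' : 0 < inner ℝ (n i) x - h i := by
      rcases hx'.lt_or_eq with h' | h'
      · exact h'
      · rw [← h'] at hs; simp at hs
    have := (mul_pos_iff_of_pos_right hx'').mp hs
    exact hi ⟨j, hj, by linarith⟩
  have possub : ∀ i j, Pos i → Pos j → i = j := by
    intro i j hi hj
    by_contra hij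
    have e1 := posall i hi j (Ne.symm hij) _ (cm j)
    have e2 := posall j hj i hij _ (cm i)
    rw [inner_smul_right] at e1 e2
    have e3 : inner ℝ (n i) (n j) ≤ 1 := by
      calc inner ℝ (n i) (n j) ≤ ‖n i‖ * ‖n j‖ := real_inner_le_norm _ _
        _ = 1 := by rw [hn, hn]; norm_num
    have e4 : inner ℝ (n j) (n i) ≤ 1 := by rw [real_inner_comm]; exact e3
    have := mul_le_mul_of_nonneg_left e3 (h0 j)
    have := mul_le_mul_of_nonneg_left e4 (h0 i)
    linarith
  by_contra hcon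
  rw [Filter.not_eventually] at hcon
  have hev : ∀ᶠ k in atTop, ¬ Pos k := by
    by_cases hex : ∃ i, Pos i
    · obtain ⟨i0, hi0⟩ := hex
      filter_upwards [Filter.eventually_gt_atTop i0] with k hk hP
      have := possub k i0 hP hi0
      omega
    · push Not at hex
      exact Filter.Eventually.of_forall hex
  have hfr := hcon.and_eventually hev
  obtain ⟨φ, hφ, hφp⟩ := Filter.extraction_of_frequently_atTop hfr
  have hcpt : IsCompact (Metric.sphere (0 : E) 1) := isCompact_sphere 0 1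
  obtain ⟨a, ha, ψ, hψ, hlim⟩ := hcpt.tendsto_subseq (x := fun k => n (φ k))
    (fun k => by simp [hn])
  have hcau := hlim.cauchySeq
  rw [Metric.cauchySeq_iff'] at hcau
  have hεpos : 0 < Real.sqrt (2 * (1 - η)) := Real.sqrt_pos.mpr (by linarith)
  obtain ⟨N, hN⟩ := hcau _ hεpos
  have hd := hN (N + 1) (Nat.le_succ N)
  simp only [Function.comp] at hd
  set i := φ (ψ N) with hi
  set j := φ (ψ (N + 1)) with hj
  have hij : i ≠ j := by
    have : i < j := hφ (hψ (Nat.lt_succ_self N))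
    exact this.ne
  obtain ⟨hi1, hi2⟩ := hφp (ψ N)
  obtain ⟨hj1, hj2⟩ := hφp (ψ (N + 1))
  rw [← hi] at hi1 hi2
  rw [← hj] at hj1 hj2
  push Not at hi1 hj1
  have hρ : η < inner ℝ (n i) (n j) := by
    rw [dist_eq_norm] at hd
    have h2 : ‖n j - n i‖ ^ 2 < 2 * (1 - η) := by
      calc ‖n j - n i‖ ^ 2 < Real.sqrt (2 * (1 - η)) ^ 2 := by
            apply pow_lt_pow_left₀ hd (norm_nonneg _) (by norm_num)
        _ = 2 * (1 - η) := Real.sq_sqrt (by linarith)
    rw [@norm_sub_sq ℝ, hn, hn] at h2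
    simp only [RCLike.re_to_real] at h2
    rw [real_inner_comm]
    linarith
  set ρ := inner ℝ (n i) (n j) with hρdef
  have hρ0 : 0 < ρ := lt_of_le_of_lt (le_trans (h0 i) hi1) hρ
  -- x_i on negative side of j
  have s1 := negall j hj2 i hij _ (cm i)
  rw [inner_smul_right, real_inner_comm, ← hρdef] at s1
  have hw : (h j / ρ) • n i ∈ sec (n j) (h j) := by
    rw [mem_sec]
    refine ⟨?_, ?_⟩
    · rw [norm_smul, hn, mul_one, Real.norm_of_nonneg (div_nonneg (h0 j) hρ0.le), div_le_one hρ0]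
      linarith
    · rw [inner_smul_right, real_inner_comm, ← hρdef]
      field_simp
  have s2 := negall i hi2 j (Ne.symm hij) _ hw
  rw [inner_smul_right, real_inner_self_eq_norm_sq, hn] at s2
  have : h i < h j / ρ := by rw [lt_div_iff₀ hρ0]; linarith
  linarith

lemma sec_near {n : E} (hn : ‖n‖ = 1) {h ε : ℝ} (hε : 0 < ε) (hh : 1 - ε ^ 2 / 2 < h) {x : E}
    (hx : x ∈ sec n h) : ‖x - n‖ < ε := by
  rw [mem_sec] at hx
  have h2 : ‖x - n‖ ^ 2 < ε ^ 2 := by
    rw [@norm_sub_sq ℝ, hn]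
    simp only [RCLike.re_to_real]
    rw [real_inner_comm, hx.2]
    have : ‖x‖ ^ 2 ≤ 1 := by
      have := hx.1
      have h0 := norm_nonneg x
      nlinarith
    linarith
  exact lt_of_pow_lt_pow_left₀ 2 hε.le h2

end Pool.Agent.V11167.Sph
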