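import Mathlib
import Pool.Agent.V11167.SphA

/-! Limits of sections and tangent pencils. -/

namespace Pool.Agent.V11167.Sph

open Filter Topology

variable {E : Type*} [NormedAddCommGroup E] [InnerProductSpace ℝ E]

lemma inner_sub_neg {P z : E} (hP : ‖P‖ = 1) (hz : ‖z‖ ≤ 1) (hne : z ≠ P) :
    inner ℝ P (z - P) < 0 := by
  have h1 : 0 < ‖z - P‖ ^ 2 := by
    have : 0 < ‖z - P‖ := norm_pos_iff.mpr (sub_ne_zero.mpr hne)
    positivity
  rw [@norm_sub_sq ℝ, hP] at h1
  simp only [RCLike.re_to_real] at h1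
  rw [inner_sub_right, real_inner_self_eq_norm_sq, hP]
  rw [real_inner_comm] at h1
  have h0 := norm_nonneg z
  nlinarith

lemma tangent [FiniteDimensional ℝ E] {P σ α : E} {c : ℝ} (hP : ‖P‖ = 1) (hPS : P ∈ sec σ c) {z0 : E}
    (hz0 : z0 ∈ sec σ c) (hne : z0 ≠ P)
    (hside : ∀ z ∈ sec σ c, inner ℝ α (z - P) ≤ 0) :
    ∃ x y : ℝ, α = x • P + y • σ := by
  classical
  set K : Submodule ℝ E := Submodule.span ℝ {P, σ} with hK
  have hPK : P ∈ K := Submodule.subset_span (by simp)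
  have hσK : σ ∈ K := Submodule.subset_span (by simp)
  by_cases hmem : α ∈ K
  · obtain ⟨x, y, hxy⟩ := Submodule.mem_span_pair.mp hmem
    exact ⟨x, y, hxy.symm⟩
  exfalso
  obtain ⟨p, hp, w, hw, hpw⟩ := K.exists_add_mem_mem_orthogonal α
  have hw0 : w ≠ 0 := by
    rintro rfl
    apply hmem
    rw [hpw, add_zero]; exact hp
  have hwP : inner ℝ P w = 0 := (Submodule.mem_orthogonal K w).mp hw P hPK
  have hwσ : inner ℝ σ w = 0 := (Submodule.mem_orthogonal K w).mp hw σ hσK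
  have hwp : inner ℝ p w = 0 := (Submodule.mem_orthogonal K w).mp hw p hp
  have hαw : inner ℝ α w = ‖w‖ ^ 2 := by
    rw [hpw, inner_add_left, hwp, zero_add, real_inner_self_eq_norm_sq]
  have hwpos : 0 < ‖w‖ ^ 2 := by
    have := norm_pos_iff.mpr hw0
    positivity
  set u0 := z0 - P with hu0
  have hz0' := mem_sec.mp hz0
  have hP' := mem_sec.mp hPS
  have hPu : inner ℝ P u0 < 0 := inner_sub_neg hP hz0'.1 hne
  have hσu : inner ℝ σ u0 = 0 := by rw [hu0, inner_sub_right, hz0'.2, hP'.2]; ring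
  set κ : ℝ := (1 - inner ℝ α u0) / ‖w‖ ^ 2 with hκ
  have hκ' : inner ℝ α u0 + κ * ‖w‖ ^ 2 = 1 := by
    rw [hκ]; field_simp; ring
  set v := u0 + κ • w with hv
  have hPv : inner ℝ P v = inner ℝ P u0 := by
    rw [hv, inner_add_right, inner_smul_right, hwP]; ring
  have hσv : inner ℝ σ v = 0 := by
    rw [hv, inner_add_right, inner_smul_right, hwσ, hσu]; ring
  have hαv : inner ℝ α v = 1 := by
    rw [hv, inner_add_right, inner_smul_right, hαw]; exact hκ'
  set η : ℝ := -inner ℝ P v / (‖v‖ ^ 2 + 1) with hη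
  have hηpos : 0 < η := by
    apply div_pos
    · rw [hPv]; linarith
    · positivity
  have hηle : η * ‖v‖ ^ 2 ≤ -inner ℝ P v := by
    rw [hη, div_mul_eq_mul_div, div_le_iff₀ (by positivity)]
    have : 0 < -inner ℝ P v := by rw [hPv]; linarith
    nlinarith [sq_nonneg ‖v‖]
  have hmemS : P + η • v ∈ sec σ c := by
    rw [mem_sec]
    refine ⟨?_, ?_⟩
    · have h2 : ‖P + η • v‖ ^ 2 ≤ 1 ^ 2 := by
        rw [@norm_add_sq ℝ, hP, norm_smul, Real.norm_of_nonneg hηpos.le]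
        simp only [RCLike.re_to_real]
        rw [inner_smul_right]
        have h3 : 0 < -inner ℝ P v := by rw [hPv]; linarith
        nlinarith
      exact le_of_pow_le_pow_left₀ (by norm_num) (by norm_num) h2
    · rw [inner_add_right, inner_smul_right, hσv, hP'.2]; ring
  have := hside _ hmemS
  rw [add_sub_cancel_left, inner_smul_right, hαv] at this
  linarith

omit [InnerProductSpace ℝ E] in
/-- extraction of a limit plane -/
lemma exists_limit [ProperSpace E] (α : ℕ → E) (a : ℕ → ℝ) (hα : ∀ n, ‖α n‖ = 1)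
    (h0 : ∀ n, 0 ≤ a n) (h1 : ∀ n, a n ≤ 1) :
    ∃ (β : E) (b : ℝ) (ψ : ℕ → ℕ), ‖β‖ = 1 ∧ StrictMono ψ ∧
      Tendsto (fun n => α (ψ n)) atTop (𝓝 β) ∧ Tendsto (fun n => a (ψ n)) atTop (𝓝 b) := by
  have hc : IsCompact ((Metric.sphere (0 : E) 1) ×ˢ (Set.Icc (0 : ℝ) 1)) :=
    (isCompact_sphere 0 1).prod isCompact_Icc
  obtain ⟨⟨β, b⟩, hβ, ψ, hψ, hlim⟩ := hc.tendsto_subseq (x := fun n => (α n, a n))
    (fun n => ⟨by simp [hα], h0 n, h1 n⟩)
  refine ⟨β, b, ψ, by simpa using hβ.1, hψ, ?_, ?_⟩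
  · exact (continuous_fst.tendsto _).comp hlim
  · exact (continuous_snd.tendsto _).comp hlim

lemma lim_meets {α : ℕ → E} {a : ℕ → ℝ} {β : E} {b : ℝ}
    (hα : Tendsto α atTop (𝓝 β)) (ha : Tendsto a atTop (𝓝 b)) {K : Set E} (hK : IsCompact K)
    (hm : ∀ᶠ n in atTop, (sec (α n) (a n) ∩ K).Nonempty) : ∃ x ∈ K, inner ℝ β x = b := by
  obtain ⟨N, hN⟩ := eventually_atTop.mp hm
  choose x hx using fun n : ℕ => hN (n + N) (Nat.le_add_left _ _)
  obtain ⟨y, hy, φ, hφ, hlim⟩ := hK.tendsto_subseq (fun n => (hx n).2)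
  refine ⟨y, hy, ?_⟩
  have e1 : Tendsto (fun n => φ n + N) atTop atTop :=
    (tendsto_add_atTop_nat N).comp hφ.tendsto_atTop
  have t1 : Tendsto (fun n => α (φ n + N)) atTop (𝓝 β) := hα.comp e1
  have t2 : Tendsto (fun n => a (φ n + N)) atTop (𝓝 b) := ha.comp e1
  have t3 : Tendsto (fun n => inner ℝ (α (φ n + N)) (x (φ n))) atTop (𝓝 (inner ℝ β y)) :=
    t1.inner hlim
  refine tendsto_nhds_unique t3 (t2.congr fun n => ?_)
  exact (mem_sec.mp (hx (φ n)).1).2.symm

/-- The common direction of a family of sections through `P` that avoid a sequence of sections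
`sec (α n) (a n)` accumulating at `P`. -/
lemma fam [FiniteDimensional ℝ E] {P : E} (hP : ‖P‖ = 1) (Y : ℕ → Set E)
    (hYc : ∀ k, IsCompact (Y k)) (hYB : ∀ k, Y k ⊆ Metric.closedBall 0 1)
    (hYd : ∀ i j, i ≠ j → ¬ (Y i ∩ Y j).Nonempty)
    (hY : ∀ ε > 0, ∀ᶠ k in atTop, ∀ x ∈ Y k, ‖x - P‖ < ε)
    (α : ℕ → E) (a : ℕ → ℝ) (hα : ∀ n, ‖α n‖ = 1)
    (h0 : ∀ n, 0 ≤ a n) (h1 : ∀ n, a n ≤ 1)
    (hm : ∀ k, ∀ᶠ n in atTop, (sec (α n) (a n) ∩ Y k).Nonempty) :
    ∃ β : E, (∀ t : ℝ, β ≠ t • P) ∧ ∀ (σ : E) (c : ℝ), P ∈ sec σ c →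
      (∃ z0 ∈ sec σ c, z0 ≠ P) → (∀ n, ¬ (sec σ c ∩ sec (α n) (a n)).Nonempty) →
      ∃ x y : ℝ, y ≠ 0 ∧ β = x • P + y • σ := by
  have : ProperSpace E := FiniteDimensional.proper_real E
  obtain ⟨β, b, ψ, hβ, hψ, l1, l2⟩ := exists_limit α a hα h0 h1
  have hx : ∀ k, ∃ x ∈ Y k, inner ℝ β x = b := by
    intro k
    exact lim_meets l1 l2 (hYc k) (hψ.tendsto_atTop.eventually (hm k))
  choose x hxY hxb using hx
  have hxP : Tendsto x atTop (𝓝 P) := by
    rw [Metric.tendsto_nhds]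
    intro ε hε
    filter_upwards [hY ε hε] with k hk
    rw [dist_eq_norm]; exact hk _ (hxY k)
  have hβP : inner ℝ β P = b := by
    have t : Tendsto (fun k => inner ℝ β (x k)) atTop (𝓝 (inner ℝ β P)) :=
      tendsto_const_nhds.inner hxP
    refine tendsto_nhds_unique t ?_
    simp only [hxb]
    exact tendsto_const_nhds
  have hnd : ∀ t : ℝ, β ≠ t • P := by
    intro t ht
    have hkey : ∀ k, x k = P := by
      intro k
      by_contra hne
      have hlt := inner_sub_neg hP (by simpa using hYB k (hxY k)) hne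
      have e : inner ℝ β (x k - P) = 0 := by rw [inner_sub_right, hxb, hβP, sub_self]
      rw [ht, inner_smul_left] at e
      simp only [conj_trivial] at e
      have ht0 : t ≠ 0 := by
        rintro rfl
        rw [ht, zero_smul, norm_zero] at hβ
        exact zero_ne_one hβ
      rcases mul_eq_zero.mp e with e | e
      · exact ht0 e
      · exact hlt.ne e
    exact hYd 0 1 (by norm_num) ⟨P, by have := hxY 0; rwa [hkey 0] at this,
      by have := hxY 1; rwa [hkey 1] at this⟩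
  refine ⟨β, hnd, ?_⟩
  intro σ c hPS ⟨z0, hz0, hz0P⟩ hav
  have hgP : ∀ n, inner ℝ (α n) P - a n ≠ 0 := by
    intro n h
    exact hav n ⟨P, hPS, (mem_sec.mp hPS).1 |> fun h => by simpa using h, by
      show inner ℝ (α n) P = a n
      linarith⟩
  have hsgn : ∀ n, ∀ z ∈ sec σ c, 0 < (inner ℝ (α n) P - a n) * (inner ℝ (α n) z - a n) :=
    fun n z hz => sign_pos (sec_convex _ _) (sec_sub_ball _ _) hPS hz (hav n)
  have hlimz : ∀ z, Tendsto (fun n => inner ℝ (α (ψ n)) z - a (ψ n)) atTop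
      (𝓝 (inner ℝ β z - b)) := by
    intro z
    exact (l1.inner tendsto_const_nhds).sub l2
  have hcase : (∀ z ∈ sec σ c, inner ℝ β (z - P) ≤ 0) ∨ (∀ z ∈ sec σ c, inner ℝ (-β) (z - P) ≤ 0) := by
    by_cases hf : ∃ᶠ n in atTop, inner ℝ (α (ψ n)) P - a (ψ n) < 0
    · left
      intro z hz
      have hf' : ∃ᶠ n in atTop, inner ℝ (α (ψ n)) z - a (ψ n) ≤ 0 := by
        refine hf.mono fun n hn => ?_
        have := hsgn (ψ n) z hz
        by_contra hc
        push Not at hc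
        nlinarith
      have := le_of_tendsto_of_frequently (hlimz z) hf'
      rw [inner_sub_right, hβP]; exact this
    · right
      rw [Filter.not_frequently] at hf
      intro z hz
      have hf' : ∀ᶠ n in atTop, 0 ≤ inner ℝ (α (ψ n)) z - a (ψ n) := by
        refine hf.mono fun n hn => ?_
        have := hsgn (ψ n) z hz
        have h3 := hgP (ψ n)
        push Not at hn
        by_contra hc
        push Not at hc
        have : 0 < inner ℝ (α (ψ n)) P - a (ψ n) := lt_of_le_of_ne hn (Ne.symm h3)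
        nlinarith
      have := ge_of_tendsto (hlimz z) hf'
      rw [inner_neg_left, inner_sub_right, hβP]; linarith
  have hxy : ∃ x y : ℝ, β = x • P + y • σ := by
    rcases hcase with h | h
    · exact tangent hP hPS hz0 hz0P h
    · obtain ⟨x, y, hxy⟩ := tangent hP hPS hz0 hz0P h
      refine ⟨-x, -y, ?_⟩
      rw [neg_smul, neg_smul, ← neg_add, ← hxy, neg_neg]
  obtain ⟨x, y, hxy⟩ := hxy
  refine ⟨x, y, ?_, hxy⟩
  rintro rfl
  exact hnd x (by rw [hxy, zero_smul, add_zero])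

/-- points of a section of the pencil are determined by the coordinate. -/
lemma on_iff {P β σ : E} {c x y : ℝ} (hPS : P ∈ sec σ c) (hy : y ≠ 0) (h : β = x • P + y • σ)
    {z : E} (hz : ‖z‖ ≤ 1) :
    z ∈ sec σ c ↔ inner ℝ β (z - P) = x * inner ℝ P (z - P) := by
  have hP' := (mem_sec.mp hPS).2
  rw [mem_sec, h, inner_add_left, inner_smul_left, inner_smul_left]
  simp only [conj_trivial]
  constructor
  · rintro ⟨_, h2⟩
    have : inner ℝ σ (z - P) = 0 := by rw [inner_sub_right, h2, hP', sub_self]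
    rw [this]; ring
  · intro h2
    have : y * inner ℝ σ (z - P) = 0 := by linarith
    rcases mul_eq_zero.mp this with h3 | h3
    · exact absurd h3 hy
    · rw [inner_sub_right, hP'] at h3
      exact ⟨hz, by linarith⟩

end Pool.Agent.V11167.Sph
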