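import Mathlib
import Pool.Agent.V11167.SphB

/-! The standard model: circles and lines of the plane as plane sections of the unit ball. -/

namespace Pool.Agent.V11167.Sph

abbrev E3 := EuclideanSpace ℝ (Fin 3)

lemma inner3 (n x : E3) : inner ℝ n x = n 0 * x 0 + n 1 * x 1 + n 2 * x 2 := by
  simp [PiLp.inner_apply, Fin.sum_univ_three]; ring

lemma ball3 (x : E3) : ‖x‖ ≤ 1 ↔ x 0 ^ 2 + x 1 ^ 2 + x 2 ^ 2 ≤ 1 := by
  have h : ‖x‖ ^ 2 = x 0 ^ 2 + x 1 ^ 2 + x 2 ^ 2 := by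
    rw [EuclideanSpace.real_norm_sq_eq, Fin.sum_univ_three]
  rw [← h]
  constructor
  · intro h1
    have := norm_nonneg x
    nlinarith
  · intro h1
    have : ‖x‖ ^ 2 ≤ 1 ^ 2 := by linarith
    exact le_of_pow_le_pow_left₀ (by norm_num) (by norm_num) this

/-- circle with centre `(a,b)` and radius `r` -/
noncomputable def circ (a b r : ℝ) : Set E3 :=
  sec (!₂[-2 * a, -2 * b, 1 - (a ^ 2 + b ^ 2 - r ^ 2)]) (-(1 + (a ^ 2 + b ^ 2 - r ^ 2)))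

/-- line `p x + q y = e` -/
noncomputable def line (p q e : ℝ) : Set E3 := sec (!₂[p, q, e]) e

lemma mem_circ {a b r : ℝ} {x : E3} : x ∈ circ a b r ↔ x 0 ^ 2 + x 1 ^ 2 + x 2 ^ 2 ≤ 1 ∧
    (1 + x 2) - 2 * a * x 0 - 2 * b * x 1 + (a ^ 2 + b ^ 2 - r ^ 2) * (1 - x 2) = 0 := by
  rw [circ, mem_sec, ball3, inner3]
  simp only [PiLp.toLp_apply, Matrix.cons_val_zero, Matrix.cons_val_one, Matrix.cons_val]
  constructor
  · rintro ⟨h1, h2⟩; exact ⟨h1, by linear_combination h2⟩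
  · rintro ⟨h1, h2⟩; exact ⟨h1, by linear_combination h2⟩

lemma mem_line {p q e : ℝ} {x : E3} : x ∈ line p q e ↔ x 0 ^ 2 + x 1 ^ 2 + x 2 ^ 2 ≤ 1 ∧
    p * x 0 + q * x 1 = e * (1 - x 2) := by
  rw [line, mem_sec, ball3, inner3]
  simp only [PiLp.toLp_apply, Matrix.cons_val_zero, Matrix.cons_val_one, Matrix.cons_val]
  constructor
  · rintro ⟨h1, h2⟩; exact ⟨h1, by linear_combination h2⟩
  · rintro ⟨h1, h2⟩; exact ⟨h1, by linear_combination h2⟩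

/-- the point of the ball corresponding to the point `(X, Y, √g)` of the half space -/
noncomputable def pt (X Y g : ℝ) : E3 :=
  !₂[2 * X / (X ^ 2 + Y ^ 2 + g + 1), 2 * Y / (X ^ 2 + Y ^ 2 + g + 1),
    (X ^ 2 + Y ^ 2 + g - 1) / (X ^ 2 + Y ^ 2 + g + 1)]

lemma pt0 (X Y g : ℝ) : pt X Y g 0 = 2 * X / (X ^ 2 + Y ^ 2 + g + 1) := rfl
lemma pt1 (X Y g : ℝ) : pt X Y g 1 = 2 * Y / (X ^ 2 + Y ^ 2 + g + 1) := rfl
lemma pt2 (X Y g : ℝ) : pt X Y g 2 = (X ^ 2 + Y ^ 2 + g - 1) / (X ^ 2 + Y ^ 2 + g + 1) := rfl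

lemma pt_ball {X Y g : ℝ} (hg : 0 ≤ g) :
    pt X Y g 0 ^ 2 + pt X Y g 1 ^ 2 + pt X Y g 2 ^ 2 ≤ 1 := by
  rw [pt0, pt1, pt2]
  have hS : 0 < X ^ 2 + Y ^ 2 + g + 1 := by positivity
  rw [div_pow, div_pow, div_pow, ← add_div, ← add_div, div_le_one (by positivity)]
  nlinarith

lemma pt_circ {X Y g a b r : ℝ} (hg : 0 ≤ g) (h : (X - a) ^ 2 + (Y - b) ^ 2 + g = r ^ 2) :
    pt X Y g ∈ circ a b r := by
  rw [mem_circ]
  refine ⟨pt_ball hg, ?_⟩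
  rw [pt0, pt1, pt2]
  have hS : X ^ 2 + Y ^ 2 + g + 1 ≠ 0 := by positivity
  field_simp
  linear_combination (2 : ℝ) * h

lemma pt_line {X Y g p q e : ℝ} (hg : 0 ≤ g) : pt X Y g ∈ line p q e ↔ p * X + q * Y = e := by
  rw [mem_line]
  have hS : X ^ 2 + Y ^ 2 + g + 1 ≠ 0 := by positivity
  rw [pt0, pt1, pt2]
  constructor
  · rintro ⟨_, h⟩
    field_simp at h
    linarith
  · intro h
    refine ⟨pt_ball hg, ?_⟩
    field_simp
    linarith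

lemma circ_ne {a b r : ℝ} {x : E3} (hx : x ∈ circ a b r) : x 2 ≠ 1 := by
  rw [mem_circ] at hx
  intro h
  rw [h] at hx
  have h0 : x 0 = 0 := by nlinarith [sq_nonneg (x 0), sq_nonneg (x 1), hx.1]
  have h1 : x 1 = 0 := by nlinarith [sq_nonneg (x 0), sq_nonneg (x 1), hx.1]
  rw [h0, h1] at hx
  have := hx.2
  norm_num at this

/-- coordinates in the half space -/
lemma exists_coord {x : E3} (hx : x 0 ^ 2 + x 1 ^ 2 + x 2 ^ 2 ≤ 1) (h2 : x 2 ≠ 1) :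
    ∃ X Y g : ℝ, 0 ≤ g ∧ (∀ a b r, x ∈ circ a b r → (X - a) ^ 2 + (Y - b) ^ 2 + g = r ^ 2) ∧
      (∀ p q e, x ∈ line p q e → p * X + q * Y = e) := by
  have hw : 1 - x 2 ≠ 0 := by
    intro h; exact h2 (by linarith)
  refine ⟨x 0 / (1 - x 2), x 1 / (1 - x 2), (1 - x 0 ^ 2 - x 1 ^ 2 - x 2 ^ 2) / (1 - x 2) ^ 2,
    ?_, ?_, ?_⟩
  · apply div_nonneg _ (sq_nonneg _)
    linarith
  · intro a b r h
    have h' := (mem_circ.mp h).2
    field_simp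
    linear_combination (1 - x 2) * h'
  · intro p q e h
    have h' := (mem_line.mp h).2
    field_simp
    linear_combination h'

/-! ### intersection criteria -/

lemma cc_meet {a b r a' b' r' : ℝ} (hD : 0 < (a - a') ^ 2 + (b - b') ^ 2)
    (h1 : (r - r') ^ 2 ≤ (a - a') ^ 2 + (b - b') ^ 2)
    (h2 : (a - a') ^ 2 + (b - b') ^ 2 ≤ (r + r') ^ 2) : (circ a b r ∩ circ a' b' r').Nonempty := by
  set D := (a - a') ^ 2 + (b - b') ^ 2 with hDd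
  set θ := (D + r ^ 2 - r' ^ 2) / (2 * D) with hθ
  have hθ' : θ * (2 * D) = D + r ^ 2 - r' ^ 2 := by rw [hθ]; field_simp
  have hg : 0 ≤ r ^ 2 - θ ^ 2 * D := by
    have : r ^ 2 - θ ^ 2 * D = ((r + r') ^ 2 - D) * (D - (r - r') ^ 2) / (4 * D) := by
      rw [hθ]; field_simp; ring
    rw [this]
    apply div_nonneg (mul_nonneg (by linarith) (by linarith)) (by linarith)
  refine ⟨pt (a + θ * (a' - a)) (b + θ * (b' - b)) (r ^ 2 - θ ^ 2 * D), pt_circ hg ?_, pt_circ hg ?_⟩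
  · rw [hDd]; ring
  · have : (a + θ * (a' - a) - a') ^ 2 + (b + θ * (b' - b) - b') ^ 2 = (1 - θ) ^ 2 * D := by
      rw [hDd]; ring
    rw [this]
    linear_combination (-1 : ℝ) * hθ'

lemma cc_of_meet {a b r a' b' r' : ℝ} (hr : 0 ≤ r) (hr' : 0 ≤ r')
    (h : (circ a b r ∩ circ a' b' r').Nonempty) :
    (r - r') ^ 2 ≤ (a - a') ^ 2 + (b - b') ^ 2 ∧ (a - a') ^ 2 + (b - b') ^ 2 ≤ (r + r') ^ 2 := by
  obtain ⟨x, hx, hx'⟩ := h
  obtain ⟨X, Y, g, hg, hc, -⟩ := exists_coord (mem_circ.mp hx).1 (circ_ne hx)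
  have e1 := hc _ _ _ hx
  have e2 := hc _ _ _ hx'
  have hgr : g ≤ r * r' := by
    have g1 : g ≤ r ^ 2 := by nlinarith [sq_nonneg (X - a), sq_nonneg (Y - b)]
    have g2 : g ≤ r' ^ 2 := by nlinarith [sq_nonneg (X - a'), sq_nonneg (Y - b')]
    rcases le_total r r' with h | h
    · nlinarith
    · nlinarith
  set dp := (X - a) * (X - a') + (Y - b) * (Y - b') with hdp
  have hcs : dp ^ 2 ≤ (r * r' - g) ^ 2 := by
    have h1 : dp ^ 2 ≤ ((X - a) ^ 2 + (Y - b) ^ 2) * ((X - a') ^ 2 + (Y - b') ^ 2) := by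
      rw [hdp]
      nlinarith [sq_nonneg ((X - a) * (Y - b') - (Y - b) * (X - a'))]
    have h2 : ((X - a) ^ 2 + (Y - b) ^ 2) * ((X - a') ^ 2 + (Y - b') ^ 2) =
      (r ^ 2 - g) * (r' ^ 2 - g) := by rw [← e1, ← e2]; ring
    rw [h2] at h1
    nlinarith [mul_nonneg hg (sq_nonneg (r - r'))]
  have habs := abs_le_of_sq_le_sq' hcs (by linarith)
  have hDe : (a - a') ^ 2 + (b - b') ^ 2 = r ^ 2 + r' ^ 2 - 2 * g - 2 * dp := by
    rw [hdp, ← e1, ← e2]; ring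
  rw [hDe]
  constructor
  · nlinarith [habs.2]
  · nlinarith [habs.1]

lemma lc_meet {p q e a b r : ℝ} (hN : 0 < p ^ 2 + q ^ 2)
    (h : (p * a + q * b - e) ^ 2 ≤ r ^ 2 * (p ^ 2 + q ^ 2)) :
    (line p q e ∩ circ a b r).Nonempty := by
  set N := p ^ 2 + q ^ 2 with hNd
  set t := (e - p * a - q * b) / N with ht
  have ht' : t * N = e - p * a - q * b := by rw [ht]; field_simp
  have hg : 0 ≤ r ^ 2 - t ^ 2 * N := by
    have : r ^ 2 - t ^ 2 * N = (r ^ 2 * N - (p * a + q * b - e) ^ 2) / N := by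
      rw [ht]; field_simp; ring
    rw [this]
    exact div_nonneg (by linarith) hN.le
  refine ⟨pt (a + t * p) (b + t * q) (r ^ 2 - t ^ 2 * N), (pt_line hg).mpr ?_, pt_circ hg ?_⟩
  · have : p * (a + t * p) + q * (b + t * q) = p * a + q * b + t * N := by rw [hNd]; ring
    rw [this, ht']; ring
  · rw [hNd]; ring

lemma lc_of_meet {p q e a b r : ℝ} (h : (line p q e ∩ circ a b r).Nonempty) :
    (p * a + q * b - e) ^ 2 ≤ r ^ 2 * (p ^ 2 + q ^ 2) := by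
  obtain ⟨x, hx, hx'⟩ := h
  obtain ⟨X, Y, g, hg, hc, hl⟩ := exists_coord (mem_circ.mp hx').1 (circ_ne hx')
  have e1 := hc _ _ _ hx'
  have e2 := hl _ _ _ hx
  rw [← e1, ← e2]
  nlinarith [sq_nonneg (p * (Y - b) - q * (X - a)), mul_nonneg hg (add_nonneg (sq_nonneg p) (sq_nonneg q))]

lemma north_mem_line (p q e : ℝ) : (!₂[0, 0, 1] : E3) ∈ line p q e := by
  rw [mem_line]
  simp

lemma line_ne_circ (p q e a b r : ℝ) : line p q e ≠ circ a b r := by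
  intro h
  have h1 := north_mem_line p q e
  rw [h] at h1
  exact circ_ne h1 (by simp)

lemma circ_nonempty {a b r : ℝ} : (circ a b r).Nonempty :=
  ⟨pt a b (r ^ 2), pt_circ (sq_nonneg r) (by ring)⟩

lemma line_nonempty {p q e : ℝ} : (line p q e).Nonempty := ⟨_, north_mem_line p q e⟩

/-! ### the family -/

/-- All rational circles, all rational lines, and the line `x = lam`. -/
def fam3 (lam : ℝ) : Set (Set E3) :=
  {S | (∃ a b r : ℚ, 0 < r ∧ S = circ a b r) ∨ (∃ p q e : ℚ, 0 < p ^ 2 + q ^ 2 ∧ S = line p q e) ∨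
    S = line 1 0 lam}

lemma fam3_countable (lam : ℝ) : (fam3 lam).Countable := by
  have h : fam3 lam ⊆ Set.range (fun t : ℚ × ℚ × ℚ => circ t.1 t.2.1 t.2.2) ∪
      (Set.range (fun t : ℚ × ℚ × ℚ => line t.1 t.2.1 t.2.2) ∪ {line 1 0 lam}) := by
    rintro S (⟨a, b, r, _, rfl⟩ | ⟨p, q, e, _, rfl⟩ | rfl)
    · left; exact ⟨(a, b, r), rfl⟩
    · right; left; exact ⟨(p, q, e), rfl⟩
    · right; right; rfl
  exact ((Set.countable_range _).union ((Set.countable_range _).union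
    (Set.countable_singleton _))).mono h

lemma line_mem_discs {p q e : ℝ} (h : 0 < p ^ 2 + q ^ 2) : line p q e ∈ discs 2 := by
  refine ⟨!₂[p, q, e], e, ?_, rfl⟩
  intro h0
  have h1 : (!₂[p, q, e] : E3) 0 = 0 := by rw [h0]; rfl
  have h2 : (!₂[p, q, e] : E3) 1 = 0 := by rw [h0]; rfl
  simp at h1 h2
  rw [h1, h2] at h
  norm_num at h

lemma circ_mem_discs (a b r : ℝ) : circ a b r ∈ discs 2 := by
  refine ⟨!₂[-2 * a, -2 * b, 1 - (a ^ 2 + b ^ 2 - r ^ 2)], -(1 + (a ^ 2 + b ^ 2 - r ^ 2)), ?_, rfl⟩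
  intro h0
  have h1 : (!₂[-2 * a, -2 * b, 1 - (a ^ 2 + b ^ 2 - r ^ 2)] : E3) 0 = 0 := by rw [h0]; rfl
  have h2 : (!₂[-2 * a, -2 * b, 1 - (a ^ 2 + b ^ 2 - r ^ 2)] : E3) 1 = 0 := by rw [h0]; rfl
  have h3 : (!₂[-2 * a, -2 * b, 1 - (a ^ 2 + b ^ 2 - r ^ 2)] : E3) 2 = 0 := by rw [h0]; rfl
  simp at h1 h2 h3
  rw [h1, h2] at h3
  nlinarith [sq_nonneg r]

lemma fam3_discs (lam : ℝ) : fam3 lam ⊆ discs 2 := by
  rintro S (⟨a, b, r, _, rfl⟩ | ⟨p, q, e, h, rfl⟩ | rfl)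
  · exact circ_mem_discs _ _ _
  · exact line_mem_discs (by exact_mod_cast h)
  · exact line_mem_discs (by norm_num)

/-- A realisation of the intersection graph of `fam3 lam` by plane sections of the ball. -/
structure Rz (lam : ℝ) (Φ : Set E3 → Set E3) : Prop where
  isSec : ∀ A ∈ fam3 lam, ∃ (n : E3) (c : ℝ), n ≠ 0 ∧ Φ A = sec n c
  inj : ∀ A ∈ fam3 lam, ∀ B ∈ fam3 lam, A ≠ B → Φ A ≠ Φ B
  meet : ∀ A ∈ fam3 lam, ∀ B ∈ fam3 lam, A ≠ B → (A ∩ B).Nonempty → (Φ A ∩ Φ B).Nonempty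
  disj : ∀ A ∈ fam3 lam, ∀ B ∈ fam3 lam, A ≠ B → ¬ (A ∩ B).Nonempty → ¬ (Φ A ∩ Φ B).Nonempty

end Pool.Agent.V11167.Sph
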