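import Mathlib
import Pool.Agent.V11167.SphC

/-! Realisations: basic facts and beads. -/

namespace Pool.Agent.V11167.Sph

open Filter Topology

variable {lam : ℝ} {Φ : Set E3 → Set E3}

lemma circ_fam (lam : ℝ) (a b r : ℚ) (hr : 0 < r) : circ (a : ℝ) (b : ℝ) (r : ℝ) ∈ fam3 lam :=
  Or.inl ⟨a, b, r, hr, rfl⟩

lemma line_fam (lam : ℝ) (p q e : ℚ) (h : 0 < p ^ 2 + q ^ 2) :
    line (p : ℝ) (q : ℝ) (e : ℝ) ∈ fam3 lam := Or.inr (Or.inl ⟨p, q, e, h, rfl⟩)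

lemma lam_fam (lam : ℝ) : line 1 0 lam ∈ fam3 lam := Or.inr (Or.inr rfl)

lemma fam_nonempty {A : Set E3} (hA : A ∈ fam3 lam) : A.Nonempty := by
  rcases hA with ⟨a, b, r, _, rfl⟩ | ⟨p, q, e, _, rfl⟩ | rfl
  · exact circ_nonempty
  · exact line_nonempty
  · exact line_nonempty

lemma Rz.nonempty (R : Rz lam Φ) (hl0 : 0 < lam) (hl1 : lam < 1) {A : Set E3} (hA : A ∈ fam3 lam) :
    (Φ A).Nonempty := by
  have hA' := hA
  rcases hA with ⟨a, b, r, hr, rfl⟩ | ⟨p, q, e, h, rfl⟩ | rfl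
  · have h1 := R.meet _ hA' _ (line_fam lam 1 0 a (by norm_num)) (line_ne_circ _ _ _ _ _ _).symm
      (by rw [Set.inter_comm]
          apply lc_meet
          · norm_num
          · push_cast
            have : (0 : ℝ) ≤ (r : ℝ) ^ 2 := sq_nonneg _
            nlinarith)
    exact h1.mono Set.inter_subset_left
  · have hN : (0 : ℝ) < (p : ℝ) ^ 2 + (q : ℝ) ^ 2 := by exact_mod_cast h
    have h1 := R.meet _ hA' _ (circ_fam lam (p * e / (p ^ 2 + q ^ 2)) (q * e / (p ^ 2 + q ^ 2)) 1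
      (by norm_num)) (line_ne_circ _ _ _ _ _ _)
      (by apply lc_meet hN
          push_cast
          have : (p : ℝ) * (p * e / (p ^ 2 + q ^ 2)) + q * (q * e / (p ^ 2 + q ^ 2)) - e = 0 := by
            field_simp; ring
          rw [this, zero_pow (by norm_num)]
          positivity)
    exact h1.mono Set.inter_subset_left
  · have h1 := R.meet _ hA' _ (circ_fam lam 0 0 1 (by norm_num)) (line_ne_circ _ _ _ _ _ _)
      (by apply lc_meet
          · norm_num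
          · push_cast
            nlinarith)
    exact h1.mono Set.inter_subset_left

lemma Rz.meet' (R : Rz lam Φ) (hl0 : 0 < lam) (hl1 : lam < 1) {A B : Set E3} (hA : A ∈ fam3 lam)
    (hB : B ∈ fam3 lam) (h : (A ∩ B).Nonempty) : (Φ A ∩ Φ B).Nonempty := by
  by_cases hAB : A = B
  · subst hAB; rw [Set.inter_self]; exact R.nonempty hl0 hl1 hA
  · exact R.meet A hA B hB hAB h

lemma Rz.disj' (R : Rz lam Φ) {A B : Set E3} (hA : A ∈ fam3 lam)
    (hB : B ∈ fam3 lam) (h : ¬ (A ∩ B).Nonempty) : ¬ (Φ A ∩ Φ B).Nonempty := by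
  have hAB : A ≠ B := by
    rintro rfl
    rw [Set.inter_self] at h
    exact h (fam_nonempty hA)
  exact R.disj A hA B hB hAB h

lemma Rz.normal (R : Rz lam Φ) (hl0 : 0 < lam) (hl1 : lam < 1) {A : Set E3} (hA : A ∈ fam3 lam) :
    ∃ (n : E3) (h : ℝ), ‖n‖ = 1 ∧ 0 ≤ h ∧ h ≤ 1 ∧ Φ A = sec n h := by
  obtain ⟨n, c, hn, hs⟩ := R.isSec A hA
  obtain ⟨n', h, hn', h0, hs'⟩ := exists_normal hn c
  refine ⟨n', h, hn', h0, ?_, hs.trans hs'⟩
  have := R.nonempty hl0 hl1 hA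
  rw [hs, hs'] at this
  exact height_le_one hn' this

lemma Rz.sub (R : Rz lam Φ) {A : Set E3} (hA : A ∈ fam3 lam) :
    Φ A ⊆ Metric.closedBall 0 1 := by
  obtain ⟨n, c, hn, hs⟩ := R.isSec A hA
  rw [hs]; exact sec_sub_ball _ _

lemma Rz.convex (R : Rz lam Φ) {A : Set E3} (hA : A ∈ fam3 lam) : Convex ℝ (Φ A) := by
  obtain ⟨n, c, hn, hs⟩ := R.isSec A hA
  rw [hs]; exact sec_convex _ _

lemma Rz.cpt (R : Rz lam Φ) {A : Set E3} (hA : A ∈ fam3 lam) : IsCompact (Φ A) := by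
  obtain ⟨n, c, hn, hs⟩ := R.isSec A hA
  rw [hs]; exact sec_isCompact _ _

lemma real_aux {u v r R : ℝ} (hr : 0 < r) (hu : r < |u|) (hv : r < |v|) (hR : R = |u - v| / 2) :
    ¬ ((R - r) ^ 2 ≤ ((u + v) / 2) ^ 2 ∧ ((u + v) / 2) ^ 2 ≤ (R + r) ^ 2) := by
  rintro ⟨h1, h2⟩
  have a1 := mul_pos (sub_pos.mpr hu) (sub_pos.mpr hv)
  have a2 := mul_pos (sub_pos.mpr hu) hr
  have a3 := mul_pos (sub_pos.mpr hv) hr
  rw [hR] at h1 h2
  rcases abs_cases u with ⟨e1, f1⟩ | ⟨e1, f1⟩ <;> rcases abs_cases v with ⟨e2, f2⟩ | ⟨e2, f2⟩ <;>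
    rcases abs_cases (u - v) with ⟨e3, f3⟩ | ⟨e3, f3⟩ <;>
    rw [e3] at h1 h2 <;> rw [e1] at a1 a2 <;> rw [e2] at a1 a3 <;> nlinarith

/-- the `k`-th bead -/
noncomputable def bd (x0 y0 dx dy : ℚ) (p r : ℕ → ℚ) (k : ℕ) : Set E3 :=
  circ ((x0 + dx * p k : ℚ) : ℝ) ((y0 + dy * p k : ℚ) : ℝ) ((r k : ℚ) : ℝ)

lemma bd_fam (lam : ℝ) (x0 y0 dx dy : ℚ) (p r : ℕ → ℚ) (k : ℕ) (hr : 0 < r k) :
    bd x0 y0 dx dy p r k ∈ fam3 lam := circ_fam _ _ _ _ hr

lemma bd_disj {x0 y0 dx dy ℓ : ℚ} (_hℓ : 0 < ℓ) (hl : ℓ ^ 2 = dx ^ 2 + dy ^ 2) {p r : ℕ → ℚ}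
    (hr : ∀ k, 0 < r k) (hsep : ∀ i j, i ≠ j → r i + r j < ℓ * |p i - p j|) {i j : ℕ} (hij : i ≠ j) :
    ¬ (bd x0 y0 dx dy p r i ∩ bd x0 y0 dx dy p r j).Nonempty := by
  intro h
  have h1 := (cc_of_meet (by exact_mod_cast (hr i).le) (by exact_mod_cast (hr j).le) h).2
  have h2 : (((x0 + dx * p i : ℚ) : ℝ) - ((x0 + dx * p j : ℚ) : ℝ)) ^ 2 +
      (((y0 + dy * p i : ℚ) : ℝ) - ((y0 + dy * p j : ℚ) : ℝ)) ^ 2 =
      (((ℓ * |p i - p j| : ℚ)) : ℝ) ^ 2 := by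
    have e : (x0 + dx * p i - (x0 + dx * p j)) ^ 2 + (y0 + dy * p i - (y0 + dy * p j)) ^ 2 =
        (ℓ * |p i - p j|) ^ 2 := by
      rw [mul_pow, sq_abs, hl]; ring
    exact_mod_cast e
  rw [h2] at h1
  have h3 : (((r i + r j : ℚ)) : ℝ) < ((ℓ * |p i - p j| : ℚ) : ℝ) := by exact_mod_cast hsep i j hij
  have h4 : (0 : ℝ) < ((r i + r j : ℚ) : ℝ) := by
    exact_mod_cast add_pos (hr i) (hr j)
  have h5 : (((r i : ℚ) : ℝ) + ((r j : ℚ) : ℝ)) = ((r i + r j : ℚ) : ℝ) := by push_cast; ring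
  rw [h5] at h1
  nlinarith

lemma Rz.beads (R : Rz lam Φ) (hl0 : 0 < lam) (hl1 : lam < 1) {x0 y0 dx dy ℓ : ℚ} (hℓ : 0 < ℓ)
    (hl : ℓ ^ 2 = dx ^ 2 + dy ^ 2) {p r : ℕ → ℚ}
    (hr : ∀ k, 0 < r k) (hsep : ∀ i j, i ≠ j → r i + r j < ℓ * |p i - p j|) :
    ∃ n : ℕ → E3, (∀ k, ‖n k‖ = 1) ∧
      ∀ ε > 0, ∀ᶠ k in atTop, ∀ x ∈ Φ (bd x0 y0 dx dy p r k), ‖x - n k‖ < ε := by
  choose n h hn h0 h1 hs using fun k =>
    R.normal hl0 hl1 (bd_fam lam x0 y0 dx dy p r k (hr k))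
  refine ⟨n, hn, ?_⟩
  have key := bead n h hn h0 (fun k => by
      rw [← hs k]; exact R.nonempty hl0 hl1 (bd_fam lam x0 y0 dx dy p r k (hr k)))
    (fun i j hij => by
      rw [← hs i, ← hs j]
      exact R.disj' (bd_fam lam x0 y0 dx dy p r i (hr i)) (bd_fam lam x0 y0 dx dy p r j (hr j))
        (bd_disj hℓ hl hr hsep hij))
    (by
      intro i j l hij hil hjl
      have hRpos : 0 < ℓ * |p j - p l| / 2 := by
        have := hsep j l hjl
        have := hr j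
        have := hr l
        linarith
      set Z : Set E3 := circ ((x0 + dx * ((p j + p l) / 2) : ℚ) : ℝ)
        ((y0 + dy * ((p j + p l) / 2) : ℚ) : ℝ) ((ℓ * |p j - p l| / 2 : ℚ) : ℝ) with hZ
      have hZf : Z ∈ fam3 lam := circ_fam _ _ _ _ hRpos
      have hsq : (ℓ * |p j - p l| / 2) ^ 2 = (dx ^ 2 + dy ^ 2) * (p j - p l) ^ 2 / 4 := by
        rw [div_pow, mul_pow, sq_abs, hl]; ring
      have meetaux : ∀ m : ℕ, (m = j ∨ m = l) → (Z ∩ bd x0 y0 dx dy p r m).Nonempty := by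
        intro m hm
        have hDq : (x0 + dx * ((p j + p l) / 2) - (x0 + dx * p m)) ^ 2 +
            (y0 + dy * ((p j + p l) / 2) - (y0 + dy * p m)) ^ 2 = (ℓ * |p j - p l| / 2) ^ 2 := by
          rw [hsq]
          rcases hm with rfl | rfl <;> ring
        have hDr : (((x0 + dx * ((p j + p l) / 2) : ℚ) : ℝ) - ((x0 + dx * p m : ℚ) : ℝ)) ^ 2 +
            (((y0 + dy * ((p j + p l) / 2) : ℚ) : ℝ) - ((y0 + dy * p m : ℚ) : ℝ)) ^ 2 =
            ((ℓ * |p j - p l| / 2 : ℚ) : ℝ) ^ 2 := by exact_mod_cast hDq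
        have hRr : (0 : ℝ) < ((ℓ * |p j - p l| / 2 : ℚ) : ℝ) := by exact_mod_cast hRpos
        have hrm : (0 : ℝ) < ((r m : ℚ) : ℝ) := by exact_mod_cast hr m
        have hle : ((r m : ℚ) : ℝ) ≤ 2 * ((ℓ * |p j - p l| / 2 : ℚ) : ℝ) := by
          have : r m ≤ 2 * (ℓ * |p j - p l| / 2) := by
            have h1 := hsep j l hjl
            have h2 := hr j
            have h3 := hr l
            rcases hm with rfl | rfl <;> linarith
          exact_mod_cast this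
        apply cc_meet
        · rw [hDr]; positivity
        · rw [hDr]; nlinarith
        · rw [hDr]; nlinarith
      refine ⟨Φ Z, R.convex hZf, R.sub hZf, ?_, ?_, ?_⟩
      · rw [← hs j]
        exact R.meet' hl0 hl1 hZf (bd_fam lam x0 y0 dx dy p r j (hr j)) (meetaux j (Or.inl rfl))
      · rw [← hs l]
        exact R.meet' hl0 hl1 hZf (bd_fam lam x0 y0 dx dy p r l (hr l)) (meetaux l (Or.inr rfl))
      · rw [← hs i]
        refine R.disj' hZf (bd_fam lam x0 y0 dx dy p r i (hr i)) ?_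
        intro hm
        have h2 := cc_of_meet (by exact_mod_cast hRpos.le) (by exact_mod_cast (hr i).le) hm
        have hui : r i < |ℓ * (p i - p j)| := by
          rw [abs_mul, abs_of_pos hℓ]
          have h1 := hsep i j hij
          have h3 := hr j
          linarith
        have hvi : r i < |ℓ * (p i - p l)| := by
          rw [abs_mul, abs_of_pos hℓ]
          have h1 := hsep i l hil
          have h3 := hr l
          linarith
        have hDq : (x0 + dx * ((p j + p l) / 2) - (x0 + dx * p i)) ^ 2 +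
            (y0 + dy * ((p j + p l) / 2) - (y0 + dy * p i)) ^ 2 =
            ((ℓ * (p i - p j) + ℓ * (p i - p l)) / 2) ^ 2 := by
          have : ((ℓ * (p i - p j) + ℓ * (p i - p l)) / 2) ^ 2 =
            ℓ ^ 2 * ((p i - p j + (p i - p l)) / 2) ^ 2 := by ring
          rw [this, hl]; ring
        have hDr : (((x0 + dx * ((p j + p l) / 2) : ℚ) : ℝ) - ((x0 + dx * p i : ℚ) : ℝ)) ^ 2 +
            (((y0 + dy * ((p j + p l) / 2) : ℚ) : ℝ) - ((y0 + dy * p i : ℚ) : ℝ)) ^ 2 =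
            ((((ℓ * (p i - p j) : ℚ) : ℝ) + ((ℓ * (p i - p l) : ℚ) : ℝ)) / 2) ^ 2 := by
          exact_mod_cast hDq
        rw [hDr] at h2
        refine real_aux (u := ((ℓ * (p i - p j) : ℚ) : ℝ)) (v := ((ℓ * (p i - p l) : ℚ) : ℝ))
          (r := ((r i : ℚ) : ℝ)) (by exact_mod_cast hr i) (by exact_mod_cast hui)
          (by exact_mod_cast hvi) ?_ h2
        have : ℓ * |p j - p l| / 2 = |ℓ * (p i - p j) - ℓ * (p i - p l)| / 2 := by
          have e : ℓ * (p i - p j) - ℓ * (p i - p l) = ℓ * -(p j - p l) := by ring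
          rw [e, abs_mul, abs_neg, abs_of_pos hℓ]
        exact_mod_cast this)
  intro ε hε
  filter_upwards [key (1 - ε ^ 2 / 2) (by nlinarith)] with k hk x hx
  rw [hs k] at hx
  exact sec_near (hn k) hε hk hx

end Pool.Agent.V11167.Sph
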