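import Mathlib
import Pool.Agent.V11167.SphD

/-! Projective coordinates, the point `P`, directions. -/

namespace Pool.Agent.V11167.Sph

open Filter Topology

section abstract_part

variable {E : Type*} [NormedAddCommGroup E] [InnerProductSpace ℝ E]

/-- projective coordinate -/
noncomputable def Yc (P β z : E) : ℝ := inner ℝ β (z - P) / inner ℝ P (z - P)

/-- `S` is the section with coordinate `x`. -/
def Co (P β : E) (x : ℝ) (S : Set E) : Prop :=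
  ∀ z, ‖z‖ ≤ 1 → (z ∈ S ↔ inner ℝ β (z - P) = x * inner ℝ P (z - P))

lemma K_small [ProperSpace E] {P : E} (hP : ‖P‖ = 1) (K : ℕ → Set E)
    (hKB : ∀ k, K k ⊆ Metric.closedBall 0 1) (n : ℕ → E)
    (hn : ∀ ε > 0, ∀ᶠ k in atTop, ∀ x ∈ K k, ‖x - n k‖ < ε) (N : Set E) (hNc : IsCompact N)
    (hNB : N ⊆ Metric.closedBall 0 1) (hPN : P ∉ N) (hm : ∀ k, (K k ∩ N).Nonempty) (β : E) :
    ∀ ε > 0, ∀ᶠ k in atTop, (∀ z ∈ K k, z ≠ P) ∧
      ∀ z ∈ K k, ∀ z' ∈ K k, |Yc P β z - Yc P β z'| < ε := by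
  intro ε hε
  obtain ⟨z0, -, hz0⟩ := hm 0
  obtain ⟨zs, hzs, hmax⟩ := hNc.exists_isMaxOn ⟨z0, hz0⟩
    (f := fun z => inner ℝ P (z - P)) (by fun_prop)
  have hneg : inner ℝ P (zs - P) < 0 := inner_sub_neg hP (by simpa using hNB hzs)
    (fun h => hPN (h ▸ hzs))
  set δ0 := -inner ℝ P (zs - P) with hδ0
  have hδ0' : 0 < δ0 := by linarith
  set C : Set E := Metric.closedBall 0 1 ∩ {z | inner ℝ P (z - P) ≤ -δ0 / 2} with hC
  have hCc : IsCompact C := by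
    apply (isCompact_closedBall (0 : E) 1).inter_right
    exact isClosed_le (by fun_prop) continuous_const
  have hcont : ContinuousOn (Yc P β) C := by
    unfold Yc
    apply ContinuousOn.div (by fun_prop) (by fun_prop)
    intro z hz
    have := hz.2
    simp only [Set.mem_ofPred_eq] at this
    linarith
  have huc := hCc.uniformContinuousOn_of_continuous hcont
  rw [Metric.uniformContinuousOn_iff] at huc
  obtain ⟨δ, hδ, hδ'⟩ := huc ε hε
  have hε' : 0 < min (δ / 2) (δ0 / 4) := by positivity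
  filter_upwards [hn _ hε'] with k hk
  obtain ⟨z4, hz4, hz4N⟩ := hm k
  have hsum : ∀ x ∈ K k, ∀ y ∈ K k, ‖x - y‖ < 2 * min (δ / 2) (δ0 / 4) := by
    intro x hx y hy
    have e : x - y = (x - n k) - (y - n k) := by abel
    rw [e]
    have := norm_sub_le (x - n k) (y - n k)
    have := hk x hx
    have := hk y hy
    linarith
  have hinC : ∀ x ∈ K k, x ∈ C := by
    intro x hx
    refine ⟨hKB k hx, ?_⟩
    show inner ℝ P (x - P) ≤ -δ0 / 2
    have e : x - P = (z4 - P) + (x - z4) := by abel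
    rw [e, inner_add_right]
    have h1 : inner ℝ P (z4 - P) ≤ -δ0 := by
      have := hmax hz4N
      simp only [Set.mem_ofPred_eq] at this
      linarith
    have h2 : inner ℝ P (x - z4) ≤ ‖x - z4‖ := by
      calc inner ℝ P (x - z4) ≤ ‖P‖ * ‖x - z4‖ := real_inner_le_norm _ _
        _ = ‖x - z4‖ := by rw [hP, one_mul]
    have h3 := hsum x hx z4 hz4
    have h4 := min_le_right (δ / 2) (δ0 / 4)
    linarith
  refine ⟨?_, ?_⟩
  · rintro z hz rfl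
    have h6 := (hinC _ hz).2
    simp only [sub_self, inner_zero_right, Set.mem_ofPred_eq] at h6
    linarith
  intro z hz z' hz'
  have h5 := hδ' z (hinC z hz) z' (hinC z' hz') (by
    rw [dist_eq_norm]
    have := hsum z hz z' hz'
    have := min_le_left (δ / 2) (δ0 / 4)
    linarith)
  rwa [Real.dist_eq] at h5

lemma Co.P_mem {P β : E} (hP : ‖P‖ = 1) {x : ℝ} {S : Set E} (h : Co P β x S) : P ∈ S := by
  rw [h P hP.le]; simp

lemma Co.yc {P β : E} (hP : ‖P‖ = 1) {x : ℝ} {S : Set E} (h : Co P β x S) {z : E} (hz : ‖z‖ ≤ 1)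
    (hzS : z ∈ S) (hne : z ≠ P) : Yc P β z = x := by
  have h1 := (h z hz).mp hzS
  have h2 := inner_sub_neg hP hz hne
  rw [Yc, h1]
  field_simp [h2.ne]

lemma test {P β : E} (hP : ‖P‖ = 1) {A C L : ℝ} {S3 T : Set E} (hT : Convex ℝ T)
    (hTB : T ⊆ Metric.closedBall 0 1) (h3 : Co P β C S3) (hd : ¬ (T ∩ S3).Nonempty)
    {z1 z2 : E} (hz1 : z1 ∈ T) (hz2 : z2 ∈ T)
    (e1 : inner ℝ β (z1 - P) = A * inner ℝ P (z1 - P))
    (e2 : inner ℝ β (z2 - P) = L * inner ℝ P (z2 - P)) : 0 < (A - C) * (L - C) := by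
  have hPS := h3.P_mem hP
  have n1 : z1 ≠ P := fun h => hd ⟨z1, hz1, h ▸ hPS⟩
  have n2 : z2 ≠ P := fun h => hd ⟨z2, hz2, h ▸ hPS⟩
  have b1 : ‖z1‖ ≤ 1 := by simpa using hTB hz1
  have b2 : ‖z2‖ ≤ 1 := by simpa using hTB hz2
  have d1 := inner_sub_neg hP b1 n1
  have d2 := inner_sub_neg hP b2 n2
  by_contra hcon
  push Not at hcon
  have f : ∀ z : E, inner ℝ (β - C • P) z - inner ℝ (β - C • P) P =
      inner ℝ β (z - P) - C * inner ℝ P (z - P) := by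
    intro z
    rw [← inner_sub_right, inner_sub_left, inner_smul_left]; simp
  obtain ⟨z, hz, hzc⟩ := convex_zero hT hz1 hz2 (β - C • P) (inner ℝ (β - C • P) P) (by
    rw [f, f, e1, e2]
    have : (A * inner ℝ P (z1 - P) - C * inner ℝ P (z1 - P)) *
      (L * inner ℝ P (z2 - P) - C * inner ℝ P (z2 - P)) =
      ((A - C) * (L - C)) * (inner ℝ P (z1 - P) * inner ℝ P (z2 - P)) := by ring
    rw [this]
    exact mul_nonpos_of_nonpos_of_nonneg hcon (mul_nonneg_of_nonpos_of_nonpos d1.le d2.le))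
  have hz' := f z
  rw [hzc, sub_self] at hz'
  exact hd ⟨z, hz, (h3 z (by simpa using hTB hz)).mpr (by linarith)⟩

end abstract_part

variable {lam : ℝ} {Φ : Set E3 → Set E3}

/-! ### The ladder `Y_k` -/

/-- positions of the ladder -/
def pY (k : ℕ) : ℚ := 64 ^ (k + 1)
/-- radii of the ladder -/
def rY (k : ℕ) : ℚ := 9 / 2 * 64 ^ (k + 1)

/-- ladder circles -/
noncomputable def Yb (k : ℕ) : Set E3 := bd 0 0 4 3 pY rY k

lemma rY_pos (k : ℕ) : 0 < rY k := by unfold rY; positivity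

lemma Yb_fam (lam : ℝ) (k : ℕ) : Yb k ∈ fam3 lam := bd_fam _ _ _ _ _ _ _ _ (rY_pos k)

lemma Yb_eq (k : ℕ) : Yb k = circ (4 * (64 : ℝ) ^ (k + 1)) (3 * (64 : ℝ) ^ (k + 1))
    (9 / 2 * (64 : ℝ) ^ (k + 1)) := by
  unfold Yb bd pY rY
  push_cast
  congr 1 <;> ring

lemma pow64 (k : ℕ) : (64 : ℝ) ≤ 64 ^ (k + 1) := by
  rw [pow_succ]
  have : (1 : ℝ) ≤ 64 ^ k := one_le_pow₀ (by norm_num)
  linarith

lemma sepY : ∀ i j, i ≠ j → rY i + rY j < 5 * |pY i - pY j| := by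
  have key : ∀ i j : ℕ, i < j → rY i + rY j < 5 * |pY i - pY j| := by
    intro i j hij
    unfold rY pY
    have h1 : (64 : ℚ) ^ (i + 1) * 64 ≤ 64 ^ (j + 1) := by
      rw [← pow_succ]
      exact pow_le_pow_right₀ (by norm_num) (by omega)
    have h2 : (0 : ℚ) < 64 ^ (i + 1) := by positivity
    rw [abs_of_nonpos (by linarith)]
    linarith
  intro i j hij
  rcases lt_or_gt_of_ne hij with h | h
  · exact key i j h
  · have := key j i h
    rw [abs_sub_comm] at this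
    linarith

lemma Yb_disj {i j : ℕ} (hij : i ≠ j) : ¬ (Yb i ∩ Yb j).Nonempty :=
  bd_disj (ℓ := 5) (by norm_num) (by norm_num) rY_pos sepY hij

lemma Rz.exists_P (R : Rz lam Φ) (hl0 : 0 < lam) (hl1 : lam < 1) :
    ∃ (P : E3) (φ : ℕ → ℕ), ‖P‖ = 1 ∧ StrictMono φ ∧
      ∀ ε > 0, ∀ᶠ k in atTop, ∀ x ∈ Φ (Yb (φ k)), ‖x - P‖ < ε := by
  obtain ⟨n, hn, hsm⟩ := R.beads hl0 hl1 (x0 := 0) (y0 := 0) (dx := 4) (dy := 3) (ℓ := 5)
    (by norm_num) (by norm_num) rY_pos sepY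
  obtain ⟨P, hP, φ, hφ, hlim⟩ := (isCompact_sphere (0 : E3) 1).tendsto_subseq (x := n)
    (fun k => by simp [hn])
  refine ⟨P, φ, by simpa using hP, hφ, ?_⟩
  intro ε hε
  have h1 := hφ.tendsto_atTop.eventually (hsm (ε / 2) (by linarith))
  have h2 := (Metric.tendsto_nhds.mp hlim) (ε / 2) (by linarith)
  filter_upwards [h1, h2] with k hk1 hk2 x hx
  have e : x - P = (x - n (φ k)) + (n (φ k) - P) := by abel
  rw [e]
  rw [Function.comp, dist_eq_norm] at hk2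
  have := hk1 x hx
  have := norm_add_le (x - n (φ k)) (n (φ k) - P)
  linarith

/-- Data attached to a realisation: the point `P` and the subsequence. -/
structure PData (Φ : Set E3 → Set E3) (P : E3) (φ : ℕ → ℕ) : Prop where
  norm : ‖P‖ = 1
  mono : StrictMono φ
  lim : ∀ ε > 0, ∀ᶠ k in atTop, ∀ x ∈ Φ (Yb (φ k)), ‖x - P‖ < ε

variable {P : E3} {φ : ℕ → ℕ}

lemma P_mem (R : Rz lam Φ) (hl0 : 0 < lam) (hl1 : lam < 1) (D : PData Φ P φ) {A : Set E3}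
    (hA : A ∈ fam3 lam) (h : ∀ k, (A ∩ Yb k).Nonempty) : P ∈ Φ A := by
  have h1 : ∀ k, (Φ A ∩ Φ (Yb (φ k))).Nonempty := fun k => R.meet' hl0 hl1 hA (Yb_fam _ _) (h _)
  choose x hx hx' using h1
  have hlim : Tendsto x atTop (𝓝 P) := by
    rw [Metric.tendsto_nhds]
    intro ε hε
    filter_upwards [D.lim ε hε] with k hk
    rw [dist_eq_norm]; exact hk _ (hx' k)
  exact (R.cpt hA).isClosed.mem_of_tendsto hlim (Eventually.of_forall hx)

lemma exists_ne_P (R : Rz lam Φ) (hl0 : 0 < lam) (hl1 : lam < 1) (P : E3) {A : Set E3}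
    (hA : A ∈ fam3 lam) (h : ∀ k, (A ∩ Yb k).Nonempty) : ∃ z ∈ Φ A, z ≠ P := by
  obtain ⟨x, hx, hx'⟩ := R.meet' hl0 hl1 hA (Yb_fam _ 0) (h 0)
  obtain ⟨y, hy, hy'⟩ := R.meet' hl0 hl1 hA (Yb_fam _ 1) (h 1)
  by_cases hxP : x = P
  · refine ⟨y, hy, ?_⟩
    rintro rfl
    subst hxP
    exact R.disj' (Yb_fam _ 0) (Yb_fam _ 1) (Yb_disj (by norm_num)) ⟨_, hx', hy'⟩
  · exact ⟨x, hx, hxP⟩

lemma dir (R : Rz lam Φ) (hl0 : 0 < lam) (hl1 : lam < 1) (D : PData Φ P φ) (A : ℕ → Set E3)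
    (hA : ∀ n, A n ∈ fam3 lam) (hm : ∀ k, ∀ᶠ n in atTop, (A n ∩ Yb k).Nonempty) :
    ∃ β : E3, (∀ t : ℝ, β ≠ t • P) ∧ ∀ L ∈ fam3 lam, (∀ k, (L ∩ Yb k).Nonempty) →
      (∀ n, ¬ (L ∩ A n).Nonempty) → ∀ (σ : E3) (c : ℝ), Φ L = sec σ c →
      ∃ x y : ℝ, y ≠ 0 ∧ β = x • P + y • σ := by
  choose α a hα h0 h1 hs using fun n => R.normal hl0 hl1 (hA n)
  obtain ⟨β, hβ, H⟩ := fam D.norm (fun k => Φ (Yb (φ k))) (fun k => R.cpt (Yb_fam _ _))
    (fun k => R.sub (Yb_fam _ _))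
    (fun i j hij => R.disj' (Yb_fam _ _) (Yb_fam _ _)
      (Yb_disj (fun h => hij (D.mono.injective h)))) D.lim α a hα h0 h1
    (by
      intro k
      filter_upwards [hm (φ k)] with n hn
      rw [← hs n]
      exact R.meet' hl0 hl1 (hA n) (Yb_fam _ _) hn)
  refine ⟨β, hβ, ?_⟩
  intro L hL hLY hLA σ c hσ
  refine H σ c ?_ ?_ ?_
  · rw [← hσ]; exact P_mem R hl0 hl1 D hL hLY
  · rw [← hσ]; exact exists_ne_P R hl0 hl1 P hL hLY
  · intro n
    rw [← hσ, ← hs n]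
    exact R.disj' hL (hA n) (hLA n)

lemma dir_co (R : Rz lam Φ) (hl0 : 0 < lam) (hl1 : lam < 1) (D : PData Φ P φ) {L : Set E3}
    (hL : L ∈ fam3 lam) (hLY : ∀ k, (L ∩ Yb k).Nonempty) {β : E3}
    (h : ∀ (σ : E3) (c : ℝ), Φ L = sec σ c → ∃ x y : ℝ, y ≠ 0 ∧ β = x • P + y • σ) :
    ∃ x : ℝ, Co P β x (Φ L) := by
  obtain ⟨σ, c, -, hs⟩ := R.isSec L hL
  obtain ⟨x, y, hy, hxy⟩ := h σ c hs
  refine ⟨x, fun z hz => ?_⟩
  have hPL := P_mem R hl0 hl1 D hL hLY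
  rw [hs] at hPL ⊢
  exact on_iff hPL hy hxy hz

end Pool.Agent.V11167.Sph
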