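import Mathlib
import Pool.Agent.V11167.SphF

/-! Explicit circles and lines. -/

namespace Pool.Agent.V11167.Sph

open Filter Topology

lemma V_Yb {s : ℝ} (h1 : -10 ≤ s) (h2 : s ≤ 10) (k : ℕ) : (line 1 0 s ∩ Yb k).Nonempty := by
  rw [Yb_eq]
  have hR := pow64 k
  set R : ℝ := 64 ^ (k + 1)
  apply lc_meet (by norm_num)
  have : (9 / 2 * R) ^ 2 * ((1 : ℝ) ^ 2 + 0 ^ 2) = (9 / 2 * R) ^ 2 := by ring
  rw [this]
  apply sq_le_sq'
  · linarith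
  · linarith

lemma H_Yb {s : ℝ} (h1 : -10 ≤ s) (h2 : s ≤ 10) (k : ℕ) : (line 0 1 s ∩ Yb k).Nonempty := by
  rw [Yb_eq]
  have hR := pow64 k
  set R : ℝ := 64 ^ (k + 1)
  apply lc_meet (by norm_num)
  have : (9 / 2 * R) ^ 2 * ((0 : ℝ) ^ 2 + 1 ^ 2) = (9 / 2 * R) ^ 2 := by ring
  rw [this]
  apply sq_le_sq'
  · linarith
  · linarith

lemma D_Yb {u : ℝ} (h1 : -90 ≤ u) (h2 : u ≤ 90) (k : ℕ) : (line 3 (-4) u ∩ Yb k).Nonempty := by
  rw [Yb_eq]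
  have hR := pow64 k
  set R : ℝ := 64 ^ (k + 1)
  apply lc_meet (by norm_num)
  have : (9 / 2 * R) ^ 2 * ((3 : ℝ) ^ 2 + (-4) ^ 2) = (45 / 2 * R) ^ 2 := by ring
  rw [this]
  apply sq_le_sq'
  · linarith
  · linarith

/-- circles accumulating at a vertical line -/
noncomputable def vA (n : ℕ) : Set E3 :=
  circ ((-20 - (n + 1) : ℚ) : ℝ) ((0 : ℚ) : ℝ) (((n : ℚ) + 1 : ℚ) : ℝ)
/-- circles accumulating at a horizontal line -/
noncomputable def hA (n : ℕ) : Set E3 :=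
  circ ((0 : ℚ) : ℝ) ((-20 - (n + 1) : ℚ) : ℝ) (((n : ℚ) + 1 : ℚ) : ℝ)
/-- circles accumulating at an oblique line -/
noncomputable def dA (n : ℕ) : Set E3 :=
  circ ((-3 * (20 + (n + 1)) / 5 : ℚ) : ℝ) ((4 * (20 + (n + 1)) / 5 : ℚ) : ℝ) (((n : ℚ) + 1 : ℚ) : ℝ)

lemma vA_fam (lam : ℝ) (n : ℕ) : vA n ∈ fam3 lam := circ_fam _ _ _ _ (by positivity)
lemma hA_fam (lam : ℝ) (n : ℕ) : hA n ∈ fam3 lam := circ_fam _ _ _ _ (by positivity)
lemma dA_fam (lam : ℝ) (n : ℕ) : dA n ∈ fam3 lam := circ_fam _ _ _ _ (by positivity)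

lemma vA_V {s : ℝ} (h1 : -10 ≤ s) (n : ℕ) : ¬ (line 1 0 s ∩ vA n).Nonempty := by
  intro h
  have h2 := lc_of_meet h
  push_cast at h2
  have hn : (0 : ℝ) ≤ n := Nat.cast_nonneg n
  nlinarith

lemma hA_H {s : ℝ} (h1 : -10 ≤ s) (n : ℕ) : ¬ (line 0 1 s ∩ hA n).Nonempty := by
  intro h
  have h2 := lc_of_meet h
  push_cast at h2
  have hn : (0 : ℝ) ≤ n := Nat.cast_nonneg n
  nlinarith

lemma dA_D {u : ℝ} (h1 : -90 ≤ u) (n : ℕ) : ¬ (line 3 (-4) u ∩ dA n).Nonempty := by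
  intro h
  have h2 := lc_of_meet h
  push_cast at h2
  have hn : (0 : ℝ) ≤ n := Nat.cast_nonneg n
  have e : 3 * (-3 * (20 + ((n : ℝ) + 1)) / 5) + -4 * (4 * (20 + ((n : ℝ) + 1)) / 5) - u =
    -(5 * ((n : ℝ) + 1) + 100 + u) := by ring
  rw [e] at h2
  nlinarith

lemma vA_Yb (k : ℕ) : ∀ᶠ n in atTop, (vA n ∩ Yb k).Nonempty := by
  have hR := pow64 k
  have hev : ∀ᶠ n : ℕ in atTop, 5 * ((64 : ℝ) ^ (k + 1)) ^ 2 + 200 * 64 ^ (k + 1) + 400 ≤ (n : ℝ) :=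
    tendsto_natCast_atTop_atTop.eventually_ge_atTop _
  filter_upwards [hev] with n hn
  rw [Yb_eq]
  set R : ℝ := 64 ^ (k + 1)
  unfold vA
  push_cast
  have hm : 0 ≤ ((n : ℝ) + 1) * (R - 41) := by
    apply mul_nonneg <;> [positivity; linarith]
  have hRR : 0 ≤ R ^ 2 := sq_nonneg R
  apply cc_meet
  · nlinarith
  · nlinarith
  · nlinarith

lemma hA_Yb (k : ℕ) : ∀ᶠ n in atTop, (hA n ∩ Yb k).Nonempty := by
  have hR := pow64 k
  have hev : ∀ᶠ n : ℕ in atTop, 5 * ((64 : ℝ) ^ (k + 1)) ^ 2 + 200 * 64 ^ (k + 1) + 400 ≤ (n : ℝ) :=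
    tendsto_natCast_atTop_atTop.eventually_ge_atTop _
  filter_upwards [hev] with n hn
  rw [Yb_eq]
  set R : ℝ := 64 ^ (k + 1)
  unfold hA
  push_cast
  have hm : 0 ≤ ((n : ℝ) + 1) * (R - 41) := by
    apply mul_nonneg <;> [positivity; linarith]
  have hm2 : 0 ≤ ((n : ℝ) + 1) * R := by positivity
  have hRR : 0 ≤ R ^ 2 := sq_nonneg R
  apply cc_meet
  · nlinarith
  · nlinarith
  · nlinarith

lemma dA_Yb (k : ℕ) : ∀ᶠ n in atTop, (dA n ∩ Yb k).Nonempty := by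
  have hR := pow64 k
  have hev : ∀ᶠ n : ℕ in atTop, 5 * ((64 : ℝ) ^ (k + 1)) ^ 2 + 200 * 64 ^ (k + 1) + 400 ≤ (n : ℝ) :=
    tendsto_natCast_atTop_atTop.eventually_ge_atTop _
  filter_upwards [hev] with n hn
  rw [Yb_eq]
  set R : ℝ := 64 ^ (k + 1)
  unfold dA
  push_cast
  have hm : 0 ≤ ((n : ℝ) + 1) * (R - 41) := by
    apply mul_nonneg <;> [positivity; linarith]
  have hm2 : 0 ≤ ((n : ℝ) + 1) * R := by positivity
  have hRR : 0 ≤ R ^ 2 := sq_nonneg R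
  apply cc_meet
  · nlinarith
  · nlinarith
  · nlinarith

/-! ### small beads -/

/-- positions of the small beads -/
def pK (k : ℕ) : ℚ := (1 / 2) ^ k
/-- radii of the small beads -/
def rK (k : ℕ) : ℚ := (1 / 2) ^ k / 8

lemma pK_pos (k : ℕ) : 0 < pK k := by unfold pK; positivity
lemma pK_le (k : ℕ) : pK k ≤ 1 := by
  unfold pK
  exact pow_le_one₀ (by norm_num) (by norm_num)
lemma rK_pos (k : ℕ) : 0 < rK k := by unfold rK; positivity
lemma rK_eq (k : ℕ) : rK k = pK k / 8 := rfl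

lemma sepK : ∀ i j, i ≠ j → rK i + rK j < 1 * |pK i - pK j| := by
  have key : ∀ i j : ℕ, i < j → rK i + rK j < 1 * |pK i - pK j| := by
    intro i j hij
    rw [rK_eq, rK_eq]
    have h1 : pK j ≤ pK i * (1 / 2) := by
      unfold pK
      rw [← pow_succ]
      exact pow_le_pow_of_le_one (by norm_num) (by norm_num) (by omega)
    have h2 := pK_pos i
    rw [abs_of_nonneg (by linarith)]
    linarith
  intro i j hij
  rcases lt_or_gt_of_ne hij with h | h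
  · exact key i j h
  · have := key j i h
    rw [abs_sub_comm] at this
    linarith

lemma center_meet {p q e a b r : ℝ} (hN : 0 < p ^ 2 + q ^ 2) (h : p * a + q * b = e) :
    (line p q e ∩ circ a b r).Nonempty := by
  apply lc_meet hN
  rw [h, sub_self, zero_pow (by norm_num)]
  positivity

lemma N_meet_v (s τ : ℚ) (k : ℕ) :
    (bd s τ 0 1 pK rK k ∩ circ ((s - 8 : ℚ) : ℝ) ((τ : ℚ) : ℝ) ((8 : ℚ) : ℝ)).Nonempty := by
  unfold bd
  have h1 : (0 : ℝ) < ((pK k : ℚ) : ℝ) := by exact_mod_cast pK_pos k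
  have h2 : ((pK k : ℚ) : ℝ) ≤ 1 := by exact_mod_cast pK_le k
  rw [rK_eq]
  push_cast
  apply cc_meet
  · nlinarith
  · nlinarith
  · nlinarith

lemma N_meet_h (s τ : ℚ) (k : ℕ) :
    (bd s τ 1 0 pK rK k ∩ circ ((s : ℚ) : ℝ) ((τ - 8 : ℚ) : ℝ) ((8 : ℚ) : ℝ)).Nonempty := by
  unfold bd
  have h1 : (0 : ℝ) < ((pK k : ℚ) : ℝ) := by exact_mod_cast pK_pos k
  have h2 : ((pK k : ℚ) : ℝ) ≤ 1 := by exact_mod_cast pK_le k
  rw [rK_eq]
  push_cast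
  apply cc_meet
  · nlinarith
  · nlinarith
  · nlinarith

/-- vertical line -/
noncomputable def VL (s : ℚ) : Set E3 := line 1 0 (s : ℝ)
/-- horizontal line -/
noncomputable def HL (s : ℚ) : Set E3 := line 0 1 (s : ℝ)
/-- oblique line -/
noncomputable def DL (s : ℚ) : Set E3 := line 3 (-4) (s : ℝ)

lemma VL_fam (lam : ℝ) (s : ℚ) : VL s ∈ fam3 lam := by
  have := line_fam lam 1 0 s (by norm_num)
  unfold VL
  exact_mod_cast this
lemma HL_fam (lam : ℝ) (s : ℚ) : HL s ∈ fam3 lam := by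
  have := line_fam lam 0 1 s (by norm_num)
  unfold HL
  exact_mod_cast this
lemma DL_fam (lam : ℝ) (s : ℚ) : DL s ∈ fam3 lam := by
  have := line_fam lam 3 (-4) s (by norm_num)
  unfold DL
  exact_mod_cast this

lemma N_disj_v (s τ : ℚ) :
    ¬ (circ ((s - 8 : ℚ) : ℝ) ((τ : ℚ) : ℝ) ((8 : ℚ) : ℝ) ∩ VL (s + 1)).Nonempty := by
  rw [Set.inter_comm]
  intro h
  have h2 := lc_of_meet h
  push_cast at h2
  nlinarith

lemma N_disj_h (s τ : ℚ) :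
    ¬ (circ ((s : ℚ) : ℝ) ((τ - 8 : ℚ) : ℝ) ((8 : ℚ) : ℝ) ∩ HL (τ + 1)).Nonempty := by
  rw [Set.inter_comm]
  intro h
  have h2 := lc_of_meet h
  push_cast at h2
  nlinarith

lemma VL_ne {s t : ℝ} (h : s ≠ t) : line 1 0 s ≠ line 1 0 t := by
  intro he
  have h1 : pt s 0 0 ∈ line 1 0 s := (pt_line le_rfl).mpr (by ring)
  rw [he] at h1
  have h2 := (pt_line le_rfl).mp h1
  apply h; linarith

lemma HL_ne {s t : ℝ} (h : s ≠ t) : line 0 1 s ≠ line 0 1 t := by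
  intro he
  have h1 : pt 0 s 0 ∈ line 0 1 s := (pt_line le_rfl).mpr (by ring)
  rw [he] at h1
  have h2 := (pt_line le_rfl).mp h1
  apply h; linarith

end Pool.Agent.V11167.Sph
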