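import Mathlib
import Pool.Agent.V11167.SphG

/-! The main argument. -/

namespace Pool.Agent.V11167.Sph

open Filter Topology

lemma yc_rel {P β1 β2 β3 : E3} {p q r w : ℝ} (hP : ‖P‖ = 1)
    (h : p • β1 + q • β2 + r • β3 + w • P = 0) {z : E3} (hz : ‖z‖ ≤ 1) (hne : z ≠ P) :
    p * Yc P β1 z + q * Yc P β2 z + r * Yc P β3 z + w = 0 := by
  have h1 := inner_sub_neg hP hz hne
  have h2 : inner ℝ (p • β1 + q • β2 + r • β3 + w • P) (z - P) = 0 := by rw [h, inner_zero_left]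
  rw [inner_add_left, inner_add_left, inner_add_left, inner_smul_left, inner_smul_left,
    inner_smul_left, inner_smul_left] at h2
  simp only [conj_trivial] at h2
  unfold Yc
  have h3 := h1.ne
  field_simp
  linarith

/-- the approximate concurrency relation -/
lemma rel_lim {P β1 β2 β3 : E3} {p q r w : ℝ} (hP : ‖P‖ = 1)
    (h : p • β1 + q • β2 + r • β3 + w • P = 0) (K : ℕ → Set E3)
    (hKB : ∀ k, K k ⊆ Metric.closedBall 0 1) (n : ℕ → E3)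
    (hn : ∀ ε > 0, ∀ᶠ k in atTop, ∀ x ∈ K k, ‖x - n k‖ < ε) (N : Set E3) (hNc : IsCompact N)
    (hNB : N ⊆ Metric.closedBall 0 1) (hPN : P ∉ N) (hm : ∀ k, (K k ∩ N).Nonempty)
    (A B C : ℕ → ℝ) (SA SB SC : ℕ → Set E3)
    (cA : ∀ k, Co P β1 (A k) (SA k)) (cB : ∀ k, Co P β2 (B k) (SB k))
    (cC : ∀ k, Co P β3 (C k) (SC k))
    (mA : ∀ k, (K k ∩ SA k).Nonempty) (mB : ∀ k, (K k ∩ SB k).Nonempty)
    (mC : ∀ k, (K k ∩ SC k).Nonempty) :
    Tendsto (fun k => p * A k + q * B k + r * C k + w) atTop (𝓝 0) := by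
  rw [Metric.tendsto_nhds]
  intro ε hε
  have hpos : 0 < |q| + |r| + 1 := by positivity
  have hε' : 0 < ε / (|q| + |r| + 1) := by positivity
  filter_upwards [K_small hP K hKB n hn N hNc hNB hPN hm β2 _ hε',
    K_small hP K hKB n hn N hNc hNB hPN hm β3 _ hε'] with k hk2 hk3
  obtain ⟨z1, hz1, hz1'⟩ := mA k
  obtain ⟨z2, hz2, hz2'⟩ := mB k
  obtain ⟨z3, hz3, hz3'⟩ := mC k
  have b1 : ‖z1‖ ≤ 1 := by simpa using hKB k hz1
  have b2 : ‖z2‖ ≤ 1 := by simpa using hKB k hz2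
  have b3 : ‖z3‖ ≤ 1 := by simpa using hKB k hz3
  have e1 := (cA k).yc hP b1 hz1' (hk2.1 z1 hz1)
  have e2 := (cB k).yc hP b2 hz2' (hk2.1 z2 hz2)
  have e3 := (cC k).yc hP b3 hz3' (hk2.1 z3 hz3)
  have hrel := yc_rel hP h b1 (hk2.1 z1 hz1)
  have f2 := hk2.2 z2 hz2 z1 hz1
  have f3 := hk3.2 z3 hz3 z1 hz1
  rw [Real.dist_eq, sub_zero]
  have e : p * A k + q * B k + r * C k + w =
      q * (Yc P β2 z2 - Yc P β2 z1) + r * (Yc P β3 z3 - Yc P β3 z1) := by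
    rw [← e1, ← e2, ← e3]
    linear_combination hrel
  rw [e]
  calc |q * (Yc P β2 z2 - Yc P β2 z1) + r * (Yc P β3 z3 - Yc P β3 z1)|
      ≤ |q * (Yc P β2 z2 - Yc P β2 z1)| + |r * (Yc P β3 z3 - Yc P β3 z1)| := abs_add_le _ _
    _ = |q| * |Yc P β2 z2 - Yc P β2 z1| + |r| * |Yc P β3 z3 - Yc P β3 z1| := by
        rw [abs_mul, abs_mul]
    _ ≤ |q| * (ε / (|q| + |r| + 1)) + |r| * (ε / (|q| + |r| + 1)) := by
        gcongr
    _ < ε := by
        rw [← add_mul, ← mul_div_assoc, div_lt_iff₀ hpos]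
        nlinarith [abs_nonneg q, abs_nonneg r]

variable {lam : ℝ} {Φ : Set E3 → Set E3} {P : E3} {φ : ℕ → ℕ}

/-- Everything we need to know about a realisation. -/
lemma main_coords (R : Rz lam Φ) (hl0 : 0 < lam) (hl1 : lam < 1) (D : PData Φ P φ)
    (σ : E3) (c : ℝ) (hσ : Φ (VL 0) = sec σ c) :
    ∃ (βV βH βD : E3) (a b d : ℚ → ℝ) (al x0 y0 : ℝ),
      (∀ t : ℝ, βV ≠ t • P) ∧ (∀ t : ℝ, βH ≠ t • P) ∧ (∀ t : ℝ, βD ≠ t • P) ∧
      (∀ s : ℚ, -10 ≤ s → s ≤ 10 → Co P βV (a s) (Φ (VL s))) ∧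
      (∀ s : ℚ, -10 ≤ s → s ≤ 10 → Co P βH (b s) (Φ (HL s))) ∧
      (∀ s : ℚ, -90 ≤ s → s ≤ 90 → Co P βD (d s) (Φ (DL s))) ∧
      Co P βV al (Φ (line 1 0 lam)) ∧ y0 ≠ 0 ∧ βV = x0 • P + y0 • σ := by
  obtain ⟨βV, hV, HV⟩ := dir R hl0 hl1 D vA (vA_fam lam) vA_Yb
  obtain ⟨βH, hH, HH⟩ := dir R hl0 hl1 D hA (hA_fam lam) hA_Yb
  obtain ⟨βD, hD, HD⟩ := dir R hl0 hl1 D dA (dA_fam lam) dA_Yb
  have eV : ∀ s : ℚ, ∃ x : ℝ, -10 ≤ s → s ≤ 10 → Co P βV x (Φ (VL s)) := by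
    intro s
    by_cases h1 : -10 ≤ s
    · by_cases h2 : s ≤ 10
      · have g1 : (-10 : ℝ) ≤ s := by exact_mod_cast h1
        have g2 : (s : ℝ) ≤ 10 := by exact_mod_cast h2
        obtain ⟨x, hx⟩ := dir_co R hl0 hl1 D (VL_fam lam s) (V_Yb g1 g2)
          (HV _ (VL_fam lam s) (V_Yb g1 g2) (vA_V g1))
        exact ⟨x, fun _ _ => hx⟩
      · exact ⟨0, fun _ h => absurd h h2⟩
    · exact ⟨0, fun h => absurd h h1⟩
  have eH : ∀ s : ℚ, ∃ x : ℝ, -10 ≤ s → s ≤ 10 → Co P βH x (Φ (HL s)) := by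
    intro s
    by_cases h1 : -10 ≤ s
    · by_cases h2 : s ≤ 10
      · have g1 : (-10 : ℝ) ≤ s := by exact_mod_cast h1
        have g2 : (s : ℝ) ≤ 10 := by exact_mod_cast h2
        obtain ⟨x, hx⟩ := dir_co R hl0 hl1 D (HL_fam lam s) (H_Yb g1 g2)
          (HH _ (HL_fam lam s) (H_Yb g1 g2) (hA_H g1))
        exact ⟨x, fun _ _ => hx⟩
      · exact ⟨0, fun _ h => absurd h h2⟩
    · exact ⟨0, fun h => absurd h h1⟩
  have eD : ∀ s : ℚ, ∃ x : ℝ, -90 ≤ s → s ≤ 90 → Co P βD x (Φ (DL s)) := by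
    intro s
    by_cases h1 : -90 ≤ s
    · by_cases h2 : s ≤ 90
      · have g1 : (-90 : ℝ) ≤ s := by exact_mod_cast h1
        have g2 : (s : ℝ) ≤ 90 := by exact_mod_cast h2
        obtain ⟨x, hx⟩ := dir_co R hl0 hl1 D (DL_fam lam s) (D_Yb g1 g2)
          (HD _ (DL_fam lam s) (D_Yb g1 g2) (dA_D g1))
        exact ⟨x, fun _ _ => hx⟩
      · exact ⟨0, fun _ h => absurd h h2⟩
    · exact ⟨0, fun h => absurd h h1⟩
  choose a ha using eV
  choose b hb using eH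
  choose d hd using eD
  obtain ⟨al, hal⟩ := dir_co R hl0 hl1 D (lam_fam lam) (V_Yb (by linarith) (by linarith))
    (HV _ (lam_fam lam) (V_Yb (by linarith) (by linarith)) (vA_V (by linarith)))
  obtain ⟨x0, y0, hy0, hxy⟩ := HV _ (VL_fam lam 0) (V_Yb (by norm_num) (by norm_num))
    (vA_V (by norm_num)) σ c hσ
  exact ⟨βV, βH, βD, a, b, d, al, x0, y0, hV, hH, hD, ha, hb, hd, hal, hy0, hxy⟩

/-- linear dependence of four vectors in `ℝ³` -/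
lemma exists_rel (v1 v2 v3 v4 : E3) : ∃ p q r w : ℝ,
    p • v1 + q • v2 + r • v3 + w • v4 = 0 ∧ (p ≠ 0 ∨ q ≠ 0 ∨ r ≠ 0 ∨ w ≠ 0) := by
  have h : ¬ LinearIndependent ℝ ![v1, v2, v3, v4] := by
    intro h
    have := h.fintype_card_le_finrank
    rw [finrank_euclideanSpace_fin, Fintype.card_fin] at this
    omega
  rw [Fintype.not_linearIndependent_iff] at h
  obtain ⟨g, hg, i, hi⟩ := h
  refine ⟨g 0, g 1, g 2, g 3, ?_, ?_⟩
  · rw [Fin.sum_univ_four] at hg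
    simpa using hg
  · fin_cases i
    · left; simpa using hi
    · right; left; simpa using hi
    · right; right; left; simpa using hi
    · right; right; right; simpa using hi

/-- `P` is not on a section disjoint from a section through `P`. -/
lemma not_mem_of_disj {S T : Set E3} (h : ¬ (S ∩ T).Nonempty) (hT : P ∈ T) : P ∉ S :=
  fun hS => h ⟨P, hS, hT⟩

lemma rel_v (R : Rz lam Φ) (hl0 : 0 < lam) (hl1 : lam < 1) (hP : ‖P‖ = 1)
    {βV βH βD : E3} {a b d : ℚ → ℝ} {p q r w : ℝ}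
    (hrel : p • βV + q • βH + r • βD + w • P = 0)
    (ha : ∀ s : ℚ, -10 ≤ s → s ≤ 10 → Co P βV (a s) (Φ (VL s)))
    (hb : ∀ s : ℚ, -10 ≤ s → s ≤ 10 → Co P βH (b s) (Φ (HL s)))
    (hd : ∀ s : ℚ, -90 ≤ s → s ≤ 90 → Co P βD (d s) (Φ (DL s)))
    (s τ : ℚ) (hs0 : -5 ≤ s) (hs1 : s ≤ 5) (ht0 : -5 ≤ τ) (ht1 : τ ≤ 5) :
    Tendsto (fun k => p * a s + q * b (τ + pK k) + r * d (3 * s - 4 * (τ + pK k)) + w) atTop
      (𝓝 0) := by
  obtain ⟨n, -, hn⟩ := R.beads hl0 hl1 (x0 := s) (y0 := τ) (dx := 0) (dy := 1) (ℓ := 1)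
    (by norm_num) (by norm_num) rK_pos sepK
  have hKf : ∀ k, bd s τ 0 1 pK rK k ∈ fam3 lam := fun k => bd_fam _ _ _ _ _ _ _ _ (rK_pos k)
  have hNf : circ ((s - 8 : ℚ) : ℝ) ((τ : ℚ) : ℝ) ((8 : ℚ) : ℝ) ∈ fam3 lam :=
    circ_fam _ _ _ _ (by norm_num)
  refine rel_lim hP hrel (fun k => Φ (bd s τ 0 1 pK rK k)) (fun k => R.sub (hKf k)) n hn
    (Φ (circ ((s - 8 : ℚ) : ℝ) ((τ : ℚ) : ℝ) ((8 : ℚ) : ℝ))) (R.cpt hNf) (R.sub hNf) ?_
    (fun k => R.meet' hl0 hl1 (hKf k) hNf (N_meet_v s τ k))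
    (fun _ => a s) (fun k => b (τ + pK k)) (fun k => d (3 * s - 4 * (τ + pK k)))
    (fun _ => Φ (VL s)) (fun k => Φ (HL (τ + pK k))) (fun k => Φ (DL (3 * s - 4 * (τ + pK k))))
    (fun _ => ha s (by linarith) (by linarith)) (fun k => hb _ ?_ ?_) (fun k => hd _ ?_ ?_)
    (fun k => R.meet' hl0 hl1 (hKf k) (VL_fam _ _) ?_)
    (fun k => R.meet' hl0 hl1 (hKf k) (HL_fam _ _) ?_)
    (fun k => R.meet' hl0 hl1 (hKf k) (DL_fam _ _) ?_)
  · exact not_mem_of_disj (R.disj' hNf (VL_fam _ _) (N_disj_v s τ))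
      ((ha (s + 1) (by linarith) (by linarith)).P_mem hP)
  · have := pK_pos k; linarith
  · have := pK_le k; linarith
  · have := pK_pos k; have := pK_le k; linarith
  · have := pK_pos k; have := pK_le k; linarith
  · rw [Set.inter_comm]
    exact center_meet (by norm_num) (by push_cast; ring)
  · rw [Set.inter_comm]
    exact center_meet (by norm_num) (by push_cast; ring)
  · rw [Set.inter_comm]
    exact center_meet (by norm_num) (by push_cast; ring)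

lemma rel_h (R : Rz lam Φ) (hl0 : 0 < lam) (hl1 : lam < 1) (hP : ‖P‖ = 1)
    {βV βH βD : E3} {a b d : ℚ → ℝ} {p q r w : ℝ}
    (hrel : p • βV + q • βH + r • βD + w • P = 0)
    (ha : ∀ s : ℚ, -10 ≤ s → s ≤ 10 → Co P βV (a s) (Φ (VL s)))
    (hb : ∀ s : ℚ, -10 ≤ s → s ≤ 10 → Co P βH (b s) (Φ (HL s)))
    (hd : ∀ s : ℚ, -90 ≤ s → s ≤ 90 → Co P βD (d s) (Φ (DL s)))
    (s τ : ℚ) (hs0 : -5 ≤ s) (hs1 : s ≤ 5) (ht0 : -5 ≤ τ) (ht1 : τ ≤ 5) :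
    Tendsto (fun k => p * a (s + pK k) + q * b τ + r * d (3 * (s + pK k) - 4 * τ) + w) atTop
      (𝓝 0) := by
  obtain ⟨n, -, hn⟩ := R.beads hl0 hl1 (x0 := s) (y0 := τ) (dx := 1) (dy := 0) (ℓ := 1)
    (by norm_num) (by norm_num) rK_pos sepK
  have hKf : ∀ k, bd s τ 1 0 pK rK k ∈ fam3 lam := fun k => bd_fam _ _ _ _ _ _ _ _ (rK_pos k)
  have hNf : circ ((s : ℚ) : ℝ) ((τ - 8 : ℚ) : ℝ) ((8 : ℚ) : ℝ) ∈ fam3 lam :=
    circ_fam _ _ _ _ (by norm_num)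
  refine rel_lim hP hrel (fun k => Φ (bd s τ 1 0 pK rK k)) (fun k => R.sub (hKf k)) n hn
    (Φ (circ ((s : ℚ) : ℝ) ((τ - 8 : ℚ) : ℝ) ((8 : ℚ) : ℝ))) (R.cpt hNf) (R.sub hNf) ?_
    (fun k => R.meet' hl0 hl1 (hKf k) hNf (N_meet_h s τ k))
    (fun k => a (s + pK k)) (fun _ => b τ) (fun k => d (3 * (s + pK k) - 4 * τ))
    (fun k => Φ (VL (s + pK k))) (fun _ => Φ (HL τ)) (fun k => Φ (DL (3 * (s + pK k) - 4 * τ)))
    (fun k => ha _ ?_ ?_) (fun _ => hb τ (by linarith) (by linarith)) (fun k => hd _ ?_ ?_)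
    (fun k => R.meet' hl0 hl1 (hKf k) (VL_fam _ _) ?_)
    (fun k => R.meet' hl0 hl1 (hKf k) (HL_fam _ _) ?_)
    (fun k => R.meet' hl0 hl1 (hKf k) (DL_fam _ _) ?_)
  · exact not_mem_of_disj (R.disj' hNf (HL_fam _ _) (N_disj_h s τ))
      ((hb (τ + 1) (by linarith) (by linarith)).P_mem hP)
  · have := pK_pos k; linarith
  · have := pK_le k; linarith
  · have := pK_pos k; have := pK_le k; linarith
  · have := pK_pos k; have := pK_le k; linarith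
  · rw [Set.inter_comm]
    exact center_meet (by norm_num) (by push_cast; ring)
  · rw [Set.inter_comm]
    exact center_meet (by norm_num) (by push_cast; ring)
  · rw [Set.inter_comm]
    exact center_meet (by norm_num) (by push_cast; ring)

lemma Co.unique {β : E3} {x : ℝ} {S T : Set E3} (hS : Co P β x S) (hT : Co P β x T)
    (hSB : S ⊆ Metric.closedBall 0 1) (hTB : T ⊆ Metric.closedBall 0 1) : S = T := by
  ext z
  constructor
  · intro h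
    have hz : ‖z‖ ≤ 1 := by simpa using hSB h
    exact (hT z hz).mpr ((hS z hz).mp h)
  · intro h
    have hz : ‖z‖ ≤ 1 := by simpa using hTB h
    exact (hS z hz).mpr ((hT z hz).mp h)

end Pool.Agent.V11167.Sph
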