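import Mathlib
import Pool.Agent.V11167.SphH

/-! Rigidity of the parallel lines and the final contradiction. -/

namespace Pool.Agent.V11167.Sph

open Filter Topology

variable {lam : ℝ} {Φ : Set E3 → Set E3} {P : E3} {φ : ℕ → ℕ}

section
variable {βV βH βD : E3} {a b d : ℚ → ℝ} {p q r w : ℝ}

lemma p_ne_zero (R : Rz lam Φ) (hl0 : 0 < lam) (hl1 : lam < 1) (hP : ‖P‖ = 1)
    (_hH : ∀ t : ℝ, βH ≠ t • P) (hD : ∀ t : ℝ, βD ≠ t • P)
    (hrel : p • βV + q • βH + r • βD + w • P = 0)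
    (hnz : p ≠ 0 ∨ q ≠ 0 ∨ r ≠ 0 ∨ w ≠ 0)
    (ha : ∀ s : ℚ, -10 ≤ s → s ≤ 10 → Co P βV (a s) (Φ (VL s)))
    (hb : ∀ s : ℚ, -10 ≤ s → s ≤ 10 → Co P βH (b s) (Φ (HL s)))
    (hd : ∀ s : ℚ, -90 ≤ s → s ≤ 90 → Co P βD (d s) (Φ (DL s))) : p ≠ 0 := by
  intro hp
  subst hp
  have t1 := rel_h R hl0 hl1 hP hrel ha hb hd 0 0 (by norm_num) (by norm_num) (by norm_num)
    (by norm_num)
  have t2 := rel_h R hl0 hl1 hP hrel ha hb hd 4 3 (by norm_num) (by norm_num) (by norm_num)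
    (by norm_num)
  have t3 := t1.sub t2
  have e : (fun k => 0 * a (0 + pK k) + q * b 0 + r * d (3 * (0 + pK k) - 4 * 0) + w -
      (0 * a (4 + pK k) + q * b 3 + r * d (3 * (4 + pK k) - 4 * 3) + w)) =
      fun _ => q * (b 0 - b 3) := by
    funext k
    have : (3 * (4 + pK k) - 4 * 3 : ℚ) = 3 * (0 + pK k) - 4 * 0 := by ring
    rw [this]; ring
  rw [e] at t3
  have h0 := tendsto_nhds_unique t3 tendsto_const_nhds
  rw [sub_self] at h0
  have hb03 : b 0 - b 3 ≠ 0 := by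
    intro h
    have h' : b 0 = b 3 := by linarith
    have c0 := hb 0 (by norm_num) (by norm_num)
    have c3 := hb 3 (by norm_num) (by norm_num)
    rw [← h'] at c3
    have := Co.unique c0 c3 (R.sub (HL_fam _ _)) (R.sub (HL_fam _ _))
    refine R.inj _ (HL_fam _ _) _ (HL_fam _ _) ?_ this
    exact HL_ne (by norm_num)
  have hq : q = 0 := by
    rcases mul_eq_zero.mp h0.symm with h | h
    · exact h
    · exact absurd h hb03
  subst hq
  by_cases hr : r = 0
  · subst hr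
    have hw : w = 0 := by
      simp only [zero_smul, zero_add] at hrel
      rcases smul_eq_zero.mp hrel with h | h
      · exact h
      · rw [h, norm_zero] at hP
        exact absurd hP (by norm_num)
    simp [hw] at hnz
  · apply hD (-w / r)
    simp only [zero_smul, zero_add] at hrel
    have h1 : r • βD = (-w) • P := by
      rw [neg_smul]; exact eq_neg_of_add_eq_zero_left hrel
    calc βD = r⁻¹ • (r • βD) := by rw [smul_smul, inv_mul_cancel₀ hr, one_smul]
      _ = (-w / r) • P := by rw [h1, smul_smul]; congr 1; field_simp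

lemma spacing (R : Rz lam Φ) (hl0 : 0 < lam) (hl1 : lam < 1) (hP : ‖P‖ = 1)
    (hrel : p • βV + q • βH + r • βD + w • P = 0) (hp : p ≠ 0)
    (ha : ∀ s : ℚ, -10 ≤ s → s ≤ 10 → Co P βV (a s) (Φ (VL s)))
    (hb : ∀ s : ℚ, -10 ≤ s → s ≤ 10 → Co P βH (b s) (Φ (HL s)))
    (hd : ∀ s : ℚ, -90 ≤ s → s ≤ 90 → Co P βD (d s) (Φ (DL s)))
    (s h : ℚ) (hs0 : 0 ≤ s) (hs1 : s ≤ 1) (hh0 : 0 ≤ h) (hh1 : h ≤ 1) :
    a (s + 4 * h) - a s = a (0 + 4 * h) - a 0 := by
  have key : ∀ s : ℚ, 0 ≤ s → s ≤ 1 →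
      Tendsto (fun k => q * b (0 + pK k) - q * b (3 * h + pK k)) atTop
        (𝓝 (p * a (s + 4 * h) - p * a s)) := by
    intro s hs0 hs1
    have t1 := rel_v R hl0 hl1 hP hrel ha hb hd s 0 (by linarith) (by linarith) (by norm_num)
      (by norm_num)
    have t2 := rel_v R hl0 hl1 hP hrel ha hb hd (s + 4 * h) (3 * h) (by linarith) (by linarith)
      (by linarith) (by linarith)
    have t3 := (t1.sub t2).add_const (p * a (s + 4 * h) - p * a s)
    rw [sub_zero, zero_add] at t3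
    refine t3.congr fun k => ?_
    have : (3 * (s + 4 * h) - 4 * (3 * h + pK k) : ℚ) = 3 * s - 4 * (0 + pK k) := by ring
    rw [this]; ring
  have h1 := tendsto_nhds_unique (key s hs0 hs1) (key 0 le_rfl zero_le_one)
  have h2 : p * (a (s + 4 * h) - a s) = p * (a (0 + 4 * h) - a 0) := by linarith
  exact mul_left_cancel₀ hp h2

end

/-- arithmetic progression -/
lemma ap {a : ℚ → ℝ} (h : ∀ s h : ℚ, 0 ≤ s → s ≤ 1 → 0 ≤ h → h ≤ 1 →
    a (s + 4 * h) - a s = a (0 + 4 * h) - a 0) (N : ℕ) (hN : 0 < N) (i : ℕ) (hi : i ≤ N) :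
    a ((i : ℚ) / N) = a 0 + (i : ℝ) / N * (a 1 - a 0) := by
  have hNq : (0 : ℚ) < N := by exact_mod_cast hN
  have hN1 : (1 : ℚ) ≤ N := by exact_mod_cast hN
  have step : ∀ i : ℕ, i ≤ N → a ((i : ℚ) / N) = a 0 + i * (a (1 / N) - a 0) := by
    intro i
    induction i with
    | zero => intro _; simp
    | succ i ih =>
      intro hi
      have ih' := ih (by omega)
      have hiN : (i : ℚ) ≤ N := by exact_mod_cast (by omega : i ≤ N)
      have h1 := h ((i : ℚ) / N) (1 / (4 * N)) (by positivity) ((div_le_one hNq).mpr hiN)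
        (by positivity) (by rw [div_le_one (by positivity)]; linarith)
      have e1 : (i : ℚ) / N + 4 * (1 / (4 * N)) = ((i + 1 : ℕ) : ℚ) / N := by
        push_cast; field_simp
      have e2 : (0 : ℚ) + 4 * (1 / (4 * N)) = 1 / N := by field_simp; ring
      rw [e1, e2, ih'] at h1
      push_cast at h1 ⊢
      linarith
  have hNN := step N le_rfl
  rw [div_self hNq.ne'] at hNN
  rw [step i hi]
  have hNr : (N : ℝ) ≠ 0 := by positivity
  rw [hNN]
  field_simp
  ring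

lemma meet_V_T {s m x : ℝ} (h1 : s ≤ x) (h2 : x ≤ m) :
    (circ ((s + m) / 2) 0 ((m - s) / 2) ∩ line 1 0 x).Nonempty := by
  rw [Set.inter_comm]
  apply lc_meet (by norm_num)
  nlinarith [mul_nonneg (sub_nonneg.mpr h1) (sub_nonneg.mpr h2)]

lemma disj_V_T {s m x : ℝ} (h : (s - x) * (m - x) > 0) :
    ¬ (circ ((s + m) / 2) 0 ((m - s) / 2) ∩ line 1 0 x).Nonempty := by
  rw [Set.inter_comm]
  intro hne
  have := lc_of_meet hne
  nlinarith

lemma between (R : Rz lam Φ) (hl0 : 0 < lam) (hl1 : lam < 1) (hP : ‖P‖ = 1)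
    {βV : E3} {a : ℚ → ℝ} {al : ℝ}
    (ha : ∀ s : ℚ, -10 ≤ s → s ≤ 10 → Co P βV (a s) (Φ (VL s)))
    (hal : Co P βV al (Φ (line 1 0 lam)))
    (s t : ℚ) (hs : 0 ≤ s) (ht : t ≤ 1) (h1 : (s : ℝ) < lam) (h2 : lam < t) :
    0 < (a s - a t) * (al - a t) ∧ 0 < (al - a s) * (a t - a s) := by
  have hst : (s : ℝ) < t := h1.trans h2
  have hst' : s < t := by exact_mod_cast hst
  have cs := ha s (by linarith) (by linarith)
  have ct := ha t (by linarith) (by linarith)
  constructor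
  · obtain ⟨m, hm1, hm2⟩ := exists_rat_btwn h2
    have hT : circ ((((s + m) / 2 : ℚ)) : ℝ) ((0 : ℚ) : ℝ) (((m - s) / 2 : ℚ) : ℝ) ∈ fam3 lam := by
      apply circ_fam
      have : (s : ℝ) < m := h1.trans hm1
      have : s < m := by exact_mod_cast this
      linarith
    push_cast at hT
    obtain ⟨z1, hz1, hz1'⟩ := R.meet' hl0 hl1 hT (VL_fam lam s)
      (meet_V_T le_rfl (h1.trans hm1).le)
    obtain ⟨z2, hz2, hz2'⟩ := R.meet' hl0 hl1 hT (lam_fam lam)
      (meet_V_T h1.le hm1.le)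
    have hd := R.disj' hT (VL_fam lam t) (disj_V_T (by
      have : (s : ℝ) - t < 0 := by linarith
      have : (m : ℝ) - t < 0 := by linarith
      nlinarith))
    have b1 : ‖z1‖ ≤ 1 := by simpa using R.sub hT hz1
    have b2 : ‖z2‖ ≤ 1 := by simpa using R.sub hT hz2
    exact test hP (R.convex hT) (R.sub hT) ct hd hz1 hz2 ((cs z1 b1).mp hz1')
      ((hal z2 b2).mp hz2')
  · obtain ⟨m, hm1, hm2⟩ := exists_rat_btwn h1
    have hT : circ ((((m + t) / 2 : ℚ)) : ℝ) ((0 : ℚ) : ℝ) (((t - m) / 2 : ℚ) : ℝ) ∈ fam3 lam := by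
      apply circ_fam
      have : (m : ℝ) < t := hm2.trans h2
      have : m < t := by exact_mod_cast this
      linarith
    push_cast at hT
    obtain ⟨z1, hz1, hz1'⟩ := R.meet' hl0 hl1 hT (VL_fam lam t)
      (meet_V_T (hm2.trans h2).le le_rfl)
    obtain ⟨z2, hz2, hz2'⟩ := R.meet' hl0 hl1 hT (lam_fam lam)
      (meet_V_T hm2.le h2.le)
    have hd := R.disj' hT (VL_fam lam s) (disj_V_T (by
      have : 0 < (m : ℝ) - s := by linarith
      have : 0 < (t : ℝ) - s := by linarith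
      nlinarith))
    have b1 : ‖z1‖ ≤ 1 := by simpa using R.sub hT hz1
    have b2 : ‖z2‖ ≤ 1 := by simpa using R.sub hT hz2
    exact test hP (R.convex hT) (R.sub hT) cs hd hz2 hz1 ((hal z2 b2).mp hz2')
      ((ct z1 b1).mp hz1')

/-- the coordinate of the line `x = lam` is the affine one. -/
lemma al_eq (hl0 : 0 < lam) (hl1 : lam < 1) (hirr : Irrational lam) {a : ℚ → ℝ} {al : ℝ}
    (hap : ∀ N : ℕ, 0 < N → ∀ i : ℕ, i ≤ N → a ((i : ℚ) / N) = a 0 + (i : ℝ) / N * (a 1 - a 0))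
    (hbt : ∀ s t : ℚ, 0 ≤ s → t ≤ 1 → (s : ℝ) < lam → lam < t →
      0 < (a s - a t) * (al - a t) ∧ 0 < (al - a s) * (a t - a s)) :
    al = a 0 + lam * (a 1 - a 0) := by
  set δ := a 1 - a 0 with hδ
  have bound : ∀ N : ℕ, 0 < N → |al - (a 0 + lam * δ)| ≤ 2 * |δ| / N := by
    intro N hN
    have hNr : (0 : ℝ) < N := by exact_mod_cast hN
    have hNq : (0 : ℚ) < N := by exact_mod_cast hN
    set i := ⌊lam * N⌋₊ with hi
    have hle : (i : ℝ) ≤ lam * N := Nat.floor_le (by positivity)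
    have hlt : lam * N < i + 1 := Nat.lt_floor_add_one _
    have hne : (i : ℝ) ≠ lam * N := by
      intro h
      apply hirr
      refine ⟨(i : ℚ) / N, ?_⟩
      push_cast
      rw [h]; field_simp
    have hlt' : (i : ℝ) < lam * N := lt_of_le_of_ne hle hne
    have hiN : i + 1 ≤ N := by
      have : (i : ℝ) < N := by nlinarith
      have : i < N := by exact_mod_cast this
      omega
    have e1 := hap N hN i (by omega)
    have e2 := hap N hN (i + 1) hiN
    have hb := hbt ((i : ℚ) / N) (((i + 1 : ℕ) : ℚ) / N) (by positivity)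
      (by rw [div_le_one hNq]; exact_mod_cast hiN)
      (by push_cast; rw [div_lt_iff₀ hNr]; exact hlt')
      (by push_cast; rw [lt_div_iff₀ hNr]; exact hlt)
    rw [e1, e2] at hb
    push_cast at hb
    set u := al - a 0 with hu
    have hb1 : 0 < (-(δ / N)) * (u - ((i : ℝ) + 1) / N * δ) := by
      have : (a 0 + (i : ℝ) / N * δ - (a 0 + ((i : ℝ) + 1) / N * δ)) *
        (al - (a 0 + ((i : ℝ) + 1) / N * δ)) = (-(δ / N)) * (u - ((i : ℝ) + 1) / N * δ) := by
        rw [hu]; ring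
      rw [← this]; exact hb.1
    have hb2 : 0 < (u - (i : ℝ) / N * δ) * (δ / N) := by
      have : (al - (a 0 + (i : ℝ) / N * δ)) * (a 0 + ((i : ℝ) + 1) / N * δ -
        (a 0 + (i : ℝ) / N * δ)) = (u - (i : ℝ) / N * δ) * (δ / N) := by
        rw [hu]; ring
      rw [← this]; exact hb.2
    set v := u - (i : ℝ) / N * δ with hv
    have hb1' : 0 < (-(δ / N)) * (v - δ / N) := by
      have : u - ((i : ℝ) + 1) / N * δ = v - δ / N := by rw [hv]; ring
      rw [← this]; exact hb1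
    have hvb : |v| ≤ |δ / N| := by
      rcases lt_trichotomy (δ / N) 0 with h | h | h
      · have : v < 0 := by nlinarith
        have : v - δ / N > 0 := by nlinarith
        rw [abs_of_neg h, abs_of_neg (by assumption)]; linarith
      · rw [h] at hb2; simp at hb2
      · have : 0 < v := by
          by_contra hc; push Not at hc
          nlinarith
        have : v - δ / N < 0 := by
          by_contra hc; push Not at hc
          nlinarith
        rw [abs_of_pos h, abs_of_pos (by assumption)]; linarith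
    have hfr : |((i : ℝ) / N - lam) * δ| ≤ |δ| / N := by
      rw [abs_mul, div_eq_mul_one_div |δ|, mul_comm]
      gcongr
      rw [abs_le]
      constructor
      · have : lam ≤ (i + 1 : ℝ) / N := by rw [le_div_iff₀ hNr]; linarith
        have e : (i + 1 : ℝ) / N = i / N + 1 / N := by ring
        rw [e] at this; linarith
      · have : (i : ℝ) / N ≤ lam := by rw [div_le_iff₀ hNr]; linarith
        have : 0 < 1 / (N : ℝ) := by positivity
        linarith
    have hdec : al - (a 0 + lam * δ) = v + ((i : ℝ) / N - lam) * δ := by rw [hv, hu]; ring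
    rw [hdec]
    calc |v + ((i : ℝ) / N - lam) * δ| ≤ |v| + |((i : ℝ) / N - lam) * δ| := abs_add_le _ _
      _ ≤ |δ / N| + |δ| / N := by gcongr
      _ = 2 * |δ| / N := by rw [abs_div, Nat.abs_cast]; ring
  by_contra hne
  have hpos : 0 < |al - (a 0 + lam * δ)| := abs_pos.mpr (sub_ne_zero.mpr hne)
  obtain ⟨N, hN⟩ := exists_nat_gt (2 * |δ| / |al - (a 0 + lam * δ)|)
  have hN0 : 0 < N := by
    have : (0 : ℝ) ≤ 2 * |δ| / |al - (a 0 + lam * δ)| := by positivity
    have : (0 : ℝ) < N := by linarith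
    exact_mod_cast this
  have hNr : (0 : ℝ) < N := by exact_mod_cast hN0
  have hb := bound N hN0
  rw [div_lt_iff₀ hpos] at hN
  rw [le_div_iff₀ hNr] at hb
  linarith

/-- **Rigidity**: in every realisation the three sections `Φ(x=0)`, `Φ(x=1)`, `Φ(x=lam)`
determine `lam`. -/
lemma main_fact (R : Rz lam Φ) (hl0 : 0 < lam) (hl1 : lam < 1) (hirr : Irrational lam)
    (σ : E3) (c : ℝ) (hσ : Φ (VL 0) = sec σ c) :
    ∃ (P : E3) (A : ℝ), ‖P‖ = 1 ∧ A ≠ 0 ∧ P ∈ Φ (VL 0) ∧ P ∈ Φ (VL 1) ∧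
      (∀ z ∈ Φ (VL 0), z ∈ Φ (VL 1) → z = P) ∧
      (∀ z ∈ Φ (VL 1), inner ℝ σ (z - P) = A * inner ℝ P (z - P)) ∧
      (∀ z ∈ Φ (line 1 0 lam), inner ℝ σ (z - P) = lam * A * inner ℝ P (z - P)) ∧
      (∃ z ∈ Φ (VL 1), z ≠ P) ∧ (∃ z ∈ Φ (line 1 0 lam), z ≠ P) := by
  obtain ⟨P, φ, hP, hφ, hlim⟩ := R.exists_P hl0 hl1
  have D : PData Φ P φ := ⟨hP, hφ, hlim⟩
  obtain ⟨βV, βH, βD, a, b, d, al, x0, y0, hV, hH, hD, ha, hb, hd, hal, hy0, hxy⟩ :=
    main_coords R hl0 hl1 D σ c hσ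
  obtain ⟨p, q, r, w, hrel, hnz⟩ := exists_rel βV βH βD P
  have hp := p_ne_zero R hl0 hl1 hP hH hD hrel hnz ha hb hd
  have hsp := fun s h => spacing R hl0 hl1 hP hrel hp ha hb hd s h
  have hap := fun N hN i hi => ap (a := a) (fun s h h1 h2 h3 h4 => hsp s h h1 h2 h3 h4) N hN i hi
  have hbt := fun s t h1 h2 h3 h4 => between R hl0 hl1 hP ha hal s t h1 h2 h3 h4
  have hale := al_eq hl0 hl1 hirr hap hbt
  have c0 := ha 0 (by norm_num) (by norm_num)
  have c1 := ha 1 (by norm_num) (by norm_num)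
  have ha01 : a 1 - a 0 ≠ 0 := by
    intro h
    have h' : a 1 = a 0 := by linarith
    rw [h'] at c1
    have := Co.unique c0 c1 (R.sub (VL_fam _ _)) (R.sub (VL_fam _ _))
    refine R.inj _ (VL_fam _ _) _ (VL_fam _ _) ?_ this
    exact VL_ne (by norm_num)
  have hx0 : x0 = a 0 := by
    obtain ⟨z, hz, hzP⟩ := exists_ne_P R hl0 hl1 P (VL_fam lam 0)
      (V_Yb (s := ((0 : ℚ) : ℝ)) (by norm_num) (by norm_num))
    have hzb : ‖z‖ ≤ 1 := by simpa using R.sub (VL_fam lam 0) hz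
    have h1 := (c0 z hzb).mp hz
    have h2 := inner_sub_neg hP hzb hzP
    have hPs := c0.P_mem hP
    rw [hσ] at hz hPs
    have h3 : inner ℝ σ (z - P) = 0 := by
      rw [inner_sub_right, (mem_sec.mp hz).2, (mem_sec.mp hPs).2, sub_self]
    rw [hxy, inner_add_left, inner_smul_left, inner_smul_left, h3] at h1
    simp only [conj_trivial, mul_zero, add_zero] at h1
    exact mul_right_cancel₀ h2.ne h1
  have hform : ∀ z x, inner ℝ βV (z - P) = x * inner ℝ P (z - P) →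
      inner ℝ σ (z - P) = (x - a 0) / y0 * inner ℝ P (z - P) := by
    intro z x h
    rw [hxy, inner_add_left, inner_smul_left, inner_smul_left] at h
    simp only [conj_trivial] at h
    rw [hx0] at h
    field_simp
    linarith
  refine ⟨P, (a 1 - a 0) / y0, hP, div_ne_zero ha01 hy0, c0.P_mem hP, c1.P_mem hP, ?_, ?_, ?_,
    ?_, ?_⟩
  · intro z hz hz'
    by_contra hne
    have hzb : ‖z‖ ≤ 1 := by simpa using R.sub (VL_fam lam 0) hz
    have h1 := (c0 z hzb).mp hz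
    have h2 := (c1 z hzb).mp hz'
    have h3 := inner_sub_neg hP hzb hne
    rw [h1] at h2
    have := mul_right_cancel₀ h3.ne h2
    exact ha01 (by linarith)
  · intro z hz
    have hzb : ‖z‖ ≤ 1 := by simpa using R.sub (VL_fam lam 1) hz
    exact hform z _ ((c1 z hzb).mp hz)
  · intro z hz
    have hzb : ‖z‖ ≤ 1 := by simpa using R.sub (lam_fam lam) hz
    have := hform z _ ((hal z hzb).mp hz)
    rw [this, hale]
    ring
  · exact exists_ne_P R hl0 hl1 P (VL_fam lam 1)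
      (V_Yb (s := ((1 : ℚ) : ℝ)) (by norm_num) (by norm_num))
  · exact exists_ne_P R hl0 hl1 P (lam_fam lam) (V_Yb (by linarith) (by linarith))

lemma rigid {lam lam' : ℝ} {Φ Φ' : Set E3 → Set E3} (R : Rz lam Φ) (R' : Rz lam' Φ')
    (hl0 : 0 < lam) (hl1 : lam < 1) (hirr : Irrational lam)
    (hl0' : 0 < lam') (hl1' : lam' < 1) (hirr' : Irrational lam')
    (h0 : Φ (VL 0) = Φ' (VL 0)) (h1 : Φ (VL 1) = Φ' (VL 1))
    (h2 : Φ (line 1 0 lam) = Φ' (line 1 0 lam')) : lam = lam' := by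
  obtain ⟨σ, c, -, hσ⟩ := R.isSec _ (VL_fam lam 0)
  obtain ⟨P, A, hP, hA, p0, p1, pu, e1, e2, ⟨z1, hz1, hz1P⟩, ⟨z2, hz2, hz2P⟩⟩ :=
    main_fact R hl0 hl1 hirr σ c hσ
  obtain ⟨P', A', hP', hA', p0', p1', pu', e1', e2', -, -⟩ :=
    main_fact R' hl0' hl1' hirr' σ c (h0 ▸ hσ)
  have hPP : P' = P := by
    apply pu
    · rw [h0]; exact p0'
    · rw [h1]; exact p1'
  subst hPP
  have b1 : ‖z1‖ ≤ 1 := by simpa using R.sub (VL_fam lam 1) hz1
  have b2 : ‖z2‖ ≤ 1 := by simpa using R.sub (lam_fam lam) hz2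
  have n1 := (inner_sub_neg hP b1 hz1P).ne
  have n2 := (inner_sub_neg hP b2 hz2P).ne
  have hAA : A = A' := by
    have u1 := e1 z1 hz1
    have u2 := e1' z1 (h1 ▸ hz1)
    rw [u1] at u2
    exact mul_right_cancel₀ n1 u2
  subst hAA
  have u1 := e2 z2 hz2
  have u2 := e2' z2 (h2 ▸ hz2)
  rw [u1] at u2
  exact mul_right_cancel₀ hA (mul_right_cancel₀ n2 u2)

lemma not_countable_irr : ¬ {x : ℝ | 0 < x ∧ x < 1 ∧ Irrational x}.Countable := by
  intro h
  have h2 : (Set.Ioo (0 : ℝ) 1).Countable := by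
    refine (h.union (Set.countable_range (fun q : ℚ => (q : ℝ)))).mono ?_
    intro x hx
    by_cases hi : Irrational x
    · left; exact ⟨hx.1, hx.2, hi⟩
    · right
      unfold Irrational at hi
      push Not at hi
      exact hi
  have h3 := Cardinal.mk_Ioo_real (show (0 : ℝ) < 1 by norm_num)
  have h4 := Cardinal.le_aleph0_iff_set_countable.mpr h2
  rw [h3] at h4
  exact absurd Cardinal.aleph0_lt_continuum (not_lt.mpr h4)

theorem no_universal : ¬ HasStronglyUniversal 2 := by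
  rintro ⟨V, hV, U, ⟨F, hF, ⟨e⟩⟩, hU⟩
  have emb : ∀ lam : ℝ, Nonempty (interGraph (fam3 lam) ↪g U) := by
    intro lam
    have : Countable (fam3 lam) := (fam3_countable lam).to_subtype
    exact hU (fam3 lam) inferInstance (interGraph (fam3 lam))
      ⟨fam3 lam, fam3_discs lam, ⟨RelIso.refl _⟩⟩
  let f : ∀ lam : ℝ, interGraph (fam3 lam) ↪g U := fun lam => (emb lam).some
  classical
  set Ψ : ℝ → Set E3 → Set E3 := fun lam A =>
    if h : A ∈ fam3 lam then (e (f lam ⟨A, h⟩)).1 else ∅ with hΨ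
  have hΨe : ∀ lam A (h : A ∈ fam3 lam), Ψ lam A = (e (f lam ⟨A, h⟩)).1 := by
    intro lam A h
    simp only [hΨ, h, dite_true]
  have hinj : ∀ lam A B (hA : A ∈ fam3 lam) (hB : B ∈ fam3 lam), A ≠ B →
      e (f lam ⟨A, hA⟩) ≠ e (f lam ⟨B, hB⟩) := by
    intro lam A B hA hB hne h
    have h1 := (f lam).injective (e.injective h)
    exact hne (congrArg Subtype.val h1)
  have hRz : ∀ lam, Rz lam (Ψ lam) := by
    intro lam
    refine ⟨?_, ?_, ?_, ?_⟩
    · intro A hA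
      rw [hΨe lam A hA]
      obtain ⟨n, c, hn, hs⟩ := hF (e (f lam ⟨A, hA⟩)).2
      exact ⟨n, c, hn, hs⟩
    · intro A hA B hB hne h
      rw [hΨe lam A hA, hΨe lam B hB] at h
      exact hinj lam A B hA hB hne (Subtype.ext h)
    · intro A hA B hB hne h
      rw [hΨe lam A hA, hΨe lam B hB]
      have hadj : (interGraph (fam3 lam)).Adj ⟨A, hA⟩ ⟨B, hB⟩ :=
        ⟨fun h' => hne (congrArg Subtype.val h'), h⟩
      have h1 := (f lam).map_rel_iff.mpr hadj
      have h2 := e.map_rel_iff.mpr h1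
      exact h2.2
    · intro A hA B hB hne h h'
      rw [hΨe lam A hA, hΨe lam B hB] at h'
      have h2 : (interGraph F).Adj (e (f lam ⟨A, hA⟩)) (e (f lam ⟨B, hB⟩)) :=
        ⟨hinj lam A B hA hB hne, h'⟩
      have h1 := e.map_rel_iff.mp h2
      have h0 := (f lam).map_rel_iff.mp h1
      exact h h0.2
  have : Countable F := (Countable.of_equiv V e.toEquiv)
  set I : Set ℝ := {x : ℝ | 0 < x ∧ x < 1 ∧ Irrational x} with hI
  let g : I → F × F × F := fun lam =>
    (e (f lam.1 ⟨VL 0, VL_fam _ _⟩), e (f lam.1 ⟨VL 1, VL_fam _ _⟩),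
      e (f lam.1 ⟨line 1 0 lam.1, lam_fam _⟩))
  have hg : Function.Injective g := by
    intro x y hxy
    have hxy' := Prod.ext_iff.mp hxy
    have hxy'' := Prod.ext_iff.mp hxy'.2
    have k0 : Ψ x.1 (VL 0) = Ψ y.1 (VL 0) := by
      rw [hΨe x.1 _ (VL_fam _ _), hΨe y.1 _ (VL_fam _ _)]
      exact congrArg Subtype.val hxy'.1
    have k1 : Ψ x.1 (VL 1) = Ψ y.1 (VL 1) := by
      rw [hΨe x.1 _ (VL_fam _ _), hΨe y.1 _ (VL_fam _ _)]
      exact congrArg Subtype.val hxy''.1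
    have k2 : Ψ x.1 (line 1 0 x.1) = Ψ y.1 (line 1 0 y.1) := by
      rw [hΨe x.1 _ (lam_fam _), hΨe y.1 _ (lam_fam _)]
      exact congrArg Subtype.val hxy''.2
    exact Subtype.ext (rigid (hRz x.1) (hRz y.1) x.2.1 x.2.2.1 x.2.2.2 y.2.1 y.2.2.1 y.2.2.2
      k0 k1 k2)
  have hc : Countable I := hg.countable
  exact not_countable_irr (Set.countable_coe_iff.mp hc)

end Pool.Agent.V11167.Sph
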