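import Mathlib

/-!
Definitions for maximum-density partitions of graphs.
A partition of the vertex set is given by a colouring `c : V → Fin (card V + 1)`: its parts are
the nonempty colour classes.
-/

namespace Pool.Agent.V11167.Club

open Finset

variable {V : Type*} [Fintype V] [DecidableEq V]

/-- The colour class of colour `i`. -/
def cls {k : ℕ} (c : V → Fin k) (i : Fin k) : Finset V := Finset.univ.filter (fun v => c v = i)

open Classical in
/-- `1` if `u, v` are adjacent, and `0` otherwise. -/
noncomputable def ad (G : SimpleGraph V) (u v : V) : ℚ := if G.Adj u v then 1 else 0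

/-- The number of edges of `G` with both ends in `F` (half of the number of ordered pairs of
adjacent vertices of `F`). -/
noncomputable def edgesIn (G : SimpleGraph V) (F : Finset V) : ℚ :=
  (∑ u ∈ F, ∑ v ∈ F, ad G u v) / 2

/-- The density of the partition into the nonempty colour classes of `c` (an empty class
contributes `0 / 0 = 0`). -/
noncomputable def dens (G : SimpleGraph V) {k : ℕ} (c : V → Fin k) : ℚ :=
  ∑ i, edgesIn G (cls c i) / ((cls c i).card : ℚ)

/-- The partition given by `c` is optimal. -/
def Optimal (G : SimpleGraph V) (c : V → Fin (Fintype.card V + 1)) : Prop :=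
  ∀ c' : V → Fin (Fintype.card V + 1), dens G c' ≤ dens G c

/-- The part-degree of `v` in `F`. -/
noncomputable def degIn (G : SimpleGraph V) (F : Finset V) (v : V) : ℚ := ∑ u ∈ F, ad G v u

/-- `Near G F k u v`: one can walk from `u` to `v` along at most `k` edges of `G`, with all the
vertices after `u` in `F`. -/
def Near (G : SimpleGraph V) (F : Finset V) : ℕ → V → V → Prop
  | 0, u, v => u = v
  | (k + 1), u, v => u = v ∨ ∃ w ∈ F, G.Adj u w ∧ Near G F k w v

end Pool.Agent.V11167.Club
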