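import Mathlib
import Pool.Agent.V11167.ClubDefs

namespace Pool.Agent.V11167.Club

open Finset

variable {V : Type*} [Fintype V] [DecidableEq V] (G : SimpleGraph V)

theorem ad_comm (u v : V) : ad G u v = ad G v u := by
  unfold ad
  by_cases h : G.Adj u v
  · rw [if_pos h, if_pos h.symm]
  · rw [if_neg h, if_neg (fun h' => h h'.symm)]

theorem ad_self (u : V) : ad G u u = 0 := by
  unfold ad
  simp

theorem ad_sq (u v : V) : ad G u v * ad G u v = ad G u v := by
  unfold ad
  split_ifs <;> simp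

/-- Twice the number of edges inside. -/
noncomputable def M (F : Finset V) : ℚ := ∑ u ∈ F, ∑ v ∈ F, ad G u v

theorem M_eq (F : Finset V) : M G F = ∑ u ∈ F, degIn G F u := rfl

theorem M_erase (F : Finset V) (x : V) (hx : x ∈ F) :
    M G (F.erase x) = M G F - 2 * degIn G F x := by
  unfold M degIn
  have h1 : ∑ u ∈ F, ∑ v ∈ F, ad G u v =
      ∑ u ∈ F.erase x, ∑ v ∈ F, ad G u v + ∑ v ∈ F, ad G x v :=
    (Finset.sum_erase_add F _ hx).symm
  have h2 : ∑ u ∈ F.erase x, ∑ v ∈ F, ad G u v =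
      ∑ u ∈ F.erase x, ∑ v ∈ F.erase x, ad G u v + ∑ u ∈ F.erase x, ad G u x := by
    rw [← Finset.sum_add_distrib]
    apply Finset.sum_congr rfl
    intro u _
    exact (Finset.sum_erase_add F _ hx).symm
  have h3 : ∑ u ∈ F.erase x, ad G u x = ∑ v ∈ F, ad G x v := by
    rw [← Finset.sum_erase_add F _ hx, ad_self, add_zero]
    apply Finset.sum_congr rfl
    intro u _
    exact ad_comm G u x
  rw [h1, h2, h3]
  ring

theorem degIn_erase (F : Finset V) (x y : V) (hx : x ∈ F) :
    degIn G (F.erase x) y = degIn G F y - ad G y x := by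
  unfold degIn
  have := Finset.sum_erase_add F (fun u => ad G y u) hx
  linarith

theorem M_singleton (x : V) : M G {x} = 0 := by
  unfold M
  simp [ad_self]

theorem M_pair (x y : V) (h : x ≠ y) : M G {x, y} = 2 * ad G x y := by
  unfold M
  rw [Finset.sum_pair h, Finset.sum_pair h, Finset.sum_pair h, ad_self, ad_self, ad_comm G y x]
  ring

theorem M_erase_pair (F : Finset V) (x y : V) (hx : x ∈ F) (hy : y ∈ F) (h : x ≠ y) :
    M G (F \ {x, y}) = M G F - 2 * degIn G F x - 2 * degIn G F y + 2 * ad G x y := by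
  have h1 : F \ {x, y} = (F.erase x).erase y := by
    ext z
    simp only [Finset.mem_sdiff, Finset.mem_insert, Finset.mem_singleton, Finset.mem_erase]
    tauto
  rw [h1, M_erase G _ y (Finset.mem_erase.2 ⟨h.symm, hy⟩), M_erase G F x hx,
    degIn_erase G F x y hx, ad_comm G y x]
  ring

/-- The main averaging identity. -/
theorem key (F : Finset V) (x y : V) (hx : x ∈ F) (hy : y ∈ F) (hxy : x ≠ y)
    (hnadj : ad G x y = 0) (hcom : ∀ l ∈ F, ad G x l * ad G y l = 0)
    (h1 : ∀ v ∈ F, M G F / 2 - F.card * degIn G F v < 0)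
    (h2 : ∀ u ∈ F, ∀ v ∈ F, u ≠ v → (F.card : ℚ) ^ 2 * ad G u v -
      2 * F.card * (degIn G F u + degIn G F v) + 4 * (M G F / 2) < 0) :
    degIn G F x + degIn G F y + 2 ≤ F.card ∧
    ((F.card : ℚ) + 2 < 2 * degIn G F x ∨ (F.card : ℚ) + 2 < 2 * degIn G F y) := by
  set n : ℚ := (F.card : ℚ) with hn
  set m : ℚ := M G F / 2 with hm
  set p := degIn G F x with hp
  set q := degIn G F y with hq
  set R := (F.erase x).erase y with hR
  have hyx : y ∈ F.erase x := Finset.mem_erase.2 ⟨hxy.symm, hy⟩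
  have hsum : ∀ φ : V → ℚ, ∑ l ∈ R, φ l = ∑ l ∈ F, φ l - φ x - φ y := by
    intro φ
    have e1 := Finset.sum_erase_add F φ hx
    have e2 := Finset.sum_erase_add (F.erase x) φ hyx
    rw [hR]
    linarith
  have hyxad : ad G y x = 0 := by rw [ad_comm, hnadj]
  have sa : ∑ l ∈ R, ad G x l = p := by
    rw [hsum (fun l => ad G x l), ad_self, hnadj, hp]
    unfold degIn
    ring
  have sb : ∑ l ∈ R, ad G y l = q := by
    rw [hsum (fun l => ad G y l), ad_self, hyxad, hq]
    unfold degIn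
    ring
  have sd : ∑ l ∈ R, degIn G F l = 2 * m - p - q := by
    rw [hsum (fun l => degIn G F l), ← M_eq, hm, hp, hq]
    ring
  have sone : ∑ l ∈ R, (1 : ℚ) = n - 2 := by
    rw [hsum (fun _ => (1 : ℚ)), hn]
    simp only [Finset.sum_const, nsmul_eq_mul, mul_one]
    ring
  have hRF : ∀ l ∈ R, l ∈ F ∧ l ≠ x ∧ l ≠ y := by
    intro l hl
    rw [hR, Finset.mem_erase, Finset.mem_erase] at hl
    exact ⟨hl.2.2, hl.2.1, hl.1⟩
  have hab : ∀ l ∈ R, 0 ≤ 1 - ad G x l - ad G y l := by
    intro l hl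
    have h := hcom l (hRF l hl).1
    revert h
    unfold ad
    split_ifs <;> norm_num
  have hz : 0 ≤ n - 2 - p - q := by
    have h := Finset.sum_nonneg hab
    rw [Finset.sum_sub_distrib, Finset.sum_sub_distrib, sone, sa, sb] at h
    linarith
  refine ⟨by linarith, ?_⟩
  by_contra hcon
  push Not at hcon
  obtain ⟨hcx, hcy⟩ := hcon
  set z : ℚ := n - 2 - p - q with hzdef
  have hz4 : 0 < 4 + z := by linarith
  -- the weight
  obtain ⟨θ, hθ⟩ : ∃ θ : ℚ, θ * (4 + z) = -(q - p) := ⟨-(q - p) / (4 + z), by field_simp⟩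
  have hθ1 : θ ≤ 1 := by
    by_contra hc
    rw [not_le] at hc
    nlinarith
  have hθ2 : -1 ≤ θ := by
    by_contra hc
    rw [not_le] at hc
    nlinarith
  have hδ1 : q - p + θ * z = -4 * θ := by linarith
  have hle : ∑ l ∈ R, ((1 + ad G y l - ad G x l + θ * (1 - ad G x l - ad G y l)) *
      (n ^ 2 * ad G y l - 2 * n * (q + degIn G F l) + 4 * m) +
      (1 + ad G x l - ad G y l - θ * (1 - ad G x l - ad G y l)) *
      (n ^ 2 * ad G x l - 2 * n * (p + degIn G F l) + 4 * m)) ≤ 0 := by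
    apply Finset.sum_nonpos
    intro l hl
    obtain ⟨hlF, hlx, hly⟩ := hRF l hl
    have g1 := h2 y hy l hlF hly.symm
    have g2 := h2 x hx l hlF hlx.symm
    have c1 : 0 ≤ 1 + ad G y l - ad G x l + θ * (1 - ad G x l - ad G y l) := by
      have h := hcom l hlF
      revert h
      unfold ad
      split_ifs <;> intro h <;> first | (norm_num at h; done) | (norm_num; done) | linarith
    have c2 : 0 ≤ 1 + ad G x l - ad G y l - θ * (1 - ad G x l - ad G y l) := by
      have h := hcom l hlF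
      revert h
      unfold ad
      split_ifs <;> intro h <;> first | (norm_num at h; done) | (norm_num; done) | linarith
    have := mul_nonpos_of_nonneg_of_nonpos c1 g1.le
    have := mul_nonpos_of_nonneg_of_nonpos c2 g2.le
    linarith
  have hcalc : ∑ l ∈ R, ((1 + ad G y l - ad G x l + θ * (1 - ad G x l - ad G y l)) *
      (n ^ 2 * ad G y l - 2 * n * (q + degIn G F l) + 4 * m) +
      (1 + ad G x l - ad G y l - θ * (1 - ad G x l - ad G y l)) *
      (n ^ 2 * ad G x l - 2 * n * (p + degIn G F l) + 4 * m)) =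
      8 * n * (p + q) - 2 * n * (q - p) * (q - p + θ * z) - 16 * m := by
    have hterm : ∀ l ∈ R, ((1 + ad G y l - ad G x l + θ * (1 - ad G x l - ad G y l)) *
        (n ^ 2 * ad G y l - 2 * n * (q + degIn G F l) + 4 * m) +
        (1 + ad G x l - ad G y l - θ * (1 - ad G x l - ad G y l)) *
        (n ^ 2 * ad G x l - 2 * n * (p + degIn G F l) + 4 * m)) =
        (2 * n ^ 2 + 2 * n * (q - p) + 2 * n * θ * (q - p)) * ad G x l +
        (2 * n ^ 2 - 2 * n * (q - p) + 2 * n * θ * (q - p)) * ad G y l -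
        4 * n * degIn G F l + (8 * m - 2 * n * (p + q) - 2 * n * θ * (q - p)) * 1 := by
      intro l hl
      have e1 := ad_sq G x l
      have e2 := ad_sq G y l
      have e3 := hcom l (hRF l hl).1
      linear_combination (n ^ 2 + θ * n ^ 2) * e1 + (n ^ 2 - θ * n ^ 2) * e2 - 2 * n ^ 2 * e3
    rw [Finset.sum_congr rfl hterm, Finset.sum_add_distrib, Finset.sum_sub_distrib,
      Finset.sum_add_distrib, ← Finset.mul_sum, ← Finset.mul_sum, ← Finset.mul_sum,
      ← Finset.mul_sum, sa, sb, sd, sone, hzdef]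
    ring
  have gx := h1 x hx
  have gy := h1 y hy
  rw [hcalc, hδ1] at hle
  have i1 : (8 + 2 * (-4 * θ)) * (m - n * p) ≤ 0 :=
    mul_nonpos_of_nonneg_of_nonpos (by linarith) gx.le
  have i2 : (8 - 2 * (-4 * θ)) * (m - n * q) ≤ 0 :=
    mul_nonpos_of_nonneg_of_nonpos (by linarith) gy.le
  have htot : (8 * n * (p + q) - 2 * n * (q - p) * (-4 * θ) - 16 * m) +
      (8 + 2 * (-4 * θ)) * (m - n * p) + (8 - 2 * (-4 * θ)) * (m - n * q) = 0 := by ring
  rcases le_or_gt θ 0 with hc | hc
  · have : (8 + 2 * (-4 * θ)) * (m - n * p) < 0 :=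
      mul_neg_of_pos_of_neg (by linarith) gx
    linarith
  · have : (8 - 2 * (-4 * θ)) * (m - n * q) < 0 :=
      mul_neg_of_pos_of_neg (by linarith) gy
    linarith

end Pool.Agent.V11167.Club
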