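import Mathlib
import Pool.Agent.V11167.ClubDefs
import Pool.Agent.V11167.ClubA

namespace Pool.Agent.V11167.Club

open Finset

set_option linter.unusedSectionVars false

variable {V : Type*} [Fintype V] [DecidableEq V] (G : SimpleGraph V)

/-- The number of parts. -/
def parts {k : ℕ} (c : V → Fin k) : ℕ :=
  (Finset.univ.filter (fun i => (cls c i).Nonempty)).card

theorem exists_best : ∃ c : V → Fin (Fintype.card V + 1),
    ∀ c' : V → Fin (Fintype.card V + 1),
      dens G c' < dens G c ∨ (dens G c' = dens G c ∧ parts c' ≤ parts c) := by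
  obtain ⟨c, hc⟩ := Finite.exists_max
    (fun c : V → Fin (Fintype.card V + 1) => (toLex (dens G c, parts c) : ℚ ×ₗ ℕ))
  refine ⟨c, ?_⟩
  intro c'
  have := hc c'
  rw [Prod.Lex.toLex_le_toLex] at this
  exact this

theorem mem_cls {k : ℕ} (c : V → Fin k) (i : Fin k) (v : V) : v ∈ cls c i ↔ c v = i := by
  unfold cls
  simp

theorem exists_fresh (c : V → Fin (Fintype.card V + 1)) : ∃ j, cls c j = ∅ := by
  by_contra h
  push Not at h
  have hsurj : Function.Surjective c := by
    intro j
    obtain ⟨v, hv⟩ := h j
    exact ⟨v, (mem_cls c j v).1 hv⟩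
  have := Fintype.card_le_of_surjective c hsurj
  rw [Fintype.card_fin] at this
  omega

theorem split (c : V → Fin (Fintype.card V + 1))
    (hc : ∀ c' : V → Fin (Fintype.card V + 1),
      dens G c' < dens G c ∨ (dens G c' = dens G c ∧ parts c' ≤ parts c))
    (i0 : Fin (Fintype.card V + 1)) (S : Finset V) (hS : S ⊆ cls c i0) (hne : S.Nonempty)
    (hne' : (cls c i0 \ S).Nonempty) :
    edgesIn G S / (S.card : ℚ) + edgesIn G (cls c i0 \ S) / ((cls c i0 \ S).card : ℚ) <
      edgesIn G (cls c i0) / ((cls c i0).card : ℚ) := by
  classical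
  obtain ⟨j, hj⟩ := exists_fresh c
  have hji : j ≠ i0 := by
    rintro rfl
    rw [hj] at hne'
    simp at hne'
  set c' : V → Fin (Fintype.card V + 1) := fun v => if v ∈ S then j else c v with hc'
  have hcj : ∀ v, c v ≠ j := by
    intro v h
    have : v ∈ cls c j := (mem_cls c j v).2 h
    rw [hj] at this
    simp at this
  have e1 : cls c' j = S := by
    ext v
    rw [mem_cls]
    simp only [hc']
    constructor
    · intro h
      by_contra hv
      rw [if_neg hv] at h
      exact hcj v h
    · intro h
      rw [if_pos h]
  have e2 : cls c' i0 = cls c i0 \ S := by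
    ext v
    rw [mem_cls, Finset.mem_sdiff, mem_cls]
    simp only [hc']
    by_cases hv : v ∈ S
    · rw [if_pos hv]
      constructor
      · intro h
        exact absurd h hji
      · intro h
        exact absurd hv h.2
    · rw [if_neg hv]
      constructor
      · intro h
        exact ⟨h, hv⟩
      · intro h
        exact h.1
  have e3 : ∀ i, i ≠ j → i ≠ i0 → cls c' i = cls c i := by
    intro i h1 h2
    ext v
    rw [mem_cls, mem_cls]
    simp only [hc']
    by_cases hv : v ∈ S
    · rw [if_pos hv]
      have h3 := (mem_cls c i0 v).1 (hS hv)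
      constructor
      · intro h
        exact absurd h.symm h1
      · intro h
        rw [h3] at h
        exact absurd h.symm h2
    · rw [if_neg hv]
  have hdens : dens G c' = dens G c - edgesIn G (cls c i0) / ((cls c i0).card : ℚ) +
      (edgesIn G S / (S.card : ℚ) +
        edgesIn G (cls c i0 \ S) / ((cls c i0 \ S).card : ℚ)) := by
    unfold dens
    have hi0 : i0 ∈ Finset.univ.erase j := Finset.mem_erase.2 ⟨hji.symm, Finset.mem_univ _⟩
    rw [← Finset.add_sum_erase Finset.univ _ (Finset.mem_univ j),
      ← Finset.add_sum_erase Finset.univ (fun i => edgesIn G (cls c i) / ((cls c i).card : ℚ))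
        (Finset.mem_univ j),
      ← Finset.add_sum_erase (Finset.univ.erase j)
        (fun i => edgesIn G (cls c' i) / ((cls c' i).card : ℚ)) hi0,
      ← Finset.add_sum_erase (Finset.univ.erase j)
        (fun i => edgesIn G (cls c i) / ((cls c i).card : ℚ)) hi0, e1, e2, hj]
    have hrest : ∑ i ∈ (Finset.univ.erase j).erase i0,
        edgesIn G (cls c' i) / ((cls c' i).card : ℚ) =
        ∑ i ∈ (Finset.univ.erase j).erase i0,
        edgesIn G (cls c i) / ((cls c i).card : ℚ) := by
      apply Finset.sum_congr rfl
      intro i hi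
      rw [Finset.mem_erase, Finset.mem_erase] at hi
      rw [e3 i hi.2.1 hi.1]
    rw [hrest, Finset.card_empty, Nat.cast_zero, div_zero]
    ring
  have hparts : parts c' = parts c + 1 := by
    unfold parts
    have hset : (Finset.univ.filter (fun i => (cls c' i).Nonempty)) =
        insert j (Finset.univ.filter (fun i => (cls c i).Nonempty)) := by
      ext i
      simp only [Finset.mem_filter, Finset.mem_univ, true_and, Finset.mem_insert]
      by_cases h1 : i = j
      · subst h1
        rw [e1]
        simp [hne]
      · by_cases h2 : i = i0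
        · subst h2
          rw [e2]
          constructor
          · intro _
            right
            exact hne.mono hS
          · intro _
            exact hne'
        · rw [e3 i h1 h2]
          simp [h1]
    rw [hset, Finset.card_insert_of_notMem]
    simp only [Finset.mem_filter, Finset.mem_univ, true_and]
    rw [hj]
    simp
  rcases hc c' with h | ⟨_, h⟩
  · rw [hdens] at h
    linarith
  · omega

theorem degIn_nat (F : Finset V) (v : V) : ∃ d : ℕ, degIn G F v = d ∧
    d ≤ (G.neighborSet v).ncard := by
  classical
  refine ⟨(F.filter (fun u => G.Adj v u)).card, ?_, ?_⟩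
  · unfold degIn ad
    rw [Finset.card_filter]
    push_cast
    apply Finset.sum_congr rfl
    intro u _
    by_cases h : G.Adj v u <;> simp [h]
  · rw [← Set.ncard_coe_finset]
    apply Set.ncard_le_ncard _ (Set.toFinite _)
    intro u hu
    simp only [Finset.coe_filter] at hu
    exact hu.2

/-- The structure of an optimal partition with the largest number of parts. -/
theorem best_structure (c : V → Fin (Fintype.card V + 1))
    (hc : ∀ c' : V → Fin (Fintype.card V + 1),
      dens G c' < dens G c ∨ (dens G c' = dens G c ∧ parts c' ≤ parts c))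
    (x y : V) (hxy : x ≠ y) (hcls : c x = c y) (hnadj : ¬ G.Adj x y)
    (hcom : ∀ w, c w = c x → ¬ (G.Adj x w ∧ G.Adj y w)) :
    1 ≤ degIn G (cls c (c x)) x ∧ 1 ≤ degIn G (cls c (c x)) y ∧
      degIn G (cls c (c x)) x + degIn G (cls c (c x)) y + 2 ≤ ((cls c (c x)).card : ℚ) ∧
      (((cls c (c x)).card : ℚ) + 2 < 2 * degIn G (cls c (c x)) x ∨
        ((cls c (c x)).card : ℚ) + 2 < 2 * degIn G (cls c (c x)) y) := by
  classical
  set F := cls c (c x) with hF
  have hx : x ∈ F := (mem_cls c _ x).2 rfl
  have hy : y ∈ F := (mem_cls c _ y).2 hcls.symm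
  have hcard2 : 2 ≤ F.card := by
    have : ({x, y} : Finset V) ⊆ F := by
      intro z hz
      simp only [Finset.mem_insert, Finset.mem_singleton] at hz
      rcases hz with rfl | rfl
      · exact hx
      · exact hy
    have h := Finset.card_le_card this
    rwa [Finset.card_pair hxy] at h
  have hn2 : (2 : ℚ) ≤ (F.card : ℚ) := by exact_mod_cast hcard2
  have hE : ∀ A : Finset V, edgesIn G A = M G A / 2 := fun A => rfl
  have h1 : ∀ v ∈ F, M G F / 2 - F.card * degIn G F v < 0 := by
    intro v hv
    have hsd : F \ {v} = F.erase v := Finset.sdiff_singleton_eq_erase v F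
    have hc1 : (F.erase v).card = F.card - 1 := Finset.card_erase_of_mem hv
    have hs := split G c hc (c x) {v} (by
      intro z hz
      rw [Finset.mem_singleton] at hz
      rw [hz]
      exact hv) ⟨v, Finset.mem_singleton_self v⟩ (by
      rw [← hF, hsd, ← Finset.card_pos, hc1]
      omega)
    rw [← hF, hsd, hE, hE, hE, M_singleton, M_erase G F v hv, hc1,
      Nat.cast_sub (by omega)] at hs
    simp only [zero_div, zero_add, Nat.cast_one] at hs
    rw [div_lt_div_iff₀ (by linarith) (by linarith)] at hs
    nlinarith
  have hM0 : 0 ≤ M G F := by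
    unfold M
    apply Finset.sum_nonneg
    intro u _
    apply Finset.sum_nonneg
    intro v _
    unfold ad
    split_ifs <;> norm_num
  have hpos : ∀ v ∈ F, 1 ≤ degIn G F v := by
    intro v hv
    obtain ⟨d, hd, _⟩ := degIn_nat G F v
    rw [hd]
    have h := h1 v hv
    rw [hd] at h
    have hd0 : d ≠ 0 := by
      rintro rfl
      simp only [Nat.cast_zero, mul_zero, sub_zero] at h
      linarith
    exact_mod_cast Nat.one_le_iff_ne_zero.2 hd0
  refine ⟨hpos x hx, hpos y hy, ?_⟩
  have hadxy : ad G x y = 0 := by
    unfold ad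
    rw [if_neg hnadj]
  -- the case of two vertices
  have hcard3 : 3 ≤ F.card := by
    by_contra hlt
    have hF2 : F = {x, y} := by
      symm
      apply Finset.eq_of_subset_of_card_le
      · intro z hz
        simp only [Finset.mem_insert, Finset.mem_singleton] at hz
        rcases hz with rfl | rfl
        · exact hx
        · exact hy
      · rw [Finset.card_pair hxy]
        omega
    have hd := hpos x hx
    unfold degIn at hd
    rw [hF2, Finset.sum_pair hxy, ad_self, hadxy] at hd
    linarith
  have hn3 : (3 : ℚ) ≤ (F.card : ℚ) := by exact_mod_cast hcard3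
  have h2 : ∀ u ∈ F, ∀ v ∈ F, u ≠ v → (F.card : ℚ) ^ 2 * ad G u v -
      2 * F.card * (degIn G F u + degIn G F v) + 4 * (M G F / 2) < 0 := by
    intro u hu v hv huv
    have hsub : ({u, v} : Finset V) ⊆ F := by
      intro z hz
      simp only [Finset.mem_insert, Finset.mem_singleton] at hz
      rcases hz with rfl | rfl
      · exact hu
      · exact hv
    have hc1 : (F \ {u, v}).card = F.card - 2 := by
      rw [Finset.card_sdiff_of_subset hsub, Finset.card_pair huv]
    have hs := split G c hc (c x) {u, v} hsub ⟨u, by simp⟩ (by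
      rw [← hF, ← Finset.card_pos, hc1]
      omega)
    rw [← hF, hE, hE, hE, M_pair G u v huv, M_erase_pair G F u v hu hv huv, hc1,
      Finset.card_pair huv, Nat.cast_sub (by omega)] at hs
    push_cast at hs
    set n : ℚ := (F.card : ℚ) with hn
    set m : ℚ := M G F with hm
    have hpos2 : 0 < n - 2 := by linarith
    have hposn : 0 < n := by linarith
    have hmul := mul_lt_mul_of_pos_left hs (by positivity : (0 : ℚ) < 2 * n * (n - 2))
    have el : 2 * n * (n - 2) * (2 * ad G u v / 2 / 2 +
        (m - 2 * degIn G F u - 2 * degIn G F v + 2 * ad G u v) / 2 / (n - 2)) =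
        n * (n - 2) * ad G u v +
        n * (m - 2 * degIn G F u - 2 * degIn G F v + 2 * ad G u v) := by
      field_simp
    have er : 2 * n * (n - 2) * (m / 2 / n) = (n - 2) * m := by
      field_simp
    rw [el, er] at hmul
    nlinarith
  have hcom' : ∀ l ∈ F, ad G x l * ad G y l = 0 := by
    intro l hl
    have hl' := (mem_cls c _ l).1 hl
    have h := hcom l hl'
    unfold ad
    by_cases ha : G.Adj x l
    · have hb : ¬ G.Adj y l := fun hb => h ⟨ha, hb⟩
      rw [if_neg hb, mul_zero]
    · rw [if_neg ha, zero_mul]
  exact key G F x y hx hy hxy hadxy hcom' h1 h2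

end Pool.Agent.V11167.Club
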