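import Mathlib
import Pool.Agent.V11167.ClubDefs
import Pool.Agent.V11167.ClubA
import Pool.Agent.V11167.ClubB

namespace Pool.Agent.V11167.Club

open Finset

set_option linter.unusedSectionVars false

variable {V : Type*} [Fintype V] [DecidableEq V] (G : SimpleGraph V)

theorem near_refl (F : Finset V) (k : ℕ) (u : V) : Near G F k u u := by
  cases k with
  | zero => rfl
  | succ k => exact Or.inl rfl

theorem near_mono (F : Finset V) (k : ℕ) (u v : V) (h : Near G F k u v) :
    Near G F (k + 1) u v := by
  induction k generalizing u with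
  | zero =>
    left
    exact h
  | succ k ih =>
    rcases h with h | ⟨w, hw, ha, hn⟩
    · left; exact h
    · right; exact ⟨w, hw, ha, ih w hn⟩

theorem near_mono' (F : Finset V) (k l : ℕ) (u v : V) (h : Near G F k u v) :
    Near G F (k + l) u v := by
  induction l with
  | zero => exact h
  | succ l ih => exact near_mono G F _ u v ih

theorem near_trans (F : Finset V) (k l : ℕ) (u v w : V) (h1 : Near G F k u v)
    (h2 : Near G F l v w) : Near G F (k + l) u w := by
  induction k generalizing u with
  | zero =>
    rw [Nat.zero_add]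
    have : u = v := h1
    rw [this]
    exact h2
  | succ k ih =>
    rcases h1 with h | ⟨z, hz, ha, hn⟩
    · rw [h, Nat.add_comm]
      exact near_mono' G F l (k + 1) v w h2
    · rw [show k + 1 + l = (k + l) + 1 by ring]
      right
      exact ⟨z, hz, ha, ih z hn⟩

theorem near_one (F : Finset V) (u v : V) (hv : v ∈ F) (h : G.Adj u v) : Near G F 1 u v := by
  right
  exact ⟨v, hv, h, rfl⟩

/-- Vertices that are equal, adjacent or have a common neighbour in `F`. -/
theorem near_two (F : Finset V) (u v : V) (hv : v ∈ F)
    (h : u = v ∨ G.Adj u v ∨ ∃ w ∈ F, G.Adj u w ∧ G.Adj v w) : Near G F 2 u v := by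
  rcases h with h | h | ⟨w, hw, h1, h2⟩
  · rw [h]
    exact near_refl G F 2 v
  · exact near_mono G F 1 u v (near_one G F u v hv h)
  · right
    refine ⟨w, hw, h1, ?_⟩
    right
    exact ⟨v, hv, h2.symm, rfl⟩

/-- The partition with the required properties. -/
theorem main : ∃ c : V → Fin (Fintype.card V + 1), Optimal G c ∧
    (∀ x y, c x = c y → Near G (cls c (c x)) 5 x y) ∧
    (∀ x y, x ≠ y → c x = c y → ¬ G.Adj x y → (∀ w, c w = c x → ¬ (G.Adj x w ∧ G.Adj y w)) →
      (((cls c (c x)).card : ℚ) + 2 < 2 * degIn G (cls c (c x)) x ∨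
        ((cls c (c x)).card : ℚ) + 2 < 2 * degIn G (cls c (c x)) y)) ∧
    ((∀ v, (G.neighborSet v).ncard ≤ 5) →
      ∀ x y, c x = c y → Near G (cls c (c x)) 2 x y) := by
  classical
  obtain ⟨c, hc⟩ := exists_best G
  refine ⟨c, ?_, ?_, ?_, ?_⟩
  · intro c'
    rcases hc c' with h | ⟨h, _⟩
    · exact h.le
    · exact h.le
  · -- diameter at most five
    intro x y hxy
    set F := cls c (c x) with hF
    have hclsF : ∀ u ∈ F, c u = c x := fun u hu => (mem_cls c _ u).1 hu
    -- high vertices
    let hi : V → Prop := fun u => (F.card : ℚ) + 2 < 2 * degIn G F u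
    have far : ∀ u ∈ F, ∀ v ∈ F, ¬ Near G F 2 u v → (hi u ∨ hi v) := by
      intro u hu v hv hn
      have huv : u ≠ v := by
        rintro rfl
        exact hn (near_refl G F 2 _)
      have hna : ¬ G.Adj u v := fun h => hn (near_two G F u v hv (Or.inr (Or.inl h)))
      have hcom : ∀ w, c w = c u → ¬ (G.Adj u w ∧ G.Adj v w) := by
        intro w hw h
        apply hn
        apply near_two G F u v hv
        right; right
        refine ⟨w, ?_, h.1, h.2⟩
        rw [hF, mem_cls, hw]
        exact hclsF u hu
      have hcu := hclsF u hu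
      have hcv := hclsF v hv
      have := (best_structure G c hc u v huv (hcu.trans hcv.symm) hna hcom).2.2.2
      rw [hcu] at this
      exact this
    have hihi : ∀ u ∈ F, ∀ v ∈ F, hi u → hi v → Near G F 2 u v := by
      intro u hu v hv h1 h2
      by_contra hn
      have huv : u ≠ v := by
        rintro rfl
        exact hn (near_refl G F 2 _)
      have hna : ¬ G.Adj u v := fun h => hn (near_two G F u v hv (Or.inr (Or.inl h)))
      have hcom : ∀ w, c w = c u → ¬ (G.Adj u w ∧ G.Adj v w) := by
        intro w hw h
        apply hn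
        apply near_two G F u v hv
        right; right
        refine ⟨w, ?_, h.1, h.2⟩
        rw [hF, mem_cls, hw]
        exact hclsF u hu
      have hcu := hclsF u hu
      have hcv := hclsF v hv
      have := (best_structure G c hc u v huv (hcu.trans hcv.symm) hna hcom).2.2.1
      rw [hcu] at this
      have h1' : (F.card : ℚ) + 2 < 2 * degIn G F u := h1
      have h2' : (F.card : ℚ) + 2 < 2 * degIn G F v := h2
      rw [← hF] at this
      linarith
    have hlolo : ∀ u ∈ F, ∀ v ∈ F, ¬ hi u → ¬ hi v → Near G F 2 u v := by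
      intro u hu v hv h1 h2
      by_contra hn
      rcases far u hu v hv hn with h | h
      · exact h1 h
      · exact h2 h
    have hxF : x ∈ F := (mem_cls c _ x).2 rfl
    have hyF : y ∈ F := (mem_cls c _ y).2 hxy.symm
    -- an edge between high and low vertices
    have hedge : ∀ u ∈ F, ∀ v ∈ F, hi u → ¬ hi v →
        ∃ a ∈ F, ∃ b ∈ F, hi a ∧ ¬ hi b ∧ G.Adj a b := by
      intro u hu v hv h1 h2
      by_contra hno
      push Not at hno
      set S := F.filter (fun w => hi w) with hS
      have hSF : S ⊆ F := Finset.filter_subset _ _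
      have huS : u ∈ S := Finset.mem_filter.2 ⟨hu, h1⟩
      have hvS : v ∈ F \ S := by
        rw [Finset.mem_sdiff, hS, Finset.mem_filter]
        exact ⟨hv, fun h => h2 h.2⟩
      have hs := split G c hc (c x) S hSF ⟨u, huS⟩ ⟨v, hvS⟩
      rw [← hF] at hs
      have hM : M G F = M G S + M G (F \ S) := by
        unfold M
        have hcross : ∀ a ∈ S, ∀ b ∈ F \ S, ad G a b = 0 := by
          intro a ha b hb
          rw [hS, Finset.mem_filter] at ha
          rw [Finset.mem_sdiff, hS, Finset.mem_filter] at hb
          unfold ad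
          rw [if_neg]
          exact hno a ha.1 b hb.1 ha.2 (fun h => hb.2 ⟨hb.1, h⟩)
        have e0 : ∀ φ : V → ℚ, ∑ l ∈ F, φ l = ∑ l ∈ S, φ l + ∑ l ∈ F \ S, φ l := by
          intro φ
          rw [← Finset.sum_sdiff hSF, add_comm]
        rw [e0]
        congr 1
        · apply Finset.sum_congr rfl
          intro a ha
          rw [e0, Finset.sum_eq_zero (fun b hb => hcross a ha b hb), add_zero]
        · apply Finset.sum_congr rfl
          intro b hb
          rw [e0, Finset.sum_eq_zero (fun a ha => by rw [ad_comm]; exact hcross a ha b hb),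
            zero_add]
      have hcard : (S.card : ℚ) + ((F \ S).card : ℚ) = (F.card : ℚ) := by
        have := Finset.card_sdiff_add_card_eq_card hSF
        have h' : ((F \ S).card : ℚ) + (S.card : ℚ) = (F.card : ℚ) := by exact_mod_cast this
        linarith
      have hSpos : (0 : ℚ) < S.card := by exact_mod_cast Finset.card_pos.2 ⟨u, huS⟩
      have hTpos : (0 : ℚ) < (F \ S).card := by exact_mod_cast Finset.card_pos.2 ⟨v, hvS⟩
      have hMnn : ∀ A : Finset V, 0 ≤ M G A := by
        intro A
        unfold M
        apply Finset.sum_nonneg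
        intro u _
        apply Finset.sum_nonneg
        intro v _
        unfold ad
        split_ifs <;> norm_num
      have hE : ∀ A : Finset V, edgesIn G A = M G A / 2 := fun A => rfl
      rw [hE, hE, hE, hM, ← hcard] at hs
      have k1 : M G S / 2 / ((S.card : ℚ) + ((F \ S).card : ℚ)) ≤ M G S / 2 / (S.card : ℚ) := by
        apply div_le_div_of_nonneg_left _ hSpos (by linarith)
        have := hMnn S
        linarith
      have k2 : M G (F \ S) / 2 / ((S.card : ℚ) + ((F \ S).card : ℚ)) ≤
          M G (F \ S) / 2 / ((F \ S).card : ℚ) := by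
        apply div_le_div_of_nonneg_left _ hTpos (by linarith)
        have := hMnn (F \ S)
        linarith
      have k3 : (M G S + M G (F \ S)) / 2 / ((S.card : ℚ) + ((F \ S).card : ℚ)) =
          M G S / 2 / ((S.card : ℚ) + ((F \ S).card : ℚ)) +
          M G (F \ S) / 2 / ((S.card : ℚ) + ((F \ S).card : ℚ)) := by ring
      rw [k3] at hs
      linarith
    by_cases h1 : hi x
    · by_cases h2 : hi y
      · exact near_mono' G F 2 3 x y (hihi x hxF y hyF h1 h2)
      · obtain ⟨a, ha, b, hb, h3, h4, h5⟩ := hedge x hxF y hyF h1 h2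
        have s1 := hihi x hxF a ha h1 h3
        have s2 := near_one G F a b hb h5
        have s3 := hlolo b hb y hyF h4 h2
        exact near_trans G F 3 2 x b y (near_trans G F 2 1 x a b s1 s2) s3
    · by_cases h2 : hi y
      · obtain ⟨a, ha, b, hb, h3, h4, h5⟩ := hedge y hyF x hxF h2 h1
        have s1 := hlolo x hxF b hb h1 h4
        have s2 := near_one G F b a ha h5.symm
        have s3 := hihi a ha y hyF h3 h2
        exact near_trans G F 3 2 x a y (near_trans G F 2 1 x b a s1 s2) s3
      · exact near_mono' G F 2 3 x y (hlolo x hxF y hyF h1 h2)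
  · intro x y hxy hcls hna hcom
    exact (best_structure G c hc x y hxy hcls hna hcom).2.2.2
  · intro hdeg x y hcls
    by_contra hn
    set F := cls c (c x) with hF
    have hyF : y ∈ F := (mem_cls c _ y).2 hcls.symm
    have hxy : x ≠ y := by
      rintro rfl
      exact hn (near_refl G F 2 _)
    have hna : ¬ G.Adj x y := fun h => hn (near_two G F x y hyF (Or.inr (Or.inl h)))
    have hcom : ∀ w, c w = c x → ¬ (G.Adj x w ∧ G.Adj y w) := by
      intro w hw h
      exact hn (near_two G F x y hyF (Or.inr (Or.inr ⟨w, (mem_cls c _ w).2 hw, h.1, h.2⟩)))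
    obtain ⟨b1, b2, b3, b4⟩ := best_structure G c hc x y hxy hcls hna hcom
    rw [← hF] at b1 b2 b3 b4
    obtain ⟨d1, hd1, hd1'⟩ := degIn_nat G F x
    obtain ⟨d2, hd2, hd2'⟩ := degIn_nat G F y
    have u1 : degIn G F x ≤ 5 := by
      rw [hd1]
      exact_mod_cast le_trans hd1' (hdeg x)
    have u2 : degIn G F y ≤ 5 := by
      rw [hd2]
      exact_mod_cast le_trans hd2' (hdeg y)
    rcases b4 with b4 | b4
    · linarith
    · linarith

end Pool.Agent.V11167.Club
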