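import Mathlib
import Pool.Agent.V11167.ClubDefs
import Pool.Agent.V11167.ClubA
import Pool.Agent.V11167.ClubB
import Pool.Agent.V11167.ClubC

namespace Pool.Agent.V11167.Club

open Finset

set_option linter.unusedSectionVars false

variable {V : Type*} [Fintype V] [DecidableEq V] (G : SimpleGraph V)

/-- The final inequality. -/
theorem arith3 (n p q t : ℚ) (hp : 1 ≤ p) (hq : n + 2 < 2 * q) (hpq : p + q + 2 ≤ n)
    (I : q * (n / 2 + 1) + p * (n / 2 + 2 * t - p) + (n - 2 - p - q) * t ≤
      2 * (n * t) - p - q)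
    (II : 2 * t < n / 2 + p - q - 2) : False := by
  have hpos : 0 < n - p + q + 2 := by linarith
  have h1 := mul_lt_mul_of_pos_right II hpos
  have a0 : 0 ≤ n / 2 - p := by linarith
  have a1 : n / 2 - p ≤ q - p - 1 := by linarith
  have a2 : (n / 2 - p) * (n / 2 - p) ≤ (q - p - 1) * (q - p - 1) := mul_self_le_mul_self a0 a1
  have a3 : 0 ≤ (q - p) * (n - (q - p)) := mul_nonneg (by linarith) (by linarith)
  nlinarith [mul_self_nonneg (q - p)]

/-- No two vertices at distance at least four. -/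
theorem key4 (F : Finset V) (x y : V) (hx : x ∈ F) (hy : y ∈ F) (hxy : x ≠ y)
    (hnadj : ad G x y = 0) (hcom : ∀ l ∈ F, ad G x l * ad G y l = 0)
    (h1 : ∀ v ∈ F, M G F / 2 - F.card * degIn G F v < 0)
    (h2 : ∀ u ∈ F, ∀ v ∈ F, u ≠ v → (F.card : ℚ) ^ 2 * ad G u v -
      2 * F.card * (degIn G F u + degIn G F v) + 4 * (M G F / 2) < 0)
    (hp : 1 ≤ degIn G F x) (hpq : degIn G F x + degIn G F y + 2 ≤ (F.card : ℚ))
    (hhi : (F.card : ℚ) + 2 < 2 * degIn G F y)
    (hz : ∀ z ∈ F, ad G x z = 1 → degIn G F z + degIn G F y + 2 ≤ (F.card : ℚ))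
    (hw : ∀ w ∈ F, ad G y w = 1 → (F.card : ℚ) + 2 < 2 * degIn G F w) : False := by
  set n : ℚ := (F.card : ℚ) with hn
  set m : ℚ := M G F / 2 with hm
  set p := degIn G F x with hpdef
  set q := degIn G F y with hqdef
  set R := (F.erase x).erase y with hR
  have hnpos : 0 < n := by linarith
  obtain ⟨t, ht⟩ : ∃ t : ℚ, n * t = m := ⟨m / n, by field_simp⟩
  have hyx : y ∈ F.erase x := Finset.mem_erase.2 ⟨hxy.symm, hy⟩
  have hsum : ∀ φ : V → ℚ, ∑ l ∈ R, φ l = ∑ l ∈ F, φ l - φ x - φ y := by
    intro φ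
    have e1 := Finset.sum_erase_add F φ hx
    have e2 := Finset.sum_erase_add (F.erase x) φ hyx
    rw [hR]
    linarith
  have hyxad : ad G y x = 0 := by rw [ad_comm, hnadj]
  have sa : ∑ l ∈ R, ad G x l = p := by
    rw [hsum (fun l => ad G x l), ad_self, hnadj, hpdef]
    unfold degIn
    ring
  have sb : ∑ l ∈ R, ad G y l = q := by
    rw [hsum (fun l => ad G y l), ad_self, hyxad, hqdef]
    unfold degIn
    ring
  have sd : ∑ l ∈ R, degIn G F l = 2 * m - p - q := by
    rw [hsum (fun l => degIn G F l), ← M_eq, hm, hpdef, hqdef]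
    ring
  have sone : ∑ l ∈ R, (1 : ℚ) = n - 2 := by
    rw [hsum (fun _ => (1 : ℚ)), hn]
    simp only [Finset.sum_const, nsmul_eq_mul, mul_one]
    ring
  have hRF : ∀ l ∈ R, l ∈ F ∧ l ≠ x ∧ l ≠ y := by
    intro l hl
    rw [hR, Finset.mem_erase, Finset.mem_erase] at hl
    exact ⟨hl.2.2, hl.2.1, hl.1⟩
  have had : ∀ u v, ad G u v = 0 ∨ ad G u v = 1 := by
    intro u v
    unfold ad
    split_ifs
    · right; rfl
    · left; rfl
  have hlow : ∀ l ∈ F, t < degIn G F l := by
    intro l hl
    have h := h1 l hl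
    rw [← ht] at h
    nlinarith
  have hadj : ∀ l ∈ F, l ≠ x → ad G x l = 1 → n / 2 + 2 * t - p < degIn G F l := by
    intro l hl hlx ha
    have h := h2 x hx l hl hlx.symm
    rw [ha, ← ht] at h
    by_contra hcon
    rw [not_lt] at hcon
    nlinarith
  have hterm : ∀ l ∈ R, ad G y l * (n / 2 + 1) + ad G x l * (n / 2 + 2 * t - p) +
      (1 - ad G x l - ad G y l) * t ≤ degIn G F l := by
    intro l hl
    obtain ⟨hlF, hlx, hly⟩ := hRF l hl
    rcases had x l with ha | ha
    · rcases had y l with hb | hb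
      · rw [ha, hb]
        have := hlow l hlF
        linarith
      · rw [ha, hb]
        have := hw l hlF hb
        linarith
    · rcases had y l with hb | hb
      · rw [ha, hb]
        have := hadj l hlF hlx ha
        linarith
      · exfalso
        have := hcom l hlF
        rw [ha, hb] at this
        norm_num at this
  have hI := Finset.sum_le_sum hterm
  have hcalc : ∑ l ∈ R, (ad G y l * (n / 2 + 1) + ad G x l * (n / 2 + 2 * t - p) +
      (1 - ad G x l - ad G y l) * t) =
      q * (n / 2 + 1) + p * (n / 2 + 2 * t - p) + (n - 2 - p - q) * t := by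
    rw [Finset.sum_add_distrib, Finset.sum_add_distrib, ← Finset.sum_mul, ← Finset.sum_mul,
      ← Finset.sum_mul, Finset.sum_sub_distrib, Finset.sum_sub_distrib, sa, sb, sone]
  rw [hcalc, sd, ← ht] at hI
  -- a neighbour of x
  obtain ⟨z, hzF, hzx⟩ : ∃ z ∈ F, ad G x z = 1 := by
    by_contra hno
    push Not at hno
    have : degIn G F x = 0 := by
      unfold degIn
      apply Finset.sum_eq_zero
      intro l hl
      rcases had x l with ha | ha
      · exact ha
      · exact absurd ha (hno l hl)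
    linarith
  have hzx' : z ≠ x := by
    rintro rfl
    rw [ad_self] at hzx
    norm_num at hzx
  have b1 := hadj z hzF hzx' hzx
  have b2 := hz z hzF hzx
  exact arith3 n p q t hp hhi hpq (by linarith) (by linarith)

/-- The vertex of small part-degree has part-degree above one. -/
theorem keyp (F : Finset V) (x y : V) (hx : x ∈ F) (hy : y ∈ F) (hxy : x ≠ y)
    (hnadj : ad G x y = 0)
    (h1 : ∀ v ∈ F, M G F / 2 - F.card * degIn G F v < 0)
    (h2 : ∀ u ∈ F, ∀ v ∈ F, u ≠ v → (F.card : ℚ) ^ 2 * ad G u v -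
      2 * F.card * (degIn G F u + degIn G F v) + 4 * (M G F / 2) < 0)
    (hp : 1 ≤ degIn G F x) (hpq : degIn G F x + degIn G F y + 2 ≤ (F.card : ℚ))
    (hhi : (F.card : ℚ) + 2 < 2 * degIn G F y) : 1 < degIn G F x := by
  by_contra hp1
  rw [not_lt] at hp1
  have hpe : degIn G F x = 1 := le_antisymm hp1 hp
  set n : ℚ := (F.card : ℚ) with hn
  set m : ℚ := M G F / 2 with hm
  set q := degIn G F y with hqdef
  set R := (F.erase x).erase y with hR
  have hnpos : 0 < n := by linarith
  obtain ⟨t, ht⟩ : ∃ t : ℚ, n * t = m := ⟨m / n, by field_simp⟩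
  have hyx : y ∈ F.erase x := Finset.mem_erase.2 ⟨hxy.symm, hy⟩
  have hsum : ∀ φ : V → ℚ, ∑ l ∈ R, φ l = ∑ l ∈ F, φ l - φ x - φ y := by
    intro φ
    have e1 := Finset.sum_erase_add F φ hx
    have e2 := Finset.sum_erase_add (F.erase x) φ hyx
    rw [hR]
    linarith
  have sa : ∑ l ∈ R, ad G x l = 1 := by
    rw [hsum (fun l => ad G x l), ad_self, hnadj, ← hpe]
    unfold degIn
    ring
  have sd : ∑ l ∈ R, degIn G F l = 2 * m - 1 - q := by
    rw [hsum (fun l => degIn G F l), ← M_eq, hm, hpe, hqdef]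
    ring
  have sone : ∑ l ∈ R, (1 : ℚ) = n - 2 := by
    rw [hsum (fun _ => (1 : ℚ)), hn]
    simp only [Finset.sum_const, nsmul_eq_mul, mul_one]
    ring
  have hRF : ∀ l ∈ R, l ∈ F ∧ l ≠ x ∧ l ≠ y := by
    intro l hl
    rw [hR, Finset.mem_erase, Finset.mem_erase] at hl
    exact ⟨hl.2.2, hl.2.1, hl.1⟩
  have had : ∀ u v, ad G u v = 0 ∨ ad G u v = 1 := by
    intro u v
    unfold ad
    split_ifs
    · right; rfl
    · left; rfl
  have hlow : ∀ l ∈ F, t < degIn G F l := by
    intro l hl
    have h := h1 l hl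
    rw [← ht] at h
    nlinarith
  have hadj : ∀ l ∈ F, l ≠ x → ad G x l = 1 → n / 2 + 2 * t - 1 < degIn G F l := by
    intro l hl hlx ha
    have h := h2 x hx l hl hlx.symm
    rw [ha, ← ht, hpe] at h
    by_contra hcon
    rw [not_lt] at hcon
    nlinarith
  have hterm : ∀ l ∈ R, ad G x l * (n / 2 + 2 * t - 1) +
      (1 - ad G x l) * t ≤ degIn G F l := by
    intro l hl
    obtain ⟨hlF, hlx, hly⟩ := hRF l hl
    rcases had x l with ha | ha
    · rw [ha]
      have := hlow l hlF
      linarith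
    · rw [ha]
      have := hadj l hlF hlx ha
      linarith
  have hI := Finset.sum_le_sum hterm
  have hcalc : ∑ l ∈ R, (ad G x l * (n / 2 + 2 * t - 1) + (1 - ad G x l) * t) =
      1 * (n / 2 + 2 * t - 1) + (n - 2 - 1) * t := by
    rw [Finset.sum_add_distrib, ← Finset.sum_mul, ← Finset.sum_mul, Finset.sum_sub_distrib,
      sa, sone]
  rw [hcalc, sd, ← ht] at hI
  have ht1 := hlow x hx
  rw [hpe] at ht1
  nlinarith

/-- The inequalities from splitting off one or two vertices. -/
theorem cuts (c : V → Fin (Fintype.card V + 1))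
    (hc : ∀ c' : V → Fin (Fintype.card V + 1),
      dens G c' < dens G c ∨ (dens G c' = dens G c ∧ parts c' ≤ parts c))
    (i0 : Fin (Fintype.card V + 1)) (hcard3 : 3 ≤ (cls c i0).card) :
    (∀ v ∈ cls c i0, M G (cls c i0) / 2 - (cls c i0).card * degIn G (cls c i0) v < 0) ∧
    (∀ u ∈ cls c i0, ∀ v ∈ cls c i0, u ≠ v → ((cls c i0).card : ℚ) ^ 2 * ad G u v -
      2 * (cls c i0).card * (degIn G (cls c i0) u + degIn G (cls c i0) v) +
        4 * (M G (cls c i0) / 2) < 0) := by
  classical
  set F := cls c i0 with hF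
  have hn3 : (3 : ℚ) ≤ (F.card : ℚ) := by exact_mod_cast hcard3
  have hE : ∀ A : Finset V, edgesIn G A = M G A / 2 := fun A => rfl
  constructor
  · intro v hv
    have hsd : F \ {v} = F.erase v := Finset.sdiff_singleton_eq_erase v F
    have hc1 : (F.erase v).card = F.card - 1 := Finset.card_erase_of_mem hv
    have hs := split G c hc i0 {v} (by
      intro z hz
      rw [Finset.mem_singleton] at hz
      rw [hz]
      exact hv) ⟨v, Finset.mem_singleton_self v⟩ (by
      rw [← hF, hsd, ← Finset.card_pos, hc1]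
      omega)
    rw [← hF, hsd, hE, hE, hE, M_singleton, M_erase G F v hv, hc1,
      Nat.cast_sub (by omega)] at hs
    simp only [zero_div, zero_add, Nat.cast_one] at hs
    rw [div_lt_div_iff₀ (by linarith) (by linarith)] at hs
    nlinarith
  · intro u hu v hv huv
    have hsub : ({u, v} : Finset V) ⊆ F := by
      intro z hz
      simp only [Finset.mem_insert, Finset.mem_singleton] at hz
      rcases hz with rfl | rfl
      · exact hu
      · exact hv
    have hc1 : (F \ {u, v}).card = F.card - 2 := by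
      rw [Finset.card_sdiff_of_subset hsub, Finset.card_pair huv]
    have hs := split G c hc i0 {u, v} hsub ⟨u, by simp⟩ (by
      rw [← hF, ← Finset.card_pos, hc1]
      omega)
    rw [← hF, hE, hE, hE, M_pair G u v huv, M_erase_pair G F u v hu hv huv, hc1,
      Finset.card_pair huv, Nat.cast_sub (by omega)] at hs
    push_cast at hs
    set n : ℚ := (F.card : ℚ) with hn
    set m : ℚ := M G F with hm
    have hpos2 : 0 < n - 2 := by linarith
    have hposn : 0 < n := by linarith
    have hmul := mul_lt_mul_of_pos_left hs (by positivity : (0 : ℚ) < 2 * n * (n - 2))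
    have el : 2 * n * (n - 2) * (2 * ad G u v / 2 / 2 +
        (m - 2 * degIn G F u - 2 * degIn G F v + 2 * ad G u v) / 2 / (n - 2)) =
        n * (n - 2) * ad G u v +
        n * (m - 2 * degIn G F u - 2 * degIn G F v + 2 * ad G u v) := by
      field_simp
    have er : 2 * n * (n - 2) * (m / 2 / n) = (n - 2) * m := by
      field_simp
    rw [el, er] at hmul
    nlinarith

/-- Two vertices of a part which are not within distance two. -/
theorem far_struct (c : V → Fin (Fintype.card V + 1))
    (hc : ∀ c' : V → Fin (Fintype.card V + 1),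
      dens G c' < dens G c ∨ (dens G c' = dens G c ∧ parts c' ≤ parts c))
    (i0 : Fin (Fintype.card V + 1)) (u v : V) (hu : c u = i0) (hv : c v = i0)
    (hn : ¬ Near G (cls c i0) 2 u v) :
    u ≠ v ∧ ad G u v = 0 ∧ (∀ w ∈ cls c i0, ad G u w * ad G v w = 0) ∧
    1 ≤ degIn G (cls c i0) u ∧ 1 ≤ degIn G (cls c i0) v ∧
      degIn G (cls c i0) u + degIn G (cls c i0) v + 2 ≤ ((cls c i0).card : ℚ) ∧
      (((cls c i0).card : ℚ) + 2 < 2 * degIn G (cls c i0) u ∨
        ((cls c i0).card : ℚ) + 2 < 2 * degIn G (cls c i0) v) := by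
  have hvF : v ∈ cls c i0 := (mem_cls c _ v).2 hv
  have huv : u ≠ v := by
    rintro rfl
    exact hn (near_refl G _ 2 _)
  have hna : ¬ G.Adj u v := fun h => hn (near_two G _ u v hvF (Or.inr (Or.inl h)))
  have hcom : ∀ w, c w = c u → ¬ (G.Adj u w ∧ G.Adj v w) := by
    intro w hw h
    exact hn (near_two G _ u v hvF
      (Or.inr (Or.inr ⟨w, (mem_cls c _ w).2 (hw.trans hu), h.1, h.2⟩)))
  have hb := best_structure G c hc u v huv (hu.trans hv.symm) hna hcom
  rw [hu] at hb
  refine ⟨huv, ?_, ?_, hb⟩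
  · unfold ad
    rw [if_neg hna]
  · intro l hl
    have hl' := (mem_cls c _ l).1 hl
    have h := hcom l (hl'.trans hu.symm)
    unfold ad
    by_cases ha : G.Adj u l
    · have hb : ¬ G.Adj v l := fun hb => h ⟨ha, hb⟩
      rw [if_neg hb, mul_zero]
    · rw [if_neg ha, zero_mul]

theorem near_symm (F : Finset V) (k : ℕ) (u v : V) (hu : u ∈ F) (h : Near G F k u v) :
    Near G F k v u := by
  induction k generalizing u with
  | zero => exact (show u = v from h).symm
  | succ k ih =>
    rcases h with h | ⟨w, hw, ha, hn⟩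
    · left
      exact h.symm
    · exact near_trans G F k 1 v w u (ih w hw hn) (near_one G F w u hu ha.symm)

theorem adj_of_ad {u v : V} (h : ad G u v = 1) : G.Adj u v := by
  unfold ad at h
  by_contra hcon
  rw [if_neg hcon] at h
  norm_num at h

theorem near_three_hi (c : V → Fin (Fintype.card V + 1))
    (hc : ∀ c' : V → Fin (Fintype.card V + 1),
      dens G c' < dens G c ∨ (dens G c' = dens G c ∧ parts c' ≤ parts c))
    (i0 : Fin (Fintype.card V + 1)) (x y : V) (hx : c x = i0) (hy : c y = i0)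
    (hn : ¬ Near G (cls c i0) 3 x y)
    (hhi : ((cls c i0).card : ℚ) + 2 < 2 * degIn G (cls c i0) y) : False := by
  have hxF : x ∈ cls c i0 := (mem_cls c _ x).2 hx
  have hyF : y ∈ cls c i0 := (mem_cls c _ y).2 hy
  have hn2 : ¬ Near G (cls c i0) 2 x y := fun h => hn (near_mono G _ 2 x y h)
  obtain ⟨f1, f2, f3, f4, f5, f6, f7⟩ := far_struct G c hc i0 x y hx hy hn2
  have hcard3 : 3 ≤ (cls c i0).card := by
    have : (3 : ℚ) ≤ ((cls c i0).card : ℚ) := by linarith
    exact_mod_cast this
  obtain ⟨h1, h2⟩ := cuts G c hc i0 hcard3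
  apply key4 G (cls c i0) x y hxF hyF f1 f2 f3 h1 h2 f4 f6 hhi
  · intro z hz haz
    have hzn : ¬ Near G (cls c i0) 2 z y := by
      intro h
      apply hn
      right
      exact ⟨z, hz, adj_of_ad G haz, h⟩
    exact (far_struct G c hc i0 z y ((mem_cls c _ z).1 hz) hy hzn).2.2.2.2.2.1
  · intro w hw haw
    have hwn : ¬ Near G (cls c i0) 2 x w := by
      intro h
      apply hn
      exact near_trans G _ 2 1 x w y h (near_one G _ w y hyF (adj_of_ad G haw).symm)
    rcases (far_struct G c hc i0 x w hx ((mem_cls c _ w).1 hw) hwn).2.2.2.2.2.2 with h | h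
    · linarith
    · exact h

/-- In a far pair, both part-degrees are at least two. -/
theorem far_two (c : V → Fin (Fintype.card V + 1))
    (hc : ∀ c' : V → Fin (Fintype.card V + 1),
      dens G c' < dens G c ∨ (dens G c' = dens G c ∧ parts c' ≤ parts c))
    (i0 : Fin (Fintype.card V + 1)) (x y : V) (hx : c x = i0) (hy : c y = i0)
    (hn2 : ¬ Near G (cls c i0) 2 x y)
    (hhi : ((cls c i0).card : ℚ) + 2 < 2 * degIn G (cls c i0) y) :
    2 ≤ degIn G (cls c i0) x := by
  have hxF : x ∈ cls c i0 := (mem_cls c _ x).2 hx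
  have hyF : y ∈ cls c i0 := (mem_cls c _ y).2 hy
  obtain ⟨f1, f2, f3, f4, f5, f6, f7⟩ := far_struct G c hc i0 x y hx hy hn2
  have hcard3 : 3 ≤ (cls c i0).card := by
    have : (3 : ℚ) ≤ ((cls c i0).card : ℚ) := by linarith
    exact_mod_cast this
  obtain ⟨h1, h2⟩ := cuts G c hc i0 hcard3
  have h := keyp G (cls c i0) x y hxF hyF f1 f2 h1 h2 f4 f6 hhi
  obtain ⟨d, hd, _⟩ := degIn_nat G (cls c i0) x
  rw [hd] at h ⊢
  have h' : 1 < d := by exact_mod_cast h
  exact_mod_cast h'

/-- The partition with the required properties. -/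
theorem main3 : ∃ c : V → Fin (Fintype.card V + 1), Optimal G c ∧
    (∀ x y, c x = c y → Near G (cls c (c x)) 3 x y) ∧
    (∀ x y, c x = c y → ¬ Near G (cls c (c x)) 2 x y →
      (((cls c (c x)).card : ℚ) + 2 < 2 * degIn G (cls c (c x)) x ∨
        ((cls c (c x)).card : ℚ) + 2 < 2 * degIn G (cls c (c x)) y)) ∧
    (∀ x y, c x = c y →
      ((cls c (c x)).card ≤ 10 ∨ ∀ v, c v = c x → (G.neighborSet v).ncard ≤ 6) →
      Near G (cls c (c x)) 2 x y) := by
  classical
  obtain ⟨c, hc⟩ := exists_best G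
  refine ⟨c, ?_, ?_, ?_, ?_⟩
  · intro c'
    rcases hc c' with h | ⟨h, _⟩
    · exact h.le
    · exact h.le
  · intro x y hxy
    by_contra hn
    have hxF : x ∈ cls c (c x) := (mem_cls c _ x).2 rfl
    have hyF : y ∈ cls c (c x) := (mem_cls c _ y).2 hxy.symm
    have hn2 : ¬ Near G (cls c (c x)) 2 x y := fun h => hn (near_mono G _ 2 x y h)
    rcases (far_struct G c hc (c x) x y rfl hxy.symm hn2).2.2.2.2.2.2 with h | h
    · exact near_three_hi G c hc (c x) y x hxy.symm rfl
        (fun h' => hn (near_symm G _ 3 y x hyF h')) h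
    · exact near_three_hi G c hc (c x) x y rfl hxy.symm hn h
  · intro x y hxy hn
    exact (far_struct G c hc (c x) x y rfl hxy.symm hn).2.2.2.2.2.2
  · intro x y hcls hdeg
    by_contra hn
    obtain ⟨-, -, -, b1, b2, b3, b4⟩ := far_struct G c hc (c x) x y rfl hcls.symm hn
    have hyF : y ∈ cls c (c x) := (mem_cls c _ y).2 hcls.symm
    have hn' : ¬ Near G (cls c (c x)) 2 y x := fun h => hn (near_symm G _ 2 y x hyF h)
    have hcard : ((cls c (c x)).card : ℚ) ≤ 10 ∨
        (degIn G (cls c (c x)) x ≤ 6 ∧ degIn G (cls c (c x)) y ≤ 6) := by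
      rcases hdeg with h | h
      · left
        exact_mod_cast h
      · right
        obtain ⟨d1, hd1, hd1'⟩ := degIn_nat G (cls c (c x)) x
        obtain ⟨d2, hd2, hd2'⟩ := degIn_nat G (cls c (c x)) y
        constructor
        · rw [hd1]
          exact_mod_cast le_trans hd1' (h x rfl)
        · rw [hd2]
          exact_mod_cast le_trans hd2' (h y hcls.symm)
    rcases b4 with b4 | b4
    · have h2 := far_two G c hc (c x) y x hcls.symm rfl hn' b4
      rcases hcard with h | ⟨h, h'⟩
      · linarith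
      · linarith
    · have h2 := far_two G c hc (c x) x y rfl hcls.symm hn b4
      rcases hcard with h | ⟨h, h'⟩
      · linarith
      · linarith

end Pool.Agent.V11167.Club
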