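import Mathlib
import Pool.Agent.V11167.ClubDefs
import Pool.Agent.V11167.ClubA
import Pool.Agent.V11167.ClubB
import Pool.Agent.V11167.ClubC
import Pool.Agent.V11167.ClubD

namespace Pool.Agent.V11167.Club

open Finset

set_option linter.unusedSectionVars false

variable {V : Type*} [Fintype V] [DecidableEq V] (G : SimpleGraph V)

theorem degIn_insert (S : Finset V) (u v : V) (hv : v ∉ S) :
    degIn G (insert v S) u = ad G u v + degIn G S u := by
  unfold degIn
  rw [Finset.sum_insert hv]

theorem M_insert (S : Finset V) (v : V) (hv : v ∉ S) :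
    M G (insert v S) = M G S + 2 * degIn G S v := by
  have h := M_erase G (insert v S) v (Finset.mem_insert_self v S)
  rw [Finset.erase_insert hv, degIn_insert G S v v hv, ad_self] at h
  linarith

theorem transversal (τ : V → V) : ∀ (k : ℕ) (F : Finset V), F.card = k →
    (∀ v ∈ F, τ v ∈ F ∧ τ (τ v) = v ∧ τ v ≠ v ∧ ad G v (τ v) = 0) →
    ∃ S ⊆ F, (∀ v ∈ F, (v ∈ S ↔ τ v ∉ S)) ∧ M G F ≤ 2 * (M G S + M G (F \ S)) := by
  intro k
  induction k using Nat.strong_induction_on with
  | _ k ih =>
    intro F hk hτ
    rcases Finset.eq_empty_or_nonempty F with hF | ⟨v, hv⟩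
    · refine ⟨∅, by simp, ?_, ?_⟩
      · intro v hv
        rw [hF] at hv
        simp at hv
      · rw [hF]
        simp [M]
    · obtain ⟨h1, h2, h3, h4⟩ := hτ v hv
      set w := τ v with hw
      set F1 := (F.erase v).erase w with hF1
      have hwF : w ∈ F.erase v := Finset.mem_erase.2 ⟨h3, h1⟩
      have hcard : F1.card < k := by
        rw [hF1, Finset.card_erase_of_mem hwF, Finset.card_erase_of_mem hv, hk]
        have : 0 < F.card := Finset.card_pos.2 ⟨v, hv⟩
        omega
      have hF1mem : ∀ u, u ∈ F1 ↔ u ∈ F ∧ u ≠ v ∧ u ≠ w := by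
        intro u
        rw [hF1, Finset.mem_erase, Finset.mem_erase]
        tauto
      have hτ1 : ∀ u ∈ F1, τ u ∈ F1 ∧ τ (τ u) = u ∧ τ u ≠ u ∧ ad G u (τ u) = 0 := by
        intro u hu
        rw [hF1mem] at hu
        obtain ⟨g1, g2, g3, g4⟩ := hτ u hu.1
        refine ⟨?_, g2, g3, g4⟩
        rw [hF1mem]
        refine ⟨g1, ?_, ?_⟩
        · intro h
          apply hu.2.2
          rw [hw, ← h, g2]
        · intro h
          apply hu.2.1
          rw [← g2, h, h2]
      obtain ⟨S, hS, hS1, hS2⟩ := ih F1.card hcard F1 rfl hτ1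
      have hvS : v ∉ S := fun h => ((hF1mem v).1 (hS h)).2.1 rfl
      have hwS : w ∉ S := fun h => ((hF1mem w).1 (hS h)).2.2 rfl
      have hvT : v ∉ F1 \ S := fun h => ((hF1mem v).1 (Finset.mem_sdiff.1 h).1).2.1 rfl
      have hwT : w ∉ F1 \ S := fun h => ((hF1mem w).1 (Finset.mem_sdiff.1 h).1).2.2 rfl
      have hMF : M G F = M G F1 + 2 * degIn G F1 v + 2 * degIn G F1 w := by
        have e1 := M_erase G F v hv
        have e2 := M_erase G (F.erase v) w hwF
        have e3 := degIn_erase G F v w hv
        have e4 := degIn_erase G (F.erase v) w v hwF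
        have e5 := degIn_erase G F v v hv
        have e6 := degIn_erase G (F.erase v) w w hwF
        rw [← hF1] at e2 e4 e6
        rw [ad_self] at e5 e6
        rw [ad_comm, h4] at e3
        rw [h4] at e4
        linarith
      have hdS : ∀ u, degIn G F1 u = degIn G S u + degIn G (F1 \ S) u := by
        intro u
        unfold degIn
        rw [← Finset.sum_sdiff hS, add_comm]
      have t1 : F \ insert v S = insert w (F1 \ S) := by
        ext u
        simp only [Finset.mem_sdiff, Finset.mem_insert, hF1mem]
        constructor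
        · rintro ⟨a, b⟩
          push Not at b
          by_cases hu : u = w
          · left; exact hu
          · right; exact ⟨⟨a, b.1, hu⟩, b.2⟩
        · rintro (a | ⟨⟨a, b, d⟩, e⟩)
          · rw [a]
            exact ⟨h1, by push Not; exact ⟨h3, hwS⟩⟩
          · exact ⟨a, by push Not; exact ⟨b, e⟩⟩
      have t2 : F \ insert w S = insert v (F1 \ S) := by
        ext u
        simp only [Finset.mem_sdiff, Finset.mem_insert, hF1mem]
        constructor
        · rintro ⟨a, b⟩
          push Not at b
          by_cases hu : u = v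
          · left; exact hu
          · right; exact ⟨⟨a, hu, b.1⟩, b.2⟩
        · rintro (a | ⟨⟨a, b, d⟩, e⟩)
          · rw [a]
            exact ⟨hv, by push Not; exact ⟨h3.symm, hvS⟩⟩
          · exact ⟨a, by push Not; exact ⟨d, e⟩⟩
      have key : M G F ≤ 2 * (M G (insert v S) + M G (F \ insert v S)) ∨
          M G F ≤ 2 * (M G (insert w S) + M G (F \ insert w S)) := by
        rw [t1, t2, M_insert G S v hvS, M_insert G S w hwS, M_insert G _ v hvT,
          M_insert G _ w hwT, hMF, hdS, hdS w]
        by_contra hcon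
        push Not at hcon
        linarith [hcon.1, hcon.2]
      have hsubv : insert v S ⊆ F := by
        intro u hu
        rcases Finset.mem_insert.1 hu with h | h
        · rw [h]; exact hv
        · exact ((hF1mem u).1 (hS h)).1
      have hsubw : insert w S ⊆ F := by
        intro u hu
        rcases Finset.mem_insert.1 hu with h | h
        · rw [h]; exact h1
        · exact ((hF1mem u).1 (hS h)).1
      have hτne : ∀ u ∈ F, u ≠ v → u ≠ w → τ u ≠ v ∧ τ u ≠ w := by
        intro u hu huv huw
        obtain ⟨g1, g2, g3, g4⟩ := hτ u hu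
        refine ⟨?_, ?_⟩
        · intro h
          apply huw
          rw [hw, ← h, g2]
        · intro h
          apply huv
          rw [← g2, h, h2]
      rcases key with hk1 | hk1
      · refine ⟨insert v S, hsubv, ?_, hk1⟩
        intro u hu
        by_cases huv : u = v
        · rw [huv]
          simp only [Finset.mem_insert, true_or, true_iff]
          rw [← hw]
          push Not
          exact ⟨h3, hwS⟩
        · by_cases huw : u = w
          · rw [huw, h2]
            simp only [Finset.mem_insert, true_or, not_true, iff_false]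
            push Not
            exact ⟨h3, hwS⟩
          · obtain ⟨g1, g2⟩ := hτne u hu huv huw
            rw [Finset.mem_insert, Finset.mem_insert]
            have := hS1 u ((hF1mem u).2 ⟨hu, huv, huw⟩)
            tauto
      · refine ⟨insert w S, hsubw, ?_, hk1⟩
        intro u hu
        by_cases huv : u = v
        · rw [huv, ← hw]
          simp only [Finset.mem_insert, true_or, not_true, iff_false]
          push Not
          exact ⟨h3.symm, hvS⟩
        · by_cases huw : u = w
          · rw [huw, h2]
            simp only [Finset.mem_insert, true_or, true_iff]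
            push Not
            exact ⟨h3.symm, hvS⟩
          · obtain ⟨g1, g2⟩ := hτne u hu huv huw
            rw [Finset.mem_insert, Finset.mem_insert]
            have := hS1 u ((hF1mem u).2 ⟨hu, huv, huw⟩)
            tauto

/-- The complement of a part has no perfect matching. -/
theorem no_matching (c : V → Fin (Fintype.card V + 1))
    (hc : ∀ c' : V → Fin (Fintype.card V + 1),
      dens G c' < dens G c ∨ (dens G c' = dens G c ∧ parts c' ≤ parts c))
    (x : V) (τ : V → V)
    (hτ : ∀ v, c v = c x → c (τ v) = c x ∧ τ (τ v) = v ∧ τ v ≠ v ∧ ¬ G.Adj v (τ v)) : False := by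
  classical
  set F := cls c (c x) with hF
  have hmem : ∀ v, v ∈ F ↔ c v = c x := fun v => mem_cls c _ v
  have hτ' : ∀ v ∈ F, τ v ∈ F ∧ τ (τ v) = v ∧ τ v ≠ v ∧ ad G v (τ v) = 0 := by
    intro v hv
    obtain ⟨a, b, d, e⟩ := hτ v ((hmem v).1 hv)
    refine ⟨(hmem _).2 a, b, d, ?_⟩
    unfold ad
    rw [if_neg e]
  obtain ⟨S, hS, hS1, hS2⟩ := transversal G τ F.card F rfl hτ'
  have hcardeq : S.card = (F \ S).card := by
    apply Finset.card_bij (fun v _ => τ v)
    · intro v hv
      rw [Finset.mem_sdiff]
      exact ⟨(hτ' v (hS hv)).1, (hS1 v (hS hv)).1 hv⟩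
    · intro v hv w hw h
      have e1 := (hτ' v (hS hv)).2.1
      have e2 := (hτ' w (hS hw)).2.1
      rw [← e1, ← e2, h]
    · intro w hw
      rw [Finset.mem_sdiff] at hw
      obtain ⟨a, b, d, e⟩ := hτ' w hw.1
      refine ⟨τ w, ?_, b⟩
      by_contra hcon
      exact hw.2 ((hS1 w hw.1).2 hcon)
  have hx : x ∈ F := (hmem x).2 rfl
  have hcardF : (F \ S).card + S.card = F.card := Finset.card_sdiff_add_card_eq_card hS
  have hFpos : 0 < F.card := Finset.card_pos.2 ⟨x, hx⟩
  have hSpos : 0 < S.card := by omega
  have hTpos : 0 < (F \ S).card := by omega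
  have hs := split G c hc (c x) S hS (Finset.card_pos.1 hSpos) (Finset.card_pos.1 hTpos)
  rw [← hF] at hs
  have hE : ∀ A : Finset V, edgesIn G A = M G A / 2 := fun A => rfl
  have hF2 : (F.card : ℚ) = 2 * S.card := by
    have : F.card = 2 * S.card := by omega
    rw [this]
    push_cast
    ring
  rw [hE, hE, hE, ← hcardeq, hF2] at hs
  have hsp : (0 : ℚ) < S.card := by exact_mod_cast hSpos
  have hmul := mul_lt_mul_of_pos_left hs (by positivity : (0 : ℚ) < 4 * S.card)
  have el : 4 * (S.card : ℚ) * (M G S / 2 / S.card + M G (F \ S) / 2 / S.card) =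
      2 * (M G S + M G (F \ S)) := by
    field_simp
    ring
  have er : 4 * (S.card : ℚ) * (M G F / 2 / (2 * S.card)) = M G F := by
    field_simp
    ring
  rw [el, er] at hmul
  linarith

/-- The partition with the required properties. -/
theorem main4 : ∃ c : V → Fin (Fintype.card V + 1), Optimal G c ∧
    (∀ x y, c x = c y → Near G (cls c (c x)) 3 x y) ∧
    (∀ x y, c x = c y → ¬ Near G (cls c (c x)) 2 x y →
      (((cls c (c x)).card : ℚ) + 2 < 2 * degIn G (cls c (c x)) x ∨
        ((cls c (c x)).card : ℚ) + 2 < 2 * degIn G (cls c (c x)) y)) ∧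
    (∀ x y, c x = c y →
      ((cls c (c x)).card ≤ 10 ∨ ∀ v, c v = c x → (G.neighborSet v).ncard ≤ 6) →
      Near G (cls c (c x)) 2 x y) ∧
    (∀ x, ¬ ∃ τ : V → V, ∀ v, c v = c x →
      c (τ v) = c x ∧ τ (τ v) = v ∧ τ v ≠ v ∧ ¬ G.Adj v (τ v)) := by
  classical
  obtain ⟨c, hc⟩ := exists_best G
  refine ⟨c, ?_, ?_, ?_, ?_, fun x ⟨τ, hτ⟩ => no_matching G c hc x τ hτ⟩
  · intro c'
    rcases hc c' with h | ⟨h, _⟩
    · exact h.le
    · exact h.le
  · intro x y hxy
    by_contra hn
    have hxF : x ∈ cls c (c x) := (mem_cls c _ x).2 rfl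
    have hyF : y ∈ cls c (c x) := (mem_cls c _ y).2 hxy.symm
    have hn2 : ¬ Near G (cls c (c x)) 2 x y := fun h => hn (near_mono G _ 2 x y h)
    rcases (far_struct G c hc (c x) x y rfl hxy.symm hn2).2.2.2.2.2.2 with h | h
    · exact near_three_hi G c hc (c x) y x hxy.symm rfl
        (fun h' => hn (near_symm G _ 3 y x hyF h')) h
    · exact near_three_hi G c hc (c x) x y rfl hxy.symm hn h
  · intro x y hxy hn
    exact (far_struct G c hc (c x) x y rfl hxy.symm hn).2.2.2.2.2.2
  · intro x y hcls hdeg
    by_contra hn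
    obtain ⟨-, -, -, b1, b2, b3, b4⟩ := far_struct G c hc (c x) x y rfl hcls.symm hn
    have hyF : y ∈ cls c (c x) := (mem_cls c _ y).2 hcls.symm
    have hn' : ¬ Near G (cls c (c x)) 2 y x := fun h => hn (near_symm G _ 2 y x hyF h)
    have hcard : ((cls c (c x)).card : ℚ) ≤ 10 ∨
        (degIn G (cls c (c x)) x ≤ 6 ∧ degIn G (cls c (c x)) y ≤ 6) := by
      rcases hdeg with h | h
      · left
        exact_mod_cast h
      · right
        obtain ⟨d1, hd1, hd1'⟩ := degIn_nat G (cls c (c x)) x
        obtain ⟨d2, hd2, hd2'⟩ := degIn_nat G (cls c (c x)) y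
        constructor
        · rw [hd1]
          exact_mod_cast le_trans hd1' (h x rfl)
        · rw [hd2]
          exact_mod_cast le_trans hd2' (h y hcls.symm)
    rcases b4 with b4 | b4
    · have h2 := far_two G c hc (c x) y x hcls.symm rfl hn' b4
      rcases hcard with h | ⟨h, h'⟩
      · linarith
      · linarith
    · have h2 := far_two G c hc (c x) x y rfl hcls.symm hn b4
      rcases hcard with h | ⟨h, h'⟩
      · linarith
      · linarith

end Pool.Agent.V11167.Club
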