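import Mathlib

/-!
Definitions for the threshold Prague dimension.
-/

namespace Pool.Agent.V11167.Tpd

/-- `Rep G t`: for some `d` there is a map `f` from the vertices to `ℤ^d` such that distinct
vertices `u, v` are adjacent if and only if the Hamming distance of `f u` and `f v` is at
least `t`. -/
def Rep {V : Type*} (G : SimpleGraph V) (t : ℕ) : Prop :=
  ∃ (d : ℕ) (f : V → Fin d → ℤ),
    ∀ u v : V, u ≠ v → (G.Adj u v ↔ t ≤ hammingDist (f u) (f v))

/-- The threshold Prague dimension: the least `t` with `Rep G t`. -/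
noncomputable def tpd {V : Type*} (G : SimpleGraph V) : ℕ := sInf {t : ℕ | Rep G t}

/-- The maximum degree of `G` is exactly `D`. -/
def HasMaxDegree {n : ℕ} (G : SimpleGraph (Fin n)) (D : ℕ) : Prop :=
  (∀ v, (G.neighborSet v).ncard ≤ D) ∧ ∃ v, (G.neighborSet v).ncard = D

/-- `T n D` is the maximum of the threshold Prague dimension over all graphs with `n` vertices
and maximum degree `D`. -/
noncomputable def T (n D : ℕ) : ℕ :=
  sSup {t : ℕ | ∃ G : SimpleGraph (Fin n), HasMaxDegree G D ∧ tpd G = t}

end Pool.Agent.V11167.Tpd
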