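import Mathlib
import Pool.Agent.V11167.TpdDefs

namespace Pool.Agent.V11167.Tpd

open Finset

/-- Every finite graph has a representation. -/
theorem exists_rep {V : Type*} [Fintype V] (G : SimpleGraph V) : ∃ t, Rep G t := by
  classical
  let N := {p : V × V // ¬ G.Adj p.1 p.2}
  let e : Fin (Fintype.card N) ≃ N := (Fintype.equivFin N).symm
  let φ : V → ℤ := fun v => ((Fintype.equivFin V v : ℕ) : ℤ) + 1
  have hφpos : ∀ v, 0 < φ v := by
    intro v
    simp only [φ]
    positivity
  have hφinj : ∀ u v, φ u = φ v → u = v := by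
    intro u v h
    simp only [φ] at h
    have h2 : ((Fintype.equivFin V u : ℕ)) = (Fintype.equivFin V v : ℕ) := by omega
    exact (Fintype.equivFin V).injective (Fin.ext h2)
  refine ⟨Fintype.card N, Fintype.card N,
    fun v i => if v = (e i).1.1 ∨ v = (e i).1.2 then 0 else φ v, ?_⟩
  intro u v huv
  constructor
  · intro hadj
    have hall : ∀ i : Fin (Fintype.card N),
        (if u = (e i).1.1 ∨ u = (e i).1.2 then (0 : ℤ) else φ u) ≠
        (if v = (e i).1.1 ∨ v = (e i).1.2 then (0 : ℤ) else φ v) := by
      intro i heq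
      have hN := (e i).2
      by_cases hu : u = (e i).1.1 ∨ u = (e i).1.2
      · by_cases hv : v = (e i).1.1 ∨ v = (e i).1.2
        · rcases hu with hu | hu <;> rcases hv with hv | hv
          · exact huv (hu.trans hv.symm)
          · rw [← hu, ← hv] at hN
            exact hN hadj
          · rw [← hu, ← hv] at hN
            exact hN hadj.symm
          · exact huv (hu.trans hv.symm)
        · rw [if_pos hu, if_neg hv] at heq
          have := hφpos v
          omega
      · by_cases hv : v = (e i).1.1 ∨ v = (e i).1.2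
        · rw [if_neg hu, if_pos hv] at heq
          have := hφpos u
          omega
        · rw [if_neg hu, if_neg hv] at heq
          exact huv (hφinj u v heq)
    unfold hammingDist
    rw [Finset.filter_true_of_mem (fun i _ => hall i)]
    simp
  · intro hle
    by_contra hnadj
    let i : Fin (Fintype.card N) := e.symm ⟨(u, v), hnadj⟩
    have hi : e i = ⟨(u, v), hnadj⟩ := by simp [i]
    have hsub : (Finset.univ.filter (fun i : Fin (Fintype.card N) =>
        (if u = (e i).1.1 ∨ u = (e i).1.2 then (0 : ℤ) else φ u) ≠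
        (if v = (e i).1.1 ∨ v = (e i).1.2 then (0 : ℤ) else φ v))) ⊆ Finset.univ.erase i := by
      intro c hc
      rw [Finset.mem_filter] at hc
      rw [Finset.mem_erase]
      refine ⟨?_, Finset.mem_univ _⟩
      intro hci
      subst hci
      apply hc.2
      rw [hi]
      simp
    have hcard := Finset.card_le_card hsub
    rw [Finset.card_erase_of_mem (Finset.mem_univ _), Finset.card_univ, Fintype.card_fin] at hcard
    have hpos : 0 < Fintype.card N := Fin.pos i
    have h3 : Fintype.card N ≤ Fintype.card N - 1 := le_trans hle hcard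
    omega

theorem rep_tpd {V : Type*} [Fintype V] (G : SimpleGraph V) : Rep G (tpd G) :=
  Nat.sInf_mem (exists_rep G)

theorem tpd_le_T {n D : ℕ} (G : SimpleGraph (Fin n)) (h : HasMaxDegree G D) :
    tpd G ≤ T n D := by
  unfold T
  apply le_csSup
  · apply Set.Finite.bddAbove
    have : {t : ℕ | ∃ G : SimpleGraph (Fin n), HasMaxDegree G D ∧ tpd G = t} =
        (fun G : SimpleGraph (Fin n) => tpd G) '' {G | HasMaxDegree G D} := by
      ext t
      simp
    rw [this]
    exact (Set.toFinite _).image _
  · exact ⟨G, h, rfl⟩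

/-- Enumerate a finite set of size at most `k`. -/
theorem exists_enum {α : Type*} (S : Finset α) (k : ℕ) (h : S.card ≤ k) :
    ∃ g : Fin k → Option α, ∀ c, c ∈ S ↔ ∃ j, g j = some c := by
  classical
  refine ⟨fun j => if hj : (j : ℕ) < S.card then some (S.equivFin.symm ⟨j, hj⟩).1 else none, ?_⟩
  intro c
  constructor
  · intro hc
    refine ⟨⟨(S.equivFin ⟨c, hc⟩ : ℕ), lt_of_lt_of_le (S.equivFin ⟨c, hc⟩).2 h⟩, ?_⟩
    have hlt : (S.equivFin ⟨c, hc⟩ : ℕ) < S.card := (S.equivFin ⟨c, hc⟩).2
    simp only [hlt, dif_pos, Fin.eta, Equiv.symm_apply_apply]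
  · rintro ⟨j, hj⟩
    by_cases hlt : (j : ℕ) < S.card
    · simp only [hlt, dif_pos, Option.some.injEq] at hj
      rw [← hj]
      exact (S.equivFin.symm ⟨j, hlt⟩).2
    · simp only [hlt, dif_neg, not_false_eq_true, reduceCtorEq] at hj

/-- The predicate encoded by a code `g` at vertex `v`. -/
def P {n k M : ℕ} (g : Fin n → Fin k → Option (Fin M × Fin n)) (v : Fin n) (i : Fin M)
    (a : Fin n) : Prop := ∃ j, g v j = some (i, a)

open Classical in
/-- The distance read off a code. -/
noncomputable def dst {n k M : ℕ} (g : Fin n → Fin k → Option (Fin M × Fin n))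
    (u v : Fin n) : ℕ :=
  (Finset.univ.filter (fun i : Fin M => ¬ ∀ a, P g u i a ↔ P g v i a)).card

/-- The main encoding lemma. -/
theorem exists_code {n d k : ℕ} (hk : 0 < k) (v0 : Fin n) (f : Fin n → Fin d → ℤ)
    (hd : ∀ v, hammingDist (f v) (f v0) ≤ k) :
    ∃ g : Fin n → Fin k → Option (Fin (n * k) × Fin n),
      ∀ u v, dst g u v = hammingDist (f u) (f v) := by
  classical
  have hn : 0 < n := Fin.pos v0
  let S : Fin n → Finset (Fin d) := fun v => Finset.univ.filter (fun c => f v c ≠ f v0 c)
  have hS : ∀ v, (S v).card ≤ k := fun v => hd v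
  have hmemS : ∀ v c, c ∈ S v ↔ f v c ≠ f v0 c := by
    intro v c
    simp [S]
  let U : Finset (Fin d) := Finset.univ.biUnion S
  have hU : U.card ≤ n * k := by
    calc U.card ≤ ∑ v : Fin n, (S v).card := Finset.card_biUnion_le
      _ ≤ ∑ _v : Fin n, k := Finset.sum_le_sum (fun v _ => hS v)
      _ = n * k := by simp
  have hemb : Nonempty (U ↪ Fin (n * k)) := by
    apply Function.Embedding.nonempty_of_card_le
    rw [Fintype.card_coe, Fintype.card_fin]
    exact hU
  obtain ⟨ee⟩ := hemb
  let ι : Fin d → Fin (n * k) := fun c => if h : c ∈ U then ee ⟨c, h⟩ else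
    ⟨0, Nat.mul_pos hn hk⟩
  have hιinj : ∀ c ∈ U, ∀ c' ∈ U, ι c = ι c' → c = c' := by
    intro c hc c' hc' h
    simp only [ι, hc, hc', dif_pos] at h
    have := ee.injective h
    exact congrArg Subtype.val this
  have hSU : ∀ v c, c ∈ S v → c ∈ U := by
    intro v c hc
    simp only [U, Finset.mem_biUnion]
    exact ⟨v, Finset.mem_univ _, hc⟩
  let val : Fin d → ℤ → Fin n := fun c z => if h : ∃ w, f w c = z then h.choose else v0
  have hval : ∀ c v, f (val c (f v c)) c = f v c := by
    intro c v
    have h : ∃ w, f w c = f v c := ⟨v, rfl⟩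
    simp only [val, h, dif_pos]
    exact h.choose_spec
  choose hh hhh using fun v => exists_enum (S v) k (hS v)
  refine ⟨fun v j => (hh v j).map (fun c => (ι c, val c (f v c))), ?_⟩
  set g : Fin n → Fin k → Option (Fin (n * k) × Fin n) :=
    fun v j => (hh v j).map (fun c => (ι c, val c (f v c))) with hg
  have hP : ∀ v i a, P g v i a ↔ ∃ c ∈ S v, ι c = i ∧ val c (f v c) = a := by
    intro v i a
    unfold P
    constructor
    · rintro ⟨j, hj⟩
      simp only [hg, Option.map_eq_some_iff, Prod.mk.injEq] at hj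
      obtain ⟨c, hc, h1, h2⟩ := hj
      exact ⟨c, (hhh v c).2 ⟨j, hc⟩, h1, h2⟩
    · rintro ⟨c, hc, h1, h2⟩
      obtain ⟨j, hj⟩ := (hhh v c).1 hc
      refine ⟨j, ?_⟩
      simp only [hg, hj, Option.map_some, h1, h2]
  intro u v
  have hset : (Finset.univ.filter (fun i : Fin (n * k) => ¬ ∀ a, P g u i a ↔ P g v i a)) =
      (Finset.univ.filter (fun c => f u c ≠ f v c)).image ι := by
    ext i
    simp only [Finset.mem_filter, Finset.mem_univ, true_and, Finset.mem_image]
    constructor
    · intro hne
      rw [not_forall] at hne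
      obtain ⟨a, ha⟩ := hne
      by_cases hPu : P g u i a
      · have hPv : ¬ P g v i a := fun h => ha ⟨fun _ => h, fun _ => hPu⟩
        obtain ⟨c, hc, h1, h2⟩ := (hP u i a).1 hPu
        refine ⟨c, ?_, h1⟩
        intro heq
        apply hPv
        rw [hP]
        refine ⟨c, ?_, h1, ?_⟩
        · rw [hmemS] at hc ⊢
          rwa [← heq]
        · rw [← heq]
          exact h2
      · have hPv : P g v i a := by
          by_contra h
          exact ha ⟨fun h' => absurd h' hPu, fun h' => absurd h' h⟩
        obtain ⟨c, hc, h1, h2⟩ := (hP v i a).1 hPv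
        refine ⟨c, ?_, h1⟩
        intro heq
        apply hPu
        rw [hP]
        refine ⟨c, ?_, h1, ?_⟩
        · rw [hmemS] at hc ⊢
          rwa [heq]
        · rw [heq]
          exact h2
    · rintro ⟨c, hc, hci⟩ hall
      have key : ∀ u v : Fin n, (∀ a, P g u i a ↔ P g v i a) → c ∈ S u → f u c = f v c := by
        intro u v hall hcu
        have h1 : P g u i (val c (f u c)) := (hP _ _ _).2 ⟨c, hcu, hci, rfl⟩
        obtain ⟨c', hc', h2, h3⟩ := (hP _ _ _).1 ((hall _).1 h1)
        have hcc : c' = c := hιinj c' (hSU v c' hc') c (hSU u c hcu) (h2.trans hci.symm)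
        subst hcc
        rw [← hval c' u, ← h3, hval c' v]
      by_cases hcu : c ∈ S u
      · exact hc (key u v hall hcu)
      · by_cases hcv : c ∈ S v
        · exact hc (key v u (fun a => (hall a).symm) hcv).symm
        · rw [hmemS, not_not] at hcu hcv
          exact hc (hcu.trans hcv.symm)
  unfold dst
  rw [show (Finset.univ.filter (fun i : Fin (n * k) => ¬ ∀ a, P g u i a ↔ P g v i a)).card =
      ((Finset.univ.filter (fun c => f u c ≠ f v c)).image ι).card from congrArg _ hset]
  rw [Finset.card_image_of_injOn]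
  · rfl
  · intro c hc c' hc' h
    have hm : ∀ c, f u c ≠ f v c → c ∈ U := by
      intro c hc
      by_cases hcu : c ∈ S u
      · exact hSU u c hcu
      · by_cases hcv : c ∈ S v
        · exact hSU v c hcv
        · rw [hmemS, not_not] at hcu hcv
          exact absurd (hcu.trans hcv.symm) hc
    have hc1 : f u c ≠ f v c := by simpa using hc
    have hc2 : f u c' ≠ f v c' := by simpa using hc'
    exact hιinj c (hm c hc1) c' (hm c' hc2) h

end Pool.Agent.V11167.Tpd
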