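import Mathlib
import Pool.Agent.V11167.TpdDefs
import Pool.Agent.V11167.TpdA

namespace Pool.Agent.V11167.Tpd

open Finset

/-- Indicator of equality, as an integer. -/
def eqi (z w : ℤ) : ℤ := if z = w then 1 else 0

theorem eqi_expand (V : Finset ℤ) (z w : ℤ) (hz : z ∈ V) :
    eqi z w = ∑ v ∈ V, eqi z v * eqi w v := by
  rw [Finset.sum_eq_single z]
  · unfold eqi
    simp [eq_comm]
  · intro v _ hv
    unfold eqi
    rw [if_neg (fun h => hv h.symm)]
    simp
  · intro h
    exact absurd hz h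

theorem sum_eqi {ι κ : Type*} [Fintype ι] [Fintype κ] (V : Finset ℤ) (A : ι → ℤ) (B : κ → ℤ)
    (hA : ∀ x, A x ∈ V) :
    ∑ x, ∑ y, eqi (A x) (B y) = ∑ v ∈ V, (∑ x, eqi (A x) v) * (∑ y, eqi (B y) v) := by
  simp_rw [Finset.sum_mul_sum]
  symm
  rw [Finset.sum_comm]
  apply Finset.sum_congr rfl
  intro x _
  rw [Finset.sum_comm]
  apply Finset.sum_congr rfl
  intro y _
  exact (eqi_expand V _ _ (hA x)).symm

theorem coord_ineq {a b : ℕ} (A : Fin a → ℤ) (B : Fin b → ℤ) :
    (b : ℤ) ^ 2 * (∑ x, ∑ x', (1 - eqi (A x) (A x'))) +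
      (a : ℤ) ^ 2 * (∑ y, ∑ y', (1 - eqi (B y) (B y'))) ≤
      2 * a * b * (∑ x, ∑ y, (1 - eqi (A x) (B y))) := by
  classical
  set V : Finset ℤ := Finset.univ.image A ∪ Finset.univ.image B with hV
  have hA : ∀ x, A x ∈ V := by
    intro x
    rw [hV]
    exact Finset.mem_union_left _ (Finset.mem_image_of_mem _ (Finset.mem_univ _))
  have hB : ∀ y, B y ∈ V := by
    intro y
    rw [hV]
    exact Finset.mem_union_right _ (Finset.mem_image_of_mem _ (Finset.mem_univ _))
  have hAA := sum_eqi V A A hA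
  have hBB := sum_eqi V B B hB
  have hAB := sum_eqi V A B hA
  have hsq : 0 ≤ ∑ v ∈ V, ((b : ℤ) * (∑ x, eqi (A x) v) - a * (∑ y, eqi (B y) v)) ^ 2 :=
    Finset.sum_nonneg (fun v _ => sq_nonneg _)
  have hexp : ∑ v ∈ V, ((b : ℤ) * (∑ x, eqi (A x) v) - a * (∑ y, eqi (B y) v)) ^ 2 =
      (b : ℤ) ^ 2 * (∑ x, ∑ x', eqi (A x) (A x')) +
      (a : ℤ) ^ 2 * (∑ y, ∑ y', eqi (B y) (B y')) -
      2 * a * b * (∑ x, ∑ y, eqi (A x) (B y)) := by
    rw [hAA, hBB, hAB, Finset.mul_sum, Finset.mul_sum, Finset.mul_sum,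
      ← Finset.sum_add_distrib, ← Finset.sum_sub_distrib]
    apply Finset.sum_congr rfl
    intro v _
    ring
  rw [hexp] at hsq
  simp only [Finset.sum_sub_distrib, Finset.sum_const, Finset.card_univ, Fintype.card_fin,
    nsmul_eq_mul, mul_one]
  nlinarith

theorem hamming_eq {d : ℕ} (u v : Fin d → ℤ) :
    (hammingDist u v : ℤ) = ∑ c, (1 - eqi (u c) (v c)) := by
  unfold hammingDist eqi
  rw [Finset.card_filter]
  push_cast
  apply Finset.sum_congr rfl
  intro c _
  by_cases h : u c = v c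
  · simp [h]
  · simp [h]

theorem sum_ineq {a b d : ℕ} (P : Fin a → Fin d → ℤ) (Q : Fin b → Fin d → ℤ) :
    (b : ℤ) ^ 2 * (∑ x, ∑ x', (hammingDist (P x) (P x') : ℤ)) +
      (a : ℤ) ^ 2 * (∑ y, ∑ y', (hammingDist (Q y) (Q y') : ℤ)) ≤
      2 * a * b * (∑ x, ∑ y, (hammingDist (P x) (Q y) : ℤ)) := by
  have hswap : ∀ {ι κ : Type} [Fintype ι] [Fintype κ] (F : ι → Fin d → ℤ) (G : κ → Fin d → ℤ),
      (∑ x, ∑ y, (hammingDist (F x) (G y) : ℤ)) =
        ∑ c, ∑ x, ∑ y, (1 - eqi (F x c) (G y c)) := by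
    intro ι κ _ _ F G
    simp_rw [hamming_eq]
    rw [Finset.sum_comm]
    have : ∀ x, ∑ y, ∑ c, (1 - eqi (F x c) (G y c)) = ∑ c, ∑ y, (1 - eqi (F x c) (G y c)) := by
      intro x
      rw [Finset.sum_comm]
    rw [Finset.sum_comm]
    simp_rw [this]
    rw [Finset.sum_comm]
  rw [hswap P P, hswap Q Q, hswap P Q, Finset.mul_sum, Finset.mul_sum, Finset.mul_sum,
    ← Finset.sum_add_distrib]
  apply Finset.sum_le_sum
  intro c _
  exact coord_ineq (fun x => P x c) (fun y => Q y c)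

/-- Two disjoint cliques with no edges between them force a large threshold. -/
theorem two_cliques {V : Type*} (G : SimpleGraph V) {a b t : ℕ} (ha : 0 < a) (hb : 0 < b)
    (p : Fin a → V) (q : Fin b → V)
    (hp : ∀ x x', x ≠ x' → G.Adj (p x) (p x')) (hq : ∀ y y', y ≠ y' → G.Adj (q y) (q y'))
    (hpq : ∀ x y, p x ≠ q y ∧ ¬ G.Adj (p x) (q y)) (h : Rep G t) :
    2 * a * b ≤ (a + b) * t := by
  obtain ⟨d, f, hf⟩ := h
  have hs := sum_ineq (fun x => f (p x)) (fun y => f (q y))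
  have hlow : ∀ {k : ℕ} (g : Fin k → V), (∀ x x', x ≠ x' → G.Adj (g x) (g x')) →
      (k : ℤ) * k * t - k * t ≤ ∑ x, ∑ x', (hammingDist (f (g x)) (f (g x')) : ℤ) := by
    intro k g hg
    have h1 : ∀ x x' : Fin k, (t : ℤ) - (if x = x' then (t : ℤ) else 0) ≤
        (hammingDist (f (g x)) (f (g x')) : ℤ) := by
      intro x x'
      by_cases hx : x = x'
      · subst hx
        simp
      · rw [if_neg hx]
        have := (hf _ _ (hg x x' hx).ne).1 (hg x x' hx)
        have h2 : (t : ℤ) ≤ (hammingDist (f (g x)) (f (g x')) : ℤ) := by exact_mod_cast this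
        linarith
    calc (k : ℤ) * k * t - k * t =
        ∑ x : Fin k, ∑ x' : Fin k, ((t : ℤ) - (if x = x' then (t : ℤ) else 0)) := by
          simp only [Finset.sum_sub_distrib, Finset.sum_const, Finset.card_univ,
            Fintype.card_fin, nsmul_eq_mul, Finset.sum_ite_eq, Finset.mem_univ, if_true]
          ring
      _ ≤ _ := Finset.sum_le_sum (fun x _ => Finset.sum_le_sum (fun x' _ => h1 x x'))
  have hlp := hlow p hp
  have hlq := hlow q hq
  have hup : ∑ x, ∑ y, (hammingDist (f (p x)) (f (q y)) : ℤ) ≤ (a : ℤ) * b * (t - 1) := by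
    have h1 : ∀ x y, (hammingDist (f (p x)) (f (q y)) : ℤ) ≤ (t : ℤ) - 1 := by
      intro x y
      have h2 : hammingDist (f (p x)) (f (q y)) < t := by
        by_contra hc
        exact (hpq x y).2 ((hf _ _ (hpq x y).1).2 (not_lt.1 hc))
      have h3 : (hammingDist (f (p x)) (f (q y)) : ℤ) < t := by exact_mod_cast h2
      linarith
    calc ∑ x, ∑ y, (hammingDist (f (p x)) (f (q y)) : ℤ) ≤
        ∑ _x : Fin a, ∑ _y : Fin b, ((t : ℤ) - 1) :=
          Finset.sum_le_sum (fun x _ => Finset.sum_le_sum (fun y _ => h1 x y))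
      _ = (a : ℤ) * b * (t - 1) := by
          simp only [Finset.sum_const, Finset.card_univ, Fintype.card_fin, nsmul_eq_mul]
          ring
  have haZ : (0 : ℤ) < a := by exact_mod_cast ha
  have hbZ : (0 : ℤ) < b := by exact_mod_cast hb
  have h1 : (b : ℤ) ^ 2 * ((a : ℤ) * a * t - a * t) + (a : ℤ) ^ 2 * ((b : ℤ) * b * t - b * t) ≤
      2 * a * b * ((a : ℤ) * b * (t - 1)) := by
    have e1 := mul_le_mul_of_nonneg_left hlp (sq_nonneg (b : ℤ))
    have e2 := mul_le_mul_of_nonneg_left hlq (sq_nonneg (a : ℤ))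
    have e3 := mul_le_mul_of_nonneg_left hup (by positivity : (0 : ℤ) ≤ 2 * a * b)
    linarith
  have h2 : ((a : ℤ) * b) * (2 * a * b) ≤ ((a : ℤ) * b) * ((a + b) * t) := by nlinarith
  have h3 : (2 : ℤ) * a * b ≤ (a + b) * t := le_of_mul_le_mul_left h2 (by positivity)
  exact_mod_cast h3

/-- Two disjoint cliques in `Fin n`. -/
def Two {n a b : ℕ} (e : (Fin a ⊕ Fin b) ↪ Fin n) : SimpleGraph (Fin n) :=
  SimpleGraph.fromRel (fun u v =>
    (∃ x y, u = e (Sum.inl x) ∧ v = e (Sum.inl y)) ∨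
    (∃ x y, u = e (Sum.inr x) ∧ v = e (Sum.inr y)))

theorem two_inl {n a b : ℕ} (e : (Fin a ⊕ Fin b) ↪ Fin n) (x : Fin a) (v : Fin n) :
    (Two e).Adj (e (Sum.inl x)) v ↔ ∃ y, x ≠ y ∧ v = e (Sum.inl y) := by
  unfold Two
  rw [SimpleGraph.fromRel_adj]
  constructor
  · rintro ⟨hne, (h | h) | (h | h)⟩
    · obtain ⟨x', y, _, rfl⟩ := h
      exact ⟨y, fun hxy => hne (by rw [hxy]), rfl⟩
    · obtain ⟨x', y, h1, _⟩ := h
      exact absurd (e.injective h1) (by simp)
    · obtain ⟨x', y, rfl, _⟩ := h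
      exact ⟨x', fun hxy => hne (by rw [hxy]), rfl⟩
    · obtain ⟨x', y, _, h1⟩ := h
      exact absurd (e.injective h1) (by simp)
  · rintro ⟨y, hxy, rfl⟩
    refine ⟨?_, Or.inl (Or.inl ⟨x, y, rfl, rfl⟩)⟩
    intro h
    have := e.injective h
    simp only [Sum.inl.injEq] at this
    exact hxy this

theorem two_inr {n a b : ℕ} (e : (Fin a ⊕ Fin b) ↪ Fin n) (x : Fin b) (v : Fin n) :
    (Two e).Adj (e (Sum.inr x)) v ↔ ∃ y, x ≠ y ∧ v = e (Sum.inr y) := by
  unfold Two
  rw [SimpleGraph.fromRel_adj]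
  constructor
  · rintro ⟨hne, (h | h) | (h | h)⟩
    · obtain ⟨x', y, h1, _⟩ := h
      exact absurd (e.injective h1) (by simp)
    · obtain ⟨x', y, _, rfl⟩ := h
      exact ⟨y, fun hxy => hne (by rw [hxy]), rfl⟩
    · obtain ⟨x', y, _, h1⟩ := h
      exact absurd (e.injective h1) (by simp)
    · obtain ⟨x', y, rfl, _⟩ := h
      exact ⟨x', fun hxy => hne (by rw [hxy]), rfl⟩
  · rintro ⟨y, hxy, rfl⟩
    refine ⟨?_, Or.inl (Or.inr ⟨x, y, rfl, rfl⟩)⟩
    intro h
    have := e.injective h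
    simp only [Sum.inr.injEq] at this
    exact hxy this

theorem ncard_compl_image {n k : ℕ} (g : Fin k → Fin n) (hg : Function.Injective g) (x : Fin k) :
    (g '' {x}ᶜ).ncard = k - 1 := by
  rw [Set.ncard_image_of_injective _ hg, Set.ncard_compl, Set.ncard_singleton,
    Nat.card_eq_fintype_card, Fintype.card_fin]

theorem two_maxDegree {n D b : ℕ} (hb : b ≤ D + 1) (e : (Fin (D + 1) ⊕ Fin b) ↪ Fin n) :
    HasMaxDegree (Two e) D := by
  have hl : ∀ x, (Two e).neighborSet (e (Sum.inl x)) = (fun y => e (Sum.inl y)) '' {x}ᶜ := by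
    intro x
    ext v
    rw [SimpleGraph.mem_neighborSet, two_inl]
    simp only [Set.mem_image, Set.mem_compl_iff, Set.mem_singleton_iff]
    constructor
    · rintro ⟨y, h1, rfl⟩
      exact ⟨y, fun h => h1 h.symm, rfl⟩
    · rintro ⟨y, h1, rfl⟩
      exact ⟨y, fun h => h1 h.symm, rfl⟩
  have hr : ∀ x, (Two e).neighborSet (e (Sum.inr x)) = (fun y => e (Sum.inr y)) '' {x}ᶜ := by
    intro x
    ext v
    rw [SimpleGraph.mem_neighborSet, two_inr]
    simp only [Set.mem_image, Set.mem_compl_iff, Set.mem_singleton_iff]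
    constructor
    · rintro ⟨y, h1, rfl⟩
      exact ⟨y, fun h => h1 h.symm, rfl⟩
    · rintro ⟨y, h1, rfl⟩
      exact ⟨y, fun h => h1 h.symm, rfl⟩
  have hil : Function.Injective (fun y => e (Sum.inl y) : Fin (D + 1) → Fin n) := by
    intro y y' h
    simpa using e.injective h
  have hir : Function.Injective (fun y => e (Sum.inr y) : Fin b → Fin n) := by
    intro y y' h
    simpa using e.injective h
  constructor
  · intro v
    by_cases h1 : ∃ x, v = e (Sum.inl x)
    · obtain ⟨x, rfl⟩ := h1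
      rw [hl, ncard_compl_image _ hil]
      omega
    · by_cases h2 : ∃ x, v = e (Sum.inr x)
      · obtain ⟨x, rfl⟩ := h2
        rw [hr, ncard_compl_image _ hir]
        omega
      · have : (Two e).neighborSet v = ∅ := by
          ext w
          simp only [SimpleGraph.mem_neighborSet, Set.mem_empty_iff_false, iff_false]
          intro h
          unfold Two at h
          rw [SimpleGraph.fromRel_adj] at h
          rcases h with ⟨_, (h | h) | (h | h)⟩
          · obtain ⟨x, y, h3, _⟩ := h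
            exact h1 ⟨x, h3⟩
          · obtain ⟨x, y, h3, _⟩ := h
            exact h2 ⟨x, h3⟩
          · obtain ⟨x, y, _, h3⟩ := h
            exact h1 ⟨y, h3⟩
          · obtain ⟨x, y, _, h3⟩ := h
            exact h2 ⟨y, h3⟩
        rw [this, Set.ncard_empty]
        omega
  · refine ⟨e (Sum.inl 0), ?_⟩
    rw [hl, ncard_compl_image _ hil]
    omega

theorem T_lower {n D b : ℕ} (hb : 0 < b) (hbD : b ≤ D + 1) (hn : D + 1 + b ≤ n) :
    2 * (D + 1) * b ≤ (D + 1 + b) * T n D := by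
  have hemb : Nonempty ((Fin (D + 1) ⊕ Fin b) ↪ Fin n) := by
    apply Function.Embedding.nonempty_of_card_le
    simp only [Fintype.card_sum, Fintype.card_fin]
    exact hn
  obtain ⟨e⟩ := hemb
  have hmd := two_maxDegree hbD e
  have h1 : 2 * (D + 1) * b ≤ (D + 1 + b) * tpd (Two e) := by
    apply two_cliques (Two e) (by omega) hb (fun x => e (Sum.inl x)) (fun y => e (Sum.inr y))
    · intro x x' hx
      rw [two_inl]
      exact ⟨x', hx, rfl⟩
    · intro y y' hy
      rw [two_inr]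
      exact ⟨y', hy, rfl⟩
    · intro x y
      constructor
      · intro h
        exact absurd (e.injective h) (by simp)
      · rw [two_inl]
        rintro ⟨y', _, h⟩
        exact absurd (e.injective h) (by simp)
    · exact rep_tpd _
  exact le_trans h1 (Nat.mul_le_mul_left _ (tpd_le_T _ hmd))

theorem T_lower' {n D : ℕ} (hn : 2 * D + 2 ≤ n) : D + 1 ≤ T n D := by
  have h := T_lower (n := n) (D := D) (b := D + 1) (by omega) le_rfl (by omega)
  have h2 : (2 * (D + 1)) * (D + 1) ≤ (2 * (D + 1)) * T n D := by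
    calc (2 * (D + 1)) * (D + 1) ≤ (D + 1 + (D + 1)) * T n D := h
      _ = (2 * (D + 1)) * T n D := by ring
  exact Nat.le_of_mul_le_mul_left h2 (by omega)

end Pool.Agent.V11167.Tpd
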