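import Mathlib

/-!
# Braced polygons: definitions
-/

namespace Pool.Agent.V11167.Brp

/-- the two coordinates of a point of the plane; the plane is `ℂ` with its usual distance -/
def coord (z : ℂ) (i : Fin 2) : ℝ := ![z.re, z.im] i

/-- twice the signed area of the triangle `a b c`; it is positive if and only if `c` lies strictly to
the left of the directed line `a b` -/
def cross (a b c : ℂ) : ℝ :=
  (b.re - a.re) * (c.im - a.im) - (b.im - a.im) * (c.re - a.re)

/-- a continuous motion of the bar framework `(G, p)`, that is, a continuous family of configurations
`m t`, `0 ≤ t ≤ 1`, which starts at `p` and preserves the lengths of all bars -/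
structure IsMotion {V : Type} (G : SimpleGraph V) (p : V → ℂ) (m : unitInterval → V → ℂ) :
    Prop where
  cont : Continuous m
  start : m 0 = p
  bars : ∀ (t : unitInterval) (u w : V), G.Adj u w → dist (m t u) (m t w) = dist (p u) (p w)

/-- the framework `(G, p)` is flexible: some continuous motion which starts at `p` reaches a
configuration that is not congruent to `p` (`Congruent` of Mathlib: all pairwise distances agree) -/
def Flexible {V : Type} (G : SimpleGraph V) (p : V → ℂ) : Prop :=
  ∃ m : unitInterval → V → ℂ, IsMotion G p m ∧ ∃ t, ¬ Congruent (m t) p

/-- the framework `(G, p)` is rigid -/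
def Rigid {V : Type} (G : SimpleGraph V) (p : V → ℂ) : Prop := ¬ Flexible G p

/-- generic rigidity in the plane: `(G, p)` is rigid for all `p` outside the zero set of some nonzero
polynomial with rational coefficients in the coordinates of the vertices (in
particular for all `p` whose coordinates are algebraically independent over `ℚ`) -/
def GenericallyRigid {V : Type} (G : SimpleGraph V) : Prop :=
  ∃ F : MvPolynomial (V × Fin 2) ℚ, F ≠ 0 ∧
    ∀ p : V → ℂ, MvPolynomial.aeval (fun x : V × Fin 2 => coord (p x.1) x.2) F ≠ 0 → Rigid G p

/-- the points `p i`, in this cyclic (counterclockwise) order, are the vertices of a strictly convex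
polygon: all other points lie strictly to the left of each side -/
def StrictlyConvex {n : ℕ} (p : ZMod n → ℂ) : Prop :=
  ∀ i j : ZMod n, j ≠ i → j ≠ i + 1 → 0 < cross (p i) (p (i + 1)) (p j)

/-- a braced polygon graph: it contains the cycle `0, 1, …, n - 1` -/
def IsBracedPolygon {n : ℕ} (G : SimpleGraph (ZMod n)) : Prop :=
  3 ≤ n ∧ ∀ i : ZMod n, G.Adj i (i + 1)

end Pool.Agent.V11167.Brp
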