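import Mathlib
import Pool.Agent.V11167.BrpDefs

/-!
# Braced polygons: generic rigidity of the example
-/

namespace Pool.Agent.V11167.Brp

open MvPolynomial

/-- the bars: the sides `i, i + 1` and the braces -/
def isBar (i j : ZMod 8) : Bool :=
  decide (j = i + 1) || decide ((i, j) ∈ ([(0, 3), (4, 1), (4, 7), (6, 1), (6, 3)] : List (ZMod 8 × ZMod 8)))

/-- the graph: `K_{3,3}` on `{0, 4, 6}` and `{1, 3, 7}`, the vertex `2` joined to `1, 3` and the
vertex `5` joined to `4, 6` -/
def G : SimpleGraph (ZMod 8) where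
  Adj i j := isBar i j = true ∨ isBar j i = true
  symm := ⟨fun _ _ h => h.symm⟩
  loopless := ⟨by decide⟩

instance : DecidableRel G.Adj := fun i j =>
  inferInstanceAs (Decidable (isBar i j = true ∨ isBar j i = true))

/-- scalar product -/
def sp (u v : ℂ) : ℝ := u.re * v.re + u.im * v.im

/-- determinant -/
def dt (u v : ℂ) : ℝ := u.re * v.im - u.im * v.re

theorem perp {u v : ℂ} (hu : u ≠ 0) (h : sp u v = 0) :
    ∃ β : ℝ, v.re = -β * u.im ∧ v.im = β * u.re := by
  have hpos : 0 < u.re ^ 2 + u.im ^ 2 := by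
    have := Complex.normSq_pos.mpr hu
    rw [Complex.normSq_apply] at this
    linarith
  have hne := hpos.ne'
  unfold sp at h
  refine ⟨dt u v / (u.re ^ 2 + u.im ^ 2), ?_, ?_⟩
  · apply mul_left_cancel₀ hne
    have e : (u.re ^ 2 + u.im ^ 2) * (-(dt u v / (u.re ^ 2 + u.im ^ 2)) * u.im) =
        -(dt u v) * u.im := by
      field_simp
    rw [e]
    unfold dt
    linear_combination (u.re) * h
  · apply mul_left_cancel₀ hne
    have e : (u.re ^ 2 + u.im ^ 2) * (dt u v / (u.re ^ 2 + u.im ^ 2) * u.re) =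
        (dt u v) * u.re := by
      field_simp
    rw [e]
    unfold dt
    linear_combination (u.im) * h

theorem zero_of_two {u w v : ℂ} (h : dt u w ≠ 0) (h1 : sp u v = 0) (h2 : sp w v = 0) : v = 0 := by
  unfold sp at h1 h2
  unfold dt at h
  have e1 : v.re * (u.re * w.im - u.im * w.re) = 0 := by
    linear_combination w.im * h1 - u.im * h2
  have e2 : v.im * (u.re * w.im - u.im * w.re) = 0 := by
    linear_combination u.re * h2 - w.re * h1
  apply Complex.ext
  · simpa using (mul_eq_zero.mp e1).resolve_right h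
  · simpa using (mul_eq_zero.mp e2).resolve_right h

/-- the four-cycle of linear equations -/
theorem cycle {c22 c23 c32 c33 d22 d23 d32 d33 a2 a3 b2 b3 : ℝ}
    (h22 : a2 * c22 = b2 * d22) (h32 : a3 * c32 = b2 * d32) (h33 : a3 * c33 = b3 * d33)
    (h23 : a2 * c23 = b3 * d23) (hD : d22 * c23 * d33 * c32 - c22 * d23 * c33 * d32 ≠ 0) :
    a2 = 0 ∧ a3 = 0 ∧ b2 = 0 ∧ b3 = 0 := by
  have e1 : a2 * (d22 * c23 * d33 * c32 - c22 * d23 * c33 * d32) = 0 := by
    linear_combination d22 * d33 * c32 * h23 - c33 * d23 * d32 * h22 + d22 * d23 * c33 * h32 -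
      d22 * d23 * c32 * h33
  have e2 : a3 * (d22 * c23 * d33 * c32 - c22 * d23 * c33 * d32) = 0 := by
    linear_combination d22 * d33 * c23 * h32 - d22 * 0 * h23 + d33 * d32 * 0 * h22 -
      c22 * d23 * d32 * h33 - d32 * d33 * c23 * h22 + d32 * d33 * c22 * h23
  have e3 : b2 * (d22 * c23 * d33 * c32 - c22 * d23 * c33 * d32) = 0 := by
    linear_combination -c23 * d33 * c32 * h22 + c22 * d23 * c33 * h32 + c22 * c32 * d33 * h23 -
      c22 * c32 * d23 * h33
  have e4 : b3 * (d22 * c23 * d33 * c32 - c22 * d23 * c33 * d32) = 0 := by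
    linear_combination -d22 * c23 * c32 * h33 + c22 * c33 * d32 * h23 + d22 * c23 * c33 * h32 -
      c33 * d32 * c23 * h22
  exact ⟨(mul_eq_zero.mp e1).resolve_right hD, (mul_eq_zero.mp e2).resolve_right hD,
    (mul_eq_zero.mp e3).resolve_right hD, (mul_eq_zero.mp e4).resolve_right hD⟩

/-- the determinant which decides the infinitesimal rigidity of the `K_{3,3}` -/
def Dd (z : ZMod 8 → ℂ) : ℝ :=
  dt (z 4 - z 3) (z 0 - z 3) * dt (z 4 - z 7) (z 4 - z 1) * dt (z 6 - z 7) (z 0 - z 7) *
      dt (z 6 - z 3) (z 6 - z 1) -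
    dt (z 4 - z 3) (z 4 - z 1) * dt (z 4 - z 7) (z 0 - z 7) * dt (z 6 - z 7) (z 6 - z 1) *
      dt (z 6 - z 3) (z 0 - z 3)

def Ff (z : ZMod 8 → ℂ) : ℝ :=
  ((z 0).re - (z 1).re) * Dd z * dt (z 2 - z 1) (z 2 - z 3) * dt (z 5 - z 4) (z 5 - z 6)

/-- no nontrivial infinitesimal motion fixes the vertices `0` and `1` -/
theorem kernel {z v : ZMod 8 → ℂ} (hF : Ff z ≠ 0) (h0 : v 0 = 0) (h1 : v 1 = 0)
    (hb : ∀ i j, G.Adj i j → sp (z i - z j) (v i - v j) = 0) : v = 0 := by
  unfold Ff at hF
  have hD : Dd z ≠ 0 := by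
    intro h; apply hF; rw [h]; ring
  have hC : dt (z 2 - z 1) (z 2 - z 3) ≠ 0 := by
    intro h; apply hF; rw [h]; ring
  have hE : dt (z 5 - z 4) (z 5 - z 6) ≠ 0 := by
    intro h; apply hF; rw [h]; ring
  have n41 : z 4 - z 1 ≠ 0 := by
    intro h; apply hD; unfold Dd; rw [h]; simp [dt]
  have n61 : z 6 - z 1 ≠ 0 := by
    intro h; apply hD; unfold Dd; rw [h]; simp [dt]
  have n03 : z 0 - z 3 ≠ 0 := by
    intro h; apply hD; unfold Dd; rw [h]; simp [dt]
  have n07 : z 0 - z 7 ≠ 0 := by
    intro h; apply hD; unfold Dd; rw [h]; simp [dt]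
  obtain ⟨a4, r4, i4⟩ := perp n41 (v := v 4) (by simpa [h1] using hb 4 1 (by decide))
  obtain ⟨a6, r6, i6⟩ := perp n61 (v := v 6) (by simpa [h1] using hb 6 1 (by decide))
  obtain ⟨b3, r3, i3⟩ := perp n03 (v := v 3) (by
    have := hb 0 3 (by decide)
    rw [h0] at this
    unfold sp at this ⊢
    simp at this ⊢
    linarith)
  obtain ⟨b7, r7, i7⟩ := perp n07 (v := v 7) (by
    have := hb 0 7 (by decide)
    rw [h0] at this
    unfold sp at this ⊢
    simp at this ⊢
    linarith)
  have e43 : a4 * dt (z 4 - z 3) (z 4 - z 1) = b3 * dt (z 4 - z 3) (z 0 - z 3) := by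
    have := hb 4 3 (by decide)
    unfold sp at this
    unfold dt
    simp only [Complex.sub_re, Complex.sub_im, r4, i4, r3, i3] at this ⊢
    linarith
  have e63 : a6 * dt (z 6 - z 3) (z 6 - z 1) = b3 * dt (z 6 - z 3) (z 0 - z 3) := by
    have := hb 6 3 (by decide)
    unfold sp at this
    unfold dt
    simp only [Complex.sub_re, Complex.sub_im, r6, i6, r3, i3] at this ⊢
    linarith
  have e67 : a6 * dt (z 6 - z 7) (z 6 - z 1) = b7 * dt (z 6 - z 7) (z 0 - z 7) := by
    have := hb 6 7 (by decide)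
    unfold sp at this
    unfold dt
    simp only [Complex.sub_re, Complex.sub_im, r6, i6, r7, i7] at this ⊢
    linarith
  have e47 : a4 * dt (z 4 - z 7) (z 4 - z 1) = b7 * dt (z 4 - z 7) (z 0 - z 7) := by
    have := hb 4 7 (by decide)
    unfold sp at this
    unfold dt
    simp only [Complex.sub_re, Complex.sub_im, r4, i4, r7, i7] at this ⊢
    linarith
  obtain ⟨z4, z6, z3, z7⟩ := cycle e43 e63 e67 e47 (by
    intro h; apply hD; unfold Dd; linarith)
  have v4 : v 4 = 0 := by
    apply Complex.ext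
    · rw [r4, z4]; simp
    · rw [i4, z4]; simp
  have v6 : v 6 = 0 := by
    apply Complex.ext
    · rw [r6, z6]; simp
    · rw [i6, z6]; simp
  have v3 : v 3 = 0 := by
    apply Complex.ext
    · rw [r3, z3]; simp
    · rw [i3, z3]; simp
  have v7 : v 7 = 0 := by
    apply Complex.ext
    · rw [r7, z7]; simp
    · rw [i7, z7]; simp
  have v2 : v 2 = 0 := zero_of_two hC (by simpa [h1] using hb 2 1 (by decide))
    (by simpa [v3] using hb 2 3 (by decide))
  have v5 : v 5 = 0 := zero_of_two hE (by simpa [v4] using hb 5 4 (by decide))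
    (by simpa [v6] using hb 5 6 (by decide))
  funext i
  fin_cases i
  · exact h0
  · exact h1
  · exact v2
  · exact v3
  · exact v4
  · exact v5
  · exact v6
  · exact v7

/-- the averaging trick: near `p` the only configuration with the same bar lengths and the same
vertices `0` and `1` is `p` -/
theorem unique {p x : ZMod 8 → ℂ} (h0 : x 0 = p 0) (h1 : x 1 = p 1)
    (hb : ∀ i j, G.Adj i j → dist (x i) (x j) = dist (p i) (p j))
    (hF : Ff (fun i => (x i + p i) / 2) ≠ 0) : x = p := by
  have key : (fun i => x i - p i) = 0 := by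
    apply kernel hF
    · simp [h0]
    · simp [h1]
    · intro i j hij
      have h := hb i j hij
      have h2 : Complex.normSq (x i - x j) = Complex.normSq (p i - p j) := by
        rw [Complex.dist_eq, Complex.dist_eq] at h
        rw [Complex.normSq_eq_norm_sq, Complex.normSq_eq_norm_sq, h]
      rw [Complex.normSq_apply, Complex.normSq_apply] at h2
      unfold sp
      have e1 : ((x i + p i) / 2 - (x j + p j) / 2).re = ((x i).re + (p i).re) / 2 - ((x j).re + (p j).re) / 2 := by
        simp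
      have e2 : ((x i + p i) / 2 - (x j + p j) / 2).im = ((x i).im + (p i).im) / 2 - ((x j).im + (p j).im) / 2 := by
        simp
      rw [e1, e2]
      simp only [Complex.sub_re, Complex.sub_im] at h2 ⊢
      linarith
  funext i
  have := congrFun key i
  simpa [sub_eq_zero] using this

/-- moves the configuration `m` so that the vertices `0` and `1` come to their places in `p` -/
noncomputable def norml (p m : ZMod 8 → ℂ) (i : ZMod 8) : ℂ :=
  p 0 + (m i - m 0) * ((p 1 - p 0) / (m 1 - m 0))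

theorem dist_norml {p m : ZMod 8 → ℂ} (h01 : dist (m 0) (m 1) = dist (p 0) (p 1)) (hp : p 0 ≠ p 1)
    (i j : ZMod 8) : dist (norml p m i) (norml p m j) = dist (m i) (m j) := by
  have hn : ‖(p 1 - p 0) / (m 1 - m 0)‖ = 1 := by
    rw [norm_div, ← dist_eq_norm, ← dist_eq_norm, dist_comm (p 1), dist_comm (m 1), h01]
    exact div_self (dist_ne_zero.mpr hp)
  rw [dist_eq_norm, dist_eq_norm]
  unfold norml
  have : p 0 + (m i - m 0) * ((p 1 - p 0) / (m 1 - m 0)) -
      (p 0 + (m j - m 0) * ((p 1 - p 0) / (m 1 - m 0))) =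
      (m i - m j) * ((p 1 - p 0) / (m 1 - m 0)) := by ring
  rw [this, norm_mul, hn, mul_one]

theorem continuous_Ff {T : Type} [TopologicalSpace T] {x : T → ZMod 8 → ℂ} (hx : Continuous x) :
    Continuous (fun t => Ff (x t)) := by
  have h : ∀ i, Continuous (fun t => x t i) := fun i => (continuous_apply i).comp hx
  have hd : ∀ i j k l, Continuous (fun t => dt (x t i - x t j) (x t k - x t l)) := by
    intro i j k l
    unfold dt
    have a1 := Complex.continuous_re.comp ((h i).sub (h j))
    have a2 := Complex.continuous_im.comp ((h i).sub (h j))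
    have a3 := Complex.continuous_re.comp ((h k).sub (h l))
    have a4 := Complex.continuous_im.comp ((h k).sub (h l))
    exact (a1.mul a4).sub (a2.mul a3)
  have hre : ∀ i, Continuous (fun t => (x t i).re) := fun i => Complex.continuous_re.comp (h i)
  unfold Ff Dd
  exact ((((hre 0).sub (hre 1)).mul (((((hd 4 3 0 3).mul (hd 4 7 4 1)).mul (hd 6 7 0 7)).mul
    (hd 6 3 6 1)).sub ((((hd 4 3 4 1).mul (hd 4 7 0 7)).mul (hd 6 7 6 1)).mul (hd 6 3 0 3)))).mul
    (hd 2 1 2 3)).mul (hd 5 4 5 6)

/-- the framework `(G, p)` is rigid if `Ff p ≠ 0` -/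
theorem rigid_of_Ff {p : ZMod 8 → ℂ} (hF : Ff p ≠ 0) : Rigid G p := by
  rintro ⟨m, hm, t₀, ht₀⟩
  apply ht₀
  have hp : p 0 ≠ p 1 := by
    intro h; apply hF; unfold Ff; rw [h]; ring
  have h01 : ∀ t, dist (m t 0) (m t 1) = dist (p 0) (p 1) := fun t => hm.bars t 0 1 (by decide)
  have hne : ∀ t, m t 1 - m t 0 ≠ 0 := by
    intro t h
    have h2 := h01 t
    rw [dist_comm, dist_eq_norm, h, norm_zero] at h2
    exact hp (dist_eq_zero.mp h2.symm)
  set x : unitInterval → ZMod 8 → ℂ := fun t => norml p (m t) with hx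
  have hmc : ∀ i, Continuous (fun t => m t i) := fun i => (continuous_apply i).comp hm.cont
  have hxc : Continuous x := by
    apply continuous_pi
    intro i
    simp only [hx]
    unfold norml
    exact continuous_const.add (((hmc i).sub (hmc 0)).mul
      (continuous_const.div ((hmc 1).sub (hmc 0)) hne))
  have hx0 : ∀ t, x t 0 = p 0 := by
    intro t; simp [hx, norml]
  have hx1 : ∀ t, x t 1 = p 1 := by
    intro t
    simp only [hx]
    unfold norml
    rw [mul_div_cancel₀ _ (hne t)]
    ring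
  have hxb : ∀ t i j, G.Adj i j → dist (x t i) (x t j) = dist (p i) (p j) := by
    intro t i j hij
    rw [hx, dist_norml (h01 t) hp, hm.bars t i j hij]
  have halt : ∀ t, Ff (fun i => (x t i + p i) / 2) ≠ 0 → x t = p := fun t ht =>
    unique (hx0 t) (hx1 t) (hxb t) ht
  have hself : ∀ t, x t = p → Ff (fun i => (x t i + p i) / 2) ≠ 0 := by
    intro t ht
    rw [ht]
    have : (fun i => (p i + p i) / 2) = p := by
      funext i; ring
    rwa [this]
  have hcl : IsClosed {t | x t = p} := isClosed_eq hxc continuous_const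
  have hop : IsOpen {t | x t = p} := by
    have e : {t | x t = p} = {t | Ff (fun i => (x t i + p i) / 2) ≠ 0} := by
      ext t
      exact ⟨hself t, halt t⟩
    rw [e]
    apply isOpen_ne_fun _ continuous_const
    apply continuous_Ff
    apply continuous_pi
    intro i
    exact (((continuous_apply i).comp hxc).add continuous_const).div_const 2
  have huniv : {t | x t = p} = Set.univ := by
    rcases isClopen_iff.mp ⟨hcl, hop⟩ with h | h
    · exfalso
      have : (0 : unitInterval) ∈ ({t | x t = p} : Set unitInterval) := by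
        show x 0 = p
        funext i
        simp only [hx, hm.start]
        unfold norml
        rw [div_self (sub_ne_zero.mpr hp.symm)]
        ring
      rw [h] at this
      exact this
    · exact h
  have hx₀ : x t₀ = p := by
    have : t₀ ∈ ({t | x t = p} : Set unitInterval) := by rw [huniv]; trivial
    exact this
  rw [congruent_iff_dist_eq]
  intro i j
  rw [← dist_norml (h01 t₀) hp i j]
  have := congrFun hx₀
  simp only [hx] at this
  rw [this i, this j]

/-! ### the polynomial -/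

/-- the polynomial of `dt (z i - z j) (z k - z l)` -/
noncomputable def dtP (i j k l : ZMod 8) : MvPolynomial (ZMod 8 × Fin 2) ℚ :=
  (X (i, 0) - X (j, 0)) * (X (k, 1) - X (l, 1)) - (X (i, 1) - X (j, 1)) * (X (k, 0) - X (l, 0))

noncomputable def FfP : MvPolynomial (ZMod 8 × Fin 2) ℚ :=
  (X (0, 0) - X (1, 0)) * (dtP 4 3 0 3 * dtP 4 7 4 1 * dtP 6 7 0 7 * dtP 6 3 6 1 -
    dtP 4 3 4 1 * dtP 4 7 0 7 * dtP 6 7 6 1 * dtP 6 3 0 3) * dtP 2 1 2 3 * dtP 5 4 5 6

theorem aeval_dtP (p : ZMod 8 → ℂ) (i j k l : ZMod 8) :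
    aeval (fun x : ZMod 8 × Fin 2 => coord (p x.1) x.2) (dtP i j k l) =
      dt (p i - p j) (p k - p l) := by
  unfold dtP dt coord
  simp

theorem aeval_FfP (p : ZMod 8 → ℂ) :
    aeval (fun x : ZMod 8 × Fin 2 => coord (p x.1) x.2) FfP = Ff p := by
  unfold FfP Ff Dd
  simp only [map_mul, map_sub, aeval_dtP, aeval_X]
  simp [coord]

/-- a configuration with `Ff ≠ 0` -/
noncomputable def p0 : ZMod 8 → ℂ :=
  ![0, 1 + Complex.I, 0, 1, 2, 1, 2 * Complex.I, Complex.I]

theorem Ff_p0 : Ff p0 ≠ 0 := by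
  have e0 : p0 0 = 0 := rfl
  have e1 : p0 1 = 1 + Complex.I := rfl
  have e2 : p0 2 = 0 := rfl
  have e3 : p0 3 = 1 := rfl
  have e4 : p0 4 = 2 := rfl
  have e5 : p0 5 = 1 := rfl
  have e6 : p0 6 = 2 * Complex.I := rfl
  have e7 : p0 7 = Complex.I := rfl
  unfold Ff Dd dt
  rw [e0, e1, e2, e3, e4, e5, e6, e7]
  simp
  norm_num

theorem FfP_ne : FfP ≠ 0 := by
  intro h
  have := aeval_FfP p0
  rw [h, map_zero] at this
  exact Ff_p0 this.symm

theorem genericallyRigid : GenericallyRigid G :=
  ⟨FfP, FfP_ne, fun p hp => rigid_of_Ff (by rwa [aeval_FfP] at hp)⟩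

theorem isBraced : IsBracedPolygon G := by
  refine ⟨by norm_num, ?_⟩
  decide

end Pool.Agent.V11167.Brp
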