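import Mathlib
import Pool.Agent.V11167.BrpDefs
import Pool.Agent.V11167.BrpA

/-!
# Braced polygons: the strictly convex flexible configuration

The six points `(±a, ±b)`, `(±c, ±d)` with `a c` and `b d` and `a² + b² + c² + d²` constant (Dixon's
second mechanism), and two more vertices.
-/

namespace Pool.Agent.V11167.Brp

open Real

/-- the configuration with parameters `a, b, c, d, h, k` -/
noncomputable def conf (a b c d h k : ℝ) : ZMod 8 → ℂ :=
  ![⟨a, b⟩, ⟨c, d⟩, ⟨0, d + h⟩, ⟨-c, d⟩, ⟨-a, b⟩, ⟨-a - k, 0⟩, ⟨-a, -b⟩, ⟨-c, -d⟩]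

/-- the strictly convex octagon -/
noncomputable def pp : ZMod 8 → ℂ := conf 6 2 2 6 1 1

section
variable (a b c d h k : ℝ)
theorem conf0 : conf a b c d h k 0 = ⟨a, b⟩ := rfl
theorem conf1 : conf a b c d h k 1 = ⟨c, d⟩ := rfl
theorem conf2 : conf a b c d h k 2 = ⟨0, d + h⟩ := rfl
theorem conf3 : conf a b c d h k 3 = ⟨-c, d⟩ := rfl
theorem conf4 : conf a b c d h k 4 = ⟨-a, b⟩ := rfl
theorem conf5 : conf a b c d h k 5 = ⟨-a - k, 0⟩ := rfl
theorem conf6 : conf a b c d h k 6 = ⟨-a, -b⟩ := rfl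
theorem conf7 : conf a b c d h k 7 = ⟨-c, -d⟩ := rfl
end

/-- all bars -/
def bars : List (ZMod 8 × ZMod 8) :=
  [(0, 1), (1, 2), (2, 3), (3, 4), (4, 5), (5, 6), (6, 7), (7, 0), (0, 3), (4, 1), (4, 7), (6, 1),
    (6, 3)]

theorem mem_bars : ∀ u w : ZMod 8, isBar u w = true → (u, w) ∈ bars := by decide

theorem dist_conf {a b c d h k : ℝ} (h1 : a * c = 12) (h2 : b * d = 12)
    (h3 : a ^ 2 + b ^ 2 + c ^ 2 + d ^ 2 = 80) (h4 : c ^ 2 + h ^ 2 = 5) (h5 : b ^ 2 + k ^ 2 = 5)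
    {u w : ZMod 8} (huw : isBar u w = true) :
    dist (conf a b c d h k u) (conf a b c d h k w) = dist (pp u) (pp w) := by
  have hm := mem_bars u w huw
  unfold pp
  rw [Complex.dist_eq_re_im, Complex.dist_eq_re_im]
  congr 1
  simp only [bars, List.mem_cons, Prod.mk.injEq, List.not_mem_nil, or_false] at hm
  rcases hm with ⟨rfl, rfl⟩ | ⟨rfl, rfl⟩ | ⟨rfl, rfl⟩ | ⟨rfl, rfl⟩ | ⟨rfl, rfl⟩ | ⟨rfl, rfl⟩ |
    ⟨rfl, rfl⟩ | ⟨rfl, rfl⟩ | ⟨rfl, rfl⟩ | ⟨rfl, rfl⟩ | ⟨rfl, rfl⟩ | ⟨rfl, rfl⟩ | ⟨rfl, rfl⟩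
  · simp only [conf0, conf1]
    linear_combination h3 - 2 * h1 - 2 * h2
  · simp only [conf1, conf2]
    linear_combination h4
  · simp only [conf2, conf3]
    linear_combination h4
  · simp only [conf3, conf4]
    linear_combination h3 - 2 * h1 - 2 * h2
  · simp only [conf4, conf5]
    linear_combination h5
  · simp only [conf5, conf6]
    linear_combination h5
  · simp only [conf6, conf7]
    linear_combination h3 - 2 * h1 - 2 * h2
  · simp only [conf7, conf0]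
    linear_combination h3 + 2 * h1 + 2 * h2
  · simp only [conf0, conf3]
    linear_combination h3 + 2 * h1 - 2 * h2
  · simp only [conf4, conf1]
    linear_combination h3 + 2 * h1 - 2 * h2
  · simp only [conf4, conf7]
    linear_combination h3 - 2 * h1 + 2 * h2
  · simp only [conf6, conf1]
    linear_combination h3 + 2 * h1 + 2 * h2
  · simp only [conf6, conf3]
    linear_combination h3 - 2 * h1 + 2 * h2

/-! ### the motion -/

noncomputable def fa (t : ℝ) : ℝ := 6 - t / 2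
noncomputable def fc (t : ℝ) : ℝ := 12 / fa t
noncomputable def fg (t : ℝ) : ℝ := 80 - fa t ^ 2 - fc t ^ 2
noncomputable def fr (t : ℝ) : ℝ := (fg t - √(fg t ^ 2 - 576)) / 2
noncomputable def fb (t : ℝ) : ℝ := √(fr t)
noncomputable def fd (t : ℝ) : ℝ := 12 / fb t
noncomputable def fh (t : ℝ) : ℝ := √(5 - fc t ^ 2)
noncomputable def fk (t : ℝ) : ℝ := √(5 - fr t)

theorem fa_bd {t : ℝ} (h0 : 0 ≤ t) (h1 : t ≤ 1) : 11 / 2 ≤ fa t ∧ fa t ≤ 6 := by
  unfold fa; constructor <;> linarith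

theorem fa_fc {t : ℝ} (h0 : 0 ≤ t) (h1 : t ≤ 1) : fa t * fc t = 12 := by
  have := (fa_bd h0 h1).1
  unfold fc
  field_simp

theorem fc_bd {t : ℝ} (h0 : 0 ≤ t) (h1 : t ≤ 1) : 0 ≤ fc t ∧ fc t ^ 2 ≤ 5 := by
  have h := fa_bd h0 h1
  have e := fa_fc h0 h1
  have hc : 0 ≤ fc t := by
    unfold fc; apply div_nonneg <;> linarith
  have hc2 : fc t ≤ 11 / 5 := by
    nlinarith
  exact ⟨hc, by nlinarith⟩

theorem fg_bd {t : ℝ} (h0 : 0 ≤ t) (h1 : t ≤ 1) : 40 ≤ fg t := by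
  have h := fa_bd h0 h1
  have e := fa_fc h0 h1
  have hc := fc_bd h0 h1
  unfold fg
  have hc3 : 2 ≤ fc t := by nlinarith
  have hc2 : fc t ≤ 11 / 5 := by
    nlinarith
  -- (a - 6)(a - 2) type estimate
  have e2 : (fa t - 6) * (fa t - 2) ≤ 0 := by
    apply mul_nonpos_of_nonpos_of_nonneg <;> linarith
  nlinarith [mul_nonneg (sub_nonneg.mpr h.2) (sub_nonneg.mpr hc3), sq_nonneg (fa t + fc t - 8),
    sq_nonneg (fa t - fc t), sq_nonneg (fa t + fc t)]

theorem fr_eq {t : ℝ} (h0 : 0 ≤ t) (h1 : t ≤ 1) : fr t ^ 2 - fg t * fr t + 144 = 0 := by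
  have hg := fg_bd h0 h1
  have hs : √(fg t ^ 2 - 576) ^ 2 = fg t ^ 2 - 576 := sq_sqrt (by nlinarith)
  unfold fr
  linear_combination (1 / 4) * hs

theorem fr_bd {t : ℝ} (h0 : 0 ≤ t) (h1 : t ≤ 1) : 0 < fr t ∧ fr t ≤ 4 := by
  have hg := fg_bd h0 h1
  have hs : √(fg t ^ 2 - 576) ^ 2 = fg t ^ 2 - 576 := sq_sqrt (by nlinarith)
  have hs0 := sqrt_nonneg (fg t ^ 2 - 576)
  constructor
  · unfold fr
    have : √(fg t ^ 2 - 576) < fg t := by nlinarith
    linarith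
  · unfold fr
    have : fg t - 8 ≤ √(fg t ^ 2 - 576) := by
      apply le_sqrt_of_sq_le
      nlinarith
    linarith

theorem fb_sq {t : ℝ} (h0 : 0 ≤ t) (h1 : t ≤ 1) : fb t ^ 2 = fr t := sq_sqrt (fr_bd h0 h1).1.le

theorem fb_pos {t : ℝ} (h0 : 0 ≤ t) (h1 : t ≤ 1) : 0 < fb t := sqrt_pos.mpr (fr_bd h0 h1).1

theorem fb_fd {t : ℝ} (h0 : 0 ≤ t) (h1 : t ≤ 1) : fb t * fd t = 12 := by
  have := (fb_pos h0 h1).ne'
  unfold fd
  field_simp

theorem sum_sq {t : ℝ} (h0 : 0 ≤ t) (h1 : t ≤ 1) :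
    fa t ^ 2 + fb t ^ 2 + fc t ^ 2 + fd t ^ 2 = 80 := by
  have e1 := fb_sq h0 h1
  have e2 := fb_fd h0 h1
  have e3 := fr_eq h0 h1
  have hr := (fr_bd h0 h1).1
  have e4 : fr t * fd t ^ 2 = 144 := by
    rw [← e1]; nlinarith
  have e5 : fr t * (fr t + fd t ^ 2 - fg t) = 0 := by linarith
  have e6 : fr t + fd t ^ 2 - fg t = 0 := (mul_eq_zero.mp e5).resolve_left hr.ne'
  have e7 : fg t = 80 - fa t ^ 2 - fc t ^ 2 := rfl
  linarith

theorem fh_sq {t : ℝ} (h0 : 0 ≤ t) (h1 : t ≤ 1) : fc t ^ 2 + fh t ^ 2 = 5 := by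
  have := (fc_bd h0 h1).2
  unfold fh
  rw [sq_sqrt (by linarith)]
  ring

theorem fk_sq {t : ℝ} (h0 : 0 ≤ t) (h1 : t ≤ 1) : fb t ^ 2 + fk t ^ 2 = 5 := by
  have := (fr_bd h0 h1).2
  rw [fb_sq h0 h1]
  unfold fk
  rw [sq_sqrt (by linarith)]
  ring

noncomputable def mot (t : unitInterval) : ZMod 8 → ℂ :=
  conf (fa t) (fb t) (fc t) (fd t) (fh t) (fk t)

theorem cont_fa : Continuous (fun t : unitInterval => fa t) := by
  unfold fa; fun_prop

theorem cont_fc : Continuous (fun t : unitInterval => fc t) := by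
  unfold fc
  exact continuous_const.div cont_fa (fun t => by
    have := (fa_bd t.2.1 t.2.2).1
    linarith)

theorem cont_fg : Continuous (fun t : unitInterval => fg t) := by
  unfold fg
  exact (continuous_const.sub (cont_fa.pow 2)).sub (cont_fc.pow 2)

theorem cont_fr : Continuous (fun t : unitInterval => fr t) := by
  unfold fr
  exact (cont_fg.sub (Real.continuous_sqrt.comp ((cont_fg.pow 2).sub continuous_const))).div_const 2

theorem cont_fb : Continuous (fun t : unitInterval => fb t) := by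
  unfold fb
  exact Real.continuous_sqrt.comp cont_fr

theorem cont_fd : Continuous (fun t : unitInterval => fd t) := by
  unfold fd
  exact continuous_const.div cont_fb (fun t => (fb_pos t.2.1 t.2.2).ne')

theorem cont_fh : Continuous (fun t : unitInterval => fh t) := by
  unfold fh
  exact Real.continuous_sqrt.comp (continuous_const.sub (cont_fc.pow 2))

theorem cont_fk : Continuous (fun t : unitInterval => fk t) := by
  unfold fk
  exact Real.continuous_sqrt.comp (continuous_const.sub cont_fr)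

theorem cont_mk {f g : unitInterval → ℝ} (hf : Continuous f) (hg : Continuous g) :
    Continuous (fun t => (⟨f t, g t⟩ : ℂ)) := by
  have : (fun t => (⟨f t, g t⟩ : ℂ)) = fun t => (f t : ℂ) + (g t : ℂ) * Complex.I := by
    funext t
    rw [Complex.mk_eq_add_mul_I]
  rw [this]
  exact (Complex.continuous_ofReal.comp hf).add
    ((Complex.continuous_ofReal.comp hg).mul continuous_const)

theorem cont_mot : Continuous mot := by
  apply continuous_pi
  intro i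
  unfold mot
  fin_cases i
  · exact cont_mk cont_fa cont_fb
  · exact cont_mk cont_fc cont_fd
  · exact cont_mk continuous_const (cont_fd.add cont_fh)
  · exact cont_mk cont_fc.neg cont_fd
  · exact cont_mk cont_fa.neg cont_fb
  · exact cont_mk (cont_fa.neg.sub cont_fk) continuous_const
  · exact cont_mk cont_fa.neg cont_fb.neg
  · exact cont_mk cont_fc.neg cont_fd.neg

theorem start : mot 0 = pp := by
  have ea : fa 0 = 6 := by unfold fa; norm_num
  have ec : fc 0 = 2 := by unfold fc; rw [ea]; norm_num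
  have eg : fg 0 = 40 := by unfold fg; rw [ea, ec]; norm_num
  have er : fr 0 = 4 := by
    unfold fr; rw [eg]
    have : √((40 : ℝ) ^ 2 - 576) = 32 := by
      rw [show (40 : ℝ) ^ 2 - 576 = 32 ^ 2 by norm_num]
      exact sqrt_sq (by norm_num)
    rw [this]; norm_num
  have eb : fb 0 = 2 := by
    unfold fb; rw [er, show (4 : ℝ) = 2 ^ 2 by norm_num]
    exact sqrt_sq (by norm_num)
  have ed : fd 0 = 6 := by unfold fd; rw [eb]; norm_num
  have eh : fh 0 = 1 := by unfold fh; rw [ec]; norm_num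
  have ek : fk 0 = 1 := by unfold fk; rw [er]; norm_num
  unfold mot pp
  have : ((0 : unitInterval) : ℝ) = 0 := rfl
  rw [this, ea, eb, ec, ed, eh, ek]

theorem isMotion : IsMotion G pp mot where
  cont := cont_mot
  start := start
  bars := by
    intro t u w h
    have key : ∀ u w, isBar u w = true → dist (mot t u) (mot t w) = dist (pp u) (pp w) :=
      fun u w h => dist_conf (fa_fc t.2.1 t.2.2) (fb_fd t.2.1 t.2.2) (sum_sq t.2.1 t.2.2)
        (fh_sq t.2.1 t.2.2) (fk_sq t.2.1 t.2.2) h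
    rcases h with h | h
    · exact key u w h
    · rw [dist_comm, dist_comm (pp u)]
      exact key w u h

theorem flexible : Flexible G pp := by
  refine ⟨mot, isMotion, 1, ?_⟩
  intro h
  rw [congruent_iff_dist_eq] at h
  have h1 := h 0 4
  have e1 : mot 1 0 = ⟨fa 1, fb 1⟩ := rfl
  have e2 : mot 1 4 = ⟨-fa 1, fb 1⟩ := rfl
  have e3 : pp 0 = ⟨6, 2⟩ := rfl
  have e4 : pp 4 = ⟨-6, 2⟩ := rfl
  have ea : fa 1 = 11 / 2 := by unfold fa; norm_num
  rw [e1, e2, e3, e4, Complex.dist_eq_re_im, Complex.dist_eq_re_im, ea] at h1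
  simp only at h1
  rw [show (11 / 2 - -(11 / 2 : ℝ)) ^ 2 + (fb 1 - fb 1) ^ 2 = 11 ^ 2 by ring,
    show ((6 : ℝ) - -6) ^ 2 + (2 - 2) ^ 2 = 12 ^ 2 by norm_num,
    sqrt_sq (by norm_num), sqrt_sq (by norm_num)] at h1
  norm_num at h1

/-- the integer coordinates of the octagon -/
def qq : ZMod 8 → ℤ × ℤ :=
  ![(6, 2), (2, 6), (0, 7), (-2, 6), (-6, 2), (-7, 0), (-6, -2), (-2, -6)]

theorem pp_qq (i : ZMod 8) : (pp i).re = (qq i).1 ∧ (pp i).im = (qq i).2 := by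
  fin_cases i
  · exact ⟨by show (6 : ℝ) = ((6 : ℤ) : ℝ); norm_num, by show (2 : ℝ) = ((2 : ℤ) : ℝ); norm_num⟩
  · exact ⟨by show (2 : ℝ) = ((2 : ℤ) : ℝ); norm_num, by show (6 : ℝ) = ((6 : ℤ) : ℝ); norm_num⟩
  · exact ⟨by show (0 : ℝ) = ((0 : ℤ) : ℝ); norm_num,
      by show (6 : ℝ) + 1 = ((7 : ℤ) : ℝ); norm_num⟩
  · exact ⟨by show -(2 : ℝ) = ((-2 : ℤ) : ℝ); norm_num, by show (6 : ℝ) = ((6 : ℤ) : ℝ); norm_num⟩
  · exact ⟨by show -(6 : ℝ) = ((-6 : ℤ) : ℝ); norm_num, by show (2 : ℝ) = ((2 : ℤ) : ℝ); norm_num⟩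
  · exact ⟨by show -(6 : ℝ) - 1 = ((-7 : ℤ) : ℝ); norm_num,
      by show (0 : ℝ) = ((0 : ℤ) : ℝ); norm_num⟩
  · exact ⟨by show -(6 : ℝ) = ((-6 : ℤ) : ℝ); norm_num,
      by show -(2 : ℝ) = ((-2 : ℤ) : ℝ); norm_num⟩
  · exact ⟨by show -(2 : ℝ) = ((-2 : ℤ) : ℝ); norm_num,
      by show -(6 : ℝ) = ((-6 : ℤ) : ℝ); norm_num⟩

theorem qq_cross : ∀ i j : ZMod 8, j ≠ i → j ≠ i + 1 →
    0 < ((qq (i + 1)).1 - (qq i).1) * ((qq j).2 - (qq i).2) -
      ((qq (i + 1)).2 - (qq i).2) * ((qq j).1 - (qq i).1) := by decide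

theorem strictlyConvex : StrictlyConvex pp := by
  intro i j h1 h2
  unfold cross
  rw [(pp_qq i).1, (pp_qq i).2, (pp_qq j).1, (pp_qq j).2, (pp_qq (i + 1)).1, (pp_qq (i + 1)).2]
  exact_mod_cast qq_cross i j h1 h2

end Pool.Agent.V11167.Brp
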