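import Mathlib

/-! Definitions for MP_d05d56_co. -/

noncomputable section

namespace Pool.Agent.V11167.RayDefs

open MeasureTheory Set

/-- Euclidean distance in `ℝ × ℝ`. -/
def len (a b : ℝ × ℝ) : ℝ := Real.sqrt ((a.1 - b.1) ^ 2 + (a.2 - b.2) ^ 2)

/-- A convex region: compact, convex, with nonempty interior. -/
def ConvexRegion (C : Set (ℝ × ℝ)) : Prop := IsCompact C ∧ Convex ℝ C ∧ (interior C).Nonempty

/-- The cuts `S` cut `C` into three pieces of area `|C|/3`: the interior of `C` minus `S` is the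
disjoint union of three connected open sets (its components), each of area `|C|/3`. -/
def CutsInThree (C S : Set (ℝ × ℝ)) : Prop :=
  ∃ U : Fin 3 → Set (ℝ × ℝ), (∀ i, IsOpen (U i) ∧ IsConnected (U i) ∧
    volume (U i) = volume C / 3) ∧ (Pairwise fun i j => Disjoint (U i) (U j)) ∧
    interior C \ S = ⋃ i, U i

/-- Three rays from the interior point `P`, meeting `∂C` at the points `A i`, cut `C` into three
pieces of equal area. -/
def ThreeRay (C : Set (ℝ × ℝ)) (P : ℝ × ℝ) (A : Fin 3 → ℝ × ℝ) : Prop :=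
  P ∈ interior C ∧ (∀ i, A i ∈ frontier C) ∧ CutsInThree C (⋃ i, segment ℝ P (A i))

/-- Two rays from the boundary point `X`, leaving `C` at the points `B j`, cut `C` into three
pieces of equal area. -/
def TwoRay (C : Set (ℝ × ℝ)) (X : ℝ × ℝ) (B : Fin 2 → ℝ × ℝ) : Prop :=
  X ∈ frontier C ∧ (∀ j, B j ∈ frontier C) ∧ CutsInThree C (⋃ j, segment ℝ X (B j))

end Pool.Agent.V11167.RayDefs
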