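import Mathlib
import Pool.Agent.V11167.RayDefs

/-! A thin rectangle (for MP_d05d56_co). -/

noncomputable section

namespace Pool.Agent.V11167.Ray

open MeasureTheory Set Pool.Agent.V11167.RayDefs

/-- open half-plane -/
def H (α β γ : ℝ) : Set (ℝ × ℝ) := {p | 0 < α + β * p.1 + γ * p.2}

lemma H_open (α β γ : ℝ) : IsOpen (H α β γ) := isOpen_lt continuous_const (by fun_prop)

lemma H_convex (α β γ : ℝ) : Convex ℝ (H α β γ) := by
  intro z hz w hw a b ha hb hab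
  have h1 : 0 < α + β * z.1 + γ * z.2 := hz
  have h2 : 0 < α + β * w.1 + γ * w.2 := hw
  show 0 < α + β * (a • z + b • w).1 + γ * (a • z + b • w).2
  simp only [Prod.fst_add, Prod.smul_fst, Prod.snd_add, Prod.smul_snd, smul_eq_mul]
  have hb' : b = 1 - a := by linarith
  have h3 : α + β * (a * z.1 + b * w.1) + γ * (a * z.2 + b * w.2) =
      a * (α + β * z.1 + γ * z.2) + b * (α + β * w.1 + γ * w.2) := by
    rw [hb']; ring
  rw [h3]
  rcases eq_or_lt_of_le ha with h | h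
  · have : b = 1 := by linarith
    rw [← h, this]; linarith
  · have := mul_pos h h1
    have := mul_nonneg hb h2.le
    linarith

lemma mem_seg {P A p : ℝ × ℝ} : p ∈ segment ℝ P A ↔
    ∃ t, 0 ≤ t ∧ t ≤ 1 ∧ p.1 = P.1 + t * (A.1 - P.1) ∧ p.2 = P.2 + t * (A.2 - P.2) := by
  rw [segment_eq_image', mem_image]
  constructor
  · rintro ⟨t, ⟨h0, h1⟩, rfl⟩
    exact ⟨t, h0, h1, by simp, by simp⟩
  · rintro ⟨t, h0, h1, h2, h3⟩
    refine ⟨t, ⟨h0, h1⟩, Prod.ext ?_ ?_⟩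
    · simp [h2]
    · simp [h3]

/-- area between two graphs over the first coordinate -/
lemma area1 (f g : ℝ → ℝ) (hf : Continuous f) (hg : Continuous g) {a b : ℝ} (hab : a ≤ b)
    (hfg : ∀ x ∈ Ioo a b, f x ≤ g x) :
    volume {p : ℝ × ℝ | p.1 ∈ Ioo a b ∧ p.2 ∈ Ioo (f p.1) (g p.1)} =
      ENNReal.ofReal (∫ x in a..b, (g x - f x)) := by
  have h1 : IntegrableOn f (Ioo a b) := (hf.integrableOn_Icc (a := a) (b := b)).mono_set Ioo_subset_Icc_self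
  have h2 : IntegrableOn g (Ioo a b) := (hg.integrableOn_Icc (a := a) (b := b)).mono_set Ioo_subset_Icc_self
  have := volume_regionBetween_eq_integral h1 h2 measurableSet_Ioo hfg
  rw [intervalIntegral.integral_of_le hab, integral_Ioc_eq_integral_Ioo, Measure.volume_eq_prod]
  exact this

/-- area between two graphs over the second coordinate -/
lemma area2 (f g : ℝ → ℝ) (hf : Continuous f) (hg : Continuous g) {a b : ℝ} (hab : a ≤ b)
    (hfg : ∀ x ∈ Ioo a b, f x ≤ g x) :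
    volume {p : ℝ × ℝ | p.2 ∈ Ioo a b ∧ p.1 ∈ Ioo (f p.2) (g p.2)} =
      ENNReal.ofReal (∫ x in a..b, (g x - f x)) := by
  rw [← area1 f g hf hg hab hfg]
  have hm : MeasurePreserving (Prod.swap : ℝ × ℝ → ℝ × ℝ) volume volume := by
    rw [Measure.volume_eq_prod]
    exact Measure.measurePreserving_swap
  have hmeas : MeasurableSet {p : ℝ × ℝ | p.1 ∈ Ioo a b ∧ p.2 ∈ Ioo (f p.1) (g p.1)} :=
    measurableSet_regionBetween hf.measurable hg.measurable measurableSet_Ioo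
  rw [← hm.measure_preimage hmeas.nullMeasurableSet]
  rfl

/-- the rectangle; the first coordinate is the short one -/
def C : Set (ℝ × ℝ) := Icc (-1 : ℝ) 1 ×ˢ Icc (0 : ℝ) 30

lemma C_compact : IsCompact C := isCompact_Icc.prod isCompact_Icc
lemma C_convex : Convex ℝ C := (convex_Icc _ _).prod (convex_Icc _ _)
lemma C_int : interior C = Ioo (-1 : ℝ) 1 ×ˢ Ioo (0 : ℝ) 30 := by
  rw [C, interior_prod_eq, interior_Icc, interior_Icc]
lemma C_region : ConvexRegion C := by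
  refine ⟨C_compact, C_convex, ⟨(0, 1), ?_⟩⟩
  rw [C_int]
  constructor <;> constructor <;> norm_num

lemma C_vol : volume C = 60 := by
  rw [C, Measure.volume_eq_prod, Measure.prod_prod, Real.volume_Icc, Real.volume_Icc,
    ← ENNReal.ofReal_mul (by norm_num)]
  norm_num

lemma C_third : volume C / 3 = 20 := by
  rw [C_vol, show (60 : ENNReal) = 20 * 3 by norm_num,
    ENNReal.mul_div_cancel_right (by simp) (by simp)]

lemma mem_int {p : ℝ × ℝ} : p ∈ interior C ↔ (-1 < p.1 ∧ p.1 < 1) ∧ (0 < p.2 ∧ p.2 < 30) := by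
  rw [C_int]; rfl

lemma mem_front {p : ℝ × ℝ} : p ∈ frontier C ↔ p ∈ C ∧ p ∉ interior C := by
  rw [C_compact.isClosed.frontier_eq]; rfl

lemma iU3 (U : Fin 3 → Set (ℝ × ℝ)) : (⋃ i, U i) = U 0 ∪ (U 1 ∪ U 2) := by
  ext p
  rw [mem_iUnion]
  constructor
  · rintro ⟨i, hi⟩
    fin_cases i
    · exact Or.inl hi
    · exact Or.inr (Or.inl hi)
    · exact Or.inr (Or.inr hi)
  · rintro (h | h | h)
    · exact ⟨0, h⟩
    · exact ⟨1, h⟩
    · exact ⟨2, h⟩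

lemma iU2 (U : Fin 2 → Set (ℝ × ℝ)) : (⋃ i, U i) = U 0 ∪ U 1 := by
  ext p
  rw [mem_iUnion]
  constructor
  · rintro ⟨i, hi⟩
    fin_cases i
    · exact Or.inl hi
    · exact Or.inr hi
  · rintro (h | h)
    · exact ⟨0, h⟩
    · exact ⟨1, h⟩

lemma pair3 {U : Fin 3 → Set (ℝ × ℝ)} (h01 : Disjoint (U 0) (U 1)) (h02 : Disjoint (U 0) (U 2))
    (h12 : Disjoint (U 1) (U 2)) : Pairwise fun i j => Disjoint (U i) (U j) := by
  intro i j hij
  fin_cases i <;> fin_cases j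
  · exact absurd rfl hij
  · exact h01
  · exact h02
  · exact h01.symm
  · exact absurd rfl hij
  · exact h12
  · exact h02.symm
  · exact h12.symm
  · exact absurd rfl hij

/-! ### strip partitions, used for the corners `(±1, 19)` -/

lemma strip (X : ℝ × ℝ) (B : Fin 2 → ℝ × ℝ) (f₀ f₁ g₀ g₁ : ℝ)
    (hf : ∀ y ∈ Icc (-1 : ℝ) 1, 0 ≤ f₀ + f₁ * y) (hg : ∀ y ∈ Icc (-1 : ℝ) 1, g₀ + g₁ * y ≤ 30)
    (hfg : ∀ y ∈ Ioo (-1 : ℝ) 1, f₀ + f₁ * y < g₀ + g₁ * y)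
    (hf20 : f₀ = 10) (hg20 : g₀ = 20)
    (hs0 : ∀ p : ℝ × ℝ, -1 < p.1 → p.1 < 1 → (p ∈ segment ℝ X (B 0) ↔ p.2 = f₀ + f₁ * p.1))
    (hs1 : ∀ p : ℝ × ℝ, -1 < p.1 → p.1 < 1 → (p ∈ segment ℝ X (B 1) ↔ p.2 = g₀ + g₁ * p.1)) :
    CutsInThree C (⋃ j, segment ℝ X (B j)) := by
  set U : Fin 3 → Set (ℝ × ℝ) :=
    ![{p | p.1 ∈ Ioo (-1 : ℝ) 1 ∧ p.2 ∈ Ioo ((fun _ => (0 : ℝ)) p.1) ((fun y => f₀ + f₁ * y) p.1)},
      {p | p.1 ∈ Ioo (-1 : ℝ) 1 ∧ p.2 ∈ Ioo ((fun y => f₀ + f₁ * y) p.1)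
        ((fun y => g₀ + g₁ * y) p.1)},
      {p | p.1 ∈ Ioo (-1 : ℝ) 1 ∧ p.2 ∈ Ioo ((fun y => g₀ + g₁ * y) p.1)
        ((fun _ => (30 : ℝ)) p.1)}] with hU
  have hU0 : U 0 = H 1 1 0 ∩ H 1 (-1) 0 ∩ (H 0 0 1 ∩ H f₀ f₁ (-1)) := by
    ext p
    simp only [hU, Matrix.cons_val_zero, mem_setOf_eq, mem_Ioo, mem_inter_iff, H]
    constructor
    · rintro ⟨⟨h1, h2⟩, h3, h4⟩; exact ⟨⟨by linarith, by linarith⟩, by linarith, by linarith⟩
    · rintro ⟨⟨h1, h2⟩, h3, h4⟩; exact ⟨⟨by linarith, by linarith⟩, by linarith, by linarith⟩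
  have hU1 : U 1 = H 1 1 0 ∩ H 1 (-1) 0 ∩ (H (-f₀) (-f₁) 1 ∩ H g₀ g₁ (-1)) := by
    ext p
    simp only [hU, Matrix.cons_val_one, Matrix.cons_val_zero, mem_setOf_eq, mem_Ioo, mem_inter_iff, H]
    constructor
    · rintro ⟨⟨h1, h2⟩, h3, h4⟩; exact ⟨⟨by linarith, by linarith⟩, by linarith, by linarith⟩
    · rintro ⟨⟨h1, h2⟩, h3, h4⟩; exact ⟨⟨by linarith, by linarith⟩, by linarith, by linarith⟩
  have hU2 : U 2 = H 1 1 0 ∩ H 1 (-1) 0 ∩ (H (-g₀) (-g₁) 1 ∩ H 30 0 (-1)) := by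
    ext p
    show p.1 ∈ Ioo (-1 : ℝ) 1 ∧ p.2 ∈ Ioo (g₀ + g₁ * p.1) 30 ↔ _
    simp only [mem_Ioo, mem_inter_iff, H, mem_setOf_eq]
    constructor
    · rintro ⟨⟨h1, h2⟩, h3, h4⟩; exact ⟨⟨by linarith, by linarith⟩, by linarith, by linarith⟩
    · rintro ⟨⟨h1, h2⟩, h3, h4⟩; exact ⟨⟨by linarith, by linarith⟩, by linarith, by linarith⟩
  have hconn : ∀ a b c a' b' c' : ℝ, (H 1 1 0 ∩ H 1 (-1) 0 ∩ (H a b c ∩ H a' b' c')).Nonempty →
      IsOpen (H 1 1 0 ∩ H 1 (-1) 0 ∩ (H a b c ∩ H a' b' c')) ∧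
      IsConnected (H 1 1 0 ∩ H 1 (-1) 0 ∩ (H a b c ∩ H a' b' c')) := by
    intro a b c a' b' c' hne
    refine ⟨((H_open _ _ _).inter (H_open _ _ _)).inter ((H_open _ _ _).inter (H_open _ _ _)),
      hne, ?_⟩
    exact ((((H_convex _ _ _).inter (H_convex _ _ _)).inter
      ((H_convex _ _ _).inter (H_convex _ _ _)))).isPreconnected
  have hint : ∀ a b : ℝ, ∫ y in (-1 : ℝ)..1, (a + b * y) = 2 * a := by
    intro a b
    rw [intervalIntegral.integral_add (by simp) (Continuous.intervalIntegrable (by fun_prop) _ _),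
      intervalIntegral.integral_const, intervalIntegral.integral_const_mul, integral_id]
    simp only [smul_eq_mul]; ring
  refine ⟨U, ?_, ?_, ?_⟩
  · intro i
    rw [C_third]
    fin_cases i
    · show IsOpen (U 0) ∧ IsConnected (U 0) ∧ volume (U 0) = 20
      have hne : (U 0).Nonempty := ⟨(0, 5), ⟨⟨by norm_num, by norm_num⟩, by norm_num, by
        show (5 : ℝ) < f₀ + f₁ * 0
        rw [hf20]; norm_num⟩⟩
      rw [hU0] at hne
      have := hconn _ _ _ _ _ _ hne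
      rw [← hU0] at this
      refine ⟨this.1, this.2, ?_⟩
      have h := area1 (fun _ => (0 : ℝ)) (fun y => f₀ + f₁ * y) continuous_const (by fun_prop)
        (by norm_num : (-1 : ℝ) ≤ 1) (fun y hy => hf y ⟨hy.1.le, hy.2.le⟩)
      show volume {p : ℝ × ℝ | p.1 ∈ Ioo (-1 : ℝ) 1 ∧ p.2 ∈ Ioo ((fun _ => (0 : ℝ)) p.1)
        ((fun y => f₀ + f₁ * y) p.1)} = 20
      rw [h]
      simp only [sub_zero]
      rw [hint, hf20]; norm_num
    · show IsOpen (U 1) ∧ IsConnected (U 1) ∧ volume (U 1) = 20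
      have hne : (U 1).Nonempty := ⟨(0, 15), ⟨⟨by norm_num, by norm_num⟩, by
        show f₀ + f₁ * 0 < (15 : ℝ)
        rw [hf20]; norm_num, by
        show (15 : ℝ) < g₀ + g₁ * 0
        rw [hg20]; norm_num⟩⟩
      rw [hU1] at hne
      have := hconn _ _ _ _ _ _ hne
      rw [← hU1] at this
      refine ⟨this.1, this.2, ?_⟩
      have h := area1 (fun y => f₀ + f₁ * y) (fun y => g₀ + g₁ * y) (by fun_prop) (by fun_prop)
        (by norm_num : (-1 : ℝ) ≤ 1) (fun y hy => (hfg y hy).le)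
      show volume {p : ℝ × ℝ | p.1 ∈ Ioo (-1 : ℝ) 1 ∧ p.2 ∈ Ioo ((fun y => f₀ + f₁ * y) p.1)
        ((fun y => g₀ + g₁ * y) p.1)} = 20
      rw [h]
      have : ∀ y : ℝ, (g₀ + g₁ * y) - (f₀ + f₁ * y) = (g₀ - f₀) + (g₁ - f₁) * y := by
        intro y; ring
      simp only [this]
      rw [hint, hf20, hg20]; norm_num
    · show IsOpen (U 2) ∧ IsConnected (U 2) ∧ volume (U 2) = 20
      have hne : (U 2).Nonempty := ⟨(0, 25), ⟨⟨by norm_num, by norm_num⟩, by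
        show g₀ + g₁ * 0 < (25 : ℝ)
        rw [hg20]; norm_num, by
        show (25 : ℝ) < 30
        norm_num⟩⟩
      rw [hU2] at hne
      have := hconn _ _ _ _ _ _ hne
      rw [← hU2] at this
      refine ⟨this.1, this.2, ?_⟩
      have h := area1 (fun y => g₀ + g₁ * y) (fun _ => (30 : ℝ)) (by fun_prop) continuous_const
        (by norm_num : (-1 : ℝ) ≤ 1) (fun y hy => hg y ⟨hy.1.le, hy.2.le⟩)
      show volume {p : ℝ × ℝ | p.1 ∈ Ioo (-1 : ℝ) 1 ∧ p.2 ∈ Ioo ((fun y => g₀ + g₁ * y) p.1)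
        ((fun _ => (30 : ℝ)) p.1)} = 20
      rw [h]
      have : ∀ y : ℝ, 30 - (g₀ + g₁ * y) = (30 - g₀) + (-g₁) * y := by
        intro y; ring
      simp only [this]
      rw [hint, hg20]; norm_num
  · have h01 : Disjoint (U 0) (U 1) := by
      rw [Set.disjoint_left]
      rintro p ⟨-, -, h2⟩ ⟨-, h4, -⟩
      exact absurd (lt_trans h2 h4) (lt_irrefl _)
    have h12 : Disjoint (U 1) (U 2) := by
      rw [Set.disjoint_left]
      rintro p ⟨-, -, h2⟩ ⟨-, h4, -⟩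
      exact absurd (lt_trans h2 h4) (lt_irrefl _)
    have h02 : Disjoint (U 0) (U 2) := by
      rw [Set.disjoint_left]
      rintro p ⟨h1, -, h2⟩ ⟨-, h4, -⟩
      have h5 := hfg p.1 h1
      have h2' : p.2 < f₀ + f₁ * p.1 := h2
      have h4' : g₀ + g₁ * p.1 < p.2 := h4
      linarith
    exact pair3 h01 h02 h12
  · rw [iU2, iU3]
    ext p
    rw [mem_diff, mem_int, mem_union, mem_union, mem_union]
    constructor
    · rintro ⟨⟨⟨h1, h2⟩, h3, h4⟩, h5⟩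
      rw [hs0 p h1 h2, hs1 p h1 h2, not_or] at h5
      rcases lt_or_gt_of_ne h5.1 with h | h
      · left; exact ⟨⟨h1, h2⟩, h3, h⟩
      · rcases lt_or_gt_of_ne h5.2 with h' | h'
        · right; left; exact ⟨⟨h1, h2⟩, h, h'⟩
        · right; right; exact ⟨⟨h1, h2⟩, h', h4⟩
    · rintro (⟨⟨h1, h2⟩, h3, h4⟩ | ⟨⟨h1, h2⟩, h3, h4⟩ | ⟨⟨h1, h2⟩, h3, h4⟩)
      · have e1 := hfg p.1 ⟨h1, h2⟩
        have e2 := hg p.1 ⟨h1.le, h2.le⟩
        have h3' : 0 < p.2 := h3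
        have h4' : p.2 < f₀ + f₁ * p.1 := h4
        refine ⟨⟨⟨h1, h2⟩, h3', by linarith⟩, ?_⟩
        rw [hs0 p h1 h2, hs1 p h1 h2, not_or]
        exact ⟨h4'.ne, (h4'.trans e1).ne⟩
      · have e1 := hf p.1 ⟨h1.le, h2.le⟩
        have e2 := hg p.1 ⟨h1.le, h2.le⟩
        have h3' : f₀ + f₁ * p.1 < p.2 := h3
        have h4' : p.2 < g₀ + g₁ * p.1 := h4
        refine ⟨⟨⟨h1, h2⟩, by linarith, by linarith⟩, ?_⟩
        rw [hs0 p h1 h2, hs1 p h1 h2, not_or]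
        exact ⟨h3'.ne', h4'.ne⟩
      · have e1 := hfg p.1 ⟨h1, h2⟩
        have e2 := hf p.1 ⟨h1.le, h2.le⟩
        have h3' : g₀ + g₁ * p.1 < p.2 := h3
        have h4' : p.2 < 30 := h4
        refine ⟨⟨⟨h1, h2⟩, by linarith, h4'⟩, ?_⟩
        rw [hs0 p h1 h2, hs1 p h1 h2, not_or]
        exact ⟨(e1.trans h3').ne', h3'.ne'⟩

end Pool.Agent.V11167.Ray
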