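import Mathlib
import Pool.Agent.V11167.RayA

/-! A thin rectangle (for MP_d05d56_co): the partitions and the final statement. -/

noncomputable section

namespace Pool.Agent.V11167.Ray

open MeasureTheory Set Pool.Agent.V11167.RayDefs

def P : ℝ × ℝ := (0, 1)
def A : Fin 3 → ℝ × ℝ := ![(0, 30), (1, 19), (-1, 19)]

lemma A0 : A 0 = (0, 30) := rfl
lemma A1 : A 1 = (1, 19) := rfl
lemma A2 : A 2 = (-1, 19) := rfl

lemma int_aff (a b c d : ℝ) : ∫ y in a..b, (c + d * y) = c * (b - a) + d * (b ^ 2 - a ^ 2) / 2 := by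
  rw [intervalIntegral.integral_add (by simp) (Continuous.intervalIntegrable (by fun_prop) _ _),
    intervalIntegral.integral_const, intervalIntegral.integral_const_mul, integral_id]
  simp only [smul_eq_mul]; ring

/-! ### the partition from `P` -/

def W : Fin 3 → Set (ℝ × ℝ) :=
  ![{p | p.1 ∈ Ioo (0 : ℝ) 1 ∧ p.2 ∈ Ioo ((fun y : ℝ => 1 + 18 * y) p.1) ((fun _ => (30 : ℝ)) p.1)},
    {p | p.1 ∈ Ioo (-1 : ℝ) 0 ∧ p.2 ∈ Ioo ((fun y : ℝ => 1 + (-18) * y) p.1)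
      ((fun _ => (30 : ℝ)) p.1)},
    {p | p.1 ∈ Ioo (-1 : ℝ) 1 ∧ p.2 ∈ Ioo ((fun _ => (0 : ℝ)) p.1)
      ((fun y : ℝ => 1 + 18 * |y|) p.1)}]

lemma mem_W0 {p : ℝ × ℝ} : p ∈ W 0 ↔ (0 < p.1 ∧ p.1 < 1) ∧ (1 + 18 * p.1 < p.2 ∧ p.2 < 30) := Iff.rfl
lemma mem_W1 {p : ℝ × ℝ} : p ∈ W 1 ↔
    (-1 < p.1 ∧ p.1 < 0) ∧ (1 + (-18) * p.1 < p.2 ∧ p.2 < 30) := Iff.rfl
lemma mem_W2 {p : ℝ × ℝ} : p ∈ W 2 ↔
    (-1 < p.1 ∧ p.1 < 1) ∧ (0 < p.2 ∧ p.2 < 1 + 18 * |p.1|) := Iff.rfl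

lemma W0_eq : W 0 = H 0 1 0 ∩ H 1 (-1) 0 ∩ (H (-1) (-18) 1 ∩ H 30 0 (-1)) := by
  ext p
  rw [mem_W0]
  simp only [H, mem_inter_iff, mem_setOf_eq]
  constructor
  · rintro ⟨⟨h1, h2⟩, h3, h4⟩; exact ⟨⟨by linarith, by linarith⟩, by linarith, by linarith⟩
  · rintro ⟨⟨h1, h2⟩, h3, h4⟩; exact ⟨⟨by linarith, by linarith⟩, by linarith, by linarith⟩

lemma W1_eq : W 1 = H 1 1 0 ∩ H 0 (-1) 0 ∩ (H (-1) 18 1 ∩ H 30 0 (-1)) := by
  ext p
  rw [mem_W1]
  simp only [H, mem_inter_iff, mem_setOf_eq]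
  constructor
  · rintro ⟨⟨h1, h2⟩, h3, h4⟩; exact ⟨⟨by linarith, by linarith⟩, by linarith, by linarith⟩
  · rintro ⟨⟨h1, h2⟩, h3, h4⟩; exact ⟨⟨by linarith, by linarith⟩, by linarith, by linarith⟩

lemma W2_eq : W 2 = (H 1 1 0 ∩ H 1 (-1) 0 ∩ (H 0 0 1 ∩ H 1 18 (-1))) ∪
    (H 1 1 0 ∩ H 1 (-1) 0 ∩ (H 0 0 1 ∩ H 1 (-18) (-1))) := by
  ext p
  rw [mem_W2]
  simp only [H, mem_inter_iff, mem_setOf_eq, mem_union]
  constructor
  · rintro ⟨⟨h1, h2⟩, h3, h4⟩
    rcases le_total 0 p.1 with h | h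
    · rw [abs_of_nonneg h] at h4
      left; exact ⟨⟨by linarith, by linarith⟩, by linarith, by linarith⟩
    · rw [abs_of_nonpos h] at h4
      right; exact ⟨⟨by linarith, by linarith⟩, by linarith, by linarith⟩
  · have h5 := le_abs_self p.1
    have h6 := neg_abs_le p.1
    rintro (⟨⟨h1, h2⟩, h3, h4⟩ | ⟨⟨h1, h2⟩, h3, h4⟩)
    · exact ⟨⟨by linarith, by linarith⟩, by linarith, by linarith⟩
    · exact ⟨⟨by linarith, by linarith⟩, by linarith, by linarith⟩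

lemma quad_open (a b c d e f a' b' c' d' e' f' : ℝ) :
    IsOpen (H a b c ∩ H d e f ∩ (H a' b' c' ∩ H d' e' f')) :=
  ((H_open _ _ _).inter (H_open _ _ _)).inter ((H_open _ _ _).inter (H_open _ _ _))

lemma quad_conn {a b c d e f a' b' c' d' e' f' : ℝ}
    (h : (H a b c ∩ H d e f ∩ (H a' b' c' ∩ H d' e' f')).Nonempty) :
    IsConnected (H a b c ∩ H d e f ∩ (H a' b' c' ∩ H d' e' f')) :=
  ⟨h, ((((H_convex _ _ _).inter (H_convex _ _ _)).inter
      ((H_convex _ _ _).inter (H_convex _ _ _)))).isPreconnected⟩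

lemma vol_W0 : volume (W 0) = 20 := by
  have h := area1 (fun y => 1 + 18 * y) (fun _ => (30 : ℝ)) (by fun_prop) continuous_const
    (by norm_num : (0 : ℝ) ≤ 1) (fun y hy => by
      have := hy.2
      show 1 + 18 * y ≤ 30
      linarith)
  refine Eq.trans h ?_
  have : ∀ y : ℝ, 30 - (1 + 18 * y) = 29 + (-18) * y := by intro y; ring
  simp only [this]
  rw [int_aff]; norm_num

lemma vol_W1 : volume (W 1) = 20 := by
  have h := area1 (fun y => 1 + (-18) * y) (fun _ => (30 : ℝ)) (by fun_prop) continuous_const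
    (by norm_num : (-1 : ℝ) ≤ 0) (fun y hy => by
      have := hy.1
      show 1 + (-18) * y ≤ 30
      linarith)
  refine Eq.trans h ?_
  have : ∀ y : ℝ, 30 - (1 + (-18) * y) = 29 + 18 * y := by intro y; ring
  simp only [this]
  rw [int_aff]; norm_num

lemma vol_W2 : volume (W 2) = 20 := by
  have h := area1 (fun _ => (0 : ℝ)) (fun y => 1 + 18 * |y|) continuous_const (by fun_prop)
    (by norm_num : (-1 : ℝ) ≤ 1) (fun y hy => by
      show 0 ≤ 1 + 18 * |y|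
      positivity)
  refine Eq.trans h ?_
  have hc : Continuous fun y : ℝ => 1 + 18 * |y| - 0 := by fun_prop
  rw [← intervalIntegral.integral_add_adjacent_intervals (b := (0 : ℝ))
    (hc.intervalIntegrable _ _) (hc.intervalIntegrable _ _)]
  have h1 : ∫ y in (-1 : ℝ)..0, (1 + 18 * |y| - 0) = ∫ y in (-1 : ℝ)..0, (1 + (-18) * y) := by
    apply intervalIntegral.integral_congr
    intro y hy
    rw [uIcc_of_le (by norm_num)] at hy
    simp only
    rw [abs_of_nonpos hy.2]; ring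
  have h2 : ∫ y in (0 : ℝ)..1, (1 + 18 * |y| - 0) = ∫ y in (0 : ℝ)..1, (1 + 18 * y) := by
    apply intervalIntegral.integral_congr
    intro y hy
    rw [uIcc_of_le (by norm_num)] at hy
    simp only
    rw [abs_of_nonneg hy.1]; ring
  rw [h1, h2, int_aff, int_aff]; norm_num

theorem threeRay : ThreeRay C P A := by
  refine ⟨?_, ?_, W, ?_, ?_, ?_⟩
  · rw [mem_int]; simp [P]
  · intro i
    rw [mem_front, mem_int]
    fin_cases i
    · show ((0 : ℝ), (30 : ℝ)) ∈ C ∧ ¬ _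
      refine ⟨⟨⟨by norm_num, by norm_num⟩, ⟨by norm_num, by norm_num⟩⟩, ?_⟩
      rintro ⟨-, -, h⟩
      exact absurd h (lt_irrefl _)
    · show ((1 : ℝ), (19 : ℝ)) ∈ C ∧ ¬ _
      refine ⟨⟨⟨by norm_num, by norm_num⟩, ⟨by norm_num, by norm_num⟩⟩, ?_⟩
      rintro ⟨⟨-, h⟩, -⟩
      exact absurd h (lt_irrefl _)
    · show ((-1 : ℝ), (19 : ℝ)) ∈ C ∧ ¬ _
      refine ⟨⟨⟨by norm_num, by norm_num⟩, ⟨by norm_num, by norm_num⟩⟩, ?_⟩
      rintro ⟨⟨h, -⟩, -⟩
      exact absurd h (lt_irrefl _)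
  · intro i
    rw [C_third]
    fin_cases i
    · show IsOpen (W 0) ∧ IsConnected (W 0) ∧ volume (W 0) = 20
      have hne : (W 0).Nonempty := ⟨(1 / 2, 20), by rw [mem_W0]; norm_num⟩
      refine ⟨?_, ?_, vol_W0⟩
      · rw [W0_eq]; exact quad_open _ _ _ _ _ _ _ _ _ _ _ _
      · rw [W0_eq] at hne ⊢; exact quad_conn hne
    · show IsOpen (W 1) ∧ IsConnected (W 1) ∧ volume (W 1) = 20
      have hne : (W 1).Nonempty := ⟨(-(1 / 2), 20), by rw [mem_W1]; norm_num⟩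
      refine ⟨?_, ?_, vol_W1⟩
      · rw [W1_eq]; exact quad_open _ _ _ _ _ _ _ _ _ _ _ _
      · rw [W1_eq] at hne ⊢; exact quad_conn hne
    · show IsOpen (W 2) ∧ IsConnected (W 2) ∧ volume (W 2) = 20
      refine ⟨?_, ?_, vol_W2⟩
      · rw [W2_eq]; exact (quad_open _ _ _ _ _ _ _ _ _ _ _ _).union
          (quad_open _ _ _ _ _ _ _ _ _ _ _ _)
      · rw [W2_eq]
        have h1 : ((0, 1 / 2) : ℝ × ℝ) ∈ (H 1 1 0 ∩ H 1 (-1) 0 ∩ (H 0 0 1 ∩ H 1 18 (-1))) := by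
          simp only [H, mem_inter_iff, mem_setOf_eq]; norm_num
        have h2 : ((0, 1 / 2) : ℝ × ℝ) ∈ (H 1 1 0 ∩ H 1 (-1) 0 ∩ (H 0 0 1 ∩ H 1 (-18) (-1))) := by
          simp only [H, mem_inter_iff, mem_setOf_eq]; norm_num
        exact IsConnected.union ⟨_, h1, h2⟩ (quad_conn ⟨_, h1⟩) (quad_conn ⟨_, h2⟩)
  · apply pair3
    · rw [Set.disjoint_left]
      intro p h1 h2
      rw [mem_W0] at h1
      rw [mem_W1] at h2
      linarith [h1.1.1, h2.1.2]
    · rw [Set.disjoint_left]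
      intro p h1 h2
      rw [mem_W0] at h1
      rw [mem_W2, abs_of_pos h1.1.1] at h2
      linarith [h1.2.1, h2.2.2]
    · rw [Set.disjoint_left]
      intro p h1 h2
      rw [mem_W1] at h1
      rw [mem_W2, abs_of_neg h1.1.2] at h2
      linarith [h1.2.1, h2.2.2]
  · rw [iU3, iU3]
    ext p
    simp only [mem_diff, mem_union, mem_W0, mem_W1, mem_W2, mem_seg, A0, A1, A2, P]
    rw [mem_int]
    constructor
    · rintro ⟨⟨⟨h1, h2⟩, h3, h4⟩, h5⟩
      push Not at h5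
      obtain ⟨h6, h7, h8⟩ := h5
      rcases lt_trichotomy p.1 0 with h | h | h
      · have hne : p.2 ≠ 1 + (-18) * p.1 := by
          intro he
          have := h8 (-p.1) (by linarith) (by linarith) (by linarith)
          exact this (by rw [he]; ring)
        rcases lt_or_gt_of_ne hne with h' | h'
        · right; right
          rw [abs_of_neg h]
          exact ⟨⟨h1, h2⟩, h3, by linarith⟩
        · right; left
          exact ⟨⟨h1, h⟩, h', h4⟩
      · right; right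
        rw [h, abs_zero]
        refine ⟨⟨by norm_num, by norm_num⟩, h3, ?_⟩
        by_contra hcon
        push Not at hcon
        have := h6 ((p.2 - 1) / 29) (by linarith) (by linarith) (by rw [h]; ring)
        exact this (by ring)
      · have hne : p.2 ≠ 1 + 18 * p.1 := by
          intro he
          have := h7 p.1 (by linarith) (by linarith) (by ring)
          exact this (by rw [he]; ring)
        rcases lt_or_gt_of_ne hne with h' | h'
        · right; right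
          rw [abs_of_pos h]
          exact ⟨⟨h1, h2⟩, h3, by linarith⟩
        · left
          exact ⟨⟨h, h2⟩, h', h4⟩
    · rintro (⟨⟨h1, h2⟩, h3, h4⟩ | ⟨⟨h1, h2⟩, h3, h4⟩ | ⟨⟨h1, h2⟩, h3, h4⟩)
      · refine ⟨⟨⟨by linarith, h2⟩, by linarith, h4⟩, ?_⟩
        push Not
        refine ⟨fun t h5 h6 h7 h8 => by linarith, fun t h5 h6 h7 h8 => by linarith,
          fun t h5 h6 h7 h8 => by linarith⟩
      · refine ⟨⟨⟨h1, by linarith⟩, by linarith, h4⟩, ?_⟩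
        push Not
        refine ⟨fun t h5 h6 h7 h8 => by linarith, fun t h5 h6 h7 h8 => by linarith,
          fun t h5 h6 h7 h8 => by linarith⟩
      · have habs : |p.1| < 1 := abs_lt.2 ⟨h1, h2⟩
        refine ⟨⟨⟨h1, h2⟩, h3, by linarith⟩, ?_⟩
        push Not
        refine ⟨fun t h5 h6 h7 h8 => ?_, fun t h5 h6 h7 h8 => ?_, fun t h5 h6 h7 h8 => ?_⟩
        · have : p.1 = 0 := by linarith
          rw [this, abs_zero] at h4
          linarith
        · have : p.1 = t := by linarith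
          rw [this, abs_of_nonneg h5] at h4
          linarith
        · have : p.1 = -t := by linarith
          rw [this, abs_neg, abs_of_nonneg h5] at h4
          linarith

/-! ### the two-ray partitions from the points `A i` -/

lemma front_side {x : ℝ} (h0 : 0 ≤ x) (h1 : x ≤ 30) : ((1 : ℝ), x) ∈ frontier C ∧
    ((-1 : ℝ), x) ∈ frontier C := by
  rw [mem_front, mem_front, mem_int, mem_int]
  refine ⟨⟨⟨⟨by norm_num, by norm_num⟩, ⟨h0, h1⟩⟩, ?_⟩, ⟨⟨⟨by norm_num, by norm_num⟩, ⟨h0, h1⟩⟩, ?_⟩⟩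
  · rintro ⟨⟨-, h⟩, -⟩
    exact absurd h (lt_irrefl _)
  · rintro ⟨⟨h, -⟩, -⟩
    exact absurd h (lt_irrefl _)

theorem two1 : TwoRay C (A 1) ![(-1, 1), (-1, 21)] := by
  refine ⟨(threeRay.2.1 1), ?_, ?_⟩
  · intro j
    fin_cases j
    · exact (front_side (by norm_num) (by norm_num)).2
    · exact (front_side (by norm_num) (by norm_num)).2
  · refine strip _ _ 10 9 20 (-1) (fun y hy => by linarith [hy.1]) (fun y hy => by linarith [hy.1])
      (fun y hy => by linarith [hy.2]) rfl rfl ?_ ?_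
    · intro p h1 h2
      rw [mem_seg, A1]
      show (∃ t, 0 ≤ t ∧ t ≤ 1 ∧ p.1 = 1 + t * (-1 - 1) ∧ p.2 = 19 + t * (1 - 19)) ↔ _
      constructor
      · rintro ⟨t, -, -, h3, h4⟩; linarith
      · intro h; exact ⟨(1 - p.1) / 2, by linarith, by linarith, by ring, by linarith⟩
    · intro p h1 h2
      rw [mem_seg, A1]
      show (∃ t, 0 ≤ t ∧ t ≤ 1 ∧ p.1 = 1 + t * (-1 - 1) ∧ p.2 = 19 + t * (21 - 19)) ↔ _
      constructor
      · rintro ⟨t, -, -, h3, h4⟩; linarith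
      · intro h; exact ⟨(1 - p.1) / 2, by linarith, by linarith, by ring, by linarith⟩

theorem two2 : TwoRay C (A 2) ![(1, 1), (1, 21)] := by
  refine ⟨(threeRay.2.1 2), ?_, ?_⟩
  · intro j
    fin_cases j
    · exact (front_side (by norm_num) (by norm_num)).1
    · exact (front_side (by norm_num) (by norm_num)).1
  · refine strip _ _ 10 (-9) 20 1 (fun y hy => by linarith [hy.2]) (fun y hy => by linarith [hy.2])
      (fun y hy => by linarith [hy.1]) rfl rfl ?_ ?_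
    · intro p h1 h2
      rw [mem_seg, A2]
      show (∃ t, 0 ≤ t ∧ t ≤ 1 ∧ p.1 = -1 + t * (1 - -1) ∧ p.2 = 19 + t * (1 - 19)) ↔ _
      constructor
      · rintro ⟨t, -, -, h3, h4⟩; linarith
      · intro h; exact ⟨(1 + p.1) / 2, by linarith, by linarith, by ring, by linarith⟩
    · intro p h1 h2
      rw [mem_seg, A2]
      show (∃ t, 0 ≤ t ∧ t ≤ 1 ∧ p.1 = -1 + t * (1 - -1) ∧ p.2 = 19 + t * (21 - 19)) ↔ _
      constructor
      · rintro ⟨t, -, -, h3, h4⟩; linarith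
      · intro h; exact ⟨(1 + p.1) / 2, by linarith, by linarith, by ring, by linarith⟩

/-! the partition from `A 0 = (0, 30)` -/

def V : Fin 3 → Set (ℝ × ℝ) :=
  ![{p | p.2 ∈ Ioo (0 : ℝ) 30 ∧ p.1 ∈ Ioo ((fun x : ℝ => 2 / 3 + (-(1 / 45)) * x) p.2)
      ((fun _ => (1 : ℝ)) p.2)},
    {p | p.2 ∈ Ioo (0 : ℝ) 30 ∧ p.1 ∈ Ioo ((fun _ => (-1 : ℝ)) p.2)
      ((fun x : ℝ => -(2 / 3) + (1 / 45) * x) p.2)},
    {p | p.2 ∈ Ioo (0 : ℝ) 30 ∧ p.1 ∈ Ioo ((fun x : ℝ => -(2 / 3) + (1 / 45) * x) p.2)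
      ((fun x : ℝ => 2 / 3 + (-(1 / 45)) * x) p.2)}]

lemma mem_V0 {p : ℝ × ℝ} : p ∈ V 0 ↔
    (0 < p.2 ∧ p.2 < 30) ∧ (2 / 3 + (-(1 / 45)) * p.2 < p.1 ∧ p.1 < 1) := Iff.rfl
lemma mem_V1 {p : ℝ × ℝ} : p ∈ V 1 ↔
    (0 < p.2 ∧ p.2 < 30) ∧ (-1 < p.1 ∧ p.1 < -(2 / 3) + (1 / 45) * p.2) := Iff.rfl
lemma mem_V2 {p : ℝ × ℝ} : p ∈ V 2 ↔ (0 < p.2 ∧ p.2 < 30) ∧
    (-(2 / 3) + (1 / 45) * p.2 < p.1 ∧ p.1 < 2 / 3 + (-(1 / 45)) * p.2) := Iff.rfl

lemma V0_eq : V 0 = H 0 0 1 ∩ H 30 0 (-1) ∩ (H (-(2 / 3)) 1 (1 / 45) ∩ H 1 (-1) 0) := by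
  ext p
  rw [mem_V0]
  simp only [H, mem_inter_iff, mem_setOf_eq]
  constructor
  · rintro ⟨⟨h1, h2⟩, h3, h4⟩; exact ⟨⟨by linarith, by linarith⟩, by linarith, by linarith⟩
  · rintro ⟨⟨h1, h2⟩, h3, h4⟩; exact ⟨⟨by linarith, by linarith⟩, by linarith, by linarith⟩

lemma V1_eq : V 1 = H 0 0 1 ∩ H 30 0 (-1) ∩ (H 1 1 0 ∩ H (-(2 / 3)) (-1) (1 / 45)) := by
  ext p
  rw [mem_V1]
  simp only [H, mem_inter_iff, mem_setOf_eq]
  constructor
  · rintro ⟨⟨h1, h2⟩, h3, h4⟩; exact ⟨⟨by linarith, by linarith⟩, by linarith, by linarith⟩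
  · rintro ⟨⟨h1, h2⟩, h3, h4⟩; exact ⟨⟨by linarith, by linarith⟩, by linarith, by linarith⟩

lemma V2_eq : V 2 = H 0 0 1 ∩ H 30 0 (-1) ∩ (H (2 / 3) 1 (-(1 / 45)) ∩
    H (2 / 3) (-1) (-(1 / 45))) := by
  ext p
  rw [mem_V2]
  simp only [H, mem_inter_iff, mem_setOf_eq]
  constructor
  · rintro ⟨⟨h1, h2⟩, h3, h4⟩; exact ⟨⟨by linarith, by linarith⟩, by linarith, by linarith⟩
  · rintro ⟨⟨h1, h2⟩, h3, h4⟩; exact ⟨⟨by linarith, by linarith⟩, by linarith, by linarith⟩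

theorem two0 : TwoRay C (A 0) ![(2 / 3, 0), (-(2 / 3), 0)] := by
  refine ⟨(threeRay.2.1 0), ?_, V, ?_, ?_, ?_⟩
  · intro j
    rw [mem_front, mem_int]
    fin_cases j
    · show ((2 / 3 : ℝ), (0 : ℝ)) ∈ C ∧ ¬ _
      refine ⟨⟨⟨by norm_num, by norm_num⟩, ⟨by norm_num, by norm_num⟩⟩, ?_⟩
      rintro ⟨-, h, -⟩
      exact absurd h (lt_irrefl _)
    · show ((-(2 / 3) : ℝ), (0 : ℝ)) ∈ C ∧ ¬ _
      refine ⟨⟨⟨by norm_num, by norm_num⟩, ⟨by norm_num, by norm_num⟩⟩, ?_⟩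
      rintro ⟨-, h, -⟩
      exact absurd h (lt_irrefl _)
  · intro i
    rw [C_third]
    fin_cases i
    · show IsOpen (V 0) ∧ IsConnected (V 0) ∧ volume (V 0) = 20
      have hne : (V 0).Nonempty := ⟨(9 / 10, 15), by rw [mem_V0]; norm_num⟩
      refine ⟨?_, ?_, ?_⟩
      · rw [V0_eq]; exact quad_open _ _ _ _ _ _ _ _ _ _ _ _
      · rw [V0_eq] at hne ⊢; exact quad_conn hne
      · have h := area2 (fun x => 2 / 3 + (-(1 / 45)) * x) (fun _ => (1 : ℝ)) (by fun_prop)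
          continuous_const (by norm_num : (0 : ℝ) ≤ 30) (fun y hy => by
            have := hy.1
            show 2 / 3 + (-(1 / 45)) * y ≤ 1
            linarith)
        refine Eq.trans h ?_
        have : ∀ y : ℝ, 1 - (2 / 3 + (-(1 / 45)) * y) = 1 / 3 + (1 / 45) * y := by intro y; ring
        simp only [this]
        rw [int_aff]; norm_num
    · show IsOpen (V 1) ∧ IsConnected (V 1) ∧ volume (V 1) = 20
      have hne : (V 1).Nonempty := ⟨(-(9 / 10), 15), by rw [mem_V1]; norm_num⟩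
      refine ⟨?_, ?_, ?_⟩
      · rw [V1_eq]; exact quad_open _ _ _ _ _ _ _ _ _ _ _ _
      · rw [V1_eq] at hne ⊢; exact quad_conn hne
      · have h := area2 (fun _ => (-1 : ℝ)) (fun x => -(2 / 3) + (1 / 45) * x) continuous_const
          (by fun_prop) (by norm_num : (0 : ℝ) ≤ 30) (fun y hy => by
            have := hy.1
            show -1 ≤ -(2 / 3) + (1 / 45) * y
            linarith)
        refine Eq.trans h ?_
        have : ∀ y : ℝ, (-(2 / 3) + (1 / 45) * y) - (-1) = 1 / 3 + (1 / 45) * y := by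
          intro y; ring
        simp only [this]
        rw [int_aff]; norm_num
    · show IsOpen (V 2) ∧ IsConnected (V 2) ∧ volume (V 2) = 20
      have hne : (V 2).Nonempty := ⟨(0, 15), by rw [mem_V2]; norm_num⟩
      refine ⟨?_, ?_, ?_⟩
      · rw [V2_eq]; exact quad_open _ _ _ _ _ _ _ _ _ _ _ _
      · rw [V2_eq] at hne ⊢; exact quad_conn hne
      · have h := area2 (fun x => -(2 / 3) + (1 / 45) * x) (fun x => 2 / 3 + (-(1 / 45)) * x)
          (by fun_prop) (by fun_prop) (by norm_num : (0 : ℝ) ≤ 30) (fun y hy => by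
            have := hy.2
            show -(2 / 3) + (1 / 45) * y ≤ 2 / 3 + (-(1 / 45)) * y
            linarith)
        refine Eq.trans h ?_
        have : ∀ y : ℝ, (2 / 3 + (-(1 / 45)) * y) - (-(2 / 3) + (1 / 45) * y) =
            4 / 3 + (-(2 / 45)) * y := by intro y; ring
        simp only [this]
        rw [int_aff]; norm_num
  · apply pair3
    · rw [Set.disjoint_left]
      intro p h1 h2
      rw [mem_V0] at h1
      rw [mem_V1] at h2
      linarith [h1.1.2, h1.2.1, h2.2.2]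
    · rw [Set.disjoint_left]
      intro p h1 h2
      rw [mem_V0] at h1
      rw [mem_V2] at h2
      linarith [h1.2.1, h2.2.2]
    · rw [Set.disjoint_left]
      intro p h1 h2
      rw [mem_V1] at h1
      rw [mem_V2] at h2
      linarith [h1.2.2, h2.2.1]
  · rw [iU3, iU2]
    ext p
    simp only [mem_diff, mem_union, mem_V0, mem_V1, mem_V2, mem_seg, A0, Matrix.cons_val_zero,
      Matrix.cons_val_one]
    rw [mem_int]
    constructor
    · rintro ⟨⟨⟨h1, h2⟩, h3, h4⟩, h5⟩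
      push Not at h5
      obtain ⟨h6, h7⟩ := h5
      have hne1 : p.1 ≠ 2 / 3 + (-(1 / 45)) * p.2 := by
        intro he
        exact h6 ((30 - p.2) / 30) (by linarith) (by linarith) (by rw [he]; ring) (by ring)
      have hne2 : p.1 ≠ -(2 / 3) + (1 / 45) * p.2 := by
        intro he
        exact h7 ((30 - p.2) / 30) (by linarith) (by linarith) (by rw [he]; ring) (by ring)
      rcases lt_or_gt_of_ne hne1 with h | h
      · rcases lt_or_gt_of_ne hne2 with h' | h'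
        · right; left; exact ⟨⟨h3, h4⟩, h1, h'⟩
        · right; right; exact ⟨⟨h3, h4⟩, h', h⟩
      · left; exact ⟨⟨h3, h4⟩, h, h2⟩
    · rintro (⟨⟨h1, h2⟩, h3, h4⟩ | ⟨⟨h1, h2⟩, h3, h4⟩ | ⟨⟨h1, h2⟩, h3, h4⟩)
      · refine ⟨⟨⟨by linarith, h4⟩, h1, h2⟩, ?_⟩
        push Not
        refine ⟨fun t h5 h6 h7 h8 => by linarith, fun t h5 h6 h7 h8 => by linarith⟩
      · refine ⟨⟨⟨h3, by linarith⟩, h1, h2⟩, ?_⟩
        push Not
        refine ⟨fun t h5 h6 h7 h8 => by linarith, fun t h5 h6 h7 h8 => by linarith⟩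
      · refine ⟨⟨⟨by linarith, by linarith⟩, h1, h2⟩, ?_⟩
        push Not
        refine ⟨fun t h5 h6 h7 h8 => by linarith, fun t h5 h6 h7 h8 => by linarith⟩

/-! ### comparison of the lengths -/

lemma sum_three : 65 ≤ ∑ k, len P (A k) := by
  rw [Fin.sum_univ_three, A0, A1, A2]
  have h0 : 29 ≤ len P (0, 30) := by
    unfold len P
    apply Real.le_sqrt_of_sq_le
    norm_num
  have h1 : 18 ≤ len P (1, 19) := by
    unfold len P
    apply Real.le_sqrt_of_sq_le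
    norm_num
  have h2 : 18 ≤ len P (-1, 19) := by
    unfold len P
    apply Real.le_sqrt_of_sq_le
    norm_num
  linarith

lemma len_le (i : Fin 3) (B : ℝ × ℝ) (hB : B ∈ C) : len (A i) B ≤ 31 := by
  obtain ⟨⟨h1, h2⟩, h3, h4⟩ := hB
  unfold len
  apply Real.sqrt_le_iff.2
  refine ⟨by norm_num, ?_⟩
  fin_cases i
  · show ((0 : ℝ) - B.1) ^ 2 + ((30 : ℝ) - B.2) ^ 2 ≤ 31 ^ 2
    nlinarith
  · show ((1 : ℝ) - B.1) ^ 2 + ((19 : ℝ) - B.2) ^ 2 ≤ 31 ^ 2
    nlinarith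
  · show ((-1 : ℝ) - B.1) ^ 2 + ((19 : ℝ) - B.2) ^ 2 ≤ 31 ^ 2
    nlinarith

theorem main : ∃ (C : Set (ℝ × ℝ)) (P : ℝ × ℝ) (A : Fin 3 → ℝ × ℝ),
    ConvexRegion C ∧ ThreeRay C P A ∧ ∀ i, (∃ B, TwoRay C (A i) B) ∧
      ∀ B, TwoRay C (A i) B → ∑ j, len (A i) (B j) < ∑ k, len P (A k) := by
  refine ⟨C, P, A, C_region, threeRay, fun i => ⟨?_, fun B hB => ?_⟩⟩
  · fin_cases i
    · exact ⟨_, two0⟩
    · exact ⟨_, two1⟩
    · exact ⟨_, two2⟩
  · have h1 := len_le i (B 0) (C_compact.isClosed.frontier_subset (hB.2.1 0))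
    have h2 := len_le i (B 1) (C_compact.isClosed.frontier_subset (hB.2.1 1))
    have h3 := sum_three
    rw [Fin.sum_univ_two]
    linarith

end Pool.Agent.V11167.Ray
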