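import Mathlib

open Complex Set

namespace Pool.Agent.V11167.Bod

/-- `⟨x, u_θ⟩`, with `u_θ = (cos θ, sin θ)`; the plane is `ℂ`. -/
noncomputable def ip (x : ℂ) (θ : Real.Angle) : ℝ := x.re * θ.cos + x.im * θ.sin

/-- the support function of a set -/
noncomputable def supp (A : Set ℂ) (θ : Real.Angle) : ℝ := sSup ((fun x => ip x θ) '' A)

/-- a body: a nonempty compact convex subset of the plane -/
def IsBody (A : Set ℂ) : Prop := A.Nonempty ∧ IsCompact A ∧ Convex ℝ A

/-- the (outer normal) directions `θ` of the common supporting tangents of `A` and `B`; the tangent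
with direction `θ` is the line `{x | ip x θ = supp A θ} = {x | ip x θ = supp B θ}` -/
def tangents (A B : Set ℂ) : Set Real.Angle := {θ | supp A θ = supp B θ}

/-- arrangement of bodies: no common point of two bodies lies on a common supporting tangent of
them, no three bodies share a common supporting tangent, and there are finitely many common
supporting tangents -/
structure IsArrangement {ι : Type} (A : ι → Set ℂ) : Prop where
  body : ∀ i, IsBody (A i)
  transversal : ∀ i j, i ≠ j → ∀ θ ∈ tangents (A i) (A j), ∀ x ∈ A i ∩ A j, ip x θ ≠ supp (A i) θ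
  no_three : ∀ i j k, i ≠ j → j ≠ k → i ≠ k → ∀ θ,
    ¬ (θ ∈ tangents (A i) (A j) ∧ θ ∈ tangents (A j) (A k))
  finite : ∀ i j, i ≠ j → (tangents (A i) (A j)).Finite

/-- the cylinder `S¹ × ℝ` -/
abbrev Cyl : Type := Real.Angle × ℝ

/-- the support curve -/
def curve (A : Set ℂ) : Set Cyl := {p | p.2 = supp A p.1}

/-- the homeomorphism lifts to the universal cover with `f (x + 2π, y) = f (x, y) + 2π`, i.e. it acts
as the identity on the fundamental group of the cylinder; for a homeomorphism which
preserves `+∞` this means that it preserves the orientation -/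
def OrientationPreserving (φ : Cyl ≃ₜ Cyl) : Prop :=
  ∃ f : ℝ × ℝ → ℝ, Continuous f ∧ (∀ x y : ℝ, ((f (x, y) : ℝ) : Real.Angle) = (φ ((x : Real.Angle), y)).1) ∧
    ∀ x y : ℝ, f (x + 2 * Real.pi, y) = f (x, y) + 2 * Real.pi

/-- the homeomorphism preserves `+∞`: the second coordinate of `φ (θ, y)` is positive for all `θ`
once `y` is large -/
def PreservesTop (φ : Cyl ≃ₜ Cyl) : Prop :=
  ∃ Y : ℝ, ∀ θ y, Y < y → 0 < (φ (θ, y)).2

/-- same combinatorial type -/
def SameType {ι : Type} (A B : ι → Set ℂ) : Prop :=
  ∃ φ : Cyl ≃ₜ Cyl, OrientationPreserving φ ∧ PreservesTop φ ∧ ∀ i, φ '' curve (A i) = curve (B i)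

/-- every two bodies have at most `t` common supporting tangents -/
def AtMost {ι : Type} (t : ℕ) (A : ι → Set ℂ) : Prop :=
  ∀ i j, i ≠ j → (tangents (A i) (A j)).Finite ∧ (tangents (A i) (A j)).ncard ≤ t

/-- the combinatorial types of arrangements with at most `t` common supporting tangents per pair are
determined by the sub-arrangements with `m` members -/
def Determined (t m : ℕ) : Prop :=
  ∀ (N : ℕ) (A B : Fin N → Set ℂ), 0 < N → IsArrangement A → IsArrangement B → AtMost t A →
    AtMost t B → (∀ S : Finset (Fin N), S.card = min m N →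
      SameType (fun i : S => A i) (fun i : S => B i)) → SameType A B

end Pool.Agent.V11167.Bod
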