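import Mathlib
import Pool.Agent.V11167.BodDefs

open Complex Set

namespace Pool.Agent.V11167.Bod

theorem ip_add (x y : ℂ) (θ : Real.Angle) : ip (x + y) θ = ip x θ + ip y θ := by
  simp [ip]; ring

theorem ip_smul (a : ℝ) (x : ℂ) (θ : Real.Angle) : ip ((a : ℂ) * x) θ = a * ip x θ := by
  simp [ip]; ring

theorem ip_le_norm (z : ℂ) (θ : Real.Angle) : ip z θ ≤ ‖z‖ := by
  rw [Complex.norm_def, Complex.normSq_apply]
  apply Real.le_sqrt_of_sq_le
  have hcs := θ.cos_sq_add_sin_sq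
  have : (z.re * z.re + z.im * z.im) - (ip z θ)^2 = (z.re * θ.sin - z.im * θ.cos)^2 := by
    unfold ip
    linear_combination (-z.re^2 - z.im^2) * hcs
  nlinarith [sq_nonneg (z.re * θ.sin - z.im * θ.cos)]

/-- the unit vector -/
noncomputable def uv (θ : Real.Angle) : ℂ := ⟨θ.cos, θ.sin⟩

theorem norm_uv (θ : Real.Angle) : ‖uv θ‖ = 1 := by
  rw [Complex.norm_def, Complex.normSq_apply]
  have hcs := θ.cos_sq_add_sin_sq
  simp only [uv]
  rw [show θ.cos * θ.cos + θ.sin * θ.sin = 1 by nlinarith]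
  exact Real.sqrt_one

theorem ip_uv (θ : Real.Angle) : ip (uv θ) θ = 1 := by
  have hcs := θ.cos_sq_add_sin_sq
  simp only [ip, uv]
  nlinarith

/-- equality case -/
theorem eq_of_ip_eq {p : ℂ} {r : ℝ} {θ : Real.Angle} (h : ‖p‖ ≤ r) (h2 : ip p θ = r) :
    p.re = r * θ.cos ∧ p.im = r * θ.sin := by
  have hcs := θ.cos_sq_add_sin_sq
  have hr : 0 ≤ r := (norm_nonneg p).trans h
  have h3 : p.re ^ 2 + p.im ^ 2 ≤ r ^ 2 := by
    have h4 : ‖p‖ ^ 2 ≤ r ^ 2 := by nlinarith [norm_nonneg p]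
    rw [Complex.sq_norm, Complex.normSq_apply] at h4
    nlinarith
  have h5 : (p.re - r * θ.cos) ^ 2 + (p.im - r * θ.sin) ^ 2 ≤ 0 := by
    have : (p.re - r * θ.cos) ^ 2 + (p.im - r * θ.sin) ^ 2 =
      (p.re ^ 2 + p.im ^ 2) - 2 * r * ip p θ + r ^ 2 * (θ.cos ^ 2 + θ.sin ^ 2) := by
      unfold ip; ring
    rw [this, h2, hcs]; nlinarith
  have h6 : (p.re - r * θ.cos) ^ 2 = 0 := by nlinarith [sq_nonneg (p.re - r * θ.cos), sq_nonneg (p.im - r * θ.sin)]
  have h7 : (p.im - r * θ.sin) ^ 2 = 0 := by nlinarith [sq_nonneg (p.re - r * θ.cos), sq_nonneg (p.im - r * θ.sin)]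
  exact ⟨by linarith [pow_eq_zero_iff (two_ne_zero) |>.mp h6],
    by linarith [pow_eq_zero_iff (two_ne_zero) |>.mp h7]⟩

/-- disc of radius `r` plus the segment from `c - v` to `c + v` -/
def K (r : ℝ) (c v : ℂ) : Set ℂ :=
  {z | ∃ p : ℂ, ∃ t : ℝ, ‖p‖ ≤ r ∧ |t| ≤ 1 ∧ z = p + c + (t : ℂ) * v}

theorem supp_K {r : ℝ} (hr : 0 ≤ r) (c v : ℂ) (θ : Real.Angle) :
    supp (K r c v) θ = r + ip c θ + |ip v θ| := by
  apply IsGreatest.csSup_eq
  constructor
  · rcases le_total 0 (ip v θ) with h | h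
    · refine ⟨(r : ℂ) * uv θ + c + ((1:ℝ) : ℂ) * v, ⟨(r : ℂ) * uv θ, 1, ?_, by simp, rfl⟩, ?_⟩
      · rw [norm_mul, norm_uv, Complex.norm_real, Real.norm_eq_abs, abs_of_nonneg hr, mul_one]
      · simp only [ip_add, ip_smul, ip_uv, abs_of_nonneg h]; ring
    · refine ⟨(r : ℂ) * uv θ + c + ((-1:ℝ) : ℂ) * v, ⟨(r : ℂ) * uv θ, -1, ?_, by simp, rfl⟩, ?_⟩
      · rw [norm_mul, norm_uv, Complex.norm_real, Real.norm_eq_abs, abs_of_nonneg hr, mul_one]
      · simp only [ip_add, ip_smul, ip_uv, abs_of_nonpos h]; ring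
  · rintro _ ⟨z, ⟨p, t, hp, ht, rfl⟩, rfl⟩
    simp only [ip_add, ip_smul]
    have h1 := ip_le_norm p θ
    have h2 : t * ip v θ ≤ |ip v θ| := by
      calc t * ip v θ ≤ |t * ip v θ| := le_abs_self _
        _ = |t| * |ip v θ| := abs_mul _ _
        _ ≤ 1 * |ip v θ| := mul_le_mul_of_nonneg_right ht (abs_nonneg _)
        _ = _ := one_mul _
    linarith

/-- the points of `K` on the supporting line -/
theorem mem_face {r : ℝ} {c v z : ℂ} {θ : Real.Angle} (hz : z ∈ K r c v)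
    (h : ip z θ = r + ip c θ + |ip v θ|) :
    ∃ t : ℝ, z.re = r * θ.cos + c.re + t * v.re ∧ z.im = r * θ.sin + c.im + t * v.im ∧
      t * ip v θ = |ip v θ| ∧ |t| ≤ 1 := by
  obtain ⟨p, t, hp, ht, rfl⟩ := hz
  simp only [ip_add, ip_smul] at h
  have h1 := ip_le_norm p θ
  have h2 : t * ip v θ ≤ |ip v θ| := by
    calc t * ip v θ ≤ |t * ip v θ| := le_abs_self _
      _ = |t| * |ip v θ| := abs_mul _ _
      _ ≤ 1 * |ip v θ| := mul_le_mul_of_nonneg_right ht (abs_nonneg _)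
      _ = _ := one_mul _
  have h3 : ip p θ = r := by linarith
  have h4 : t * ip v θ = |ip v θ| := by linarith
  obtain ⟨h5, h6⟩ := eq_of_ip_eq hp h3
  refine ⟨t, ?_, ?_, h4, ht⟩
  · simp [h5]
  · simp [h6]

theorem body_K {r : ℝ} (hr : 0 ≤ r) (c v : ℂ) : IsBody (K r c v) := by
  refine ⟨⟨c, 0, 0, by simpa using hr, by simp, by simp⟩, ?_, ?_⟩
  · have : K r c v = (fun q : ℂ × ℝ => q.1 + c + (q.2 : ℂ) * v) ''
      (Metric.closedBall (0:ℂ) r ×ˢ Set.Icc (-1:ℝ) 1) := by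
      ext z
      constructor
      · rintro ⟨p, t, hp, ht, rfl⟩
        exact ⟨(p, t), ⟨by simpa using hp, abs_le.mp ht⟩, rfl⟩
      · rintro ⟨⟨p, t⟩, ⟨hp, ht⟩, rfl⟩
        exact ⟨p, t, by simpa using hp, abs_le.mpr ht, rfl⟩
    rw [this]
    exact ((isCompact_closedBall _ _).prod isCompact_Icc).image (by fun_prop)
  · rintro _ ⟨p, t, hp, ht, rfl⟩ _ ⟨p', t', hp', ht', rfl⟩ a b ha hb hab
    refine ⟨(a : ℂ) * p + (b : ℂ) * p', a * t + b * t', ?_, ?_, ?_⟩
    · calc ‖(a : ℂ) * p + (b : ℂ) * p'‖ ≤ ‖(a : ℂ) * p‖ + ‖(b : ℂ) * p'‖ := norm_add_le _ _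
        _ = a * ‖p‖ + b * ‖p'‖ := by
          rw [norm_mul, norm_mul, Complex.norm_real, Complex.norm_real, Real.norm_eq_abs,
            Real.norm_eq_abs, abs_of_nonneg ha, abs_of_nonneg hb]
        _ ≤ a * r + b * r := add_le_add (mul_le_mul_of_nonneg_left hp ha)
            (mul_le_mul_of_nonneg_left hp' hb)
        _ = r := by rw [← add_mul, hab, one_mul]
    · rw [abs_le] at ht ht' ⊢
      constructor <;> nlinarith
    · have : (a : ℂ) + b = 1 := by exact_mod_cast hab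
      simp only [Complex.real_smul]
      push_cast
      linear_combination (c) * this

/-- the family: bottom decoration, chain of `2M` stadiums, top decoration -/
noncomputable def fam (M : ℕ) (s : ℝ) (j : ℕ) : Set ℂ :=
  if j = 0 then K (1/2) 1 0
  else if j = 2 * M + 1 then K (2 * M + 9/4) (-(s : ℂ)) 0
  else if j % 2 = 1 then K j 0 ((3/2 : ℝ) * I)
  else K j 0 (3/2 : ℝ)

/-- `|sin θ|` for odd `j`, `|cos θ|` for even `j` -/
noncomputable def ff (j : ℕ) (θ : Real.Angle) : ℝ := if j % 2 = 1 then |θ.sin| else |θ.cos|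

/-- the support functions -/
noncomputable def H (M : ℕ) (s : ℝ) (j : ℕ) (θ : Real.Angle) : ℝ :=
  if j = 0 then 1/2 + θ.cos
  else if j = 2 * M + 1 then 2 * M + 9/4 - s * θ.cos
  else j + 3/2 * ff j θ

theorem supp_fam (M : ℕ) (s : ℝ) (j : ℕ) (θ : Real.Angle) : supp (fam M s j) θ = H M s j θ := by
  unfold fam H
  split_ifs with h1 h2 h3
  · rw [supp_K (by norm_num)]
    simp [ip]
  · rw [supp_K (by positivity)]
    simp [ip]; ring
  · rw [supp_K (by positivity)]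
    simp only [ff, h3, if_true]
    simp [ip, abs_mul]
    left; norm_num
  · rw [supp_K (by positivity)]
    simp only [ff, h3, if_false]
    simp [ip, abs_mul]
    left; norm_num

theorem body_fam (M : ℕ) (s : ℝ) (j : ℕ) : IsBody (fam M s j) := by
  unfold fam
  split_ifs with h1 h2 h3
  · exact body_K (by norm_num) _ _
  · exact body_K (by positivity) _ _
  · exact body_K (by positivity) _ _
  · exact body_K (by positivity) _ _

end Pool.Agent.V11167.Bod
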