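import Mathlib
import Pool.Agent.V11167.BodA

open Complex Set

namespace Pool.Agent.V11167.Bod

theorem ff_nonneg (j : ℕ) (θ : Real.Angle) : 0 ≤ ff j θ := by
  unfold ff; split_ifs <;> positivity

theorem abs_cos_le (θ : Real.Angle) : |θ.cos| ≤ 1 := by
  rw [abs_le_one_iff_mul_self_le_one]
  nlinarith [θ.cos_sq_add_sin_sq, sq_nonneg θ.sin]

theorem abs_sin_le (θ : Real.Angle) : |θ.sin| ≤ 1 := by
  rw [abs_le_one_iff_mul_self_le_one]
  nlinarith [θ.cos_sq_add_sin_sq, sq_nonneg θ.cos]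

theorem ff_le (j : ℕ) (θ : Real.Angle) : ff j θ ≤ 1 := by
  unfold ff; split_ifs
  · exact abs_sin_le θ
  · exact abs_cos_le θ

theorem s_cos_le {s : ℝ} (hs : |s| = 1) (θ : Real.Angle) : |s * θ.cos| ≤ 1 := by
  rw [abs_mul, hs, one_mul]; exact abs_cos_le θ

theorem H_zero (M : ℕ) (s : ℝ) (θ : Real.Angle) : H M s 0 θ = 1/2 + θ.cos := by simp [H]

theorem H_top (M : ℕ) (s : ℝ) (θ : Real.Angle) : H M s (2*M+1) θ = 2 * M + 9/4 - s * θ.cos := by
  simp [H]

theorem H_mid {M : ℕ} (s : ℝ) {j : ℕ} (h1 : 1 ≤ j) (h2 : j ≤ 2 * M) (θ : Real.Angle) :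
    H M s j θ = j + 3/2 * ff j θ := by
  unfold H
  rw [if_neg (by omega), if_neg (by omega)]

theorem gap {M : ℕ} (hM : 1 ≤ M) {s : ℝ} (hs : |s| = 1) {i j : ℕ} (hij : i + 2 ≤ j)
    (hj : j ≤ 2 * M + 1) (θ : Real.Angle) : H M s i θ < H M s j θ := by
  have hc := abs_le.mp (abs_cos_le θ)
  have hsc := abs_le.mp (s_cos_le hs θ)
  have hM' : (1:ℝ) ≤ M := by exact_mod_cast hM
  rcases Nat.eq_zero_or_pos i with h0 | h0
  · subst h0
    rw [H_zero]
    by_cases hj1 : j = 2 * M + 1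
    · rw [hj1, H_top]; linarith [hc.2, hsc.2]
    · rw [H_mid s (by omega) (by omega)]
      have h2 : (2:ℝ) ≤ j := by exact_mod_cast (by omega : 2 ≤ j)
      have := ff_nonneg j θ
      linarith [hc.2]
  · rw [H_mid s h0 (by omega) θ]
    have hf := ff_le i θ
    by_cases hj1 : j = 2 * M + 1
    · rw [hj1, H_top]
      have h2 : (i:ℝ) + 1 ≤ 2 * M := by exact_mod_cast (by omega : i + 1 ≤ 2 * M)
      linarith [hsc.2]
    · rw [H_mid s (by omega) (by omega)]
      have h2 : (i:ℝ) + 2 ≤ j := by exact_mod_cast hij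
      have := ff_nonneg j θ
      linarith

theorem fin4 {T : Set Real.Angle} (h : ∀ θ ∈ T, ∀ θ' ∈ T, |θ.cos| = |θ'.cos| ∧ |θ.sin| = |θ'.sin|) :
    T.Finite ∧ T.ncard ≤ 4 := by
  rcases T.eq_empty_or_nonempty with h0 | ⟨θ₀, h0⟩
  · rw [h0]; simp
  · set F : Finset (ℝ × ℝ) := ({|θ₀.cos|, -|θ₀.cos|} : Finset ℝ) ×ˢ ({|θ₀.sin|, -|θ₀.sin|} : Finset ℝ)
      with hF
    have hmap : ∀ θ ∈ T, (fun θ : Real.Angle => (θ.cos, θ.sin)) θ ∈ (F : Set (ℝ × ℝ)) := by
      intro θ hθ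
      obtain ⟨h1, h2⟩ := h θ hθ θ₀ h0
      simp only [hF, Finset.coe_product, Set.mem_prod, Finset.coe_insert, Finset.coe_singleton,
        Set.mem_insert_iff, Set.mem_singleton_iff]
      constructor
      · rcases abs_choice θ.cos with h3 | h3
        · left; rw [← h1, h3]
        · right; rw [← h1, h3]; ring
      · rcases abs_choice θ.sin with h3 | h3
        · left; rw [← h2, h3]
        · right; rw [← h2, h3]; ring
    have hinj : Set.InjOn (fun θ : Real.Angle => (θ.cos, θ.sin)) T := by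
      intro a _ b _ hab
      simp only [Prod.mk.injEq] at hab
      induction a using Real.Angle.induction_on with
      | _ a =>
      induction b using Real.Angle.induction_on with
      | _ b =>
      apply Real.Angle.cos_sin_inj
      · simpa using hab.1
      · simpa using hab.2
    have hfin : T.Finite := Set.Finite.of_injOn hmap hinj (Finset.finite_toSet F)
    refine ⟨hfin, ?_⟩
    calc T.ncard ≤ (F : Set (ℝ × ℝ)).ncard :=
          Set.ncard_le_ncard_of_injOn _ hmap hinj (Finset.finite_toSet F)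
      _ = F.card := Set.ncard_coe_finset F
      _ ≤ 2 * 2 := by
          rw [hF, Finset.card_product]
          exact Nat.mul_le_mul Finset.card_le_two Finset.card_le_two
      _ = 4 := by norm_num

theorem tan_zero {M : ℕ} (hM : 1 ≤ M) (s : ℝ) {θ θ' : Real.Angle}
    (h : H M s 0 θ = H M s 1 θ) (h' : H M s 0 θ' = H M s 1 θ') :
    |θ.cos| = |θ'.cos| ∧ |θ.sin| = |θ'.sin| := by
  rw [H_zero, H_mid s le_rfl (by omega)] at h h'
  simp only [ff, if_true, Nat.one_mod] at h h'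
  push_cast at h h'
  have e1 := θ.cos_sq_add_sin_sq
  have e2 := θ'.cos_sq_add_sin_sq
  rw [← sq_abs θ.sin] at e1
  rw [← sq_abs θ'.sin] at e2
  have n1 := abs_nonneg θ.sin
  have n2 := abs_nonneg θ'.sin
  have key : (|θ.sin| - |θ'.sin|) * (3/2 * (θ.cos + θ'.cos) + (|θ.sin| + |θ'.sin|)) = 0 := by
    have a1 : θ.cos = 1/2 + 3/2 * |θ.sin| := by linarith
    have a2 : θ'.cos = 1/2 + 3/2 * |θ'.sin| := by linarith
    rw [a1] at e1 ⊢
    rw [a2] at e2 ⊢
    linarith [e1, e2]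
  have hpos : 0 < 3/2 * (θ.cos + θ'.cos) + (|θ.sin| + |θ'.sin|) := by linarith
  have h3 : |θ.sin| = |θ'.sin| := by
    rcases mul_eq_zero.mp key with h | h
    · linarith
    · linarith
  refine ⟨?_, h3⟩
  rw [h3] at h
  have : θ.cos = θ'.cos := by linarith
  rw [this]

theorem tan_mid {M : ℕ} (s : ℝ) {j : ℕ} (hj : 1 ≤ j) (hj' : j + 1 ≤ 2 * M) {θ θ' : Real.Angle}
    (h : H M s j θ = H M s (j+1) θ) (h' : H M s j θ' = H M s (j+1) θ') :
    |θ.cos| = |θ'.cos| ∧ |θ.sin| = |θ'.sin| := by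
  rw [H_mid s hj (by omega), H_mid s (by omega) hj'] at h h'
  have e1 := θ.cos_sq_add_sin_sq
  have e2 := θ'.cos_sq_add_sin_sq
  rw [← sq_abs θ.sin, ← sq_abs θ.cos] at e1
  rw [← sq_abs θ'.sin, ← sq_abs θ'.cos] at e2
  have n1 := abs_nonneg θ.sin
  have n2 := abs_nonneg θ'.sin
  have n3 := abs_nonneg θ.cos
  have n4 := abs_nonneg θ'.cos
  push_cast at h h'
  have hdiff : |θ.cos| - |θ'.cos| = |θ.sin| - |θ'.sin| := by
    rcases Nat.mod_two_eq_zero_or_one j with hp | hp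
    · have hp1 : (j+1) % 2 = 1 := by omega
      simp only [ff, hp, hp1, if_true] at h h'
      rw [if_neg (by norm_num)] at h h'
      linarith
    · have hp1 : (j+1) % 2 = 0 := by omega
      simp only [ff, hp, hp1, if_true] at h h'
      rw [if_neg (by norm_num)] at h h'
      linarith
  have key : (|θ.cos| - |θ'.cos|) * ((|θ.cos| + |θ'.cos|) + (|θ.sin| + |θ'.sin|)) = 0 := by
    have : |θ.cos| = |θ'.cos| + (|θ.sin| - |θ'.sin|) := by linarith
    have e3 : (|θ.cos| - |θ'.cos|) * (|θ.cos| + |θ'.cos|) + (|θ.sin| - |θ'.sin|) *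
      (|θ.sin| + |θ'.sin|) = 0 := by nlinarith
    rw [← hdiff] at e3
    linarith
  have hpos : 0 < (|θ.cos| + |θ'.cos|) + (|θ.sin| + |θ'.sin|) := by
    by_contra hcon
    have : |θ.cos| = 0 := by linarith
    have h5 : |θ.sin| = 0 := by linarith
    rw [this, h5] at e1
    norm_num at e1
  have h3 : |θ.cos| = |θ'.cos| := by
    rcases mul_eq_zero.mp key with h | h
    · linarith
    · linarith
  exact ⟨h3, by linarith⟩

theorem tan_top {M : ℕ} (hM : 1 ≤ M) {s : ℝ} (hs : |s| = 1) {θ : Real.Angle}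
    (h : H M s (2*M) θ = H M s (2*M+1) θ) : s * θ.cos = 9/10 ∧ |θ.cos| = 9/10 := by
  rw [H_mid s (by omega) le_rfl, H_top] at h
  have hp : (2 * M) % 2 = 0 := by omega
  simp only [ff, hp] at h
  rw [if_neg (by norm_num)] at h
  push_cast at h
  have h1 : |s * θ.cos| = |θ.cos| := by rw [abs_mul, hs, one_mul]
  have h2 := abs_cos_le θ
  rcases abs_choice (s * θ.cos) with h3 | h3
  · rw [h3] at h1
    constructor <;> linarith
  · rw [h3] at h1
    exfalso; linarith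

theorem tan_top' {M : ℕ} (hM : 1 ≤ M) {s : ℝ} (hs : |s| = 1) {θ θ' : Real.Angle}
    (h : H M s (2*M) θ = H M s (2*M+1) θ) (h' : H M s (2*M) θ' = H M s (2*M+1) θ') :
    |θ.cos| = |θ'.cos| ∧ |θ.sin| = |θ'.sin| := by
  have h1 := (tan_top hM hs h).2
  have h2 := (tan_top hM hs h').2
  refine ⟨by rw [h1, h2], ?_⟩
  rw [← sq_eq_sq_iff_abs_eq_abs]
  have e1 := θ.cos_sq_add_sin_sq
  have e2 := θ'.cos_sq_add_sin_sq
  rw [← sq_abs θ.cos, h1] at e1
  rw [← sq_abs θ'.cos, h2] at e2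
  linarith

theorem adj_of_eq {M : ℕ} (hM : 1 ≤ M) {s : ℝ} (hs : |s| = 1) {i j : ℕ} (hi : i ≤ 2 * M + 1)
    (hj : j ≤ 2 * M + 1) (hij : i ≠ j) {θ : Real.Angle} (h : H M s i θ = H M s j θ) :
    i + 1 = j ∨ j + 1 = i := by
  by_contra hcon
  push Not at hcon
  rcases lt_or_gt_of_ne hij with h1 | h1
  · have := gap hM hs (by omega : i + 2 ≤ j) hj θ
    linarith
  · have := gap hM hs (by omega : j + 2 ≤ i) hi θ
    linarith

theorem atmost_fam {M : ℕ} (hM : 1 ≤ M) {s : ℝ} (hs : |s| = 1) {i j : ℕ} (hi : i ≤ 2 * M + 1)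
    (hj : j ≤ 2 * M + 1) (hij : i ≠ j) :
    (tangents (fam M s i) (fam M s j)).Finite ∧ (tangents (fam M s i) (fam M s j)).ncard ≤ 4 := by
  apply fin4
  intro θ hθ θ' hθ'
  simp only [tangents, mem_ofPred_eq, supp_fam] at hθ hθ'
  have key : ∀ i : ℕ, i + 1 ≤ 2 * M + 1 → H M s i θ = H M s (i+1) θ → H M s i θ' = H M s (i+1) θ' →
      |θ.cos| = |θ'.cos| ∧ |θ.sin| = |θ'.sin| := by
    intro i hi h1 h2
    rcases Nat.eq_zero_or_pos i with h0 | h0
    · subst h0; exact tan_zero hM s h1 h2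
    · by_cases h3 : i = 2 * M
      · rw [h3] at h1 h2; exact tan_top' hM hs h1 h2
      · exact tan_mid s h0 (by omega) h1 h2
  rcases adj_of_eq hM hs hi hj hij hθ with h | h
  · subst h; exact key i hj hθ hθ'
  · subst h; exact key j hi hθ.symm hθ'.symm

end Pool.Agent.V11167.Bod
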