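import Mathlib
import Pool.Agent.V11167.BodB

open Complex Set

namespace Pool.Agent.V11167.Bod

theorem face_zero {M : ℕ} {s : ℝ} {z : ℂ} {θ : Real.Angle} (hz : z ∈ fam M s 0)
    (h : ip z θ = H M s 0 θ) : z.re = 1/2 * θ.cos + 1 := by
  rw [fam, if_pos rfl] at hz
  have h2 : ip z θ = 1/2 + ip 1 θ + |ip 0 θ| := by rw [h, H_zero]; simp [ip]
  obtain ⟨t, h3, _⟩ := mem_face hz h2
  simpa using h3

theorem face_top {M : ℕ} {s : ℝ} {z : ℂ} {θ : Real.Angle} (hz : z ∈ fam M s (2*M+1))
    (h : ip z θ = H M s (2*M+1) θ) : z.re = (2*M+9/4) * θ.cos - s ∧ z.im = (2*M+9/4) * θ.sin := by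
  rw [fam, if_neg (by omega), if_pos rfl] at hz
  have h2 : ip z θ = 2*M+9/4 + ip (-(s:ℂ)) θ + |ip 0 θ| := by rw [h, H_top]; simp [ip]; ring
  obtain ⟨t, h3, h4, _⟩ := mem_face hz h2
  constructor
  · rw [h3]; simp; ring
  · rw [h4]; simp

theorem face_odd {M : ℕ} {s : ℝ} {j : ℕ} (h1 : 1 ≤ j) (h2 : j ≤ 2 * M) (h3 : j % 2 = 1) {z : ℂ}
    {θ : Real.Angle} (hz : z ∈ fam M s j) (h : ip z θ = H M s j θ) : z.re = j * θ.cos := by
  rw [fam, if_neg (by omega), if_neg (by omega), if_pos h3] at hz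
  have h4 : ip z θ = j + ip 0 θ + |ip ((3/2 : ℝ) * I) θ| := by
    rw [h, H_mid s h1 h2]
    simp only [ff, h3, if_true]
    simp [ip, abs_mul]
    left; norm_num
  obtain ⟨t, h5, _⟩ := mem_face hz h4
  simpa using h5

theorem face_even {M : ℕ} {s : ℝ} {j : ℕ} (h1 : 1 ≤ j) (h2 : j ≤ 2 * M) (h3 : j % 2 = 0) {z : ℂ}
    {θ : Real.Angle} (hz : z ∈ fam M s j) (h : ip z θ = H M s j θ) :
    ∃ t : ℝ, z.re = j * θ.cos + t * (3/2) ∧ z.im = j * θ.sin ∧ t * θ.cos = |θ.cos| ∧ |t| ≤ 1 := by
  rw [fam, if_neg (by omega), if_neg (by omega), if_neg (by omega)] at hz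
  have h4 : ip z θ = j + ip 0 θ + |ip ((3/2 : ℝ) : ℂ) θ| := by
    rw [h, H_mid s h1 h2]
    simp only [ff, h3]
    rw [if_neg (by norm_num)]
    simp [ip, abs_mul]
    left; norm_num
  obtain ⟨t, h5, h6, h7, h8⟩ := mem_face hz h4
  refine ⟨t, ?_, ?_, ?_, h8⟩
  · rw [h5]; simp
  · rw [h6]; simp
  · have e1 : ip ((3/2 : ℝ) : ℂ) θ = 3/2 * θ.cos := by simp [ip]
    rw [e1, abs_mul, abs_of_pos (by norm_num : (0:ℝ) < 3/2)] at h7
    linarith

theorem trans_adj {M : ℕ} (hM : 1 ≤ M) {s : ℝ} (hs : |s| = 1) {j : ℕ} (hj : j + 1 ≤ 2 * M + 1)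
    {θ : Real.Angle} (hθ : H M s j θ = H M s (j+1) θ) {z : ℂ} (h1 : z ∈ fam M s j)
    (h2 : z ∈ fam M s (j+1)) : ip z θ ≠ H M s j θ := by
  intro h3
  have h4 : ip z θ = H M s (j+1) θ := by rw [h3, hθ]
  have hcs := θ.cos_sq_add_sin_sq
  have hc1 := abs_le.mp (abs_cos_le θ)
  rcases Nat.eq_zero_or_pos j with h0 | h0
  · subst h0
    have e1 := face_zero h1 h3
    have e2 := face_odd (by norm_num) (by omega) (by norm_num) h2 h4
    push_cast at e2
    linarith [hc1.2]
  · by_cases hj2 : j = 2 * M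
    · subst hj2
      obtain ⟨e1, e2⟩ := face_top h2 h4
      obtain ⟨t, e3, e4, e5, e6⟩ := face_even h0 le_rfl (by omega) h1 h3
      push_cast at e3 e4
      have hsin : θ.sin = 0 := by
        have : (9/4 : ℝ) * θ.sin = 0 := by linarith
        linarith
      have h10 := (tan_top hM hs hθ).2
      rw [hsin, ← sq_abs, h10] at hcs
      norm_num at hcs
    · -- consecutive members of the chain
      have hmid := hθ
      rw [H_mid s h0 (by omega), H_mid s (by omega) (by omega)] at hmid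
      have key : ∀ o e : ℕ, 1 ≤ o → o ≤ 2 * M → o % 2 = 1 → 1 ≤ e → e ≤ 2 * M → e % 2 = 0 →
          ((o : ℝ) - e = 1 ∨ (o : ℝ) - e = -1) → z ∈ fam M s o → z ∈ fam M s e →
          ip z θ = H M s o θ → ip z θ = H M s e θ →
          (o : ℝ) + 3/2 * |θ.sin| = e + 3/2 * |θ.cos| → False := by
        intro o e o1 o2 o3 e1 e2 e3 hoe zo ze io ie heq
        have f1 := face_odd o1 o2 o3 zo io
        obtain ⟨t, f2, f3, f4, f5⟩ := face_even e1 e2 e3 ze ie
        have f6 : ((o : ℝ) - e) * θ.cos = t * (3/2) := by linarith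
        have hcne : θ.cos ≠ 0 := by
          intro hc
          rw [hc, abs_zero] at heq
          rw [hc] at hcs
          have : |θ.sin| = 1 := by
            have : |θ.sin| ^ 2 = 1 := by rw [sq_abs]; linarith
            nlinarith [abs_nonneg θ.sin]
          rw [this] at heq
          rcases hoe with h | h <;> linarith
        have hct : |t| = 1 := by
          have : |t| * |θ.cos| = 1 * |θ.cos| := by
            rw [← abs_mul, f4, abs_abs, one_mul]
          exact mul_right_cancel₀ (abs_ne_zero.mpr hcne) this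
        have h7 : |((o : ℝ) - e) * θ.cos| = 3/2 := by
          rw [f6, abs_mul, hct]; norm_num
        rw [abs_mul] at h7
        have h8 : |(o : ℝ) - e| = 1 := by
          rcases hoe with h | h <;> rw [h] <;> norm_num
        rw [h8, one_mul] at h7
        have := abs_cos_le θ
        linarith
      rcases Nat.mod_two_eq_zero_or_one j with hp | hp
      · apply key (j+1) j (by omega) (by omega) (by omega) h0 (by omega) hp
          (Or.inl (by push_cast; ring)) h2 h1 h4 h3
        have hp1 : (j+1) % 2 = 1 := by omega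
        simp only [ff, hp, hp1, if_true] at hmid
        rw [if_neg (by norm_num)] at hmid
        exact hmid.symm
      · apply key j (j+1) h0 (by omega) hp (by omega) (by omega) (by omega)
          (Or.inr (by push_cast; ring)) h1 h2 h3 h4
        have hp1 : (j+1) % 2 = 0 := by omega
        simp only [ff, hp, hp1, if_true] at hmid
        rw [if_neg (by norm_num)] at hmid
        exact hmid

theorem arr_fam {M : ℕ} (hM : 1 ≤ M) {s : ℝ} (hs : |s| = 1) :
    IsArrangement (fun i : Fin (2 * M + 2) => fam M s i) where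
  body i := body_fam M s i
  transversal := by
    intro i j hij θ hθ x hx
    have hij' : (i : ℕ) ≠ j := fun h => hij (Fin.ext h)
    simp only [tangents, mem_ofPred_eq, supp_fam] at hθ ⊢
    rcases adj_of_eq hM hs (by omega) (by omega) hij' hθ with h | h
    · have hx1 := hx.1
      have hx2 := hx.2
      rw [← h] at hθ hx2
      exact trans_adj hM hs (by omega) hθ hx1 hx2
    · have hx1 := hx.1
      have hx2 := hx.2
      rw [← h] at hθ hx1 ⊢
      rw [hθ]
      exact trans_adj hM hs (by omega) hθ.symm hx2 hx1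
  no_three := by
    intro i j k hij hjk hik θ h
    have hij' : (i : ℕ) ≠ j := fun h => hij (Fin.ext h)
    have hjk' : (j : ℕ) ≠ k := fun h => hjk (Fin.ext h)
    have hik' : (i : ℕ) ≠ k := fun h => hik (Fin.ext h)
    simp only [tangents, mem_ofPred_eq, supp_fam] at h
    have h1 := adj_of_eq hM hs (by omega) (by omega) hij' h.1
    have h2 := adj_of_eq hM hs (by omega) (by omega) hjk' h.2
    have h3 := adj_of_eq hM hs (by omega) (by omega) hik' (h.1.trans h.2)
    omega
  finite := by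
    intro i j hij
    have hij' : (i : ℕ) ≠ j := fun h => hij (Fin.ext h)
    exact (atmost_fam hM hs (by omega) (by omega) hij').1

theorem atMost_fam {M : ℕ} (hM : 1 ≤ M) {s : ℝ} (hs : |s| = 1) {t : ℕ} (ht : 4 ≤ t) :
    AtMost t (fun i : Fin (2 * M + 2) => fam M s i) := by
  intro i j hij
  have hij' : (i : ℕ) ≠ j := fun h => hij (Fin.ext h)
  have h := atmost_fam hM hs (by omega) (by omega) hij' (i := i) (j := j)
  exact ⟨h.1, h.2.trans ht⟩

end Pool.Agent.V11167.Bod
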