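import Mathlib
import Pool.Agent.V11167.BodC

open Complex Set

namespace Pool.Agent.V11167.Bod

/-! ### separating curves -/

theorem ff_add_pi (j : ℕ) (θ : Real.Angle) : ff j (θ + (Real.pi : ℝ)) = ff j θ := by
  unfold ff; split_ifs <;> simp [Real.Angle.sin_add_pi, Real.Angle.cos_add_pi]

theorem cont_ff (j : ℕ) : Continuous (ff j) := by
  unfold ff
  split_ifs
  · exact Real.Angle.continuous_sin.abs
  · exact Real.Angle.continuous_cos.abs

/-- separating curve at level `j` -/
noncomputable def sep (j : ℕ) (θ : Real.Angle) : ℝ := j + 3/2 * ff (j+1) θ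

theorem sep_add_pi (j : ℕ) (θ : Real.Angle) : sep j (θ + (Real.pi : ℝ)) = sep j θ := by
  unfold sep; rw [ff_add_pi]

theorem cont_sep (j : ℕ) : Continuous (sep j) := by
  unfold sep
  have := cont_ff (j+1)
  fun_prop

theorem ff_parity {i j : ℕ} (h : i % 2 = j % 2) (θ : Real.Angle) : ff i θ = ff j θ := by
  unfold ff; rw [h]

theorem below_sep {M : ℕ} {s : ℝ} {i j : ℕ} (hij : i < j) (hj : j ≤ 2 * M) (θ : Real.Angle) :
    H M s i θ ≤ sep j θ - 1/4 := by
  have hc := abs_le.mp (abs_cos_le θ)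
  unfold sep
  have hf := ff_nonneg (j+1) θ
  rcases Nat.eq_zero_or_pos i with h0 | h0
  · subst h0
    rw [H_zero]
    rcases (by omega : j = 1 ∨ 2 ≤ j) with h1 | h1
    · subst h1
      have : ff (1+1) θ = |θ.cos| := by simp [ff]
      rw [this]
      have := le_abs_self θ.cos
      have := abs_nonneg θ.cos
      push_cast; linarith
    · have h2 : (2:ℝ) ≤ j := by exact_mod_cast h1
      linarith [hc.2]
  · rw [H_mid s h0 (by omega)]
    rcases (by omega : i + 1 = j ∨ i + 2 ≤ j) with h1 | h1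
    · have : ff i θ = ff (j+1) θ := ff_parity (by omega) θ
      rw [this]
      have : (i:ℝ) + 1 = j := by exact_mod_cast h1
      linarith
    · have h2 : (i:ℝ) + 2 ≤ j := by exact_mod_cast h1
      have := ff_le i θ
      linarith

theorem sqrt_bound {s : ℝ} (hs : |s| = 1) (θ : Real.Angle) : s * θ.cos + 3/2 * |θ.sin| ≤ 2 := by
  have hcs := θ.cos_sq_add_sin_sq
  rw [← sq_abs θ.sin] at hcs
  have hs2 : s ^ 2 = 1 := by rw [← sq_abs, hs]; norm_num
  have h1 : (s * θ.cos + 3/2 * |θ.sin|) ^ 2 ≤ 13/4 := by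
    nlinarith [sq_nonneg (3/2 * s * θ.cos - |θ.sin|)]
  nlinarith

theorem above_sep {M : ℕ} {s : ℝ} (hs : |s| = 1) {i j : ℕ} (hj : 1 ≤ j) (hij : j < i)
    (hi : i ≤ 2 * M + 1) (θ : Real.Angle) : sep j θ + 1/4 ≤ H M s i θ := by
  have hsc := abs_le.mp (s_cos_le hs θ)
  unfold sep
  have hf1 := ff_le (j+1) θ
  by_cases hi1 : i = 2 * M + 1
  · subst hi1
    rw [H_top]
    rcases (by omega : j = 2 * M ∨ j + 1 ≤ 2 * M) with h1 | h1
    · subst h1
      have : ff (2*M+1) θ = |θ.sin| := by
        unfold ff; rw [if_pos (by omega)]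
      rw [this]
      have := sqrt_bound hs θ
      push_cast; linarith
    · have h2 : (j:ℝ) + 1 ≤ 2 * M := by exact_mod_cast h1
      linarith [hsc.2]
  · rw [H_mid s (by omega) (by omega)]
    rcases (by omega : j + 1 = i ∨ j + 2 ≤ i) with h1 | h1
    · have : ff i θ = ff (j+1) θ := by rw [h1]
      rw [this]
      have : (j:ℝ) + 1 = i := by exact_mod_cast h1
      linarith
    · have h2 : (j:ℝ) + 2 ≤ i := by exact_mod_cast h1
      have := ff_nonneg i θ
      linarith

/-! ### homeomorphisms of the cylinder -/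

theorem op_refl : OrientationPreserving (Homeomorph.refl Cyl) :=
  ⟨fun p => p.1, continuous_fst, fun _ _ => rfl, fun _ _ => rfl⟩

theorem pt_refl : PreservesTop (Homeomorph.refl Cyl) := ⟨0, fun _ _ h => h⟩

/-- rotation by `π` -/
noncomputable def rot : Cyl ≃ₜ Cyl where
  toFun p := (p.1 + (Real.pi : ℝ), p.2)
  invFun p := (p.1 - (Real.pi : ℝ), p.2)
  left_inv p := by simp
  right_inv p := by simp
  continuous_toFun := by fun_prop
  continuous_invFun := by fun_prop

theorem op_rot : OrientationPreserving rot := by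
  refine ⟨fun p => p.1 + Real.pi, by fun_prop, fun x y => ?_, fun x y => ?_⟩
  · simp [rot]
  · simp only; ring

theorem pt_rot : PreservesTop rot := ⟨0, fun _ _ h => h⟩

/-- the amount of rotation at height `u` -/
noncomputable def tau (u : ℝ) : ℝ := Real.pi * max 0 (min 1 (2 * u + 1/2))

theorem cont_tau : Continuous tau := by unfold tau; fun_prop

theorem tau_low {u : ℝ} (h : u ≤ -(1/4)) : tau u = 0 := by
  unfold tau
  rw [max_eq_left (min_le_of_right_le (by linarith)), mul_zero]

theorem tau_high {u : ℝ} (h : 1/4 ≤ u) : tau u = Real.pi := by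
  unfold tau
  rw [min_eq_left (by linarith), max_eq_right zero_le_one, mul_one]

/-- twist along the separating curve `sep j` -/
noncomputable def twist (j : ℕ) : Cyl ≃ₜ Cyl where
  toFun p := (p.1 + (tau (p.2 - sep j p.1) : ℝ),
    p.2 - sep j p.1 + sep j (p.1 + (tau (p.2 - sep j p.1) : ℝ)))
  invFun p := (p.1 - (tau (p.2 - sep j p.1) : ℝ),
    p.2 - sep j p.1 + sep j (p.1 - (tau (p.2 - sep j p.1) : ℝ)))
  left_inv p := by
    ext
    · simp
    · simp
  right_inv p := by
    ext
    · simp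
    · simp
  continuous_toFun := by
    have h1 := cont_sep j
    have h2 := cont_tau
    have h3 : Continuous (fun x : ℝ => (x : Real.Angle)) := Real.Angle.continuous_coe
    have h4 : Continuous (fun p : Cyl => ((tau (p.2 - sep j p.1) : ℝ) : Real.Angle)) :=
      h3.comp (h2.comp (continuous_snd.sub (h1.comp continuous_fst)))
    exact (continuous_fst.add h4).prodMk
      ((continuous_snd.sub (h1.comp continuous_fst)).add (h1.comp (continuous_fst.add h4)))
  continuous_invFun := by
    have h1 := cont_sep j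
    have h2 := cont_tau
    have h3 : Continuous (fun x : ℝ => (x : Real.Angle)) := Real.Angle.continuous_coe
    have h4 : Continuous (fun p : Cyl => ((tau (p.2 - sep j p.1) : ℝ) : Real.Angle)) :=
      h3.comp (h2.comp (continuous_snd.sub (h1.comp continuous_fst)))
    exact (continuous_fst.sub h4).prodMk
      ((continuous_snd.sub (h1.comp continuous_fst)).add (h1.comp (continuous_fst.sub h4)))

theorem twist_apply (j : ℕ) (p : Cyl) : twist j p = (p.1 + (tau (p.2 - sep j p.1) : ℝ),
    p.2 - sep j p.1 + sep j (p.1 + (tau (p.2 - sep j p.1) : ℝ))) := rfl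

theorem op_twist (j : ℕ) : OrientationPreserving (twist j) := by
  refine ⟨fun p => p.1 + tau (p.2 - sep j p.1), ?_, fun x y => ?_, fun x y => ?_⟩
  · have h1 := cont_sep j
    have h2 := cont_tau
    have h3 : Continuous (fun x : ℝ => (x : Real.Angle)) := Real.Angle.continuous_coe
    exact continuous_fst.add (h2.comp (continuous_snd.sub (h1.comp (h3.comp continuous_fst))))
  · rw [twist_apply]
    push_cast
    rfl
  · have : ((x + 2 * Real.pi : ℝ) : Real.Angle) = (x : Real.Angle) := by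
      rw [Real.Angle.coe_add, Real.Angle.coe_two_pi, add_zero]
    simp only [this]
    ring

theorem sep_nonneg (j : ℕ) (θ : Real.Angle) : 0 ≤ sep j θ := by
  unfold sep
  have := ff_nonneg (j+1) θ
  positivity

theorem sep_le (j : ℕ) (θ : Real.Angle) : sep j θ ≤ j + 3/2 := by
  unfold sep
  have := ff_le (j+1) θ
  linarith

theorem pt_twist (j : ℕ) : PreservesTop (twist j) := by
  refine ⟨j + 3/2, fun θ y hy => ?_⟩
  rw [twist_apply]
  have h1 := sep_le j θ
  have h2 := sep_nonneg j (θ + (tau (y - sep j θ) : ℝ))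
  simp only
  linarith

theorem image_eq_of {φ : Cyl ≃ₜ Cyl} {a b : Real.Angle → ℝ} (h1 : ∀ p : Cyl, p.2 = a p.1 →
    (φ p).2 = b (φ p).1) (h2 : ∀ p : Cyl, p.2 = b p.1 → (φ.symm p).2 = a (φ.symm p).1) :
    φ '' {p : Cyl | p.2 = a p.1} = {p : Cyl | p.2 = b p.1} := by
  ext q
  constructor
  · rintro ⟨p, hp, rfl⟩
    exact h1 p hp
  · intro hq
    exact ⟨φ.symm q, h2 q hq, by simp⟩

theorem twist_low {j : ℕ} {a : Real.Angle → ℝ} (h : ∀ θ, a θ ≤ sep j θ - 1/4) :
    twist j '' {p : Cyl | p.2 = a p.1} = {p : Cyl | p.2 = a p.1} := by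
  apply image_eq_of
  · intro p hp
    rw [twist_apply, tau_low (by rw [hp]; linarith [h p.1])]
    simp [hp]
  · intro p hp
    have : (twist j).symm p = (p.1 - (tau (p.2 - sep j p.1) : ℝ),
      p.2 - sep j p.1 + sep j (p.1 - (tau (p.2 - sep j p.1) : ℝ))) := rfl
    rw [this, tau_low (by rw [hp]; linarith [h p.1])]
    simp [hp]

theorem twist_high {j : ℕ} {a b : Real.Angle → ℝ} (h : ∀ θ, sep j θ + 1/4 ≤ a θ)
    (hab : ∀ θ, b (θ + (Real.pi : ℝ)) = a θ) :
    twist j '' {p : Cyl | p.2 = a p.1} = {p : Cyl | p.2 = b p.1} := by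
  have hsub : ∀ θ : Real.Angle, sep j (θ - (Real.pi : ℝ)) = sep j θ := by
    intro θ
    have := sep_add_pi j (θ - (Real.pi : ℝ))
    rw [sub_add_cancel] at this
    exact this.symm
  have hbs : ∀ θ : Real.Angle, b θ = a (θ - (Real.pi : ℝ)) := by
    intro θ
    rw [← hab, sub_add_cancel]
  apply image_eq_of
  · intro p hp
    rw [twist_apply, tau_high (by rw [hp]; linarith [h p.1])]
    simp only [sep_add_pi, hab, hp]
    ring
  · intro p hp
    have : (twist j).symm p = (p.1 - (tau (p.2 - sep j p.1) : ℝ),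
      p.2 - sep j p.1 + sep j (p.1 - (tau (p.2 - sep j p.1) : ℝ))) := rfl
    rw [this, tau_high (by rw [hp, hbs]; have := h (p.1 - (Real.pi : ℝ)); rw [hsub] at this; linarith)]
    simp only [hsub, hp, hbs]
    ring

theorem rot_image {a b : Real.Angle → ℝ} (hab : ∀ θ, b (θ + (Real.pi : ℝ)) = a θ) :
    rot '' {p : Cyl | p.2 = a p.1} = {p : Cyl | p.2 = b p.1} := by
  apply image_eq_of
  · intro p hp
    change p.2 = b (p.1 + (Real.pi : ℝ))
    rw [hab, hp]
  · intro p hp
    change p.2 = a (p.1 - (Real.pi : ℝ))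
    rw [← hab, sub_add_cancel, hp]

theorem curve_fam (M : ℕ) (s : ℝ) (j : ℕ) : curve (fam M s j) = {p : Cyl | p.2 = H M s j p.1} := by
  unfold curve
  simp only [supp_fam]

theorem H_rot {M : ℕ} {j : ℕ} (hj : 1 ≤ j) (hj' : j ≤ 2 * M + 1) (θ : Real.Angle) :
    H M (-1) j (θ + (Real.pi : ℝ)) = H M 1 j θ := by
  by_cases h : j = 2 * M + 1
  · subst h; rw [H_top, H_top, Real.Angle.cos_add_pi]; ring
  · rw [H_mid _ hj (by omega), H_mid _ hj (by omega), ff_add_pi]

theorem H_same {M : ℕ} {j : ℕ} (hj : j ≤ 2 * M) : H M (-1) j = H M 1 j := by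
  ext θ
  unfold H
  split_ifs with h1 h2
  · rfl
  · omega
  · rfl

/-- all proper sub-arrangements agree -/
theorem same_sub {M : ℕ} (S : Finset (Fin (2 * M + 2))) (hS : S ≠ Finset.univ) :
    SameType (fun i : S => fam M 1 (i : Fin (2 * M + 2))) (fun i : S => fam M (-1) (i : Fin (2 * M + 2))) := by
  obtain ⟨j, hj⟩ : ∃ j, j ∉ S := by
    by_contra hcon
    push Not at hcon
    exact hS (Finset.eq_univ_of_forall hcon)
  have hne : ∀ i : S, ((i : Fin (2 * M + 2)) : ℕ) ≠ j := by
    intro i h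
    apply hj
    have : (i : Fin (2 * M + 2)) = j := Fin.ext h
    rw [← this]; exact i.2
  rcases (by omega : (j : ℕ) = 0 ∨ (j : ℕ) = 2 * M + 1 ∨ (1 ≤ (j : ℕ) ∧ (j : ℕ) ≤ 2 * M)) with
    h | h | h
  · refine ⟨rot, op_rot, pt_rot, fun i => ?_⟩
    simp only [curve_fam]
    have := hne i
    have := (i : Fin (2 * M + 2)).2
    exact rot_image (fun θ => H_rot (by omega) (by omega) θ)
  · refine ⟨Homeomorph.refl _, op_refl, pt_refl, fun i => ?_⟩
    have := hne i
    have := (i : Fin (2 * M + 2)).2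
    simp only [curve_fam]
    rw [H_same (by omega)]
    simp
  · refine ⟨twist j, op_twist j, pt_twist j, fun i => ?_⟩
    have h1 := hne i
    have h2 := (i : Fin (2 * M + 2)).2
    simp only [curve_fam]
    rcases lt_or_gt_of_ne h1 with h3 | h3
    · rw [H_same (by omega)]
      exact twist_low (fun θ => below_sep h3 h.2 θ)
    · exact twist_high (fun θ => above_sep (by norm_num) h.1 h3 (by omega) θ)
        (fun θ => H_rot (by omega) (by omega) θ)

end Pool.Agent.V11167.Bod
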