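import Mathlib
import Pool.Agent.V11167.BodD

open Complex Set

namespace Pool.Agent.V11167.Bod

instance : CompactSpace Real.Angle := by
  haveI : Fact (0 < 2 * Real.pi) := ⟨Real.two_pi_pos⟩
  exact inferInstanceAs (CompactSpace (AddCircle (2 * Real.pi)))

instance : PathConnectedSpace Real.Angle :=
  inferInstanceAs (PathConnectedSpace (AddCircle (2 * Real.pi)))

theorem conn_above {a : Real.Angle → ℝ} (ha : Continuous a) :
    IsPreconnected {p : Cyl | a p.1 < p.2} := by
  have : {p : Cyl | a p.1 < p.2} = (fun q : Cyl => (q.1, a q.1 + q.2)) '' (univ ×ˢ Ioi 0) := by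
    ext p
    constructor
    · intro hp
      have hp' : a p.1 < p.2 := hp
      exact ⟨(p.1, p.2 - a p.1), ⟨mem_univ _, by simpa using hp'⟩, by simp⟩
    · rintro ⟨q, ⟨_, hq⟩, rfl⟩
      simp only [mem_ofPred_eq]
      have : 0 < q.2 := hq
      linarith
  rw [this]
  apply IsPreconnected.image
  · exact isPreconnected_univ.prod isPreconnected_Ioi
  · exact (continuous_fst.prodMk ((ha.comp continuous_fst).add continuous_snd)).continuousOn

theorem conn_below {a : Real.Angle → ℝ} (ha : Continuous a) :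
    IsPreconnected {p : Cyl | p.2 < a p.1} := by
  have : {p : Cyl | p.2 < a p.1} = (fun q : Cyl => (q.1, a q.1 - q.2)) '' (univ ×ˢ Ioi 0) := by
    ext p
    constructor
    · intro hp
      have hp' : p.2 < a p.1 := hp
      exact ⟨(p.1, a p.1 - p.2), ⟨mem_univ _, by simpa using hp'⟩, by simp⟩
    · rintro ⟨q, ⟨_, hq⟩, rfl⟩
      simp only [mem_ofPred_eq]
      have : 0 < q.2 := hq
      linarith
  rw [this]
  apply IsPreconnected.image
  · exact isPreconnected_univ.prod isPreconnected_Ioi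
  · exact (continuous_fst.prodMk ((ha.comp continuous_fst).sub continuous_snd)).continuousOn

/-- a homeomorphism which preserves `+∞` and maps the graph of `a` onto the graph of `b` maps the
points above the graph of `a` to points above the graph of `b`, and similarly below -/
theorem sides {φ : Cyl ≃ₜ Cyl} (hφ : PreservesTop φ) {a b : Real.Angle → ℝ} (ha : Continuous a)
    (hb : Continuous b) (h : φ '' {p : Cyl | p.2 = a p.1} = {p : Cyl | p.2 = b p.1}) :
    (∀ p : Cyl, a p.1 < p.2 → b (φ p).1 < (φ p).2) ∧ (∀ p : Cyl, p.2 < a p.1 → (φ p).2 < b (φ p).1) := by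
  have hU : IsOpen {p : Cyl | b p.1 < p.2} := isOpen_lt (hb.comp continuous_fst) continuous_snd
  have hD : IsOpen {p : Cyl | p.2 < b p.1} := isOpen_lt continuous_snd (hb.comp continuous_fst)
  have hdisj : Disjoint {p : Cyl | b p.1 < p.2} {p : Cyl | p.2 < b p.1} := by
    rw [Set.disjoint_left]
    intro p (h1 : b p.1 < p.2) (h2 : p.2 < b p.1)
    exact lt_asymm h1 h2
  have hne : ∀ p : Cyl, p.2 ≠ a p.1 → (φ p).2 ≠ b (φ p).1 := by
    intro p hp hq
    have : φ p ∈ {p : Cyl | p.2 = b p.1} := hq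
    rw [← h] at this
    obtain ⟨q, hq1, hq2⟩ := this
    have := φ.injective hq2
    rw [← this] at hp
    exact hp hq1
  have hcov : ∀ S : Set Cyl, (∀ p ∈ S, p.2 ≠ a p.1) →
      φ '' S ⊆ {p : Cyl | b p.1 < p.2} ∪ {p : Cyl | p.2 < b p.1} := by
    rintro S hS _ ⟨p, hp, rfl⟩
    rcases lt_or_gt_of_ne (hne p (hS p hp)) with h1 | h1
    · right; exact h1
    · left; exact h1
  -- the upper part
  have hup : φ '' {p : Cyl | a p.1 < p.2} ⊆ {p : Cyl | b p.1 < p.2} := by
    have hc : IsPreconnected (φ '' {p : Cyl | a p.1 < p.2}) :=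
      (conn_above ha).image _ φ.continuous.continuousOn
    rcases hc.subset_or_subset hU hD hdisj (hcov _ (fun p hp => ne_of_gt hp)) with h1 | h1
    · exact h1
    · exfalso
      obtain ⟨Y, hY⟩ := hφ
      obtain ⟨Ma, hMa⟩ := (isCompact_univ.image ha).bddAbove
      obtain ⟨Mb, hMb⟩ := (isCompact_univ.image hb).bddAbove
      have hMa' : ∀ θ, a θ ≤ Ma := fun θ => hMa ⟨θ, mem_univ _, rfl⟩
      have hMb' : ∀ θ, b θ ≤ Mb := fun θ => hMb ⟨θ, mem_univ _, rfl⟩
      set Y' := max Y Ma + 1 with hY'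
      have hcomp : IsCompact ((univ : Set Real.Angle) ×ˢ (Icc 0 Mb : Set ℝ)) :=
        isCompact_univ.prod isCompact_Icc
      have hpre : IsCompact (φ ⁻¹' ((univ : Set Real.Angle) ×ˢ (Icc 0 Mb : Set ℝ))) :=
        φ.isCompact_preimage.mpr hcomp
      have hsub : ∀ y : ℝ, Y' ≤ y → (((0 : Real.Angle), y) : Cyl) ∈
          φ ⁻¹' ((univ : Set Real.Angle) ×ˢ (Icc 0 Mb : Set ℝ)) := by
        intro y hy
        have e1 : Y < y := by
          have := le_max_left Y Ma; linarith
        have e2 : a 0 < y := by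
          have := le_max_right Y Ma; have := hMa' 0; linarith
        have e3 := h1 ⟨((0 : Real.Angle), y), e2, rfl⟩
        refine ⟨mem_univ _, (hY 0 y e1).le, ?_⟩
        exact (le_of_lt e3).trans (hMb' _)
      obtain ⟨B, hB⟩ := (hpre.image continuous_snd).bddAbove
      have h2 : max Y' (B+1) ≤ B := hB ⟨((0 : Real.Angle), max Y' (B+1)), hsub _ (le_max_left _ _), rfl⟩
      have h3 : B + 1 ≤ max Y' (B+1) := le_max_right _ _
      linarith
  refine ⟨fun p hp => hup ⟨p, hp, rfl⟩, ?_⟩
  have hdown : φ '' {p : Cyl | p.2 < a p.1} ⊆ {p : Cyl | p.2 < b p.1} := by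
    have hc : IsPreconnected (φ '' {p : Cyl | p.2 < a p.1}) :=
      (conn_below ha).image _ φ.continuous.continuousOn
    rcases hc.subset_or_subset hU hD hdisj (hcov _ (fun p hp => ne_of_lt hp)) with h1 | h1
    · exfalso
      -- the point below the graph of b is not attained
      set q : Cyl := ((0 : Real.Angle), b 0 - 1) with hq
      have hq1 : q.2 < b q.1 := by simp [hq]
      obtain ⟨p, hp⟩ := φ.surjective q
      rcases lt_trichotomy p.2 (a p.1) with h2 | h2 | h2
      · have := h1 ⟨p, h2, rfl⟩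
        rw [hp] at this
        exact lt_asymm hq1 this
      · have : φ p ∈ {p : Cyl | p.2 = b p.1} := by
          rw [← h]; exact ⟨p, h2, rfl⟩
        rw [hp] at this
        exact absurd this (ne_of_lt hq1)
      · have := hup ⟨p, h2, rfl⟩
        rw [hp] at this
        exact lt_asymm hq1 this
    · exact h1
  exact fun p hp => hdown ⟨p, hp, rfl⟩

theorem cont_H (M : ℕ) (s : ℝ) (j : ℕ) : Continuous (H M s j) := by
  unfold H
  have h1 := cont_ff j
  have h2 := Real.Angle.continuous_cos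
  split_ifs <;> fun_prop

/-- the two arrangements are different, whatever the behaviour of the homeomorphism with respect to
the orientation -/
theorem not_same {M : ℕ} (hM : 1 ≤ M) {φ : Cyl ≃ₜ Cyl} (hφ : PreservesTop φ)
    (h : ∀ j ≤ 2 * M + 1, φ '' {p : Cyl | p.2 = H M 1 j p.1} = {p : Cyl | p.2 = H M (-1) j p.1}) :
    False := by
  have hs : ∀ j ≤ 2 * M + 1, (∀ p : Cyl, H M 1 j p.1 < p.2 → H M (-1) j (φ p).1 < (φ p).2) ∧
      (∀ p : Cyl, p.2 < H M 1 j p.1 → (φ p).2 < H M (-1) j (φ p).1) ∧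
      (∀ p : Cyl, p.2 = H M 1 j p.1 → (φ p).2 = H M (-1) j (φ p).1) := by
    intro j hj
    obtain ⟨h1, h2⟩ := sides hφ (cont_H M 1 j) (cont_H M (-1) j) (h j hj)
    refine ⟨h1, h2, fun p hp => ?_⟩
    have : φ p ∈ {p : Cyl | p.2 = H M (-1) j p.1} := by
      rw [← h j hj]; exact ⟨p, hp, rfl⟩
    exact this
  have hle : ∀ j ≤ 2 * M + 1, ∀ p : Cyl, H M 1 j p.1 ≤ p.2 → H M (-1) j (φ p).1 ≤ (φ p).2 := by
    intro j hj p hp
    rcases hp.lt_or_eq with h1 | h1
    · exact ((hs j hj).1 p h1).le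
    · exact ((hs j hj).2.2 p h1.symm).ge
  have hge : ∀ j ≤ 2 * M + 1, ∀ p : Cyl, p.2 ≤ H M 1 j p.1 → (φ p).2 ≤ H M (-1) j (φ p).1 := by
    intro j hj p hp
    rcases hp.lt_or_eq with h1 | h1
    · exact ((hs j hj).2.1 p h1).le
    · exact ((hs j hj).2.2 p h1).le
  have hc0 : Real.Angle.cos 0 = 1 := Real.Angle.cos_zero
  have hs0 : Real.Angle.sin 0 = 0 := Real.Angle.sin_zero
  have ffo : ∀ j : ℕ, j % 2 = 1 → ∀ θ : Real.Angle, ff j θ = |θ.sin| := by
    intro j hj θ; unfold ff; rw [if_pos hj]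
  have ffe : ∀ j : ℕ, j % 2 = 0 → ∀ θ : Real.Angle, ff j θ = |θ.cos| := by
    intro j hj θ; unfold ff; rw [if_neg (by omega)]
  -- cos does not vanish on the image of the segment
  have hcos : ∀ y : ℝ, 1 ≤ y → y ≤ 2 * M + 3/2 → (φ ((0 : Real.Angle), y)).1.cos ≠ 0 := by
    intro y hy1 hy2 hcz
    set q := φ ((0 : Real.Angle), y) with hq
    have hsin : |q.1.sin| = 1 := by
      have := q.1.cos_sq_add_sin_sq
      rw [hcz] at this
      have h2 : |q.1.sin| ^ 2 = 1 := by rw [sq_abs]; linarith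
      nlinarith [abs_nonneg q.1.sin]
    -- lower bound
    have l1 : (5/2 : ℝ) ≤ q.2 := by
      have := hle 1 (by omega) ((0 : Real.Angle), y) (by
        rw [H_mid _ le_rfl (by omega), ffo 1 (by norm_num), hs0, abs_zero]; simpa using hy1)
      rw [H_mid _ le_rfl (by omega), ffo 1 (by norm_num), ← hq, hsin] at this
      push_cast at this; linarith
    have l2 : q.2 ≤ 2 * M := by
      have := hge (2*M) (by omega) ((0 : Real.Angle), y) (by
        rw [H_mid _ (by omega) le_rfl, ffe (2*M) (by omega), hc0, abs_one]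
        push_cast; linarith)
      rw [H_mid _ (by omega) le_rfl, ffe (2*M) (by omega), ← hq, hcz, abs_zero] at this
      push_cast at this; linarith
    have l3 : ∀ i : ℕ, 1 ≤ i → i + 1 ≤ M → ¬ (2 * (i:ℝ) ≤ q.2 ∧ q.2 ≤ 2 * i + 5/2) := by
      intro i hi1 hi2 hcon
      -- at angle 0: H (2i) = 2i + 3/2, H (2i+1) = 2i+1
      rcases le_or_gt y (2 * i + 1) with hy | hy
      · -- below H (2i): strict
        have := (hs (2*i) (by omega)).2.1 ((0 : Real.Angle), y) (by
          rw [H_mid _ (by omega) (by omega), ffe (2*i) (by omega), hc0, abs_one]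
          push_cast; linarith)
        rw [H_mid _ (by omega) (by omega), ffe (2*i) (by omega), ← hq, hcz, abs_zero] at this
        push_cast at this; linarith [hcon.1]
      · have := (hs (2*i+1) (by omega)).1 ((0 : Real.Angle), y) (by
          rw [H_mid _ (by omega) (by omega), ffo (2*i+1) (by omega), hs0, abs_zero]
          push_cast; linarith)
        rw [H_mid _ (by omega) (by omega), ffo (2*i+1) (by omega), ← hq, hsin] at this
        push_cast at this; linarith [hcon.2]
    -- choose i = floor (q.2 / 2)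
    have hq2 : 0 ≤ q.2 / 2 := by linarith
    have f1 := Nat.floor_le hq2
    have f2 := Nat.lt_floor_add_one (q.2 / 2)
    set i := ⌊q.2 / 2⌋₊ with hi
    have hi1 : 1 ≤ i := by
      rw [hi, Nat.one_le_floor_iff]
      linarith
    rcases (by omega : i + 1 ≤ M ∨ M ≤ i) with h5 | h5
    · exact l3 i hi1 h5 ⟨by linarith, by linarith⟩
    · have h6 : (M:ℝ) ≤ i := by exact_mod_cast h5
      have h7 : q.2 = 2 * M := by linarith
      have hM2 : 2 ≤ M := by
        by_contra hcon
        have : M = 1 := by omega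
        rw [this] at l2
        push_cast at l2; linarith
      obtain ⟨m, hm⟩ : ∃ m, M = m + 1 := ⟨M - 1, by omega⟩
      have h8 : (M:ℝ) = m + 1 := by exact_mod_cast hm
      exact l3 m (by omega) (by omega) ⟨by rw [h7, h8]; linarith, by rw [h7, h8]; linarith⟩
  -- bottom point
  have hbot : 0 < (φ ((0 : Real.Angle), 1)).1.cos := by
    set q := φ ((0 : Real.Angle), (1:ℝ)) with hq
    have e1 := (hs 1 (by omega)).2.2 ((0 : Real.Angle), 1) (by
      rw [H_mid _ le_rfl (by omega), ffo 1 (by norm_num), hs0, abs_zero]; norm_num)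
    rw [H_mid _ le_rfl (by omega), ffo 1 (by norm_num), ← hq] at e1
    have e2 := (hs 0 (by omega)).2.1 ((0 : Real.Angle), 1) (by
      rw [H_zero, hc0]; norm_num)
    rw [H_zero, ← hq] at e2
    have := abs_nonneg q.1.sin
    push_cast at e1
    linarith
  -- top point
  have htop : (φ ((0 : Real.Angle), 2 * M + 3/2)).1.cos < 0 := by
    set q := φ ((0 : Real.Angle), (2 * M + 3/2 : ℝ)) with hq
    have e1 := (hs (2*M) (by omega)).2.2 ((0 : Real.Angle), 2 * M + 3/2) (by
      rw [H_mid _ (by omega) le_rfl, ffe (2*M) (by omega), hc0, abs_one]; push_cast; ring)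
    rw [H_mid _ (by omega) le_rfl, ffe (2*M) (by omega), ← hq] at e1
    have e2 := (hs (2*M+1) (by omega)).1 ((0 : Real.Angle), 2 * M + 3/2) (by
      rw [H_top, hc0]; linarith)
    rw [H_top, ← hq] at e2
    have := abs_cos_le q.1
    by_contra hcon
    rw [abs_of_nonneg (not_lt.mp hcon)] at this e1
    push_cast at e1
    linarith
  -- intermediate value
  have hcont : ContinuousOn (fun y : ℝ => (φ ((0 : Real.Angle), y)).1.cos) (Icc 1 (2 * M + 3/2)) := by
    apply Continuous.continuousOn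
    have h1 : Continuous (fun y : ℝ => φ ((0 : Real.Angle), y)) := by fun_prop
    exact Real.Angle.continuous_cos.comp (continuous_fst.comp h1)
  have hM' : (1:ℝ) ≤ M := by exact_mod_cast hM
  have hle' : (1:ℝ) ≤ 2 * M + 3/2 := by linarith
  have hivt := intermediate_value_Icc' hle' hcont
  obtain ⟨y, hy, hy0⟩ := hivt ⟨htop.le, hbot.le⟩
  exact hcos y hy.1 hy.2 hy0

/-- Main theorem -/
theorem main (M : ℕ) (hM : 1 ≤ M) :
    IsArrangement (fun i : Fin (2 * M + 2) => fam M 1 i) ∧
    IsArrangement (fun i : Fin (2 * M + 2) => fam M (-1) i) ∧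
    AtMost 4 (fun i : Fin (2 * M + 2) => fam M 1 i) ∧
    AtMost 4 (fun i : Fin (2 * M + 2) => fam M (-1) i) ∧
    (∀ S : Finset (Fin (2 * M + 2)), S ≠ Finset.univ →
      SameType (fun i : S => fam M 1 (i : Fin (2 * M + 2)))
        (fun i : S => fam M (-1) (i : Fin (2 * M + 2)))) ∧
    ¬ SameType (fun i : Fin (2 * M + 2) => fam M 1 i) (fun i : Fin (2 * M + 2) => fam M (-1) i) := by
  have h1 : |(1:ℝ)| = 1 := by norm_num
  have h2 : |(-1:ℝ)| = 1 := by norm_num
  refine ⟨arr_fam hM h1, arr_fam hM h2, atMost_fam hM h1 le_rfl, atMost_fam hM h2 le_rfl,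
    fun S hS => same_sub S hS, ?_⟩
  rintro ⟨φ, _, hφ, h⟩
  apply not_same hM hφ
  intro j hj
  have := h ⟨j, by omega⟩
  simpa only [curve_fam] using this

end Pool.Agent.V11167.Bod
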