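import Mathlib

/-! Definitions used in the statements of MP_fb0157_co. -/

namespace Pool.Agent.V11167.KEq

/-- Euclidean `d`-space. -/
abbrev E (d : ℕ) := EuclideanSpace ℝ (Fin d)

/-- An `n`-gon in `E^d` (vertices indexed by `ZMod n`) is `k`-equilateral: for every
`1 ≤ j ≤ k` the distance from vertex `i` to vertex `i + j` does not depend on `i`. -/
def KEquilateral {n d : ℕ} (k : ℕ) (P : ZMod n → E d) : Prop :=
  ∀ j : ℕ, 1 ≤ j → j ≤ k → ∃ c : ℝ, ∀ i : ZMod n, dist (P i) (P (i + (j : ZMod n))) = c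

/-- The vertices of `P` affinely span the whole space `E^d`. -/
def Spans {n d : ℕ} (P : ZMod n → E d) : Prop := affineSpan ℝ (Set.range P) = ⊤

end Pool.Agent.V11167.KEq
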