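import Mathlib

/-! Geometry part for the Beer index triangle theorem. -/

namespace Pool.Agent.V11167.BeerA

open MeasureTheory Set

/-- planar determinant -/
def det (u v : ℝ × ℝ) : ℝ := u.1 * v.2 - u.2 * v.1

lemma vol_std : volume {p : ℝ × ℝ | 0 < p.1 ∧ 0 < p.2 ∧ p.1 + p.2 < 1} = ENNReal.ofReal (1 / 2) := by
  have h1 : {p : ℝ × ℝ | 0 < p.1 ∧ 0 < p.2 ∧ p.1 + p.2 < 1} =
      regionBetween (fun _ => (0 : ℝ)) (fun s => 1 - s) (Ioo 0 1) := by
    ext ⟨s, t⟩
    simp only [regionBetween, mem_ofPred_eq, mem_Ioo]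
    constructor
    · rintro ⟨h1, h2, h3⟩
      exact ⟨⟨h1, by linarith⟩, h2, by linarith⟩
    · rintro ⟨⟨h1, h2⟩, h3, h4⟩
      exact ⟨h1, h3, by linarith⟩
  rw [h1, Measure.volume_eq_prod, volume_regionBetween_eq_integral]
  · congr 1
    have : ∫ y in Ioo (0 : ℝ) 1, ((fun s : ℝ => (1 - s : ℝ)) - (fun _ : ℝ => (0 : ℝ))) y
        = ∫ y in (0 : ℝ)..1, (1 - y) := by
      rw [intervalIntegral.integral_of_le (by norm_num), ← integral_Ioc_eq_integral_Ioo]
      simp
    rw [this]
    rw [intervalIntegral.integral_sub (by simp) (by simp)]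
    simp
    norm_num
  · exact integrableOn_const (by simp)
  · have : IntegrableOn (fun s : ℝ => 1 - s) (Icc 0 1) :=
      (Continuous.continuousOn (by fun_prop)).integrableOn_Icc
    exact this.mono_set Ioo_subset_Icc_self
  · exact measurableSet_Ioo
  · intro x hx
    linarith [hx.2]

lemma tri_area (a b c : ℝ × ℝ) :
    ENNReal.ofReal (|det (b - a) (c - a)| / 2) ≤ volume (convexHull ℝ {a, b, c}) := by
  set u := b - a with hu
  set v := c - a with hv
  set f := (Matrix.toLin (Module.Basis.finTwoProd ℝ) (Module.Basis.finTwoProd ℝ))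
    !![u.1, v.1; u.2, v.2] with hf
  have hdet : LinearMap.det f = det u v := by
    rw [hf, LinearMap.det_toLin, Matrix.det_fin_two_of, det]
    ring
  set T := {p : ℝ × ℝ | 0 < p.1 ∧ 0 < p.2 ∧ p.1 + p.2 < 1} with hT
  have hsub : (fun p => a + p) '' (f '' T) ⊆ convexHull ℝ {a, b, c} := by
    rintro _ ⟨_, ⟨⟨s, t⟩, ⟨h1, h2, h3⟩, rfl⟩, rfl⟩
    have hconv := convex_convexHull ℝ ({a, b, c} : Set (ℝ × ℝ))
    have ha : a ∈ convexHull ℝ ({a, b, c} : Set (ℝ × ℝ)) := subset_convexHull _ _ (by simp)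
    have hb : b ∈ convexHull ℝ ({a, b, c} : Set (ℝ × ℝ)) := subset_convexHull _ _ (by simp)
    have hc : c ∈ convexHull ℝ ({a, b, c} : Set (ℝ × ℝ)) := subset_convexHull _ _ (by simp)
    simp only at h1 h2 h3
    have hst : 0 < s + t := by linarith
    have hm : (s / (s + t)) • b + (t / (s + t)) • c ∈ convexHull ℝ ({a, b, c} : Set (ℝ × ℝ)) :=
      hconv hb hc (by positivity) (by positivity) (by field_simp)
    have hm2 : (1 - (s + t)) • a + (s + t) • ((s / (s + t)) • b + (t / (s + t)) • c) ∈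
        convexHull ℝ ({a, b, c} : Set (ℝ × ℝ)) :=
      hconv ha hm (by linarith) (by linarith) (by ring)
    have e : a + f (s, t) =
        (1 - (s + t)) • a + (s + t) • ((s / (s + t)) • b + (t / (s + t)) • c) := by
      rw [hf, Matrix.toLin_finTwoProd_apply]
      ext
      · simp [hu, hv]
        field_simp
        ring
      · simp [hu, hv]
        field_simp
        ring
    rw [← e] at hm2
    exact hm2
  refine le_trans ?_ (measure_mono hsub)
  have himg : (fun p => a + p) '' (f '' T) = (fun p => -a + p) ⁻¹' (f '' T) := by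
    ext p
    simp only [mem_image, mem_preimage]
    constructor
    · rintro ⟨q, hq, rfl⟩
      simpa using hq
    · intro h
      exact ⟨-a + p, h, by simp⟩
  rw [himg, measure_preimage_add, Measure.addHaar_image_linearMap, hdet, hT, vol_std,
    ← ENNReal.ofReal_mul (abs_nonneg _)]
  apply ENNReal.ofReal_le_ofReal
  linarith

lemma not_collinear_of_det {a b c : ℝ × ℝ} (h : det (b - a) (c - a) ≠ 0) :
    ¬ Collinear ℝ {a, b, c} := by
  intro hc
  rw [collinear_iff_exists_forall_eq_smul_vadd] at hc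
  obtain ⟨p, v, hp⟩ := hc
  obtain ⟨r1, h1⟩ := hp a (by simp)
  obtain ⟨r2, h2⟩ := hp b (by simp)
  obtain ⟨r3, h3⟩ := hp c (by simp)
  apply h
  rw [h1, h2, h3]
  simp [det]
  ring

/-- The measure of the rotated box. -/
lemma box_measure (z : ℝ × ℝ) (θ R w : ℝ) (hR : 0 ≤ R) :
    volume {y : ℝ × ℝ | 0 ≤ Real.cos θ * (y - z).1 + Real.sin θ * (y - z).2 ∧
      Real.cos θ * (y - z).1 + Real.sin θ * (y - z).2 ≤ R ∧
      |det (Real.cos θ, Real.sin θ) (y - z)| ≤ w} ≤ ENNReal.ofReal (R * (2 * w)) := by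
  set f := (Matrix.toLin (Module.Basis.finTwoProd ℝ) (Module.Basis.finTwoProd ℝ))
    !![Real.cos θ, Real.sin θ; -Real.sin θ, Real.cos θ] with hf
  have hdet : LinearMap.det f = 1 := by
    rw [hf, LinearMap.det_toLin, Matrix.det_fin_two_of]
    have := Real.cos_sq_add_sin_sq θ
    nlinarith
  have hset : {y : ℝ × ℝ | 0 ≤ Real.cos θ * (y - z).1 + Real.sin θ * (y - z).2 ∧
      Real.cos θ * (y - z).1 + Real.sin θ * (y - z).2 ≤ R ∧
      |det (Real.cos θ, Real.sin θ) (y - z)| ≤ w} =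
      (fun y => -z + y) ⁻¹' (f ⁻¹' (Icc 0 R ×ˢ Icc (-w) w)) := by
    ext y
    simp only [mem_ofPred_eq, mem_preimage, hf, Matrix.toLin_finTwoProd_apply, mem_prod, mem_Icc,
      abs_le, det]
    have e : -z + y = y - z := by abel
    rw [e]
    constructor
    · rintro ⟨h1, h2, h3, h4⟩
      exact ⟨⟨h1, h2⟩, by linarith, by linarith⟩
    · rintro ⟨⟨h1, h2⟩, h3, h4⟩
      exact ⟨h1, h2, by linarith, by linarith⟩
  rw [hset, measure_preimage_add, Measure.addHaar_preimage_linearMap _ (by rw [hdet]; norm_num),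
    hdet, Measure.volume_eq_prod, Measure.prod_prod, Real.volume_Icc, Real.volume_Icc]
  rw [← ENNReal.ofReal_mul (by linarith)]
  simp only [inv_one, abs_one, ENNReal.ofReal_one, one_mul]
  apply ENNReal.ofReal_le_ofReal
  apply le_of_eq
  ring

end Pool.Agent.V11167.BeerA
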