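import Pool.Agent.V11167.BeerA

/-! Ray bound for the Beer index triangle theorem. -/

namespace Pool.Agent.V11167.BeerB

open MeasureTheory Set Pool.Agent.V11167.BeerA

/-- Pairs of points of `S` whose connecting segment lies in `S`. -/
def Seg (S : Set (ℝ × ℝ)) : Set ((ℝ × ℝ) × (ℝ × ℝ)) :=
  {p | p.1 ∈ S ∧ p.2 ∈ S ∧ segment ℝ p.1 p.2 ⊆ S}

/-- squared Euclidean length -/
def q (u : ℝ × ℝ) : ℝ := u.1 ^ 2 + u.2 ^ 2

/-- point on the ray from `z` in direction `θ` -/
noncomputable def ray (z : ℝ × ℝ) (θ r : ℝ) : ℝ × ℝ := (z.1 + r * Real.cos θ, z.2 + r * Real.sin θ)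

/-- No large triangle has its boundary in `S`. -/
def NoTri (S : Set (ℝ × ℝ)) (D : ℝ) : Prop :=
  ∀ a b c : ℝ × ℝ, ¬ Collinear ℝ {a, b, c} → segment ℝ a b ⊆ S → segment ℝ b c ⊆ S →
    segment ℝ c a ⊆ S → volume (convexHull ℝ {a, b, c}) < ENNReal.ofReal D

/-- triples `(x, z1, z2)` -/
def Tr (F : Set ((ℝ × ℝ) × (ℝ × ℝ))) : Set ((ℝ × ℝ) × ((ℝ × ℝ) × (ℝ × ℝ))) :=
  {t | (t.1, t.2.1) ∈ F ∧ (t.1, t.2.2) ∈ F ∧ q (t.2.2 - t.1) ≤ q (t.2.1 - t.1)}

lemma ray_mem_segment (z : ℝ × ℝ) (θ : ℝ) {r r' : ℝ} (h0 : 0 ≤ r) (h : r ≤ r') :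
    ray z θ r ∈ segment ℝ (ray z θ r') z := by
  rcases eq_or_lt_of_le (h0.trans h) with h1 | h1
  · have : r = 0 := by linarith
    have h' : ray z θ r = z := by simp [ray, this]
    rw [h']
    exact right_mem_segment _ _ _
  · refine ⟨r / r', 1 - r / r', by positivity, ?_, by ring, ?_⟩
    · rw [sub_nonneg, div_le_one h1]; exact h
    · ext
      · simp [ray]
        field_simp
        ring
      · simp [ray]
        field_simp
        ring

/-- Two points on a ray seeing a common point cannot be far apart. -/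
lemma pair_bound {S : Set (ℝ × ℝ)} {D : ℝ} (hno : NoTri S D) {z1 z2 : ℝ × ℝ}
    {θ r1 r2 : ℝ} (h0 : 0 < r1) (h12 : r1 ≤ r2)
    (s1 : (ray z1 θ r2, z1) ∈ Seg S) (s2 : (ray z1 θ r1, z2) ∈ Seg S)
    (s3 : (ray z1 θ r2, z2) ∈ Seg S) :
    (r2 - r1) * |det (Real.cos θ, Real.sin θ) (z2 - z1)| ≤ 2 * D ∨
    (r2 - r1) * |det (Real.cos θ, Real.sin θ) (z2 - z1)| = 0 := by
  by_contra hcon
  push Not at hcon
  obtain ⟨h1, h2⟩ := hcon
  set a := ray z1 θ r1 with ha
  set b := ray z1 θ r2 with hb
  have hdet : det (b - a) (z2 - a) = (r2 - r1) * det (Real.cos θ, Real.sin θ) (z2 - z1) := by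
    rw [ha, hb]
    simp only [det, ray, Prod.fst_sub, Prod.snd_sub]
    ring
  have habs : |det (b - a) (z2 - a)| =
      (r2 - r1) * |det (Real.cos θ, Real.sin θ) (z2 - z1)| := by
    rw [hdet, abs_mul, abs_of_nonneg (by linarith)]
  have hnc : ¬ Collinear ℝ {a, b, z2} := by
    apply not_collinear_of_det
    intro h
    rw [h, abs_zero] at habs
    exact h2 habs.symm
  have hseg : segment ℝ a b ⊆ S := by
    refine subset_trans ?_ s1.2.2
    have m1 : a ∈ segment ℝ b z1 := ray_mem_segment z1 θ h0.le h12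
    have m2 : b ∈ segment ℝ b z1 := left_mem_segment _ _ _
    exact (convex_segment b z1).segment_subset m1 m2
  have h3 := hno a b z2 hnc hseg s3.2.2 (by rw [segment_symm]; exact s2.2.2)
  have h4 := tri_area a b z2
  rw [habs] at h4
  have h5 := lt_of_le_of_lt h4 h3
  have h6 : (r2 - r1) * |det (Real.cos θ, Real.sin θ) (z2 - z1)| / 2 < D := by
    have hpos : 0 ≤ (r2 - r1) * |det (Real.cos θ, Real.sin θ) (z2 - z1)| / 2 := by
      have : 0 ≤ r2 - r1 := by linarith
      positivity
    exact (ENNReal.ofReal_lt_ofReal_iff_of_nonneg hpos).1 h5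
  linarith

lemma measurableSet_Tr {F : Set ((ℝ × ℝ) × (ℝ × ℝ))} (hF : MeasurableSet F) :
    MeasurableSet (Tr F) := by
  unfold Tr q
  refine MeasurableSet.inter ?_ (MeasurableSet.inter ?_ ?_)
  · exact hF.preimage (by fun_prop)
  · exact hF.preimage (by fun_prop)
  · have m1 : Measurable fun t : (ℝ × ℝ) × ((ℝ × ℝ) × (ℝ × ℝ)) =>
        (t.2.2 - t.1).1 ^ 2 + (t.2.2 - t.1).2 ^ 2 := by fun_prop
    have m2 : Measurable fun t : (ℝ × ℝ) × ((ℝ × ℝ) × (ℝ × ℝ)) =>
        (t.2.1 - t.1).1 ^ 2 + (t.2.1 - t.1).2 ^ 2 := by fun_prop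
    exact measurableSet_le m1 m2

/-- The bound of the integral over one ray. -/
lemma ray_bound {S : Set (ℝ × ℝ)} {D A : ℝ} (hD : 0 < D) (hA : 0 < A)
    (hSA : volume S ≤ ENNReal.ofReal A) (hno : NoTri S D)
    {F G : Set ((ℝ × ℝ) × (ℝ × ℝ))} (hF : MeasurableSet F)
    (hFS : F ⊆ Seg S) (hSG : Seg S ⊆ G) (z1 : ℝ × ℝ) (θ : ℝ) :
    ∫⁻ r in Ioi (0 : ℝ), ENNReal.ofReal r * volume {z2 | (ray z1 θ r, (z1, z2)) ∈ Tr F} ≤
      ENNReal.ofReal (8 * Real.sqrt (D * A)) *
        ∫⁻ r in Ioi (0 : ℝ), ENNReal.ofReal r * (G.indicator 1 (ray z1 θ r, z1)) := by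
  -- the set of good radii
  set R0 : Set ℝ := {r | 0 < r ∧ (ray z1 θ r, z1) ∈ F} with hR0
  have hs : 0 < Real.sqrt (D * A) := Real.sqrt_pos.2 (by positivity)
  set η := Real.sqrt (D * A) with hη
  have hη2 : η ^ 2 = D * A := Real.sq_sqrt (by positivity)
  -- lower bound for the right-hand side
  have hlow : ∀ r0 ∈ R0, ENNReal.ofReal (r0 ^ 2 / 2) ≤
      ∫⁻ r in Ioi (0 : ℝ), ENNReal.ofReal r * (G.indicator 1 (ray z1 θ r, z1)) := by
    intro r0 hr0
    have h1 : ∫⁻ r in Ioc 0 r0, ENNReal.ofReal r = ENNReal.ofReal (r0 ^ 2 / 2) := by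
      rw [← ofReal_integral_eq_lintegral_ofReal]
      · rw [← intervalIntegral.integral_of_le hr0.1.le, integral_id]
        congr 1
        ring
      · exact (continuous_id.integrableOn_Icc (a := 0) (b := r0)).mono_set Ioc_subset_Icc_self
      · refine (ae_restrict_iff' measurableSet_Ioc).2 (ae_of_all _ ?_)
        intro x hx
        exact hx.1.le
    rw [← h1]
    calc ∫⁻ r in Ioc 0 r0, ENNReal.ofReal r
        ≤ ∫⁻ r in Ioc 0 r0, ENNReal.ofReal r * (G.indicator 1 (ray z1 θ r, z1)) := by
          refine setLIntegral_mono' measurableSet_Ioc ?_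
          intro r hr
          have hmem : (ray z1 θ r, z1) ∈ G := by
            apply hSG
            have h2 := hFS hr0.2
            have h3 := h2.2.2
            have m1 : ray z1 θ r ∈ segment ℝ (ray z1 θ r0) z1 :=
              ray_mem_segment z1 θ hr.1.le hr.2
            refine ⟨h3 m1, h2.2.1, ?_⟩
            exact ((convex_segment _ _).segment_subset m1 (right_mem_segment _ _ _)).trans h3
          rw [indicator_of_mem hmem]
          simp
      _ ≤ _ := lintegral_mono_set Ioc_subset_Ioi_self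
  by_cases hemp : R0 = ∅
  · have : ∀ r ∈ Ioi (0 : ℝ), ENNReal.ofReal r *
        volume {z2 | (ray z1 θ r, (z1, z2)) ∈ Tr F} = 0 := by
      intro r hr
      have : {z2 | (ray z1 θ r, (z1, z2)) ∈ Tr F} = ∅ := by
        ext z2
        simp only [mem_ofPred_eq, mem_empty_iff_false, iff_false]
        intro h
        have : r ∈ R0 := ⟨hr, h.1⟩
        rw [hemp] at this
        exact this
      rw [this]; simp
    rw [setLIntegral_congr_fun measurableSet_Ioi this]
    simp
  have hne : R0.Nonempty := nonempty_iff_ne_empty.2 hemp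
  by_cases hbd : BddAbove R0
  swap
  · -- infinite right-hand side
    have htop : ∫⁻ r in Ioi (0 : ℝ), ENNReal.ofReal r * (G.indicator 1 (ray z1 θ r, z1)) = ⊤ := by
      refine ENNReal.eq_top_of_forall_nnreal_le ?_
      intro c
      rw [not_bddAbove_iff] at hbd
      obtain ⟨r, hr, hrc⟩ := hbd (2 + 2 * (c : ℝ))
      refine le_trans ?_ (hlow r hr)
      rw [← ENNReal.ofReal_coe_nnreal]
      apply ENNReal.ofReal_le_ofReal
      have : (0 : ℝ) ≤ c := c.2
      nlinarith
    rw [htop, ENNReal.mul_top (by simp; positivity)]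
    exact le_top
  set R := sSup R0 with hRdef
  have hRpos : 0 < R := by
    obtain ⟨r, hr⟩ := hne
    exact lt_of_lt_of_le hr.1 (le_csSup hbd hr)
  have hK : ENNReal.ofReal (R ^ 2 / 2) ≤
      ∫⁻ r in Ioi (0 : ℝ), ENNReal.ofReal r * (G.indicator 1 (ray z1 θ r, z1)) := by
    by_contra hcon
    push Not at hcon
    have hfin := hcon.ne_top
    set K := ∫⁻ r in Ioi (0 : ℝ), ENNReal.ofReal r * (G.indicator 1 (ray z1 θ r, z1))
    have h1 : K.toReal < R ^ 2 / 2 := by
      rw [← ENNReal.ofReal_toReal hfin] at hcon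
      exact (ENNReal.ofReal_lt_ofReal_iff (by positivity)).1 hcon
    have h2 : Real.sqrt (2 * K.toReal) < R := by
      rw [Real.sqrt_lt' hRpos]
      linarith
    obtain ⟨r, hr, hr2⟩ := exists_lt_of_lt_csSup hne h2
    have h3 := hlow r hr
    have h4 : r ^ 2 / 2 ≤ K.toReal := by
      rw [← ENNReal.ofReal_toReal hfin] at h3
      exact (ENNReal.ofReal_le_ofReal_iff ENNReal.toReal_nonneg).1 h3
    have h5 : 2 * K.toReal < r ^ 2 := by
      rw [Real.sqrt_lt' hr.1] at hr2
      exact hr2
    linarith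
  -- rewrite the left-hand side
  set E : Set (ℝ × (ℝ × ℝ)) := {p | (ray z1 θ p.1, (z1, p.2)) ∈ Tr F} with hE
  have hEm : MeasurableSet E := by
    refine (measurableSet_Tr hF).preimage ?_
    unfold ray
    fun_prop
  have hleft : ∫⁻ r in Ioi (0 : ℝ), ENNReal.ofReal r *
        volume {z2 | (ray z1 θ r, (z1, z2)) ∈ Tr F} =
      ∫⁻ z2 : ℝ × ℝ, ∫⁻ r in Ioi (0 : ℝ), ENNReal.ofReal r * E.indicator 1 (r, z2) := by
    have h1 : ∀ r : ℝ, ENNReal.ofReal r * volume {z2 | (ray z1 θ r, (z1, z2)) ∈ Tr F} =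
        ∫⁻ z2 : ℝ × ℝ, ENNReal.ofReal r * E.indicator 1 (r, z2) := by
      intro r
      have hm : Measurable fun z2 : ℝ × ℝ => E.indicator (1 : ℝ × (ℝ × ℝ) → ENNReal) (r, z2) :=
        (measurable_one.indicator hEm).comp measurable_prodMk_left
      rw [lintegral_const_mul _ hm]
      congr 1
      have : (fun z2 : ℝ × ℝ => E.indicator (1 : ℝ × (ℝ × ℝ) → ENNReal) (r, z2)) =
          {z2 | (ray z1 θ r, (z1, z2)) ∈ Tr F}.indicator 1 := by
        ext z2
        by_cases h : (ray z1 θ r, (z1, z2)) ∈ Tr F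
        · rw [indicator_of_mem (show (r, z2) ∈ E from h), indicator_of_mem
            (show z2 ∈ {z2 | (ray z1 θ r, (z1, z2)) ∈ Tr F} from h)]
          rfl
        · rw [indicator_of_notMem (show (r, z2) ∉ E from h), indicator_of_notMem
            (show z2 ∉ {z2 | (ray z1 θ r, (z1, z2)) ∈ Tr F} from h)]
      rw [this, lintegral_indicator_one]
      exact hEm.preimage measurable_prodMk_left
    simp_rw [h1]
    apply lintegral_lintegral_swap
    refine Measurable.aemeasurable ?_
    refine Measurable.mul ?_ ?_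
    · exact ENNReal.measurable_ofReal.comp measurable_fst
    · exact measurable_one.indicator hEm
  rw [hleft]
  -- pointwise bound
  set S' := toMeasurable volume S with hS'
  set box : Set (ℝ × ℝ) := {y : ℝ × ℝ | 0 ≤ Real.cos θ * (y - z1).1 + Real.sin θ * (y - z1).2 ∧
      Real.cos θ * (y - z1).1 + Real.sin θ * (y - z1).2 ≤ 2 * R ∧
      |det (Real.cos θ, Real.sin θ) (y - z1)| ≤ η / R} with hbox
  have hpt : ∀ z2 : ℝ × ℝ, ∫⁻ r in Ioi (0 : ℝ), ENNReal.ofReal r * E.indicator 1 (r, z2) ≤
      ENNReal.ofReal (R ^ 2 / 2) * box.indicator 1 z2 +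
      ENNReal.ofReal (2 * D * R ^ 2 / η) * S'.indicator 1 z2 := by
    intro z2
    set T : Set ℝ := {r | 0 < r ∧ (r, z2) ∈ E} with hT
    have hTR : ∀ r ∈ T, r ≤ R := fun r hr => le_csSup hbd ⟨hr.1, hr.2.1⟩
    by_cases hTe : T = ∅
    · have : ∀ r ∈ Ioi (0 : ℝ), ENNReal.ofReal r *
          E.indicator (1 : ℝ × (ℝ × ℝ) → ENNReal) (r, z2) = 0 := by
        intro r hr
        have : (r, z2) ∉ E := by
          intro h
          have : r ∈ T := ⟨hr, h⟩
          rw [hTe] at this
          exact this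
        rw [indicator_of_notMem this, mul_zero]
      rw [setLIntegral_congr_fun measurableSet_Ioi this]
      simp
    obtain ⟨r1, hr1⟩ := nonempty_iff_ne_empty.2 hTe
    have hz2S : z2 ∈ S' := subset_toMeasurable _ _ (hFS hr1.2.2.1).2.1
    have hsplit : ∫⁻ r in Ioi (0 : ℝ), ENNReal.ofReal r * E.indicator 1 (r, z2) =
        ∫⁻ r in T, ENNReal.ofReal r := by
      have hTm : MeasurableSet T := by
        refine MeasurableSet.inter measurableSet_Ioi ?_
        exact hEm.preimage (measurable_prodMk_right (y := z2))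
      rw [← lintegral_indicator measurableSet_Ioi, ← lintegral_indicator hTm]
      congr 1
      ext r
      by_cases h0 : 0 < r
      · rw [indicator_of_mem (show r ∈ Ioi (0 : ℝ) from h0)]
        by_cases h1 : (r, z2) ∈ E
        · rw [indicator_of_mem h1, indicator_of_mem (show r ∈ T from ⟨h0, h1⟩)]
          simp
        · rw [indicator_of_notMem h1, indicator_of_notMem (show r ∉ T from fun h => h1 h.2)]
          simp
      · rw [indicator_of_notMem (show r ∉ Ioi (0 : ℝ) from h0),
          indicator_of_notMem (show r ∉ T from fun h => h0 h.1)]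
    rw [hsplit]
    by_cases hh : |det (Real.cos θ, Real.sin θ) (z2 - z1)| ≤ η / R
    · -- z2 in the box
      have hzb : z2 ∈ box := by
        have hq : q (z2 - ray z1 θ r1) ≤ q (z1 - ray z1 θ r1) := hr1.2.2.2
        have hR1 := hTR r1 hr1
        have hcs := Real.cos_sq_add_sin_sq θ
        have hr1p := hr1.1
        simp only [q, ray, Prod.fst_sub, Prod.snd_sub] at hq
        set c := Real.cos θ
        set s := Real.sin θ
        set X := z2.1 - z1.1 with hX
        set Y := z2.2 - z1.2 with hY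
        have hq' : (X - r1 * c) ^ 2 + (Y - r1 * s) ^ 2 ≤ r1 ^ 2 := by
          have e1 : z2.1 - (z1.1 + r1 * c) = X - r1 * c := by rw [hX]; ring
          have e2 : z2.2 - (z1.2 + r1 * s) = Y - r1 * s := by rw [hY]; ring
          have e3 : (z1.1 - (z1.1 + r1 * c)) ^ 2 + (z1.2 - (z1.2 + r1 * s)) ^ 2 = r1 ^ 2 := by
            have : (z1.1 - (z1.1 + r1 * c)) ^ 2 + (z1.2 - (z1.2 + r1 * s)) ^ 2 =
              r1 ^ 2 * (c ^ 2 + s ^ 2) := by ring
            rw [this, hcs, mul_one]
          rw [e1, e2, e3] at hq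
          exact hq
        have hid : (c * X + s * Y - r1) ^ 2 + (c * Y - s * X) ^ 2 =
            (X - r1 * c) ^ 2 + (Y - r1 * s) ^ 2 := by
          have : (c * X + s * Y - r1) ^ 2 + (c * Y - s * X) ^ 2 =
            (c ^ 2 + s ^ 2) * (X ^ 2 + Y ^ 2) - 2 * r1 * (c * X + s * Y) + r1 ^ 2 := by ring
          rw [this, hcs]
          have : (X - r1 * c) ^ 2 + (Y - r1 * s) ^ 2 =
            (X ^ 2 + Y ^ 2) - 2 * r1 * (c * X + s * Y) + r1 ^ 2 * (c ^ 2 + s ^ 2) := by ring
          rw [this, hcs]
          ring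
        have hsq : (c * X + s * Y - r1) ^ 2 ≤ r1 ^ 2 := by
          nlinarith [sq_nonneg (c * Y - s * X)]
        have habs := abs_le_of_sq_le_sq hsq hr1p.le
        rw [abs_le] at habs
        refine ⟨?_, ?_, hh⟩
        · simp only [Prod.fst_sub, Prod.snd_sub]
          linarith [habs.1]
        · simp only [Prod.fst_sub, Prod.snd_sub]
          linarith [habs.2]
      rw [indicator_of_mem hzb]
      refine le_trans ?_ le_self_add
      have h1 : T ⊆ Ioc 0 R := fun r hr => ⟨hr.1, hTR r hr⟩
      refine (lintegral_mono_set h1).trans ?_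
      rw [← ofReal_integral_eq_lintegral_ofReal]
      · rw [← intervalIntegral.integral_of_le hRpos.le, integral_id]
        simp
      · exact (continuous_id.integrableOn_Icc (a := 0) (b := R)).mono_set Ioc_subset_Icc_self
      · refine (ae_restrict_iff' measurableSet_Ioc).2 (ae_of_all _ ?_)
        intro x hx
        exact hx.1.le
    · push Not at hh
      rw [indicator_of_mem hz2S]
      refine le_trans ?_ le_add_self
      simp only [Pi.one_apply, mul_one]
      have hhpos : 0 < |det (Real.cos θ, Real.sin θ) (z2 - z1)| :=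
        lt_trans (by positivity) hh
      have hdist : ∀ a ∈ T, ∀ b ∈ T, dist a b ≤ 2 * D * R / η := by
        have aux : ∀ a ∈ T, ∀ b ∈ T, a ≤ b → b - a ≤ 2 * D * R / η := by
          intro a ha b hb hab
          have hb2 := hFS hb.2.1
          have h1 := pair_bound hno ha.1 hab (hFS hb.2.1) (hFS ha.2.2.1) (hFS hb.2.2.1)
          have h2 : (b - a) * |det (Real.cos θ, Real.sin θ) (z2 - z1)| ≤ 2 * D := by
            rcases h1 with h | h
            · exact h
            · rw [h]; positivity
          have h3 : (b - a) * (η / R) ≤ 2 * D := by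
            refine le_trans ?_ h2
            exact mul_le_mul_of_nonneg_left hh.le (by linarith)
          rw [le_div_iff₀ hs]
          have : (b - a) * (η / R) * R ≤ 2 * D * R := mul_le_mul_of_nonneg_right h3 hRpos.le
          have e : (b - a) * (η / R) * R = (b - a) * η := by field_simp
          rw [e] at this
          exact this
        intro a ha b hb
        rcases le_total a b with h | h
        · rw [Real.dist_eq, abs_sub_comm, abs_of_nonneg (by linarith)]
          exact aux a ha b hb h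
        · rw [Real.dist_eq, abs_of_nonneg (by linarith)]
          exact aux b hb a ha h
      have hvol : volume T ≤ ENNReal.ofReal (2 * D * R / η) := by
        refine (Real.volume_le_diam T).trans ?_
        refine Metric.ediam_le ?_
        intro a ha b hb
        rw [edist_dist]
        exact ENNReal.ofReal_le_ofReal (hdist a ha b hb)
      calc ∫⁻ r in T, ENNReal.ofReal r ≤ ∫⁻ _ in T, ENNReal.ofReal R := by
            refine lintegral_mono_ae ?_
            have hTm : MeasurableSet T := by
              refine MeasurableSet.inter measurableSet_Ioi ?_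
              exact hEm.preimage (measurable_prodMk_right (y := z2))
            refine (ae_restrict_iff' hTm).2 (ae_of_all _ ?_)
            intro r hr
            exact ENNReal.ofReal_le_ofReal (hTR r hr)
        _ = ENNReal.ofReal R * volume T := by
            rw [setLIntegral_const]
        _ ≤ ENNReal.ofReal R * ENNReal.ofReal (2 * D * R / η) := by gcongr
        _ = ENNReal.ofReal (2 * D * R ^ 2 / η) := by
            rw [← ENNReal.ofReal_mul hRpos.le]
            congr 1
            ring
  refine (lintegral_mono hpt).trans ?_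
  have hboxm : MeasurableSet box := by
    rw [hbox]
    have m1 : Measurable fun y : ℝ × ℝ =>
        Real.cos θ * (y - z1).1 + Real.sin θ * (y - z1).2 := by fun_prop
    have m2 : Measurable fun y : ℝ × ℝ => |det (Real.cos θ, Real.sin θ) (y - z1)| := by
      unfold det
      fun_prop
    exact (measurableSet_le measurable_const m1).inter
      ((measurableSet_le m1 measurable_const).inter (measurableSet_le m2 measurable_const))
  rw [lintegral_add_left ((measurable_one.indicator hboxm).const_mul _),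
    lintegral_const_mul _ (measurable_one.indicator hboxm),
    lintegral_const_mul _ (measurable_one.indicator (measurableSet_toMeasurable _ _)),
    lintegral_indicator_one hboxm, lintegral_indicator_one (measurableSet_toMeasurable _ _),
    measure_toMeasurable]
  have hb1 : volume box ≤ ENNReal.ofReal (4 * η) := by
    refine (box_measure z1 θ (2 * R) (η / R) (by positivity)).trans ?_
    apply ENNReal.ofReal_le_ofReal
    apply le_of_eq
    field_simp
    ring
  calc ENNReal.ofReal (R ^ 2 / 2) * volume box + ENNReal.ofReal (2 * D * R ^ 2 / η) * volume S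
      ≤ ENNReal.ofReal (R ^ 2 / 2) * ENNReal.ofReal (4 * η) +
        ENNReal.ofReal (2 * D * R ^ 2 / η) * ENNReal.ofReal A := by gcongr
    _ = ENNReal.ofReal (8 * η) * ENNReal.ofReal (R ^ 2 / 2) := by
        rw [← ENNReal.ofReal_mul (by positivity), ← ENNReal.ofReal_mul (by positivity),
          ← ENNReal.ofReal_mul (by positivity), ← ENNReal.ofReal_add (by positivity) (by positivity)]
        congr 1
        have : 2 * D * R ^ 2 / η * A = 2 * η * R ^ 2 := by
          rw [div_mul_eq_mul_div, div_eq_iff hs.ne']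
          have : 2 * D * R ^ 2 * A = 2 * R ^ 2 * (D * A) := by ring
          rw [this, ← hη2]
          ring
        rw [this]
        ring
    _ ≤ _ := by gcongr

end Pool.Agent.V11167.BeerB
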