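import Mathlib

/-! Two planar sets such that no disc or half-plane contains exactly one third of both
(for MP_ced1be_co). -/

namespace Pool.Agent.V11167.Ced

open MeasureTheory Set

/-! ### interval arithmetic over the integers -/

def mem (x : ℝ) (I : ℤ × ℤ) : Prop := (I.1 : ℝ) ≤ x ∧ x ≤ (I.2 : ℝ)

def iadd (I J : ℤ × ℤ) : ℤ × ℤ := (I.1 + J.1, I.2 + J.2)
def isub (I J : ℤ × ℤ) : ℤ × ℤ := (I.1 - J.2, I.2 - J.1)
def imul (I J : ℤ × ℤ) : ℤ × ℤ :=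
  (min (min (I.1 * J.1) (I.1 * J.2)) (min (I.2 * J.1) (I.2 * J.2)),
   max (max (I.1 * J.1) (I.1 * J.2)) (max (I.2 * J.1) (I.2 * J.2)))

lemma mem_add {x y : ℝ} {I J : ℤ × ℤ} (hx : mem x I) (hy : mem y J) : mem (x + y) (iadd I J) := by
  unfold mem iadd at *
  push_cast
  constructor <;> linarith [hx.1, hx.2, hy.1, hy.2]

lemma mem_sub {x y : ℝ} {I J : ℤ × ℤ} (hx : mem x I) (hy : mem y J) : mem (x - y) (isub I J) := by
  unfold mem isub at *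
  push_cast
  constructor <;> linarith [hx.1, hx.2, hy.1, hy.2]

lemma mem_mul {x y : ℝ} {I J : ℤ × ℤ} (hx : mem x I) (hy : mem y J) : mem (x * y) (imul I J) := by
  obtain ⟨a, b⟩ := I
  obtain ⟨c, d⟩ := J
  unfold mem imul at *
  simp only at hx hy ⊢
  obtain ⟨hx1, hx2⟩ := hx
  obtain ⟨hy1, hy2⟩ := hy
  push_cast
  simp only [min_le_iff, le_max_iff]
  constructor
  · rcases le_total 0 x with h | h
    · have h1 : x * c ≤ x * y := mul_le_mul_of_nonneg_left hy1 h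
      rcases le_total 0 (c : ℝ) with h2 | h2
      · have h3 : (a : ℝ) * c ≤ x * c := mul_le_mul_of_nonneg_right hx1 h2
        exact Or.inl (Or.inl (h3.trans h1))
      · have h3 : (b : ℝ) * c ≤ x * c := mul_le_mul_of_nonpos_right hx2 h2
        exact Or.inr (Or.inl (h3.trans h1))
    · have h1 : x * d ≤ x * y := mul_le_mul_of_nonpos_left hy2 h
      rcases le_total 0 (d : ℝ) with h2 | h2
      · have h3 : (a : ℝ) * d ≤ x * d := mul_le_mul_of_nonneg_right hx1 h2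
        exact Or.inl (Or.inr (h3.trans h1))
      · have h3 : (b : ℝ) * d ≤ x * d := mul_le_mul_of_nonpos_right hx2 h2
        exact Or.inr (Or.inr (h3.trans h1))
  · rcases le_total 0 x with h | h
    · have h1 : x * y ≤ x * d := mul_le_mul_of_nonneg_left hy2 h
      rcases le_total 0 (d : ℝ) with h2 | h2
      · have h3 : x * d ≤ (b : ℝ) * d := mul_le_mul_of_nonneg_right hx2 h2
        exact Or.inr (Or.inr (h1.trans h3))
      · have h3 : x * d ≤ (a : ℝ) * d := mul_le_mul_of_nonpos_right hx1 h2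
        exact Or.inl (Or.inr (h1.trans h3))
    · have h1 : x * y ≤ x * c := mul_le_mul_of_nonpos_left hy1 h
      rcases le_total 0 (c : ℝ) with h2 | h2
      · have h3 : x * c ≤ (b : ℝ) * c := mul_le_mul_of_nonneg_right hx2 h2
        exact Or.inr (Or.inl (h1.trans h3))
      · have h3 : x * c ≤ (a : ℝ) * c := mul_le_mul_of_nonpos_right hx1 h2
        exact Or.inl (Or.inl (h1.trans h3))

abbrev IPt : Type := (ℤ × ℤ) × (ℤ × ℤ)

def memP (z : ℝ × ℝ) (p : IPt) : Prop := mem z.1 p.1 ∧ mem z.2 p.2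

def iorient (a b c : IPt) : ℤ × ℤ :=
  isub (imul (isub b.1 a.1) (isub c.2 a.2)) (imul (isub b.2 a.2) (isub c.1 a.1))

def orient (a b c : ℝ × ℝ) : ℝ :=
  (b.1 - a.1) * (c.2 - a.2) - (b.2 - a.2) * (c.1 - a.1)

def isq (a b : IPt) : ℤ × ℤ :=
  iadd (imul (isub a.1 b.1) (isub a.1 b.1)) (imul (isub a.2 b.2) (isub a.2 b.2))

def sq (a b : ℝ × ℝ) : ℝ := (a.1 - b.1) * (a.1 - b.1) + (a.2 - b.2) * (a.2 - b.2)

lemma mem_orient {a b c : ℝ × ℝ} {A B C : IPt} (ha : memP a A) (hb : memP b B) (hc : memP c C) :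
    mem (orient a b c) (iorient A B C) :=
  mem_sub (mem_mul (mem_sub hb.1 ha.1) (mem_sub hc.2 ha.2))
    (mem_mul (mem_sub hb.2 ha.2) (mem_sub hc.1 ha.1))

lemma mem_sq {a b : ℝ × ℝ} {A B : IPt} (ha : memP a A) (hb : memP b B) :
    mem (sq a b) (isq A B) :=
  mem_add (mem_mul (mem_sub ha.1 hb.1) (mem_sub ha.1 hb.1))
    (mem_mul (mem_sub ha.2 hb.2) (mem_sub ha.2 hb.2))

/-- `t₁, s₁, t₂, s₂` is a convex quadrilateral in counterclockwise order and no disc contains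
`t₁, t₂` while missing `s₁, s₂` -/
def chk (t₁ t₂ s₁ s₂ : IPt) : Bool :=
  decide (0 < (iorient s₁ t₂ s₂).1) && decide (0 < (iorient t₁ s₁ s₂).1) &&
  decide (0 < (iorient t₁ t₂ s₂).1) && decide (0 < (iorient t₁ s₁ t₂).1) &&
  decide (0 ≤ (isub (iadd (imul (iorient s₁ t₂ s₂) (isq t₁ s₁))
    (imul (iorient t₁ s₁ s₂) (isq t₂ s₁))) (imul (iorient t₁ s₁ t₂) (isq s₂ s₁))).1)

/-- the quadratic functions describing discs and half-planes -/
def F (κ α β γ : ℝ) (z : ℝ × ℝ) : ℝ := κ * (z.1 * z.1 + z.2 * z.2) + α * z.1 + β * z.2 + γ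

lemma chk_sound {T₁ T₂ S₁ S₂ : IPt} (h : chk T₁ T₂ S₁ S₂ = true) {t₁ t₂ s₁ s₂ : ℝ × ℝ}
    (ht₁ : memP t₁ T₁) (ht₂ : memP t₂ T₂) (hs₁ : memP s₁ S₁) (hs₂ : memP s₂ S₂)
    {κ α β γ : ℝ} (hκ : 0 ≤ κ) (h1 : F κ α β γ t₁ < 0) (h2 : F κ α β γ t₂ < 0)
    (h3 : 0 ≤ F κ α β γ s₁) (h4 : 0 ≤ F κ α β γ s₂) : False := by
  unfold chk at h
  simp only [Bool.and_eq_true, decide_eq_true_eq] at h
  obtain ⟨⟨⟨⟨c1, c2⟩, c3⟩, c4⟩, c5⟩ := h
  have e1 : 0 < orient s₁ t₂ s₂ := lt_of_lt_of_le (by exact_mod_cast c1) (mem_orient hs₁ ht₂ hs₂).1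
  have e2 : 0 < orient t₁ s₁ s₂ := lt_of_lt_of_le (by exact_mod_cast c2) (mem_orient ht₁ hs₁ hs₂).1
  have e3 : 0 < orient t₁ t₂ s₂ := lt_of_lt_of_le (by exact_mod_cast c3) (mem_orient ht₁ ht₂ hs₂).1
  have e4 : 0 < orient t₁ s₁ t₂ := lt_of_lt_of_le (by exact_mod_cast c4) (mem_orient ht₁ hs₁ ht₂).1
  have e5 : 0 ≤ orient s₁ t₂ s₂ * sq t₁ s₁ + orient t₁ s₁ s₂ * sq t₂ s₁
      - orient t₁ s₁ t₂ * sq s₂ s₁ := by
    refine le_trans ?_ (mem_sub (mem_add (mem_mul (mem_orient hs₁ ht₂ hs₂) (mem_sq ht₁ hs₁))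
      (mem_mul (mem_orient ht₁ hs₁ hs₂) (mem_sq ht₂ hs₁)))
      (mem_mul (mem_orient ht₁ hs₁ ht₂) (mem_sq hs₂ hs₁))).1
    exact_mod_cast c5
  have key : orient s₁ t₂ s₂ * F κ α β γ t₁ + orient t₁ s₁ s₂ * F κ α β γ t₂
      - orient t₁ t₂ s₂ * F κ α β γ s₁ - orient t₁ s₁ t₂ * F κ α β γ s₂
      = κ * (orient s₁ t₂ s₂ * sq t₁ s₁ + orient t₁ s₁ s₂ * sq t₂ s₁
      - orient t₁ s₁ t₂ * sq s₂ s₁) := by
    unfold orient F sq
    ring
  have k1 : orient s₁ t₂ s₂ * F κ α β γ t₁ < 0 := mul_neg_of_pos_of_neg e1 h1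
  have k2 : orient t₁ s₁ s₂ * F κ α β γ t₂ < 0 := mul_neg_of_pos_of_neg e2 h2
  have k3 : 0 ≤ orient t₁ t₂ s₂ * F κ α β γ s₁ := mul_nonneg e3.le h3
  have k4 : 0 ≤ orient t₁ s₁ t₂ * F κ α β γ s₂ := mul_nonneg e4.le h4
  have k5 := mul_nonneg hκ e5
  linarith

/-! ### the configuration -/

def px : Fin 8 → ℤ := ![1000, 685, -30, -728, -1000, -685, 30, 728]
def py : Fin 8 → ℤ := ![30, 728, 1000, 685, -30, -728, -1000, -685]
def qx : Fin 13 → ℤ :=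
  ![2900, 2568, 1647, 350, -1028, -2171, -2816, -2816, -2171, -1028, 350, 1647, 2568]
def qy : Fin 13 → ℤ :=
  ![0, 1348, 2387, 2879, 2712, 1923, 694, -694, -1923, -2712, -2879, -2387, -1348]

def bP (i : Fin 8) : IPt := ((px i, px i + 1), (py i, py i + 1))
def bQ (j : Fin 13) : IPt := ((qx j, qx j + 1), (qy j, qy j + 1))
def bO : IPt := ((-1, 2), (-1, 1))

def g : Fin 13 → Fin 8 := ![7, 0, 1, 1, 2, 3, 3, 4, 4, 5, 6, 6, 7]
def h : Fin 13 → Fin 8 := ![1, 1, 2, 3, 3, 4, 4, 5, 6, 6, 7, 0, 0]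

lemma check_i : ∀ j : Fin 13, chk bO (bQ j) (bP (g j)) (bP (g j + 3)) = true ∧
    chk bO (bQ j) (bP (g j - 1)) (bP (g j + 2)) = true ∧
    chk bO (bQ j) (bP (g j - 2)) (bP (g j + 1)) = true := by
  decide +kernel

lemma check_ii : ∀ j : Fin 13, chk (bQ j) (bQ (j + 6)) (bP (h j)) bO = true ∧
    chk (bQ j) (bQ (j + 6)) (bP (h j + 1)) bO = true ∧
    chk (bQ j) (bQ (j + 6)) (bP (h j + 2)) bO = true := by
  decide +kernel

end Pool.Agent.V11167.Ced
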