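import Mathlib
import Pool.Agent.V11167.Ced

/-! Two planar sets such that no disc or half-plane contains exactly one third of both
(for MP_ced1be_co): the measure-theoretic part. -/

namespace Pool.Agent.V11167.Ced

open MeasureTheory Set

abbrev E2 : Type := EuclideanSpace ℝ (Fin 2)

def Box (p : IPt) : Set E2 :=
  {z | z 0 ∈ Ico (p.1.1 : ℝ) p.1.2 ∧ z 1 ∈ Ico (p.2.1 : ℝ) p.2.2}

def pt (z : E2) : ℝ × ℝ := (z 0, z 1)

lemma memP_of_mem {p : IPt} {z : E2} (hz : z ∈ Box p) : memP (pt z) p :=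
  ⟨⟨hz.1.1, hz.1.2.le⟩, ⟨hz.2.1, hz.2.2.le⟩⟩

lemma Box_eq (p : IPt) : Box p = (WithLp.ofLp : E2 → (Fin 2 → ℝ)) ⁻¹'
    (Set.pi univ fun i => Ico ((![(p.1.1 : ℝ), (p.2.1 : ℝ)] : Fin 2 → ℝ) i)
      ((![(p.1.2 : ℝ), (p.2.2 : ℝ)] : Fin 2 → ℝ) i)) := by
  ext z
  simp only [Box, mem_setOf_eq, mem_preimage, Set.mem_pi, mem_univ, true_implies, Fin.forall_fin_two,
    Matrix.cons_val_zero, Matrix.cons_val_one]

lemma meas_Box (p : IPt) : MeasurableSet (Box p) := by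
  rw [Box_eq]
  exact (PiLp.volume_preserving_ofLp (Fin 2)).measurable
    (MeasurableSet.univ_pi fun i => measurableSet_Ico)

lemma vol_Box (p : IPt) : volume (Box p) =
    ENNReal.ofReal ((p.1.2 : ℝ) - p.1.1) * ENNReal.ofReal ((p.2.2 : ℝ) - p.2.1) := by
  rw [Box_eq, (PiLp.volume_preserving_ofLp (Fin 2)).measure_preimage
    (MeasurableSet.univ_pi fun i => measurableSet_Ico).nullMeasurableSet, Real.volume_pi_Ico,
    Fin.prod_univ_two]
  simp

lemma vol_P (i : Fin 8) : volume (Box (bP i)) = 1 := by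
  rw [vol_Box]
  simp [bP]

lemma vol_Q (j : Fin 13) : volume (Box (bQ j)) = 1 := by
  rw [vol_Box]
  simp [bQ]

lemma vol_O : volume (Box bO) = 6 := by
  rw [vol_Box]
  simp only [bO]
  rw [← ENNReal.ofReal_mul (by norm_num)]
  norm_num

def A₁ : Set E2 := ⋃ i, Box (bP i)
def A₂ : Set E2 := Box bO ∪ ⋃ j, Box (bQ j)

lemma sep_P : ∀ i j : Fin 8, i ≠ j → px i + 1 ≤ px j ∨ px j + 1 ≤ px i ∨ py i + 1 ≤ py j ∨
    py j + 1 ≤ py i := by decide +kernel

lemma sep_Q : ∀ i j : Fin 13, i ≠ j → qx i + 1 ≤ qx j ∨ qx j + 1 ≤ qx i ∨ qy i + 1 ≤ qy j ∨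
    qy j + 1 ≤ qy i := by decide +kernel

lemma sep_O : ∀ j : Fin 13, 2 ≤ qx j ∨ qx j + 1 ≤ -1 ∨ 1 ≤ qy j ∨ qy j + 1 ≤ -1 := by
  decide +kernel

lemma disj_Box {p q : IPt} (hpq : p.1.2 ≤ q.1.1 ∨ q.1.2 ≤ p.1.1 ∨ p.2.2 ≤ q.2.1 ∨ q.2.2 ≤ p.2.1) :
    Disjoint (Box p) (Box q) := by
  rw [Set.disjoint_left]
  rintro z ⟨⟨h1, h2⟩, ⟨h3, h4⟩⟩ ⟨⟨h5, h6⟩, ⟨h7, h8⟩⟩
  rcases hpq with hh | hh | hh | hh
  · have : (p.1.2 : ℝ) ≤ q.1.1 := by exact_mod_cast hh
    linarith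
  · have : (q.1.2 : ℝ) ≤ p.1.1 := by exact_mod_cast hh
    linarith
  · have : (p.2.2 : ℝ) ≤ q.2.1 := by exact_mod_cast hh
    linarith
  · have : (q.2.2 : ℝ) ≤ p.2.1 := by exact_mod_cast hh
    linarith

lemma disj_P : Pairwise (Function.onFun Disjoint fun i => Box (bP i)) := by
  intro i j hij
  exact disj_Box (sep_P i j hij)

lemma disj_Q : Pairwise (Function.onFun Disjoint fun i => Box (bQ i)) := by
  intro i j hij
  exact disj_Box (sep_Q i j hij)

lemma vol_A₁ : volume A₁ = 8 := by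
  rw [A₁, measure_iUnion disj_P fun i => meas_Box _, tsum_fintype]
  simp [vol_P]

lemma vol_A₂ : volume A₂ = 19 := by
  rw [A₂, measure_union _ (MeasurableSet.iUnion fun i => meas_Box _),
    measure_iUnion disj_Q fun i => meas_Box _, tsum_fintype, vol_O]
  · simp only [vol_Q, Finset.sum_const, Finset.card_univ, Fintype.card_fin, nsmul_eq_mul, mul_one]
    norm_num
  · rw [Set.disjoint_iUnion_right]
    intro j
    apply disj_Box
    rcases sep_O j with hh | hh | hh | hh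
    · exact Or.inl hh
    · exact Or.inr (Or.inl hh)
    · exact Or.inr (Or.inr (Or.inl hh))
    · exact Or.inr (Or.inr (Or.inr hh))

lemma meas_A₁ : MeasurableSet A₁ := MeasurableSet.iUnion fun _ => meas_Box _
lemma meas_A₂ : MeasurableSet A₂ :=
  (meas_Box _).union (MeasurableSet.iUnion fun _ => meas_Box _)

/-- at most two of the eight boxes lie in a set containing one third of `A₁` -/
lemma few_P (S : Set E2) (hS : volume (A₁ ∩ S) = volume A₁ / 3) (G : Finset (Fin 8))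
    (hG : ∀ i ∈ G, Box (bP i) ⊆ S) : G.card ≤ 2 := by
  by_contra hcon
  push Not at hcon
  have h1 : volume (⋃ i ∈ G, Box (bP i)) = (G.card : ENNReal) := by
    rw [measure_biUnion_finset (fun i _ j _ hij => disj_P hij) fun i _ => meas_Box _]
    simp [vol_P]
  have h2 : volume (⋃ i ∈ G, Box (bP i)) ≤ volume (A₁ ∩ S) := by
    apply measure_mono
    intro z hz
    rw [mem_iUnion₂] at hz
    obtain ⟨i, hi, hz⟩ := hz
    exact ⟨mem_iUnion.2 ⟨i, hz⟩, hG i hi hz⟩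
  rw [h1, hS, vol_A₁] at h2
  have h3 : (3 : ENNReal) ≤ (G.card : ENNReal) := by exact_mod_cast hcon
  have h4 : (3 : ENNReal) ≤ 8 / 3 := h3.trans h2
  rw [ENNReal.le_div_iff_mul_le (by simp) (by simp)] at h4
  norm_num at h4

/-- the boxes touched by a set containing one third of `A₂` -/
lemma many_Q (S : Set E2) (hS : volume (A₂ ∩ S) = volume A₂ / 3) (G : Finset (Fin 13))
    (hG : ∀ j, (Box (bQ j) ∩ S).Nonempty → j ∈ G) :
    1 ≤ G.card ∧ (Box bO ∩ S = ∅ → 7 ≤ G.card) := by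
  have h1 : volume (⋃ j ∈ G, Box (bQ j)) = (G.card : ENNReal) := by
    rw [measure_biUnion_finset (fun i _ j _ hij => disj_Q hij) fun i _ => meas_Box _]
    simp [vol_Q]
  have h2 : A₂ ∩ S ⊆ (Box bO ∩ S) ∪ ⋃ j ∈ G, Box (bQ j) := by
    rintro z ⟨hz | hz, hzS⟩
    · exact Or.inl ⟨hz, hzS⟩
    · right
      obtain ⟨j, hj⟩ := mem_iUnion.1 hz
      exact mem_iUnion₂.2 ⟨j, hG j ⟨z, hj, hzS⟩, hj⟩
  have h3 : volume (A₂ ∩ S) ≤ volume (Box bO ∩ S) + (G.card : ENNReal) := by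
    rw [← h1]
    exact (measure_mono h2).trans (measure_union_le _ _)
  rw [hS, vol_A₂, ENNReal.div_le_iff (by simp) (by simp)] at h3
  constructor
  · have h4 : volume (Box bO ∩ S) ≤ 6 := by
      rw [← vol_O]; exact measure_mono inter_subset_left
    have h5 : (19 : ENNReal) ≤ (6 + (G.card : ENNReal)) * 3 := h3.trans (by gcongr)
    by_contra hcon
    push Not at hcon
    have h6 : G.card = 0 := by omega
    rw [h6] at h5
    norm_num at h5
  · intro he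
    rw [he, measure_empty, zero_add] at h3
    have h5 : (19 : ℕ) ≤ G.card * 3 := by exact_mod_cast h3
    omega

/-- pigeonhole on the cyclic group of order 13 -/
lemma pigeon (G : Finset (Fin 13)) (hG : 7 ≤ G.card) : ∃ j ∈ G, j + 6 ∈ G := by
  by_contra hcon
  push Not at hcon
  have h1 : Disjoint G (G.image fun j => j + 6) := by
    rw [Finset.disjoint_right]
    intro k hk
    obtain ⟨j, hj, rfl⟩ := Finset.mem_image.1 hk
    exact hcon j hj
  have h2 : (G.image fun j => j + 6).card = G.card :=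
    Finset.card_image_of_injective _ (add_left_injective 6)
  have h3 := Finset.card_union_of_disjoint h1
  have h4 := Finset.card_le_univ (G ∪ G.image fun j => j + 6)
  rw [h3, h2, Fintype.card_fin] at h4
  omega

lemma three_P (S : Set E2) (hS : volume (A₁ ∩ S) = volume A₁ / 3) (a b c : Fin 8)
    (hab : a ≠ b) (hac : a ≠ c) (hbc : b ≠ c) (ha : Box (bP a) ⊆ S) (hb : Box (bP b) ⊆ S)
    (hc : Box (bP c) ⊆ S) : False := by
  have h1 := few_P S hS {a, b, c} (by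
    intro i hi
    simp only [Finset.mem_insert, Finset.mem_singleton] at hi
    rcases hi with rfl | rfl | rfl <;> assumption)
  rw [Finset.card_insert_of_notMem (by simp [hab, hac]), Finset.card_insert_of_notMem (by simp [hbc]),
    Finset.card_singleton] at h1
  omega

/-- the main statement for regions described by a quadratic function -/
theorem no_region (κ α β γ : ℝ) (hκ : 0 ≤ κ) (S : Set E2)
    (hSdef : ∀ z, z ∈ S ↔ F κ α β γ (pt z) < 0)
    (h1 : volume (A₁ ∩ S) = volume A₁ / 3) (h2 : volume (A₂ ∩ S) = volume A₂ / 3) : False := by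
  classical
  obtain ⟨hc1, hc2⟩ := many_Q S h2 (Finset.univ.filter fun j => (Box (bQ j) ∩ S).Nonempty)
    (fun j hj => by simpa using hj)
  -- the certificate in terms of boxes
  have cert : ∀ T₁ T₂ S₁ S₂ : IPt, chk T₁ T₂ S₁ S₂ = true → (Box T₁ ∩ S).Nonempty →
      (Box T₂ ∩ S).Nonempty → Box S₁ ⊆ S ∨ Box S₂ ⊆ S := by
    intro T₁ T₂ S₁ S₂ hchk ⟨t₁, ht₁, ht₁S⟩ ⟨t₂, ht₂, ht₂S⟩
    by_contra hcon
    push Not at hcon
    obtain ⟨hn1, hn2⟩ := hcon
    rw [Set.not_subset] at hn1 hn2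
    obtain ⟨s₁, hs₁, hs₁S⟩ := hn1
    obtain ⟨s₂, hs₂, hs₂S⟩ := hn2
    rw [hSdef] at ht₁S ht₂S hs₁S hs₂S
    exact chk_sound hchk (memP_of_mem ht₁) (memP_of_mem ht₂) (memP_of_mem hs₁) (memP_of_mem hs₂)
      hκ ht₁S ht₂S (not_lt.1 hs₁S) (not_lt.1 hs₂S)
  by_cases hO : (Box bO ∩ S).Nonempty
  · -- the centre is touched
    obtain ⟨j, hj⟩ := Finset.card_pos.1 (Nat.lt_of_lt_of_le Nat.zero_lt_one hc1)
    rw [Finset.mem_filter] at hj
    obtain ⟨k1, k2, k3⟩ := check_i j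
    have hdis : g j ≠ g j - 1 ∧ g j ≠ g j + 2 ∧ g j ≠ g j - 2 ∧ g j ≠ g j + 1 ∧
        g j + 3 ≠ g j - 1 ∧ g j + 3 ≠ g j + 2 ∧ g j + 3 ≠ g j - 2 ∧ g j + 3 ≠ g j + 1 ∧
        g j - 1 ≠ g j - 2 ∧ g j - 1 ≠ g j + 1 ∧ g j + 2 ≠ g j - 2 ∧ g j + 2 ≠ g j + 1 := by
      generalize g j = x
      revert x
      decide
    obtain ⟨d1, d2, d3, d4, d5, d6, d7, d8, d9, d10, d11, d12⟩ := hdis
    have e1 := cert _ _ _ _ k1 hO hj.2
    have e2 := cert _ _ _ _ k2 hO hj.2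
    have e3 := cert _ _ _ _ k3 hO hj.2
    rcases e1 with e1 | e1 <;> rcases e2 with e2 | e2 <;> rcases e3 with e3 | e3
    · exact three_P S h1 _ _ _ d1 d3 d9 e1 e2 e3
    · exact three_P S h1 _ _ _ d1 d4 d10 e1 e2 e3
    · exact three_P S h1 _ _ _ d2 d3 d11 e1 e2 e3
    · exact three_P S h1 _ _ _ d2 d4 d12 e1 e2 e3
    · exact three_P S h1 _ _ _ d5 d7 d9 e1 e2 e3
    · exact three_P S h1 _ _ _ d5 d8 d10 e1 e2 e3
    · exact three_P S h1 _ _ _ d6 d7 d11 e1 e2 e3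
    · exact three_P S h1 _ _ _ d6 d8 d12 e1 e2 e3
  · -- the centre is missed
    have hO' := not_nonempty_iff_eq_empty.1 hO
    obtain ⟨j, hj, hj6⟩ := pigeon _ (hc2 hO')
    rw [Finset.mem_filter] at hj hj6
    obtain ⟨k1, k2, k3⟩ := check_ii j
    have hdis : h j ≠ h j + 1 ∧ h j ≠ h j + 2 ∧ h j + 1 ≠ h j + 2 := by
      generalize h j = x
      revert x
      decide
    have hnot : ¬ Box bO ⊆ S := by
      intro hsub
      apply hO
      have hmem : (0 : E2) ∈ Box bO := by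
        constructor <;> simp [bO]
      exact ⟨0, hmem, hsub hmem⟩
    exact three_P S h1 _ _ _ hdis.1 hdis.2.1 hdis.2.2
      ((cert _ _ _ _ k1 hj.2 hj6.2).resolve_right hnot)
      ((cert _ _ _ _ k2 hj.2 hj6.2).resolve_right hnot)
      ((cert _ _ _ _ k3 hj.2 hj6.2).resolve_right hnot)

theorem main :
    ¬ (∀ A₁ A₂ : Set (EuclideanSpace ℝ (Fin 2)),
      MeasurableSet A₁ → MeasurableSet A₂ →
      volume A₁ < ⊤ → volume A₂ < ⊤ →
      ∃ S : Set (EuclideanSpace ℝ (Fin 2)),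
        ((∃ (p : EuclideanSpace ℝ (Fin 2)) (r : ℝ), 0 < r ∧ S = Metric.ball p r) ∨
         (∃ (v : EuclideanSpace ℝ (Fin 2)) (c : ℝ), v ≠ 0 ∧
            S = {x : EuclideanSpace ℝ (Fin 2) | inner ℝ v x < c})) ∧
        volume (A₁ ∩ S) = volume A₁ / 3 ∧
        volume (A₂ ∩ S) = volume A₂ / 3) := by
  intro hall
  obtain ⟨S, hS, h1, h2⟩ := hall A₁ A₂ meas_A₁ meas_A₂ (by rw [vol_A₁]; simp) (by rw [vol_A₂]; simp)
  rcases hS with ⟨p, r, hr, rfl⟩ | ⟨v, c, -, rfl⟩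
  · refine no_region 1 (-2 * p 0) (-2 * p 1) (p 0 ^ 2 + p 1 ^ 2 - r ^ 2) zero_le_one _ ?_ h1 h2
    intro z
    rw [Metric.mem_ball, EuclideanSpace.dist_eq, Real.sqrt_lt' hr, Fin.sum_univ_two, Real.dist_eq,
      Real.dist_eq, sq_abs, sq_abs]
    unfold F pt
    constructor
    · intro hz
      simp only
      nlinarith
    · intro hz
      simp only at hz
      nlinarith
  · refine no_region 0 (v 0) (v 1) (-c) le_rfl _ ?_ h1 h2
    intro z
    rw [mem_setOf_eq, PiLp.inner_apply, Fin.sum_univ_two]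
    unfold F pt
    simp only [RCLike.inner_apply, conj_trivial]
    constructor
    · intro hz
      nlinarith
    · intro hz
      nlinarith

end Pool.Agent.V11167.Ced
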