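import Mathlib

/-!
Moon-Moser inequality for cliques, and the resulting lower bound for the number of cliques.
-/

namespace Pool.Agent.V11167.Dom
open Finset

section
variable {V : Type*} [Fintype V] [DecidableEq V] (H : SimpleGraph V) [DecidableRel H.Adj]

/-- common neighbours of a set -/
def ext (t : Finset V) : Finset V := univ.filter (fun x => ∀ y ∈ t, H.Adj x y)

theorem mem_ext {t : Finset V} {x : V} : x ∈ ext H t ↔ ∀ y ∈ t, H.Adj x y := by
  simp [ext]

theorem sum_erase (s : ℕ) (f : Finset V → ℕ) :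
    ∑ σ ∈ H.cliqueFinset (s+1), ∑ x ∈ σ, f (σ.erase x)
      = ∑ τ ∈ H.cliqueFinset s, (ext H τ).card * f τ := by
  have h2 : ∀ τ ∈ H.cliqueFinset s, (ext H τ).card * f τ = ∑ x ∈ ext H τ, f τ := by
    intro τ _; rw [sum_const, smul_eq_mul]
  rw [sum_congr rfl h2, Finset.sum_sigma', Finset.sum_sigma']
  refine Finset.sum_bij' (fun p _ => (⟨p.1.erase p.2, p.2⟩ : Sigma fun _ => V))
    (fun q _ => (⟨insert q.2 q.1, q.2⟩ : Sigma fun _ => V)) ?_ ?_ ?_ ?_ ?_
  · rintro ⟨σ, x⟩ hp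
    simp only [mem_sigma, SimpleGraph.mem_cliqueFinset_iff] at hp ⊢
    refine ⟨hp.1.erase_of_mem hp.2, ?_⟩
    rw [mem_ext]
    intro y hy
    rw [mem_erase] at hy
    exact hp.1.isClique hp.2 hy.2 (Ne.symm hy.1)
  · rintro ⟨τ, x⟩ hp
    simp only [mem_sigma, SimpleGraph.mem_cliqueFinset_iff, mem_ext] at hp ⊢
    exact ⟨hp.1.insert hp.2, mem_insert_self _ _⟩
  · rintro ⟨σ, x⟩ hp
    simp only [mem_sigma] at hp
    simp only [insert_erase hp.2]
  · rintro ⟨τ, x⟩ hp
    simp only [mem_sigma, mem_ext] at hp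
    have : x ∉ τ := fun hx => (H.loopless.irrefl x) (hp.2 x hx)
    simp only [erase_insert this]
  · rintro ⟨σ, x⟩ hp
    rfl

theorem sum_ext (s : ℕ) :
    ∑ τ ∈ H.cliqueFinset s, (ext H τ).card = (s+1) * (H.cliqueFinset (s+1)).card := by
  have h := sum_erase H s (fun _ => 1)
  simp only [sum_const, smul_eq_mul, mul_one] at h
  rw [← h]
  rw [Finset.sum_congr rfl (g := fun _ => s+1)]
  · rw [sum_const, smul_eq_mul, mul_comm]
  · intro σ hσ
    rw [SimpleGraph.mem_cliqueFinset_iff] at hσ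
    exact hσ.card_eq

theorem point (s : ℕ) (σ : Finset V) (hσ : σ ∈ H.cliqueFinset (s+1)) :
    ∑ x ∈ σ, (ext H (σ.erase x)).card ≤ Fintype.card V + s * (ext H σ).card := by
  rw [SimpleGraph.mem_cliqueFinset_iff] at hσ
  have h1 : ∑ x ∈ σ, (ext H (σ.erase x)).card
      = ∑ v : V, (σ.filter (fun x => v ∈ ext H (σ.erase x))).card := by
    simp only [card_eq_sum_ones, sum_filter, ext]
    rw [sum_comm]
    simp
  rw [h1]
  have h2 : ∀ v ∈ (univ : Finset V), (σ.filter (fun x => v ∈ ext H (σ.erase x))).card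
      ≤ 1 + (if v ∈ ext H σ then s else 0) := by
    intro v _
    by_cases hv : v ∈ ext H σ
    · rw [if_pos hv]
      calc _ ≤ σ.card := card_filter_le _ _
        _ = 1 + s := by rw [hσ.card_eq]; ring
    · rw [if_neg hv]
      rw [mem_ext] at hv
      push Not at hv
      obtain ⟨y, hy, hvy⟩ := hv
      rw [add_zero, Finset.card_le_one]
      have key : ∀ a ∈ (σ.filter (fun x => v ∈ ext H (σ.erase x))), a = y := by
        intro a ha
        rw [mem_filter, mem_ext] at ha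
        by_contra hne
        exact hvy (ha.2 y (mem_erase.mpr ⟨fun h => hne h.symm, hy⟩))
      intro a ha b hb
      rw [key a ha, key b hb]
  calc _ ≤ ∑ v : V, (1 + (if v ∈ ext H σ then s else 0)) := sum_le_sum h2
    _ = Fintype.card V + s * (ext H σ).card := by
      rw [sum_add_distrib, sum_ite_mem]
      simp [mul_comm]

theorem moonMoser (s : ℕ) :
    ((s+1) * (H.cliqueFinset (s+1)).card)^2 ≤ (H.cliqueFinset s).card *
      (Fintype.card V * (H.cliqueFinset (s+1)).card + s * ((s+2) * (H.cliqueFinset (s+2)).card)) := by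
  have h1 : (∑ τ ∈ H.cliqueFinset s, (ext H τ).card)^2
      ≤ (H.cliqueFinset s).card * ∑ τ ∈ H.cliqueFinset s, (ext H τ).card^2 :=
    sq_sum_le_card_mul_sum_sq
  rw [sum_ext] at h1
  refine h1.trans (Nat.mul_le_mul_left _ ?_)
  have h2 := sum_erase H s (fun τ => (ext H τ).card)
  simp only [← sq] at h2
  rw [← h2]
  calc _ ≤ ∑ σ ∈ H.cliqueFinset (s+1), (Fintype.card V + s * (ext H σ).card) :=
        sum_le_sum (fun σ hσ => point H s σ hσ)
    _ = _ := by
      rw [sum_add_distrib, ← mul_sum, sum_ext]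
      simp [mul_comm]

/-- scaled clique numbers -/
noncomputable def aa (s : ℕ) : ℝ := (s.factorial : ℝ) * ((H.cliqueFinset s).card : ℝ)

theorem aa_nonneg (s : ℕ) : 0 ≤ aa H s := by unfold aa; positivity

theorem aa_ineq (s : ℕ) :
    ((s:ℝ)+1) * aa H (s+1)^2 ≤ aa H s * ((Fintype.card V : ℝ) * aa H (s+1) + s * aa H (s+2)) := by
  have h := moonMoser H s
  have h' : (((s:ℝ)+1) * ((H.cliqueFinset (s+1)).card : ℝ))^2 ≤ ((H.cliqueFinset s).card : ℝ) *
      ((Fintype.card V : ℝ) * ((H.cliqueFinset (s+1)).card : ℝ)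
        + s * (((s:ℝ)+2) * ((H.cliqueFinset (s+2)).card : ℝ))) := by
    exact_mod_cast h
  unfold aa
  have f1 : ((s+1).factorial : ℝ) = ((s:ℝ)+1) * (s.factorial : ℝ) := by
    rw [Nat.factorial_succ]; push_cast; ring
  have f2 : ((s+2).factorial : ℝ) = ((s:ℝ)+2) * (((s:ℝ)+1) * (s.factorial : ℝ)) := by
    rw [Nat.factorial_succ, Nat.factorial_succ]; push_cast; ring
  rw [f1, f2]
  have hp : (0:ℝ) ≤ ((s:ℝ)+1) * (s.factorial : ℝ)^2 := by positivity
  have := mul_le_mul_of_nonneg_left h' hp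
  nlinarith [this]

theorem aa_zero : aa H 0 = 1 := by
  unfold aa
  have : H.cliqueFinset 0 = {∅} := by
    ext t
    simp [SimpleGraph.mem_cliqueFinset_iff, SimpleGraph.isNClique_zero]
  rw [this]; simp

theorem aa_one : aa H 1 = Fintype.card V := by
  have h := sum_ext H 0
  have h0 : H.cliqueFinset 0 = {∅} := by
    ext t
    simp [SimpleGraph.mem_cliqueFinset_iff, SimpleGraph.isNClique_zero]
  rw [h0, sum_singleton] at h
  have h1 : (ext H ∅).card = Fintype.card V := by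
    simp [ext]
  unfold aa
  rw [h1] at h
  have : (H.cliqueFinset 1).card = Fintype.card V := by
    simpa using h.symm
  rw [this]; simp

/-- growth of the clique numbers -/
theorem aa_step (n h : ℝ) (hn : n = Fintype.card V) (h2 : aa H 2 = h * n^2) (hn0 : 0 < n) :
    ∀ s : ℕ, 0 < 1 - (s:ℝ) * (1 - h) → 0 ≤ 1 - h →
      0 < aa H s ∧ (1 - (s:ℝ) * (1 - h)) * n * aa H s ≤ aa H (s+1) := by
  intro s
  induction s with
  | zero =>
    intro _ _
    rw [aa_zero, aa_one]
    simp [hn]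
  | succ s ih =>
    intro hs h1
    have hs' : 0 < 1 - (s:ℝ) * (1 - h) := by
      push_cast at hs
      nlinarith
    obtain ⟨ha, hb⟩ := ih hs' h1
    have hpos : 0 < aa H (s+1) := lt_of_lt_of_le (by positivity) hb
    refine ⟨hpos, ?_⟩
    rcases Nat.eq_zero_or_pos s with rfl | hsp
    · rw [show (0+1 : ℕ) = 1 from rfl, aa_one, ← hn, show (1 + 1 : ℕ) = 2 from rfl, h2]
      push_cast
      nlinarith
    · have hI := aa_ineq H s
      rw [← hn] at hI
      have hsr : (0:ℝ) < s := by exact_mod_cast hsp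
      push_cast at hs ⊢
      -- s a_{s+2} a_s ≥ a_{s+1} ((s+1) a_{s+1} - n a_s)
      have e1 : aa H (s+1) * (((s:ℝ)+1) * aa H (s+1) - n * aa H s) ≤ s * aa H (s+2) * aa H s := by
        nlinarith [hI]
      have e2 : ((s:ℝ)+1) * ((1 - (s:ℝ) * (1 - h)) * n * aa H s) - n * aa H s
          = s * ((1 - ((s:ℝ)+1) * (1 - h)) * n * aa H s) := by ring
      have e3 : s * ((1 - ((s:ℝ)+1) * (1 - h)) * n * aa H s) ≤ ((s:ℝ)+1) * aa H (s+1) - n * aa H s := by
        rw [← e2]
        have : ((s:ℝ)+1) * ((1 - (s:ℝ) * (1 - h)) * n * aa H s) ≤ ((s:ℝ)+1) * aa H (s+1) :=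
          mul_le_mul_of_nonneg_left hb (by positivity)
        linarith
      have e4 : aa H (s+1) * (s * ((1 - ((s:ℝ)+1) * (1 - h)) * n * aa H s)) ≤ s * aa H (s+2) * aa H s :=
        le_trans (mul_le_mul_of_nonneg_left e3 hpos.le) e1
      have hsa : 0 < (s:ℝ) * aa H s := by positivity
      have e5 : ((s:ℝ) * aa H s) * ((1 - ((s:ℝ)+1) * (1 - h)) * n * aa H (s+1))
          ≤ ((s:ℝ) * aa H s) * aa H (s+2) := by nlinarith [e4]
      exact le_of_mul_le_mul_left e5 hsa

theorem aa_lower (n h t : ℝ) (hn : n = Fintype.card V) (h2 : aa H 2 = h * n^2) (hn0 : 0 < n)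
    (l : ℕ) (hl : 1 ≤ l) (ht0 : 0 < t) (ht : t ≤ 1 - ((l:ℝ)-1) * (1 - h)) (h1 : 0 ≤ 1 - h) :
    ∀ s : ℕ, s ≤ l → (t * n)^s ≤ aa H s := by
  intro s
  induction s with
  | zero => intro _; rw [aa_zero]; simp
  | succ s ih =>
    intro hs
    have hih := ih (by omega)
    have hsl : (s:ℝ) ≤ (l:ℝ) - 1 := by
      have : ((s+1 : ℕ):ℝ) ≤ (l:ℝ) := by exact_mod_cast hs
      push_cast at this; linarith
    have hts : t ≤ 1 - (s:ℝ) * (1 - h) := by nlinarith
    obtain ⟨ha, hb⟩ := aa_step H n h hn h2 hn0 s (by linarith) h1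
    calc (t*n)^(s+1) = (t * n) * (t*n)^s := by ring
      _ ≤ (t * n) * aa H s := mul_le_mul_of_nonneg_left hih (by positivity)
      _ ≤ (1 - (s:ℝ) * (1 - h)) * n * aa H s := by
        apply mul_le_mul_of_nonneg_right _ ha.le
        exact mul_le_mul_of_nonneg_right hts hn0.le
      _ ≤ aa H (s+1) := hb

end

end Pool.Agent.V11167.Dom
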