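import Pool.Agent.V11167.DomA

/-!
Degree sums over cliques.
-/

namespace Pool.Agent.V11167.Dom
open Finset

section
variable {V : Type*} [Fintype V] [DecidableEq V] (H : SimpleGraph V) [DecidableRel H.Adj] (q M : ℕ)

/-- number of `(q+2)`-cliques containing both `x` and `y` -/
def mult (x y : V) : ℕ := ((H.cliqueFinset (q+2)).filter (fun a => x ∈ a ∧ y ∈ a)).card

/-- light pairs -/
def Light (x y : V) : Prop := H.Adj x y ∧ mult H q x y ≤ M

/-- cliques all of whose large subsets contain a light pair -/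
def TypeI (a : Finset V) : Prop := ∀ b ⊆ a, b.card = q+1 → ∃ x ∈ b, ∃ y ∈ b, Light H q M x y

open Classical in
theorem degsum_typeI (a : Finset V) (ha : a ∈ H.cliqueFinset (q+2)) (hI : TypeI H q M a) :
    ∑ x ∈ a, H.degree x ≤ q * Fintype.card V + (2*(q+2) + 2*((q+2)^3*M)) := by
  rw [SimpleGraph.mem_cliqueFinset_iff] at ha
  set d : V → ℕ := fun v => (a.filter (fun x => H.Adj x v)).card with hd
  have h1 : ∑ x ∈ a, H.degree x = ∑ v : V, d v := by
    have : ∀ x ∈ a, H.degree x = ∑ v : V, if H.Adj x v then 1 else 0 := by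
      intro x _
      rw [← H.card_neighborFinset_eq_degree, ← sum_filter, ← card_eq_sum_ones]
      congr 1
      ext v
      simp
    rw [sum_congr rfl this, sum_comm]
    refine sum_congr rfl (fun v _ => ?_)
    rw [hd]
    simp only [card_eq_sum_ones, sum_filter]
  set P : Finset V := univ.filter (fun v => v ∉ a ∧ q+1 ≤ d v) with hP
  have hdle : ∀ v, d v ≤ q + 2 := by
    intro v
    calc d v ≤ a.card := card_filter_le _ _
      _ = q + 2 := ha.card_eq
  have h2 : ∀ v ∈ (univ : Finset V), d v ≤ q + (if v ∈ a ∪ P then 2 else 0) := by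
    intro v _
    by_cases hv : v ∈ a ∪ P
    · rw [if_pos hv]; exact hdle v
    · rw [if_neg hv]
      rw [mem_union, not_or, hP, mem_filter, not_and] at hv
      have := hv.2 (mem_univ _)
      have h3 : ¬ (q + 1 ≤ d v) := fun h => this ⟨hv.1, h⟩
      omega
  have hPcard : P.card ≤ (q+2)^3 * M := by
    set K := H.cliqueFinset (q+2) with hK
    have hsub : P ⊆ ((a ×ˢ a).filter (fun p => Light H q M p.1 p.2)).biUnion
        (fun p => (K.filter (fun a' => p.1 ∈ a' ∧ p.2 ∈ a')).biUnion id) := by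
      intro v hv
      rw [hP, mem_filter] at hv
      obtain ⟨_, hva, hvd⟩ := hv
      obtain ⟨b, hb, hbc⟩ := exists_subset_card_eq hvd
      have hba : b ⊆ a := hb.trans (filter_subset _ _)
      obtain ⟨x, hx, y, hy, hxy⟩ := hI b hba hbc
      rw [mem_biUnion]
      refine ⟨(x, y), ?_, ?_⟩
      · rw [mem_filter, mem_product]
        exact ⟨⟨hba hx, hba hy⟩, hxy⟩
      · rw [mem_biUnion]
        refine ⟨insert v b, ?_, by simp⟩
        rw [mem_filter, hK, SimpleGraph.mem_cliqueFinset_iff]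
        refine ⟨?_, mem_insert_of_mem hx, mem_insert_of_mem hy⟩
        have hbcl : H.IsNClique (q+1) b := ⟨ha.isClique.subset hba, hbc⟩
        refine hbcl.insert ?_
        intro z hz
        have := hb hz
        rw [mem_filter] at this
        exact this.2.symm
    calc P.card ≤ _ := card_le_card hsub
      _ ≤ ∑ p ∈ (a ×ˢ a).filter (fun p => Light H q M p.1 p.2),
          ((K.filter (fun a' => p.1 ∈ a' ∧ p.2 ∈ a')).biUnion id).card := card_biUnion_le
      _ ≤ ∑ p ∈ (a ×ˢ a).filter (fun p => Light H q M p.1 p.2), M * (q+2) := by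
        refine sum_le_sum (fun p hp => ?_)
        rw [mem_filter] at hp
        have hm : (K.filter (fun a' => p.1 ∈ a' ∧ p.2 ∈ a')).card ≤ M := hp.2.2
        calc _ ≤ ∑ a' ∈ K.filter (fun a' => p.1 ∈ a' ∧ p.2 ∈ a'), (id a').card := card_biUnion_le
          _ = ∑ a' ∈ K.filter (fun a' => p.1 ∈ a' ∧ p.2 ∈ a'), (q+2) := by
            refine sum_congr rfl (fun a' ha' => ?_)
            rw [mem_filter, hK, SimpleGraph.mem_cliqueFinset_iff] at ha'
            exact ha'.1.card_eq
          _ = (K.filter (fun a' => p.1 ∈ a' ∧ p.2 ∈ a')).card * (q+2) := by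
            rw [sum_const, smul_eq_mul]
          _ ≤ M * (q+2) := Nat.mul_le_mul_right _ hm
      _ = ((a ×ˢ a).filter (fun p => Light H q M p.1 p.2)).card * (M * (q+2)) := by
        rw [sum_const, smul_eq_mul]
      _ ≤ (a ×ˢ a).card * (M * (q+2)) := Nat.mul_le_mul_right _ (card_filter_le _ _)
      _ = (q+2)^3 * M := by
        rw [card_product, ha.card_eq]; ring
  rw [h1]
  calc ∑ v : V, d v ≤ ∑ v : V, (q + (if v ∈ a ∪ P then 2 else 0)) := sum_le_sum h2
    _ = q * Fintype.card V + (a ∪ P).card * 2 := by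
      rw [sum_add_distrib, sum_ite_mem]
      simp [mul_comm]
    _ ≤ q * Fintype.card V + (2*(q+2) + 2*((q+2)^3*M)) := by
      have := card_union_le a P
      rw [ha.card_eq] at this
      omega

open Classical in
theorem typeII_light (a : Finset V) (ha : a ∈ H.cliqueFinset (q+2)) (hI : ¬ TypeI H q M a) :
    ((a ×ˢ a).filter (fun p => Light H q M p.1 p.2)).card ≤ 2*(q+1) := by
  rw [SimpleGraph.mem_cliqueFinset_iff] at ha
  unfold TypeI at hI
  push Not at hI
  obtain ⟨b, hba, hbc, hb⟩ := hI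
  have hc : (a \ b).card = 1 := by
    rw [card_sdiff_of_subset hba, ha.card_eq, hbc]; omega
  obtain ⟨z, hz⟩ := card_eq_one.mp hc
  have hsub : (a ×ˢ a).filter (fun p => Light H q M p.1 p.2) ⊆ ({z} ×ˢ b) ∪ (b ×ˢ {z}) := by
    rintro ⟨x, y⟩ hp
    rw [mem_filter, mem_product] at hp
    obtain ⟨⟨hx, hy⟩, hl⟩ := hp
    simp only at hx hy hl
    have hcase : ∀ w ∈ a, w ∈ b ∨ w = z := by
      intro w hw
      by_cases h : w ∈ b
      · exact Or.inl h
      · right
        have : w ∈ a \ b := mem_sdiff.mpr ⟨hw, h⟩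
        rw [hz, mem_singleton] at this
        exact this
    have hne : x ≠ y := fun h => (H.loopless.irrefl x) (by have := hl.1; rw [← h] at this; exact this)
    rw [mem_union, mem_product, mem_product]
    simp only [mem_singleton]
    rcases hcase x hx with h1 | h1 <;> rcases hcase y hy with h2 | h2
    · exact absurd hl (hb x h1 y h2)
    · exact Or.inr ⟨h1, h2⟩
    · exact Or.inl ⟨h1, h2⟩
    · exact absurd (h1.trans h2.symm) hne
  calc _ ≤ (({z} : Finset V) ×ˢ b ∪ b ×ˢ {z}).card := card_le_card hsub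
    _ ≤ (({z} : Finset V) ×ˢ b).card + (b ×ˢ {z}).card := card_union_le _ _
    _ = 2*(q+1) := by rw [card_product, card_product, hbc]; simp; ring

open Classical in
theorem main_count (hq : 2 ≤ q)
    (hcov : ∀ x y, H.Adj x y → ∃ a ∈ H.cliqueFinset (q+2), x ∈ a ∧ y ∈ a) :
    M * ∑ x : V, (H.degree x)^2 ≤
      M * ((q+1) * ((H.cliqueFinset (q+2)).card *
        (q * Fintype.card V + (2*(q+2) + 2*((q+2)^3*M)))))
      + Fintype.card V * ((H.cliqueFinset (q+2)).card * (q+2)^2) := by
  set n := Fintype.card V with hn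
  set K := H.cliqueFinset (q+2) with hK
  set K0 := 2*(q+2) + 2*((q+2)^3*M) with hK0
  set KI := K.filter (fun a => TypeI H q M a) with hKI
  set KII := K.filter (fun a => ¬ TypeI H q M a) with hKII
  have hsplit : KI.card + KII.card = K.card := card_filter_add_card_filter_not _
  set dI : V → ℕ := fun x => (univ.filter (fun y => Light H q M x y ∧ ∃ a ∈ KI, x ∈ a ∧ y ∈ a)).card
  set dII : V → ℕ := fun x => (univ.filter (fun y => Light H q M x y ∧ ¬ ∃ a ∈ KI, x ∈ a ∧ y ∈ a)).card
  set dH : V → ℕ := fun x => (univ.filter (fun y => H.Adj x y ∧ ¬ Light H q M x y)).card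
  have hdeg : ∀ x, H.degree x ≤ dI x + dII x + dH x := by
    intro x
    rw [← H.card_neighborFinset_eq_degree]
    have hsub : H.neighborFinset x ⊆
        (univ.filter (fun y => Light H q M x y ∧ ∃ a ∈ KI, x ∈ a ∧ y ∈ a)) ∪
        (univ.filter (fun y => Light H q M x y ∧ ¬ ∃ a ∈ KI, x ∈ a ∧ y ∈ a)) ∪
        (univ.filter (fun y => H.Adj x y ∧ ¬ Light H q M x y)) := by
      intro y hy
      rw [SimpleGraph.mem_neighborFinset] at hy
      simp only [mem_union, mem_filter, mem_univ, true_and]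
      by_cases h1 : Light H q M x y
      · by_cases h2 : ∃ a ∈ KI, x ∈ a ∧ y ∈ a
        · exact Or.inl (Or.inl ⟨h1, h2⟩)
        · exact Or.inl (Or.inr ⟨h1, h2⟩)
      · exact Or.inr ⟨hy, h1⟩
    exact (card_le_card hsub).trans ((card_union_le _ _).trans
      (Nat.add_le_add_right (card_union_le _ _) _))
  set r : V → ℕ := fun x => (KI.filter (fun a => x ∈ a)).card
  -- (1)
  have h1 : ∀ x, dI x ≤ (q+1) * r x := by
    intro x
    have hsub : univ.filter (fun y => Light H q M x y ∧ ∃ a ∈ KI, x ∈ a ∧ y ∈ a) ⊆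
        (KI.filter (fun a => x ∈ a)).biUnion (fun a => a.erase x) := by
      intro y hy
      rw [mem_filter] at hy
      obtain ⟨_, hl, a, ha, hxa, hya⟩ := hy
      rw [mem_biUnion]
      refine ⟨a, mem_filter.mpr ⟨ha, hxa⟩, mem_erase.mpr ⟨?_, hya⟩⟩
      intro h
      rw [h] at hl
      exact (H.loopless.irrefl x) hl.1
    calc dI x ≤ _ := card_le_card hsub
      _ ≤ ∑ a ∈ KI.filter (fun a => x ∈ a), (a.erase x).card := card_biUnion_le
      _ = ∑ a ∈ KI.filter (fun a => x ∈ a), (q+1) := by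
        refine sum_congr rfl (fun a ha => ?_)
        rw [mem_filter, hKI, mem_filter, hK, SimpleGraph.mem_cliqueFinset_iff] at ha
        rw [card_erase_of_mem ha.2, ha.1.1.card_eq]; rfl
      _ = (q+1) * r x := by rw [sum_const, smul_eq_mul, mul_comm]
  -- (2)
  have h2 : ∑ x : V, H.degree x * r x = ∑ a ∈ KI, ∑ x ∈ a, H.degree x := by
    have e1 : ∀ x ∈ (univ : Finset V), H.degree x * r x
        = ∑ a ∈ KI, if x ∈ a then H.degree x else 0 := by
      intro x _
      rw [← sum_filter, sum_const, smul_eq_mul, mul_comm]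
    rw [sum_congr rfl e1, sum_comm]
    refine sum_congr rfl (fun a _ => ?_)
    rw [sum_ite_mem]; simp
  -- (3)
  have h3 : ∑ x : V, H.degree x * dI x ≤ (q+1) * (KI.card * (q * n + K0)) := by
    calc ∑ x : V, H.degree x * dI x ≤ ∑ x : V, H.degree x * ((q+1) * r x) :=
          sum_le_sum (fun x _ => Nat.mul_le_mul_left _ (h1 x))
      _ = (q+1) * ∑ x : V, H.degree x * r x := by
        rw [mul_sum]; refine sum_congr rfl (fun x _ => by ring)
      _ = (q+1) * ∑ a ∈ KI, ∑ x ∈ a, H.degree x := by rw [h2]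
      _ ≤ (q+1) * ∑ a ∈ KI, (q * n + K0) := by
        refine Nat.mul_le_mul_left _ (sum_le_sum (fun a ha => ?_))
        rw [hKI, mem_filter] at ha
        exact degsum_typeI H q M a ha.1 ha.2
      _ = _ := by rw [sum_const, smul_eq_mul]
  -- (4)
  have h4 : ∑ x : V, dII x ≤ KII.card * (2*(q+1)) := by
    have e1 : ∑ x : V, dII x = ((univ : Finset (V × V)).filter
        (fun p => Light H q M p.1 p.2 ∧ ¬ ∃ a ∈ KI, p.1 ∈ a ∧ p.2 ∈ a)).card := by
      simp only [dII, card_eq_sum_ones, sum_filter]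
      rw [← univ_product_univ, sum_product]
    rw [e1]
    have hsub : (univ : Finset (V × V)).filter
        (fun p => Light H q M p.1 p.2 ∧ ¬ ∃ a ∈ KI, p.1 ∈ a ∧ p.2 ∈ a) ⊆
        KII.biUnion (fun a => (a ×ˢ a).filter (fun p => Light H q M p.1 p.2)) := by
      rintro ⟨x, y⟩ hp
      rw [mem_filter] at hp
      obtain ⟨_, hl, hno⟩ := hp
      simp only at hl hno
      obtain ⟨a, ha, hxa, hya⟩ := hcov x y hl.1
      rw [mem_biUnion]
      refine ⟨a, ?_, ?_⟩
      · rw [hKII, mem_filter]
        refine ⟨ha, fun hT => hno ⟨a, ?_, hxa, hya⟩⟩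
        rw [hKI, mem_filter]; exact ⟨ha, hT⟩
      · rw [mem_filter, mem_product]
        exact ⟨⟨hxa, hya⟩, hl⟩
    calc _ ≤ _ := card_le_card hsub
      _ ≤ ∑ a ∈ KII, ((a ×ˢ a).filter (fun p => Light H q M p.1 p.2)).card := card_biUnion_le
      _ ≤ ∑ a ∈ KII, 2*(q+1) := by
        refine sum_le_sum (fun a ha => ?_)
        rw [hKII, mem_filter] at ha
        exact typeII_light H q M a ha.1 ha.2
      _ = _ := by rw [sum_const, smul_eq_mul]
  have hdegn : ∀ x, H.degree x ≤ n := fun x => by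
    rw [← H.card_neighborFinset_eq_degree]; exact card_le_univ _
  -- (5)
  have h5 : ∑ x : V, H.degree x * dII x ≤ (q+1) * (KII.card * (q * n + K0)) := by
    calc ∑ x : V, H.degree x * dII x ≤ ∑ x : V, n * dII x :=
          sum_le_sum (fun x _ => Nat.mul_le_mul_right _ (hdegn x))
      _ = n * ∑ x : V, dII x := by rw [mul_sum]
      _ ≤ n * (KII.card * (2*(q+1))) := Nat.mul_le_mul_left _ h4
      _ = (q+1) * (KII.card * (2 * n)) := by ring
      _ ≤ (q+1) * (KII.card * (q * n + K0)) := by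
        apply Nat.mul_le_mul_left
        apply Nat.mul_le_mul_left
        exact le_trans (Nat.mul_le_mul_right n hq) (Nat.le_add_right _ _)
  -- (6)
  have h6 : M * ∑ x : V, dH x ≤ K.card * (q+2)^2 := by
    have e1 : ∑ x : V, dH x = ((univ : Finset (V × V)).filter
        (fun p => H.Adj p.1 p.2 ∧ ¬ Light H q M p.1 p.2)).card := by
      simp only [dH, card_eq_sum_ones, sum_filter]
      rw [← univ_product_univ, sum_product]
    rw [e1]
    set S : Finset (V × V) := (univ : Finset (V × V)).filter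
        (fun p => H.Adj p.1 p.2 ∧ ¬ Light H q M p.1 p.2) with hS
    calc M * S.card = ∑ p ∈ S, M := by rw [sum_const, smul_eq_mul, mul_comm]
      _ ≤ ∑ p ∈ S, mult H q p.1 p.2 := by
          refine sum_le_sum (fun p hp => ?_)
          rw [hS, mem_filter] at hp
          by_contra hlt
          exact hp.2.2 ⟨hp.2.1, by omega⟩
      _ ≤ ∑ p : V × V, mult H q p.1 p.2 := sum_le_sum_of_subset (filter_subset _ _)
      _ = ∑ p : V × V, ∑ a ∈ K, (if p.1 ∈ a ∧ p.2 ∈ a then 1 else 0) := by
          refine sum_congr rfl (fun p _ => ?_)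
          unfold mult
          rw [card_eq_sum_ones, sum_filter]
      _ = ∑ a ∈ K, ∑ p : V × V, (if p.1 ∈ a ∧ p.2 ∈ a then 1 else 0) := sum_comm
      _ = ∑ a ∈ K, (q+2)^2 := by
          refine sum_congr rfl (fun a ha => ?_)
          rw [← sum_filter, ← card_eq_sum_ones]
          have : (univ : Finset (V × V)).filter (fun p => p.1 ∈ a ∧ p.2 ∈ a) = a ×ˢ a := by
            ext p; simp
          rw [this, card_product]
          rw [hK, SimpleGraph.mem_cliqueFinset_iff] at ha
          rw [ha.card_eq]; ring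
      _ = _ := by rw [sum_const, smul_eq_mul]
  have h7 : M * ∑ x : V, H.degree x * dH x ≤ n * (K.card * (q+2)^2) := by
    calc M * ∑ x : V, H.degree x * dH x ≤ M * ∑ x : V, n * dH x :=
          Nat.mul_le_mul_left _ (sum_le_sum (fun x _ => Nat.mul_le_mul_right _ (hdegn x)))
      _ = n * (M * ∑ x : V, dH x) := by rw [← mul_sum]; ring
      _ ≤ _ := Nat.mul_le_mul_left _ h6
  have h8 : ∑ x : V, (H.degree x)^2 ≤ ∑ x : V, H.degree x * dI x + ∑ x : V, H.degree x * dII x
      + ∑ x : V, H.degree x * dH x := by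
    rw [← sum_add_distrib, ← sum_add_distrib]
    refine sum_le_sum (fun x _ => ?_)
    rw [sq, ← mul_add, ← mul_add]
    exact Nat.mul_le_mul_left _ (hdeg x)
  calc M * ∑ x : V, (H.degree x)^2
      ≤ M * (∑ x : V, H.degree x * dI x + ∑ x : V, H.degree x * dII x
      + ∑ x : V, H.degree x * dH x) := Nat.mul_le_mul_left _ h8
    _ = M * (∑ x : V, H.degree x * dI x + ∑ x : V, H.degree x * dII x)
      + M * ∑ x : V, H.degree x * dH x := by ring
    _ ≤ M * ((q+1) * (KI.card * (q * n + K0)) + (q+1) * (KII.card * (q * n + K0)))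
      + n * (K.card * (q+2)^2) :=
        Nat.add_le_add (Nat.mul_le_mul_left _ (Nat.add_le_add h3 h5)) h7
    _ = _ := by rw [← hsplit]; ring

end

end Pool.Agent.V11167.Dom
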