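import Mathlib

/-!
Definitions for independent domination in the graph formed by two levels of the Boolean lattice.
-/

namespace Pool.Agent.V11167.Dom

/-- The graph `G_{l,2}(n)`: its vertices are the subsets of `Fin n` with `l` elements or with `2`
elements; an `l`-set `A` and a `2`-set `B` are adjacent exactly when `B ⊆ A`, and there are no
other edges (used for `l ≥ 3`). -/
def levelGraph (l n : ℕ) : SimpleGraph {S : Finset (Fin n) // S.card = l ∨ S.card = 2} :=
  SimpleGraph.fromRel (fun A B => A.1.card = l ∧ B.1.card = 2 ∧ B.1 ⊆ A.1)

/-- `D` is an independent dominating set of `G`: no two vertices of `D` are adjacent, and every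
vertex outside `D` has a neighbour in `D`. -/
def IsIndepDominating {W : Type*} (G : SimpleGraph W) (D : Finset W) : Prop :=
  (∀ v ∈ D, ∀ w ∈ D, ¬ G.Adj v w) ∧ (∀ v, v ∉ D → ∃ w ∈ D, G.Adj v w)

/-- The independent domination number: the least size of an independent dominating set. -/
noncomputable def indepDomNum {W : Type*} (G : SimpleGraph W) : ℕ :=
  sInf {k | ∃ D : Finset W, IsIndepDominating G D ∧ D.card = k}

end Pool.Agent.V11167.Dom
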