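import Pool.Agent.V11167.DomB
import Pool.Agent.V11167.DomDefs

/-!
The asymptotic bound for graphs, and the transfer to independent dominating sets.
-/

namespace Pool.Agent.V11167.Dom
open Finset

section
variable {V : Type*} [Fintype V] [DecidableEq V] (H : SimpleGraph V) [DecidableRel H.Adj]

theorem sum_degree : ∑ x : V, H.degree x = 2 * (H.cliqueFinset 2).card := by
  have h := sum_ext H 1
  have h1 : H.cliqueFinset 1 = univ.map ⟨fun x : V => ({x} : Finset V), singleton_injective⟩ := by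
    ext t
    simp [SimpleGraph.mem_cliqueFinset_iff, SimpleGraph.isNClique_one, eq_comm]
  rw [h1, sum_map] at h
  rw [← show (1+1 : ℕ) = 2 from rfl, ← h]
  refine sum_congr rfl (fun x _ => ?_)
  rw [← H.card_neighborFinset_eq_degree]
  congr 1
  ext y
  simp [mem_ext, SimpleGraph.adj_comm]

end

/-- the constant -/
noncomputable def cs (q : ℕ) : ℝ := 1/((q:ℝ)+1) + 2*q/((q:ℝ)+1)^3

theorem cs_le (q : ℕ) (hq : 2 ≤ q) : cs q ≤ 1 := by
  have hq' : (2:ℝ) ≤ q := by exact_mod_cast hq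
  unfold cs
  have h1 : 1/((q:ℝ)+1) ≤ 1/3 := by
    apply one_div_le_one_div_of_le <;> linarith
  have h2 : 2*(q:ℝ)/((q:ℝ)+1)^3 ≤ 1/2 := by
    rw [div_le_div_iff₀ (by positivity) (by norm_num)]
    nlinarith [sq_nonneg ((q:ℝ)-1), mul_nonneg (by linarith : (0:ℝ) ≤ q) (sq_nonneg ((q:ℝ)-1))]
  linarith

theorem g_bound (q h η : ℝ) (hq : 2 ≤ q) (h0 : 0 ≤ h) (h1 : h ≤ 1) (hη : 0 ≤ η)
    (hh : h ≤ q/(q+1) + η) :
    (1/(q+1) + 2*q/(q+1)^3)/2 - η/2 ≤ 1/2 - h/2 + h^2/((q+1)*q) := by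
  set a : ℝ := q/(q+1) with ha
  have hq1 : 0 < q + 1 := by linarith
  have ha1 : a ≤ 1 := by rw [ha, div_le_one hq1]; linarith
  have ha0 : 0 ≤ a := by rw [ha]; positivity
  have hprod : (6:ℝ) ≤ (q+1)*q := by nlinarith
  have hpp : 0 < (q+1)*q := by linarith
  have e1 : (1/(q+1) + 2*q/(q+1)^3)/2 = 1/2 - a/2 + a^2/((q+1)*q) := by
    rw [ha]; field_simp; ring
  rw [e1]
  have e2 : 1/2 - h/2 + h^2/((q+1)*q) - (1/2 - a/2 + a^2/((q+1)*q))
      = (a - h) * (1/2 - (a+h)/((q+1)*q)) := by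
    field_simp; ring
  have e3 : (a+h)/((q+1)*q) ≤ 1/3 := by
    rw [div_le_div_iff₀ hpp (by norm_num)]; nlinarith
  have e4 : 0 ≤ (a+h)/((q+1)*q) := by positivity
  have e5 : -(η/2) ≤ (a - h) * (1/2 - (a+h)/((q+1)*q)) := by
    rcases le_total h a with hc | hc
    · have : 0 ≤ (a - h) * (1/2 - (a+h)/((q+1)*q)) :=
        mul_nonneg (by linarith) (by linarith)
      linarith
    · nlinarith
  linarith

theorem graph_bound (q : ℕ) (hq : 2 ≤ q) (δ : ℝ) (hδ0 : 0 < δ) (hδ1 : δ < 1) :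
    ∃ n0 : ℕ, ∀ n ≥ n0, ∀ (H : SimpleGraph (Fin n)) [DecidableRel H.Adj],
      (∀ x y, H.Adj x y → ∃ a ∈ H.cliqueFinset (q+2), x ∈ a ∧ y ∈ a) →
      (cs q - δ) * (n.choose 2 : ℝ) ≤
        (n.choose 2 : ℝ) - ((H.cliqueFinset 2).card : ℝ) + ((H.cliqueFinset (q+2)).card : ℝ) := by
  have hqr : (2:ℝ) ≤ q := by exact_mod_cast hq
  obtain ⟨M, hM⟩ := exists_nat_ge (4*((q:ℝ)+2)^2/δ)
  have hMpos : (0:ℝ) < M := lt_of_lt_of_le (by positivity) hM
  have hM' : 4*((q:ℝ)+2)^2 ≤ M * δ := by rwa [div_le_iff₀ hδ0] at hM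
  set K0 : ℝ := 2*((q:ℝ)+2) + 2*(((q:ℝ)+2)^3*M) with hK0
  have hK0p : 0 ≤ K0 := by positivity
  set K1 : ℝ := 1/2 + K0/(2*q) with hK1
  set η : ℝ := δ/4 with hη
  have hηp : 0 < η := by positivity
  obtain ⟨n1, hn1⟩ := exists_nat_ge (4*K1/δ)
  obtain ⟨n2, hn2⟩ := exists_nat_gt (((q+2).factorial : ℝ)/η^(q+2))
  refine ⟨n1 + n2 + 2, fun n hn H _ hcov => ?_⟩
  set x : ℝ := (n:ℝ) with hx
  have hx2 : (2:ℝ) ≤ x := by
    have : (2:ℕ) ≤ n := by omega
    rw [hx]; exact_mod_cast this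
  have hxp : 0 < x := by linarith
  have hxn1 : 4*K1/δ ≤ x := by
    have : (n1:ℝ) ≤ n := by exact_mod_cast (by omega : n1 ≤ n)
    linarith
  have hxn2 : ((q+2).factorial : ℝ)/η^(q+2) < x := by
    have : (n2:ℝ) ≤ n := by exact_mod_cast (by omega : n2 ≤ n)
    linarith
  set N : ℝ := ((H.cliqueFinset (q+2)).card : ℝ) with hN
  set E : ℝ := ((H.cliqueFinset 2).card : ℝ) with hE
  set C : ℝ := (n.choose 2 : ℝ) with hC
  have hCx : C = x*(x-1)/2 := by rw [hC, Nat.cast_choose_two]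
  have hC0 : 0 ≤ C := by positivity
  have hN0 : 0 ≤ N := by positivity
  have hE0 : 0 ≤ E := by positivity
  have hEC : E ≤ C := by
    rw [hE, hC]
    have : H.cliqueFinset 2 ⊆ powersetCard 2 univ := by
      intro t ht
      rw [SimpleGraph.mem_cliqueFinset_iff] at ht
      rw [mem_powersetCard]
      exact ⟨subset_univ _, ht.card_eq⟩
    have h2 := card_le_card this
    rw [card_powersetCard, card_univ, Fintype.card_fin] at h2
    exact_mod_cast h2
  have hcs1 : cs q - δ ≤ 1 := by have := cs_le q hq; linarith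
  rcases le_total C N with hCN | hNC
  · have : (cs q - δ) * C ≤ 1 * C := mul_le_mul_of_nonneg_right hcs1 hC0
    linarith
  have hNx : N ≤ x^2/2 := by rw [hCx] at hNC; nlinarith
  set h : ℝ := 2*E/x^2 with hh
  have hhx : h * x^2 = 2*E := by rw [hh]; field_simp
  have hh0 : 0 ≤ h := by positivity
  have hh1 : h ≤ 1 := by
    rw [hh, div_le_one (by positivity)]
    rw [hCx] at hEC
    nlinarith
  have hcardV : (Fintype.card (Fin n) : ℝ) = x := by simp [hx]
  -- density bound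
  have hturan : h ≤ (q:ℝ)/((q:ℝ)+1) + η := by
    by_contra hlt
    push Not at hlt
    have haa2 : aa H 2 = h * x^2 := by
      rw [hhx]; unfold aa; rw [hE]; norm_num [Nat.factorial]
    have ht : η ≤ 1 - (((q+2 : ℕ):ℝ)-1) * (1 - h) := by
      push_cast
      have hq1 : (0:ℝ) < (q:ℝ)+1 := by linarith
      have h3 : (q:ℝ)/((q:ℝ)+1) * ((q:ℝ)+1) = q := by field_simp
      have h4 : ((q:ℝ)/((q:ℝ)+1) + η) * ((q:ℝ)+1) < h * ((q:ℝ)+1) :=
        mul_lt_mul_of_pos_right hlt hq1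
      nlinarith
    have hlow := aa_lower H x h η hcardV.symm haa2 hxp (q+2) (by omega) hηp ht (by linarith)
      (q+2) le_rfl
    have hup : aa H (q+2) ≤ ((q+2).factorial : ℝ) * (x^2/2) := by
      unfold aa
      exact mul_le_mul_of_nonneg_left hNx (by positivity)
    have hge : x^3 ≤ x^(q+2) := pow_le_pow_right₀ (by linarith) (by omega)
    have hfac : ((q+2).factorial : ℝ) < x * η^(q+2) := by
      rwa [div_lt_iff₀ (by positivity)] at hxn2
    have hfp : (0:ℝ) < ((q+2).factorial : ℝ) := by positivity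
    have h5 : (η * x)^(q+2) = η^(q+2) * x^(q+2) := mul_pow _ _ _
    have h6 : η^(q+2) * x^3 ≤ η^(q+2) * x^(q+2) := mul_le_mul_of_nonneg_left hge (by positivity)
    have h7 : ((q+2).factorial : ℝ) * x^2 < (x * η^(q+2)) * x^2 :=
      mul_lt_mul_of_pos_right hfac (by positivity)
    have h8 : (x * η^(q+2)) * x^2 = η^(q+2) * x^3 := by ring
    nlinarith [mul_pos hfp (pow_pos hxp 2)]
  -- counting
  have hmain := main_count H q M hq hcov
  have hsd := sum_degree H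
  have hcsq : (∑ y : Fin n, H.degree y)^2 ≤ (univ : Finset (Fin n)).card * ∑ y : Fin n, (H.degree y)^2 :=
    sq_sum_le_card_mul_sum_sq
  rw [hsd, card_univ] at hcsq
  set S2 : ℝ := ((∑ y : Fin n, (H.degree y)^2 : ℕ) : ℝ) with hS2
  have hA1 : (2*E)^2 ≤ x * S2 := by
    rw [← hcardV, hE, hS2]
    exact_mod_cast hcsq
  have hA2 : (M:ℝ) * S2 ≤ M * (((q:ℝ)+1) * (N * (q * x + K0))) + x * (N * ((q:ℝ)+2)^2) := by
    rw [← hcardV, hN, hS2, hK0]
    exact_mod_cast hmain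
  have hA3 : (q:ℝ) * (q+1) * N ≥ h^2 * x^2 - ((q:ℝ)+1)*K0*x/2 - δ*x^2/8 := by
    have b1 : (M:ℝ) * (h^2 * x^4) ≤ x * (M * (((q:ℝ)+1) * (N * (q * x + K0))) + x * (N * ((q:ℝ)+2)^2)) := by
      have : (M:ℝ) * (h^2 * x^4) = M * (2*E)^2 := by rw [← hhx]; ring
      rw [this]
      calc (M:ℝ) * (2*E)^2 ≤ M * (x * S2) := mul_le_mul_of_nonneg_left hA1 hMpos.le
        _ = x * (M * S2) := by ring
        _ ≤ _ := mul_le_mul_of_nonneg_left hA2 hxp.le
    have b2 : x * (M * (((q:ℝ)+1) * (N * (q * x + K0))) + x * (N * ((q:ℝ)+2)^2))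
        ≤ M * x^2 * ((q:ℝ) * (q+1) * N) + M * x * (((q:ℝ)+1) * K0 * (x^2/2))
          + x^2 * ((x^2/2) * ((q:ℝ)+2)^2) := by
      have c1 : ((q:ℝ)+1) * K0 * N ≤ ((q:ℝ)+1) * K0 * (x^2/2) :=
        mul_le_mul_of_nonneg_left hNx (by positivity)
      have c2 : N * ((q:ℝ)+2)^2 ≤ (x^2/2) * ((q:ℝ)+2)^2 :=
        mul_le_mul_of_nonneg_right hNx (by positivity)
      have c3 : M * x * (((q:ℝ)+1) * K0 * N) ≤ M * x * (((q:ℝ)+1) * K0 * (x^2/2)) :=
        mul_le_mul_of_nonneg_left c1 (by positivity)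
      have c4 : x^2 * (N * ((q:ℝ)+2)^2) ≤ x^2 * ((x^2/2) * ((q:ℝ)+2)^2) :=
        mul_le_mul_of_nonneg_left c2 (by positivity)
      nlinarith
    have b3 : x^2 * ((x^2/2) * ((q:ℝ)+2)^2) ≤ M * x^2 * (δ*x^2/8) := by
      have : x^2 * ((x^2/2) * ((q:ℝ)+2)^2) = x^4 / 8 * (4*((q:ℝ)+2)^2) := by ring
      rw [this]
      calc x^4/8 * (4*((q:ℝ)+2)^2) ≤ x^4/8 * (M * δ) :=
            mul_le_mul_of_nonneg_left hM' (by positivity)
        _ = _ := by ring
    have b4 : (M * x^2) * (h^2*x^2) ≤ (M * x^2) * ((q:ℝ) * (q+1) * N + ((q:ℝ)+1)*K0*x/2 + δ*x^2/8) := by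
      calc (M * x^2) * (h^2*x^2) = (M:ℝ) * (h^2 * x^4) := by ring
        _ ≤ _ := b1
        _ ≤ _ := b2
        _ ≤ M * x^2 * ((q:ℝ) * (q+1) * N) + M * x * (((q:ℝ)+1) * K0 * (x^2/2))
          + M * x^2 * (δ*x^2/8) := by linarith
        _ = _ := by ring
    have := le_of_mul_le_mul_left b4 (by positivity)
    linarith
  have hqq : (6:ℝ) ≤ (q:ℝ) * (q+1) := by nlinarith
  have hA4 : N ≥ h^2*x^2/(((q:ℝ)+1)*q) - K0*x/(2*q) - δ*x^2/8 := by
    have hqqp : (0:ℝ) < (q:ℝ)*(q+1) := by linarith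
    have d1 : h^2*x^2/(((q:ℝ)+1)*q) - K0*x/(2*q) = (h^2 * x^2 - ((q:ℝ)+1)*K0*x/2)/((q:ℝ)*(q+1)) := by
      field_simp
    have d2 : δ*x^2/8/((q:ℝ)*(q+1)) ≤ δ*x^2/8 := div_le_self (by positivity) (by linarith)
    have d3 : (h^2 * x^2 - ((q:ℝ)+1)*K0*x/2 - δ*x^2/8)/((q:ℝ)*(q+1)) ≤ N := by
      rw [div_le_iff₀ hqqp]; linarith
    rw [sub_div] at d3
    linarith
  have hg := g_bound (q:ℝ) h η hqr hh0 hh1 hηp.le hturan
  have hcsdef : cs q = 1/((q:ℝ)+1) + 2*q/((q:ℝ)+1)^3 := rfl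
  rw [← hcsdef] at hg
  have hg2 := mul_le_mul_of_nonneg_right hg (sq_nonneg x)
  have hE' : E = h * x^2/2 := by linarith
  have hK1x : K1 * x ≤ δ*x^2/4 := by
    have : 4*K1 ≤ x * δ := by rwa [div_le_iff₀ hδ0] at hxn1
    nlinarith
  have hfin : (cs q - δ) * x^2/2 ≤ C - E + N := by
    have e1 : (1/2 - h/2 + h^2/(((q:ℝ)+1)*q)) * x^2 = x^2/2 - h*x^2/2 + h^2*x^2/(((q:ℝ)+1)*q) := by
      ring
    rw [e1] at hg2
    have e2 : K1 * x = x/2 + K0*x/(2*q) := by rw [hK1]; ring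
    rw [e2] at hK1x
    rw [hCx, hE']
    have e3 : x*(x-1)/2 = x^2/2 - x/2 := by ring
    rw [e3, hη] at *
    nlinarith
  rcases le_total (cs q) δ with hc | hc
  · have : (cs q - δ) * C ≤ 0 := mul_nonpos_of_nonpos_of_nonneg (by linarith) hC0
    linarith
  · have : (cs q - δ) * C ≤ (cs q - δ) * x^2/2 := by
      have h1 : C ≤ x^2/2 := by rw [hCx]; nlinarith
      have := mul_le_mul_of_nonneg_left h1 (by linarith : 0 ≤ cs q - δ)
      linarith
    linarith

/-- transfer to dominating sets -/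
theorem transfer (q n : ℕ) (hq : 2 ≤ q)
    (D : Finset {S : Finset (Fin n) // S.card = q+2 ∨ S.card = 2})
    (hD : IsIndepDominating (levelGraph (q+2) n) D) :
    ∃ (H : SimpleGraph (Fin n)) (_ : DecidableRel H.Adj),
      (∀ x y, H.Adj x y → ∃ a ∈ H.cliqueFinset (q+2), x ∈ a ∧ y ∈ a) ∧
      n.choose 2 + (H.cliqueFinset (q+2)).card ≤ D.card + (H.cliqueFinset 2).card := by
  classical
  obtain ⟨hind, hdom⟩ := hD
  set F : Finset (Finset (Fin n)) := D.image Subtype.val with hF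
  have hmemF : ∀ S : Finset (Fin n), S ∈ F ↔ ∃ h, (⟨S, h⟩ : {S : Finset (Fin n) // S.card = q+2 ∨ S.card = 2}) ∈ D := by
    intro S
    rw [hF, mem_image]
    constructor
    · rintro ⟨⟨T, hT⟩, h1, h2⟩
      simp only at h2
      subst h2
      exact ⟨hT, h1⟩
    · rintro ⟨h, h1⟩
      exact ⟨_, h1, rfl⟩
  have hFcard : F.card = D.card := card_image_of_injective _ Subtype.val_injective
  -- adjacency
  have hadj : ∀ (A B : Finset (Fin n)) (hA : A.card = q+2) (hB : B.card = 2), B ⊆ A →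
      (levelGraph (q+2) n).Adj ⟨A, Or.inl hA⟩ ⟨B, Or.inr hB⟩ := by
    intro A B hA hB hBA
    rw [levelGraph, SimpleGraph.fromRel_adj]
    refine ⟨?_, Or.inl ⟨hA, hB, hBA⟩⟩
    intro h
    have : A = B := congrArg Subtype.val h
    rw [this] at hA
    omega
  have hnot : ∀ (A B : Finset (Fin n)), A.card = q+2 → B.card = 2 → B ⊆ A → A ∈ F → B ∉ F := by
    intro A B hA hB hBA hAF hBF
    rw [hmemF] at hAF hBF
    obtain ⟨h1, h1'⟩ := hAF
    obtain ⟨h2, h2'⟩ := hBF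
    exact hind _ h1' _ h2' (hadj A B hA hB hBA)
  obtain ⟨H, hHadj⟩ : ∃ H : SimpleGraph (Fin n),
      ∀ x y, H.Adj x y ↔ x ≠ y ∧ ({x, y} : Finset (Fin n)) ∉ F :=
    ⟨{ Adj := fun x y => x ≠ y ∧ ({x, y} : Finset (Fin n)) ∉ F
       symm := ⟨fun x y h => ⟨h.1.symm, by rw [pair_comm]; exact h.2⟩⟩
       loopless := ⟨fun x h => h.1 rfl⟩ }, fun _ _ => Iff.rfl⟩
  refine ⟨H, Classical.decRel _, ?_, ?_⟩
  · intro x y hxy
    rw [hHadj] at hxy
    have hc2 : ({x, y} : Finset (Fin n)).card = 2 := card_pair hxy.1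
    have hnD : (⟨{x, y}, Or.inr hc2⟩ : {S : Finset (Fin n) // S.card = q+2 ∨ S.card = 2}) ∉ D := by
      intro h
      exact hxy.2 ((hmemF _).mpr ⟨_, h⟩)
    obtain ⟨⟨w, hw⟩, hwD, hadjw⟩ := hdom _ hnD
    rw [levelGraph, SimpleGraph.fromRel_adj] at hadjw
    obtain ⟨_, h1 | h1⟩ := hadjw
    · simp only at h1
      omega
    · simp only at h1
      obtain ⟨hwc, _, hsub⟩ := h1
      refine ⟨w, ?_, hsub (by simp), hsub (by simp)⟩
      rw [SimpleGraph.mem_cliqueFinset_iff]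
      refine ⟨?_, hwc⟩
      intro u hu v hv huv
      rw [hHadj]
      refine ⟨huv, hnot w _ hwc (card_pair huv) ?_ ((hmemF _).mpr ⟨_, hwD⟩)⟩
      intro z hz
      rw [mem_insert, mem_singleton] at hz
      rcases hz with rfl | rfl
      · exact hu
      · exact hv
  · have hsub1 : powersetCard 2 (univ : Finset (Fin n)) ⊆
        @SimpleGraph.cliqueFinset _ H _ _ (Classical.decRel _) 2 ∪ F.filter (fun S => S.card = 2) := by
      intro S hS
      rw [mem_powersetCard] at hS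
      rw [mem_union, mem_filter, SimpleGraph.mem_cliqueFinset_iff]
      by_cases hSF : S ∈ F
      · exact Or.inr ⟨hSF, hS.2⟩
      · left
        refine ⟨?_, hS.2⟩
        obtain ⟨x, y, hxy, rfl⟩ := card_eq_two.mp hS.2
        intro u hu v hv huv
        rw [hHadj]
        refine ⟨huv, ?_⟩
        simp only [coe_insert, coe_singleton, Set.mem_insert_iff, Set.mem_singleton_iff] at hu hv
        rcases hu with rfl | rfl <;> rcases hv with rfl | rfl
        · exact absurd rfl huv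
        · exact hSF
        · rw [pair_comm]; exact hSF
        · exact absurd rfl huv
    have hsub2 : @SimpleGraph.cliqueFinset _ H _ _ (Classical.decRel _) (q+2) ⊆
        F.filter (fun S => S.card = q+2) := by
      intro a ha
      rw [SimpleGraph.mem_cliqueFinset_iff] at ha
      rw [mem_filter]
      refine ⟨?_, ha.card_eq⟩
      by_contra haF
      have hnD : (⟨a, Or.inl ha.card_eq⟩ : {S : Finset (Fin n) // S.card = q+2 ∨ S.card = 2}) ∉ D := by
        intro h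
        exact haF ((hmemF _).mpr ⟨_, h⟩)
      obtain ⟨⟨w, hw⟩, hwD, hadjw⟩ := hdom _ hnD
      rw [levelGraph, SimpleGraph.fromRel_adj] at hadjw
      obtain ⟨_, h1 | h1⟩ := hadjw
      · simp only at h1
        obtain ⟨_, hwc, hsub⟩ := h1
        obtain ⟨x, y, hxy, rfl⟩ := card_eq_two.mp hwc
        have hcl := ha.isClique (hsub (by simp) : x ∈ a) (hsub (by simp) : y ∈ a) hxy
        rw [hHadj] at hcl
        exact hcl.2 ((hmemF _).mpr ⟨_, hwD⟩)
      · simp only at h1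
        have := ha.card_eq
        omega
    have hdisj : Disjoint (F.filter (fun S => S.card = q+2)) (F.filter (fun S => S.card = 2)) := by
      rw [disjoint_filter]
      intro S _ h1 h2
      omega
    have hsum : (F.filter (fun S => S.card = q+2)).card + (F.filter (fun S => S.card = 2)).card
        ≤ F.card := by
      rw [← card_union_of_disjoint hdisj]
      exact card_le_card (union_subset (filter_subset _ _) (filter_subset _ _))
    have hc1 := card_le_card hsub1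
    rw [card_powersetCard, card_univ, Fintype.card_fin] at hc1
    have hc1' := hc1.trans (card_union_le _ _)
    have hc2 := card_le_card hsub2
    rw [hFcard] at hsum
    omega

theorem exists_indepDominating (q n : ℕ) :
    ∃ D : Finset {S : Finset (Fin n) // S.card = q+2 ∨ S.card = 2},
      IsIndepDominating (levelGraph (q+2) n) D := by
  classical
  by_cases hq : q = 0
  · subst hq
    refine ⟨univ, ?_, fun v hv => absurd (mem_univ v) hv⟩
    intro v _ w _ hvw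
    rw [levelGraph, SimpleGraph.fromRel_adj] at hvw
    obtain ⟨hne, h | h⟩ := hvw
    · exact hne (Subtype.ext (eq_of_subset_of_card_le h.2.2 (by omega)).symm)
    · exact hne (Subtype.ext (eq_of_subset_of_card_le h.2.2 (by omega)))
  refine ⟨univ.filter (fun S => S.1.card = 2), ?_, ?_⟩
  · intro v hv w hw hvw
    rw [mem_filter] at hv hw
    rw [levelGraph, SimpleGraph.fromRel_adj] at hvw
    obtain ⟨_, h | h⟩ := hvw <;> omega
  · rintro ⟨S, hS⟩ hv
    rw [mem_filter] at hv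
    have hS2 : S.card ≠ 2 := fun h => hv ⟨mem_univ _, h⟩
    have hSc : S.card = q+2 := by omega
    obtain ⟨T, hTS, hT⟩ := exists_subset_card_eq (show 2 ≤ S.card by omega)
    refine ⟨⟨T, Or.inr hT⟩, ?_, ?_⟩
    · rw [mem_filter]; exact ⟨mem_univ _, hT⟩
    · rw [levelGraph, SimpleGraph.fromRel_adj]
      refine ⟨?_, Or.inl ⟨hSc, hT, hTS⟩⟩
      intro h
      have : S = T := congrArg Subtype.val h
      rw [this] at hS2
      exact hS2 hT

theorem final (l : ℕ) (hl : 4 ≤ l) (δ : ℝ) (hδ : 0 < δ) :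
    ∀ᶠ n : ℕ in Filter.atTop,
      (((l:ℝ) + 3) / (((l:ℝ) - 1) * ((l:ℝ) + 1))
        + 2 * ((l:ℝ) - 3) / (((l:ℝ) - 1)^3 * ((l:ℝ) + 1)) - δ) * (n.choose 2 : ℝ)
      ≤ (indepDomNum (levelGraph l n) : ℝ) := by
  obtain ⟨q, rfl⟩ : ∃ q, l = q + 2 := ⟨l - 2, by omega⟩
  have hq : 2 ≤ q := by omega
  have hqr : (2:ℝ) ≤ q := by exact_mod_cast hq
  have hconst : ((((q+2:ℕ):ℝ) + 3) / ((((q+2:ℕ):ℝ) - 1) * (((q+2:ℕ):ℝ) + 1))
        + 2 * (((q+2:ℕ):ℝ) - 3) / ((((q+2:ℕ):ℝ) - 1)^3 * (((q+2:ℕ):ℝ) + 1))) = cs q := by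
    unfold cs
    push_cast
    have h1 : (q:ℝ) + 2 - 1 = q + 1 := by ring
    have h2 : (q:ℝ) + 2 + 1 = q + 3 := by ring
    rw [h1, h2]
    have h3 : (q:ℝ) + 1 ≠ 0 := by positivity
    have h4 : (q:ℝ) + 3 ≠ 0 := by positivity
    field_simp
    ring
  rw [hconst]
  set δ' : ℝ := min δ (1/2) with hδ'
  have hδ'0 : 0 < δ' := lt_min hδ (by norm_num)
  have hδ'1 : δ' < 1 := lt_of_le_of_lt (min_le_right _ _) (by norm_num)
  obtain ⟨n0, hn0⟩ := graph_bound q hq δ' hδ'0 hδ'1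
  rw [Filter.eventually_atTop]
  refine ⟨n0, fun n hn => ?_⟩
  have hne : {k | ∃ D : Finset {S : Finset (Fin n) // S.card = q+2 ∨ S.card = 2},
      IsIndepDominating (levelGraph (q+2) n) D ∧ D.card = k}.Nonempty := by
    obtain ⟨D, hD⟩ := exists_indepDominating q n
    exact ⟨_, D, hD, rfl⟩
  obtain ⟨D, hD, hDc⟩ := Nat.sInf_mem hne
  obtain ⟨H, hdec, hcov, hcard⟩ := transfer q n hq D hD
  have hb := @hn0 n hn H hdec hcov
  have hDc' : (D.card : ℝ) = (indepDomNum (levelGraph (q+2) n) : ℝ) := by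
    rw [hDc]; rfl
  rw [← hDc']
  have hcard' : (n.choose 2 : ℝ) + (H.cliqueFinset (q+2)).card ≤ D.card + (H.cliqueFinset 2).card := by
    exact_mod_cast hcard
  have hmono : (cs q - δ) * (n.choose 2 : ℝ) ≤ (cs q - δ') * (n.choose 2 : ℝ) := by
    apply mul_le_mul_of_nonneg_right _ (by positivity)
    have := min_le_left δ (1/2)
    linarith
  linarith

end Pool.Agent.V11167.Dom
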