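import Mathlib

/-! Norm-one elements of `ℚ(√-m)` and multiplicative independence (for MP_349919_co). -/

namespace Pool.Agent.V11167.Eqg

open Complex

abbrev Zm (m : ℕ) := ℤ√(-(m : ℤ))

lemma sqrt_sq' (m : ℕ) : ((Real.sqrt m : ℝ) : ℂ) * (Real.sqrt m : ℝ) = (m : ℂ) := by
  rw [← ofReal_mul, Real.mul_self_sqrt (Nat.cast_nonneg m)]; simp

noncomputable def ph (m : ℕ) : Zm m →+* ℂ :=
  Zsqrtd.lift ⟨((Real.sqrt m : ℝ) : ℂ) * I, by
    have h := sqrt_sq' m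
    push_cast
    linear_combination (I ^ 2) * h + (m : ℂ) * I_sq⟩

lemma ph_apply (m : ℕ) (z : Zm m) : ph m z = z.re + z.im * (((Real.sqrt m : ℝ) : ℂ) * I) := rfl

lemma ph_re (m : ℕ) (z : Zm m) : (ph m z).re = z.re := by
  rw [ph_apply]; simp

lemma ph_im (m : ℕ) (z : Zm m) : (ph m z).im = z.im * Real.sqrt m := by
  rw [ph_apply]; simp

lemma ph_inj (m : ℕ) (hm : 0 < m) : Function.Injective (ph m) := by
  intro z w h
  have h1 := congrArg Complex.re h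
  have h2 := congrArg Complex.im h
  rw [ph_re, ph_re] at h1
  rw [ph_im, ph_im] at h2
  have hs : Real.sqrt m ≠ 0 := by
    rw [Real.sqrt_ne_zero']; exact_mod_cast hm
  have h3 := mul_right_cancel₀ hs h2
  exact Zsqrtd.ext (by exact_mod_cast h1) (by exact_mod_cast h3)

lemma ph_star (m : ℕ) (z : Zm m) : ph m (star z) = (starRingEnd ℂ) (ph m z) := by
  apply Complex.ext
  · rw [ph_re, Complex.conj_re, ph_re]; simp
  · rw [ph_im, Complex.conj_im, ph_im]; simp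

lemma ph_int (m : ℕ) (q : ℤ) : ph m (q : Zm m) = (q : ℂ) := by simp

lemma normSq_ph (m : ℕ) (z : Zm m) : Complex.normSq (ph m z) = (z.norm : ℝ) := by
  rw [Complex.normSq_apply, ph_re, ph_im, Zsqrtd.norm_def]
  push_cast
  have : Real.sqrt m * Real.sqrt m = m := Real.mul_self_sqrt (Nat.cast_nonneg m)
  linear_combination (z.im : ℝ) ^ 2 * this

/-- powers of `γ` modulo its norm -/
lemma pow_mod (m : ℕ) (γ : Zm m) (a : ℕ) :
    ((γ.norm : ℤ) : Zm m) ∣ γ ^ (a + 1) - ((2 * γ.re : ℤ) : Zm m) ^ a * γ := by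
  induction a with
  | zero => simp
  | succ a ih =>
    obtain ⟨t, ht⟩ := ih
    have h1 : γ * γ = ((2 * γ.re : ℤ) : Zm m) * γ - ((γ.norm : ℤ) : Zm m) := by
      ext
      · simp [Zsqrtd.norm_def]; ring
      · simp [Zsqrtd.norm_def]; ring
    refine ⟨t * γ - ((2 * γ.re : ℤ) : Zm m) ^ a, ?_⟩
    have h2 : γ ^ (a + 1) = ((2 * γ.re : ℤ) : Zm m) ^ a * γ + ((γ.norm : ℤ) : Zm m) * t := by
      rw [← ht]; ring
    calc γ ^ (a + 1 + 1) - ((2 * γ.re : ℤ) : Zm m) ^ (a + 1) * γ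
        = γ ^ (a + 1) * γ - ((2 * γ.re : ℤ) : Zm m) ^ (a + 1) * γ := by ring
      _ = (((2 * γ.re : ℤ) : Zm m) ^ a * γ + ((γ.norm : ℤ) : Zm m) * t) * γ
          - ((2 * γ.re : ℤ) : Zm m) ^ (a + 1) * γ := by rw [h2]
      _ = ((2 * γ.re : ℤ) : Zm m) ^ a * (γ * γ) + ((γ.norm : ℤ) : Zm m) * t * γ
          - ((2 * γ.re : ℤ) : Zm m) ^ (a + 1) * γ := by ring
      _ = ((γ.norm : ℤ) : Zm m) * (t * γ - ((2 * γ.re : ℤ) : Zm m) ^ a) := by rw [h1]; ring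

lemma mul_star_norm (m : ℕ) (γ : Zm m) : γ * star γ = ((γ.norm : ℤ) : Zm m) := by
  rw [Zsqrtd.norm_eq_mul_conj]

/-- independence, core step -/
lemma indep_core (m : ℕ) (γ δ : Zm m) (hγim : γ.im = 1) (hN : 1 < γ.norm)
    (h1 : IsCoprime γ.norm (2 * γ.re)) (h2 : IsCoprime γ.norm δ.norm) (a k : ℕ) (ha : 1 ≤ a)
    (s : ℤ)
    (h : γ ^ a * δ ^ k = (s : Zm m) * star (γ ^ a * δ ^ k)) : False := by
  obtain ⟨b, rfl⟩ : ∃ b, a = b + 1 := ⟨a - 1, by omega⟩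
  -- N divides γ^(b+2) δ^k
  have e1 : γ ^ (b + 1 + 1) * δ ^ k = ((γ.norm : ℤ) : Zm m) * ((s : Zm m) * (star γ) ^ b * (star δ) ^ k) := by
    calc γ ^ (b + 1 + 1) * δ ^ k = γ * (γ ^ (b + 1) * δ ^ k) := by ring
      _ = γ * ((s : Zm m) * star (γ ^ (b + 1) * δ ^ k)) := by rw [← h]
      _ = (γ * star γ) * ((s : Zm m) * (star γ) ^ b * (star δ) ^ k) := by
        rw [star_mul', star_pow, star_pow]; ring
      _ = _ := by rw [mul_star_norm]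
  obtain ⟨t, ht⟩ := pow_mod m γ (b + 1)
  have e2 : ((γ.norm : ℤ) : Zm m) ∣ ((2 * γ.re : ℤ) : Zm m) ^ (b + 1) * γ * δ ^ k := by
    refine ⟨(s : Zm m) * (star γ) ^ b * (star δ) ^ k - t * δ ^ k, ?_⟩
    have h3 : ((2 * γ.re : ℤ) : Zm m) ^ (b + 1) * γ = γ ^ (b + 1 + 1) - ((γ.norm : ℤ) : Zm m) * t := by
      rw [← ht]; ring
    rw [h3, sub_mul, e1]; ring
  have e3 : ((γ.norm : ℤ) : Zm m) ∣ (((2 * γ.re) ^ (b + 1) * δ.norm ^ k : ℤ) : Zm m) * γ := by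
    have h4 : (((2 * γ.re) ^ (b + 1) * δ.norm ^ k : ℤ) : Zm m) * γ
        = (((2 * γ.re : ℤ) : Zm m) ^ (b + 1) * γ * δ ^ k) * (star δ) ^ k := by
      push_cast
      rw [← mul_star_norm m δ, mul_pow]; ring
    rw [h4]
    exact Dvd.dvd.mul_right e2 _
  obtain ⟨w, hw⟩ := e3
  have h5 := congrArg Zsqrtd.im hw
  simp only [Zsqrtd.im_mul, Zsqrtd.re_intCast, Zsqrtd.im_intCast, hγim, mul_one, zero_mul,
    add_zero] at h5
  have hdvd : γ.norm ∣ (2 * γ.re) ^ (b + 1) * δ.norm ^ k := ⟨w.im, h5⟩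
  have hcop : IsCoprime γ.norm ((2 * γ.re) ^ (b + 1) * δ.norm ^ k) :=
    (h1.pow_right).mul_right h2.pow_right
  have hunit := hcop.isUnit_of_dvd' dvd_rfl hdvd
  rw [Int.isUnit_iff] at hunit
  omega

end Pool.Agent.V11167.Eqg
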