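import Pool.Agent.V11167.EqgA

/-! Norm-one elements, pigeonhole (for MP_349919_co). -/

namespace Pool.Agent.V11167.Eqg

open Complex

/-- elements of `ℚ(√-m)` inside `ℂ` -/
def inK (m : ℕ) (z : ℂ) : Prop := ∃ (x : Zm m) (q : ℤ), q ≠ 0 ∧ z = ph m x / q

/-- norm-one elements of `ℚ(√-m)` -/
def IsT (m : ℕ) (z : ℂ) : Prop := ‖z‖ = 1 ∧ inK m z

lemma T_ne {m : ℕ} {z : ℂ} (h : IsT m z) : z ≠ 0 := by
  intro h0
  have := h.1
  rw [h0, norm_zero] at this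
  exact zero_ne_one this

lemma T_mul {m : ℕ} {z w : ℂ} (hz : IsT m z) (hw : IsT m w) : IsT m (z * w) := by
  obtain ⟨h1, x, q, hq, rfl⟩ := hz
  obtain ⟨h2, y, r, hr, rfl⟩ := hw
  refine ⟨by rw [norm_mul, h1, h2, one_mul], x * y, q * r, mul_ne_zero hq hr, ?_⟩
  rw [map_mul]; push_cast
  rw [div_mul_div_comm]

lemma T_neg {m : ℕ} {z : ℂ} (hz : IsT m z) : IsT m (-z) := by
  obtain ⟨h1, x, q, hq, rfl⟩ := hz
  refine ⟨by rw [norm_neg, h1], -x, q, hq, ?_⟩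
  rw [map_neg, neg_div]

lemma T_one {m : ℕ} : IsT m 1 := ⟨by simp, 1, 1, one_ne_zero, by simp⟩

lemma T_inv {m : ℕ} {z : ℂ} (hz : IsT m z) : IsT m z⁻¹ := by
  have hz1 := hz.1
  obtain ⟨h1, x, q, hq, hzx⟩ := hz
  refine ⟨by rw [norm_inv, h1, inv_one], star x, q, hq, ?_⟩
  have h2 : z⁻¹ = (starRingEnd ℂ) z := by
    rw [Complex.inv_def, Complex.normSq_eq_norm_sq, hz1]; simp
  rw [h2, hzx, map_div₀, ph_star]
  congr 1
  exact map_intCast (starRingEnd ℂ) q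

lemma T_zpow {m : ℕ} {z : ℂ} (hz : IsT m z) (a : ℤ) : IsT m (z ^ a) := by
  have hnat : ∀ n : ℕ, IsT m (z ^ n) := by
    intro n
    induction n with
    | zero => simpa using T_one
    | succ n ih => rw [pow_succ]; exact T_mul ih hz
  rcases Int.eq_nat_or_neg a with ⟨n, rfl | rfl⟩
  · rw [zpow_natCast]; exact hnat n
  · rw [zpow_neg, zpow_natCast]; exact T_inv (hnat n)

lemma norm_ph_eq {m : ℕ} {x y : Zm m} (h : x.norm = y.norm) : ‖ph m x‖ = ‖ph m y‖ := by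
  have h1 := normSq_ph m x
  have h2 := normSq_ph m y
  rw [Complex.normSq_eq_norm_sq] at h1 h2
  have h3 : ‖ph m x‖ ^ 2 = ‖ph m y‖ ^ 2 := by rw [h1, h2, h]
  exact (sq_eq_sq₀ (norm_nonneg _) (norm_nonneg _)).1 h3

lemma ph_ne {m : ℕ} {y : Zm m} (h : y.norm ≠ 0) : ph m y ≠ 0 := by
  intro h0
  have h1 := normSq_ph m y
  rw [h0, map_zero] at h1
  exact h (by exact_mod_cast h1.symm)

lemma T_ratio {m : ℕ} {x y : Zm m} (h : x.norm = y.norm) (hy : y.norm ≠ 0) :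
    IsT m (ph m x / ph m y) := by
  refine ⟨?_, x * star y, y.norm, hy, ?_⟩
  · rw [norm_div, norm_ph_eq h, div_self]
    exact (norm_ne_zero_iff.2 (ph_ne hy))
  · have h1 : ((y.norm : ℤ) : ℂ) = ph m y * ph m (star y) := by
      rw [← map_mul, mul_star_norm, ph_int]
    rw [h1, map_mul]
    have h2 : ph m (star y) ≠ 0 := by
      apply ph_ne
      rw [Zsqrtd.norm_conj]; exact hy
    field_simp [ph_ne hy]

def g1 (m : ℕ) : Zm m := ⟨2, 1⟩
def g2 (m : ℕ) : Zm m := ⟨2 * (m + 4), 1⟩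

lemma norm_g1 (m : ℕ) : (g1 m).norm = m + 4 := by
  simp [g1, Zsqrtd.norm_def]; ring

lemma norm_g2 (m : ℕ) : (g2 m).norm = 4 * (m + 4) ^ 2 + m := by
  simp [g2, Zsqrtd.norm_def]; ring

lemma cop1 (m : ℕ) (hm : m % 4 = 3) : IsCoprime (g1 m).norm (2 * (g1 m).re) := by
  obtain ⟨q, hq⟩ : ∃ q : ℤ, (m : ℤ) = 4 * q + 3 := ⟨(m / 4 : ℕ), by omega⟩
  rw [norm_g1]
  refine ⟨-1, q + 2, ?_⟩
  simp only [g1]
  rw [hq]; ring

lemma cop12 (m : ℕ) (hm : m % 4 = 3) : IsCoprime (g1 m).norm (g2 m).norm := by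
  obtain ⟨q, hq⟩ : ∃ q : ℤ, (m : ℤ) = 4 * q + 3 := ⟨(m / 4 : ℕ), by omega⟩
  rw [norm_g1, norm_g2]
  refine ⟨-1 + (q + 2) * (4 * (m + 4) + 1), -(q + 2), ?_⟩
  rw [hq]; ring

lemma cop2 (m : ℕ) (hm : m % 4 = 3) : IsCoprime (g2 m).norm (2 * (g2 m).re) := by
  obtain ⟨q, hq⟩ : ∃ q : ℤ, (m : ℤ) = 4 * q + 3 := ⟨(m / 4 : ℕ), by omega⟩
  have h1 : IsCoprime (g2 m).norm 4 := by
    rw [norm_g2]
    refine ⟨-1, (m + 4) ^ 2 + q + 1, ?_⟩
    rw [hq]; ring
  have h2 : IsCoprime (g2 m).norm (m + 4) := by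
    have := (cop12 m hm).symm
    rwa [norm_g1] at this
  have h3 : 2 * (g2 m).re = 4 * ((m : ℤ) + 4) := by simp only [g2]; ring
  rw [h3]
  exact h1.mul_right h2

noncomputable def t1 (m : ℕ) : ℂ := ph m (g1 m) / ph m (star (g1 m))
noncomputable def t2 (m : ℕ) : ℂ := ph m (g2 m) / ph m (star (g2 m))
noncomputable def E (m : ℕ) (a b : ℤ) : ℂ := t1 m ^ a * t2 m ^ b

lemma norm_g1_ne (m : ℕ) : (g1 m).norm ≠ 0 := by rw [norm_g1]; omega
lemma norm_g2_ne (m : ℕ) : (g2 m).norm ≠ 0 := by rw [norm_g2]; positivity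

lemma T_t1 (m : ℕ) : IsT m (t1 m) :=
  T_ratio (Zsqrtd.norm_conj _).symm (by rw [Zsqrtd.norm_conj]; exact norm_g1_ne m)
lemma T_t2 (m : ℕ) : IsT m (t2 m) :=
  T_ratio (Zsqrtd.norm_conj _).symm (by rw [Zsqrtd.norm_conj]; exact norm_g2_ne m)
lemma T_E (m : ℕ) (a b : ℤ) : IsT m (E m a b) := T_mul (T_zpow (T_t1 m) a) (T_zpow (T_t2 m) b)

lemma E_add (m : ℕ) (a b a' b' : ℤ) : E m (a + a') (b + b') = E m a b * E m a' b' := by
  unfold E
  rw [zpow_add₀ (T_ne (T_t1 m)), zpow_add₀ (T_ne (T_t2 m))]; ring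

lemma E_zero (m : ℕ) : E m 0 0 = 1 := by simp [E]

lemma E_neg (m : ℕ) (a b : ℤ) : E m (-a) (-b) = (E m a b)⁻¹ := by
  unfold E; rw [zpow_neg, zpow_neg, mul_inv]

lemma E_sub (m : ℕ) (a b a' b' : ℤ) : E m (a - a') (b - b') = E m a b / E m a' b' := by
  rw [sub_eq_add_neg, sub_eq_add_neg, E_add, E_neg, div_eq_mul_inv]

/-- if `ph x / ph (star x) = s` then `x = s * star x` -/
lemma of_ratio {m : ℕ} (hm : 0 < m) {x : Zm m} (hx : x.norm ≠ 0) {s : ℤ}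
    (h : ph m x / ph m (star x) = s) : x = (s : Zm m) * star x := by
  apply ph_inj m hm
  have h2 : ph m (star x) ≠ 0 := by
    apply ph_ne; rw [Zsqrtd.norm_conj]; exact hx
  rw [div_eq_iff h2] at h
  rw [h, map_mul, ph_int]

lemma norm_pow_ne {m : ℕ} {x : Zm m} (hx : x.norm ≠ 0) (k : ℕ) : (x ^ k).norm ≠ 0 := by
  have : (x ^ k).norm = x.norm ^ k := map_pow (Zsqrtd.normMonoidHom (d := -(m : ℤ))) x k
  rw [this]; exact pow_ne_zero _ hx

lemma E_pos_aux (m : ℕ) (hm : m % 4 = 3) (a : ℕ) (ha : 1 ≤ a) (b : ℤ) (s : ℤ) :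
    E m a b ≠ s := by
  intro h
  have hm0 : 0 < m := by omega
  rcases Int.eq_nat_or_neg b with ⟨k, rfl | rfl⟩
  · have h1 : ph m (g1 m ^ a * g2 m ^ k) / ph m (star (g1 m ^ a * g2 m ^ k)) = s := by
      rw [← h]
      unfold E t1 t2
      rw [zpow_natCast, zpow_natCast, star_mul', star_pow, star_pow, map_mul, map_mul, map_pow,
        map_pow, map_pow, map_pow, div_pow, div_pow, div_mul_div_comm]
    have hne : (g1 m ^ a * g2 m ^ k).norm ≠ 0 := by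
      rw [Zsqrtd.norm_mul]
      exact mul_ne_zero (norm_pow_ne (norm_g1_ne m) a) (norm_pow_ne (norm_g2_ne m) k)
    exact indep_core m (g1 m) (g2 m) rfl (by rw [norm_g1]; omega) (cop1 m hm) (cop12 m hm) a k ha s
      (of_ratio hm0 hne h1)
  · have h1 : ph m (g1 m ^ a * (star (g2 m)) ^ k) / ph m (star (g1 m ^ a * (star (g2 m)) ^ k)) = s := by
      rw [← h]
      unfold E t1 t2
      rw [zpow_neg, zpow_natCast, zpow_natCast, star_mul', star_pow, star_pow, star_star, map_mul,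
        map_mul, map_pow, map_pow, map_pow, map_pow, div_pow, div_pow, inv_div, div_mul_div_comm]
    have hne : (g1 m ^ a * (star (g2 m)) ^ k).norm ≠ 0 := by
      rw [Zsqrtd.norm_mul]
      exact mul_ne_zero (norm_pow_ne (norm_g1_ne m) a)
        (norm_pow_ne (by rw [Zsqrtd.norm_conj]; exact norm_g2_ne m) k)
    exact indep_core m (g1 m) (star (g2 m)) rfl (by rw [norm_g1]; omega) (cop1 m hm)
      (by rw [Zsqrtd.norm_conj]; exact cop12 m hm) a k ha s (of_ratio hm0 hne h1)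

lemma E_zero_aux (m : ℕ) (hm : m % 4 = 3) (b : ℕ) (hb : 1 ≤ b) (s : ℤ) :
    E m 0 b ≠ s := by
  intro h
  have hm0 : 0 < m := by omega
  have h1 : ph m (g2 m ^ b * 1 ^ 0) / ph m (star (g2 m ^ b * 1 ^ 0)) = s := by
    rw [← h]
    unfold E t2
    rw [zpow_zero, zpow_natCast, one_mul, pow_zero, mul_one, star_pow, map_pow, map_pow, div_pow]
  have hne : (g2 m ^ b * 1 ^ 0).norm ≠ 0 := by
    rw [pow_zero, mul_one]
    exact norm_pow_ne (norm_g2_ne m) b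
  refine indep_core m (g2 m) 1 rfl (by rw [norm_g2]; nlinarith [sq_nonneg ((m : ℤ) + 4)]) (cop2 m hm)
    ?_ b 0 hb s (of_ratio hm0 hne h1)
  rw [Zsqrtd.norm_one]; exact isCoprime_one_right

/-- multiplicative independence modulo sign -/
theorem E_ne (m : ℕ) (hm : m % 4 = 3) (a b : ℤ) (hab : ¬ (a = 0 ∧ b = 0)) (s : ℤ)
    (hs : s = 1 ∨ s = -1) : E m a b ≠ s := by
  have hinv : ∀ a b : ℤ, E m a b = s → E m (-a) (-b) = s := by
    intro a b h
    rw [E_neg, h]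
    rcases hs with rfl | rfl <;> norm_num
  intro h
  rcases lt_trichotomy a 0 with ha | ha | ha
  · obtain ⟨n, hn⟩ : ∃ n : ℕ, -a = n := ⟨(-a).toNat, by omega⟩
    have h2 := hinv a b h
    rw [hn] at h2
    exact E_pos_aux m hm n (by omega) (-b) s h2
  · subst ha
    rcases lt_trichotomy b 0 with hb | hb | hb
    · obtain ⟨n, hn⟩ : ∃ n : ℕ, -b = n := ⟨(-b).toNat, by omega⟩
      have h2 := hinv 0 b h
      rw [hn, neg_zero] at h2
      exact E_zero_aux m hm n (by omega) s h2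
    · exact hab ⟨rfl, hb⟩
    · obtain ⟨n, hn⟩ : ∃ n : ℕ, b = n := ⟨b.toNat, by omega⟩
      rw [hn] at h
      exact E_zero_aux m hm n (by omega) s h
  · obtain ⟨n, hn⟩ : ∃ n : ℕ, a = n := ⟨a.toNat, by omega⟩
    rw [hn] at h
    exact E_pos_aux m hm n (by omega) b s h

lemma E_inj (m : ℕ) (hm : m % 4 = 3) (a b a' b' : ℤ) (s : ℤ) (hs : s = 1 ∨ s = -1)
    (h : E m a b = s * E m a' b') : a = a' ∧ b = b' := by
  by_contra hcon
  have h1 : E m (a - a') (b - b') = s := by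
    rw [E_sub, h]
    field_simp [T_ne (T_E m a' b')]
  exact E_ne m hm (a - a') (b - b') (by omega) s hs h1

/-- avoiding a finite set of ratios -/
lemma avoid (m : ℕ) (hm : m % 4 = 3) (Y : Finset ℂ) :
    ∃ g : ℕ, 1 ≤ g ∧ ∀ a b : ℤ, ¬ (a = 0 ∧ b = 0) → E m (g * a) (g * b) ∉ Y := by
  have hinj : Function.Injective (fun p : ℤ × ℤ => E m p.1 p.2) := by
    intro p q h
    have h' : E m p.1 p.2 = ((1 : ℤ) : ℂ) * E m q.1 q.2 := by
      rw [Int.cast_one, one_mul]; exact h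
    obtain ⟨h1, h2⟩ := E_inj m hm _ _ _ _ 1 (Or.inl rfl) h'
    exact Prod.ext h1 h2
  have hfin : ((fun p : ℤ × ℤ => E m p.1 p.2) ⁻¹' (Y : Set ℂ)).Finite :=
    Y.finite_toSet.preimage hinj.injOn
  have hb : ∃ K : ℕ, ∀ p ∈ ((fun p : ℤ × ℤ => E m p.1 p.2) ⁻¹' (Y : Set ℂ)),
      p.1.natAbs < K ∧ p.2.natAbs < K := by
    refine ⟨(hfin.toFinset.sup fun p => p.1.natAbs) + (hfin.toFinset.sup fun p => p.2.natAbs) + 1, ?_⟩
    intro p hp
    have h1 := Finset.le_sup (f := fun p : ℤ × ℤ => p.1.natAbs) (hfin.mem_toFinset.2 hp)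
    have h2 := Finset.le_sup (f := fun p : ℤ × ℤ => p.2.natAbs) (hfin.mem_toFinset.2 hp)
    constructor <;> omega
  obtain ⟨K, hK⟩ := hb
  refine ⟨K + 1, by omega, ?_⟩
  intro a b hab hmem
  obtain ⟨h1, h2⟩ := hK (((K + 1 : ℕ) : ℤ) * a, ((K + 1 : ℕ) : ℤ) * b) hmem
  simp only [Int.natAbs_mul, Int.natAbs_natCast] at h1 h2
  have ha : a = 0 := by
    by_contra h
    have : 1 ≤ a.natAbs := by omega
    nlinarith
  have hb : b = 0 := by
    by_contra h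
    have : 1 ≤ b.natAbs := by omega
    nlinarith
  exact hab ⟨ha, hb⟩

/-! ### pigeonhole -/

def reHom (m : ℕ) : Zm m →+ ℤ where
  toFun := Zsqrtd.re
  map_zero' := rfl
  map_add' _ _ := rfl

def imHom (m : ℕ) : Zm m →+ ℤ where
  toFun := Zsqrtd.im
  map_zero' := rfl
  map_add' _ _ := rfl

lemma sum_bound {ι : Type} (S : Finset ι) (f : ι → ℤ) (M k : ℕ) (hk : S.card ≤ k)
    (h : ∀ v ∈ S, |f v| ≤ M) : |∑ v ∈ S, f v| ≤ k * M := by
  refine (Finset.abs_sum_le_sum_abs _ _).trans ?_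
  refine (Finset.sum_le_card_nsmul _ _ _ h).trans ?_
  rw [nsmul_eq_mul]
  exact mul_le_mul_of_nonneg_right (by exact_mod_cast hk) (by positivity)

open Classical in
lemma pigeon (m : ℕ) (V : Finset (Zm m)) (M : ℕ) (hV : ∀ v ∈ V, |v.re| ≤ M ∧ |v.im| ≤ M)
    (hcard : (2 * (V.card * M) + 1) ^ 2 < 2 ^ V.card) :
    ∃ S1 S2 : Finset (Zm m), S1 ⊆ V ∧ S2 ⊆ V ∧ Disjoint S1 S2 ∧ S1.Nonempty ∧
      ∑ v ∈ S1, v = ∑ v ∈ S2, v := by
  set B : ℤ := V.card * M with hB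
  set box : Finset (Zm m) := ((Finset.Icc (-B) B) ×ˢ (Finset.Icc (-B) B)).image
    (fun p : ℤ × ℤ => (⟨p.1, p.2⟩ : Zm m)) with hbox
  have hboxc : box.card ≤ (2 * (V.card * M) + 1) ^ 2 := by
    rw [hbox]
    refine Finset.card_image_le.trans ?_
    rw [Finset.card_product, Int.card_Icc, ← sq]
    apply Nat.pow_le_pow_left
    have : B = ((V.card * M : ℕ) : ℤ) := by rw [hB]; push_cast; ring
    omega
  have hmaps : ∀ S ∈ V.powerset, (∑ v ∈ S, v) ∈ box := by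
    intro S hS
    rw [Finset.mem_powerset] at hS
    have hc := Finset.card_le_card hS
    have h1 := sum_bound S (fun v => v.re) M V.card hc (fun v hv => (hV v (hS hv)).1)
    have h2 := sum_bound S (fun v => v.im) M V.card hc (fun v hv => (hV v (hS hv)).2)
    have e1 : (∑ v ∈ S, v).re = ∑ v ∈ S, v.re := map_sum (reHom m) _ _
    have e2 : (∑ v ∈ S, v).im = ∑ v ∈ S, v.im := map_sum (imHom m) _ _
    rw [hbox, Finset.mem_image]
    refine ⟨((∑ v ∈ S, v).re, (∑ v ∈ S, v).im), ?_, rfl⟩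
    rw [Finset.mem_product, Finset.mem_Icc, Finset.mem_Icc, e1, e2]
    exact ⟨abs_le.1 h1, abs_le.1 h2⟩
  have hlt : box.card < V.powerset.card := by
    rw [Finset.card_powerset]; omega
  obtain ⟨S, hS, S', hS', hne, heq⟩ := Finset.exists_ne_map_eq_of_card_lt_of_maps_to hlt hmaps
  rw [Finset.mem_powerset] at hS hS'
  have hsum : ∑ v ∈ S \ S', v = ∑ v ∈ S' \ S, v := by
    have h1 := Finset.sum_inter_add_sum_sdiff S S' (fun v : Zm m => v)
    have h2 := Finset.sum_inter_add_sum_sdiff S' S (fun v : Zm m => v)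
    rw [Finset.inter_comm] at h2
    have h3 : ∑ v ∈ S ∩ S', v + ∑ v ∈ S \ S', v = ∑ v ∈ S ∩ S', v + ∑ v ∈ S' \ S, v := by
      rw [h1, h2]; exact heq
    exact add_left_cancel h3
  by_cases hemp : (S \ S').Nonempty
  · exact ⟨S \ S', S' \ S, Finset.sdiff_subset.trans hS, Finset.sdiff_subset.trans hS',
      disjoint_sdiff_sdiff, hemp, hsum⟩
  · refine ⟨S' \ S, S \ S', Finset.sdiff_subset.trans hS', Finset.sdiff_subset.trans hS,
      disjoint_sdiff_sdiff, ?_, hsum.symm⟩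
    rw [Finset.not_nonempty_iff_eq_empty, Finset.sdiff_eq_empty_iff_subset] at hemp
    rw [Finset.sdiff_nonempty]
    intro h
    exact hne (Finset.Subset.antisymm hemp h)

lemma ineq (L : ℕ) (hL : 1 ≤ L) (k : ℕ) (hk : k = (2 * (L + 2) + 1) ^ 2) :
    (2 * (k * L ^ (L + 2)) + 1) ^ 2 < 2 ^ k := by
  set h := L + 2 with hh
  have h1 : L ^ h + 1 ≤ 2 ^ (L * h) := by
    rw [pow_mul]
    exact Nat.pow_lt_pow_left Nat.lt_two_pow_self (by omega)
  have h2 : 2 * h + 1 ≤ 2 ^ (h + 1) := by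
    have : ∀ n : ℕ, 2 * n + 1 ≤ 2 ^ (n + 1) := by
      intro n
      induction n with
      | zero => norm_num
      | succ n ih => rw [pow_succ]; omega
    exact this h
  have h3 : k ≤ 2 ^ (2 * h + 2) := by
    rw [hk]
    calc (2 * h + 1) ^ 2 ≤ (2 ^ (h + 1)) ^ 2 := Nat.pow_le_pow_left h2 2
      _ = 2 ^ (2 * h + 2) := by rw [← pow_mul]; congr 1; ring
  have hk1 : 1 ≤ k := by rw [hk]; exact Nat.one_le_pow _ _ (by omega)
  have h4 : 2 * (k * L ^ h) + 1 ≤ 2 ^ (1 + (2 * h + 2) + L * h) := by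
    calc 2 * (k * L ^ h) + 1 ≤ 2 * (k * (L ^ h + 1)) := by
          rw [mul_add k]; omega
      _ ≤ 2 * (2 ^ (2 * h + 2) * 2 ^ (L * h)) := by
          apply Nat.mul_le_mul_left
          exact Nat.mul_le_mul h3 h1
      _ = 2 ^ (1 + (2 * h + 2) + L * h) := by
          rw [pow_add 2 (1 + (2 * h + 2)), pow_add 2 1]; ring
  calc (2 * (k * L ^ h) + 1) ^ 2 ≤ (2 ^ (1 + (2 * h + 2) + L * h)) ^ 2 := Nat.pow_le_pow_left h4 2
    _ = 2 ^ ((1 + (2 * h + 2) + L * h) * 2) := by rw [← pow_mul]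
    _ < 2 ^ k := by
        apply Nat.pow_lt_pow_right (by norm_num)
        rw [hk, hh]
        ring_nf
        nlinarith

end Pool.Agent.V11167.Eqg
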