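import Pool.Agent.V11167.EqgB

/-! Zero-sum sets of norm-one elements (for MP_349919_co). -/

namespace Pool.Agent.V11167.Eqg

open Complex

/-- grid vector -/
def vec (m g h : ℕ) (p : ℕ × ℕ) : Zm m :=
  g1 m ^ (g * p.1) * star (g1 m) ^ (g * (2 * h - p.1)) *
    (g2 m ^ (g * p.2) * star (g2 m) ^ (g * (2 * h - p.2)))

lemma norm_pow' {m : ℕ} (x : Zm m) (k : ℕ) : (x ^ k).norm = x.norm ^ k :=
  map_pow (Zsqrtd.normMonoidHom (d := -(m : ℤ))) x k

lemma norm_vec (m g h : ℕ) (p : ℕ × ℕ) (h1 : p.1 ≤ 2 * h) (h2 : p.2 ≤ 2 * h) :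
    (vec m g h p).norm = ((((g1 m).norm * (g2 m).norm) ^ g) ^ h) ^ 2 := by
  unfold vec
  rw [Zsqrtd.norm_mul, Zsqrtd.norm_mul, Zsqrtd.norm_mul, norm_pow', norm_pow', norm_pow', norm_pow',
    Zsqrtd.norm_conj, Zsqrtd.norm_conj, ← pow_add, ← pow_add, ← mul_add, ← mul_add]
  have e1 : p.1 + (2 * h - p.1) = 2 * h := by omega
  have e2 : p.2 + (2 * h - p.2) = 2 * h := by omega
  rw [e1, e2, ← mul_pow, ← pow_mul, ← pow_mul]
  congr 1
  ring

lemma ph_vec (m g h : ℕ) (p : ℕ × ℕ) (h1 : p.1 ≤ 2 * h) (h2 : p.2 ≤ 2 * h) :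
    ph m (vec m g h p) = E m (g * p.1) (g * p.2) *
      ph m (star (g1 m) ^ (g * (2 * h)) * star (g2 m) ^ (g * (2 * h))) := by
  have e1 : g * (2 * h) = g * p.1 + g * (2 * h - p.1) := by
    rw [← mul_add]; congr 1; omega
  have e2 : g * (2 * h) = g * p.2 + g * (2 * h - p.2) := by
    rw [← mul_add]; congr 1; omega
  have n1 : ph m (star (g1 m)) ≠ 0 := ph_ne (by rw [Zsqrtd.norm_conj]; exact norm_g1_ne m)
  have n2 : ph m (star (g2 m)) ≠ 0 := ph_ne (by rw [Zsqrtd.norm_conj]; exact norm_g2_ne m)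
  have c1 : ((g : ℤ) * (p.1 : ℤ)) = ((g * p.1 : ℕ) : ℤ) := by push_cast; ring
  have c2 : ((g : ℤ) * (p.2 : ℤ)) = ((g * p.2 : ℕ) : ℤ) := by push_cast; ring
  unfold vec E t1 t2
  rw [c1, c2, zpow_natCast, zpow_natCast]
  simp only [map_mul, map_pow, div_pow]
  have f1 : ph m (star (g1 m)) ^ (g * (2 * h)) =
      ph m (star (g1 m)) ^ (g * p.1) * ph m (star (g1 m)) ^ (g * (2 * h - p.1)) := by
    rw [← pow_add, ← e1]
  have f2 : ph m (star (g2 m)) ^ (g * (2 * h)) =
      ph m (star (g2 m)) ^ (g * p.2) * ph m (star (g2 m)) ^ (g * (2 * h - p.2)) := by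
    rw [← pow_add, ← e2]
  rw [f1, f2]
  field_simp

lemma coord_bound (m : ℕ) (hm : 0 < m) (x : Zm m) (M : ℕ) (h : x.norm = (M : ℤ) ^ 2) :
    |x.re| ≤ M ∧ |x.im| ≤ M := by
  rw [Zsqrtd.norm_def] at h
  have hm' : (1 : ℤ) ≤ m := by exact_mod_cast hm
  constructor
  · apply abs_le_of_sq_le_sq _ (by positivity)
    nlinarith [mul_nonneg (by omega : (0 : ℤ) ≤ m) (mul_self_nonneg x.im)]
  · apply abs_le_of_sq_le_sq _ (by positivity)
    nlinarith [mul_self_nonneg x.re, mul_self_nonneg x.im,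
      mul_nonneg (by omega : (0 : ℤ) ≤ (m : ℤ) - 1) (mul_self_nonneg x.im)]

open Classical in
/-- existence of a signed relation whose ratios avoid a finite set -/
theorem relation (m : ℕ) (hm : m % 4 = 3) (Y : Finset ℂ) :
    ∃ S1 S2 : Finset (Zm m), Disjoint S1 S2 ∧ S1.Nonempty ∧ ∑ v ∈ S1, v = ∑ v ∈ S2, v ∧
      (∀ v ∈ S1 ∪ S2, v.norm ≠ 0) ∧
      (∀ v ∈ S1 ∪ S2, ∀ w ∈ S1 ∪ S2, v.norm = w.norm) ∧
      (∀ v ∈ S1 ∪ S2, ∀ w ∈ S1 ∪ S2, v ≠ w → ph m v / ph m w ∉ Y) ∧
      (∀ v ∈ S1 ∪ S2, ∀ w ∈ S1 ∪ S2, ph m v = - ph m w → False) := by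
  have hm0 : 0 < m := by omega
  obtain ⟨g, hg1, hg⟩ := avoid m hm Y
  set Lz : ℤ := ((g1 m).norm * (g2 m).norm) ^ g with hLz
  have hLpos : 1 ≤ Lz := by
    rw [hLz, norm_g1, norm_g2]
    have : (1 : ℤ) ≤ (m + 4) * (4 * (m + 4) ^ 2 + m) := by
      have h0 : (0 : ℤ) < (m + 4) * (4 * (m + 4) ^ 2 + m) := by positivity
      omega
    exact one_le_pow₀ this
  obtain ⟨L, hL⟩ : ∃ L : ℕ, Lz = L := ⟨Lz.toNat, by omega⟩
  have hL1 : 1 ≤ L := by omega
  set h := L + 2 with hh
  set idx : Finset (ℕ × ℕ) := Finset.range (2 * h + 1) ×ˢ Finset.range (2 * h + 1) with hidx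
  set V : Finset (Zm m) := idx.image (vec m g h) with hV
  have hmem : ∀ p ∈ idx, p.1 ≤ 2 * h ∧ p.2 ≤ 2 * h := by
    intro p hp
    rw [hidx, Finset.mem_product, Finset.mem_range, Finset.mem_range] at hp
    omega
  set q0 := ph m (star (g1 m) ^ (g * (2 * h)) * star (g2 m) ^ (g * (2 * h))) with hq0
  have hq0ne : q0 ≠ 0 := by
    apply ph_ne
    rw [Zsqrtd.norm_mul, norm_pow', norm_pow', Zsqrtd.norm_conj, Zsqrtd.norm_conj]
    exact mul_ne_zero (pow_ne_zero _ (norm_g1_ne m)) (pow_ne_zero _ (norm_g2_ne m))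
  have hsgn : ∀ p ∈ idx, ∀ q ∈ idx, ∀ s : ℤ, (s = 1 ∨ s = -1) →
      ph m (vec m g h p) = s * ph m (vec m g h q) → p = q := by
    intro p hp q hq s hs heq
    obtain ⟨p1, p2⟩ := hmem p hp
    obtain ⟨q1, q2⟩ := hmem q hq
    rw [ph_vec m g h p p1 p2, ph_vec m g h q q1 q2] at heq
    have heq' : E m (g * p.1) (g * p.2) * q0 = (s * E m (g * q.1) (g * q.2)) * q0 := by
      rw [mul_assoc]; exact heq
    have h1 := mul_right_cancel₀ hq0ne heq'
    obtain ⟨h2, h3⟩ := E_inj m hm _ _ _ _ s hs h1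
    have hg' : (g : ℤ) ≠ 0 := by positivity
    have h4 := mul_left_cancel₀ hg' h2
    have h5 := mul_left_cancel₀ hg' h3
    exact Prod.ext (by exact_mod_cast h4) (by exact_mod_cast h5)
  have hVc : V.card = (2 * h + 1) ^ 2 := by
    rw [hV, Finset.card_image_of_injOn, hidx, Finset.card_product, Finset.card_range, sq]
    intro p hp q hq heq
    apply hsgn p hp q hq 1 (Or.inl rfl)
    rw [Int.cast_one, one_mul]
    exact congrArg (ph m) heq
  have hnorm : ∀ v ∈ V, v.norm = ((L ^ h : ℕ) : ℤ) ^ 2 := by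
    intro v hv
    rw [hV, Finset.mem_image] at hv
    obtain ⟨p, hp, rfl⟩ := hv
    obtain ⟨p1, p2⟩ := hmem p hp
    rw [norm_vec m g h p p1 p2, ← hLz, hL]
    push_cast
    rfl
  obtain ⟨S1, S2, hS1, hS2, hdis, hne, hsum⟩ := pigeon m V (L ^ h)
    (fun v hv => coord_bound m hm0 v _ (hnorm v hv)) (ineq L hL1 V.card hVc)
  have hsub : ∀ v ∈ S1 ∪ S2, v ∈ V := by
    intro v hv
    rcases Finset.mem_union.1 hv with h | h
    · exact hS1 h
    · exact hS2 h
  refine ⟨S1, S2, hdis, hne, hsum, ?_, ?_, ?_, ?_⟩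
  · intro v hv
    rw [hnorm v (hsub v hv)]
    have : 0 < L ^ h := pow_pos (by omega) _
    positivity
  · intro v hv w hw
    rw [hnorm v (hsub v hv), hnorm w (hsub w hw)]
  · intro v hv w hw hvw
    have hv' := hsub v hv
    have hw' := hsub w hw
    rw [hV, Finset.mem_image] at hv' hw'
    obtain ⟨p, hp, rfl⟩ := hv'
    obtain ⟨q, hq, rfl⟩ := hw'
    obtain ⟨p1, p2⟩ := hmem p hp
    obtain ⟨q1, q2⟩ := hmem q hq
    have h1 : ph m (vec m g h p) / ph m (vec m g h q)
        = E m ((g : ℤ) * ((p.1 : ℤ) - q.1)) ((g : ℤ) * ((p.2 : ℤ) - q.2)) := by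
      rw [ph_vec m g h p p1 p2, ph_vec m g h q q1 q2, mul_sub, mul_sub, E_sub]
      exact mul_div_mul_right _ _ hq0ne
    rw [h1]
    apply hg
    rintro ⟨h2, h3⟩
    apply hvw
    have : p = q := Prod.ext (by omega) (by omega)
    rw [this]
  · intro v hv w hw heq
    have hv' := hsub v hv
    have hw' := hsub w hw
    rw [hV, Finset.mem_image] at hv' hw'
    obtain ⟨p, hp, rfl⟩ := hv'
    obtain ⟨q, hq, rfl⟩ := hw'
    have h1 : ph m (vec m g h p) = ((-1 : ℤ) : ℂ) * ph m (vec m g h q) := by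
      rw [heq]; push_cast; ring
    have h2 := hsgn p hp q hq (-1) (Or.inr rfl) h1
    rw [h2] at heq
    have h3 : ph m (vec m g h q) = 0 := by
      have : (2 : ℂ) * ph m (vec m g h q) = 0 := by linear_combination heq
      exact (mul_eq_zero.1 this).resolve_left two_ne_zero
    have h4 : (vec m g h q).norm ≠ 0 := by
      rw [hnorm _ (hsub _ hw)]
      have : 0 < L ^ h := pow_pos (by omega) _
      positivity
    exact ph_ne h4 h3

/-- a finite set of norm-one elements, no two of them equal or opposite -/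
def Good (m : ℕ) (D : Finset ℂ) : Prop := (∀ z ∈ D, IsT m z) ∧ ∀ z ∈ D, -z ∉ D

def Goal (m : ℕ) : Prop := ∃ D : Finset ℂ, Good m D ∧ ∑ z ∈ D, z = 0 ∧ Odd D.card

open Classical in
lemma replace (m : ℕ) (hm : m % 4 = 3) (u : ℂ) (hu : IsT m u) (X : Finset ℂ) :
    Goal m ∨ ∃ D : Finset ℂ, Good m D ∧ (∀ z ∈ D, z ∉ X) ∧ ∑ z ∈ D, z = u ∧ Odd D.card := by
  obtain ⟨S1, S2, hdis, ⟨v1, hv1⟩, hsum, hn0, hneq, hav, hopp⟩ :=
    relation m hm ((X.image (fun z => z / u)) ∪ (X.image (fun z => -z / u)))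
  have hv1U : v1 ∈ S1 ∪ S2 := Finset.mem_union_left _ hv1
  have hv1ne : ph m v1 ≠ 0 := ph_ne (hn0 v1 hv1U)
  have hune := T_ne hu
  set w : ℂ → Zm m → ℂ := fun c v => (if v ∈ S1 then -1 else 1) * c * (ph m v / ph m v1) with hw
  have hwT : ∀ c, IsT m c → ∀ v ∈ S1 ∪ S2, IsT m (w c v) := by
    intro c hc v hv
    have h1 := T_ratio (hneq v hv v1 hv1U) (hn0 v1 hv1U)
    rw [hw]
    simp only
    split_ifs
    · have : -1 * c * (ph m v / ph m v1) = -(c * (ph m v / ph m v1)) := by ring
      rw [this]; exact T_neg (T_mul hc h1)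
    · rw [one_mul]; exact T_mul hc h1
  have hwsgn : ∀ c, IsT m c → ∀ v ∈ S1 ∪ S2, ∀ v' ∈ S1 ∪ S2, (w c v = w c v' ∨ w c v = - w c v') →
      v = v' := by
    intro c hc v hv v' hv' h
    have hcne := T_ne hc
    have h2 : ph m v = ph m v' ∨ ph m v = - ph m v' := by
      have h3 : ph m v / ph m v1 = ph m v' / ph m v1 ∨ ph m v / ph m v1 = -(ph m v' / ph m v1) := by
        simp only [hw] at h
        split_ifs at h
        · rcases h with h | h
          · left
            have : c * (ph m v / ph m v1) = c * (ph m v' / ph m v1) := by linear_combination -h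
            exact mul_left_cancel₀ hcne this
          · right
            have : c * (ph m v / ph m v1) = c * (-(ph m v' / ph m v1)) := by linear_combination -h
            exact mul_left_cancel₀ hcne this
        · rcases h with h | h
          · right
            have : c * (ph m v / ph m v1) = c * (-(ph m v' / ph m v1)) := by linear_combination -h
            exact mul_left_cancel₀ hcne this
          · left
            have : c * (ph m v / ph m v1) = c * (ph m v' / ph m v1) := by linear_combination -h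
            exact mul_left_cancel₀ hcne this
        · rcases h with h | h
          · right
            have : c * (ph m v / ph m v1) = c * (-(ph m v' / ph m v1)) := by linear_combination h
            exact mul_left_cancel₀ hcne this
          · left
            have : c * (ph m v / ph m v1) = c * (ph m v' / ph m v1) := by linear_combination h
            exact mul_left_cancel₀ hcne this
        · rcases h with h | h
          · left
            have : c * (ph m v / ph m v1) = c * (ph m v' / ph m v1) := by linear_combination h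
            exact mul_left_cancel₀ hcne this
          · right
            have : c * (ph m v / ph m v1) = c * (-(ph m v' / ph m v1)) := by linear_combination h
            exact mul_left_cancel₀ hcne this
      rcases h3 with h | h
      · left
        exact (div_left_inj' hv1ne).1 h
      · right
        rw [← neg_div] at h
        exact (div_left_inj' hv1ne).1 h
    rcases h2 with h2 | h2
    · exact ph_inj m (by omega) h2
    · exact (hopp v hv v' hv' h2).elim
  have hwsum : ∀ c, ∑ v ∈ S1 ∪ S2, w c v = 0 := by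
    intro c
    rw [Finset.sum_union hdis]
    have h1 : ∑ v ∈ S1, w c v = -(c / ph m v1) * ph m (∑ v ∈ S1, v) := by
      rw [map_sum, Finset.mul_sum]
      refine Finset.sum_congr rfl fun v hv => ?_
      simp only [hw]
      rw [if_pos hv]; ring
    have h2 : ∑ v ∈ S2, w c v = (c / ph m v1) * ph m (∑ v ∈ S2, v) := by
      rw [map_sum, Finset.mul_sum]
      refine Finset.sum_congr rfl fun v hv => ?_
      simp only [hw]
      rw [if_neg (Finset.disjoint_right.1 hdis hv)]; ring
    rw [h1, h2, hsum]; ring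
  rcases Nat.even_or_odd (S1 ∪ S2).card with hev | hodd
  · right
    set A := (S1 ∪ S2).erase v1 with hA
    have hAsub : ∀ v ∈ A, v ∈ S1 ∪ S2 := fun v hv => Finset.mem_of_mem_erase hv
    have hinj : Set.InjOn (w u) A := by
      intro v hv v' hv' h
      exact hwsgn u hu v (hAsub v hv) v' (hAsub v' hv') (Or.inl h)
    refine ⟨A.image (w u), ⟨?_, ?_⟩, ?_, ?_, ?_⟩
    · intro z hz
      obtain ⟨v, hv, rfl⟩ := Finset.mem_image.1 hz
      exact hwT u hu v (hAsub v hv)
    · intro z hz hz'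
      obtain ⟨v, hv, rfl⟩ := Finset.mem_image.1 hz
      obtain ⟨v', hv', h⟩ := Finset.mem_image.1 hz'
      have h2 := hwsgn u hu v' (hAsub v' hv') v (hAsub v hv) (Or.inr h)
      rw [h2] at h
      have h3 : w u v = 0 := by
        have : (2 : ℂ) * w u v = 0 := by linear_combination h
        exact (mul_eq_zero.1 this).resolve_left two_ne_zero
      exact T_ne (hwT u hu v (hAsub v hv)) h3
    · intro z hz hzX
      obtain ⟨v, hv, rfl⟩ := Finset.mem_image.1 hz
      have hne : v ≠ v1 := Finset.ne_of_mem_erase hv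
      apply hav v (hAsub v hv) v1 hv1U hne
      rw [Finset.mem_union, Finset.mem_image, Finset.mem_image]
      by_cases hvS : v ∈ S1
      · right
        refine ⟨_, hzX, ?_⟩
        simp only [hw]
        rw [if_pos hvS]
        field_simp
      · left
        refine ⟨_, hzX, ?_⟩
        simp only [hw]
        rw [if_neg hvS]
        field_simp
    · rw [Finset.sum_image (fun v hv v' hv' h => hinj hv hv' h)]
      have h1 := Finset.sum_erase_eq_sub (f := w u) hv1U
      rw [h1, hwsum u]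
      simp only [hw]
      rw [if_pos hv1]
      field_simp
      ring
    · rw [Finset.card_image_of_injOn hinj, hA, Finset.card_erase_of_mem hv1U]
      have hpos : 0 < (S1 ∪ S2).card := Finset.card_pos.2 ⟨v1, hv1U⟩
      obtain ⟨r, hr⟩ := hev
      exact ⟨r - 1, by omega⟩
  · left
    have hinj : Set.InjOn (w 1) ((S1 ∪ S2 : Finset (Zm m)) : Set (Zm m)) := by
      intro v hv v' hv' h
      exact hwsgn 1 T_one v hv v' hv' (Or.inl h)
    refine ⟨(S1 ∪ S2).image (w 1), ⟨?_, ?_⟩, ?_, ?_⟩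
    · intro z hz
      obtain ⟨v, hv, rfl⟩ := Finset.mem_image.1 hz
      exact hwT 1 T_one v hv
    · intro z hz hz'
      obtain ⟨v, hv, rfl⟩ := Finset.mem_image.1 hz
      obtain ⟨v', hv', h⟩ := Finset.mem_image.1 hz'
      have h2 := hwsgn 1 T_one v' hv' v hv (Or.inr h)
      rw [h2] at h
      have h3 : w 1 v = 0 := by
        have : (2 : ℂ) * w 1 v = 0 := by linear_combination h
        exact (mul_eq_zero.1 this).resolve_left two_ne_zero
      exact T_ne (hwT 1 T_one v hv) h3
    · rw [Finset.sum_image (fun v hv v' hv' h => hinj hv hv' h)]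
      exact hwsum 1
    · rw [Finset.card_image_of_injOn hinj]; exact hodd

open Classical in
lemma replace_list (m : ℕ) (hm : m % 4 = 3) (hng : ¬ Goal m) (l : List ℂ) :
    (∀ u ∈ l, IsT m u) → ∃ D : Finset ℂ, Good m D ∧ ∑ z ∈ D, z = l.sum ∧ D.card % 2 = l.length % 2 := by
  induction l with
  | nil => intro _; exact ⟨∅, ⟨by simp, by simp⟩, by simp, by simp⟩
  | cons u l ih =>
    intro hl
    obtain ⟨D1, ⟨hT1, hO1⟩, hs1, hc1⟩ := ih (fun v hv => hl v (List.mem_cons_of_mem _ hv))
    obtain ⟨D2, ⟨hT2, hO2⟩, hX, hs2, hc2⟩ := (replace m hm u (hl u List.mem_cons_self)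
      (D1 ∪ D1.image (fun z => -z))).resolve_left hng
    have hdis : Disjoint D2 D1 := by
      rw [Finset.disjoint_left]
      intro z hz hz'
      exact hX z hz (Finset.mem_union_left _ hz')
    refine ⟨D2 ∪ D1, ⟨?_, ?_⟩, ?_, ?_⟩
    · intro z hz
      rcases Finset.mem_union.1 hz with h | h
      · exact hT2 z h
      · exact hT1 z h
    · intro z hz hz'
      rcases Finset.mem_union.1 hz with h | h <;> rcases Finset.mem_union.1 hz' with h' | h'
      · exact hO2 z h h'
      · apply hX z h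
        rw [Finset.mem_union, Finset.mem_image]
        exact Or.inr ⟨-z, h', neg_neg z⟩
      · apply hX (-z) h'
        rw [Finset.mem_union, Finset.mem_image]
        exact Or.inr ⟨z, h, rfl⟩
      · exact hO1 z h h'
    · rw [Finset.sum_union hdis, hs1, hs2, List.sum_cons]
    · rw [Finset.card_union_of_disjoint hdis, List.length_cons]
      obtain ⟨r, hr⟩ := hc2
      omega

/-- the basic identity with multiplicities -/
theorem goal (m : ℕ) (hm : m % 4 = 3) : Goal m := by
  by_contra hng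
  obtain ⟨q, hq⟩ : ∃ q : ℕ, m = 4 * q + 3 := ⟨m / 4, by omega⟩
  -- x = 2q+2, y = 2q+1, x^2 = y^2 + m
  set α : Zm m := ⟨-(2 * q + 1 : ℤ), 1⟩ with hα
  set β : Zm m := ⟨(2 * q + 2 : ℤ), 0⟩ with hβ
  have hnα : α.norm = (2 * q + 2) ^ 2 := by
    rw [Zsqrtd.norm_def, hα]
    simp only
    have : (m : ℤ) = 4 * q + 3 := by exact_mod_cast hq
    rw [this]; ring
  have hnβ : β.norm = (2 * q + 2) ^ 2 := by
    rw [Zsqrtd.norm_def, hβ]; simp only; ring
  have hβne : β.norm ≠ 0 := by rw [hnβ]; positivity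
  have hT1 : IsT m (ph m α / ph m β) := T_ratio (by rw [hnα, hnβ]) hβne
  have hT2 : IsT m (ph m (star α) / ph m β) :=
    T_ratio (by rw [Zsqrtd.norm_conj, hnα, hnβ]) hβne
  obtain ⟨D, hD, hs, hc⟩ := replace_list m hm hng
    (List.replicate (2 * q + 1) 1 ++ (List.replicate (q + 1) (ph m α / ph m β) ++
      List.replicate (q + 1) (ph m (star α) / ph m β))) (by
      intro u hu
      rw [List.mem_append, List.mem_append, List.mem_replicate, List.mem_replicate,
        List.mem_replicate] at hu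
      rcases hu with ⟨_, rfl⟩ | ⟨_, rfl⟩ | ⟨_, rfl⟩
      · exact T_one
      · exact hT1
      · exact hT2)
  apply hng
  refine ⟨D, hD, ?_, ?_⟩
  · rw [hs, List.sum_append, List.sum_append, List.sum_replicate, List.sum_replicate,
      List.sum_replicate]
    have h1 : ph m α + ph m (star α) = -(2 * (2 * q + 1)) := by
      rw [← map_add, ph_apply]
      have e1 : (α + star α).re = -(2 * (2 * q + 1) : ℤ) := by
        simp [hα]; ring
      have e2 : (α + star α).im = 0 := by
        simp [hα]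
      rw [e1, e2]; push_cast; ring
    have h2 : ph m β = 2 * q + 2 := by
      rw [ph_apply, hβ]; push_cast; simp
    have h3 : (2 * (q : ℂ) + 2) ≠ 0 := by
      have : ((2 * q + 2 : ℕ) : ℂ) ≠ 0 := by
        rw [Nat.cast_ne_zero]; omega
      push_cast at this; exact this
    rw [h2]
    simp only [nsmul_eq_mul]
    push_cast
    have h4 : ((q : ℂ) + 1) * (ph m α / (2 * q + 2)) + ((q : ℂ) + 1) * (ph m (star α) / (2 * q + 2))
        = ((q : ℂ) + 1) * ((ph m α + ph m (star α)) / (2 * q + 2)) := by ring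
    rw [h4, h1]
    field_simp
    ring
  · rw [Nat.odd_iff, hc, List.length_append, List.length_append, List.length_replicate,
      List.length_replicate, List.length_replicate]
    omega

end Pool.Agent.V11167.Eqg
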