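import Mathlib

/-! Definitions used in the statement for MP_349919_co. The plane is `ℂ`. -/

namespace Pool.Agent.V11167.Eqg

/-- the rectangular lattice `Λ(m)` generated by `(1,0)` and `(0,√m)` -/
def latt (m : ℕ) : Set ℂ := {z | ∃ a b : ℤ, z.re = a ∧ z.im = b * Real.sqrt m}

/-- the cross product of two plane vectors -/
def cross (z w : ℂ) : ℝ := z.re * w.im - z.im * w.re

/-- `P` (vertices indexed cyclically by `ZMod n`) is a convex equilateral `n`-gon, listed
counterclockwise: all sides have the same positive length, and for every side, all the other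
vertices lie strictly to its left. -/
def IsConvexEquilateral (n : ℕ) (P : ZMod n → ℂ) : Prop :=
  (∃ c : ℝ, 0 < c ∧ ∀ i, ‖P (i + 1) - P i‖ = c) ∧
    ∀ i j, j ≠ i → j ≠ i + 1 → 0 < cross (P (i + 1) - P i) (P j - P i)

end Pool.Agent.V11167.Eqg
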