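import Pool.Agent.V11167.EqgC
import Pool.Agent.V11167.EqgDefs

/-! From zero-sum sets to convex polygons (for MP_349919_co). -/

namespace Pool.Agent.V11167.Eqg

open Complex

open Classical in
/-- `n` distinct norm-one elements with sum zero, for all large `n` -/
theorem exists_set (m : ℕ) (hm : m % 4 = 3) : ∃ N : ℕ, 3 ≤ N ∧ ∀ n ≥ N, ∃ F : Finset ℂ,
    F.card = n ∧ (∀ z ∈ F, IsT m z) ∧ ∑ z ∈ F, z = 0 := by
  obtain ⟨D0, hD0, hs0, hodd⟩ := goal m hm
  refine ⟨D0.card + 3, by omega, ?_⟩
  intro n hn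
  obtain ⟨D, ⟨hDT, hDO⟩, hDs, k, hk⟩ : ∃ D : Finset ℂ, Good m D ∧ ∑ z ∈ D, z = 0 ∧
      ∃ k, n = D.card + 2 * k := by
    obtain ⟨r, hr⟩ := hodd
    rcases Nat.even_or_odd n with ⟨s, hs⟩ | ⟨s, hs⟩
    · exact ⟨∅, ⟨by simp, by simp⟩, by simp, s, by simp; omega⟩
    · exact ⟨D0, hD0, hs0, s - r, by omega⟩
  have hinj : Function.Injective (fun a : ℕ => E m a 0) := by
    intro a b h
    have h' : E m a 0 = ((1 : ℤ) : ℂ) * E m b 0 := by
      rw [Int.cast_one, one_mul]; exact h
    have := (E_inj m hm _ _ _ _ 1 (Or.inl rfl) h').1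
    exact_mod_cast this
  set Y := D ∪ D.image (fun z => -z) with hY
  have hfin : ((fun a : ℕ => E m a 0) ⁻¹' (Y : Set ℂ)).Finite := Y.finite_toSet.preimage hinj.injOn
  obtain ⟨K, hK⟩ : ∃ K : ℕ, ∀ a, K ≤ a → E m a 0 ∉ Y := by
    obtain ⟨K, hK⟩ := hfin.bddAbove
    refine ⟨K + 1, fun a ha hmem => ?_⟩
    have := hK (show a ∈ _ from hmem)
    omega
  set W := (Finset.Ico K (K + k)).image (fun a : ℕ => E m a 0) with hW
  have hWc : W.card = k := by
    rw [hW, Finset.card_image_of_injective _ hinj, Nat.card_Ico]; omega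
  have hWT : ∀ z ∈ W, IsT m z := by
    intro z hz
    rw [hW, Finset.mem_image] at hz
    obtain ⟨a, _, rfl⟩ := hz
    exact T_E m _ _
  have hWY : ∀ z ∈ W, z ∉ Y := by
    intro z hz
    rw [hW, Finset.mem_image] at hz
    obtain ⟨a, ha, rfl⟩ := hz
    exact hK a (Finset.mem_Ico.1 ha).1
  have hWO : ∀ z ∈ W, -z ∉ W := by
    intro z hz hz'
    rw [hW, Finset.mem_image] at hz hz'
    obtain ⟨a, _, rfl⟩ := hz
    obtain ⟨b, _, hb⟩ := hz'
    have h1 : E m b 0 = ((-1 : ℤ) : ℂ) * E m a 0 := by rw [hb]; push_cast; ring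
    have h2 := (E_inj m hm _ _ _ _ (-1) (Or.inr rfl) h1).1
    have h3 : b = a := by exact_mod_cast h2
    rw [h3] at hb
    have h4 : E m a 0 = 0 := by
      have : (2 : ℂ) * E m a 0 = 0 := by linear_combination hb
      exact (mul_eq_zero.1 this).resolve_left two_ne_zero
    exact T_ne (T_E m a 0) h4
  set W' := W.image (fun z => -z) with hW'
  have hneg : Function.Injective (fun z : ℂ => -z) := neg_injective
  have hW'c : W'.card = k := by
    rw [hW', Finset.card_image_of_injective _ hneg, hWc]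
  have hmW' : ∀ z, z ∈ W' ↔ -z ∈ W := by
    intro z
    rw [hW', Finset.mem_image]
    constructor
    · rintro ⟨w, hw, rfl⟩; rwa [neg_neg]
    · intro h; exact ⟨-z, h, neg_neg z⟩
  have hd1 : Disjoint W W' := by
    rw [Finset.disjoint_left]
    intro z hz hz'
    rw [hmW'] at hz'
    exact hWO z hz hz'
  have hd2 : Disjoint D (W ∪ W') := by
    rw [Finset.disjoint_left]
    intro z hz hz'
    rcases Finset.mem_union.1 hz' with h | h
    · exact hWY z h (Finset.mem_union_left _ hz)
    · rw [hmW'] at h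
      apply hWY (-z) h
      rw [hY, Finset.mem_union, Finset.mem_image]
      exact Or.inr ⟨z, hz, rfl⟩
  refine ⟨D ∪ (W ∪ W'), ?_, ?_, ?_⟩
  · rw [Finset.card_union_of_disjoint hd2, Finset.card_union_of_disjoint hd1, hWc, hW'c]; omega
  · intro z hz
    rcases Finset.mem_union.1 hz with h | h
    · exact hDT z h
    · rcases Finset.mem_union.1 h with h | h
      · exact hWT z h
      · rw [hmW'] at h
        have := T_neg (hWT _ h)
        rwa [neg_neg] at this
  · rw [Finset.sum_union hd2, Finset.sum_union hd1, hDs, hW', Finset.sum_image (fun a _ b _ h => hneg h),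
      Finset.sum_neg_distrib]
    ring

lemma common_denom (m : ℕ) (F : Finset ℂ) : (∀ z ∈ F, IsT m z) →
    ∃ Q : ℤ, Q ≠ 0 ∧ ∀ z ∈ F, ∃ x : Zm m, (Q : ℂ) * z = ph m x := by
  classical
  induction F using Finset.induction_on with
  | empty => intro _; exact ⟨1, one_ne_zero, by simp⟩
  | insert z F _ ih =>
    intro h
    obtain ⟨Q, hQ, hF⟩ := ih (fun w hw => h w (Finset.mem_insert_of_mem hw))
    obtain ⟨_, x, q, hq, hzx⟩ := h z (Finset.mem_insert_self _ _)
    refine ⟨Q * q, mul_ne_zero hQ hq, ?_⟩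
    intro w hw
    rcases Finset.mem_insert.1 hw with rfl | hw
    · refine ⟨(Q : Zm m) * x, ?_⟩
      rw [map_mul, ph_int, hzx]
      have : (q : ℂ) ≠ 0 := by exact_mod_cast hq
      push_cast
      field_simp
    · obtain ⟨y, hy⟩ := hF w hw
      refine ⟨(q : Zm m) * y, ?_⟩
      rw [map_mul, ph_int, ← hy]
      push_cast; ring

/-! ### sorting by angle -/

lemma cross_exp (c a b : ℝ) : cross (c * exp (a * I)) (c * exp (b * I)) = c ^ 2 * Real.sin (b - a) := by
  unfold cross
  rw [Real.sin_sub]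
  simp only [Complex.re_ofReal_mul, Complex.im_ofReal_mul, Complex.exp_ofReal_mul_I_re,
    Complex.exp_ofReal_mul_I_im]
  ring

lemma cross_sum {ι : Type} (z : ℂ) (S : Finset ι) (f : ι → ℂ) :
    cross z (∑ i ∈ S, f i) = ∑ i ∈ S, cross z (f i) := by
  unfold cross
  rw [Complex.re_sum, Complex.im_sum, Finset.mul_sum, Finset.mul_sum, ← Finset.sum_sub_distrib]

section
variable (n : ℕ) (θ : ℕ → ℝ) (hn : 3 ≤ n) (hmono : ∀ i j, i < j → j < n → θ i < θ j)
  (hlo : ∀ i < n, -Real.pi < θ i) (hhi : ∀ i < n, θ i ≤ Real.pi)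

include hn hmono hlo hhi in
lemma gap (i : ℕ) (hi : i + 1 < n) (htot : ∑ l ∈ Finset.range n, Real.sin (θ l - θ i) = 0) :
    θ (i + 1) - θ i < Real.pi := by
  by_contra hcon
  push Not at hcon
  have hpi := Real.pi_pos
  have hle : ∀ l ∈ Finset.range n, Real.sin (θ l - θ i) ≤ 0 := by
    intro l hl
    rw [Finset.mem_range] at hl
    rcases lt_trichotomy l i with h | h | h
    · have h1 := hmono l i h (by omega)
      have h2 := hhi (i + 1) hi
      have h3 := hlo l hl
      have : 0 ≤ Real.sin (θ i - θ l) := Real.sin_nonneg_of_nonneg_of_le_pi (by linarith) (by linarith)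
      rw [← neg_sub (θ i) (θ l), Real.sin_neg]; linarith
    · rw [h]; simp
    · have h1 : θ (i + 1) ≤ θ l := by
        rcases eq_or_lt_of_le (show i + 1 ≤ l from h) with h' | h'
        · rw [h']
        · exact (hmono _ _ h' hl).le
      have h2 := hhi l hl
      have h3 := hlo i (by omega)
      have : 0 ≤ Real.sin (θ l - θ i - Real.pi) :=
        Real.sin_nonneg_of_nonneg_of_le_pi (by linarith) (by linarith)
      rw [Real.sin_sub_pi] at this
      linarith
  have hall := (Finset.sum_eq_zero_iff_of_nonpos hle).1 htot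
  -- another index
  have hex : ∃ l < n, l ≠ i ∧ l ≠ i + 1 := by
    by_cases h0 : i = 0
    · exact ⟨2, by omega, by omega, by omega⟩
    · exact ⟨i - 1, by omega, by omega, by omega⟩
  obtain ⟨l, hl, hli, hli1⟩ := hex
  have h0 := hall l (Finset.mem_range.2 hl)
  rcases lt_trichotomy l i with h | h | h
  · have h1 := hmono l i h (by omega)
    have h2 := hhi (i + 1) hi
    have h3 := hlo l hl
    have : 0 < Real.sin (θ i - θ l) := Real.sin_pos_of_pos_of_lt_pi (by linarith) (by linarith)
    rw [← neg_sub (θ i) (θ l), Real.sin_neg] at h0; linarith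
  · exact hli h
  · have h1 : θ (i + 1) < θ l := hmono _ _ (by omega) hl
    have h2 := hhi l hl
    have h3 := hlo i (by omega)
    have : 0 < Real.sin (θ l - θ i - Real.pi) :=
      Real.sin_pos_of_pos_of_lt_pi (by linarith) (by linarith)
    rw [Real.sin_sub_pi, h0] at this
    linarith

include hn hmono hlo hhi in
lemma pos_up (i j : ℕ) (hij : i + 2 ≤ j) (hj : j < n)
    (htot : ∑ l ∈ Finset.range n, Real.sin (θ l - θ i) = 0) :
    0 < ∑ l ∈ Finset.Ico i j, Real.sin (θ l - θ i) := by
  have hpi := Real.pi_pos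
  rcases le_or_gt (θ (j - 1) - θ i) Real.pi with h | h
  · apply Finset.sum_pos'
    · intro l hl
      rw [Finset.mem_Ico] at hl
      rcases eq_or_lt_of_le hl.1 with h1 | h1
      · rw [h1]; simp
      · have h2 := hmono i l h1 (by omega)
        have h3 : θ l ≤ θ (j - 1) := by
          rcases eq_or_lt_of_le (show l ≤ j - 1 by omega) with h' | h'
          · rw [h']
          · exact (hmono _ _ h' (by omega)).le
        exact Real.sin_nonneg_of_nonneg_of_le_pi (by linarith) (by linarith)
    · refine ⟨i + 1, Finset.mem_Ico.2 ⟨by omega, by omega⟩, ?_⟩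
      have h1 := gap n θ hn hmono hlo hhi i (by omega) htot
      have h2 := hmono i (i + 1) (by omega) (by omega)
      exact Real.sin_pos_of_pos_of_lt_pi (by linarith) h1
  · have h1 : ∑ l ∈ Finset.Ico 0 i, Real.sin (θ l - θ i) ≤ 0 := by
      apply Finset.sum_nonpos
      intro l hl
      rw [Finset.mem_Ico] at hl
      have h2 := hmono l i hl.2 (by omega)
      have h3 := hhi (j - 1) (by omega)
      have h4 := hlo l (by omega)
      have : 0 ≤ Real.sin (θ i - θ l) := Real.sin_nonneg_of_nonneg_of_le_pi (by linarith) (by linarith)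
      rw [← neg_sub (θ i) (θ l), Real.sin_neg]; linarith
    have h2 : ∑ l ∈ Finset.Ico j n, Real.sin (θ l - θ i) < 0 := by
      apply Finset.sum_neg
      · intro l hl
        rw [Finset.mem_Ico] at hl
        have h2 := hmono (j - 1) l (by omega) hl.2
        have h3 := hhi l hl.2
        have h4 := hlo i (by omega)
        have : 0 < Real.sin (θ l - θ i - Real.pi) :=
          Real.sin_pos_of_pos_of_lt_pi (by linarith) (by linarith)
        rw [Real.sin_sub_pi] at this
        linarith
      · exact Finset.nonempty_Ico.2 hj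
    rw [Finset.range_eq_Ico, ← Finset.sum_Ico_consecutive _ (Nat.zero_le i) (by omega : i ≤ n),
      ← Finset.sum_Ico_consecutive _ (by omega : i ≤ j) hj.le] at htot
    linarith

include hn hmono hlo hhi in
lemma pos_down (i j : ℕ) (hij : j < i) (hi : i < n) (hex : ¬ (j = 0 ∧ i = n - 1))
    (htot : ∑ l ∈ Finset.range n, Real.sin (θ l - θ i) = 0)
    (htot' : ∑ l ∈ Finset.range n, Real.sin (θ l - θ (i - 1)) = 0) :
    ∑ l ∈ Finset.Ico j i, Real.sin (θ l - θ i) < 0 := by
  have hpi := Real.pi_pos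
  rcases le_or_gt (θ i - θ j) Real.pi with h | h
  · apply Finset.sum_neg'
    · intro l hl
      rw [Finset.mem_Ico] at hl
      have h2 := hmono l i hl.2 hi
      have h3 : θ j ≤ θ l := by
        rcases eq_or_lt_of_le hl.1 with h' | h'
        · rw [h']
        · exact (hmono _ _ h' (by omega)).le
      have : 0 ≤ Real.sin (θ i - θ l) := Real.sin_nonneg_of_nonneg_of_le_pi (by linarith) (by linarith)
      rw [← neg_sub (θ i) (θ l), Real.sin_neg]; linarith
    · refine ⟨i - 1, Finset.mem_Ico.2 ⟨by omega, by omega⟩, ?_⟩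
      have h1 := gap n θ hn hmono hlo hhi (i - 1) (by omega) htot'
      have h2 := hmono (i - 1) i (by omega) (by omega)
      have e : i - 1 + 1 = i := by omega
      rw [e] at h1
      have : 0 < Real.sin (θ i - θ (i - 1)) := Real.sin_pos_of_pos_of_lt_pi (by linarith) h1
      rw [← neg_sub (θ i) (θ (i - 1)), Real.sin_neg]; linarith
  · have hθi : 0 < θ i := by
      have := hlo j (by omega); linarith
    have hA : ∀ l < j, 0 < Real.sin (θ l - θ i) := by
      intro l hl
      have h2 := hmono l j hl (by omega)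
      have h3 := hhi i hi
      have h4 := hlo l (by omega)
      have : 0 < Real.sin (θ i - θ l - Real.pi) :=
        Real.sin_pos_of_pos_of_lt_pi (by linarith) (by linarith)
      rw [Real.sin_sub_pi] at this
      rw [← neg_sub (θ i) (θ l), Real.sin_neg]; linarith
    have hB : ∀ l, i < l → l < n → 0 < Real.sin (θ l - θ i) := by
      intro l hl hln
      have h2 := hmono i l hl hln
      have h3 := hhi l hln
      exact Real.sin_pos_of_pos_of_lt_pi (by linarith) (by linarith)
    have h1 : 0 ≤ ∑ l ∈ Finset.Ico 0 j, Real.sin (θ l - θ i) :=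
      Finset.sum_nonneg fun l hl => (hA l (Finset.mem_Ico.1 hl).2).le
    have h2 : 0 ≤ ∑ l ∈ Finset.Ico i n, Real.sin (θ l - θ i) := by
      apply Finset.sum_nonneg
      intro l hl
      rw [Finset.mem_Ico] at hl
      rcases eq_or_lt_of_le hl.1 with h' | h'
      · rw [h']; simp
      · exact (hB l h' hl.2).le
    have h3 : 0 < ∑ l ∈ Finset.Ico 0 j, Real.sin (θ l - θ i) + ∑ l ∈ Finset.Ico i n, Real.sin (θ l - θ i) := by
      by_cases hj0 : j = 0
      · have hi' : i + 1 < n := by omega
        have : 0 < ∑ l ∈ Finset.Ico i n, Real.sin (θ l - θ i) := by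
          apply Finset.sum_pos'
          · intro l hl
            rw [Finset.mem_Ico] at hl
            rcases eq_or_lt_of_le hl.1 with h' | h'
            · rw [h']; simp
            · exact (hB l h' hl.2).le
          · exact ⟨i + 1, Finset.mem_Ico.2 ⟨by omega, hi'⟩, hB _ (by omega) hi'⟩
        linarith
      · have : 0 < ∑ l ∈ Finset.Ico 0 j, Real.sin (θ l - θ i) :=
          Finset.sum_pos (fun l hl => hA l (Finset.mem_Ico.1 hl).2) (Finset.nonempty_Ico.2 (by omega))
        linarith
    rw [Finset.range_eq_Ico, ← Finset.sum_Ico_consecutive _ (Nat.zero_le j) (by omega : j ≤ n),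
      ← Finset.sum_Ico_consecutive _ hij.le hi.le] at htot
    linarith

end

theorem polygon (n : ℕ) (hn : 3 ≤ n) (c : ℝ) (hc : 0 < c) (F : Finset ℂ) (hF : F.card = n)
    (hnorm : ∀ z ∈ F, ‖z‖ = c) (hsum : ∑ z ∈ F, z = 0) (Λ : Set ℂ) (h0 : (0 : ℂ) ∈ Λ)
    (hadd : ∀ z ∈ Λ, ∀ w ∈ F, z + w ∈ Λ) :
    ∃ P : ZMod n → ℂ, (∀ i, P i ∈ Λ) ∧ IsConvexEquilateral n P := by
  classical
  have : NeZero n := ⟨by omega⟩
  have hpolar : ∀ z ∈ F, z = c * exp (arg z * I) := by
    intro z hz
    have := Complex.norm_mul_exp_arg_mul_I z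
    rw [hnorm z hz] at this
    exact this.symm
  have hinj : Set.InjOn arg (F : Set ℂ) := by
    intro z hz w hw h
    rw [hpolar z hz, hpolar w hw, h]
  set A := F.image arg with hA
  have hAc : A.card = n := by rw [hA, Finset.card_image_of_injOn hinj, hF]
  set e := A.orderEmbOfFin hAc with he
  set θ : ℕ → ℝ := fun i => if h : i < n then e ⟨i, h⟩ else 0 with hθ
  have hθe : ∀ i (h : i < n), θ i = e ⟨i, h⟩ := fun i h => by simp only [hθ]; rw [dif_pos h]
  have hmemA : ∀ i < n, θ i ∈ A := by
    intro i hi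
    rw [hθe i hi]; exact Finset.orderEmbOfFin_mem A hAc _
  have hmono : ∀ i j, i < j → j < n → θ i < θ j := by
    intro i j hij hj
    rw [hθe i (by omega), hθe j hj]
    exact e.strictMono (by exact hij)
  have hlo : ∀ i < n, -Real.pi < θ i := by
    intro i hi
    obtain ⟨z, _, hz⟩ := Finset.mem_image.1 (hmemA i hi)
    rw [← hz]; exact Complex.neg_pi_lt_arg z
  have hhi : ∀ i < n, θ i ≤ Real.pi := by
    intro i hi
    obtain ⟨z, _, hz⟩ := Finset.mem_image.1 (hmemA i hi)
    rw [← hz]; exact Complex.arg_le_pi z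
  set v : ℕ → ℂ := fun i => c * exp (θ i * I) with hv
  have hvF : ∀ i < n, v i ∈ F := by
    intro i hi
    obtain ⟨z, hz, hzθ⟩ := Finset.mem_image.1 (hmemA i hi)
    have : v i = z := by
      rw [hpolar z hz, hzθ]
    rw [this]; exact hz
  have hvsum : ∑ i ∈ Finset.range n, v i = 0 := by
    rw [Finset.sum_range]
    have h1 : ∀ i : Fin n, v i = (fun t : ℝ => (c : ℂ) * exp (t * I)) (e i) := by
      intro i
      simp only [hv]
      rw [hθe i i.2]
    rw [Finset.sum_congr rfl (fun i _ => h1 i)]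
    have h2 : ∑ i : Fin n, (fun t : ℝ => (c : ℂ) * exp (t * I)) (e i)
        = ∑ t ∈ Finset.univ.image e, (fun t : ℝ => (c : ℂ) * exp (t * I)) t := by
      rw [Finset.sum_image (fun a _ b _ h => e.injective h)]
    rw [h2, he, Finset.image_orderEmbOfFin_univ, hA, Finset.sum_image (fun a ha b hb h => hinj ha hb h),
      ← hsum]
    exact Finset.sum_congr rfl fun z hz => (hpolar z hz).symm
  set S : ℕ → ℂ := fun j => ∑ l ∈ Finset.range j, v l with hS
  have hcross : ∀ i l, cross (v i) (v l) = c ^ 2 * Real.sin (θ l - θ i) := fun i l => cross_exp c _ _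
  have htot : ∀ i, ∑ l ∈ Finset.range n, Real.sin (θ l - θ i) = 0 := by
    intro i
    have h1 : cross (v i) (∑ l ∈ Finset.range n, v l) = 0 := by
      rw [hvsum]; simp [cross]
    rw [cross_sum] at h1
    simp_rw [hcross] at h1
    rw [← Finset.mul_sum] at h1
    exact (mul_eq_zero.1 h1).resolve_left (by positivity)
  have hSstep : ∀ j, S (j + 1) = S j + v j := fun j => Finset.sum_range_succ v j
  have hSn : S n = 0 := hvsum
  have hPstep : ∀ i : ZMod n, S (i + 1).val - S i.val = v i.val := by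
    intro i
    have hival := ZMod.val_lt i
    rcases lt_or_ge (i.val + 1) n with h | h
    · have h1 : (i + 1).val = i.val + 1 := by
        rw [ZMod.val_add, ZMod.val_one'' (by omega), Nat.mod_eq_of_lt h]
      rw [h1, hSstep]; ring
    · have h1 : (i + 1).val = 0 := by
        rw [ZMod.val_add, ZMod.val_one'' (by omega)]
        have : i.val + 1 = n := by omega
        rw [this, Nat.mod_self]
      have h2 : S (i.val + 1) = 0 := by
        have : i.val + 1 = n := by omega
        rw [this, hSn]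
      rw [hSstep] at h2
      have h3 : S 0 = 0 := by simp [hS]
      rw [h1, h3]
      linear_combination -h2
  have hSΛ : ∀ j ≤ n, S j ∈ Λ := by
    intro j
    induction j with
    | zero => intro _; simpa [hS] using h0
    | succ j ih =>
      intro hj
      rw [hSstep]
      exact hadd _ (ih (by omega)) _ (hvF j (by omega))
  refine ⟨fun i => S i.val, fun i => hSΛ _ (ZMod.val_lt i).le, ⟨c, hc, ?_⟩, ?_⟩
  · intro i
    simp only
    rw [hPstep]
    exact hnorm _ (hvF _ (ZMod.val_lt i))
  · intro i j hji hji1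
    simp only
    rw [hPstep]
    have hi := ZMod.val_lt i
    have hj := ZMod.val_lt j
    have hne : j.val ≠ i.val := fun h => hji (ZMod.val_injective n h)
    rcases lt_or_gt_of_ne hne with h | h
    · -- j < i
      have hex : ¬ (j.val = 0 ∧ i.val = n - 1) := by
        rintro ⟨h1, h2⟩
        apply hji1
        apply ZMod.val_injective n
        rw [ZMod.val_add, ZMod.val_one'' (by omega), h1, h2]
        have : n - 1 + 1 = n := by omega
        rw [this, Nat.mod_self]
      have h1 := pos_down n θ hn hmono hlo hhi i.val j.val h hi hex (htot _) (htot _)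
      have h2 : S j.val - S i.val = -∑ l ∈ Finset.Ico j.val i.val, v l := by
        rw [Finset.sum_Ico_eq_sub _ h.le]; simp only [hS]; ring
      have h3 : cross (v i.val) (S j.val - S i.val) = - (c ^ 2 * ∑ l ∈ Finset.Ico j.val i.val,
          Real.sin (θ l - θ i.val)) := by
        rw [h2]
        have : cross (v i.val) (-∑ l ∈ Finset.Ico j.val i.val, v l)
            = -cross (v i.val) (∑ l ∈ Finset.Ico j.val i.val, v l) := by
          unfold cross; simp only [Complex.neg_re, Complex.neg_im]; ring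
        rw [this, cross_sum]
        simp_rw [hcross]
        rw [← Finset.mul_sum]
      rw [h3]
      have : 0 < c ^ 2 * (-∑ l ∈ Finset.Ico j.val i.val, Real.sin (θ l - θ i.val)) :=
        mul_pos (by positivity) (by linarith)
      linarith
    · have hj2 : i.val + 2 ≤ j.val := by
        by_contra hcon
        apply hji1
        apply ZMod.val_injective n
        rw [ZMod.val_add, ZMod.val_one'' (by omega), Nat.mod_eq_of_lt (by omega)]
        omega
      have h1 := pos_up n θ hn hmono hlo hhi i.val j.val hj2 hj (htot _)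
      have h2 : S j.val - S i.val = ∑ l ∈ Finset.Ico i.val j.val, v l := by
        rw [Finset.sum_Ico_eq_sub _ h.le]
      rw [h2, cross_sum]
      simp_rw [hcross]
      rw [← Finset.mul_sum]
      positivity

theorem main (m : ℕ) (hm : m % 4 = 3) : ∃ N : ℕ, 3 ≤ N ∧ ∀ n ≥ N, ∃ P : ZMod n → ℂ,
    (∀ i, P i ∈ latt m) ∧ IsConvexEquilateral n P := by
  classical
  obtain ⟨N, hN3, hN⟩ := exists_set m hm
  refine ⟨N, hN3, fun n hn => ?_⟩
  obtain ⟨F, hFc, hFT, hFs⟩ := hN n hn
  obtain ⟨Q, hQ, hQF⟩ := common_denom m F hFT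
  have hQ' : (Q : ℂ) ≠ 0 := by exact_mod_cast hQ
  have hinj : Function.Injective (fun z : ℂ => (Q : ℂ) * z) := mul_right_injective₀ hQ'
  refine polygon n (by omega) |(Q : ℝ)| (by positivity) (F.image (fun z => (Q : ℂ) * z)) ?_ ?_ ?_
    (latt m) ⟨0, 0, by simp, by simp⟩ ?_
  · rw [Finset.card_image_of_injective _ hinj, hFc]
  · intro z hz
    obtain ⟨w, hw, rfl⟩ := Finset.mem_image.1 hz
    rw [norm_mul, (hFT w hw).1, mul_one]
    exact Complex.norm_intCast Q
  · rw [Finset.sum_image (fun a _ b _ h => hinj h), ← Finset.mul_sum, hFs, mul_zero]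
  · rintro z ⟨a, b, ha, hb⟩ w hw
    obtain ⟨u, hu, rfl⟩ := Finset.mem_image.1 hw
    obtain ⟨x, hx⟩ := hQF u hu
    refine ⟨a + x.re, b + x.im, ?_, ?_⟩
    · rw [hx, Complex.add_re, ha, ph_re]; push_cast; ring
    · rw [hx, Complex.add_im, hb, ph_im]; push_cast; ring

end Pool.Agent.V11167.Eqg
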