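import Mathlib

/-! Characters of `ZMod n`, linear independence, and spanning (for MP_fb0157_co). -/

namespace Pool.Agent.V11167.KEq

open Complex

variable {n : ℕ} [NeZero n]

/-- the standard character of `ZMod n` -/
noncomputable def e (x : ZMod n) : ℂ := ZMod.stdAddChar x

lemma e_add (x y : ZMod n) : e (x + y) = e x * e y := AddChar.map_add_eq_mul _ _ _
lemma e_zero : e (0 : ZMod n) = 1 := AddChar.map_zero_eq_one _
lemma e_neg (x : ZMod n) : e (-x) = starRingEnd ℂ (e x) := AddChar.map_neg_eq_conj _ _
lemma e_mul_neg (x : ZMod n) : e x * e (-x) = 1 := by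
  rw [← e_add, add_neg_cancel, e_zero]
lemma e_ne (x : ZMod n) : e x ≠ 0 := fun h => by
  have := e_mul_neg x
  rw [h, zero_mul] at this
  exact zero_ne_one this
lemma e_inj : Function.Injective (e : ZMod n → ℂ) := ZMod.injective_stdAddChar
lemma e_nat (x : ZMod n) (j : ℕ) : e (x * (j : ZMod n)) = e x ^ j := by
  have := AddChar.map_nsmul_eq_pow (ZMod.stdAddChar (N := n)) j x
  rw [nsmul_eq_mul, mul_comm] at this
  exact this

lemma sum_e (g : ZMod n) : ∑ i : ZMod n, e (g * i) = if g = 0 then (n : ℂ) else 0 := by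
  have := AddChar.sum_mulShift g (ZMod.isPrimitive_stdAddChar n)
  rw [ZMod.card] at this
  push_cast at this
  rw [← this]
  refine Finset.sum_congr rfl fun i _ => ?_
  rw [mul_comm]; rfl

lemma sum_ee (p c : ZMod n) :
    ∑ i : ZMod n, e (p * i) * e (-(c * i)) = if p = c then (n : ℂ) else 0 := by
  have h : ∀ i : ZMod n, e (p * i) * e (-(c * i)) = e ((p - c) * i) := by
    intro i
    rw [← e_add]; congr 1; ring
  simp_rw [h, sum_e, sub_eq_zero]

/-- index type of the coordinates -/
abbrev Idx (s : ℕ) := (Fin s × Bool) ⊕ Unit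

/-- the coordinate functions together with the constant function 1 -/
noncomputable def fam {s : ℕ} (y : Fin s → ZMod n → ℂ) (z : ZMod n → ℝ) :
    Option (Idx s) → (ZMod n → ℝ)
  | none => fun _ => 1
  | some (Sum.inl (f, false)) => fun i => (y f i).re
  | some (Sum.inl (f, true)) => fun i => (y f i).im
  | some (Sum.inr _) => z

theorem linInd {s : ℕ} (a : Fin s → ZMod n) (b : ZMod n) (ha : Function.Injective a)
    (ha0 : ∀ f, a f ≠ 0) (haa : ∀ f f', a f ≠ - a f') (hb0 : b ≠ 0) (hb : ∀ f, b ≠ a f)
    (hb' : ∀ f, b ≠ - a f) :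
    LinearIndependent ℝ (fam (fun f i => e (a f * i)) (fun i => (e (b * i)).re)) := by
  rw [Fintype.linearIndependent_iff]
  intro g hg
  have hF : ∀ i : ZMod n, (g none : ℂ) + (∑ f : Fin s,
      (((g (some (Sum.inl (f, false))) : ℂ) - g (some (Sum.inl (f, true))) * I) / 2 * e (a f * i)
      + ((g (some (Sum.inl (f, false))) : ℂ) + g (some (Sum.inl (f, true))) * I) / 2
        * e ((- a f) * i))) + (g (some (Sum.inr ())) : ℂ) / 2 * (e (b * i) + e ((-b) * i)) = 0 := by
    intro i
    have h1 := congrFun hg i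
    simp only [Fintype.sum_option, Fintype.sum_sum_type, Fintype.sum_prod_type,
      Fintype.sum_bool, Pi.smul_apply, Finset.sum_apply, fam, smul_eq_mul,
      Pi.zero_apply, Finset.univ_unique, Finset.sum_singleton] at h1
    have h2 : ((g none * 1 + ((∑ x : Fin s, (g (some (Sum.inl (x, true))) * (e (a x * i)).im
        + g (some (Sum.inl (x, false))) * (e (a x * i)).re))
        + g (some (Sum.inr default)) * (e (b * i)).re) : ℝ) : ℂ) = ((0 : ℝ) : ℂ) := by
      rw [h1]
    push_cast at h2
    rw [← h2, mul_one, add_assoc]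
    congr 1
    congr 1
    · refine Finset.sum_congr rfl fun f _ => ?_
      rw [neg_mul, e_neg, Complex.re_eq_add_conj, Complex.im_eq_sub_conj]
      have hI : (I : ℂ) ≠ 0 := Complex.I_ne_zero
      field_simp
      ring_nf
      simp only [Complex.I_sq]
      ring
    · rw [neg_mul, e_neg, Complex.re_eq_add_conj]
      change (g (some (Sum.inr ())) : ℂ) / 2 * _ = (g (some (Sum.inr ())) : ℂ) * _
      ring
  have hn : (n : ℂ) ≠ 0 := by exact_mod_cast NeZero.ne n
  have hS : ∀ c : ZMod n, (g none : ℂ) * (if (0 : ZMod n) = c then (n : ℂ) else 0)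
      + (∑ f : Fin s,
      (((g (some (Sum.inl (f, false))) : ℂ) - g (some (Sum.inl (f, true))) * I) / 2
        * (if a f = c then (n : ℂ) else 0)
      + ((g (some (Sum.inl (f, false))) : ℂ) + g (some (Sum.inl (f, true))) * I) / 2
        * (if - a f = c then (n : ℂ) else 0)))
      + (g (some (Sum.inr ())) : ℂ) / 2 * ((if b = c then (n : ℂ) else 0)
        + (if -b = c then (n : ℂ) else 0)) = 0 := by
    intro c
    have h3 : ∑ i : ZMod n, ((g none : ℂ) + (∑ f : Fin s,
      (((g (some (Sum.inl (f, false))) : ℂ) - g (some (Sum.inl (f, true))) * I) / 2 * e (a f * i)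
      + ((g (some (Sum.inl (f, false))) : ℂ) + g (some (Sum.inl (f, true))) * I) / 2
        * e ((- a f) * i))) + (g (some (Sum.inr ())) : ℂ) / 2 * (e (b * i) + e ((-b) * i)))
        * e (-(c * i)) = 0 := by
      refine Finset.sum_eq_zero fun i _ => ?_
      rw [hF i, zero_mul]
    refine Eq.trans ?_ h3
    simp only [add_mul, Finset.sum_add_distrib, Finset.sum_mul, mul_add]
    congr 1
    · congr 1
      · rw [← sum_ee, Finset.mul_sum]
        refine Finset.sum_congr rfl fun i _ => ?_
        rw [zero_mul, e_zero, one_mul]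
      · rw [Finset.sum_comm, Finset.sum_comm (s := Finset.univ (α := ZMod n))]
        congr 1
        · refine Finset.sum_congr rfl fun f _ => ?_
          rw [← sum_ee, Finset.mul_sum]
          refine Finset.sum_congr rfl fun i _ => ?_
          ring
        · refine Finset.sum_congr rfl fun f _ => ?_
          rw [← sum_ee, Finset.mul_sum]
          refine Finset.sum_congr rfl fun i _ => ?_
          ring
    · congr 1
      · rw [← sum_ee, Finset.mul_sum]
        refine Finset.sum_congr rfl fun i _ => ?_
        ring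
      · rw [← sum_ee, Finset.mul_sum]
        refine Finset.sum_congr rfl fun i _ => ?_
        ring
  have hf : ∀ f, g (some (Sum.inl (f, false))) = 0 ∧ g (some (Sum.inl (f, true))) = 0 := by
    intro f
    have h4 := hS (a f)
    rw [if_neg (ha0 f).symm, if_neg (hb f)] at h4
    have hb2 : -b ≠ a f := fun h => hb' f (by rw [← h, neg_neg])
    rw [if_neg hb2] at h4
    rw [Finset.sum_eq_single f] at h4
    · rw [if_pos rfl, if_neg (haa f f).symm] at h4
      simp only [mul_zero, add_zero, zero_add, mul_eq_zero, hn, or_false, div_eq_zero_iff,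
        OfNat.ofNat_ne_zero] at h4
      have hre := congrArg Complex.re h4
      have him := congrArg Complex.im h4
      simp at hre him
      exact ⟨hre, him⟩
    · intro f' _ hne
      rw [if_neg (fun h => hne (ha h)), if_neg (haa f f').symm]
      ring
    · intro h; exact absurd (Finset.mem_univ f) h
  have hd : g (some (Sum.inr ())) = 0 := by
    have h4 := hS b
    rw [if_neg hb0.symm, if_pos rfl, Finset.sum_eq_zero] at h4
    · by_cases hbb : -b = b
      · rw [if_pos hbb] at h4
        have : (g (some (Sum.inr ())) : ℂ) * n = 0 := by linear_combination h4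
        rcases mul_eq_zero.1 this with h | h
        · exact_mod_cast h
        · exact absurd h hn
      · rw [if_neg hbb] at h4
        have : (g (some (Sum.inr ())) : ℂ) * n = 0 := by linear_combination 2 * h4
        rcases mul_eq_zero.1 this with h | h
        · exact_mod_cast h
        · exact absurd h hn
    · intro f _
      rw [if_neg (hb f).symm, if_neg (hb' f).symm]
      ring
  have h0 : g none = 0 := by
    have h4 := hS 0
    rw [if_pos rfl, if_neg hb0, if_neg (neg_ne_zero.2 hb0), Finset.sum_eq_zero] at h4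
    · have : (g none : ℂ) * n = 0 := by linear_combination h4
      rcases mul_eq_zero.1 this with h | h
      · exact_mod_cast h
      · exact absurd h hn
    · intro f _
      rw [if_neg (ha0 f), if_neg (neg_ne_zero.2 (ha0 f))]
      ring
  intro i
  match i with
  | none => exact h0
  | some (Sum.inl (f, false)) => exact (hf f).1
  | some (Sum.inl (f, true)) => exact (hf f).2
  | some (Sum.inr ()) => exact hd

/-- the vertices -/
noncomputable def pt {s : ℕ} (y : Fin s → ZMod n → ℂ) (z : ZMod n → ℝ) (i : ZMod n) :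
    EuclideanSpace ℝ (Idx s) := WithLp.toLp 2 (fun c => fam y z (some c) i)

omit [NeZero n] in
lemma dist_pt {s : ℕ} (y : Fin s → ZMod n → ℂ) (z : ZMod n → ℝ) (i j : ZMod n) :
    dist (pt y z i) (pt y z j)
      = Real.sqrt ((∑ f, ‖y f i - y f j‖ ^ 2) + (z i - z j) ^ 2) := by
  rw [EuclideanSpace.dist_eq]
  congr 1
  simp only [Fintype.sum_sum_type, Fintype.sum_prod_type, Fintype.sum_bool, pt, fam,
    Finset.univ_unique, Finset.sum_singleton, Real.dist_eq, sq_abs]
  congr 1
  refine Finset.sum_congr rfl fun f _ => ?_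
  rw [← Complex.normSq_eq_norm_sq, Complex.normSq_apply, Complex.sub_re, Complex.sub_im]
  ring

lemma expand {ι : Type} [Fintype ι] [DecidableEq ι] (v : EuclideanSpace ℝ ι) :
    v = ∑ c, (v c) • EuclideanSpace.single c (1 : ℝ) := by
  ext d
  simp [Finset.sum_apply, Pi.single_apply]

omit [NeZero n] in
theorem span_of_linInd {s : ℕ} (y : Fin s → ZMod n → ℂ) (z : ZMod n → ℝ)
    (h : LinearIndependent ℝ (fam y z)) : affineSpan ℝ (Set.range (pt y z)) = ⊤ := by
  have hne : (Set.range (pt y z)).Nonempty := Set.range_nonempty _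
  rw [AffineSubspace.affineSpan_eq_top_iff_vectorSpan_eq_top_of_nonempty _ _ _ hne]
  by_contra hcon
  obtain ⟨φ, hφ, hle⟩ := Submodule.exists_le_ker_of_lt_top _ (lt_top_iff_ne_top.2 hcon)
  have hconst : ∀ i : ZMod n, φ (pt y z i) = φ (pt y z 0) := by
    intro i
    have h1 := hle (vsub_mem_vectorSpan ℝ (Set.mem_range_self (f := pt y z) i)
      (Set.mem_range_self (f := pt y z) 0))
    rw [LinearMap.mem_ker, vsub_eq_sub, map_sub, sub_eq_zero] at h1
    exact h1
  have hexp : ∀ i : ZMod n, φ (pt y z i)
      = ∑ c : Idx s, φ (EuclideanSpace.single c (1 : ℝ)) * fam y z (some c) i := by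
    intro i
    have h2 : pt y z i = ∑ c : Idx s, (fam y z (some c) i) • EuclideanSpace.single c (1 : ℝ) :=
      expand (pt y z i)
    rw [h2, map_sum]
    refine Finset.sum_congr rfl fun c _ => ?_
    rw [map_smul, smul_eq_mul, mul_comm]
  rw [Fintype.linearIndependent_iff] at h
  have h3 := h (fun c => match c with
    | none => - φ (pt y z 0)
    | some c => φ (EuclideanSpace.single c (1 : ℝ))) (by
      funext i
      rw [Fintype.sum_option]
      simp only [Pi.add_apply, Pi.smul_apply, Finset.sum_apply, smul_eq_mul, Pi.zero_apply]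
      rw [← hexp i, hconst i]
      simp [fam])
  apply hφ
  apply LinearMap.ext
  intro v
  rw [expand v, map_sum]
  simp only [LinearMap.zero_apply]
  refine Finset.sum_eq_zero fun c _ => ?_
  have h5 : φ (EuclideanSpace.single c (1 : ℝ)) = 0 := h3 (some c)
  rw [map_smul, h5, smul_zero]

omit [NeZero n] in
/-- transport to `Fin m` coordinates -/
theorem transport {s m : ℕ} (hm : 2 * s + 1 = m) (P : ZMod n → EuclideanSpace ℝ (Idx s))
    (hP : affineSpan ℝ (Set.range P) = ⊤) :
    ∃ Q : ZMod n → EuclideanSpace ℝ (Fin m), (∀ i j, dist (Q i) (Q j) = dist (P i) (P j)) ∧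
      affineSpan ℝ (Set.range Q) = ⊤ := by
  have hc : Fintype.card (Idx s) = m := by
    simp only [Fintype.card_sum, Fintype.card_prod, Fintype.card_fin, Fintype.card_bool,
      Fintype.card_unit]
    omega
  let E : EuclideanSpace ℝ (Idx s) ≃ₗᵢ[ℝ] EuclideanSpace ℝ (Fin m) :=
    LinearIsometryEquiv.piLpCongrLeft 2 ℝ ℝ (Fintype.equivFinOfCardEq hc)
  refine ⟨fun i => E (P i), fun i j => E.dist_map _ _, ?_⟩
  have h1 : Set.range (fun i => E (P i)) = (E.toLinearEquiv.toAffineEquiv) '' (Set.range P) := by
    rw [← Set.range_comp]; rfl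
  rw [h1]
  exact AffineMap.span_eq_top_of_surjective
    (E.toLinearEquiv.toAffineEquiv : EuclideanSpace ℝ (Idx s) →ᵃ[ℝ] EuclideanSpace ℝ (Fin m))
    E.surjective hP

end Pool.Agent.V11167.KEq
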