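import Pool.Agent.V11167.KEqA

/-! The perturbation engine (for MP_fb0157_co). -/

namespace Pool.Agent.V11167.KEq

open Complex

variable {n : ℕ} [NeZero n] {s kk : ℕ}

abbrev Dom (s kk n : ℕ) := (Fin s → ZMod n → ℂ) × (Fin kk → ℝ)
abbrev Tgt (kk n : ℕ) := Fin kk × ZMod n → ℝ

/-- the constraint map -/
noncomputable def Phi (p : Dom s kk n) : Tgt kk n := fun q =>
  (∑ f, ‖p.1 f q.2 - p.1 f (q.2 + (((q.1 : ℕ) + 1 : ℕ) : ZMod n))‖ ^ 2) - p.2 q.1

noncomputable def ev (f : Fin s) (i : ZMod n) : Dom s kk n →L[ℝ] ℂ :=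
  (ContinuousLinearMap.proj (R := ℝ) (φ := fun _ : ZMod n => ℂ) i).comp
    ((ContinuousLinearMap.proj (R := ℝ) (φ := fun _ : Fin s => ZMod n → ℂ) f).comp
      (ContinuousLinearMap.fst ℝ (Fin s → ZMod n → ℂ) (Fin kk → ℝ)))

omit [NeZero n] in
lemma ev_apply (f : Fin s) (i : ZMod n) (p : Dom s kk n) : ev f i p = p.1 f i := rfl

/-- the derivative of the constraint map -/
noncomputable def DPhi (p : Dom s kk n) : Dom s kk n →L[ℝ] Tgt kk n :=
  ContinuousLinearMap.pi fun q =>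
    (∑ f, 2 • (innerSL ℝ (p.1 f q.2 - p.1 f (q.2 + (((q.1 : ℕ) + 1 : ℕ) : ZMod n)))).comp
      (ev f q.2 - ev f (q.2 + (((q.1 : ℕ) + 1 : ℕ) : ZMod n)) : Dom s kk n →L[ℝ] ℂ))
    - (ContinuousLinearMap.proj (R := ℝ) (φ := fun _ : Fin kk => ℝ) q.1).comp
      (ContinuousLinearMap.snd ℝ (Fin s → ZMod n → ℂ) (Fin kk → ℝ))

lemma hasDPhi (p : Dom s kk n) : HasStrictFDerivAt Phi (DPhi p) p := by
  rw [hasStrictFDerivAt_pi']
  intro q
  have h1 : ∀ f : Fin s, HasStrictFDerivAt (fun p : Dom s kk n =>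
      ‖p.1 f q.2 - p.1 f (q.2 + (((q.1 : ℕ) + 1 : ℕ) : ZMod n))‖ ^ 2)
      (2 • (innerSL ℝ (p.1 f q.2 - p.1 f (q.2 + (((q.1 : ℕ) + 1 : ℕ) : ZMod n)))).comp
      (ev f q.2 - ev f (q.2 + (((q.1 : ℕ) + 1 : ℕ) : ZMod n)) : Dom s kk n →L[ℝ] ℂ)) p := by
    intro f
    exact (hasStrictFDerivAt_norm_sq _).comp p
      ((ev f q.2 - ev f (q.2 + (((q.1 : ℕ) + 1 : ℕ) : ZMod n)) : Dom s kk n →L[ℝ] ℂ).hasStrictFDerivAt
        (x := p))
  have h2 := HasStrictFDerivAt.fun_sum (u := Finset.univ) fun f (_ : f ∈ Finset.univ) => h1 f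
  have h3 : HasStrictFDerivAt (fun p : Dom s kk n => p.2 q.1)
      ((ContinuousLinearMap.proj (R := ℝ) (φ := fun _ : Fin kk => ℝ) q.1).comp
      (ContinuousLinearMap.snd ℝ (Fin s → ZMod n → ℂ) (Fin kk → ℝ))) p :=
    ((ContinuousLinearMap.proj (R := ℝ) (φ := fun _ : Fin kk => ℝ) q.1).comp
      (ContinuousLinearMap.snd ℝ (Fin s → ZMod n → ℂ) (Fin kk → ℝ))).hasStrictFDerivAt
  exact h2.fun_sub h3

omit [NeZero n] in
lemma DPhi_apply (p v : Dom s kk n) (q : Fin kk × ZMod n) :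
    DPhi p v q = (∑ f, 2 * ((starRingEnd ℂ (p.1 f q.2 - p.1 f (q.2 + (((q.1 : ℕ) + 1 : ℕ) : ZMod n))))
      * (v.1 f q.2 - v.1 f (q.2 + (((q.1 : ℕ) + 1 : ℕ) : ZMod n)))).re) - v.2 q.1 := by
  simp only [DPhi, ContinuousLinearMap.pi_apply, sub_apply,
    sum_apply, smul_apply, ContinuousLinearMap.comp_apply,
    ev_apply, innerSL_apply_apply, Complex.inner]
  congr 1
  refine Finset.sum_congr rfl fun f _ => ?_
  rw [nsmul_eq_mul, Nat.cast_ofNat]
  congr 2
  rw [mul_comm]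

/-- the base configuration -/
noncomputable def base (a : Fin s → ZMod n) : Fin s → ZMod n → ℂ := fun f i => e (a f * i)

lemma key_pos (a i J m : ZMod n) (κ : ℂ) :
    starRingEnd ℂ (e (a * i) - e (a * (i + J))) * (κ * e ((a + m) * i) - κ * e ((a + m) * (i + J)))
      = κ * (e (m * i) * ((1 - e (-(a * J))) * (1 - e ((a + m) * J)))) := by
  have h1 : e (a * (i + J)) = e (a * i) * e (a * J) := by rw [← e_add]; congr 1; ring
  have h2 : e ((a + m) * (i + J)) = e (a * i) * e (m * i) * e ((a + m) * J) := by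
    rw [← e_add, ← e_add]; congr 1; ring
  have h3 : e ((a + m) * i) = e (a * i) * e (m * i) := by
    rw [← e_add]; congr 1; ring
  rw [h1, h2, h3, map_sub, map_mul, ← e_neg, ← e_neg]
  have h4 := e_mul_neg (a * i)
  linear_combination (κ * e (m * i) * ((1 - e (-(a * J))) * (1 - e ((a + m) * J)))) * h4

lemma key_neg (a i J m : ZMod n) (κ : ℂ) :
    (starRingEnd ℂ (e (a * i) - e (a * (i + J)))
      * (starRingEnd ℂ (κ * e ((-a + m) * i)) - starRingEnd ℂ (κ * e ((-a + m) * (i + J))))).re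
      = (κ * (e (m * i) * ((1 - e (-(-a * J))) * (1 - e ((-a + m) * J))))).re := by
  rw [← map_sub, ← map_mul, Complex.conj_re]
  congr 1
  have h := key_pos (-a) i J m κ
  rw [map_sub, ← e_neg, ← e_neg] at h
  rw [← h]
  congr 3 <;> ring

/-- Fourier transform of the stress -/
noncomputable def Lam (lam : Tgt kk n) (j : Fin kk) (m : ZMod n) : ℂ :=
  ∑ i : ZMod n, (lam (j, i) : ℂ) * e (m * i)

lemma re_zero_of_all {z : ℂ} (h : ∀ κ : ℂ, (κ * z).re = 0) : z = 0 := by
  apply Complex.ext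
  · simpa using h 1
  · simpa using h (-I)

lemma sum_tgt (g : Tgt kk n) : ∑ q, g q = ∑ j, ∑ i, g (j, i) := by
  rw [Fintype.sum_prod_type]

/-- the relation satisfied by a stress -/
lemma rel (a : Fin s → ZMod n) (c : Fin kk → ℝ) (lam : Tgt kk n)
    (hlam : ∀ v : Dom s kk n, ∑ q, lam q * DPhi (base a, c) v q = 0) (f : Fin s) (m : ZMod n)
    (g : ZMod n) (hg : g = a f ∨ g = - a f) :
    ∑ j : Fin kk, Lam lam j m * ((1 - e (-(g * (((j : ℕ) + 1 : ℕ) : ZMod n))))
      * (1 - e ((g + m) * (((j : ℕ) + 1 : ℕ) : ZMod n)))) = 0 := by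
  have main : ∀ κ : ℂ, ∑ q : Fin kk × ZMod n, lam q *
      (2 * (κ * (e (m * q.2) * ((1 - e (-(g * (((q.1 : ℕ) + 1 : ℕ) : ZMod n))))
      * (1 - e ((g + m) * (((q.1 : ℕ) + 1 : ℕ) : ZMod n)))))).re) = 0 := by
    intro κ
    rcases hg with rfl | rfl
    · rw [← hlam (fun f' i => if f' = f then κ * e ((a f + m) * i) else 0, 0)]
      refine Finset.sum_congr rfl fun q _ => ?_
      congr 1
      rw [DPhi_apply, Finset.sum_eq_single f]
      · simp only [if_true, Pi.zero_apply, sub_zero]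
        rw [← key_pos]; rfl
      · intro f' _ hne
        simp [hne]
      · intro h; exact absurd (Finset.mem_univ _) h
    · rw [← hlam (fun f' i => if f' = f then starRingEnd ℂ (κ * e ((- a f + m) * i)) else 0, 0)]
      refine Finset.sum_congr rfl fun q _ => ?_
      congr 1
      rw [DPhi_apply, Finset.sum_eq_single f]
      · simp only [if_true, Pi.zero_apply, sub_zero]
        rw [← key_neg]; rfl
      · intro f' _ hne
        simp [hne]
      · intro h; exact absurd (Finset.mem_univ _) h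
  apply re_zero_of_all
  intro κ
  have h2 := main κ
  have h3 : κ * ∑ j : Fin kk, Lam lam j m * ((1 - e (-(g * (((j : ℕ) + 1 : ℕ) : ZMod n))))
      * (1 - e ((g + m) * (((j : ℕ) + 1 : ℕ) : ZMod n))))
      = ∑ q : Fin kk × ZMod n, (lam q : ℂ) *
      ((κ * (e (m * q.2) * ((1 - e (-(g * (((q.1 : ℕ) + 1 : ℕ) : ZMod n))))
      * (1 - e ((g + m) * (((q.1 : ℕ) + 1 : ℕ) : ZMod n))))))) := by
    rw [Fintype.sum_prod_type, Finset.mul_sum]
    refine Finset.sum_congr rfl fun j _ => ?_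
    rw [Lam, Finset.sum_mul, Finset.mul_sum]
    refine Finset.sum_congr rfl fun i _ => ?_
    ring
  rw [h3, Complex.re_sum]
  have h4 : ∀ q : Fin kk × ZMod n, ((lam q : ℂ) *
      ((κ * (e (m * q.2) * ((1 - e (-(g * (((q.1 : ℕ) + 1 : ℕ) : ZMod n))))
      * (1 - e ((g + m) * (((q.1 : ℕ) + 1 : ℕ) : ZMod n)))))))).re
      = (1 / 2) * (lam q *
      (2 * (κ * (e (m * q.2) * ((1 - e (-(g * (((q.1 : ℕ) + 1 : ℕ) : ZMod n))))
      * (1 - e ((g + m) * (((q.1 : ℕ) + 1 : ℕ) : ZMod n)))))).re)) := by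
    intro q
    rw [Complex.re_ofReal_mul]; ring
  simp_rw [h4]
  rw [← Finset.mul_sum, h2, mul_zero]

/-- the set of frequencies `0, ±a_f` -/
def G (a : Fin s → ZMod n) : Finset (ZMod n) :=
  insert 0 (Finset.univ.image a ∪ Finset.univ.image (fun f => - a f))

omit [NeZero n] in
lemma mem_G (a : Fin s → ZMod n) (g : ZMod n) :
    g ∈ G a ↔ g = 0 ∨ ∃ f, g = a f ∨ g = - a f := by
  simp only [G, Finset.mem_insert, Finset.mem_union, Finset.mem_image, Finset.mem_univ, true_and]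
  constructor
  · rintro (h | ⟨f, h⟩ | ⟨f, h⟩)
    · exact Or.inl h
    · exact Or.inr ⟨f, Or.inl h.symm⟩
    · exact Or.inr ⟨f, Or.inr h.symm⟩
  · rintro (h | ⟨f, h | h⟩)
    · exact Or.inl h
    · exact Or.inr (Or.inl ⟨f, h.symm⟩)
    · exact Or.inr (Or.inr ⟨f, h.symm⟩)

lemma rel_all (a : Fin s → ZMod n) (c : Fin kk → ℝ) (lam : Tgt kk n)
    (hlam : ∀ v : Dom s kk n, ∑ q, lam q * DPhi (base a, c) v q = 0) (m : ZMod n)
    (g : ZMod n) (hg : g ∈ G a ∪ (G a).image (fun g => -m - g)) :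
    ∑ j : Fin kk, Lam lam j m * ((1 - e (-(g * (((j : ℕ) + 1 : ℕ) : ZMod n))))
      * (1 - e ((g + m) * (((j : ℕ) + 1 : ℕ) : ZMod n)))) = 0 := by
  have h0 : ∀ g ∈ G a, ∑ j : Fin kk, Lam lam j m * ((1 - e (-(g * (((j : ℕ) + 1 : ℕ) : ZMod n))))
      * (1 - e ((g + m) * (((j : ℕ) + 1 : ℕ) : ZMod n)))) = 0 := by
    intro g hg
    rw [mem_G] at hg
    rcases hg with rfl | ⟨f, hf⟩
    · refine Finset.sum_eq_zero fun j _ => ?_
      rw [zero_mul, neg_zero, e_zero]; ring
    · exact rel a c lam hlam f m g hf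
  rcases Finset.mem_union.1 hg with hg | hg
  · exact h0 g hg
  · obtain ⟨g', hg', rfl⟩ := Finset.mem_image.1 hg
    rw [← h0 g' hg']
    refine Finset.sum_congr rfl fun j _ => ?_
    congr 1
    rw [mul_comm]
    congr 3
    · ring
    · ring

open Polynomial in
lemma Lam_zero (a : Fin s → ZMod n) (c : Fin kk → ℝ) (lam : Tgt kk n)
    (hlam : ∀ v : Dom s kk n, ∑ q, lam q * DPhi (base a, c) v q = 0) (m : ZMod n)
    (hcard : 2 * kk < (G a ∪ (G a).image (fun g => -m - g)).card) (j : Fin kk) :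
    Lam lam j m = 0 := by
  set P : ℂ[X] := ∑ j : Fin kk, C (Lam lam j m) * (C (1 + e m ^ ((j : ℕ) + 1)) * X ^ kk
    - X ^ (kk - ((j : ℕ) + 1)) - C (e m ^ ((j : ℕ) + 1)) * X ^ (kk + ((j : ℕ) + 1))) with hP
  have hdeg : P.natDegree ≤ 2 * kk := by
    refine Polynomial.natDegree_sum_le_of_forall_le _ _ fun j _ => ?_
    have hj := j.2
    refine (Polynomial.natDegree_C_mul_le _ _).trans ?_
    refine (Polynomial.natDegree_sub_le _ _).trans (max_le ?_ ?_)
    · refine (Polynomial.natDegree_sub_le _ _).trans (max_le ?_ ?_)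
      · refine (Polynomial.natDegree_C_mul_X_pow_le _ _).trans (by omega)
      · refine (Polynomial.natDegree_X_pow_le (R := ℂ) _).trans (by omega)
    · refine (Polynomial.natDegree_C_mul_X_pow_le _ _).trans (by omega)
  have heval : ∀ x ∈ (G a ∪ (G a).image (fun g => -m - g)).image e, P.eval x = 0 := by
    intro x hx
    obtain ⟨g, hg, rfl⟩ := Finset.mem_image.1 hx
    have h1 := rel_all a c lam hlam m g hg
    have h2 : P.eval (e g) = e g ^ kk * ∑ j : Fin kk, Lam lam j m *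
        ((1 - e (-(g * (((j : ℕ) + 1 : ℕ) : ZMod n))))
        * (1 - e ((g + m) * (((j : ℕ) + 1 : ℕ) : ZMod n)))) := by
      rw [hP, Polynomial.eval_finsetSum, Finset.mul_sum]
      refine Finset.sum_congr rfl fun j _ => ?_
      have hj := j.2
      simp only [Polynomial.eval_mul, Polynomial.eval_sub, Polynomial.eval_C, Polynomial.eval_pow,
        Polynomial.eval_X]
      have h3 : e ((g + m) * (((j : ℕ) + 1 : ℕ) : ZMod n)) = e g ^ ((j : ℕ) + 1) * e m ^ ((j : ℕ) + 1) := by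
        rw [e_nat, e_add, mul_pow]
      have h4 : e g ^ ((j : ℕ) + 1) * e (-(g * (((j : ℕ) + 1 : ℕ) : ZMod n))) = 1 := by
        rw [← e_nat, e_mul_neg]
      have h5 : e g ^ kk = e g ^ (kk - ((j : ℕ) + 1)) * e g ^ ((j : ℕ) + 1) := by
        rw [← pow_add]; congr 1; omega
      have h6 : e g ^ (kk + ((j : ℕ) + 1)) = e g ^ kk * e g ^ ((j : ℕ) + 1) := pow_add _ _ _
      rw [h3, h6]
      have h7 : e g ^ (kk - ((j : ℕ) + 1)) = e g ^ kk * e (-(g * (((j : ℕ) + 1 : ℕ) : ZMod n))) := by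
        rw [h5, mul_assoc, h4, mul_one]
      rw [h7]
      have h8 : e (-(g * (((j : ℕ) + 1 : ℕ) : ZMod n))) * e g ^ ((j : ℕ) + 1) = 1 := by
        rw [mul_comm]; exact h4
      linear_combination (-Lam lam j m * e g ^ kk * e m ^ ((j : ℕ) + 1)) * h8
    rw [h2, h1, mul_zero]
  have hzero : P = 0 := by
    refine Polynomial.eq_zero_of_natDegree_lt_card_of_eval_eq_zero' P _ heval ?_
    rw [Finset.card_image_of_injective _ e_inj]
    omega
  have hcoef : P.coeff (kk + ((j : ℕ) + 1)) = - (Lam lam j m * e m ^ ((j : ℕ) + 1)) := by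
    rw [hP, Polynomial.finsetSum_coeff, Finset.sum_eq_single j]
    · simp only [Polynomial.coeff_C_mul, Polynomial.coeff_sub, Polynomial.coeff_X_pow]
      have hj := j.2
      rw [if_neg (by omega), if_neg (by omega), if_pos trivial]
      ring
    · intro j' _ hne
      simp only [Polynomial.coeff_C_mul, Polynomial.coeff_sub, Polynomial.coeff_X_pow]
      have hj := j'.2
      have hne' : (j' : ℕ) ≠ j := fun h => hne (Fin.ext h)
      rw [if_neg (by omega), if_neg (by omega), if_neg (by omega)]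
      ring
    · intro h; exact absurd (Finset.mem_univ _) h
  rw [hzero, Polynomial.coeff_zero] at hcoef
  have h9 : Lam lam j m * e m ^ ((j : ℕ) + 1) = 0 := by
    rw [← neg_eq_zero]; exact hcoef.symm
  exact (mul_eq_zero.1 h9).resolve_right (pow_ne_zero _ (e_ne m))

lemma stress_zero (a : Fin s → ZMod n) (c : Fin kk → ℝ) (lam : Tgt kk n)
    (hlam : ∀ v : Dom s kk n, ∑ q, lam q * DPhi (base a, c) v q = 0)
    (hG : ∀ m : ZMod n, m ≠ 0 → 2 * kk < (G a ∪ (G a).image (fun g => -m - g)).card) :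
    lam = 0 := by
  have h0 : ∀ j : Fin kk, Lam lam j 0 = 0 := by
    intro j
    have h1 := hlam (0, Pi.single j 1)
    have h2 : ∀ q : Fin kk × ZMod n, lam q * DPhi (base a, c) (0, Pi.single j 1) q
        = - (lam q * (if q.1 = j then 1 else 0)) := by
      intro q
      rw [DPhi_apply]
      simp [Pi.single_apply]
    simp_rw [h2] at h1
    rw [Finset.sum_neg_distrib, neg_eq_zero, Fintype.sum_prod_type, Finset.sum_eq_single j] at h1
    · simp only [if_true, mul_one] at h1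
      simp only [Lam, zero_mul, e_zero, mul_one]
      exact_mod_cast congrArg (fun x : ℝ => (x : ℂ)) h1
    · intro j' _ hne
      simp [hne]
    · intro h; exact absurd (Finset.mem_univ _) h
  have hall : ∀ (j : Fin kk) (m : ZMod n), Lam lam j m = 0 := by
    intro j m
    by_cases hm : m = 0
    · rw [hm]; exact h0 j
    · exact Lam_zero a c lam hlam m (hG m hm) j
  have hn : (n : ℂ) ≠ 0 := by exact_mod_cast NeZero.ne n
  funext q
  obtain ⟨j, l⟩ := q
  have h3 : ∑ m : ZMod n, Lam lam j m * e (-(l * m)) = (lam (j, l) : ℂ) * n := by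
    simp only [Lam, Finset.sum_mul]
    rw [Finset.sum_comm, Finset.sum_eq_single l]
    · have h4 : ∀ m : ZMod n, (lam (j, l) : ℂ) * e (m * l) * e (-(l * m)) = lam (j, l) := by
        intro m
        rw [mul_assoc, mul_comm m l, e_mul_neg, mul_one]
      simp_rw [h4]
      rw [Finset.sum_const, Finset.card_univ, ZMod.card, nsmul_eq_mul, mul_comm]
    · intro i _ hne
      have h4 : ∀ m : ZMod n, (lam (j, i) : ℂ) * e (m * i) * e (-(l * m))
          = (lam (j, i) : ℂ) * (e (i * m) * e (-(l * m))) := by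
        intro m
        rw [mul_assoc, mul_comm m i]
      simp_rw [h4]
      rw [← Finset.mul_sum, sum_ee, if_neg hne, mul_zero]
    · intro h; exact absurd (Finset.mem_univ _) h
  simp_rw [hall, zero_mul, Finset.sum_const_zero] at h3
  have h5 : (lam (j, l) : ℂ) = 0 := by
    rcases mul_eq_zero.1 h3.symm with h | h
    · exact h
    · exact absurd h hn
  exact_mod_cast h5

lemma surj (a : Fin s → ZMod n) (c : Fin kk → ℝ)
    (hG : ∀ m : ZMod n, m ≠ 0 → 2 * kk < (G a ∪ (G a).image (fun g => -m - g)).card) :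
    (DPhi (kk := kk) (base a, c)).range = ⊤ := by
  by_contra hcon
  obtain ⟨φ, hφ, hle⟩ := Submodule.exists_le_ker_of_lt_top _ (lt_top_iff_ne_top.2 hcon)
  have hexp : ∀ t : Tgt kk n, φ t = ∑ q, (φ (Pi.single q 1)) * t q := by
    intro t
    rw [LinearMap.pi_apply_eq_sum_univ φ t]
    refine Finset.sum_congr rfl fun q _ => ?_
    rw [smul_eq_mul, mul_comm]
    congr 2
    funext q'
    simp [Pi.single_apply, eq_comm]
  have h1 := stress_zero a c (fun q => φ (Pi.single q 1)) (by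
    intro v
    rw [← hexp]
    exact hle (LinearMap.mem_range_self _ v)) hG
  apply hφ
  apply LinearMap.ext
  intro t
  rw [hexp t]
  simp only [LinearMap.zero_apply]
  refine Finset.sum_eq_zero fun q _ => ?_
  rw [congrFun h1 q]
  simp

end Pool.Agent.V11167.KEq
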