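import Pool.Agent.V11167.KEqB

/-! The perturbation engine, conclusion (for MP_fb0157_co). -/

namespace Pool.Agent.V11167.KEq

open Complex Filter Topology

variable {n : ℕ} [NeZero n] {s kk : ℕ}

omit [NeZero n] in
lemma fam_smul (y : Fin s → ZMod n → ℂ) (z : ZMod n → ℝ) (ε : ℝ) (hε : ε ≠ 0)
    (h : LinearIndependent ℝ (fam y z)) : LinearIndependent ℝ (fam y (fun i => ε * z i)) := by
  have h1 := h.units_smul (fun c : Option (Idx s) => match c with
    | some (Sum.inr _) => Units.mk0 ε hε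
    | _ => 1)
  convert h1 using 1
  funext c
  match c with
  | none => simp [fam]
  | some (Sum.inl (f, false)) => simp [fam]
  | some (Sum.inl (f, true)) => simp [fam]
  | some (Sum.inr ()) =>
    funext i
    simp [fam, Units.smul_def]

omit [NeZero n] in
lemma fam_continuous (z : ZMod n → ℝ) : Continuous (fun y : Fin s → ZMod n → ℂ => fam y z) := by
  refine continuous_pi fun c => ?_
  match c with
  | none => exact continuous_const
  | some (Sum.inl (f, false)) =>
    refine continuous_pi fun i => ?_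
    exact Complex.continuous_re.comp ((continuous_apply i).comp (continuous_apply f))
  | some (Sum.inl (f, true)) =>
    refine continuous_pi fun i => ?_
    exact Complex.continuous_im.comp ((continuous_apply i).comp (continuous_apply f))
  | some (Sum.inr ()) => exact continuous_const

lemma norm_base (a : Fin s → ZMod n) (f : Fin s) (i J : ZMod n) :
    ‖base a f i - base a f (i + J)‖ = ‖1 - e (a f * J)‖ := by
  have h1 : base a f i - base a f (i + J) = e (a f * i) * (1 - e (a f * J)) := by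
    simp only [base]
    rw [mul_add, e_add]; ring
  have h2 : ‖e (a f * i)‖ = 1 := AddChar.norm_apply _ _
  rw [h1, norm_mul, h2, one_mul]

theorem engine (a : Fin s → ZMod n) (b : ZMod n) (ha : Function.Injective a)
    (ha0 : ∀ f, a f ≠ 0) (haa : ∀ f f', a f ≠ - a f') (hb0 : b ≠ 0) (hb : ∀ f, b ≠ a f)
    (hb' : ∀ f, b ≠ - a f)
    (hG : ∀ m : ZMod n, m ≠ 0 → 2 * kk < (G a ∪ (G a).image (fun g => -m - g)).card)
    (f0 : Fin s) (hf0 : a f0 = 1) (d : ℕ) (hd : 2 * s + 1 = d) :
    ∃ P : ZMod n → EuclideanSpace ℝ (Fin d), Function.Injective P ∧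
      (∀ j : ℕ, 1 ≤ j → j ≤ kk → ∃ c : ℝ, ∀ i : ZMod n, dist (P i) (P (i + (j : ZMod n))) = c) ∧
      affineSpan ℝ (Set.range P) = ⊤ := by
  set z0 : ZMod n → ℝ := fun i => (e (b * i)).re with hz0
  set c0 : Fin kk → ℝ := fun j => ∑ f, ‖1 - e (a f * (((j : ℕ) + 1 : ℕ) : ZMod n))‖ ^ 2 with hc0
  have hPhi0 : Phi (base a, c0) = 0 := by
    funext q
    simp only [Phi, norm_base, hc0, Pi.zero_apply, sub_self]
  have hmap := (hasDPhi (kk := kk) (base a, c0)).map_nhds_eq_of_surj (surj a c0 hG)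
  have hU : ∀ᶠ p : Dom s kk n in 𝓝 (base a, c0), LinearIndependent ℝ (fam p.1 z0) ∧
      Function.Injective (p.1 f0) := by
    refine Filter.Eventually.and ?_ ?_
    · have ho : IsOpen {g : Option (Idx s) → (ZMod n → ℝ) | LinearIndependent ℝ g} :=
        isOpen_setOfPred_linearIndependent
      have hc : Continuous (fun p : Dom s kk n => fam p.1 z0) := (fam_continuous z0).comp continuous_fst
      exact (ho.preimage hc).mem_nhds (linInd a b ha ha0 haa hb0 hb hb')
    · have h1 : ∀ i j : ZMod n, i ≠ j → ∀ᶠ p : Dom s kk n in 𝓝 (base a, c0), p.1 f0 i ≠ p.1 f0 j := by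
        intro i j hij
        have hc : Continuous (fun p : Dom s kk n => p.1 f0 i - p.1 f0 j) := by fun_prop
        have h2 : (base a f0 i - base a f0 j) ≠ 0 := by
          rw [sub_ne_zero]
          intro h
          apply hij
          have h3 := e_inj h
          rwa [hf0, one_mul, one_mul] at h3
        have h4 := hc.continuousAt.eventually_ne (x := ((base a, c0) : Dom s kk n)) h2
        filter_upwards [h4] with p hp
        exact sub_ne_zero.1 hp
      have h5 : ∀ᶠ p : Dom s kk n in 𝓝 (base a, c0), ∀ i j : ZMod n, i ≠ j → p.1 f0 i ≠ p.1 f0 j := by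
        rw [eventually_all]
        intro i
        rw [eventually_all]
        intro j
        by_cases hij : i = j
        · exact Eventually.of_forall fun p h => absurd hij h
        · filter_upwards [h1 i j hij] with p hp _ using hp
      filter_upwards [h5] with p hp i j hij
      by_contra hne
      exact hp i j hne hij
  have himg : Phi '' {p : Dom s kk n | LinearIndependent ℝ (fam p.1 z0) ∧
      Function.Injective (p.1 f0)} ∈ 𝓝 (0 : Tgt kk n) := by
    rw [← hPhi0, ← hmap]
    exact image_mem_map hU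
  have hT : Tendsto (fun ε : ℝ => (fun q : Fin kk × ZMod n =>
      -(ε * z0 q.2 - ε * z0 (q.2 + (((q.1 : ℕ) + 1 : ℕ) : ZMod n))) ^ 2)) (𝓝 0) (𝓝 (0 : Tgt kk n)) := by
    have hc : Continuous (fun ε : ℝ => (fun q : Fin kk × ZMod n =>
      -(ε * z0 q.2 - ε * z0 (q.2 + (((q.1 : ℕ) + 1 : ℕ) : ZMod n))) ^ 2)) := by fun_prop
    have h1 := hc.tendsto 0
    have h2 : (fun q : Fin kk × ZMod n =>
      -((0 : ℝ) * z0 q.2 - 0 * z0 (q.2 + (((q.1 : ℕ) + 1 : ℕ) : ZMod n))) ^ 2) = 0 := by
      funext q; simp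
    rw [h2] at h1
    exact h1
  have hev : ∀ᶠ ε : ℝ in 𝓝[≠] 0, (fun q : Fin kk × ZMod n =>
      -(ε * z0 q.2 - ε * z0 (q.2 + (((q.1 : ℕ) + 1 : ℕ) : ZMod n))) ^ 2) ∈
      Phi '' {p : Dom s kk n | LinearIndependent ℝ (fam p.1 z0) ∧ Function.Injective (p.1 f0)} :=
    (hT.mono_left nhdsWithin_le_nhds) himg
  obtain ⟨ε, ⟨⟨y, c⟩, ⟨hlin, hinj⟩, hyc⟩, hε⟩ := (hev.and self_mem_nhdsWithin).exists
  have hε0 : ε ≠ 0 := hε
  obtain ⟨Q, hQd, hQs⟩ := transport hd (pt y (fun i => ε * z0 i))
    (span_of_linInd _ _ (fam_smul y z0 ε hε0 hlin))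
  refine ⟨Q, ?_, ?_, hQs⟩
  · intro i j hij
    have h1 : dist (Q i) (Q j) = 0 := by rw [hij, dist_self]
    rw [hQd, dist_eq_zero] at h1
    have h2 : ∀ c : Idx s, fam y (fun i => ε * z0 i) (some c) i = fam y (fun i => ε * z0 i) (some c) j := by
      intro c
      exact congrFun (congrArg (fun v : EuclideanSpace ℝ (Idx s) => v.ofLp) h1) c
    apply hinj
    apply Complex.ext
    · exact h2 (Sum.inl (f0, false))
    · exact h2 (Sum.inl (f0, true))
  · intro j hj1 hj2
    refine ⟨Real.sqrt (c ⟨j - 1, by omega⟩), fun i => ?_⟩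
    rw [hQd, dist_pt]
    congr 1
    have h1 := congrFun hyc (⟨j - 1, by omega⟩, i)
    simp only [Phi] at h1
    have h2 : ((j - 1 + 1 : ℕ) : ZMod n) = (j : ZMod n) := by
      congr 1; omega
    rw [h2] at h1
    linarith

end Pool.Agent.V11167.KEq
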