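import Pool.Agent.V11167.KEqC

/-! Combinatorics of frequencies (for MP_fb0157_co). -/

namespace Pool.Agent.V11167.KEq

/-! ### The case of odd n, k ≥ 3 -/

lemma ndvd (N x : ℤ) (hN : 0 ≤ N) (h : -(2 * N + 1) < x) (h2 : x < 2 * (2 * N + 1)) (h0 : x ≠ 0)
    (h1 : x ≠ 2 * N + 1) : ¬ (2 * N + 1) ∣ x := by
  rintro ⟨q, rfl⟩
  have hq1 : -1 < q := by nlinarith
  have hq2 : q < 2 := by nlinarith
  interval_cases q
  · simp at h0
  · simp at h1

def T (k : ℤ) (t : ℤ) : Prop := (-(k - 2) ≤ t ∧ t ≤ k - 2) ∨ t = k ∨ t = -k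

lemma comb (k N m : ℤ) (hk : 3 ≤ k) (hN : k + 1 ≤ N) (hm1 : 1 ≤ m) (hm2 : m ≤ N) :
    ∃ u v : ℤ, T k (u - m) ∧ T k (v - m) ∧ (∀ t, T k t → ¬ (2 * N + 1) ∣ u - t) ∧
      (∀ t, T k t → ¬ (2 * N + 1) ∣ v - t) ∧ ¬ (2 * N + 1) ∣ u - v := by
  rcases lt_or_ge m (2 * k) with h | h
  · by_cases h2 : m = 2
    · refine ⟨k - 1, k + 2, ?_, ?_, ?_, ?_, ?_⟩
      · unfold T; omega
      · unfold T; omega
      · intro t ht; unfold T at ht
        apply ndvd <;> omega
      · intro t ht; unfold T at ht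
        apply ndvd <;> omega
      · apply ndvd <;> omega
    · by_cases h3 : m = 2 * k - 2
      · refine ⟨k + 1, k + 2, ?_, ?_, ?_, ?_, ?_⟩
        · unfold T; omega
        · unfold T; omega
        · intro t ht; unfold T at ht
          apply ndvd <;> omega
        · intro t ht; unfold T at ht
          apply ndvd <;> omega
        · apply ndvd <;> omega
      · refine ⟨k - 1, k + 1, ?_, ?_, ?_, ?_, ?_⟩
        · unfold T; omega
        · unfold T; omega
        · intro t ht; unfold T at ht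
          apply ndvd <;> omega
        · intro t ht; unfold T at ht
          apply ndvd <;> omega
        · apply ndvd <;> omega
  · refine ⟨m + k, m + k - 2, ?_, ?_, ?_, ?_, ?_⟩
    · unfold T; omega
    · unfold T; omega
    · intro t ht; unfold T at ht
      apply ndvd <;> omega
    · intro t ht; unfold T at ht
      apply ndvd <;> omega
    · apply ndvd <;> omega

lemma comb' (k N m : ℤ) (hk : 3 ≤ k) (hN : k + 1 ≤ N) (hm0 : m ≠ 0) (hm1 : -N ≤ m) (hm2 : m ≤ N) :
    ∃ u v : ℤ, T k (-m - u) ∧ T k (-m - v) ∧ (∀ t, T k t → ¬ (2 * N + 1) ∣ u - t) ∧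
      (∀ t, T k t → ¬ (2 * N + 1) ∣ v - t) ∧ ¬ (2 * N + 1) ∣ u - v := by
  rcases lt_or_gt_of_ne hm0 with h | h
  · obtain ⟨u, v, h1, h2, h3, h4, h5⟩ := comb k N (-m) hk hN (by omega) (by omega)
    refine ⟨u, v, ?_, ?_, h3, h4, h5⟩
    · unfold T at *; omega
    · unfold T at *; omega
  · obtain ⟨u, v, h1, h2, h3, h4, h5⟩ := comb k N m hk hN (by omega) (by omega)
    refine ⟨-u, -v, ?_, ?_, ?_, ?_, ?_⟩
    · unfold T at *; omega
    · unfold T at *; omega
    · intro t ht hd
      apply h3 (-t) (by unfold T at *; omega)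
      have : u - -t = -(-u - t) := by ring
      rw [this]; exact (dvd_neg).2 hd
    · intro t ht hd
      apply h4 (-t) (by unfold T at *; omega)
      have : v - -t = -(-v - t) := by ring
      rw [this]; exact (dvd_neg).2 hd
    · intro hd
      apply h5
      have : u - v = -(-u - -v) := by ring
      rw [this]; exact (dvd_neg).2 hd

/-- frequencies `1, ..., k-2, k` -/
def fr (k n : ℕ) : Fin (k - 1) → ZMod n := fun f =>
  if (f : ℕ) < k - 2 then (((f : ℕ) + 1 : ℕ) : ZMod n) else ((k : ℕ) : ZMod n)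

lemma mem_G_fr (k n : ℕ) (hk : 3 ≤ k) (t : ℤ) (ht : T k t) : ((t : ℤ) : ZMod n) ∈ G (fr k n) := by
  rw [mem_G]
  rcases lt_trichotomy t 0 with h | h | h
  · right
    rcases ht with ht | ht | ht
    · refine ⟨⟨t.natAbs - 1, by omega⟩, Or.inr ?_⟩
      have h1 : t = -((t.natAbs - 1 + 1 : ℕ) : ℤ) := by omega
      simp only [fr]
      rw [if_pos (by omega)]
      conv_lhs => rw [h1]
      push_cast; rfl
    · omega
    · refine ⟨⟨k - 2, by omega⟩, Or.inr ?_⟩
      simp only [fr]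
      rw [if_neg (by omega), ht]
      push_cast; rfl
  · left; rw [h]; simp
  · right
    rcases ht with ht | ht | ht
    · refine ⟨⟨t.natAbs - 1, by omega⟩, Or.inl ?_⟩
      have h1 : t = ((t.natAbs - 1 + 1 : ℕ) : ℤ) := by omega
      simp only [fr]
      rw [if_pos (by omega)]
      conv_lhs => rw [h1]
      push_cast; rfl
    · refine ⟨⟨k - 2, by omega⟩, Or.inl ?_⟩
      simp only [fr]
      rw [if_neg (by omega), ht]
      push_cast; rfl
    · omega

lemma card_fr (k N : ℕ) (hk : 3 ≤ k) (hN : k + 1 ≤ N) (m : ZMod (2 * N + 1)) (hm : m ≠ 0) :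
    2 * k < (G (fr k (2 * N + 1)) ∪ (G (fr k (2 * N + 1))).image (fun g => -m - g)).card := by
  obtain ⟨μ, hμ, hμ1, hμ2⟩ : ∃ μ : ℤ, (μ : ZMod (2 * N + 1)) = m ∧ -(N : ℤ) ≤ μ ∧ μ ≤ N := by
    refine ⟨m.valMinAbs, ZMod.coe_valMinAbs m, ?_, ?_⟩
    · have := (ZMod.valMinAbs_mem_Ioc m).1
      push_cast at this; omega
    · have := (ZMod.valMinAbs_mem_Ioc m).2
      push_cast at this; omega
  have hμ0 : μ ≠ 0 := by
    rintro rfl
    apply hm; rw [← hμ]; simp
  obtain ⟨u, v, h1, h2, h3, h4, h5⟩ := comb' k N μ (by omega) (by omega) hμ0 hμ1 hμ2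
  have hcast : ∀ x y : ℤ, ((x : ZMod (2 * N + 1)) = y ↔ (2 * (N : ℤ) + 1) ∣ x - y) := by
    intro x y
    rw [ZMod.intCast_eq_intCast_iff_dvd_sub, ← dvd_neg, neg_sub]
    push_cast
    rfl
  set S : Finset ℤ := insert u (insert v (insert (k : ℤ) (insert (-(k : ℤ))
    (Finset.Icc (-((k : ℤ) - 2)) ((k : ℤ) - 2))))) with hS
  have hTS : ∀ t ∈ S, t = u ∨ t = v ∨ T k t := by
    intro t ht
    rw [hS] at ht
    simp only [Finset.mem_insert, Finset.mem_Icc] at ht
    unfold T
    tauto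
  have huT : ¬ T k u := fun h => h3 u h (by simp)
  have hvT : ¬ T k v := fun h => h4 v h (by simp)
  have huv : u ≠ v := fun h => h5 (by rw [h]; simp)
  have hcardS : S.card = 2 * k + 1 := by
    rw [hS, Finset.card_insert_of_notMem, Finset.card_insert_of_notMem, Finset.card_insert_of_notMem,
      Finset.card_insert_of_notMem, Int.card_Icc]
    · omega
    · simp only [Finset.mem_Icc]; omega
    · simp only [Finset.mem_insert, Finset.mem_Icc]; omega
    · simp only [Finset.mem_insert, Finset.mem_Icc]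
      unfold T at hvT
      omega
    · simp only [Finset.mem_insert, Finset.mem_Icc]
      unfold T at huT
      omega
  have hinj : Set.InjOn (fun t : ℤ => (t : ZMod (2 * N + 1))) S := by
    intro x hx y hy hxy
    have hd := (hcast x y).1 hxy
    by_contra hne
    rcases hTS x hx with rfl | rfl | hx'
    · rcases hTS y hy with rfl | rfl | hy'
      · exact hne rfl
      · exact h5 hd
      · exact h3 y hy' hd
    · rcases hTS y hy with rfl | rfl | hy'
      · apply h5
        have : y - x = -(x - y) := by ring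
        rw [this]; exact (dvd_neg).2 hd
      · exact hne rfl
      · exact h4 y hy' hd
    · rcases hTS y hy with rfl | rfl | hy'
      · apply h3 x hx'
        have : y - x = -(x - y) := by ring
        rw [this]; exact (dvd_neg).2 hd
      · apply h4 x hx'
        have : y - x = -(x - y) := by ring
        rw [this]; exact (dvd_neg).2 hd
      · unfold T at hx' hy'
        revert hd
        apply ndvd <;> omega
  have hsub : ∀ x ∈ S, (fun t : ℤ => (t : ZMod (2 * N + 1))) x ∈
      (G (fr k (2 * N + 1)) ∪ (G (fr k (2 * N + 1))).image (fun g => -m - g)) := by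
    intro x hx
    rw [Finset.mem_union]
    rcases hTS x hx with rfl | rfl | hx'
    · right
      rw [Finset.mem_image]
      refine ⟨_, mem_G_fr k (2 * N + 1) hk _ h1, ?_⟩
      push_cast
      rw [hμ]; ring
    · right
      rw [Finset.mem_image]
      refine ⟨_, mem_G_fr k (2 * N + 1) hk _ h2, ?_⟩
      push_cast
      rw [hμ]; ring
    · left
      exact mem_G_fr k (2 * N + 1) hk _ hx'
  have := Finset.card_le_card_of_injOn _ hsub hinj
  omega

lemma cast_ne {n x y : ℕ} (hx : x < n) (hy : y < n) (hxy : x ≠ y) :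
    (x : ZMod n) ≠ (y : ZMod n) := by
  intro h
  rw [ZMod.natCast_eq_natCast_iff', Nat.mod_eq_of_lt hx, Nat.mod_eq_of_lt hy] at h
  exact hxy h

lemma cast_ne_neg {n x y : ℕ} (hx : 0 < x + y) (hy : x + y < n) :
    (x : ZMod n) ≠ -(y : ZMod n) := by
  intro h
  have h1 : ((x + y : ℕ) : ZMod n) = 0 := by
    push_cast
    rw [h]; ring
  rw [ZMod.natCast_eq_zero_iff] at h1
  exact absurd (Nat.le_of_dvd hx h1) (by omega)

lemma fr_val (k n : ℕ) (hk : 3 ≤ k) (f : Fin (k - 1)) :
    ∃ x : ℕ, 1 ≤ x ∧ x ≤ k ∧ x ≠ k - 1 ∧ fr k n f = (x : ZMod n) ∧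
      x = if (f : ℕ) < k - 2 then (f : ℕ) + 1 else k := by
  refine ⟨if (f : ℕ) < k - 2 then (f : ℕ) + 1 else k, ?_, ?_, ?_, ?_, rfl⟩
  · split_ifs <;> omega
  · split_ifs <;> omega
  · split_ifs <;> omega
  · simp only [fr]
    split_ifs <;> rfl

theorem odd_case (k N : ℕ) (hk : 3 ≤ k) (hN : k + 1 ≤ N) :
    ∃ P : ZMod (2 * N + 1) → EuclideanSpace ℝ (Fin (2 * k - 1)), Function.Injective P ∧
      (∀ j : ℕ, 1 ≤ j → j ≤ k → ∃ c : ℝ, ∀ i : ZMod (2 * N + 1),
        dist (P i) (P (i + (j : ZMod (2 * N + 1)))) = c) ∧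
      affineSpan ℝ (Set.range P) = ⊤ := by
  refine engine (kk := k) (fr k (2 * N + 1)) ((k - 1 : ℕ) : ZMod (2 * N + 1)) ?_ ?_ ?_ ?_ ?_ ?_
    (card_fr k N hk hN) ⟨0, by omega⟩ ?_ _ (by omega)
  · intro f f' h
    obtain ⟨x, hx1, hx2, hx3, hx4, hx5⟩ := fr_val k (2 * N + 1) hk f
    obtain ⟨y, hy1, hy2, hy3, hy4, hy5⟩ := fr_val k (2 * N + 1) hk f'
    by_contra hne
    have hne' : (f : ℕ) ≠ f' := fun h => hne (Fin.ext h)
    have hf := f.2
    have hf' := f'.2
    have hxy : x ≠ y := by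
      rw [hx5, hy5]
      split_ifs <;> omega
    rw [hx4, hy4] at h
    exact cast_ne (by omega) (by omega) hxy h
  · intro f h
    obtain ⟨x, hx1, hx2, hx3, hx4, hx5⟩ := fr_val k (2 * N + 1) hk f
    rw [hx4] at h
    have : (x : ZMod (2 * N + 1)) ≠ ((0 : ℕ) : ZMod (2 * N + 1)) := cast_ne (by omega) (by omega) (by omega)
    exact this (by simpa using h)
  · intro f f' h
    obtain ⟨x, hx1, hx2, hx3, hx4, hx5⟩ := fr_val k (2 * N + 1) hk f
    obtain ⟨y, hy1, hy2, hy3, hy4, hy5⟩ := fr_val k (2 * N + 1) hk f'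
    rw [hx4, hy4] at h
    exact cast_ne_neg (by omega) (by omega) h
  · intro h
    have : ((k - 1 : ℕ) : ZMod (2 * N + 1)) ≠ ((0 : ℕ) : ZMod (2 * N + 1)) :=
      cast_ne (by omega) (by omega) (by omega)
    exact this (by simpa using h)
  · intro f h
    obtain ⟨x, hx1, hx2, hx3, hx4, hx5⟩ := fr_val k (2 * N + 1) hk f
    rw [hx4] at h
    exact cast_ne (by omega) (by omega) (by omega) h
  · intro f h
    obtain ⟨x, hx1, hx2, hx3, hx4, hx5⟩ := fr_val k (2 * N + 1) hk f
    rw [hx4] at h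
    exact cast_ne_neg (by omega) (by omega) h
  · simp only [fr]
    rw [if_pos (by omega)]
    simp

/-! ### The case of even n -/

def frE (k n : ℕ) : Fin (k - 1) → ZMod n := fun f => (((f : ℕ) + 1 : ℕ) : ZMod n)

theorem even_case (k N : ℕ) (hk : 2 ≤ k) (hN : k + 1 ≤ N) :
    ∃ P : ZMod (2 * N) → EuclideanSpace ℝ (Fin (2 * k - 1)), Function.Injective P ∧
      (∀ j : ℕ, 1 ≤ j → j ≤ k → ∃ c : ℝ, ∀ i : ZMod (2 * N),
        dist (P i) (P (i + (j : ZMod (2 * N)))) = c) ∧
      affineSpan ℝ (Set.range P) = ⊤ := by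
  have : NeZero (2 * N) := ⟨by omega⟩
  set z0 : ZMod (2 * N) → ℝ := fun i => (e (((N : ℕ) : ZMod (2 * N)) * i)).re with hz0
  have hb0 : ((N : ℕ) : ZMod (2 * N)) ≠ 0 := by
    have : ((N : ℕ) : ZMod (2 * N)) ≠ ((0 : ℕ) : ZMod (2 * N)) := cast_ne (by omega) (by omega) (by omega)
    exact fun h => this (by simpa using h)
  have hlin : LinearIndependent ℝ (fam (base (frE k (2 * N))) z0) := by
    refine linInd (frE k (2 * N)) ((N : ℕ) : ZMod (2 * N)) ?_ ?_ ?_ hb0 ?_ ?_
    · intro f f' h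
      by_contra hne
      have hne' : (f : ℕ) ≠ f' := fun h => hne (Fin.ext h)
      have hf := f.2
      have hf' := f'.2
      exact cast_ne (by omega) (by omega) (by omega) h
    · intro f h
      have hf := f.2
      have : (((f : ℕ) + 1 : ℕ) : ZMod (2 * N)) ≠ ((0 : ℕ) : ZMod (2 * N)) :=
        cast_ne (by omega) (by omega) (by omega)
      exact this (by rw [Nat.cast_zero]; exact h)
    · intro f f' h
      have hf := f.2
      have hf' := f'.2
      exact cast_ne_neg (by omega) (by omega) h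
    · intro f h
      have hf := f.2
      exact cast_ne (by omega) (by omega) (by omega) h
    · intro f h
      have hf := f.2
      exact cast_ne_neg (by omega) (by omega) h
  obtain ⟨Q, hQd, hQs⟩ := transport (m := 2 * k - 1) (by omega) (pt (base (frE k (2 * N))) z0)
    (span_of_linInd _ _ hlin)
  refine ⟨Q, ?_, ?_, hQs⟩
  · intro i j hij
    have h1 : dist (Q i) (Q j) = 0 := by rw [hij, dist_self]
    rw [hQd, dist_eq_zero] at h1
    have h2 : ∀ c : Idx (k - 1), fam (base (frE k (2 * N))) z0 (some c) i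
        = fam (base (frE k (2 * N))) z0 (some c) j := by
      intro c
      exact congrFun (congrArg (fun v : EuclideanSpace ℝ (Idx (k - 1)) => v.ofLp) h1) c
    have h3 : base (frE k (2 * N)) ⟨0, by omega⟩ i = base (frE k (2 * N)) ⟨0, by omega⟩ j := by
      apply Complex.ext
      · exact h2 (Sum.inl (⟨0, by omega⟩, false))
      · exact h2 (Sum.inl (⟨0, by omega⟩, true))
    have h4 := e_inj h3
    simpa [frE] using h4
  · intro j _ _
    refine ⟨Real.sqrt ((∑ f, ‖1 - e (frE k (2 * N) f * (j : ZMod (2 * N)))‖ ^ 2)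
      + (1 - (e (((N : ℕ) : ZMod (2 * N)) * (j : ZMod (2 * N)))).re) ^ 2), fun i => ?_⟩
    rw [hQd, dist_pt]
    congr 1
    congr 1
    · refine Finset.sum_congr rfl fun f _ => ?_
      rw [norm_base]
    · have h1 : e (((N : ℕ) : ZMod (2 * N)) * i) * e (((N : ℕ) : ZMod (2 * N)) * i) = 1 := by
        rw [← e_add]
        have : ((N : ℕ) : ZMod (2 * N)) * i + ((N : ℕ) : ZMod (2 * N)) * i = 0 := by
          have h2 : ((2 * N : ℕ) : ZMod (2 * N)) = 0 := ZMod.natCast_self _
          push_cast at h2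
          linear_combination i * h2
        rw [this, e_zero]
      have h2 : e (((N : ℕ) : ZMod (2 * N)) * i) = 1 ∨ e (((N : ℕ) : ZMod (2 * N)) * i) = -1 :=
        mul_self_eq_one_iff.1 h1
      simp only [hz0]
      rw [mul_add, e_add]
      rcases h2 with h | h
      · rw [h, one_mul, Complex.one_re]
      · rw [h]
        simp only [Complex.neg_re, Complex.one_re, neg_mul, one_mul]
        ring

/-! ### The case `k = 2`: tetrahedral labelling -/

/-- vertices of a regular tetrahedron -/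
noncomputable def tet : Fin 4 → EuclideanSpace ℝ (Fin 3) :=
  ![!₂[1, 1, 1], !₂[1, -1, -1], !₂[-1, 1, -1], !₂[-1, -1, 1]]

lemma tet_dist (a b : Fin 4) (h : a ≠ b) : dist (tet a) (tet b) = Real.sqrt 8 := by
  rw [EuclideanSpace.dist_eq]
  congr 1
  fin_cases a <;> fin_cases b <;>
    simp [tet, Fin.sum_univ_three, Real.dist_eq] at h ⊢ <;> norm_num

lemma tet_span : affineSpan ℝ (Set.range tet) = ⊤ := by
  rw [AffineSubspace.affineSpan_eq_top_iff_vectorSpan_eq_top_of_nonempty _ _ _ (Set.range_nonempty _)]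
  rw [eq_top_iff]
  intro x _
  have h1 := vsub_mem_vectorSpan ℝ (Set.mem_range_self (f := tet) 1) (Set.mem_range_self (f := tet) 0)
  have h2 := vsub_mem_vectorSpan ℝ (Set.mem_range_self (f := tet) 2) (Set.mem_range_self (f := tet) 0)
  have h3 := vsub_mem_vectorSpan ℝ (Set.mem_range_self (f := tet) 3) (Set.mem_range_self (f := tet) 0)
  have hx : x = ((x 0 - x 1 - x 2) / 4) • (tet 1 -ᵥ tet 0) + ((x 1 - x 0 - x 2) / 4) • (tet 2 -ᵥ tet 0)
      + ((x 2 - x 0 - x 1) / 4) • (tet 3 -ᵥ tet 0) := by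
    ext c
    fin_cases c <;> simp [tet] <;> ring
  rw [hx]
  exact Submodule.add_mem _ (Submodule.add_mem _ (Submodule.smul_mem _ _ h1)
    (Submodule.smul_mem _ _ h2)) (Submodule.smul_mem _ _ h3)

end Pool.Agent.V11167.KEq
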