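import Pool.Agent.V11167.KEqD

/-! The case `k = 2` (for MP_fb0157_co). -/

namespace Pool.Agent.V11167.KEq

def lab (n x : ℕ) : ℕ :=
  if n % 3 = 2 then (if x < 8 then x % 4 else (x + 1) % 3) else (if x = n - 1 then 3 else x % 3)

lemma lab_lt (n x : ℕ) : lab n x < 4 := by
  unfold lab
  split_ifs <;> omega

lemma lab_ne (n x j : ℕ) (hn : 6 ≤ n) (hx : x < n) (hj : 1 ≤ j) (hj2 : j ≤ 2) :
    lab n x ≠ lab n ((x + j) % n) := by
  rcases lt_or_ge (x + j) n with h | h
  · rw [Nat.mod_eq_of_lt h]
    unfold lab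
    split_ifs <;> omega
  · have : (x + j) % n = x + j - n := by
      rw [Nat.mod_eq_sub_mod h, Nat.mod_eq_of_lt (by omega)]
    rw [this]
    unfold lab
    split_ifs <;> omega

theorem two_case (n : ℕ) (hn : 6 ≤ n) :
    ∃ P : ZMod n → EuclideanSpace ℝ (Fin 3),
      (∀ j : ℕ, 1 ≤ j → j ≤ 2 → ∃ c : ℝ, ∀ i : ZMod n,
        dist (P i) (P (i + (j : ZMod n))) = c) ∧
      affineSpan ℝ (Set.range P) = ⊤ := by
  have : NeZero n := ⟨by omega⟩
  refine ⟨fun i => tet ⟨lab n i.val, lab_lt _ _⟩, ?_, ?_⟩
  · intro j hj1 hj2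
    refine ⟨Real.sqrt 8, fun i => ?_⟩
    apply tet_dist
    intro h
    have h1 : lab n i.val = lab n (i + (j : ZMod n)).val := congrArg Fin.val h
    rw [ZMod.val_add, ZMod.val_natCast, Nat.add_mod_mod] at h1
    exact lab_ne n i.val j hn (ZMod.val_lt i) hj1 hj2 h1
  · have h1 : Set.range (fun i : ZMod n => tet ⟨lab n i.val, lab_lt _ _⟩) = Set.range tet := by
      apply Set.Subset.antisymm
      · rintro _ ⟨i, rfl⟩
        exact Set.mem_range_self _
      · rintro _ ⟨c, rfl⟩
        have h2 : ∃ x < n, lab n x = c := by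
          have hc := c.2
          by_cases h3 : n % 3 = 2
          · refine ⟨c, by omega, ?_⟩
            unfold lab
            rw [if_pos h3, if_pos (by omega)]
            omega
          · by_cases hc3 : (c : ℕ) = 3
            · refine ⟨n - 1, by omega, ?_⟩
              unfold lab
              rw [if_neg h3, if_pos rfl, hc3]
            · refine ⟨c, by omega, ?_⟩
              unfold lab
              rw [if_neg h3, if_neg (by omega)]
              omega
        obtain ⟨x, hx, hxc⟩ := h2
        refine ⟨(x : ZMod n), ?_⟩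
        have h4 : (⟨lab n ((x : ZMod n)).val, lab_lt _ _⟩ : Fin 4) = c := by
          apply Fin.ext
          simp only [ZMod.val_natCast, Nat.mod_eq_of_lt hx]
          exact hxc
        exact congrArg tet h4
    rw [h1, tet_span]

end Pool.Agent.V11167.KEq
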