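import Mathlib

/-! Counterexample for four measures (for MP_3c7c52_co). -/

namespace Pool.Agent.V11167.Kano

open MeasureTheory Set

def a : Fin 4 → ℤ := ![0, 2, 4, 6]
def b : Fin 4 → ℤ := ![0, 4, 2, 6]

def Q (i : Fin 4) : Set (ℝ × ℝ) := Ioo (a i : ℝ) (a i + 1) ×ˢ Ioo (b i : ℝ) (b i + 1)

lemma vol_Q (i : Fin 4) : volume (Q i) = 1 := by
  rw [Q, Measure.volume_eq_prod, Measure.prod_prod, Real.volume_Ioo, Real.volume_Ioo]
  simp

lemma Q_preconn (i : Fin 4) : IsPreconnected (Q i) :=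
  isPreconnected_Ioo.prod isPreconnected_Ioo

lemma Q_open (i : Fin 4) : IsOpen (Q i) := isOpen_Ioo.prod isOpen_Ioo

/-- an open set with half of the measure of `Q i` has a frontier point in `Q i` -/
lemma meets (i : Fin 4) (U : Set (ℝ × ℝ)) (hU : IsOpen U)
    (h : (volume.restrict (Q i)) U = (volume.restrict (Q i)) univ / 2) :
    (Q i ∩ frontier U).Nonempty := by
  by_contra hemp
  rw [Measure.restrict_apply_univ, vol_Q, Measure.restrict_apply' (Q_open i).measurableSet] at h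
  have hcov : Q i ⊆ U ∪ (closure U)ᶜ := by
    intro z hz
    by_cases hzU : z ∈ U
    · exact Or.inl hzU
    · right
      intro hcl
      apply hemp
      refine ⟨z, hz, hcl, ?_⟩
      rw [hU.interior_eq]; exact hzU
  have hsub : Q i ⊆ U ∨ Q i ∩ U = ∅ := by
    by_cases hne : (Q i ∩ U).Nonempty
    · left
      intro z hz
      by_contra hzU
      have hz2 : z ∈ (closure U)ᶜ := (hcov hz).resolve_left hzU
      obtain ⟨w, _, hw1, hw2⟩ := Q_preconn i U (closure U)ᶜ hU isClosed_closure.isOpen_compl hcov hne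
        ⟨z, hz, hz2⟩
      exact hw2 (subset_closure hw1)
    · right
      exact not_nonempty_iff_eq_empty.1 hne
  rcases hsub with h1 | h1
  · rw [inter_eq_self_of_subset_right h1, vol_Q] at h
    have h2 : (1 : ENNReal) / 2 < 1 := ENNReal.half_lt_self one_ne_zero ENNReal.one_ne_top
    rw [← h] at h2
    exact lt_irrefl _ h2
  · rw [inter_comm, h1, measure_empty] at h
    have h2 : (0 : ENNReal) < 1 / 2 := ENNReal.half_pos one_ne_zero
    rw [← h] at h2
    exact lt_irrefl _ h2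

/-- pairwise sharing a coordinate implies lying on an axis-parallel line -/
lemma line (f : ℝ → ℝ × ℝ) (L : Set ℝ)
    (h : ∀ x ∈ L, ∀ y ∈ L, (f x).1 = (f y).1 ∨ (f x).2 = (f y).2) :
    (∀ x ∈ L, ∀ y ∈ L, (f x).1 = (f y).1) ∨ (∀ x ∈ L, ∀ y ∈ L, (f x).2 = (f y).2) := by
  by_contra hcon
  push Not at hcon
  obtain ⟨⟨x, hx, y, hy, hxy⟩, ⟨z, hz, w, hw, hzw⟩⟩ := hcon
  have h1 := (h x hx y hy).resolve_left hxy
  -- every point has the same second coordinate as x
  have h2 : ∀ r ∈ L, (f r).2 = (f x).2 := by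
    intro r hr
    by_contra hr2
    have h3 := (h r hr x hx).resolve_right hr2
    have h4 : (f r).2 ≠ (f y).2 := by rw [← h1]; exact hr2
    have h5 := (h r hr y hy).resolve_right h4
    exact hxy (h3.symm.trans h5)
  exact hzw ((h2 z hz).trans (h2 w hw).symm)

lemma between (g : ℝ → ℝ) (hg : Continuous g) (p q c : ℝ) (hpc : p ≤ c) (hcq : c ≤ q)
    (hinj : InjOn g (Icc p q)) :
    (g p ≤ g c ∧ g c ≤ g q) ∨ (g q ≤ g c ∧ g c ≤ g p) := by
  have hpq : p ≤ q := hpc.trans hcq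
  have hp : p ∈ Icc p q := ⟨le_rfl, hpq⟩
  have hq : q ∈ Icc p q := ⟨hpq, le_rfl⟩
  have hc : c ∈ Icc p q := ⟨hpc, hcq⟩
  rcases hg.continuousOn.strictMonoOn_of_injOn_Icc' hpq hinj with h | h
  · left
    exact ⟨h.monotoneOn hp hc hpc, h.monotoneOn hc hq hcq⟩
  · right
    exact ⟨h.antitoneOn hc hq hcq, h.antitoneOn hp hc hpc⟩

lemma finite_check : ∀ p : Fin 4 → Fin 4, Function.Injective p →
    ¬ (((b (p 0) ≤ b (p 1) ∧ b (p 1) ≤ b (p 2)) ∨ (b (p 2) ≤ b (p 1) ∧ b (p 1) ≤ b (p 0))) ∧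
      ((a (p 1) ≤ a (p 2) ∧ a (p 2) ≤ a (p 3)) ∨ (a (p 3) ≤ a (p 2) ∧ a (p 2) ≤ a (p 1)))) ∧
    ¬ (((a (p 0) ≤ a (p 1) ∧ a (p 1) ≤ a (p 2)) ∨ (a (p 2) ≤ a (p 1) ∧ a (p 1) ≤ a (p 0))) ∧
      ((b (p 1) ≤ b (p 2) ∧ b (p 2) ≤ b (p 3)) ∨ (b (p 3) ≤ b (p 2) ∧ b (p 2) ≤ b (p 1)))) := by
  decide +kernel

lemma a_ne : ∀ i j : Fin 4, i ≠ j → a i + 2 ≤ a j ∨ a j + 2 ≤ a i := by decide
lemma b_ne : ∀ i j : Fin 4, i ≠ j → b i + 2 ≤ b j ∨ b j + 2 ≤ b i := by decide

theorem no_path (f : ℝ → ℝ × ℝ) (s : Finset ℝ) (hf : Continuous f) (hinj : Function.Injective f)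
    (hs : s.card ≤ 3)
    (hseg : ∀ x y : ℝ, (∀ z ∈ s, z ∉ Set.Ioo (min x y) (max x y)) →
          (f x).1 = (f y).1 ∨ (f x).2 = (f y).2)
    (U : Set (ℝ × ℝ)) (hU : IsOpen U) (hfr : frontier U = Set.range f)
    (hhalf : ∀ i : Fin 4, (volume.restrict (Q i)) U = (volume.restrict (Q i)) univ / 2) : False := by
  obtain ⟨s', hss', hs'⟩ := Infinite.exists_superset_card_eq s 3 hs
  have hseg' : ∀ x y : ℝ, (∀ z ∈ s', z ∉ Set.Ioo (min x y) (max x y)) →
          (f x).1 = (f y).1 ∨ (f x).2 = (f y).2 := fun x y h => hseg x y fun z hz => h z (hss' hz)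
  set e := s'.orderEmbOfFin hs' with he
  have h01 : e 0 < e 1 := e.strictMono (by decide)
  have h12 : e 1 < e 2 := e.strictMono (by decide)
  have hmem : ∀ z ∈ s', z = e 0 ∨ z = e 1 ∨ z = e 2 := by
    intro z hz
    have : z ∈ Set.range e := by
      rw [he, Finset.range_orderEmbOfFin]; exact hz
    obtain ⟨k, rfl⟩ := this
    fin_cases k
    · exact Or.inl rfl
    · exact Or.inr (Or.inl rfl)
    · exact Or.inr (Or.inr rfl)
  -- closed pieces
  set L : Fin 4 → Set ℝ := ![Iic (e 0), Icc (e 0) (e 1), Icc (e 1) (e 2), Ici (e 2)] with hL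
  have hshare : ∀ k, ∀ x ∈ L k, ∀ y ∈ L k, (f x).1 = (f y).1 ∨ (f x).2 = (f y).2 := by
    intro k x hx y hy
    apply hseg'
    intro z hz hzI
    rw [mem_Ioo, min_lt_iff, lt_max_iff] at hzI
    fin_cases k
    · simp only [hL, Fin.zero_eta, Matrix.cons_val_zero, mem_Iic] at hx hy
      rcases hmem z hz with rfl | rfl | rfl
      · rcases hzI.2 with h | h <;> linarith
      · rcases hzI.2 with h | h <;> linarith
      · rcases hzI.2 with h | h <;> linarith
    · simp only [hL, Fin.mk_one, Matrix.cons_val_one, Matrix.cons_val_zero, mem_Icc] at hx hy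
      rcases hmem z hz with rfl | rfl | rfl
      · rcases hzI.1 with h | h <;> linarith
      · rcases hzI.2 with h | h <;> linarith
      · rcases hzI.2 with h | h <;> linarith
    · change x ∈ Icc (e 1) (e 2) at hx
      change y ∈ Icc (e 1) (e 2) at hy
      rw [mem_Icc] at hx hy
      rcases hmem z hz with rfl | rfl | rfl
      · rcases hzI.1 with h | h <;> linarith
      · rcases hzI.1 with h | h <;> linarith
      · rcases hzI.2 with h | h <;> linarith
    · change x ∈ Ici (e 2) at hx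
      change y ∈ Ici (e 2) at hy
      rw [mem_Ici] at hx hy
      rcases hmem z hz with rfl | rfl | rfl
      · rcases hzI.1 with h | h <;> linarith
      · rcases hzI.1 with h | h <;> linarith
      · rcases hzI.1 with h | h <;> linarith
  have hcover : ∀ t : ℝ, ∃ k, t ∈ L k := by
    intro t
    rcases le_or_gt t (e 0) with h | h
    · exact ⟨0, h⟩
    rcases le_or_gt t (e 1) with h' | h'
    · exact ⟨1, ⟨h.le, h'⟩⟩
    rcases le_or_gt t (e 2) with h'' | h''
    · exact ⟨2, ⟨h'.le, h''⟩⟩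
    · exact ⟨3, h''.le⟩
  choose pc hpc using hcover
  have hex : ∀ i : Fin 4, ∃ t : ℝ, f t ∈ Q i := by
    intro i
    obtain ⟨z, hz, hzf⟩ := meets i U hU (hhalf i)
    rw [hfr] at hzf
    obtain ⟨t, rfl⟩ := hzf
    exact ⟨t, hz⟩
  choose t ht using hex
  have hx : ∀ i, (a i : ℝ) < (f (t i)).1 ∧ (f (t i)).1 < a i + 1 := fun i => (ht i).1
  have hy : ∀ i, (b i : ℝ) < (f (t i)).2 ∧ (f (t i)).2 < b i + 1 := fun i => (ht i).2
  have hxne : ∀ i j, i ≠ j → (f (t i)).1 ≠ (f (t j)).1 := by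
    intro i j hij h
    have h1 := hx i
    have h2 := hx j
    rcases a_ne i j hij with h3 | h3
    · have : (a i : ℝ) + 2 ≤ a j := by exact_mod_cast h3
      linarith
    · have : (a j : ℝ) + 2 ≤ a i := by exact_mod_cast h3
      linarith
  have hyne : ∀ i j, i ≠ j → (f (t i)).2 ≠ (f (t j)).2 := by
    intro i j hij h
    have h1 := hy i
    have h2 := hy j
    rcases b_ne i j hij with h3 | h3
    · have : (b i : ℝ) + 2 ≤ b j := by exact_mod_cast h3
      linarith
    · have : (b j : ℝ) + 2 ≤ b i := by exact_mod_cast h3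
      linarith
  have hinjpc : Function.Injective (fun i => pc (t i)) := by
    intro i j hij
    by_contra hne
    have h1 := hpc (t i)
    have h2 := hpc (t j)
    simp only at hij
    rw [← hij] at h2
    rcases hshare _ _ h1 _ h2 with h | h
    · exact hxne i j hne h
    · exact hyne i j hne h
  have hbij : Function.Bijective (fun i => pc (t i)) :=
    (Fintype.bijective_iff_injective_and_card _).2 ⟨hinjpc, rfl⟩
  set σ := Equiv.ofBijective _ hbij with hσ
  set p : Fin 4 → Fin 4 := fun k => σ.symm k with hp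
  have hpinj : Function.Injective p := σ.symm.injective
  have hpL : ∀ k, t (p k) ∈ L k := by
    intro k
    have h1 : pc (t (p k)) = k := by
      have := σ.apply_symm_apply k
      rw [hσ] at this
      exact this
    have h2 := hpc (t (p k))
    rwa [h1] at h2
  have hlines : ∀ k, (∀ x ∈ L k, ∀ y ∈ L k, (f x).1 = (f y).1) ∨
      (∀ x ∈ L k, ∀ y ∈ L k, (f x).2 = (f y).2) := fun k => line f (L k) (hshare k)
  have hpne : ∀ k l, k ≠ l → p k ≠ p l := fun k l h h' => h (hpinj h')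
  -- membership of the corner points
  have c00 : e 0 ∈ L 0 := show e 0 ∈ Iic (e 0) from mem_Iic.2 (le_refl (e 0))
  have c01 : e 0 ∈ L 1 := ⟨le_rfl, h01.le⟩
  have c11 : e 1 ∈ L 1 := ⟨h01.le, le_rfl⟩
  have c12 : e 1 ∈ L 2 := ⟨le_rfl, h12.le⟩
  have c22 : e 2 ∈ L 2 := ⟨h12.le, le_rfl⟩
  have c23 : e 2 ∈ L 3 := show e 2 ∈ Ici (e 2) from mem_Ici.2 (le_refl (e 2))
  have hcx : Continuous (fun x => (f x).1) := continuous_fst.comp hf
  have hcy : Continuous (fun x => (f x).2) := continuous_snd.comp hf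
  obtain ⟨fc1, fc2⟩ := finite_check p hpinj
  have intA : ∀ i j, (f (t i)).1 ≤ (f (t j)).1 → a i ≤ a j := by
    intro i j h
    have h1 := hx i
    have h2 := hx j
    have : (a i : ℝ) < a j + 1 := by linarith
    have : a i < a j + 1 := by exact_mod_cast this
    omega
  have intB : ∀ i j, (f (t i)).2 ≤ (f (t j)).2 → b i ≤ b j := by
    intro i j h
    have h1 := hy i
    have h2 := hy j
    have : (b i : ℝ) < b j + 1 := by linarith
    have : b i < b j + 1 := by exact_mod_cast this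
    omega
  rcases hlines 0 with v0 | v0
  · -- piece 0 vertical: pieces 1, 2, 3 are horizontal, vertical, horizontal
    have v1 : ∀ x ∈ L 1, ∀ y ∈ L 1, (f x).2 = (f y).2 := by
      refine (hlines 1).resolve_left fun h => ?_
      exact hxne (p 0) (p 1) (hpne _ _ (by decide))
        ((v0 _ (hpL 0) _ c00).trans (h _ c01 _ (hpL 1)))
    have v2 : ∀ x ∈ L 2, ∀ y ∈ L 2, (f x).1 = (f y).1 := by
      refine (hlines 2).resolve_right fun h => ?_
      exact hyne (p 1) (p 2) (hpne _ _ (by decide))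
        ((v1 _ (hpL 1) _ c11).trans (h _ c12 _ (hpL 2)))
    have v3 : ∀ x ∈ L 3, ∀ y ∈ L 3, (f x).2 = (f y).2 := by
      refine (hlines 3).resolve_left fun h => ?_
      exact hxne (p 2) (p 3) (hpne _ _ (by decide))
        ((v2 _ (hpL 2) _ c22).trans (h _ c23 _ (hpL 3)))
    have i1 : InjOn (fun x => (f x).1) (Icc (e 0) (e 1)) := by
      intro x hx y hy h
      exact hinj (Prod.ext h (v1 x hx y hy))
    have i2 : InjOn (fun x => (f x).2) (Icc (e 1) (e 2)) := by
      intro x hx y hy h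
      exact hinj (Prod.ext (v2 x hx y hy) h)
    have b1 := between _ hcx (e 0) (e 1) (t (p 1)) (hpL 1).1 (hpL 1).2 i1
    have b2 := between _ hcy (e 1) (e 2) (t (p 2)) (hpL 2).1 (hpL 2).2 i2
    rw [v0 _ c00 _ (hpL 0), v2 _ c12 _ (hpL 2)] at b1
    rw [v1 _ c11 _ (hpL 1), v3 _ c23 _ (hpL 3)] at b2
    apply fc2
    refine ⟨?_, ?_⟩
    · rcases b1 with h | h
      · exact Or.inl ⟨intA _ _ h.1, intA _ _ h.2⟩
      · exact Or.inr ⟨intA _ _ h.1, intA _ _ h.2⟩
    · rcases b2 with h | h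
      · exact Or.inl ⟨intB _ _ h.1, intB _ _ h.2⟩
      · exact Or.inr ⟨intB _ _ h.1, intB _ _ h.2⟩
  · -- piece 0 horizontal
    have v1 : ∀ x ∈ L 1, ∀ y ∈ L 1, (f x).1 = (f y).1 := by
      refine (hlines 1).resolve_right fun h => ?_
      exact hyne (p 0) (p 1) (hpne _ _ (by decide))
        ((v0 _ (hpL 0) _ c00).trans (h _ c01 _ (hpL 1)))
    have v2 : ∀ x ∈ L 2, ∀ y ∈ L 2, (f x).2 = (f y).2 := by
      refine (hlines 2).resolve_left fun h => ?_
      exact hxne (p 1) (p 2) (hpne _ _ (by decide))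
        ((v1 _ (hpL 1) _ c11).trans (h _ c12 _ (hpL 2)))
    have v3 : ∀ x ∈ L 3, ∀ y ∈ L 3, (f x).1 = (f y).1 := by
      refine (hlines 3).resolve_right fun h => ?_
      exact hyne (p 2) (p 3) (hpne _ _ (by decide))
        ((v2 _ (hpL 2) _ c22).trans (h _ c23 _ (hpL 3)))
    have i1 : InjOn (fun x => (f x).2) (Icc (e 0) (e 1)) := by
      intro x hx y hy h
      exact hinj (Prod.ext (v1 x hx y hy) h)
    have i2 : InjOn (fun x => (f x).1) (Icc (e 1) (e 2)) := by
      intro x hx y hy h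
      exact hinj (Prod.ext h (v2 x hx y hy))
    have b1 := between _ hcy (e 0) (e 1) (t (p 1)) (hpL 1).1 (hpL 1).2 i1
    have b2 := between _ hcx (e 1) (e 2) (t (p 2)) (hpL 2).1 (hpL 2).2 i2
    rw [v0 _ c00 _ (hpL 0), v2 _ c12 _ (hpL 2)] at b1
    rw [v1 _ c11 _ (hpL 1), v3 _ c23 _ (hpL 3)] at b2
    apply fc1
    refine ⟨?_, ?_⟩
    · rcases b1 with h | h
      · exact Or.inl ⟨intB _ _ h.1, intB _ _ h.2⟩
      · exact Or.inr ⟨intB _ _ h.1, intB _ _ h.2⟩
    · rcases b2 with h | h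
      · exact Or.inl ⟨intA _ _ h.1, intA _ _ h.2⟩
      · exact Or.inr ⟨intA _ _ h.1, intA _ _ h.2⟩

end Pool.Agent.V11167.Kano
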