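import Mathlib

/-! Perturbed grid and the combinatorial core (for MP_9c8b61_co). -/

namespace Pool.Agent.V11167.Mono

/-- exponent -/
def ex (K : ℕ) (p : ℕ × ℕ) : ℕ := K * p.1 + p.2

/-- superincreasing heights -/
noncomputable def hh (K : ℕ) (p : ℕ × ℕ) : ℝ :=
  (8 * (K : ℝ) ^ 2) ^ (ex K p) / (16 * (K : ℝ) ^ 2 * (8 * (K : ℝ) ^ 2) ^ (K ^ 2))

def InG (K : ℕ) (p : ℕ × ℕ) : Prop := p.1 < K ∧ p.2 < K

lemma base_ge (K : ℕ) (hK : 1 ≤ K) : (8 : ℝ) ≤ 8 * (K : ℝ) ^ 2 := by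
  have : (1 : ℝ) ≤ K := by exact_mod_cast hK
  nlinarith

lemma hh_pos (K : ℕ) (hK : 1 ≤ K) (p : ℕ × ℕ) : 0 < hh K p := by
  have h1 := base_ge K hK
  have h2 : (0 : ℝ) < K := by exact_mod_cast hK
  unfold hh
  positivity

lemma ex_lt (K : ℕ) (p : ℕ × ℕ) (hp : InG K p) : ex K p < K ^ 2 := by
  obtain ⟨h1, h2⟩ := hp
  unfold ex
  nlinarith

lemma hh_le (K : ℕ) (hK : 1 ≤ K) (p : ℕ × ℕ) (hp : InG K p) : hh K p ≤ 1 / (16 * (K : ℝ) ^ 2) := by
  have h1 := base_ge K hK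
  have h2 : (0 : ℝ) < K := by exact_mod_cast hK
  unfold hh
  rw [div_le_div_iff₀ (by positivity) (by positivity), one_mul]
  have h3 : (8 * (K : ℝ) ^ 2) ^ (ex K p) ≤ (8 * (K : ℝ) ^ 2) ^ (K ^ 2) :=
    pow_le_pow_right₀ (by linarith) (ex_lt K p hp).le
  have h4 : (0 : ℝ) < 16 * (K : ℝ) ^ 2 := by positivity
  nlinarith

lemma hh_mul (K : ℕ) (hK : 1 ≤ K) (p q : ℕ × ℕ) (h : ex K p < ex K q) :
    8 * (K : ℝ) ^ 2 * hh K p ≤ hh K q := by
  have h1 := base_ge K hK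
  have h2 : (0 : ℝ) < K := by exact_mod_cast hK
  unfold hh
  rw [← mul_div_assoc, ← pow_succ']
  apply div_le_div_of_nonneg_right _ (by positivity)
  exact pow_le_pow_right₀ (by linarith) h

/-- projection of the perturbed point onto `u = (u1,u2)` -/
noncomputable def F (K : ℕ) (u1 u2 : ℝ) (p : ℕ × ℕ) : ℝ :=
  ((p.1 : ℝ) + 2 * K * hh K p) * u1 + ((p.2 : ℝ) + hh K p) * u2

/-- line invariant -/
def inv (a b : ℕ) (p : ℕ × ℕ) : ℤ := (b : ℤ) * p.1 - a * p.2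

lemma F_sub (K a b : ℕ) (ha : 0 < a) (u1 u2 : ℝ) (p q : ℕ × ℕ) (h : inv a b p = inv a b q) :
    F K u1 u2 p - F K u1 u2 q = ((p.1 : ℝ) - q.1) * (u1 + b / a * u2)
      + (2 * K * u1 + u2) * (hh K p - hh K q) := by
  have ha' : (a : ℝ) ≠ 0 := by exact_mod_cast ha.ne'
  have h1 : ((inv a b p : ℤ) : ℝ) = ((inv a b q : ℤ) : ℝ) := by rw [h]
  unfold inv at h1
  push_cast at h1
  unfold F
  field_simp
  linear_combination (-u2) * h1

lemma ex_of_fst (K : ℕ) (p q : ℕ × ℕ) (hp : InG K p) (h : p.1 < q.1) : ex K p < ex K q := by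
  obtain ⟨h1, h2⟩ := hp
  unfold ex
  have : K * (p.1 + 1) ≤ K * q.1 := Nat.mul_le_mul_left K h
  nlinarith

lemma LRL_range (K a b : ℕ) (hK : 1 ≤ K) (ha : 0 < a) (u1 u2 : ℝ) (r l1 l2 : ℕ × ℕ)
    (hr : InG K r) (hl1 : InG K l1) (hl2 : InG K l2) (h1 : l1.1 < r.1) (h2 : l2.1 < r.1)
    (hi1 : inv a b r = inv a b l1) (hi2 : inv a b r = inv a b l2)
    (hF1 : F K u1 u2 l1 < F K u1 u2 r) (hF2 : F K u1 u2 r < F K u1 u2 l2) :
    |u1 + b / a * u2| < |2 * K * u1 + u2| * hh K r ∧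
      |2 * K * u1 + u2| * hh K r < 2 * K * |u1 + b / a * u2| := by
  have e1 := F_sub K a b ha u1 u2 r l1 hi1
  have e2 := F_sub K a b ha u1 u2 r l2 hi2
  have q1 := hh_mul K hK l1 r (ex_of_fst K l1 r hl1 h1)
  have q2 := hh_mul K hK l2 r (ex_of_fst K l2 r hl2 h2)
  have p1 := hh_pos K hK l1
  have p2 := hh_pos K hK l2
  have pr := hh_pos K hK r
  have hK' : (1 : ℝ) ≤ K := by exact_mod_cast hK
  have b1 := base_ge K hK
  have s1 : (1 : ℝ) ≤ (r.1 : ℝ) - l1.1 := by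
    have : ((l1.1 : ℝ) + 1) ≤ r.1 := by exact_mod_cast h1
    linarith
  have s2 : (1 : ℝ) ≤ (r.1 : ℝ) - l2.1 := by
    have : ((l2.1 : ℝ) + 1) ≤ r.1 := by exact_mod_cast h2
    linarith
  have t1 : (r.1 : ℝ) - l1.1 ≤ K := by
    have h3 : (r.1 : ℝ) ≤ K := by exact_mod_cast hr.1.le
    have h4 : (0 : ℝ) ≤ l1.1 := Nat.cast_nonneg _
    linarith
  have t2 : (r.1 : ℝ) - l2.1 ≤ K := by
    have h3 : (r.1 : ℝ) ≤ K := by exact_mod_cast hr.1.le
    have h4 : (0 : ℝ) ≤ l2.1 := Nat.cast_nonneg _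
    linarith
  set S1 := (r.1 : ℝ) - l1.1
  set S2 := (r.1 : ℝ) - l2.1
  set α := u1 + b / a * u2
  set β := 2 * K * u1 + u2
  have d1 : hh K r / 2 ≤ hh K r - hh K l1 := by nlinarith
  have d2 : hh K r / 2 ≤ hh K r - hh K l2 := by nlinarith
  have g1 : 0 < S1 * α + β * (hh K r - hh K l1) := by linarith
  have g2 : S2 * α + β * (hh K r - hh K l2) < 0 := by linarith
  rcases le_or_gt 0 α with hα | hα
  · have hβ : β < 0 := by
      by_contra hcon
      push Not at hcon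
      have : 0 ≤ S2 * α := by positivity
      have : 0 ≤ β * (hh K r - hh K l2) := mul_nonneg hcon (by linarith)
      linarith
    rw [abs_of_nonneg hα, abs_of_neg hβ]
    constructor
    · nlinarith
    · nlinarith
  · have hβ : 0 < β := by
      by_contra hcon
      push Not at hcon
      have h5 : S1 * α < 0 := mul_neg_of_pos_of_neg (by linarith) hα
      have h6 : β * (hh K r - hh K l1) ≤ 0 := mul_nonpos_of_nonpos_of_nonneg hcon (by linarith)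
      linarith
    rw [abs_of_neg hα, abs_of_pos hβ]
    constructor
    · nlinarith
    · nlinarith

lemma LRL_unique_aux (K a b : ℕ) (hK : 1 ≤ K) (ha : 0 < a) (u1 u2 : ℝ) (r l1 l2 r' l1' l2' : ℕ × ℕ)
    (hr : InG K r) (hl1 : InG K l1) (hl2 : InG K l2) (h1 : l1.1 < r.1) (h2 : l2.1 < r.1)
    (hi1 : inv a b r = inv a b l1) (hi2 : inv a b r = inv a b l2)
    (hF1 : F K u1 u2 l1 < F K u1 u2 r) (hF2 : F K u1 u2 r < F K u1 u2 l2)
    (hr' : InG K r') (hl1' : InG K l1') (hl2' : InG K l2') (h1' : l1'.1 < r'.1) (h2' : l2'.1 < r'.1)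
    (hi1' : inv a b r' = inv a b l1') (hi2' : inv a b r' = inv a b l2')
    (hF1' : F K u1 u2 l1' < F K u1 u2 r') (hF2' : F K u1 u2 r' < F K u1 u2 l2')
    (hlt : r.1 < r'.1) : False := by
  obtain ⟨A1, A2⟩ := LRL_range K a b hK ha u1 u2 r l1 l2 hr hl1 hl2 h1 h2 hi1 hi2 hF1 hF2
  obtain ⟨B1, B2⟩ := LRL_range K a b hK ha u1 u2 r' l1' l2' hr' hl1' hl2' h1' h2' hi1' hi2' hF1' hF2'
  have q := hh_mul K hK r r' (ex_of_fst K r r' hr hlt)
  have hK' : (1 : ℝ) ≤ K := by exact_mod_cast hK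
  set α := |u1 + b / a * u2|
  set β := |2 * K * u1 + u2|
  have hβ : 0 ≤ β := abs_nonneg _
  have hα : 0 ≤ α := abs_nonneg _
  have e1 : β * (8 * (K : ℝ) ^ 2 * hh K r) ≤ β * hh K r' := mul_le_mul_of_nonneg_left q hβ
  have e2 : 8 * (K : ℝ) ^ 2 * α ≤ 8 * (K : ℝ) ^ 2 * (β * hh K r) :=
    mul_le_mul_of_nonneg_left A1.le (by positivity)
  have e3 : 2 * K * α ≤ 8 * (K : ℝ) ^ 2 * α := by
    apply mul_le_mul_of_nonneg_right _ hα
    nlinarith
  nlinarith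

lemma eq_of_inv (a b : ℕ) (ha : 0 < a) (p q : ℕ × ℕ) (h : inv a b p = inv a b q) (h1 : p.1 = q.1) :
    p = q := by
  unfold inv at h
  rw [h1] at h
  have h2 : (a : ℤ) * p.2 = a * q.2 := by linarith
  have h3 : (p.2 : ℤ) = q.2 := by
    have ha' : (a : ℤ) ≠ 0 := by exact_mod_cast ha.ne'
    exact mul_left_cancel₀ ha' h2
  exact Prod.ext h1 (by exact_mod_cast h3)

lemma LRL_unique (K a b : ℕ) (hK : 1 ≤ K) (ha : 0 < a) (u1 u2 : ℝ) (r l1 l2 r' l1' l2' : ℕ × ℕ)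
    (hr : InG K r) (hl1 : InG K l1) (hl2 : InG K l2) (h1 : l1.1 < r.1) (h2 : l2.1 < r.1)
    (hi1 : inv a b r = inv a b l1) (hi2 : inv a b r = inv a b l2)
    (hF1 : F K u1 u2 l1 < F K u1 u2 r) (hF2 : F K u1 u2 r < F K u1 u2 l2)
    (hr' : InG K r') (hl1' : InG K l1') (hl2' : InG K l2') (h1' : l1'.1 < r'.1) (h2' : l2'.1 < r'.1)
    (hi1' : inv a b r' = inv a b l1') (hi2' : inv a b r' = inv a b l2')
    (hF1' : F K u1 u2 l1' < F K u1 u2 r') (hF2' : F K u1 u2 r' < F K u1 u2 l2')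
    (hi : inv a b r = inv a b r') : r = r' := by
  rcases lt_trichotomy r.1 r'.1 with h | h | h
  · exact (LRL_unique_aux K a b hK ha u1 u2 r l1 l2 r' l1' l2' hr hl1 hl2 h1 h2 hi1 hi2 hF1 hF2
      hr' hl1' hl2' h1' h2' hi1' hi2' hF1' hF2' h).elim
  · exact eq_of_inv a b ha r r' hi h
  · exact (LRL_unique_aux K a b hK ha u1 u2 r' l1' l2' r l1 l2
      hr' hl1' hl2' h1' h2' hi1' hi2' hF1' hF2' hr hl1 hl2 h1 h2 hi1 hi2 hF1 hF2 h).elim

/-- edge `i, i+1` of a path joins the left zone to the right zone along direction `(a,b)` -/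
def Ed (a b m : ℕ) (g : ℕ → ℕ × ℕ) (i : ℕ) : Prop :=
  inv a b (g i) = inv a b (g (i + 1)) ∧
  ((((g i).1 < m ∧ (g i).2 < m) ∧ 2 * m ≤ (g (i + 1)).1) ∨
   (((g (i + 1)).1 < m ∧ (g (i + 1)).2 < m) ∧ 2 * m ≤ (g i).1))

lemma Ed_split {a b m : ℕ} {g : ℕ → ℕ × ℕ} {i : ℕ} (hm : 0 < m) (h : Ed a b m g i) :
    ∃ l r : ℕ, (i ≤ l ∧ l ≤ i + 1) ∧ (i ≤ r ∧ r ≤ i + 1) ∧ l ≠ r ∧ (g l).1 < m ∧ (g l).2 < m ∧
      2 * m ≤ (g r).1 ∧ inv a b (g l) = inv a b (g i) ∧ inv a b (g r) = inv a b (g i) := by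
  obtain ⟨h1, h2 | h2⟩ := h
  · exact ⟨i, i + 1, ⟨le_rfl, by omega⟩, ⟨by omega, le_rfl⟩, by omega, h2.1.1, h2.1.2, h2.2, rfl, h1.symm⟩
  · exact ⟨i + 1, i, ⟨by omega, le_rfl⟩, ⟨le_rfl, by omega⟩, by omega, h2.1.1, h2.1.2, h2.2, h1.symm, rfl⟩

open Classical in
/-- at most four left-right edges of a monotone path on one line -/
lemma line_bound (K a b m t : ℕ) (hK : 1 ≤ K) (ha : 0 < a) (hm : 0 < m) (u1 u2 : ℝ)
    (g : ℕ → ℕ × ℕ)
    (hg : ∀ i < t, InG K (g i)) (hF : ∀ i j, i < j → j < t → F K u1 u2 (g i) < F K u1 u2 (g j))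
    (c : ℤ) :
    ((Finset.range (t - 1)).filter (fun i => Ed a b m g i ∧ inv a b (g i) = c)).card ≤ 4 := by
  set I := (Finset.range (t - 1)).filter (fun i => Ed a b m g i ∧ inv a b (g i) = c) with hI
  by_contra hcon
  push Not at hcon
  have hne : I.Nonempty := by
    rw [← Finset.card_pos]; omega
  set i0 := I.min' hne
  set i1 := I.max' hne
  set J := (I.erase i0).erase i1 with hJ
  have hJcard : 3 ≤ J.card := by
    have h1 : (I.erase i0).card = I.card - 1 := Finset.card_erase_of_mem (Finset.min'_mem _ _)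
    have h2 : (I.erase i0).card - 1 ≤ J.card := Finset.pred_card_le_card_erase
    omega
  have hmid : ∀ i ∈ J, ∃ r, (i ≤ r ∧ r ≤ i + 1) ∧ r < t ∧ inv a b (g r) = c ∧ 2 * m ≤ (g r).1 ∧
      ∃ l1 l2 : ℕ × ℕ, InG K l1 ∧ InG K l2 ∧ l1.1 < (g r).1 ∧ l2.1 < (g r).1 ∧ inv a b (g r) = inv a b l1 ∧
      inv a b (g r) = inv a b l2 ∧ F K u1 u2 l1 < F K u1 u2 (g r) ∧ F K u1 u2 (g r) < F K u1 u2 l2 := by
    intro i hi
    have hi1 : i ≠ i1 := (Finset.mem_erase.1 hi).1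
    have hi0 : i ≠ i0 := (Finset.mem_erase.1 (Finset.mem_erase.1 hi).2).1
    have hiI : i ∈ I := (Finset.mem_erase.1 (Finset.mem_erase.1 hi).2).2
    have hlt0 : i0 < i := lt_of_le_of_ne (Finset.min'_le _ _ hiI) (Ne.symm hi0)
    have hlt1 : i < i1 := lt_of_le_of_ne (Finset.le_max' _ _ hiI) hi1
    have m0 : i0 ∈ I := Finset.min'_mem _ _
    have m1 : i1 ∈ I := Finset.max'_mem _ _
    rw [hI, Finset.mem_filter, Finset.mem_range] at hiI m0 m1
    obtain ⟨l, r, _, hr, _, _, _, hr2, _, hr3⟩ := Ed_split hm hiI.2.1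
    obtain ⟨la, _, hla, _, _, hla1, _, _, hla3, _⟩ := Ed_split hm m0.2.1
    obtain ⟨lb, _, hlb, _, _, hlb1, _, _, hlb3, _⟩ := Ed_split hm m1.2.1
    have hrt : r < t := by omega
    have hlat : la < t := by omega
    have hlbt : lb < t := by omega
    have hne1 : la ≠ r := by
      rintro rfl; omega
    have hne2 : r ≠ lb := by
      rintro rfl; omega
    refine ⟨r, hr, hrt, by rw [hr3, hiI.2.2], hr2, g la, g lb, hg la hlat, hg lb hlbt, by omega,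
      by omega, ?_, ?_, hF la r (by omega) hrt, hF r lb (by omega) hlbt⟩
    · rw [hr3, hla3, hiI.2.2, m0.2.2]
    · rw [hr3, hlb3, hiI.2.2, m1.2.2]
  have hJne : J.Nonempty := by
    rw [← Finset.card_pos]; omega
  have hfar : ∃ i ∈ J, ∃ j ∈ J, i + 2 ≤ j := by
    by_contra hno
    push Not at hno
    have hsub : J ⊆ {J.min' hJne, J.min' hJne + 1} := by
      intro j hj
      have h1 := Finset.min'_le J j hj
      have h2 := hno _ (Finset.min'_mem J hJne) j hj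
      rw [Finset.mem_insert, Finset.mem_singleton]
      omega
    have h3 := Finset.card_le_card hsub
    have h4 : ({J.min' hJne, J.min' hJne + 1} : Finset ℕ).card ≤ 2 := Finset.card_le_two
    omega
  obtain ⟨i, hi, j, hj, hij⟩ := hfar
  obtain ⟨r, hr1, hrt, hrc, hr2, l1, l2, a1, a2, a3, a4, a5, a6, a7, a8⟩ := hmid i hi
  obtain ⟨r', hr1', hrt', hrc', hr2', l1', l2', b1, b2, b3, b4, b5, b6, b7, b8⟩ := hmid j hj
  have heq := LRL_unique K a b hK ha u1 u2 (g r) l1 l2 (g r') l1' l2' (hg r hrt) a1 a2 a3 a4 a5 a6 a7 a8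
    (hg r' hrt') b1 b2 b3 b4 b5 b6 b7 b8 (by rw [hrc, hrc'])
  have hrr : r < r' := by omega
  have := hF r r' hrr hrt'
  rw [heq] at this
  exact lt_irrefl _ this

open Classical in
/-- total number of left-right edges of direction `(a,b)` of a monotone path -/
lemma total_bound (K a b m t : ℕ) (hK : 1 ≤ K) (ha : 0 < a) (hba : b ≤ a) (hm : 0 < m) (u1 u2 : ℝ)
    (g : ℕ → ℕ × ℕ)
    (hg : ∀ i < t, InG K (g i)) (hF : ∀ i j, i < j → j < t → F K u1 u2 (g i) < F K u1 u2 (g j)) :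
    ((Finset.range (t - 1)).filter (fun i => Ed a b m g i)).card ≤ 8 * a * m := by
  have h1 : ((Finset.range (t - 1)).filter (fun i => Ed a b m g i)).card
      ≤ 4 * (Finset.Ioo (-(a * m : ℤ)) (a * m : ℤ)).card := by
    refine Finset.card_le_mul_card_image_of_maps_to (f := fun i => inv a b (g i)) ?_ 4 ?_
    · intro i hi
      rw [Finset.mem_filter, Finset.mem_range] at hi
      obtain ⟨l, r, _, _, _, hl1, hl2, _, hl3, _⟩ := Ed_split hm hi.2
      simp only [← hl3]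
      rw [Finset.mem_Ioo]
      unfold inv
      have ha' : (0 : ℤ) < a := by exact_mod_cast ha
      have hba' : (b : ℤ) ≤ a := by exact_mod_cast hba
      have hb' : (0 : ℤ) ≤ b := by exact_mod_cast Nat.zero_le b
      have hl1' : (((g l).1 : ℕ) : ℤ) < m := by exact_mod_cast hl1
      have hl2' : (((g l).2 : ℕ) : ℤ) < m := by exact_mod_cast hl2
      have hx0 : (0 : ℤ) ≤ ((g l).1 : ℕ) := by exact_mod_cast Nat.zero_le _
      have hy0 : (0 : ℤ) ≤ ((g l).2 : ℕ) := by exact_mod_cast Nat.zero_le _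
      constructor
      · nlinarith [mul_nonneg hb' hx0]
      · nlinarith [mul_nonneg ha'.le hy0, mul_le_mul_of_nonneg_right hba' hx0]
    · intro c _
      refine le_trans (Finset.card_le_card ?_) (line_bound K a b m t hK ha hm u1 u2 g hg hF c)
      intro i hi
      rw [Finset.mem_filter, Finset.mem_filter] at hi
      rw [Finset.mem_filter]
      exact ⟨hi.1.1, hi.1.2, hi.2⟩
  refine h1.trans ?_
  rw [Int.card_Ioo]
  have h2 : ((a * m : ℤ) - (-(a * m : ℤ)) - 1).toNat ≤ 2 * (a * m) := by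
    have : (a * m : ℤ) = ((a * m : ℕ) : ℤ) := by push_cast; ring
    omega
  nlinarith

end Pool.Agent.V11167.Mono
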