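import Pool.Agent.V11167.MonoA

/-! Counting (for MP_9c8b61_co). -/

namespace Pool.Agent.V11167.Mono

lemma beta_bound (K : ℕ) (hK : 1 ≤ K) (u1 u2 : ℝ) (p q : ℕ × ℕ) (hp : InG K p) (hq : InG K q) :
    |(2 * K * u1 + u2) * (hh K p - hh K q)| ≤ (|u1| + |u2|) := by
  have hK' : (1 : ℝ) ≤ K := by exact_mod_cast hK
  have h1 : |2 * K * u1 + u2| ≤ 2 * K * (|u1| + |u2|) := by
    refine (abs_add_le _ _).trans ?_
    rw [abs_mul, abs_of_nonneg (by positivity : (0 : ℝ) ≤ 2 * K)]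
    nlinarith [abs_nonneg u1, abs_nonneg u2]
  have h2 : |hh K p - hh K q| ≤ 1 / (16 * (K : ℝ) ^ 2) := by
    rw [abs_le]
    have := hh_pos K hK p
    have := hh_pos K hK q
    have := hh_le K hK p hp
    have := hh_le K hK q hq
    constructor <;> linarith
  rw [abs_mul]
  calc |2 * K * u1 + u2| * |hh K p - hh K q|
      ≤ (2 * K * (|u1| + |u2|)) * (1 / (16 * (K : ℝ) ^ 2)) := by
        apply mul_le_mul h1 h2 (abs_nonneg _) (by positivity)
    _ = (|u1| + |u2|) * (1 / (8 * K)) := by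
        field_simp; ring
    _ ≤ (|u1| + |u2|) * 1 := by
        apply mul_le_mul_of_nonneg_left _ (by positivity)
        rw [div_le_one (by positivity)]
        linarith
    _ = _ := mul_one _

lemma F_diff_le (K : ℕ) (hK : 1 ≤ K) (u1 u2 : ℝ) (p q : ℕ × ℕ) (hp : InG K p) (hq : InG K q) :
    F K u1 u2 p - F K u1 u2 q ≤ (K + 1) * (|u1| + |u2|) := by
  have h1 : F K u1 u2 p - F K u1 u2 q = ((p.1 : ℝ) - q.1) * u1 + ((p.2 : ℝ) - q.2) * u2
      + (2 * K * u1 + u2) * (hh K p - hh K q) := by unfold F; ring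
  have h2 := (abs_le.1 (beta_bound K hK u1 u2 p q hp hq)).2
  have hb : ∀ x y : ℕ, x < K → y < K → ∀ u : ℝ, ((x : ℝ) - y) * u ≤ K * |u| := by
    intro x y hx hy u
    have h3 : |(x : ℝ) - y| ≤ K := by
      rw [abs_le]
      have h4 : (x : ℝ) ≤ K := by exact_mod_cast hx.le
      have h5 : (y : ℝ) ≤ K := by exact_mod_cast hy.le
      have h6 : (0 : ℝ) ≤ x := Nat.cast_nonneg _
      have h7 : (0 : ℝ) ≤ y := Nat.cast_nonneg _
      constructor <;> linarith
    calc ((x : ℝ) - y) * u ≤ |((x : ℝ) - y) * u| := le_abs_self _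
      _ = |(x : ℝ) - y| * |u| := abs_mul _ _
      _ ≤ K * |u| := mul_le_mul_of_nonneg_right h3 (abs_nonneg _)
  have h3 := hb p.1 q.1 hp.1 hq.1 u1
  have h4 := hb p.2 q.2 hp.2 hq.2 u2
  rw [h1]; nlinarith

open Classical in
lemma far_bound (K a b m t : ℕ) (hK : 1 ≤ K) (ha : 0 < a) (u1 u2 δ : ℝ)
    (hu : 0 < |u1| + |u2|) (hδ : 0 < δ) (hfar : δ * (|u1| + |u2|) ≤ |a * u1 + b * u2|)
    (hmδ : (2 : ℝ) * a ≤ m * δ) (hKm : K + 1 ≤ 5 * m)
    (g : ℕ → ℕ × ℕ)
    (hg : ∀ i < t, InG K (g i)) (hF : ∀ i j, i < j → j < t → F K u1 u2 (g i) < F K u1 u2 (g j)) :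
    ((((Finset.range (t - 1)).filter (fun i => Ed a b m g i)).card : ℕ) : ℝ) ≤ 10 * a / δ := by
  set I := (Finset.range (t - 1)).filter (fun i => Ed a b m g i) with hI
  have ha' : (0 : ℝ) < a := by exact_mod_cast ha
  have hm' : (0 : ℝ) < m := by
    have : 0 < m := by omega
    exact_mod_cast this
  set U := |u1| + |u2| with hU
  have hα : δ / a * U ≤ |u1 + b / a * u2| := by
    have h1 : a * u1 + b * u2 = a * (u1 + b / a * u2) := by field_simp
    rw [h1, abs_mul, abs_of_pos ha'] at hfar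
    rw [div_mul_eq_mul_div, div_le_iff₀ ha']
    linarith
  have hw : ∀ i ∈ I, m * δ / (2 * a) * U ≤ F K u1 u2 (g (i + 1)) - F K u1 u2 (g i) := by
    intro i hi
    rw [hI, Finset.mem_filter, Finset.mem_range] at hi
    have hit : i + 1 < t := by omega
    have hmono := hF i (i + 1) (by omega) hit
    obtain ⟨hinv, hor⟩ := hi.2
    have e1 := F_sub K a b ha u1 u2 (g (i + 1)) (g i) hinv.symm
    have hb := beta_bound K hK u1 u2 (g (i + 1)) (g i) (hg _ hit) (hg _ (by omega))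
    have hx : (m : ℝ) ≤ |((g (i + 1)).1 : ℝ) - (g i).1| := by
      rcases hor with ⟨⟨h1, _⟩, h2⟩ | ⟨⟨h1, _⟩, h2⟩
      · rw [le_abs]; left
        have h1' : ((g i).1 : ℝ) ≤ m := by exact_mod_cast h1.le
        have h2' : (2 * m : ℝ) ≤ (g (i + 1)).1 := by exact_mod_cast h2
        linarith
      · rw [le_abs]; right
        have h1' : ((g (i + 1)).1 : ℝ) ≤ m := by exact_mod_cast h1.le
        have h2' : (2 * m : ℝ) ≤ (g i).1 := by exact_mod_cast h2
        linarith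
    have h3 : m * (δ / a * U) ≤ |(((g (i + 1)).1 : ℝ) - (g i).1) * (u1 + b / a * u2)| := by
      rw [abs_mul]
      exact mul_le_mul hx hα (by positivity) (abs_nonneg _)
    have h4 : |(((g (i + 1)).1 : ℝ) - (g i).1) * (u1 + b / a * u2)| ≤
        (F K u1 u2 (g (i + 1)) - F K u1 u2 (g i)) + U := by
      have h5 : (((g (i + 1)).1 : ℝ) - (g i).1) * (u1 + b / a * u2)
          = (F K u1 u2 (g (i + 1)) - F K u1 u2 (g i))
            - (2 * K * u1 + u2) * (hh K (g (i + 1)) - hh K (g i)) := by rw [e1]; ring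
      rw [h5]
      refine (abs_sub _ _).trans ?_
      rw [abs_of_pos (by linarith : 0 < F K u1 u2 (g (i + 1)) - F K u1 u2 (g i))]
      linarith
    have h6 : U ≤ m * δ / (2 * a) * U := by
      have : 1 ≤ m * δ / (2 * a) := by
        rw [le_div_iff₀ (by positivity)]; linarith
      nlinarith
    have h7 : m * (δ / a * U) = 2 * (m * δ / (2 * a) * U) := by
      field_simp
    linarith
  rcases Nat.eq_zero_or_pos t with ht | ht
  · have : I = ∅ := by rw [hI, ht]; simp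
    rw [this]; simp; positivity
  have hsum : ∑ i ∈ Finset.range (t - 1), (F K u1 u2 (g (i + 1)) - F K u1 u2 (g i))
      = F K u1 u2 (g (t - 1)) - F K u1 u2 (g 0) :=
    Finset.sum_range_sub (fun i => F K u1 u2 (g i)) (t - 1)
  have hle : ∑ i ∈ I, (F K u1 u2 (g (i + 1)) - F K u1 u2 (g i))
      ≤ ∑ i ∈ Finset.range (t - 1), (F K u1 u2 (g (i + 1)) - F K u1 u2 (g i)) := by
    apply Finset.sum_le_sum_of_subset_of_nonneg (Finset.filter_subset _ _)
    intro i hi _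
    rw [Finset.mem_range] at hi
    have := hF i (i + 1) (by omega) (by omega)
    linarith
  have hcard : (I.card : ℝ) * (m * δ / (2 * a) * U)
      ≤ ∑ i ∈ I, (F K u1 u2 (g (i + 1)) - F K u1 u2 (g i)) := by
    rw [← nsmul_eq_mul]
    exact Finset.card_nsmul_le_sum _ _ _ hw
  have hrange := F_diff_le K hK u1 u2 (g (t - 1)) (g 0) (hg _ (by omega)) (hg _ (by omega))
  have htot : (I.card : ℝ) * (m * δ / (2 * a) * U) ≤ (K + 1) * U := by linarith
  have hKm' : (K : ℝ) + 1 ≤ 5 * m := by exact_mod_cast hKm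
  have h8 : (I.card : ℝ) * (m * δ / (2 * a)) ≤ 5 * m := by
    have : (I.card : ℝ) * (m * δ / (2 * a)) * U ≤ (5 * m) * U := by nlinarith
    exact le_of_mul_le_mul_right this hu
  rw [le_div_iff₀ hδ]
  have h9 : (I.card : ℝ) * δ * m ≤ (10 * a) * m := by
    have h10 : (I.card : ℝ) * (m * δ / (2 * a)) * (2 * a) ≤ 5 * m * (2 * a) :=
      mul_le_mul_of_nonneg_right h8 (by positivity)
    have h11 : (I.card : ℝ) * (m * δ / (2 * a)) * (2 * a) = (I.card : ℝ) * δ * m := by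
      field_simp
    linarith
  exact le_of_mul_le_mul_right h9 hm'

/-- near-perpendicular to at most one class -/
lemma near_unique (R a b a' b' : ℕ) (hR : 0 < R) (haR : a ≤ R) (haR' : a' ≤ R) (hb : 2 * b ≤ a)
    (hb' : 2 * b' ≤ a') (hdet : a * b' ≠ a' * b) (u1 u2 : ℝ) (hu : 0 < |u1| + |u2|)
    (h1 : |a * u1 + b * u2| < 1 / (4 * R) * (|u1| + |u2|))
    (h2 : |a' * u1 + b' * u2| < 1 / (4 * R) * (|u1| + |u2|)) : False := by
  have hΔ : (1 : ℝ) ≤ |(a : ℝ) * b' - a' * b| := by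
    have h3 : ((a * b' : ℕ) : ℤ) - ((a' * b : ℕ) : ℤ) ≠ 0 := by
      intro h; apply hdet; omega
    have h4 : (1 : ℤ) ≤ |((a * b' : ℕ) : ℤ) - ((a' * b : ℕ) : ℤ)| := Int.one_le_abs h3
    have h5 : ((1 : ℤ) : ℝ) ≤ ((|((a * b' : ℕ) : ℤ) - ((a' * b : ℕ) : ℤ)| : ℤ) : ℝ) := by
      exact_mod_cast h4
    push_cast at h5
    exact h5
  set U := |u1| + |u2| with hU
  have hR' : (0 : ℝ) < R := by exact_mod_cast hR
  have e1 : |u1| ≤ b' * |a * u1 + b * u2| + b * |a' * u1 + b' * u2| := by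
    have : u1 * ((a : ℝ) * b' - a' * b) = b' * (a * u1 + b * u2) - b * (a' * u1 + b' * u2) := by ring
    have h6 : |u1| * |(a : ℝ) * b' - a' * b| = |b' * (a * u1 + b * u2) - b * (a' * u1 + b' * u2)| := by
      rw [← abs_mul, this]
    have h7 : |b' * (a * u1 + b * u2) - b * (a' * u1 + b' * u2)| ≤
        b' * |a * u1 + b * u2| + b * |a' * u1 + b' * u2| := by
      refine (abs_sub _ _).trans ?_
      rw [abs_mul, abs_mul, Nat.abs_cast, Nat.abs_cast]
    nlinarith [abs_nonneg u1]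
  have e2 : |u2| ≤ a' * |a * u1 + b * u2| + a * |a' * u1 + b' * u2| := by
    have : u2 * ((a : ℝ) * b' - a' * b) = a * (a' * u1 + b' * u2) - a' * (a * u1 + b * u2) := by ring
    have h6 : |u2| * |(a : ℝ) * b' - a' * b| = |a * (a' * u1 + b' * u2) - a' * (a * u1 + b * u2)| := by
      rw [← abs_mul, this]
    have h7 : |a * (a' * u1 + b' * u2) - a' * (a * u1 + b * u2)| ≤
        a * |a' * u1 + b' * u2| + a' * |a * u1 + b * u2| := by
      refine (abs_sub _ _).trans ?_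
      rw [abs_mul, abs_mul, Nat.abs_cast, Nat.abs_cast]
    nlinarith [abs_nonneg u2]
  have ca : (a : ℝ) ≤ R := by exact_mod_cast haR
  have ca' : (a' : ℝ) ≤ R := by exact_mod_cast haR'
  have cb : 2 * (b : ℝ) ≤ a := by exact_mod_cast hb
  have cb' : 2 * (b' : ℝ) ≤ a' := by exact_mod_cast hb'
  have nb : (0 : ℝ) ≤ b := Nat.cast_nonneg _
  have nb' : (0 : ℝ) ≤ b' := Nat.cast_nonneg _
  have na : (0 : ℝ) ≤ a := Nat.cast_nonneg _
  have na' : (0 : ℝ) ≤ a' := Nat.cast_nonneg _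
  set X := |a * u1 + b * u2|
  set Y := |a' * u1 + b' * u2|
  have hX : (b' + a') * X ≤ (3 / 2 * R) * (1 / (4 * R) * U) := by
    apply mul_le_mul _ h1.le (abs_nonneg _) (by positivity)
    linarith
  have hY : (b + a) * Y ≤ (3 / 2 * R) * (1 / (4 * R) * U) := by
    apply mul_le_mul _ h2.le (abs_nonneg _) (by positivity)
    linarith
  have h8 : (3 / 2 * R) * (1 / (4 * R) * U) = 3 / 8 * U := by
    field_simp; ring
  rw [h8] at hX hY
  have : U ≤ 3 / 4 * U := by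
    calc U = |u1| + |u2| := rfl
      _ ≤ (b' * X + b * Y) + (a' * X + a * Y) := add_le_add e1 e2
      _ = (b' + a') * X + (b + a) * Y := by ring
      _ ≤ 3 / 8 * U + 3 / 8 * U := add_le_add hX hY
      _ = 3 / 4 * U := by ring
  linarith

/-- upper endpoint of the pair indexed by `(x, y, j)` -/
def qq (a b m : ℕ) (z : ℕ × ℕ × ℕ) : ℕ × ℕ :=
  (z.1 + ((2 * m - z.1 + (a - 1)) / a + z.2.2) * a, z.2.1 + ((2 * m - z.1 + (a - 1)) / a + z.2.2) * b)

lemma qq_spec (a b m : ℕ) (ha : 0 < a) (hb : 2 * b ≤ a) (x y j : ℕ) (hx : x < m) (hy : y < m)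
    (hj : j < m / a) :
    2 * m ≤ (qq a b m (x, y, j)).1 ∧ (qq a b m (x, y, j)).1 < 3 * m ∧
      (qq a b m (x, y, j)).2 < 3 * m ∧ inv a b (x, y) = inv a b (qq a b m (x, y, j)) := by
  set J0 := (2 * m - x + (a - 1)) / a with hJ0
  have h1 : 2 * m - x ≤ J0 * a := by
    have := Nat.div_add_mod (2 * m - x + (a - 1)) a
    have h2 := Nat.mod_lt (2 * m - x + (a - 1)) ha
    rw [← hJ0] at this
    have e : J0 * a = a * J0 := mul_comm _ _
    omega
  have h2 : J0 * a ≤ 2 * m - x + (a - 1) := Nat.div_mul_le_self _ _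
  have h3 : (j + 1) * a ≤ m := by
    have h4 : (j + 1) * a ≤ m / a * a := Nat.mul_le_mul_right a hj
    exact h4.trans (Nat.div_mul_le_self _ _)
  have h5 : (J0 + j) * a = J0 * a + j * a := by ring
  have h6 : (j + 1) * a = j * a + a := by ring
  have h7 : 2 * ((J0 + j) * b) ≤ (J0 + j) * a := by
    calc 2 * ((J0 + j) * b) = (J0 + j) * (2 * b) := by ring
      _ ≤ (J0 + j) * a := Nat.mul_le_mul_left _ hb
  refine ⟨?_, ?_, ?_, ?_⟩
  · simp only [qq, ← hJ0]; omega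
  · simp only [qq, ← hJ0]; omega
  · simp only [qq, ← hJ0]; omega
  · simp only [qq, inv, ← hJ0]
    push_cast
    ring

open Classical in
/-- every pair of class `d` must be covered -/
lemma class_count {ι : Type} (a b m : ℕ) (ha : 0 < a) (hb : 2 * b ≤ a)
    (S : Finset ι) (t : ι → ℕ) (g : ι → ℕ → ℕ × ℕ)
    (hcov : ∀ p q : ℕ × ℕ, p.1 < 3 * m → p.2 < 3 * m → q.1 < 3 * m → q.2 < 3 * m → p ≠ q →
      ∃ ξ ∈ S, ∃ i < t ξ - 1, (g ξ i = p ∧ g ξ (i + 1) = q) ∨ (g ξ i = q ∧ g ξ (i + 1) = p)) :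
    m * m * (m / a) ≤ ∑ ξ ∈ S, ((Finset.range (t ξ - 1)).filter (fun i => Ed a b m (g ξ) i)).card := by
  set P : Finset (ℕ × ℕ × ℕ) := Finset.range m ×ˢ (Finset.range m ×ˢ Finset.range (m / a)) with hP
  have hPc : P.card = m * m * (m / a) := by
    rw [hP, Finset.card_product, Finset.card_product, Finset.card_range, Finset.card_range]
    ring
  have hch : ∀ z ∈ P, ∃ w : (Σ _ : ι, ℕ), w.1 ∈ S ∧ w.2 < t w.1 - 1 ∧
      ((g w.1 w.2 = (z.1, z.2.1) ∧ g w.1 (w.2 + 1) = qq a b m z) ∨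
       (g w.1 w.2 = qq a b m z ∧ g w.1 (w.2 + 1) = (z.1, z.2.1))) := by
    rintro ⟨x, y, j⟩ hz
    rw [hP, Finset.mem_product, Finset.mem_product, Finset.mem_range, Finset.mem_range,
      Finset.mem_range] at hz
    have hx : x < m := hz.1
    have hy : y < m := hz.2.1
    obtain ⟨h1, h2, h3, h4⟩ := qq_spec a b m ha hb x y j hx hy hz.2.2
    obtain ⟨ξ, hξ, i, hi, h⟩ := hcov (x, y) (qq a b m (x, y, j)) (by simp only; omega)
      (by simp only; omega) h2 h3 (by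
        intro h
        have := congrArg Prod.fst h
        simp only at this
        omega)
    exact ⟨⟨ξ, i⟩, hξ, hi, h⟩
  rcases P.eq_empty_or_nonempty with hPe | ⟨z0, hz0⟩
  · rw [← hPc, hPe]; simp
  have : Nonempty (Σ _ : ι, ℕ) := ⟨(hch z0 hz0).choose⟩
  choose! w hw1 hw2 hw3 using hch
  rw [← hPc, ← Finset.card_sigma]
  refine Finset.card_le_card_of_injOn w ?_ ?_
  · intro z hz
    have hz' : z ∈ P := hz
    have hzm := hz'
    rw [hP, Finset.mem_product, Finset.mem_product, Finset.mem_range, Finset.mem_range,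
      Finset.mem_range] at hzm
    obtain ⟨h1, h2, h3, h4⟩ := qq_spec a b m ha hb z.1 z.2.1 z.2.2 hzm.1 hzm.2.1 hzm.2.2
    rw [Finset.coe_sigma, Set.mem_sigma_iff]
    refine ⟨hw1 z hz', ?_⟩
    rw [Finset.mem_coe, Finset.mem_filter, Finset.mem_range]
    refine ⟨hw2 z hz', ?_⟩
    rcases hw3 z hz' with ⟨e1, e2⟩ | ⟨e1, e2⟩
    · refine ⟨?_, Or.inl ⟨?_, ?_⟩⟩
      · rw [e1, e2]; exact h4
      · rw [e1]; exact ⟨hzm.1, hzm.2.1⟩
      · rw [e2]; exact h1
    · refine ⟨?_, Or.inr ⟨?_, ?_⟩⟩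
      · rw [e1, e2]; exact h4.symm
      · rw [e2]; exact ⟨hzm.1, hzm.2.1⟩
      · rw [e1]; exact h1
  · intro z hz z' hz' heq
    have hzP : z ∈ P := hz
    have hzP' : z' ∈ P := hz'
    have hzm := hzP
    have hzm' := hzP'
    rw [hP, Finset.mem_product, Finset.mem_product, Finset.mem_range, Finset.mem_range,
      Finset.mem_range] at hzm hzm'
    obtain ⟨h1, h2, h3, h4⟩ := qq_spec a b m ha hb z.1 z.2.1 z.2.2 hzm.1 hzm.2.1 hzm.2.2
    obtain ⟨h1', h2', h3', h4'⟩ := qq_spec a b m ha hb z'.1 z'.2.1 z'.2.2 hzm'.1 hzm'.2.1 hzm'.2.2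
    have key : (z.1, z.2.1) = (z'.1, z'.2.1) ∧ qq a b m z = qq a b m z' := by
      rcases hw3 z hzP with ⟨e1, e2⟩ | ⟨e1, e2⟩ <;> rcases hw3 z' hzP' with ⟨e1', e2'⟩ | ⟨e1', e2'⟩
      · rw [← heq] at e1' e2'
        exact ⟨e1.symm.trans e1', e2.symm.trans e2'⟩
      · rw [← heq] at e1' e2'
        exfalso
        have := congrArg Prod.fst (e1.symm.trans e1')
        change z.1 = (qq a b m (z'.1, z'.2.1, z'.2.2)).1 at this
        omega
      · rw [← heq] at e1' e2'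
        exfalso
        have := congrArg Prod.fst (e1.symm.trans e1')
        change (qq a b m (z.1, z.2.1, z.2.2)).1 = z'.1 at this
        omega
      · rw [← heq] at e1' e2'
        exact ⟨e2.symm.trans e2', e1.symm.trans e1'⟩
    obtain ⟨k1, k2⟩ := key
    have k3 : z.1 = z'.1 := (Prod.mk.inj k1).1
    have k4 : z.2.1 = z'.2.1 := (Prod.mk.inj k1).2
    have k5 := congrArg Prod.fst k2
    simp only [qq, k3] at k5
    have k6 : ((2 * m - z'.1 + (a - 1)) / a + z.2.2) * a = ((2 * m - z'.1 + (a - 1)) / a + z'.2.2) * a := by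
      omega
    have k7 := Nat.eq_of_mul_eq_mul_right ha k6
    have k8 : z.2.2 = z'.2.2 := by omega
    exact Prod.ext k3 (Prod.ext k4 k8)

open Classical in
/-- the counting theorem -/
theorem core {ι : Type} (K m R : ℕ) (D : Finset (ℕ × ℕ)) (hR : 0 < R)
    (hD : ∀ d ∈ D, 1 ≤ d.1 ∧ d.1 ≤ R ∧ 2 * d.2 ≤ d.1)
    (hdet : ∀ d ∈ D, ∀ d' ∈ D, d ≠ d' → d.1 * d'.2 ≠ d'.1 * d.2)
    (hm1 : 8 * R ^ 2 ≤ m) (hm2 : 5 * R * D.card ≤ m) (hKm1 : 3 * m ≤ K) (hKm2 : K + 1 ≤ 5 * m)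
    (S : Finset ι) (t : ι → ℕ) (g : ι → ℕ → ℕ × ℕ) (u1 u2 : ι → ℝ)
    (hu : ∀ ξ ∈ S, 0 < |u1 ξ| + |u2 ξ|)
    (hg : ∀ ξ ∈ S, ∀ i < t ξ, InG K (g ξ i))
    (hF : ∀ ξ ∈ S, ∀ i j, i < j → j < t ξ → F K (u1 ξ) (u2 ξ) (g ξ i) < F K (u1 ξ) (u2 ξ) (g ξ j))
    (hcov : ∀ p q : ℕ × ℕ, p.1 < 3 * m → p.2 < 3 * m → q.1 < 3 * m → q.2 < 3 * m → p ≠ q →
      ∃ ξ ∈ S, ∃ i < t ξ - 1, (g ξ i = p ∧ g ξ (i + 1) = q) ∨ (g ξ i = q ∧ g ξ (i + 1) = p)) :
    (m : ℝ) ^ 2 / 32 * ∑ d ∈ D, 1 / (d.1 : ℝ) ^ 2 ≤ S.card := by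
  have hm0 : 0 < m := by nlinarith
  have hK : 1 ≤ K := by omega
  have hR' : (0 : ℝ) < R := by exact_mod_cast hR
  have hR1 : (1 : ℝ) ≤ R := by exact_mod_cast hR
  have hm' : (0 : ℝ) < m := by exact_mod_cast hm0
  set near : ι → ℕ × ℕ → Prop := fun ξ d =>
    |d.1 * u1 ξ + d.2 * u2 ξ| < 1 / (4 * R) * (|u1 ξ| + |u2 ξ|) with hnear
  have hm1' : 8 * (R : ℝ) ^ 2 ≤ m := by exact_mod_cast hm1
  have hcls : ∀ d ∈ D, (m : ℝ) ^ 2 / (16 * (d.1 : ℝ) ^ 2) - 5 * R / m * S.card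
      ≤ ((S.filter (fun ξ => near ξ d)).card : ℝ) := by
    intro d hd
    obtain ⟨hd1, hd2, hd3⟩ := hD d hd
    have ha : (0 : ℝ) < d.1 := by exact_mod_cast hd1
    have ha1 : (1 : ℝ) ≤ d.1 := by exact_mod_cast hd1
    have haR : (d.1 : ℝ) ≤ R := by exact_mod_cast hd2
    have h1 := class_count d.1 d.2 m hd1 hd3 S t g hcov
    have h2 : ((m * m * (m / d.1) : ℕ) : ℝ) ≤ ∑ ξ ∈ S,
        ((((Finset.range (t ξ - 1)).filter (fun i => Ed d.1 d.2 m (g ξ) i)).card : ℕ) : ℝ) := by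
      exact_mod_cast h1
    have h3 : ∀ ξ ∈ S, ((((Finset.range (t ξ - 1)).filter
        (fun i => Ed d.1 d.2 m (g ξ) i)).card : ℕ) : ℝ)
        ≤ (if near ξ d then 8 * (d.1 : ℝ) * m else 0) + 40 * R * d.1 := by
      intro ξ hξ
      by_cases hn : near ξ d
      · rw [if_pos hn]
        have h4 := total_bound K d.1 d.2 m (t ξ) hK hd1 (by omega) hm0 (u1 ξ) (u2 ξ) (g ξ)
          (hg ξ hξ) (hF ξ hξ)
        have h5 : ((((Finset.range (t ξ - 1)).filter
          (fun i => Ed d.1 d.2 m (g ξ) i)).card : ℕ) : ℝ) ≤ 8 * (d.1 : ℝ) * m := by exact_mod_cast h4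
        have : 0 ≤ 40 * (R : ℝ) * d.1 := by positivity
        linarith
      · rw [if_neg hn, zero_add]
        have h4 := far_bound K d.1 d.2 m (t ξ) hK hd1 (u1 ξ) (u2 ξ) (1 / (4 * R)) (hu ξ hξ)
          (by positivity) (not_lt.1 hn) (by
            rw [mul_one_div, le_div_iff₀ (by positivity)]
            nlinarith) hKm2 (g ξ) (hg ξ hξ) (hF ξ hξ)
        refine h4.trans (le_of_eq ?_)
        field_simp
        ring
    have h4 : ∑ ξ ∈ S,
        ((((Finset.range (t ξ - 1)).filter (fun i => Ed d.1 d.2 m (g ξ) i)).card : ℕ) : ℝ)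
        ≤ (S.filter (fun ξ => near ξ d)).card * (8 * (d.1 : ℝ) * m) + S.card * (40 * R * d.1) := by
      refine (Finset.sum_le_sum h3).trans (le_of_eq ?_)
      rw [Finset.sum_add_distrib, ← Finset.sum_filter, Finset.sum_const, Finset.sum_const,
        nsmul_eq_mul, nsmul_eq_mul]
    have h5 : (m : ℝ) / (2 * d.1) ≤ ((m / d.1 : ℕ) : ℝ) := by
      have h6 : (m : ℝ) / d.1 - 1 ≤ ((m / d.1 : ℕ) : ℝ) := by
        have := Nat.lt_floor_add_one ((m : ℝ) / d.1)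
        rw [Nat.floor_div_eq_div] at this
        linarith
      have h7 : (m : ℝ) / (2 * d.1) = (m : ℝ) / d.1 / 2 := by
        field_simp
      have h8 : 2 ≤ (m : ℝ) / d.1 := by
        rw [le_div_iff₀ ha]
        nlinarith
      linarith
    have h6 : (m : ℝ) ^ 3 / (2 * d.1) ≤ (S.filter (fun ξ => near ξ d)).card * (8 * (d.1 : ℝ) * m)
        + S.card * (40 * R * d.1) := by
      refine le_trans ?_ (h2.trans h4)
      push_cast
      have : (m : ℝ) ^ 3 / (2 * d.1) = m * m * ((m : ℝ) / (2 * d.1)) := by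
        field_simp
      rw [this]
      exact mul_le_mul_of_nonneg_left h5 (by positivity)
    have h7 : ((m : ℝ) ^ 2 / (16 * (d.1 : ℝ) ^ 2) - 5 * R / m * S.card) * (8 * (d.1 : ℝ) * m)
        ≤ (S.filter (fun ξ => near ξ d)).card * (8 * (d.1 : ℝ) * m) := by
      have h8 : ((m : ℝ) ^ 2 / (16 * (d.1 : ℝ) ^ 2) - 5 * R / m * S.card) * (8 * (d.1 : ℝ) * m)
          = (m : ℝ) ^ 3 / (2 * d.1) - S.card * (40 * R * d.1) := by
        field_simp
        ring
      rw [h8]; linarith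
    exact le_of_mul_le_mul_right h7 (by positivity)
  have hsumnear : ∑ d ∈ D, ((S.filter (fun ξ => near ξ d)).card : ℝ) ≤ S.card := by
    have h1 : ∑ d ∈ D, (S.filter (fun ξ => near ξ d)).card ≤ S.card := by
      rw [← Finset.card_biUnion]
      · exact Finset.card_le_card (Finset.biUnion_subset.2 fun d _ => Finset.filter_subset _ _)
      · intro d hd d' hd' hne
        rw [Function.onFun, Finset.disjoint_left]
        intro ξ h1 h2
        rw [Finset.mem_filter] at h1 h2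
        obtain ⟨a1, a2, a3⟩ := hD d hd
        obtain ⟨b1, b2, b3⟩ := hD d' hd'
        exact near_unique R d.1 d.2 d'.1 d'.2 hR a2 b2 a3 b3 (hdet d hd d' hd' hne) (u1 ξ) (u2 ξ)
          (hu ξ h1.1) h1.2 h2.2
    exact_mod_cast h1
  have hsum := Finset.sum_le_sum hcls
  rw [Finset.sum_sub_distrib, Finset.sum_const, nsmul_eq_mul] at hsum
  have h9 : ∑ d ∈ D, (m : ℝ) ^ 2 / (16 * (d.1 : ℝ) ^ 2) = (m : ℝ) ^ 2 / 16 * ∑ d ∈ D, 1 / (d.1 : ℝ) ^ 2 := by
    rw [Finset.mul_sum]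
    refine Finset.sum_congr rfl fun d _ => ?_
    by_cases h : (d.1 : ℝ) = 0
    · simp [h]
    · field_simp
  rw [h9] at hsum
  have h10 : (D.card : ℝ) * (5 * R / m * S.card) ≤ S.card := by
    have hm2' : 5 * (R : ℝ) * D.card ≤ m := by exact_mod_cast hm2
    have h11 : (D.card : ℝ) * (5 * R / m * S.card) = (5 * (R : ℝ) * D.card / m) * S.card := by
      field_simp
    rw [h11]
    have h12 : 5 * (R : ℝ) * D.card / m ≤ 1 := by
      rw [div_le_one hm']; exact hm2'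
    have : (0 : ℝ) ≤ S.card := Nat.cast_nonneg _
    nlinarith
  linarith

end Pool.Agent.V11167.Mono
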