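import Mathlib

/-! Definitions used in the statement for MP_9c8b61_co. -/

namespace Pool.Agent.V11167.Mono

/-- the Euclidean plane -/
abbrev E2 := EuclideanSpace ℝ (Fin 2)

/-- general position: no three distinct points of `A` are collinear -/
def GenPos (A : Finset E2) : Prop :=
  ∀ p ∈ A, ∀ q ∈ A, ∀ r ∈ A, p ≠ q → p ≠ r → q ≠ r → ¬ Collinear ℝ ({p, q, r} : Set E2)

/-- `A` is `α`-dense: (largest distance) / (smallest distance) is at most `α √|A|` -/
def Dense (α : ℝ) (A : Finset E2) : Prop :=
  ∀ p ∈ A, ∀ q ∈ A, ∀ r ∈ A, ∀ s ∈ A, r ≠ s → dist p q ≤ α * Real.sqrt (A.card) * dist r s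

/-- a path with vertices in `A` that is monotone in some direction `u ≠ 0` -/
def IsMonoPath (A : Finset E2) (l : List E2) : Prop :=
  (∀ p ∈ l, p ∈ A) ∧ ∃ u : E2, u ≠ 0 ∧ l.IsChain (fun p q => 0 < inner ℝ (q - p) u)

/-- `pq` is an edge of the path `l`: `p` and `q` are consecutive vertices, in either order -/
def HasEdge (l : List E2) (p q : E2) : Prop := [p, q] <:+: l ∨ [q, p] <:+: l

/-- the family `F` consists of monotone paths on `A` and covers all edges of the complete graph -/
def Covers (A : Finset E2) (F : Finset (List E2)) : Prop :=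
  (∀ l ∈ F, IsMonoPath A l) ∧ ∀ p ∈ A, ∀ q ∈ A, p ≠ q → ∃ l ∈ F, HasEdge l p q

/-- minimum size of a covering family of monotone paths -/
noncomputable def mc (A : Finset E2) : ℕ :=
  sInf {m | ∃ F : Finset (List E2), Covers A F ∧ F.card = m}

end Pool.Agent.V11167.Mono
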