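import Pool.Agent.V11167.MonoB
import Pool.Agent.V11167.MonoDefs

/-! Geometry and conclusion (for MP_9c8b61_co). -/

namespace Pool.Agent.V11167.Mono

open Filter

/-- perturbed grid point -/
noncomputable def Pt (K : ℕ) (z : ℕ × ℕ) : E2 := !₂[(z.1 : ℝ) + 2 * K * hh K z, (z.2 : ℝ) + hh K z]

lemma Pt0 (K : ℕ) (z : ℕ × ℕ) : Pt K z 0 = (z.1 : ℝ) + 2 * K * hh K z := rfl
lemma Pt1 (K : ℕ) (z : ℕ × ℕ) : Pt K z 1 = (z.2 : ℝ) + hh K z := rfl

lemma inner_Pt (K : ℕ) (z w : ℕ × ℕ) (u : E2) :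
    inner ℝ (Pt K w - Pt K z) u = F K (u 0) (u 1) w - F K (u 0) (u 1) z := by
  simp only [PiLp.inner_apply, Fin.sum_univ_two, PiLp.sub_apply, Pt0, Pt1, RCLike.inner_apply,
    conj_trivial, F]
  ring

lemma dist_Pt (K : ℕ) (z w : ℕ × ℕ) :
    dist (Pt K z) (Pt K w) = Real.sqrt (((z.1 : ℝ) + 2 * K * hh K z - (w.1 + 2 * K * hh K w)) ^ 2
      + ((z.2 : ℝ) + hh K z - (w.2 + hh K w)) ^ 2) := by
  rw [EuclideanSpace.dist_eq, Fin.sum_univ_two, Pt0, Pt1, Pt0, Pt1, Real.dist_eq, Real.dist_eq,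
    sq_abs, sq_abs]

lemma small (K : ℕ) (hK : 1 ≤ K) (z w : ℕ × ℕ) (hz : InG K z) (hw : InG K w) :
    |2 * K * hh K z - 2 * K * hh K w| ≤ 1 / 8 ∧ |hh K z - hh K w| ≤ 1 / 8 := by
  have hK' : (1 : ℝ) ≤ K := by exact_mod_cast hK
  have h1 := hh_pos K hK z
  have h2 := hh_pos K hK w
  have h3 := hh_le K hK z hz
  have h4 := hh_le K hK w hw
  have h5 : 2 * K * (1 / (16 * (K : ℝ) ^ 2)) ≤ 1 / 8 := by
    have : 2 * K * (1 / (16 * (K : ℝ) ^ 2)) = 1 / (8 * K) := by field_simp; norm_num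
    rw [this]
    apply one_div_le_one_div_of_le (by norm_num)
    linarith
  have h6 : 1 / (16 * (K : ℝ) ^ 2) ≤ 1 / 8 := by
    apply one_div_le_one_div_of_le (by norm_num)
    nlinarith
  have h7 : 2 * K * hh K z ≤ 1 / 8 := by
    refine le_trans ?_ h5
    exact mul_le_mul_of_nonneg_left h3 (by positivity)
  have h8 : 2 * K * hh K w ≤ 1 / 8 := by
    refine le_trans ?_ h5
    exact mul_le_mul_of_nonneg_left h4 (by positivity)
  have h9 : 0 < 2 * K * hh K z := by positivity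
  have h10 : 0 < 2 * K * hh K w := by positivity
  constructor
  · rw [abs_le]; constructor <;> linarith
  · rw [abs_le]; constructor <;> linarith

lemma dist_ge (K : ℕ) (hK : 1 ≤ K) (z w : ℕ × ℕ) (hz : InG K z) (hw : InG K w) (hne : z ≠ w) :
    1 / 2 ≤ dist (Pt K z) (Pt K w) := by
  obtain ⟨h1, h2⟩ := small K hK z w hz hw
  rw [abs_le] at h1 h2
  rw [dist_Pt]
  apply Real.le_sqrt_of_sq_le
  have hcase : z.1 ≠ w.1 ∨ z.2 ≠ w.2 := by
    by_contra hcon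
    push Not at hcon
    exact hne (Prod.ext hcon.1 hcon.2)
  have hint : ∀ x y : ℕ, x ≠ y → ∀ e : ℝ, -(1 / 8) ≤ e → e ≤ 1 / 8 →
      (1 / 2 : ℝ) ^ 2 ≤ ((x : ℝ) - y + e) ^ 2 := by
    intro x y hxy e he1 he2
    rcases lt_or_gt_of_ne hxy with h | h
    · have : (x : ℝ) + 1 ≤ y := by exact_mod_cast h
      nlinarith
    · have : (y : ℝ) + 1 ≤ x := by exact_mod_cast h
      nlinarith
  rcases hcase with h | h
  · have := hint z.1 w.1 h (2 * K * hh K z - 2 * K * hh K w) h1.1 h1.2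
    have h3 : ((z.1 : ℝ) + 2 * K * hh K z - (w.1 + 2 * K * hh K w))
        = ((z.1 : ℝ) - w.1 + (2 * K * hh K z - 2 * K * hh K w)) := by ring
    rw [h3]
    nlinarith [sq_nonneg ((z.2 : ℝ) + hh K z - (w.2 + hh K w))]
  · have := hint z.2 w.2 h (hh K z - hh K w) h2.1 h2.2
    have h3 : ((z.2 : ℝ) + hh K z - (w.2 + hh K w))
        = ((z.2 : ℝ) - w.2 + (hh K z - hh K w)) := by ring
    rw [h3]
    nlinarith [sq_nonneg ((z.1 : ℝ) + 2 * K * hh K z - (w.1 + 2 * K * hh K w))]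

lemma dist_le (K : ℕ) (hK : 1 ≤ K) (z w : ℕ × ℕ) (hz : InG K z) (hw : InG K w) :
    dist (Pt K z) (Pt K w) ≤ 2 * (K + 1) := by
  obtain ⟨h1, h2⟩ := small K hK z w hz hw
  rw [abs_le] at h1 h2
  rw [dist_Pt]
  apply Real.sqrt_le_iff.2
  refine ⟨by positivity, ?_⟩
  have hint : ∀ x y : ℕ, x < K → y < K → ∀ e : ℝ, -(1 / 8) ≤ e → e ≤ 1 / 8 →
      ((x : ℝ) - y + e) ^ 2 ≤ (K + 1) ^ 2 := by
    intro x y hx hy e he1 he2
    have h4 : (x : ℝ) ≤ K := by exact_mod_cast hx.le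
    have h5 : (y : ℝ) ≤ K := by exact_mod_cast hy.le
    have h6 : (0 : ℝ) ≤ x := Nat.cast_nonneg _
    have h7 : (0 : ℝ) ≤ y := Nat.cast_nonneg _
    apply sq_le_sq'
    · linarith
    · linarith
  have e1 := hint z.1 w.1 hz.1 hw.1 (2 * K * hh K z - 2 * K * hh K w) h1.1 h1.2
  have e2 := hint z.2 w.2 hz.2 hw.2 (hh K z - hh K w) h2.1 h2.2
  have h3 : ((z.1 : ℝ) + 2 * K * hh K z - (w.1 + 2 * K * hh K w))
      = ((z.1 : ℝ) - w.1 + (2 * K * hh K z - 2 * K * hh K w)) := by ring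
  have h3' : ((z.2 : ℝ) + hh K z - (w.2 + hh K w))
      = ((z.2 : ℝ) - w.2 + (hh K z - hh K w)) := by ring
  rw [h3, h3']
  nlinarith

lemma Pt_inj (K : ℕ) (hK : 1 ≤ K) (z w : ℕ × ℕ) (hz : InG K z) (hw : InG K w)
    (h : Pt K z = Pt K w) : z = w := by
  by_contra hne
  have := dist_ge K hK z w hz hw hne
  rw [h, dist_self] at this
  norm_num at this

lemma ex_ne (K : ℕ) (z w : ℕ × ℕ) (hz : InG K z) (hw : InG K w) (hne : z ≠ w) :
    ex K z ≠ ex K w := by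
  intro h
  rcases lt_trichotomy z.1 w.1 with h1 | h1 | h1
  · exact absurd h (ex_of_fst K z w hz h1).ne
  · unfold ex at h
    rw [h1] at h
    exact hne (Prod.ext h1 (by omega))
  · exact absurd h (ex_of_fst K w z hw h1).ne'

lemma B_ne (K x1 y1 x2 y2 : ℕ) (hx1 : x1 < K) (hx2 : x2 < K)
    (hB : 2 * (K : ℤ) * ((y2 : ℤ) - y1) - ((x2 : ℤ) - x1) = 0) : x1 = x2 ∧ y1 = y2 := by
  have hK : (0 : ℤ) < K := by omega
  have h1 : (x1 : ℤ) < K := by exact_mod_cast hx1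
  have h2 : (x2 : ℤ) < K := by exact_mod_cast hx2
  have h3 : (0 : ℤ) ≤ x1 := by positivity
  have h4 : (0 : ℤ) ≤ x2 := by positivity
  have hyy : (y2 : ℤ) = y1 := by
    rcases lt_trichotomy (y2 : ℤ) y1 with h | h | h
    · have := mul_le_mul_of_nonneg_left (by omega : (y2 : ℤ) - y1 ≤ -1) (by omega : (0 : ℤ) ≤ 2 * K)
      linarith
    · exact h
    · have := mul_le_mul_of_nonneg_left (by omega : 1 ≤ (y2 : ℤ) - y1) (by omega : (0 : ℤ) ≤ 2 * K)
      linarith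
  rw [hyy] at hB
  constructor
  · have : (x2 : ℤ) = x1 := by linarith
    omega
  · omega

lemma not_collinear_aux (K : ℕ) (hK : 1 ≤ K) (z1 z2 z3 : ℕ × ℕ) (hz1 : InG K z1) (hz2 : InG K z2)
    (hz3 : InG K z3) (h12 : ex K z1 < ex K z2) (h23 : ex K z2 < ex K z3) :
    ¬ Collinear ℝ ({Pt K z1, Pt K z2, Pt K z3} : Set E2) := by
  intro hcol
  rw [collinear_iff_of_mem (p₀ := Pt K z1) (by simp)] at hcol
  obtain ⟨v, hv⟩ := hcol
  obtain ⟨r2, hr2⟩ := hv (Pt K z2) (by simp)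
  obtain ⟨r3, hr3⟩ := hv (Pt K z3) (by simp)
  have a0 := congrArg (fun p : E2 => p 0) hr2
  have a1 := congrArg (fun p : E2 => p 1) hr2
  have b0 := congrArg (fun p : E2 => p 0) hr3
  have b1 := congrArg (fun p : E2 => p 1) hr3
  simp only [vadd_eq_add, PiLp.add_apply, PiLp.smul_apply, smul_eq_mul, Pt0, Pt1] at a0 a1 b0 b1
  have p1 := hh_pos K hK z1
  have p2 := hh_pos K hK z2
  have p3 := hh_pos K hK z3
  have m12 := hh_mul K hK z1 z2 h12
  have m23 := hh_mul K hK z2 z3 h23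
  have l3 := hh_le K hK z3 hz3
  have hK' : (1 : ℝ) ≤ K := by exact_mod_cast hK
  have hb := base_ge K hK
  set k := (K : ℝ) with hk
  set e1 := hh K z1
  set e2 := hh K z2
  set e3 := hh K z3
  obtain ⟨x1, y1⟩ := z1
  obtain ⟨x2, y2⟩ := z2
  obtain ⟨x3, y3⟩ := z3
  simp only at a0 a1 b0 b1
  -- integer parts
  set D : ℤ := ((x2 : ℤ) - x1) * ((y3 : ℤ) - y1) - ((x3 : ℤ) - x1) * ((y2 : ℤ) - y1) with hD
  set A : ℤ := 2 * (K : ℤ) * ((y3 : ℤ) - y1) - ((x3 : ℤ) - x1) with hA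
  set B : ℤ := 2 * (K : ℤ) * ((y2 : ℤ) - y1) - ((x2 : ℤ) - x1) with hB
  have hdet : (D : ℝ) + (e2 - e1) * A - (e3 - e1) * B = 0 := by
    have c0 : (x2 : ℝ) + 2 * k * e2 - (x1 + 2 * k * e1) = r2 * v 0 := by linarith
    have c1 : (y2 : ℝ) + e2 - (y1 + e1) = r2 * v 1 := by linarith
    have d0 : (x3 : ℝ) + 2 * k * e3 - (x1 + 2 * k * e1) = r3 * v 0 := by linarith
    have d1 : (y3 : ℝ) + e3 - (y1 + e1) = r3 * v 1 := by linarith
    have hz : ((x2 : ℝ) + 2 * k * e2 - (x1 + 2 * k * e1)) * ((y3 : ℝ) + e3 - (y1 + e1))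
        - ((x3 : ℝ) + 2 * k * e3 - (x1 + 2 * k * e1)) * ((y2 : ℝ) + e2 - (y1 + e1)) = 0 := by
      rw [c0, c1, d0, d1]; ring
    rw [hD, hA, hB]
    push_cast
    rw [← hk]
    linear_combination hz
  have hx1 := hz1.1
  have hy1 := hz1.2
  have hx2 := hz2.1
  have hy2 := hz2.2
  have hx3 := hz3.1
  have hy3 := hz3.2
  simp only at hx1 hy1 hx2 hy2 hx3 hy3
  have habs : ∀ x y : ℕ, x < K → y < K → |((x : ℤ) : ℝ) - ((y : ℤ) : ℝ)| ≤ k := by
    intro x y hx hy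
    have h4 : (x : ℝ) ≤ K := by exact_mod_cast hx.le
    have h5 : (y : ℝ) ≤ K := by exact_mod_cast hy.le
    have h6 : (0 : ℝ) ≤ x := Nat.cast_nonneg _
    have h7 : (0 : ℝ) ≤ y := Nat.cast_nonneg _
    push_cast
    rw [abs_le]; constructor <;> linarith
  have hAabs : |(A : ℝ)| ≤ 3 * k ^ 2 := by
    rw [hA]
    push_cast
    have q1 := abs_le.1 (habs y3 y1 hy3 hy1)
    have q2 := abs_le.1 (habs x3 x1 hx3 hx1)
    push_cast at q1 q2
    rw [← hk, abs_le]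
    have w1 := mul_le_mul_of_nonneg_left q1.1 (by positivity : (0 : ℝ) ≤ 2 * k)
    have w2 := mul_le_mul_of_nonneg_left q1.2 (by positivity : (0 : ℝ) ≤ 2 * k)
    have w3 : k ≤ k ^ 2 := by nlinarith
    constructor <;> linarith
  have hBabs : |(B : ℝ)| ≤ 3 * k ^ 2 := by
    rw [hB]
    push_cast
    have q1 := abs_le.1 (habs y2 y1 hy2 hy1)
    have q2 := abs_le.1 (habs x2 x1 hx2 hx1)
    push_cast at q1 q2
    rw [← hk, abs_le]
    have w1 := mul_le_mul_of_nonneg_left q1.1 (by positivity : (0 : ℝ) ≤ 2 * k)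
    have w2 := mul_le_mul_of_nonneg_left q1.2 (by positivity : (0 : ℝ) ≤ 2 * k)
    have w3 : k ≤ k ^ 2 := by nlinarith
    constructor <;> linarith
  have f1 := mul_le_mul_of_nonneg_right hb p1.le
  have f2 := mul_le_mul_of_nonneg_right hb p2.le
  have e12 : e1 < e2 := by linarith
  have e23 : e2 < e3 := by linarith
  by_cases hD0 : D = 0
  · -- B ≠ 0
    have hB0 : B ≠ 0 := by
      intro hB0
      rw [hB] at hB0
      obtain ⟨hxx, hyy⟩ := B_ne K x1 y1 x2 y2 hx1 hx2 hB0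
      rw [hyy, hxx] at h12
      exact lt_irrefl _ h12
    have hB1 : (1 : ℝ) ≤ |(B : ℝ)| := by
      have := Int.one_le_abs hB0
      exact_mod_cast this
    rw [hD0] at hdet
    push_cast at hdet
    have h1 : (e3 - e1) * B = (e2 - e1) * A := by linarith
    have h2 : (e3 - e1) * |(B : ℝ)| = (e2 - e1) * |(A : ℝ)| := by
      have := congrArg abs h1
      rwa [abs_mul, abs_mul, abs_of_pos (by linarith : 0 < e3 - e1),
        abs_of_pos (by linarith : 0 < e2 - e1)] at this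
    have h3 : (e3 - e1) ≤ (e3 - e1) * |(B : ℝ)| := by
      have := mul_le_mul_of_nonneg_left hB1 (by linarith : 0 ≤ e3 - e1)
      linarith
    have h4 : (e2 - e1) * |(A : ℝ)| ≤ e2 * (3 * k ^ 2) := by
      apply mul_le_mul (by linarith) hAabs (abs_nonneg _) p2.le
    have h5 : e2 * (3 * k ^ 2) ≤ 3 / 8 * e3 := by linarith
    linarith
  · have hD1 : (1 : ℝ) ≤ |(D : ℝ)| := by
      have := Int.one_le_abs hD0
      exact_mod_cast this
    have h1 : (D : ℝ) = (e3 - e1) * B - (e2 - e1) * A := by linarith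
    have h2 : |(D : ℝ)| ≤ (e3 - e1) * |(B : ℝ)| + (e2 - e1) * |(A : ℝ)| := by
      rw [h1]
      refine (abs_sub _ _).trans ?_
      rw [abs_mul, abs_mul, abs_of_pos (by linarith : 0 < e3 - e1),
        abs_of_pos (by linarith : 0 < e2 - e1)]
    have h3 : (e3 - e1) * |(B : ℝ)| ≤ e3 * (3 * k ^ 2) := by
      apply mul_le_mul (by linarith) hBabs (abs_nonneg _) p3.le
    have h4 : (e2 - e1) * |(A : ℝ)| ≤ e3 * (3 * k ^ 2) := by
      apply mul_le_mul (by linarith) hAabs (abs_nonneg _) p3.le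
    have h5 : e3 * (3 * k ^ 2) ≤ 3 / 16 := by
      have : e3 * (3 * k ^ 2) ≤ (1 / (16 * k ^ 2)) * (3 * k ^ 2) :=
        mul_le_mul_of_nonneg_right l3 (by positivity)
      refine this.trans (le_of_eq ?_)
      field_simp
    linarith

lemma not_collinear (K : ℕ) (hK : 1 ≤ K) (z1 z2 z3 : ℕ × ℕ) (hz1 : InG K z1) (hz2 : InG K z2)
    (hz3 : InG K z3) (h12 : z1 ≠ z2) (h13 : z1 ≠ z3) (h23 : z2 ≠ z3) :
    ¬ Collinear ℝ ({Pt K z1, Pt K z2, Pt K z3} : Set E2) := by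
  have n12 := ex_ne K z1 z2 hz1 hz2 h12
  have n13 := ex_ne K z1 z3 hz1 hz3 h13
  have n23 := ex_ne K z2 z3 hz2 hz3 h23
  rcases lt_or_gt_of_ne n12 with a | a <;> rcases lt_or_gt_of_ne n13 with b | b <;>
    rcases lt_or_gt_of_ne n23 with c | c
  · exact not_collinear_aux K hK z1 z2 z3 hz1 hz2 hz3 a c
  · have := not_collinear_aux K hK z1 z3 z2 hz1 hz3 hz2 b c
    rwa [Set.pair_comm (Pt K z3) (Pt K z2)] at this
  · omega
  · have := not_collinear_aux K hK z3 z1 z2 hz3 hz1 hz2 b a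
    rwa [Set.insert_comm, Set.pair_comm (Pt K z3) (Pt K z2)] at this
  · have := not_collinear_aux K hK z2 z1 z3 hz2 hz1 hz3 a b
    rwa [Set.insert_comm] at this
  · omega
  · have := not_collinear_aux K hK z2 z3 z1 hz2 hz3 hz1 c b
    rw [Set.pair_comm (Pt K z3) (Pt K z1), Set.insert_comm] at this
    exact this
  · have := not_collinear_aux K hK z3 z2 z1 hz3 hz2 hz1 c a
    rw [Set.pair_comm (Pt K z2) (Pt K z1), Set.insert_comm, Set.pair_comm (Pt K z3) (Pt K z2)] at this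
    exact this

/-! ### divergence -/

/-- the classes up to `R` -/
def DD (R : ℕ) : Finset (ℕ × ℕ) :=
  (Finset.range R ×ˢ Finset.range R).filter (fun d => d.1.Prime ∧ 1 ≤ d.2 ∧ 2 * d.2 ≤ d.1)

lemma DD_det (R : ℕ) : ∀ d ∈ DD R, ∀ d' ∈ DD R, d ≠ d' → d.1 * d'.2 ≠ d'.1 * d.2 := by
  intro d hd d' hd' hne h
  rw [DD, Finset.mem_filter] at hd hd'
  obtain ⟨_, p1, b1, c1⟩ := hd
  obtain ⟨_, p2, b2, c2⟩ := hd'
  have h1 : d.1 ∣ d'.1 * d.2 := ⟨d'.2, h.symm⟩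
  rcases (Nat.Prime.dvd_mul p1).1 h1 with h2 | h2
  · have h3 : d.1 = d'.1 := (Nat.prime_dvd_prime_iff_eq p1 p2).1 h2
    rw [h3] at h
    have h4 : d'.2 = d.2 := Nat.eq_of_mul_eq_mul_left p2.pos h
    exact hne (Prod.ext h3 h4.symm)
  · have := Nat.le_of_dvd (by omega) h2
    have := p1.pos
    omega

lemma DD_sum (R : ℕ) : ∑ p ∈ Finset.range R, Set.indicator {p : ℕ | p.Prime} (fun n : ℕ => (1 : ℝ) / n) p
    ≤ 4 * ∑ d ∈ DD R, 1 / (d.1 : ℝ) ^ 2 := by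
  rw [DD, Finset.sum_filter, Finset.sum_product, Finset.mul_sum]
  refine Finset.sum_le_sum fun p hp => ?_
  rw [Finset.mem_range] at hp
  by_cases hpr : p.Prime
  · rw [Set.indicator_of_mem (by exact hpr)]
    have h1 : ∀ b : ℕ, (if Nat.Prime p ∧ 1 ≤ b ∧ 2 * b ≤ p then (1 : ℝ) / (p : ℝ) ^ 2 else 0)
        = if b ∈ Finset.Icc 1 (p / 2) then (1 : ℝ) / (p : ℝ) ^ 2 else 0 := by
      intro b
      congr 1
      rw [Finset.mem_Icc, eq_iff_iff]
      constructor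
      · rintro ⟨_, h2, h3⟩; omega
      · rintro ⟨h2, h3⟩; exact ⟨hpr, h2, by omega⟩
    simp only [h1]
    rw [Finset.sum_ite_mem, Finset.inter_eq_right.2, Finset.sum_const, Nat.card_Icc, nsmul_eq_mul]
    · have h2 : (2 : ℝ) ≤ p := by exact_mod_cast hpr.two_le
      have h3 : (p : ℝ) / 4 ≤ ((p / 2 + 1 - 1 : ℕ) : ℝ) := by
        have h4 : p ≤ 4 * (p / 2 + 1 - 1) := by
          have := hpr.two_le; omega
        have h5 : (p : ℝ) ≤ 4 * ((p / 2 + 1 - 1 : ℕ) : ℝ) := by exact_mod_cast h4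
        linarith
      have h6 : (1 : ℝ) / p = 4 * ((p : ℝ) / 4 * (1 / (p : ℝ) ^ 2)) := by
        field_simp
      rw [h6]
      apply mul_le_mul_of_nonneg_left _ (by norm_num)
      exact mul_le_mul_of_nonneg_right h3 (by positivity)
    · intro b hb
      rw [Finset.mem_Icc] at hb
      rw [Finset.mem_range]; omega
  · rw [Set.indicator_of_notMem (by exact hpr)]
    apply mul_nonneg (by norm_num)
    apply Finset.sum_nonneg
    intro b _
    split_ifs <;> positivity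

lemma DD_unbounded (C : ℝ) : ∃ R : ℕ, 0 < R ∧ C ≤ ∑ d ∈ DD R, 1 / (d.1 : ℝ) ^ 2 := by
  have h1 := (not_summable_iff_tendsto_nat_atTop_of_nonneg (f := Set.indicator {p : ℕ | p.Prime}
    (fun n : ℕ => (1 : ℝ) / n)) (by
      intro n
      apply Set.indicator_nonneg
      intro x _
      positivity)).1 not_summable_one_div_on_primes
  obtain ⟨R, hR, hR0⟩ := ((h1.eventually_ge_atTop (4 * C)).and (eventually_gt_atTop 0)).exists
  refine ⟨R, hR0, ?_⟩
  have := DD_sum R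
  linarith

/-! ### lists -/

lemma exists_cover (A : Finset E2) : ∃ F : Finset (List E2), Covers A F := by
  classical
  refine ⟨A.offDiag.image (fun z => [z.1, z.2]), ?_, ?_⟩
  · intro l hl
    rw [Finset.mem_image] at hl
    obtain ⟨⟨p, q⟩, hz, rfl⟩ := hl
    rw [Finset.mem_offDiag] at hz
    refine ⟨?_, q - p, sub_ne_zero.2 hz.2.2.symm, ?_⟩
    · intro r hr
      simp only [List.mem_cons, List.not_mem_nil, or_false] at hr
      rcases hr with rfl | rfl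
      · exact hz.1
      · exact hz.2.1
    · simp only [List.isChain_cons_cons, List.isChain_singleton, and_true]
      exact real_inner_self_pos.2 (sub_ne_zero.2 hz.2.2.symm)
  · intro p hp q hq hne
    refine ⟨[p, q], ?_, Or.inl (List.infix_refl _)⟩
    rw [Finset.mem_image]
    exact ⟨(p, q), Finset.mem_offDiag.2 ⟨hp, hq, hne⟩, rfl⟩

lemma infix_getD {l : List E2} {p q : E2} (h : [p, q] <:+: l) :
    ∃ i < l.length - 1, l.getD i 0 = p ∧ l.getD (i + 1) 0 = q := by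
  obtain ⟨s, t, rfl⟩ := h
  refine ⟨s.length, ?_, ?_, ?_⟩
  · simp
  · simp
  · simp

end Pool.Agent.V11167.Mono
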