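import Pool.Agent.V11167.MonoC

/-! Final assembly (for MP_9c8b61_co). -/

namespace Pool.Agent.V11167.Mono

open Filter

lemma exists_idx (n : ℕ) : ∃ S : Finset (ℕ × ℕ),
    Finset.range (3 * (Nat.sqrt n / 3)) ×ˢ Finset.range (3 * (Nat.sqrt n / 3)) ⊆ S ∧
    S ⊆ Finset.range (Nat.sqrt n + 1) ×ˢ Finset.range (Nat.sqrt n + 1) ∧ S.card = n := by
  apply Finset.exists_subsuperset_card_eq
  · apply Finset.product_subset_product <;>
    · apply Finset.range_mono; omega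
  · rw [Finset.card_product, Finset.card_range]
    have h1 : 3 * (Nat.sqrt n / 3) ≤ Nat.sqrt n := by omega
    exact (Nat.mul_le_mul h1 h1).trans (Nat.sqrt_le n)
  · rw [Finset.card_product, Finset.card_range]
    exact (Nat.lt_succ_sqrt n).le

noncomputable def idx (n : ℕ) : Finset (ℕ × ℕ) := (exists_idx n).choose

open Classical in
noncomputable def An (n : ℕ) : Finset E2 := (idx n).image (Pt (Nat.sqrt n + 1))

lemma idx_sub (n : ℕ) (z : ℕ × ℕ) (hz : z ∈ idx n) : InG (Nat.sqrt n + 1) z := by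
  have := (exists_idx n).choose_spec.2.1 hz
  rw [Finset.mem_product, Finset.mem_range, Finset.mem_range] at this
  exact this

lemma idx_sup (n : ℕ) (z : ℕ × ℕ) (h1 : z.1 < 3 * (Nat.sqrt n / 3)) (h2 : z.2 < 3 * (Nat.sqrt n / 3)) :
    z ∈ idx n := by
  apply (exists_idx n).choose_spec.1
  rw [Finset.mem_product, Finset.mem_range, Finset.mem_range]
  exact ⟨h1, h2⟩

lemma mem_An (n : ℕ) (p : E2) : p ∈ An n ↔ ∃ z ∈ idx n, Pt (Nat.sqrt n + 1) z = p := by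
  classical
  simp [An, Finset.mem_image]

lemma card_An (n : ℕ) : (An n).card = n := by
  classical
  rw [An, Finset.card_image_of_injOn]
  · exact (exists_idx n).choose_spec.2.2
  · intro z hz w hw h
    exact Pt_inj _ (by omega) z w (idx_sub n z hz) (idx_sub n w hw) h

lemma genPos_An (n : ℕ) : GenPos (An n) := by
  intro p hp q hq r hr hpq hpr hqr
  rw [mem_An] at hp hq hr
  obtain ⟨z1, hz1, rfl⟩ := hp
  obtain ⟨z2, hz2, rfl⟩ := hq
  obtain ⟨z3, hz3, rfl⟩ := hr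
  exact not_collinear _ (by omega) z1 z2 z3 (idx_sub n _ hz1) (idx_sub n _ hz2) (idx_sub n _ hz3)
    (fun h => hpq (by rw [h])) (fun h => hpr (by rw [h])) (fun h => hqr (by rw [h]))

lemma dense_An (n : ℕ) : Dense 12 (An n) := by
  intro p hp q hq r hr s hs hrs
  have hcard := card_An n
  have hn : 1 ≤ n := by
    rw [← hcard]; exact Finset.card_pos.2 ⟨p, hp⟩
  rw [hcard]
  rw [mem_An] at hp hq hr hs
  obtain ⟨z1, hz1, rfl⟩ := hp
  obtain ⟨z2, hz2, rfl⟩ := hq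
  obtain ⟨z3, hz3, rfl⟩ := hr
  obtain ⟨z4, hz4, rfl⟩ := hs
  have h1 := dist_le _ (by omega) z1 z2 (idx_sub n _ hz1) (idx_sub n _ hz2)
  have h2 := dist_ge _ (by omega) z3 z4 (idx_sub n _ hz3) (idx_sub n _ hz4) (fun h => hrs (by rw [h]))
  have h3 : (Nat.sqrt n : ℝ) ≤ Real.sqrt n := Real.nat_sqrt_le_real_sqrt
  have h4 : (1 : ℝ) ≤ Real.sqrt n := by
    rw [Real.one_le_sqrt]; exact_mod_cast hn
  have h5 : 12 * Real.sqrt n * (1 / 2) ≤ 12 * Real.sqrt n *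
      dist (Pt (Nat.sqrt n + 1) z3) (Pt (Nat.sqrt n + 1) z4) :=
    mul_le_mul_of_nonneg_left h2 (by positivity)
  push_cast at h1
  linarith

open Classical in
lemma path_seq (n : ℕ) (l : List E2) (hl : IsMonoPath (An n) l) :
    ∃ (g : ℕ → ℕ × ℕ) (u1 u2 : ℝ), 0 < |u1| + |u2| ∧ (∀ i < l.length, InG (Nat.sqrt n + 1) (g i)) ∧
      (∀ i < l.length, Pt (Nat.sqrt n + 1) (g i) = l.getD i 0) ∧
      (∀ i j, i < j → j < l.length →
        F (Nat.sqrt n + 1) u1 u2 (g i) < F (Nat.sqrt n + 1) u1 u2 (g j)) := by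
  obtain ⟨hmem, u, hu, hch⟩ := hl
  have hgi : ∀ i : ℕ, ∃ z : ℕ × ℕ, i < l.length → z ∈ idx n ∧ Pt (Nat.sqrt n + 1) z = l.getD i 0 := by
    intro i
    by_cases hi : i < l.length
    · have h1 : l.getD i 0 ∈ l := by
        rw [List.getD_eq_getElem _ _ hi]; exact List.getElem_mem hi
      obtain ⟨z, hz, hz2⟩ := (mem_An n _).1 (hmem _ h1)
      exact ⟨z, fun _ => ⟨hz, hz2⟩⟩
    · exact ⟨(0, 0), fun h => absurd h hi⟩
  choose g hg using hgi
  refine ⟨g, u 0, u 1, ?_, ?_, ?_, ?_⟩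
  · by_contra hcon
    push Not at hcon
    have h1 := abs_nonneg (u 0)
    have h2 := abs_nonneg (u 1)
    apply hu
    ext c
    fin_cases c
    · exact abs_eq_zero.1 (by simp only [Fin.zero_eta]; linarith)
    · exact abs_eq_zero.1 (by simp only [Fin.mk_one]; linarith)
  · intro i hi
    exact idx_sub n _ (hg i hi).1
  · intro i hi
    exact (hg i hi).2
  · have hstep : ∀ i, i + 1 < l.length →
        F (Nat.sqrt n + 1) (u 0) (u 1) (g i) < F (Nat.sqrt n + 1) (u 0) (u 1) (g (i + 1)) := by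
      intro i hi
      have h1 := (List.isChain_iff_getElem.1 hch) i hi
      have e1 : l[i] = Pt (Nat.sqrt n + 1) (g i) := by
        rw [(hg i (by omega)).2, List.getD_eq_getElem _ _ (by omega)]
      have e2 : l[i + 1] = Pt (Nat.sqrt n + 1) (g (i + 1)) := by
        rw [(hg (i + 1) hi).2, List.getD_eq_getElem _ _ hi]
      rw [e1, e2, inner_Pt] at h1
      linarith
    intro i j hij hj
    induction j, hij using Nat.le_induction with
    | base => exact hstep i hj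
    | succ k hk ih => exact (ih (by omega)).trans (hstep k hj)

lemma lower (n : ℕ) (R : ℕ) (hR : 0 < R) (h1 : 8 * R ^ 2 ≤ Nat.sqrt n / 3)
    (h2 : 5 * R * (DD R).card ≤ Nat.sqrt n / 3) :
    ((Nat.sqrt n / 3 : ℕ) : ℝ) ^ 2 / 32 * ∑ d ∈ DD R, 1 / (d.1 : ℝ) ^ 2 ≤ (mc (An n) : ℝ) := by
  have hm0 : 0 < Nat.sqrt n / 3 := by nlinarith
  have hm8 : 8 ≤ Nat.sqrt n / 3 := by nlinarith
  obtain ⟨F0, hF0⟩ := exists_cover (An n)
  have hmem : mc (An n) ∈ {m | ∃ F : Finset (List E2), Covers (An n) F ∧ F.card = m} :=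
    Nat.sInf_mem ⟨F0.card, F0, hF0, rfl⟩
  obtain ⟨S, ⟨hS1, hS2⟩, hS3⟩ := hmem
  have hex : ∀ l : List E2, ∃ (g : ℕ → ℕ × ℕ) (u1 u2 : ℝ), l ∈ S →
      (0 < |u1| + |u2| ∧ (∀ i < l.length, InG (Nat.sqrt n + 1) (g i)) ∧
      (∀ i < l.length, Pt (Nat.sqrt n + 1) (g i) = l.getD i 0) ∧
      (∀ i j, i < j → j < l.length →
        F (Nat.sqrt n + 1) u1 u2 (g i) < F (Nat.sqrt n + 1) u1 u2 (g j))) := by
    intro l
    by_cases hl : l ∈ S
    · obtain ⟨g, u1, u2, h⟩ := path_seq n l (hS1 l hl)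
      exact ⟨g, u1, u2, fun _ => h⟩
    · exact ⟨fun _ => (0, 0), 0, 0, fun h => absurd h hl⟩
  choose g u1 u2 hspec using hex
  rw [← hS3]
  refine core (Nat.sqrt n + 1) (Nat.sqrt n / 3) R (DD R) hR ?_ (DD_det R) h1 h2 (by omega) (by omega)
    S List.length g u1 u2 (fun ξ hξ => (hspec ξ hξ).1) (fun ξ hξ => (hspec ξ hξ).2.1)
    (fun ξ hξ => (hspec ξ hξ).2.2.2) ?_
  · intro d hd
    rw [DD, Finset.mem_filter, Finset.mem_product, Finset.mem_range, Finset.mem_range] at hd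
    have := hd.2.1.pos
    exact ⟨this, by omega, hd.2.2.2⟩
  · intro p q hp1 hp2 hq1 hq2 hpq
    have hpi := idx_sup n p hp1 hp2
    have hqi := idx_sup n q hq1 hq2
    have hne : Pt (Nat.sqrt n + 1) p ≠ Pt (Nat.sqrt n + 1) q := fun h =>
      hpq (Pt_inj _ (by omega) p q (idx_sub n p hpi) (idx_sub n q hqi) h)
    obtain ⟨l, hl, hedge⟩ := hS2 _ ((mem_An n _).2 ⟨p, hpi, rfl⟩) _ ((mem_An n _).2 ⟨q, hqi, rfl⟩) hne
    obtain ⟨_, hg1, hg2, _⟩ := hspec l hl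
    refine ⟨l, hl, ?_⟩
    rcases hedge with h | h
    · obtain ⟨i, hi, e1, e2⟩ := infix_getD h
      refine ⟨i, hi, Or.inl ⟨?_, ?_⟩⟩
      · exact Pt_inj _ (by omega) _ _ (hg1 i (by omega)) (idx_sub n p hpi)
          ((hg2 i (by omega)).trans e1)
      · exact Pt_inj _ (by omega) _ _ (hg1 (i + 1) (by omega)) (idx_sub n q hqi)
          ((hg2 (i + 1) (by omega)).trans e2)
    · obtain ⟨i, hi, e1, e2⟩ := infix_getD h
      refine ⟨i, hi, Or.inr ⟨?_, ?_⟩⟩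
      · exact Pt_inj _ (by omega) _ _ (hg1 i (by omega)) (idx_sub n q hqi)
          ((hg2 i (by omega)).trans e1)
      · exact Pt_inj _ (by omega) _ _ (hg1 (i + 1) (by omega)) (idx_sub n p hpi)
          ((hg2 (i + 1) (by omega)).trans e2)

theorem tendsto_mc : Tendsto (fun n : ℕ => (mc (An n) : ℝ) / n) atTop atTop := by
  rw [tendsto_atTop]
  intro C
  obtain ⟨R, hR, hsum⟩ := DD_unbounded (800 * C)
  set N0 := 3 * (8 * R ^ 2 + 5 * R * (DD R).card + 10) with hN0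
  filter_upwards [eventually_ge_atTop (N0 ^ 2 + 1)] with n hn
  have hs : N0 ≤ Nat.sqrt n := by
    rw [Nat.le_sqrt']; omega
  have h1 : 8 * R ^ 2 ≤ Nat.sqrt n / 3 := by omega
  have h2 : 5 * R * (DD R).card ≤ Nat.sqrt n / 3 := by omega
  have h3 := lower n R hR h1 h2
  have hn0 : (0 : ℝ) < n := by
    have : 0 < n := by omega
    exact_mod_cast this
  rw [le_div_iff₀ hn0]
  refine le_trans ?_ h3
  have h4 : n ≤ (5 * (Nat.sqrt n / 3)) ^ 2 := by
    have h5 : n < (Nat.sqrt n + 1) ^ 2 := Nat.lt_succ_sqrt' n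
    have h6 : Nat.sqrt n + 1 ≤ 5 * (Nat.sqrt n / 3) := by omega
    have h7 := Nat.pow_le_pow_left h6 2
    omega
  have h5 : (n : ℝ) ≤ (5 * ((Nat.sqrt n / 3 : ℕ) : ℝ)) ^ 2 := by exact_mod_cast h4
  set m := ((Nat.sqrt n / 3 : ℕ) : ℝ)
  set Sg := ∑ d ∈ DD R, 1 / (d.1 : ℝ) ^ 2
  have h6 : 0 ≤ Sg := Finset.sum_nonneg fun _ _ => by positivity
  have h7 : C * n ≤ Sg / 800 * n := by
    apply mul_le_mul_of_nonneg_right _ hn0.le
    linarith
  have h8 : Sg / 800 * n ≤ Sg / 800 * (5 * m) ^ 2 :=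
    mul_le_mul_of_nonneg_left h5 (by positivity)
  have h9 : Sg / 800 * (5 * m) ^ 2 = m ^ 2 / 32 * Sg := by ring
  linarith

end Pool.Agent.V11167.Mono
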