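import Pool.Agent.V11167.PcgDefs

/-!
# Extensions of a convex geometry by one point; lower bounds for `L`
-/

namespace Pool.Agent.V11167.Pcg

open Set

/-- transport of convex geometries along an equivalence -/
theorem IsCG.congr {X Z : Type} (e : X ≃ Z) {G : Set (Set X)} (h : IsCG G) :
    IsCG ({F | e ⁻¹' F ∈ G} : Set (Set Z)) where
  empty_mem := by simpa using h.empty_mem
  inter_mem := by
    intro F hF F' hF'
    exact h.inter_mem _ hF _ hF'
  step := by
    intro F hF hne
    obtain ⟨x, hx, hx'⟩ := h.step _ hF (by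
      intro h'
      apply hne
      have := congrArg (fun S => e '' S) h'
      simpa using this)
    refine ⟨e x, hx, ?_⟩
    have : e ⁻¹' (insert (e x) F) = insert x (e ⁻¹' F) := by
      ext y; simp
    simpa [this] using hx'

/-- transport as an equivalence -/
def cgEquiv {X Z : Type} (e : X ≃ Z) : CG X ≃ CG Z where
  toFun G := ⟨{F | e ⁻¹' F ∈ G.1}, G.2.congr e⟩
  invFun G := ⟨{F | e.symm ⁻¹' F ∈ G.1}, G.2.congr e.symm⟩
  left_inv := by
    rintro ⟨G, hG⟩
    apply Subtype.ext
    ext F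
    simp [← Set.preimage_comp]
  right_inv := by
    rintro ⟨G, hG⟩
    apply Subtype.ext
    ext F
    simp [← Set.preimage_comp]

theorem card_cg {X : Type} [Finite X] : Nat.card (CG X) = L (Nat.card X) :=
  Nat.card_congr (cgEquiv (Finite.equivFin X))

/-- the one-point extension -/
def extend {X : Type} (G K : Set (Set X)) : Set (Set (Option X)) :=
  {F | (none ∈ F ∧ some ⁻¹' F ∈ G) ∨ (none ∉ F ∧ some ⁻¹' F ∈ K)}

theorem isCG_extend {X : Type} {G K : Set (Set X)} (hG : IsCG G) (hKG : K ⊆ G) (h0 : ∅ ∈ K)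
    (hd : ∀ F ∈ G, ∀ F' ∈ K, F ⊆ F' → F ∈ K) : IsCG (extend G K) where
  empty_mem := Or.inr ⟨by simp, by simpa using h0⟩
  inter_mem := by
    rintro F hF F' hF'
    rcases hF with ⟨h1, h2⟩ | ⟨h1, h2⟩ <;> rcases hF' with ⟨h3, h4⟩ | ⟨h3, h4⟩
    · exact Or.inl ⟨⟨h1, h3⟩, hG.inter_mem _ h2 _ h4⟩
    · exact Or.inr ⟨fun h => h3 h.2, hd _ (hG.inter_mem _ h2 _ (hKG h4)) _ h4
        inter_subset_right⟩
    · exact Or.inr ⟨fun h => h1 h.1, hd _ (hG.inter_mem _ (hKG h2) _ h4) _ h2
        inter_subset_left⟩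
    · exact Or.inr ⟨fun h => h1 h.1, hd _ (hG.inter_mem _ (hKG h2) _ (hKG h4)) _ h2
        inter_subset_left⟩
  step := by
    rintro F hF hne
    rcases hF with ⟨h1, h2⟩ | ⟨h1, h2⟩
    · obtain ⟨x, hx, hx'⟩ := hG.step _ h2 (by
        intro h'
        apply hne
        ext y
        cases y with
        | none => simp [h1]
        | some y =>
          have : y ∈ some ⁻¹' F := by rw [h']; trivial
          simpa using this)
      refine ⟨some x, hx, Or.inl ⟨Or.inr h1, ?_⟩⟩
      have : some ⁻¹' (insert (some x) F) = insert x (some ⁻¹' F) := by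
        ext y; simp
      rw [this]; exact hx'
    · refine ⟨none, h1, Or.inl ⟨Or.inl rfl, ?_⟩⟩
      have : some ⁻¹' (insert none F) = some ⁻¹' F := by
        ext y; simp
      rw [this]; exact hKG h2

theorem extend_injective {X : Type} {G K G' K' : Set (Set X)}
    (h : extend G K = extend G' K') : G = G' ∧ K = K' := by
  constructor
  · ext F
    have h1 := Set.ext_iff.1 h (insert none (some '' F))
    have e1 : some ⁻¹' (insert none (some '' F)) = F := by
      ext y; simp
    simpa [extend, e1] using h1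
  · ext F
    have h1 := Set.ext_iff.1 h (some '' F)
    have e1 : some ⁻¹' (some '' F) = F := by
      ext y; simp
    simpa [extend, e1] using h1

/-- the down-set used -/
def down {X : Type} (G : Set (Set X)) (i : ℕ) (S : Set (Set X)) : Set (Set X) :=
  {F | F ∈ G ∧ (F = ∅ ∨ F.ncard < i ∨ F ∈ S)}

theorem exists_level {m t : ℕ} (ht : 2 ≤ t) (G : Set (Set (Fin m))) (hs : (m + 1) * t ≤ G.ncard) :
    ∃ i : ℕ, ∃ j : Fin t → Set (Fin m), 1 ≤ i ∧ Function.Injective j ∧ ∀ a, j a ∈ G ∧
      (j a).ncard = i := by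
  classical
  have hfin : G.Finite := Set.toFinite G
  set T : Finset (Set (Fin m)) := hfin.toFinset with hT
  have hTc : T.card = G.ncard := (Set.ncard_eq_toFinset_card G hfin).symm
  obtain ⟨i, hi, hi'⟩ := Finset.exists_le_card_fiber_of_mul_le_card_of_maps_to
    (s := T) (t := Finset.range (m + 1)) (f := fun F => F.ncard) (n := t)
    (by
      intro F _
      rw [Finset.mem_range, Nat.lt_succ_iff]
      have := Set.ncard_le_card F
      simpa using this)
    (by simp) (by rw [Finset.card_range, hTc]; exact hs)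
  have hcard : Fintype.card (Fin t) ≤ (T.filter (fun F => F.ncard = i)).card := by
    simpa using hi'
  obtain ⟨j⟩ : Nonempty (Fin t ↪ (T.filter (fun F => F.ncard = i) : Finset (Set (Fin m)))) := by
    apply Function.Embedding.nonempty_of_card_le
    rw [Fintype.card_coe]
    exact hcard
  refine ⟨i, fun a => (j a).1, ?_, ?_, ?_⟩
  · by_contra h0
    have h0 : i = 0 := by omega
    have ha := (j ⟨0, by omega⟩).2
    have hb := (j ⟨1, by omega⟩).2
    rw [Finset.mem_filter] at ha hb
    have ha' : (j ⟨0, by omega⟩).1 = ∅ := by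
      apply (Set.ncard_eq_zero (Set.toFinite _)).1
      rw [ha.2, h0]
    have hb' : (j ⟨1, by omega⟩).1 = ∅ := by
      apply (Set.ncard_eq_zero (Set.toFinite _)).1
      rw [hb.2, h0]
    have : (⟨0, by omega⟩ : Fin t) = ⟨1, by omega⟩ := by
      apply j.injective
      apply Subtype.ext
      rw [ha', hb']
    simp at this
  · intro a b hab
    exact j.injective (Subtype.ext hab)
  · intro a
    have ha := (j a).2
    rw [Finset.mem_filter] at ha
    exact ⟨(Set.Finite.mem_toFinset hfin).1 ha.1, ha.2⟩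

theorem card_extend {m t : ℕ} (ht : 2 ≤ t) :
    Nat.card {G : CG (Fin m) // (m + 1) * t ≤ G.1.ncard} * 2 ^ t ≤ L (m + 1) := by
  classical
  have hL : L (m + 1) = Nat.card (CG (Option (Fin m))) := by
    rw [card_cg]; congr 1; simp
  rw [hL]
  have hprod : Nat.card {G : CG (Fin m) // (m + 1) * t ≤ G.1.ncard} * 2 ^ t =
      Nat.card ({G : CG (Fin m) // (m + 1) * t ≤ G.1.ncard} × Set (Fin t)) := by
    rw [Nat.card_prod]
    congr 1
    simp [Nat.card_eq_fintype_card]
  rw [hprod]
  choose i j h1 hinj hj using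
    fun G : {G : CG (Fin m) // (m + 1) * t ≤ G.1.ncard} => exists_level ht G.1.1 G.2
  let Φ : {G : CG (Fin m) // (m + 1) * t ≤ G.1.ncard} × Set (Fin t) → CG (Option (Fin m)) :=
    fun p => ⟨extend p.1.1.1 (down p.1.1.1 (i p.1) (j p.1 '' p.2)), by
      apply isCG_extend p.1.1.2
      · intro F hF; exact hF.1
      · exact ⟨p.1.1.2.empty_mem, Or.inl rfl⟩
      · rintro F hF F' ⟨hF', hF''⟩ hsub
        refine ⟨hF, ?_⟩
        rcases hF'' with h | h | h
        · left; rw [h] at hsub; exact subset_empty_iff.1 hsub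
        · right; left
          exact lt_of_le_of_lt (Set.ncard_le_ncard hsub (Set.toFinite _)) h
        · by_cases hFF : F = F'
          · right; right; rw [hFF]; exact h
          · right; left
            obtain ⟨a, _, ha⟩ := h
            have := (hj p.1 a).2
            rw [ha] at this
            rw [← this]
            exact Set.ncard_lt_ncard (hsub.ssubset_of_ne hFF) (Set.toFinite _)⟩
  apply Nat.card_le_card_of_injective Φ
  rintro ⟨G, S⟩ ⟨G', S'⟩ h
  have h' := extend_injective (congrArg Subtype.val h)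
  simp only at h'
  have hGG : G = G' := by
    apply Subtype.ext; apply Subtype.ext; exact h'.1
  subst hGG
  have h2 := h'.2
  have hSS : S = S' := by
    ext a
    have h3 := Set.ext_iff.1 h2 (j G a)
    have ha := hj G a
    have hne : j G a ≠ ∅ := by
      intro h0
      have := ha.2
      rw [h0, Set.ncard_empty] at this
      have := h1 G
      omega
    simp only [down, Set.mem_ofPred_eq, ha.1, hne, ha.2, lt_irrefl, false_or, true_and,
      Set.mem_image, (hinj G).eq_iff, exists_eq_right] at h3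
    exact h3
  rw [hSS]

theorem card_small {m s : ℕ} :
    Nat.card {G : CG (Fin m) // G.1.ncard ≤ s} ≤ 2 ^ (m * s) := by
  classical
  have h1 : Nat.card (Fin s → Set (Fin m)) = 2 ^ (m * s) := by
    rw [Nat.card_fun]
    simp [Nat.card_eq_fintype_card, pow_mul]
  rw [← h1]
  have key : ∀ G : {G : CG (Fin m) // G.1.ncard ≤ s},
      ∃ f : Fin s → Set (Fin m), Set.range f = G.1.1 := by
    intro G
    have hfin : G.1.1.Finite := Set.toFinite _
    have hne : Nonempty G.1.1 := ⟨⟨∅, G.1.2.empty_mem⟩⟩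
    have hc : Nat.card G.1.1 ≤ s := by
      rw [Nat.card_coe_set_eq]; exact G.2
    obtain ⟨g⟩ : Nonempty (G.1.1 ↪ Fin s) := by
      have : Fintype G.1.1 := Fintype.ofFinite _
      apply Function.Embedding.nonempty_of_card_le
      rw [← Nat.card_eq_fintype_card]
      simpa using hc
    refine ⟨fun a => (Function.invFun g a).1, ?_⟩
    ext F
    constructor
    · rintro ⟨a, rfl⟩
      exact (Function.invFun g a).2
    · intro hF
      exact ⟨g ⟨F, hF⟩, by
        show (Function.invFun g (g ⟨F, hF⟩)).1 = F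
        rw [Function.leftInverse_invFun g.injective]⟩
  choose f hf using key
  apply Nat.card_le_card_of_injective f
  intro G G' h
  apply Subtype.ext; apply Subtype.ext
  rw [← hf G, ← hf G', h]

theorem isCG_univ {X : Type} [Finite X] : IsCG (Set.univ : Set (Set X)) where
  empty_mem := trivial
  inter_mem := fun _ _ _ _ => trivial
  step := by
    intro F _ hne
    obtain ⟨x, hx⟩ := (Set.ne_univ_iff_exists_notMem F).1 hne
    exact ⟨x, hx, trivial⟩

/-- first lower bound: `2^t ≤ L (m+1)` whenever `(m+1) t ≤ 2^m`. -/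
theorem pow_le_L {m t : ℕ} (ht : 2 ≤ t) (h : (m + 1) * t ≤ 2 ^ m) : 2 ^ t ≤ L (m + 1) := by
  have h1 := card_extend (m := m) ht
  have h2 : 1 ≤ Nat.card {G : CG (Fin m) // (m + 1) * t ≤ G.1.ncard} := by
    have : Nonempty {G : CG (Fin m) // (m + 1) * t ≤ G.1.ncard} := by
      refine ⟨⟨⟨Set.univ, isCG_univ⟩, ?_⟩⟩
      rw [Set.ncard_univ]
      simpa [Nat.card_eq_fintype_card] using h
    exact Nat.one_le_iff_ne_zero.2 (Nat.card_pos).ne'
  calc 2 ^ t = 1 * 2 ^ t := by ring
    _ ≤ _ := Nat.mul_le_mul_right _ h2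
    _ ≤ _ := h1

/-- growth: `L m * 2^(t-1) ≤ L (m+1)`. -/
theorem growth {m t T : ℕ} (hm : 1 ≤ m) (ht : 2 ≤ t) (hT2 : 2 ≤ T) (hT : m * T ≤ 2 ^ (m - 1))
    (htT : m * ((m + 1) * t) + 1 ≤ T) : L m * 2 ^ (t - 1) ≤ L (m + 1) := by
  classical
  have hLm : 2 ^ T ≤ L m := by
    obtain ⟨k, rfl⟩ : ∃ k, m = k + 1 := ⟨m - 1, by omega⟩
    exact pow_le_L hT2 (by simpa using hT)
  have h1 := card_extend (m := m) ht
  have h2 := card_small (m := m) (s := (m + 1) * t)
  have hsplit : L m ≤ Nat.card {G : CG (Fin m) // (m + 1) * t ≤ G.1.ncard} +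
      Nat.card {G : CG (Fin m) // G.1.ncard ≤ (m + 1) * t} := by
    rw [L, ← Nat.card_sum]
    let Ψ : CG (Fin m) → {G : CG (Fin m) // (m + 1) * t ≤ G.1.ncard} ⊕
        {G : CG (Fin m) // G.1.ncard ≤ (m + 1) * t} := fun G =>
      if h : (m + 1) * t ≤ G.1.ncard then Sum.inl ⟨G, h⟩ else Sum.inr ⟨G, by omega⟩
    apply Nat.card_le_card_of_injective Ψ
    intro G G' h
    simp only [Ψ] at h
    split_ifs at h <;> simpa using h
  set A := Nat.card {G : CG (Fin m) // (m + 1) * t ≤ G.1.ncard}
  set B := Nat.card {G : CG (Fin m) // G.1.ncard ≤ (m + 1) * t}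
  have hB : 2 * B ≤ L m := by
    calc 2 * B ≤ 2 * 2 ^ (m * ((m + 1) * t)) := by omega
      _ = 2 ^ (m * ((m + 1) * t) + 1) := by ring
      _ ≤ 2 ^ T := Nat.pow_le_pow_right (by norm_num) htT
      _ ≤ L m := hLm
  have hA : L m ≤ 2 * A := by omega
  obtain ⟨u, rfl⟩ : ∃ u, t = u + 1 := ⟨t - 1, by omega⟩
  calc L m * 2 ^ (u + 1 - 1) ≤ 2 * A * 2 ^ u := Nat.mul_le_mul hA (by simp)
    _ = A * 2 ^ (u + 1) := by ring
    _ ≤ _ := h1

/-- `L` is monotone. -/
theorem L_le_succ (m : ℕ) : L m ≤ L (m + 1) := by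
  have hL : L (m + 1) = Nat.card (CG (Option (Fin m))) := by
    rw [card_cg]; congr 1; simp
  rw [hL]
  let Φ : CG (Fin m) → CG (Option (Fin m)) := fun G => ⟨extend G.1 G.1,
    isCG_extend G.2 subset_rfl G.2.empty_mem (fun F hF _ _ _ => hF)⟩
  apply Nat.card_le_card_of_injective Φ
  intro G G' h
  have := extend_injective (congrArg Subtype.val h)
  exact Subtype.ext this.1

theorem L_mono : Monotone L := monotone_nat_of_le_succ L_le_succ

theorem L_pos (m : ℕ) : 1 ≤ L m := by
  have : Nonempty (CG (Fin m)) := ⟨⟨Set.univ, isCG_univ⟩⟩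
  exact Nat.one_le_iff_ne_zero.2 (Nat.card_pos).ne'

theorem L_le (m : ℕ) : L m ≤ 2 ^ 2 ^ m := by
  have : Nat.card (Set (Set (Fin m))) = 2 ^ 2 ^ m := by
    simp [Nat.card_eq_fintype_card]
  rw [← this]
  exact Nat.card_le_card_of_injective _ Subtype.val_injective

end Pool.Agent.V11167.Pcg
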