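import Pool.Agent.V11167.PcgA

/-!
# Upper bound for the number of non-primitive convex geometries
-/

namespace Pool.Agent.V11167.Pcg

open Set

/-- the resolution family written on a fixed ground set -/
def resFam {n k : ℕ} (f : Fin n → Fin k) (B : Set (Set (Fin k)))
    (C : ∀ x, Set (Set {i // f i = x})) : Set (Set (Fin n)) :=
  {D | f '' D ∈ B ∧ (∀ x ∈ f '' D, {i : {i // f i = x} | i.1 ∈ D} ∈ C x) ∧
    (∀ x ∈ f '' D \ ex B (f '' D), ∀ i, f i = x → i ∈ D)}

theorem mem_conv_congr {X Z : Type} (ε : X ≃ Z) (G : Set (Set X)) (A : Set Z) (z : Z) :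
    z ∈ conv {F : Set Z | ε ⁻¹' F ∈ G} A ↔ ε.symm z ∈ conv G (ε ⁻¹' A) := by
  constructor
  · intro h F hF
    have := h (ε.symm ⁻¹' F) ⟨by
      show ε ⁻¹' (ε.symm ⁻¹' F) ∈ G
      rw [← Set.preimage_comp]; simpa using hF.1, by
      intro a ha
      apply hF.2
      simpa using ha⟩
    exact this
  · intro h F hF
    have := h (ε ⁻¹' F) ⟨hF.1, Set.preimage_mono hF.2⟩
    simpa using this

theorem mem_ex_congr {X Z : Type} (ε : X ≃ Z) (G : Set (Set X)) (A : Set Z) (z : Z) :
    z ∈ ex {F : Set Z | ε ⁻¹' F ∈ G} A ↔ ε.symm z ∈ ex G (ε ⁻¹' A) := by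
  unfold ex
  simp only [Set.mem_ofPred_eq, mem_conv_congr]
  have : ε ⁻¹' (A \ {z}) = ε ⁻¹' A \ {ε.symm z} := by
    ext x
    simp [Equiv.eq_symm_apply]
  rw [this]
  simp

theorem exists_resFam {n : ℕ} (G : CG (Fin n)) (hG : ¬ Primitive G.1) :
    ∃ (k : ℕ) (f : Fin n → Fin k) (B : CG (Fin k)) (C : ∀ x, CG {i // f i = x}),
      2 ≤ k ∧ k < n ∧ Function.Surjective f ∧ G.1 = resFam f B.1 (fun x => (C x).1) := by
  classical
  unfold Primitive at hG
  rw [not_not] at hG
  obtain ⟨X, Y, GX, GY, hX, hY, hYn, hGX, hGY, h2, ⟨x0, hx0⟩, ⟨e, he⟩⟩ := hG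
  set ε : X ≃ Fin (Nat.card X) := Finite.equivFin X with hε
  let f : Fin n → Fin (Nat.card X) := fun i => ε (e i).1
  have hfs : Function.Surjective f := by
    intro x
    obtain ⟨y⟩ := hYn (ε.symm x)
    exact ⟨e.symm ⟨ε.symm x, y⟩, by simp [f]⟩
  have hE : ∀ x : Fin (Nat.card X), ∃ E : Y (ε.symm x) ≃ {i // f i = x},
      ∀ y, (E y).1 = e.symm ⟨ε.symm x, y⟩ := by
    intro x
    let E0 : Y (ε.symm x) → {i // f i = x} := fun y => ⟨e.symm ⟨ε.symm x, y⟩, by simp [f]⟩
    have hE0 : Function.Bijective E0 := by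
      constructor
      · intro y y' h
        have := congrArg Subtype.val h
        simp only [E0] at this
        have := e.symm.injective this
        simpa using this
      · rintro ⟨i, hi⟩
        obtain ⟨⟨a, b⟩, rfl⟩ := e.symm.surjective i
        have hax : ε.symm x = a := by
          rw [← hi]; simp [f]
        have key : ∀ a', a' = a → ∃ y : Y a', (⟨a', y⟩ : Σ x, Y x) = ⟨a, b⟩ := by
          rintro _ rfl; exact ⟨b, rfl⟩
        obtain ⟨y, hy⟩ := key _ hax
        exact ⟨y, Subtype.ext (by simp only [E0]; rw [hy])⟩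
    exact ⟨Equiv.ofBijective E0 hE0, fun y => rfl⟩
  choose E hE using hE
  refine ⟨Nat.card X, f, ⟨{F | ε ⁻¹' F ∈ GX}, hGX.congr ε⟩,
    fun x => ⟨{F | (E x) ⁻¹' F ∈ GY (ε.symm x)}, (hGY _).congr (E x)⟩, h2, ?_, hfs, ?_⟩
  · have hninj : ¬ Function.Injective f := by
      intro hinj
      have hfin := hY x0
      have : Nontrivial (Y x0) := by
        have := Finite.one_lt_card_iff_nontrivial (α := Y x0)
        exact this.1 hx0
      obtain ⟨a, b, hab⟩ := exists_pair_ne (Y x0)
      apply hab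
      have h1 : e.symm ⟨x0, a⟩ = e.symm ⟨x0, b⟩ := by
        apply hinj
        simp [f]
      have := e.symm.injective h1
      simpa using this
    have := Fintype.card_lt_of_surjective_not_injective f hfs hninj
    simpa using this
  · ext D
    rw [he D]
    have hS : ε ⁻¹' (f '' D) = Sigma.fst '' (e '' D) := by
      ext x
      simp only [Set.mem_preimage, Set.mem_image, f]
      constructor
      · rintro ⟨i, hi, h⟩
        exact ⟨e i, ⟨i, hi, rfl⟩, ε.injective h⟩
      · rintro ⟨_, ⟨i, hi, rfl⟩, h⟩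
        exact ⟨i, hi, by rw [h]⟩
    have hmem : ∀ x, ε.symm x ∈ Sigma.fst '' (e '' D) ↔ x ∈ f '' D := by
      intro x
      rw [← hS]; simp
    have hy : ∀ x (y : Y (ε.symm x)), (⟨ε.symm x, y⟩ : Σ x, Y x) ∈ e '' D ↔ (E x y).1 ∈ D := by
      intro x y
      rw [hE]
      constructor
      · rintro ⟨i, hi, h⟩
        rw [← h]; simpa using hi
      · intro h
        exact ⟨_, h, by simp⟩
    unfold resolution resFam
    simp only [Set.mem_ofPred_eq]
    rw [hS]
    refine and_congr Iff.rfl (and_congr ?_ ?_)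
    · rw [ε.symm.surjective.forall]
      refine forall_congr' fun x => ?_
      rw [hmem]
      refine imp_congr Iff.rfl ?_
      have : {y : Y (ε.symm x) | (⟨ε.symm x, y⟩ : Σ x, Y x) ∈ e '' D} =
          (E x) ⁻¹' {i : {i // f i = x} | i.1 ∈ D} := by
        ext y
        exact hy x y
      rw [this]
    · rw [ε.symm.surjective.forall]
      refine forall_congr' fun x => ?_
      rw [Set.mem_sdiff, Set.mem_sdiff, hmem, mem_ex_congr, hS]
      refine imp_congr Iff.rfl ?_
      constructor
      · intro h i hi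
        obtain ⟨y, hy'⟩ := (E x).surjective ⟨i, hi⟩
        have := (hy x y).1 (h y)
        rw [hy'] at this
        exact this
      · intro h y
        exact (hy x y).2 (h _ (E x y).2)

/-- `N n`: number of non-primitive ones -/
noncomputable def N (n : ℕ) : ℕ := Nat.card {G : CG (Fin n) // ¬ Primitive G.1}

/-- data for a resolution -/
abbrev Data (n : ℕ) : Type :=
  Σ k : {k : Fin n // 2 ≤ k.1}, Σ f : {f : Fin n → Fin k.1.1 // Function.Surjective f},
    CG (Fin k.1.1) × (∀ x, CG {i // f.1 i = x})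

theorem N_le_data (n : ℕ) : N n ≤ Nat.card (Data n) := by
  classical
  choose k f B C h2 hlt hs hG using
    fun G : {G : CG (Fin n) // ¬ Primitive G.1} => exists_resFam G.1 G.2
  let Φ : {G : CG (Fin n) // ¬ Primitive G.1} → Data n := fun G =>
    ⟨⟨⟨k G, hlt G⟩, h2 G⟩, ⟨f G, hs G⟩, (B G, C G)⟩
  let Ψ : Data n → Set (Set (Fin n)) := fun d => resFam d.2.1.1 d.2.2.1.1 (fun x => (d.2.2.2 x).1)
  have hΨ : ∀ G, Ψ (Φ G) = G.1.1 := fun G => (hG G).symm
  apply Nat.card_le_card_of_injective Φ
  intro G G' h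
  apply Subtype.ext; apply Subtype.ext
  rw [← hΨ G, ← hΨ G', h]

theorem prod_bound {n k h : ℕ} (hh : n ≤ 2 * h) (c : Fin k → ℕ) (hc : ∀ x, 1 ≤ c x)
    (hs : ∑ x, c x = n) (hk : 2 ≤ k) (hkn : k < n) :
    L k * ∏ x, L (c x) ≤ L (n - 1) * (2 ^ 2 ^ h) ^ (n + 1) := by
  classical
  set B := 2 ^ 2 ^ h with hB
  have hB1 : 1 ≤ B := Nat.one_le_two_pow
  have hLB : ∀ j, j ≤ h → L j ≤ B := by
    intro j hj
    exact (L_le j).trans (Nat.pow_le_pow_right (by norm_num) (Nat.pow_le_pow_right (by norm_num) hj))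
  have herase : ∀ x, c x + ∑ y ∈ Finset.univ.erase x, c y = n := by
    intro x
    rw [Finset.add_sum_erase _ _ (Finset.mem_univ x), hs]
  have hone : ∀ x, c x + (k - 1) ≤ n := by
    intro x
    have h1 := herase x
    have h2 : (Finset.univ.erase x : Finset (Fin k)).card • 1 ≤
        ∑ y ∈ Finset.univ.erase x, c y := Finset.card_nsmul_le_sum _ _ _ (fun y _ => hc y)
    rw [Finset.card_erase_of_mem (Finset.mem_univ x)] at h2
    simp at h2
    omega
  have htwo : ∀ x y, y ≠ x → c x + c y ≤ n := by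
    intro x y hxy
    have h1 := herase x
    have h2 : c y ≤ ∑ y ∈ Finset.univ.erase x, c y :=
      Finset.single_le_sum (f := c) (fun _ _ => Nat.zero_le _) (Finset.mem_erase.2 ⟨hxy, Finset.mem_univ y⟩)
    omega
  by_cases hkh : h < k
  · have h1 : ∏ x, L (c x) ≤ B ^ k := by
      have := Finset.prod_le_pow_card (Finset.univ : Finset (Fin k)) (fun x => L (c x)) B (by
        intro x _
        apply hLB
        have := hone x
        omega)
      simpa using this
    calc L k * ∏ x, L (c x) ≤ L (n - 1) * B ^ k := Nat.mul_le_mul (L_mono (by omega)) h1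
      _ ≤ L (n - 1) * B ^ (n + 1) :=
        Nat.mul_le_mul_left _ (Nat.pow_le_pow_right hB1 (by omega))
  · push Not at hkh
    have hLk := hLB k hkh
    by_cases hbig : ∃ x, h < c x
    · obtain ⟨x, hx⟩ := hbig
      rw [← Finset.mul_prod_erase _ _ (Finset.mem_univ x)]
      have h1 : ∏ y ∈ Finset.univ.erase x, L (c y) ≤ B ^ (k - 1) := by
        have := Finset.prod_le_pow_card (Finset.univ.erase x : Finset (Fin k))
          (fun x => L (c x)) B (by
          intro y hy
          apply hLB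
          have := htwo x y (Finset.ne_of_mem_erase hy)
          omega)
        rw [Finset.card_erase_of_mem (Finset.mem_univ x)] at this
        simpa using this
      have h2 : L (c x) ≤ L (n - 1) := L_mono (by have := hone x; omega)
      calc L k * (L (c x) * ∏ y ∈ Finset.univ.erase x, L (c y))
          ≤ B * (L (n - 1) * B ^ (k - 1)) := Nat.mul_le_mul hLk (Nat.mul_le_mul h2 h1)
        _ = L (n - 1) * B ^ (k - 1 + 1) := by ring
        _ ≤ L (n - 1) * B ^ (n + 1) :=
          Nat.mul_le_mul_left _ (Nat.pow_le_pow_right hB1 (by omega))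
    · push Not at hbig
      have h1 : ∏ x, L (c x) ≤ B ^ k := by
        have := Finset.prod_le_pow_card (Finset.univ : Finset (Fin k)) (fun x => L (c x)) B (by
          intro x _
          exact hLB _ (hbig x))
        simpa using this
      calc L k * ∏ x, L (c x) ≤ B * B ^ k := Nat.mul_le_mul hLk h1
        _ = 1 * B ^ (k + 1) := by ring
        _ ≤ L (n - 1) * B ^ (n + 1) :=
          Nat.mul_le_mul (L_pos _) (Nat.pow_le_pow_right hB1 (by omega))

theorem N_le {n h : ℕ} (hh : n ≤ 2 * h) :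
    N n ≤ n * (n ^ n * (L (n - 1) * (2 ^ 2 ^ h) ^ (n + 1))) := by
  classical
  refine (N_le_data n).trans ?_
  set Q := L (n - 1) * (2 ^ 2 ^ h) ^ (n + 1) with hQ
  rw [Nat.card_sigma]
  have h1 : ∀ k : {k : Fin n // 2 ≤ k.1}, Nat.card
      (Σ f : {f : Fin n → Fin k.1.1 // Function.Surjective f},
        CG (Fin k.1.1) × (∀ x, CG {i // f.1 i = x})) ≤ n ^ n * Q := by
    rintro ⟨⟨k, hkn⟩, hk⟩
    rw [Nat.card_sigma]
    have h2 : ∀ f : {f : Fin n → Fin k // Function.Surjective f},
        Nat.card (CG (Fin k) × (∀ x, CG {i // f.1 i = x})) ≤ Q := by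
      rintro ⟨f, hf⟩
      rw [Nat.card_prod, Nat.card_pi]
      have h3 : ∀ x, Nat.card (CG {i // f i = x}) = L (Nat.card {i // f i = x}) :=
        fun x => card_cg
      simp only [h3]
      apply prod_bound hh _ _ _ hk hkn
      · intro x
        obtain ⟨i, hi⟩ := hf x
        have : Nonempty {i // f i = x} := ⟨⟨i, hi⟩⟩
        exact Nat.one_le_iff_ne_zero.2 (Nat.card_pos).ne'
      · rw [← Nat.card_sigma, Nat.card_congr (Equiv.sigmaFiberEquiv f)]
        simp
    calc _ ≤ ∑ f : {f : Fin n → Fin k // Function.Surjective f}, Q :=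
          Finset.sum_le_sum (fun f _ => h2 f)
      _ = Fintype.card {f : Fin n → Fin k // Function.Surjective f} * Q := by
          rw [Finset.sum_const, smul_eq_mul, Finset.card_univ]
      _ ≤ n ^ n * Q := by
          apply Nat.mul_le_mul_right
          calc Fintype.card {f : Fin n → Fin k // Function.Surjective f}
              ≤ Fintype.card (Fin n → Fin k) := Fintype.card_subtype_le _
            _ = k ^ n := by simp
            _ ≤ n ^ n := Nat.pow_le_pow_left hkn.le _
  calc _ ≤ ∑ k : {k : Fin n // 2 ≤ k.1}, n ^ n * Q := Finset.sum_le_sum (fun k _ => h1 k)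
    _ = Fintype.card {k : Fin n // 2 ≤ k.1} * (n ^ n * Q) := by
        rw [Finset.sum_const, smul_eq_mul, Finset.card_univ]
    _ ≤ n * (n ^ n * Q) := by
        apply Nat.mul_le_mul_right
        have := Fintype.card_subtype_le (fun k : Fin n => 2 ≤ k.1)
        simpa using this

end Pool.Agent.V11167.Pcg
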