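import Pool.Agent.V11167.PcgB

/-!
# Asymptotics
-/

namespace Pool.Agent.V11167.Pcg

open Set Filter Topology

theorem L_eq (n : ℕ) : L n = Lpr n + N n := by
  classical
  unfold L Lpr N
  rw [← Nat.card_sum]
  exact (Nat.card_congr (Equiv.sumCompl (fun G : CG (Fin n) => Primitive G.1))).symm

theorem U_le (n : ℕ) : U n ≤ Upr n + N n := by
  classical
  unfold U Upr N
  rw [← Nat.card_sum]
  let Ψ : Quotient (isoSetoid n) →
      {c : Quotient (isoSetoid n) // ∃ G : CG (Fin n), Quotient.mk (isoSetoid n) G = c ∧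
        Primitive G.1} ⊕ {G : CG (Fin n) // ¬ Primitive G.1} := fun c =>
    if h : ∃ G : CG (Fin n), Quotient.mk (isoSetoid n) G = c ∧ Primitive G.1 then
      Sum.inl ⟨c, h⟩
    else Sum.inr ⟨c.out, fun hp => h ⟨c.out, Quotient.out_eq c, hp⟩⟩
  apply Nat.card_le_card_of_injective Ψ
  intro c c' h
  simp only [Ψ] at h
  split_ifs at h with h1 h2 h3
  · simpa using h
  · have := Sum.inr.inj h
    have := congrArg Subtype.val this
    rw [← Quotient.out_eq c, ← Quotient.out_eq c']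
    exact congrArg _ this

theorem Upr_le (n : ℕ) : Upr n ≤ U n :=
  Nat.card_le_card_of_injective _ Subtype.val_injective

theorem L_le_U (n : ℕ) : L n ≤ n.factorial * U n := by
  classical
  have h1 : n.factorial = Nat.card (Equiv.Perm (Fin n)) := by
    rw [Nat.card_eq_fintype_card, Fintype.card_perm]; simp
  rw [h1]
  unfold L U
  rw [← Nat.card_prod]
  let Φ : Equiv.Perm (Fin n) × Quotient (isoSetoid n) → CG (Fin n) :=
    fun p => cgEquiv p.1 p.2.out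
  apply Nat.card_le_card_of_surjective Φ
  intro G
  obtain ⟨e, he⟩ : Iso G.1 (Quotient.mk (isoSetoid n) G).out.1 :=
    (isoSetoid n).iseqv.symm
      (Quotient.exact (s := isoSetoid n) (Quotient.out_eq (Quotient.mk (isoSetoid n) G)))
  refine ⟨(e.symm, Quotient.mk (isoSetoid n) G), ?_⟩
  apply Subtype.ext
  ext F
  rw [he F]
  change e.symm ⁻¹' F ∈ (Quotient.mk (isoSetoid n) G).out.1 ↔ _
  rw [Equiv.image_eq_preimage_symm]

theorem U_pos (n : ℕ) : 1 ≤ U n := by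
  have : Nonempty (Quotient (isoSetoid n)) := ⟨Quotient.mk _ ⟨Set.univ, isCG_univ⟩⟩
  exact Nat.one_le_iff_ne_zero.2 (Nat.card_pos).ne'

/-- the elementary growth comparison -/
theorem eventually_growth : ∃ n₀ : ℕ, ∀ n, n₀ ≤ n →
    (n - 1) * ((n - 1) * (n * (2 * n ^ 2 + 2 * n + 1 + (n + 1) * 2 ^ (n / 2 + 1))) + 1) ≤
      2 ^ (n - 2) := by
  have ht := tendsto_pow_const_div_const_pow_of_one_lt 5 (show (1 : ℝ) < 2 by norm_num)
  have hev := (ht.eventually (gt_mem_nhds (show (0 : ℝ) < 1 / 15552 by norm_num)))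
  obtain ⟨q₀, hq₀⟩ := eventually_atTop.1 hev
  refine ⟨2 * q₀ + 10, fun n hn => ?_⟩
  set q := n / 2 with hq
  have hq1 : q₀ ≤ q := by omega
  have hq5 : 5 ≤ q := by omega
  have hn1 : n ≤ 3 * q := by omega
  have hpow : 15552 * q ^ 5 ≤ 2 ^ q := by
    have := hq₀ q hq1
    rw [div_lt_iff₀ (by positivity)] at this
    have h2 : (15552 * q ^ 5 : ℝ) ≤ 2 ^ q := by linarith
    exact_mod_cast h2
  have hn5 : 64 * n ^ 5 ≤ 2 ^ q := by
    calc 64 * n ^ 5 ≤ 64 * (3 * q) ^ 5 := Nat.mul_le_mul_left _ (Nat.pow_le_pow_left hn1 5)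
      _ = 15552 * q ^ 5 := by ring
      _ ≤ _ := hpow
  have hP1 : 1 ≤ 2 ^ (q + 1) := Nat.one_le_two_pow
  set P := 2 ^ (q + 1) with hP
  obtain ⟨m, rfl⟩ : ∃ m, n = m + 1 := ⟨n - 1, by omega⟩
  have h1 : 2 * (m + 1) ^ 2 + 2 * (m + 1) + 1 + (m + 1 + 1) * P ≤ 7 * (m + 1) ^ 2 * P := by
    have e1 : 2 * (m + 1) ^ 2 + 2 * (m + 1) + 1 ≤ (2 * (m + 1) ^ 2 + 2 * (m + 1) + 1) * P := by
      nlinarith
    have e2 : 2 * (m + 1) ^ 2 + 2 * (m + 1) + 1 + (m + 1 + 1) ≤ 7 * (m + 1) ^ 2 := by nlinarith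
    calc _ ≤ (2 * (m + 1) ^ 2 + 2 * (m + 1) + 1) * P + (m + 1 + 1) * P := by omega
      _ = (2 * (m + 1) ^ 2 + 2 * (m + 1) + 1 + (m + 1 + 1)) * P := by ring
      _ ≤ 7 * (m + 1) ^ 2 * P := Nat.mul_le_mul_right _ e2
  have hsimp : m + 1 - 1 = m := by omega
  rw [hsimp]
  calc m * (m * ((m + 1) * (2 * (m + 1) ^ 2 + 2 * (m + 1) + 1 + (m + 1 + 1) * P)) + 1)
      ≤ (m + 1) * ((m + 1) * ((m + 1) * (7 * (m + 1) ^ 2 * P)) + (m + 1) ^ 4 * P) := by
        apply Nat.mul_le_mul (by omega)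
        apply Nat.add_le_add
        · exact Nat.mul_le_mul (by omega) (Nat.mul_le_mul_left _ h1)
        · exact Nat.one_le_iff_ne_zero.2 (by positivity)
    _ = 8 * (m + 1) ^ 5 * P := by ring
    _ ≤ 8 * (m + 1) ^ 5 * (2 * 2 ^ q) := by rw [hP, pow_succ]; ring_nf; rfl
    _ = (64 * (m + 1) ^ 5 * 2 ^ q) / 4 := by
        rw [show 64 * (m + 1) ^ 5 * 2 ^ q = 4 * (8 * (m + 1) ^ 5 * (2 * 2 ^ q)) by ring]
        simp
    _ ≤ (2 ^ q * 2 ^ q) / 4 := Nat.div_le_div_right (Nat.mul_le_mul_right _ hn5)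
    _ = 2 ^ (2 * q - 2) := by
        rw [← pow_add, show q + q = (2 * q - 2) + 2 by omega, pow_add]
        simp
    _ ≤ 2 ^ (m + 1 - 2) := Nat.pow_le_pow_right (by norm_num) (by omega)

/-- the main estimate -/
theorem main_estimate : ∃ n₀ : ℕ, ∀ n, n₀ ≤ n → N n * n.factorial * 2 ^ n ≤ L n := by
  obtain ⟨n₀, hn₀⟩ := eventually_growth
  refine ⟨n₀ + 2, fun n hn => ?_⟩
  have hg := hn₀ n (by omega)
  set h := n / 2 + 1 with hh
  set t := 2 * n ^ 2 + 2 * n + 1 + (n + 1) * 2 ^ h with ht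
  have h2h : n ≤ 2 * h := by omega
  have ht2 : 2 ≤ t := by
    have : 2 ≤ 2 * n := by omega
    omega
  obtain ⟨m, rfl⟩ : ∃ m, n = m + 1 := ⟨n - 1, by omega⟩
  have hm1 : m + 1 - 1 = m := by omega
  rw [hm1] at hg
  have hm2 : m + 1 - 2 = m - 1 := by omega
  rw [hm2] at hg
  have hgr := growth (m := m) (t := t) (T := m * ((m + 1) * t) + 1) (by omega) ht2 (by
    have : 1 ≤ m * ((m + 1) * t) := Nat.one_le_iff_ne_zero.2 (by
      have : 0 < m := by omega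
      positivity)
    omega) hg le_rfl
  have hN := N_le (n := m + 1) (h := h) h2h
  rw [hm1] at hN
  have hfac : (m + 1).factorial ≤ 2 ^ ((m + 1) * (m + 1)) := by
    calc (m + 1).factorial ≤ (m + 1) ^ (m + 1) := Nat.factorial_le_pow _
      _ ≤ (2 ^ (m + 1)) ^ (m + 1) := Nat.pow_le_pow_left (Nat.lt_two_pow_self).le _
      _ = _ := by rw [← pow_mul]
  have hnn : (m + 1) * (m + 1) ^ (m + 1) ≤ 2 ^ ((m + 1) + (m + 1) * (m + 1)) := by
    have e1 : 2 ^ ((m + 1) + (m + 1) * (m + 1)) = 2 ^ (m + 1) * 2 ^ ((m + 1) * (m + 1)) :=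
      pow_add _ _ _
    rw [e1]
    apply Nat.mul_le_mul (Nat.lt_two_pow_self).le
    calc (m + 1) ^ (m + 1) ≤ (2 ^ (m + 1)) ^ (m + 1) :=
          Nat.pow_le_pow_left (Nat.lt_two_pow_self).le _
      _ = _ := by rw [← pow_mul]
  calc N (m + 1) * (m + 1).factorial * 2 ^ (m + 1)
      ≤ ((m + 1) * ((m + 1) ^ (m + 1) * (L m * (2 ^ 2 ^ h) ^ (m + 1 + 1)))) *
        2 ^ ((m + 1) * (m + 1)) * 2 ^ (m + 1) :=
        Nat.mul_le_mul_right _ (Nat.mul_le_mul hN hfac)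
    _ = L m * (((m + 1) * (m + 1) ^ (m + 1)) * (2 ^ 2 ^ h) ^ (m + 1 + 1) *
        2 ^ ((m + 1) * (m + 1)) * 2 ^ (m + 1)) := by ring
    _ ≤ L m * (2 ^ ((m + 1) + (m + 1) * (m + 1)) * (2 ^ 2 ^ h) ^ (m + 1 + 1) *
        2 ^ ((m + 1) * (m + 1)) * 2 ^ (m + 1)) := by
        apply Nat.mul_le_mul_left
        apply Nat.mul_le_mul_right
        apply Nat.mul_le_mul_right
        exact Nat.mul_le_mul_right _ hnn
    _ = L m * 2 ^ (t - 1) := by
        rw [← pow_mul, ← pow_add, ← pow_add, ← pow_add]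
        congr 2
        rw [ht]
        have : 2 * (m + 1) ^ 2 + 2 * (m + 1) + 1 + (m + 1 + 1) * 2 ^ h - 1 =
          2 * (m + 1) ^ 2 + 2 * (m + 1) + (m + 1 + 1) * 2 ^ h := by omega
        rw [this]; ring
    _ ≤ L (m + 1) := hgr

theorem tendsto_aux (a b c : ℕ → ℕ) (hle : ∀ n, a n ≤ b n) (hb : ∀ n, 1 ≤ b n)
    (hc : ∀ n, b n ≤ a n + c n) (hest : ∃ n₀, ∀ n, n₀ ≤ n → c n * 2 ^ n ≤ b n) :
    Tendsto (fun n => (a n : ℝ) / b n) atTop (𝓝 1) := by
  obtain ⟨n₀, hn₀⟩ := hest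
  have h1 : Tendsto (fun n : ℕ => 1 - ((1 : ℝ) / 2) ^ n) atTop (𝓝 1) := by
    have := tendsto_pow_atTop_nhds_zero_of_lt_one (r := (1 : ℝ) / 2) (by norm_num) (by norm_num)
    simpa using this.const_sub 1
  refine tendsto_of_tendsto_of_tendsto_of_le_of_le' h1 tendsto_const_nhds ?_ ?_
  · filter_upwards [eventually_ge_atTop n₀] with n hn
    have hb' : (0 : ℝ) < b n := by exact_mod_cast hb n
    have h2 : (c n : ℝ) * 2 ^ n ≤ b n := by exact_mod_cast hn₀ n hn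
    have h3 : (b n : ℝ) ≤ a n + c n := by exact_mod_cast hc n
    rw [le_div_iff₀ hb']
    have h4 : (c n : ℝ) ≤ (1 / 2) ^ n * b n := by
      rw [one_div, inv_pow, inv_mul_eq_div, le_div_iff₀ (by positivity)]
      exact h2
    linarith
  · filter_upwards with n
    have hb' : (0 : ℝ) < b n := by exact_mod_cast hb n
    rw [div_le_one hb']
    exact_mod_cast hle n

theorem labelled : Tendsto (fun n => (Lpr n : ℝ) / L n) atTop (𝓝 1) := by
  apply tendsto_aux Lpr L N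
  · intro n; rw [L_eq n]; omega
  · exact L_pos
  · intro n; exact (L_eq n).le
  · obtain ⟨n₀, hn₀⟩ := main_estimate
    refine ⟨n₀, fun n hn => le_trans ?_ (hn₀ n hn)⟩
    apply Nat.mul_le_mul_right
    exact Nat.le_mul_of_pos_right _ (Nat.factorial_pos n)

theorem unlabelled : Tendsto (fun n => (Upr n : ℝ) / U n) atTop (𝓝 1) := by
  apply tendsto_aux Upr U N
  · exact Upr_le
  · exact U_pos
  · exact U_le
  · obtain ⟨n₀, hn₀⟩ := main_estimate
    refine ⟨n₀, fun n hn => ?_⟩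
    have h1 := (hn₀ n hn).trans (L_le_U n)
    have h2 : n.factorial * (N n * 2 ^ n) ≤ n.factorial * U n := by
      calc n.factorial * (N n * 2 ^ n) = N n * n.factorial * 2 ^ n := by ring
        _ ≤ _ := h1
    exact Nat.le_of_mul_le_mul_left h2 (Nat.factorial_pos n)

end Pool.Agent.V11167.Pcg
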