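import Mathlib

/-!
# Convex geometries, resolutions, primitive convex geometries: definitions
-/

namespace Pool.Agent.V11167.Pcg

open Set

/-- `G` is a convex geometry on `X`: (G1), (G2), (G3). -/
structure IsCG {X : Type} (G : Set (Set X)) : Prop where
  empty_mem : ∅ ∈ G
  inter_mem : ∀ F ∈ G, ∀ F' ∈ G, F ∩ F' ∈ G
  step : ∀ F ∈ G, F ≠ univ → ∃ x, x ∉ F ∧ insert x F ∈ G

/-- The closure of `A`: the intersection of all members containing `A` (for a convex geometry on a
finite set this is the least member containing `A`). -/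
def conv {X : Type} (G : Set (Set X)) (A : Set X) : Set X := ⋂₀ {F | F ∈ G ∧ A ⊆ F}

/-- The extreme points of `A`. -/
def ex {X : Type} (G : Set (Set X)) (A : Set X) : Set X := {a | a ∈ A ∧ a ∉ conv G (A \ {a})}

/-- Isomorphism: a bijection of the ground sets maps members exactly onto members. -/
def Iso {X Z : Type} (G : Set (Set X)) (H : Set (Set Z)) : Prop :=
  ∃ e : X ≃ Z, ∀ F : Set X, F ∈ G ↔ e '' F ∈ H

/-- The resolution of the base `GX` on `X` into the fibers `GY x` on `Y x`, a family of subsets of
the disjoint union `Σ x, Y x`, with the projection `Sigma.fst`. -/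
def resolution {X : Type} {Y : X → Type} (GX : Set (Set X)) (GY : ∀ x, Set (Set (Y x))) :
    Set (Set (Σ x, Y x)) :=
  {D | Sigma.fst '' D ∈ GX ∧
    (∀ x ∈ Sigma.fst '' D, {y : Y x | (⟨x, y⟩ : Σ x, Y x) ∈ D} ∈ GY x) ∧
    (∀ x ∈ Sigma.fst '' D \ ex GX (Sigma.fst '' D), ∀ y : Y x, (⟨x, y⟩ : Σ x, Y x) ∈ D)}

/-- `G` is primitive: it is not isomorphic to a resolution of convex geometries on finite nonempty
sets with `|X| ≥ 2` and `|Y x| ≥ 2` for some `x`. -/
def Primitive {Z : Type} (G : Set (Set Z)) : Prop :=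
  ¬ ∃ (X : Type) (Y : X → Type) (GX : Set (Set X)) (GY : ∀ x, Set (Set (Y x))),
    Finite X ∧ (∀ x, Finite (Y x)) ∧ (∀ x, Nonempty (Y x)) ∧
    IsCG GX ∧ (∀ x, IsCG (GY x)) ∧
    2 ≤ Nat.card X ∧ (∃ x, 2 ≤ Nat.card (Y x)) ∧
    Iso G (resolution GX GY)

/-- The convex geometries on the labeled set `Fin n`. -/
abbrev CG (X : Type) : Type := {G : Set (Set X) // IsCG G}

/-- `L n`: the number of convex geometries on the labeled set `Fin n`. -/
noncomputable def L (n : ℕ) : ℕ := Nat.card (CG (Fin n))

/-- `Lpr n`: the number of primitive convex geometries on the labeled set `Fin n`. -/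
noncomputable def Lpr (n : ℕ) : ℕ := Nat.card {G : CG (Fin n) // Primitive G.1}

/-- Isomorphism of convex geometries on `Fin n`, as an equivalence relation. -/
def isoSetoid (n : ℕ) : Setoid (CG (Fin n)) where
  r G H := Iso G.1 H.1
  iseqv :=
    { refl := fun G => ⟨Equiv.refl _, fun F => by simp⟩
      symm := by
        rintro G H ⟨e, he⟩
        refine ⟨e.symm, fun F => ?_⟩
        rw [he (e.symm '' F), Set.image_image]
        simp
      trans := by
        rintro G H K ⟨e, he⟩ ⟨f, hf⟩
        refine ⟨e.trans f, fun F => ?_⟩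
        rw [he F, hf (e '' F), Set.image_image]
        rfl }

/-- `U n`: the number of isomorphism classes of convex geometries on `n` elements. -/
noncomputable def U (n : ℕ) : ℕ := Nat.card (Quotient (isoSetoid n))

/-- `Upr n`: the number of isomorphism classes of primitive convex geometries on `n` elements. -/
noncomputable def Upr (n : ℕ) : ℕ :=
  Nat.card {c : Quotient (isoSetoid n) //
    ∃ G : CG (Fin n), Quotient.mk (isoSetoid n) G = c ∧ Primitive G.1}

end Pool.Agent.V11167.Pcg
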