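import Mathlib

/-!
# Three solutions of a conic: the area argument
-/

set_option autoImplicit false

namespace Pool.Agent.V11167.Sig

/-- The equation satisfied by a solution of `σ₂ = σₙ` with `t` entries `1`, `k` entries `a`
and `l` entries `b`. -/
def E (t k a l b : ℕ) : Prop :=
  2 * a ^ k * b ^ l + t + k * a ^ 2 + l * b ^ 2 = (t + k * a + l * b) ^ 2

theorem E.symm {t k a l b : ℕ} (h : E t k a l b) : E t l b k a := by
  unfold E at *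
  nlinarith [h]

/-- three points on a branch of the hyperbola `p² - z² = Δ` -/
theorem area_core (Δ p1 p2 p3 z1 z2 z3 : ℝ) (hΔ : 0 < Δ) (h1 : 0 < p1) (h12 : p1 < p2)
    (h23 : p2 < p3) (hz1 : 0 < z1) (hz2 : 0 < z2) (hz3 : 0 < z3)
    (e1 : z1 ^ 2 = p1 ^ 2 - Δ) (e2 : z2 ^ 2 = p2 ^ 2 - Δ) (e3 : z3 ^ 2 = p3 ^ 2 - Δ)
    (h2Δ : 2 * Δ ≤ p1 ^ 2) :
    0 < -((p2 - p1) * (z3 - z1) - (p3 - p1) * (z2 - z1)) ∧
    -((p2 - p1) * (z3 - z1) - (p3 - p1) * (z2 - z1)) * p1 ^ 3 ≤ (8 / 5) * Δ * (p3 - p1) ^ 3 := by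
  have hz12 : z1 < z2 := by
    apply lt_of_pow_lt_pow_left₀ 2 hz2.le
    rw [e1, e2]; nlinarith
  have hz23 : z2 < z3 := by
    apply lt_of_pow_lt_pow_left₀ 2 hz3.le
    rw [e2, e3]; nlinarith
  have hp3 : 0 < p3 := by linarith
  have hzp1 : 7 / 10 * p1 ≤ z1 := by
    apply (pow_le_pow_iff_left₀ (by positivity) hz1.le two_ne_zero).1
    rw [e1]; nlinarith
  have hpp : p1 ^ 2 ≤ p3 ^ 2 := pow_le_pow_left₀ h1.le (by linarith) 2
  have hzp3 : 7 / 10 * p3 ≤ z3 := by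
    apply (pow_le_pow_iff_left₀ (by positivity) hz3.le two_ne_zero).1
    rw [e3]; nlinarith
  have hV1 : (p1 - z1) * (p1 + z1) = Δ := by linear_combination -e1
  have hV2 : (p2 - z2) * (p2 + z2) = Δ := by linear_combination -e2
  have hV3 : (p3 - z3) * (p3 + z3) = Δ := by linear_combination -e3
  set D := -((p2 - p1) * (z3 - z1) - (p3 - p1) * (z2 - z1)) with hD
  obtain ⟨U1, hU1⟩ : ∃ U, U = p1 + z1 := ⟨_, rfl⟩
  obtain ⟨U2, hU2⟩ : ∃ U, U = p2 + z2 := ⟨_, rfl⟩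
  obtain ⟨U3, hU3⟩ : ∃ U, U = p3 + z3 := ⟨_, rfl⟩
  have key : 2 * D * (U1 * U2 * U3) = Δ * ((U2 - U1) * (U3 - U1) * (U3 - U2)) := by
    rw [hU1, hU2, hU3, hD]
    linear_combination (p2 + z2 - (p1 + z1)) * (p2 + z2) * (p1 + z1) * hV3
      - (p2 + z2 - (p1 + z1)) * (p2 + z2) * (p3 + z3) * hV1
      - (p3 + z3 - (p1 + z1)) * (p3 + z3) * (p1 + z1) * hV2
      + (p3 + z3 - (p1 + z1)) * (p3 + z3) * (p2 + z2) * hV1
  have hU12 : U1 < U2 := by rw [hU1, hU2]; linarith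
  have hU23 : U2 < U3 := by rw [hU2, hU3]; linarith
  have hU1p : 17 / 10 * p1 ≤ U1 := by rw [hU1]; linarith
  have hU1pos : 0 < U1 := by linarith
  have hU2pos : 0 < U2 := by linarith
  have hU3pos : 0 < U3 := by linarith
  have hpos : 0 < Δ * ((U2 - U1) * (U3 - U1) * (U3 - U2)) := by
    have a1 : 0 < U2 - U1 := by linarith
    have a2 : 0 < U3 - U1 := by linarith
    have a3 : 0 < U3 - U2 := by linarith
    positivity
  have hDpos : 0 < D := by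
    rw [← key] at hpos
    have : 0 < U1 * U2 * U3 := by positivity
    by_contra hcon
    push Not at hcon
    nlinarith
  refine ⟨hDpos, ?_⟩
  have hz31 : z3 - z1 ≤ 3 / 2 * (p3 - p1) := by
    have e : (z3 - z1) * (z3 + z1) = (p3 - p1) * (p3 + p1) := by linear_combination e3 - e1
    have hs : 7 / 10 * (p3 + p1) ≤ z3 + z1 := by linarith
    by_contra hcon
    push Not at hcon
    have : 3 / 2 * (p3 - p1) * (7 / 10 * (p3 + p1)) < (z3 - z1) * (z3 + z1) := by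
      apply mul_lt_mul hcon hs (by linarith) (by linarith)
    rw [e] at this
    have h5 : 0 < (p3 - p1) * (p3 + p1) := mul_pos (by linarith) (by linarith)
    have h6 : 3 / 2 * (p3 - p1) * (7 / 10 * (p3 + p1)) = 21 / 20 * ((p3 - p1) * (p3 + p1)) := by
      ring
    rw [h6] at this
    linarith
  have hU31 : U3 - U1 ≤ 5 / 2 * (p3 - p1) := by rw [hU1, hU3]; linarith
  have b1 : (U2 - U1) * (U3 - U1) * (U3 - U2) ≤ (U3 - U1) ^ 3 := by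
    have d1 : 0 < U2 - U1 := by linarith
    have d2 : 0 < U3 - U2 := by linarith
    have c2 : 0 ≤ U3 - U1 := by linarith
    have c1 : (U2 - U1) * (U3 - U2) ≤ (U3 - U1) ^ 2 := by
      have e : U3 - U1 = (U2 - U1) + (U3 - U2) := by ring
      rw [e]
      have d3 : 0 < (U2 - U1) * (U3 - U2) := mul_pos d1 d2
      have d4 := sq_nonneg (U2 - U1)
      have d5 := sq_nonneg (U3 - U2)
      have e2 : (U2 - U1 + (U3 - U2)) ^ 2 = (U2 - U1) ^ 2 + 2 * ((U2 - U1) * (U3 - U2))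
        + (U3 - U2) ^ 2 := by ring
      rw [e2]; linarith
    calc (U2 - U1) * (U3 - U1) * (U3 - U2) = (U3 - U1) * ((U2 - U1) * (U3 - U2)) := by ring
      _ ≤ (U3 - U1) * (U3 - U1) ^ 2 := mul_le_mul_of_nonneg_left c1 c2
      _ = (U3 - U1) ^ 3 := by ring
  have b2 : (U3 - U1) ^ 3 ≤ (5 / 2 * (p3 - p1)) ^ 3 :=
    pow_le_pow_left₀ (by linarith) hU31 3
  have b3 : (17 / 10 * p1) ^ 3 ≤ U1 * U2 * U3 := by
    have : (17 / 10 * p1) ^ 3 ≤ U1 ^ 3 := pow_le_pow_left₀ (by positivity) hU1p 3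
    have h' : U1 ^ 3 ≤ U1 * U2 * U3 := by
      have h13 : U1 ≤ U3 := by linarith
      have : U1 * U1 * U1 ≤ U1 * U2 * U3 := by gcongr
      linarith [this, show U1 ^ 3 = U1 * U1 * U1 by ring]
    linarith
  have b4 : 2 * D * (17 / 10 * p1) ^ 3 ≤ Δ * (5 / 2 * (p3 - p1)) ^ 3 := by
    calc 2 * D * (17 / 10 * p1) ^ 3 ≤ 2 * D * (U1 * U2 * U3) := by gcongr
      _ = Δ * ((U2 - U1) * (U3 - U1) * (U3 - U2)) := key
      _ ≤ Δ * (U3 - U1) ^ 3 := by gcongr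
      _ ≤ Δ * (5 / 2 * (p3 - p1)) ^ 3 := by gcongr
  have hp31 : 0 ≤ Δ * (p3 - p1) ^ 3 := by
    have : 0 ≤ p3 - p1 := by linarith
    positivity
  have f1 : 2 * D * (17 / 10 * p1) ^ 3 = 4913 / 500 * (D * p1 ^ 3) := by ring
  have f2 : Δ * (5 / 2 * (p3 - p1)) ^ 3 = 125 / 8 * (Δ * (p3 - p1) ^ 3) := by ring
  have f3 : 8 / 5 * Δ * (p3 - p1) ^ 3 = 8 / 5 * (Δ * (p3 - p1) ^ 3) := by ring
  rw [f1, f2] at b4
  rw [f3]
  linarith

/-- The gap principle: three solutions with the same `(l, b)` and `a` of multiplicity two. -/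
theorem conic_gap (l b t1 t2 t3 a1 a2 a3 : ℕ) (hl : 1 ≤ l) (hb : 2 ≤ b) (ht1 : 1 ≤ t1)
    (h12 : t1 < t2) (h23 : t2 < t3) (hc : 2 ≤ l ∨ b ≤ t1)
    (ha1 : 2 ≤ a1) (ha2 : 2 ≤ a2) (ha3 : 2 ≤ a3)
    (E1 : E t1 2 a1 l b) (E2 : E t2 2 a2 l b) (E3 : E t3 2 a3 l b) :
    b ^ l * t1 ^ 6 ≤ 2 * l ^ 2 * b ^ 4 * (t3 - t1) ^ 6 := by
  unfold E at E1 E2 E3
  have E1' : (2 * (a1:ℝ) ^ 2 * (b:ℝ) ^ l + t1 + 2 * (a1:ℝ) ^ 2 + l * (b:ℝ) ^ 2
      = (t1 + 2 * a1 + l * b) ^ 2) := by exact_mod_cast E1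
  have E2' : (2 * (a2:ℝ) ^ 2 * (b:ℝ) ^ l + t2 + 2 * (a2:ℝ) ^ 2 + l * (b:ℝ) ^ 2
      = (t2 + 2 * a2 + l * b) ^ 2) := by exact_mod_cast E2
  have E3' : (2 * (a3:ℝ) ^ 2 * (b:ℝ) ^ l + t3 + 2 * (a3:ℝ) ^ 2 + l * (b:ℝ) ^ 2
      = (t3 + 2 * a3 + l * b) ^ 2) := by exact_mod_cast E3
  have hbR : (2:ℝ) ≤ b := by exact_mod_cast hb
  have hlR : (1:ℝ) ≤ l := by exact_mod_cast hl
  have hqR : (b:ℝ) ≤ (b:ℝ) ^ l := by
    calc (b:ℝ) = (b:ℝ) ^ 1 := by ring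
      _ ≤ (b:ℝ) ^ l := pow_le_pow_right₀ (by linarith) hl
  have hcR : (2 ≤ (l:ℝ)) ∨ ((l:ℝ) = 1 ∧ (b:ℝ) ^ l = b ∧ (b:ℝ) ≤ t1) := by
    rcases Nat.lt_or_ge l 2 with h | h
    · right
      have : l = 1 := by omega
      subst this
      refine ⟨by simp, by simp, ?_⟩
      have : b ≤ t1 := by omega
      exact_mod_cast this
    · left; exact_mod_cast h
  have ht1R : (1:ℝ) ≤ t1 := by exact_mod_cast ht1
  have h12R : (t1:ℝ) < t2 := by exact_mod_cast h12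
  have h23R : (t2:ℝ) < t3 := by exact_mod_cast h23
  have ha1R : (2:ℝ) ≤ a1 := by exact_mod_cast ha1
  have ha2R : (2:ℝ) ≤ a2 := by exact_mod_cast ha2
  have ha3R : (2:ℝ) ≤ a3 := by exact_mod_cast ha3
  generalize hq : (b:ℝ) ^ l = q at *
  have hq2 : 2 ≤ q := by linarith
  -- the discriminant
  obtain ⟨Δ, hΔ⟩ : ∃ Δ : ℝ, Δ = (q - 1) * (4 * l * b * (b - 1) * (q + 1) + (q - 1)) := ⟨_, rfl⟩
  obtain ⟨B, hB⟩ : ∃ B : ℝ, B = 2 * l * b * (q + 1) - (q - 1) := ⟨_, rfl⟩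
  have hlb : 2 ≤ (l:ℝ) * b := by nlinarith
  have hlbq : 2 * (q + 1) ≤ (l * b) * (q + 1) := mul_le_mul_of_nonneg_right hlb (by linarith)
  have hBe : 2 * (l:ℝ) * b * (q + 1) = 2 * ((l * b) * (q + 1)) := by ring
  have hB0 : 0 < B := by rw [hB, hBe]; linarith
  have hΔ0 : 0 < Δ := by
    rw [hΔ]
    have : 0 < (q - 1) := by linarith
    have : 0 ≤ (b:ℝ) - 1 := by linarith
    have : 0 ≤ 4 * (l:ℝ) * b * (b - 1) * (q + 1) := by positivity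
    have : 0 < 4 * (l:ℝ) * b * (b - 1) * (q + 1) + (q - 1) := by linarith
    positivity
  have hΔle : Δ ≤ (q - 1) * (4 * l * b ^ 2 * (q + 1)) := by
    rw [hΔ]
    apply mul_le_mul_of_nonneg_left _ (by linarith)
    have h8 : 2 * (q + 1) ≤ (l * b) * (q + 1) := mul_le_mul_of_nonneg_right hlb (by linarith)
    have h9 : 4 * (l:ℝ) * b ^ 2 * (q + 1) - 4 * l * b * (b - 1) * (q + 1) =
      4 * ((l * b) * (q + 1)) := by ring
    linarith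
  obtain ⟨r, hr⟩ : ∃ r : ℝ, r = Real.sqrt (8 * (q + 1)) := ⟨_, rfl⟩
  have hr2 : r ^ 2 = 8 * (q + 1) := by rw [hr]; exact Real.sq_sqrt (by linarith)
  have hr0 : 0 < r := by rw [hr]; exact Real.sqrt_pos.2 (by linarith)
  have hy : ∀ t a : ℝ, 1 ≤ t → 2 ≤ a →
      2 * a ^ 2 * q + t + 2 * a ^ 2 + l * (b:ℝ) ^ 2 = (t + 2 * a + l * b) ^ 2 →
      0 < (q - 1) * a - (t + l * b) := by
    intro t a ht ha he
    have h1 : 2 * a * ((q - 1) * a - 2 * (t + l * b)) = t ^ 2 - t + 2 * t * (l * b)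
        + (l ^ 2 - l) * b ^ 2 := by linear_combination he
    have h2 : 0 < t ^ 2 - t + 2 * t * (l * b) + ((l:ℝ) ^ 2 - l) * b ^ 2 := by
      have : 0 ≤ t ^ 2 - t := by nlinarith
      have : 0 < 2 * t * (l * b) := by positivity
      have : 0 ≤ ((l:ℝ) ^ 2 - l) * b ^ 2 := by
        apply mul_nonneg _ (by positivity)
        nlinarith
      linarith
    rw [← h1] at h2
    have h3 : 0 < (q - 1) * a - 2 * (t + l * b) :=
      (mul_pos_iff_of_pos_left (by linarith)).1 h2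
    have : 0 < t + l * b := by linarith
    linarith
  have hzz : ∀ t a : ℝ,
      2 * a ^ 2 * q + t + 2 * a ^ 2 + l * (b:ℝ) ^ 2 = (t + 2 * a + l * b) ^ 2 →
      (r * ((q - 1) * a - (t + l * b))) ^ 2 = (2 * (q + 1) * t + B) ^ 2 - Δ := by
    intro t a he
    rw [mul_pow, hr2, hB, hΔ]
    linear_combination (4 * (q + 1) * (q - 1)) * he
  have hp1 : 2 * Δ ≤ (2 * (q + 1) * t1 + B) ^ 2 := by
    rcases hcR with h | ⟨h1, h2, h3⟩
    · have hB2 : 2 * Δ ≤ B ^ 2 := by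
        have e : B ^ 2 - 2 * Δ = 8 * (q + 1) * (b ^ 2 * (l ^ 2 * (q + 1) - l * (q - 1))) - B ^ 2 := by
          rw [hB, hΔ]; ring
        have hBu : B ≤ 2 * (l * b) * (q + 1) := by
          have e9 : 2 * ((l:ℝ) * b) * (q + 1) = 2 * l * b * (q + 1) := by ring
          rw [hB, e9]; linarith
        have hBu2 : B ^ 2 ≤ (2 * (l * b) * (q + 1)) ^ 2 := pow_le_pow_left₀ hB0.le hBu 2
        have h5 : 0 ≤ (l:ℝ) * (l - 2) * (q + 1) + 4 * l := by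
          have : 0 ≤ (l:ℝ) - 2 := by linarith
          positivity
        have h6 : 8 * (q + 1) * (b ^ 2 * (l ^ 2 * (q + 1) - l * (q - 1)))
            - (2 * (l * b) * (q + 1)) ^ 2 = 4 * (q + 1) * b ^ 2 * ((l:ℝ) * (l - 2) * (q + 1) + 4 * l) := by
          ring
        have h7 : 0 ≤ 4 * (q + 1) * (b:ℝ) ^ 2 * ((l:ℝ) * (l - 2) * (q + 1) + 4 * l) := by
          have : 0 ≤ q + 1 := by linarith
          positivity
        linarith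
      have : B ^ 2 ≤ (2 * (q + 1) * t1 + B) ^ 2 := by
        apply pow_le_pow_left₀ hB0.le
        have : 0 ≤ 2 * (q + 1) * (t1:ℝ) := by
          have : 0 ≤ q + 1 := by linarith
          positivity
        linarith
      linarith
    · subst h2
      have e1 : Δ = ((b - 1) * (2 * b + 1)) ^ 2 := by rw [hΔ, h1]; ring
      have e2 : (4:ℝ) * b ^ 2 ≤ 2 * (b + 1) * t1 + B := by
        have e9 : 2 * ((b:ℝ) + 1) * b ≤ 2 * (b + 1) * t1 :=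
          mul_le_mul_of_nonneg_left h3 (by linarith)
        have e10 : B = 2 * b * (b + 1) - (b - 1) := by rw [hB, h1]; ring
        rw [e10]
        nlinarith
      have e3 : (4 * (b:ℝ) ^ 2) ^ 2 ≤ (2 * (b + 1) * t1 + B) ^ 2 :=
        pow_le_pow_left₀ (by positivity) e2 2
      have e4 : ((b:ℝ) - 1) * (2 * b + 1) ≤ 2 * b ^ 2 := by nlinarith
      have e5 : (((b:ℝ) - 1) * (2 * b + 1)) ^ 2 ≤ (2 * b ^ 2) ^ 2 :=
        pow_le_pow_left₀ (by nlinarith) e4 2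
      rw [e1]
      have e6 : (4 * (b:ℝ) ^ 2) ^ 2 = 4 * (2 * (b:ℝ) ^ 2) ^ 2 := by ring
      have e7 : 0 ≤ (2 * (b:ℝ) ^ 2) ^ 2 := by positivity
      linarith
  have hq1 : 0 < q + 1 := by linarith
  have core := area_core Δ (2 * (q + 1) * t1 + B) (2 * (q + 1) * t2 + B) (2 * (q + 1) * t3 + B)
    (r * ((q - 1) * a1 - (t1 + l * b))) (r * ((q - 1) * a2 - (t2 + l * b)))
    (r * ((q - 1) * a3 - (t3 + l * b))) hΔ0 (by positivity)
    (by have := mul_lt_mul_of_pos_left h12R (show 0 < 2 * (q + 1) by linarith); linarith)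
    (by have := mul_lt_mul_of_pos_left h23R (show 0 < 2 * (q + 1) by linarith); linarith)
    (mul_pos hr0 (hy _ _ ht1R ha1R E1')) (mul_pos hr0 (hy _ _ (by linarith) ha2R E2'))
    (mul_pos hr0 (hy _ _ (by linarith) ha3R E3'))
    (hzz _ _ E1') (hzz _ _ E2') (hzz _ _ E3') hp1
  obtain ⟨c1, c2⟩ := core
  have ed : -((2 * (q + 1) * t2 + B - (2 * (q + 1) * t1 + B)) *
      (r * ((q - 1) * a3 - (t3 + l * b)) - r * ((q - 1) * a1 - (t1 + l * b))) -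
      (2 * (q + 1) * t3 + B - (2 * (q + 1) * t1 + B)) *
      (r * ((q - 1) * a2 - (t2 + l * b)) - r * ((q - 1) * a1 - (t1 + l * b)))) =
      (2 * (q + 1) * r * (q - 1)) *
        (((t3:ℝ) - t1) * (a2 - a1) - (t2 - t1) * (a3 - a1)) := by ring
  rw [ed] at c1 c2
  have hcoef : 0 < 2 * (q + 1) * r * (q - 1) := by
    have : 0 < q - 1 := by linarith
    positivity
  have hint : (1:ℝ) ≤ ((t3:ℝ) - t1) * (a2 - a1) - (t2 - t1) * (a3 - a1) := by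
    have h0 : (0:ℝ) < ((t3:ℝ) - t1) * (a2 - a1) - (t2 - t1) * (a3 - a1) :=
      (mul_pos_iff_of_pos_left hcoef).1 c1
    have h1 : (0:ℤ) < ((t3:ℤ) - t1) * (a2 - a1) - (t2 - t1) * (a3 - a1) := by
      exact_mod_cast h0
    have h2 : (1:ℤ) ≤ ((t3:ℤ) - t1) * (a2 - a1) - (t2 - t1) * (a3 - a1) := h1
    exact_mod_cast h2
  -- lower bound
  have hp1pos : 0 < 2 * (q + 1) * (t1:ℝ) + B := by positivity
  have g1 : (2 * (q + 1) * r * (q - 1)) * (2 * (q + 1) * t1) ^ 3 ≤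
      8 / 5 * Δ * (2 * (q + 1) * (t3 - t1)) ^ 3 := by
    have i1 : (2 * (q + 1) * r * (q - 1)) * (2 * (q + 1) * t1) ^ 3 ≤
        (2 * (q + 1) * r * (q - 1)) * (2 * (q + 1) * t1 + B) ^ 3 := by
      apply mul_le_mul_of_nonneg_left _ hcoef.le
      apply pow_le_pow_left₀ (by positivity)
      linarith
    have i2 : (2 * (q + 1) * r * (q - 1)) * (2 * (q + 1) * t1 + B) ^ 3 ≤
        (2 * (q + 1) * r * (q - 1)) *
        (((t3:ℝ) - t1) * (a2 - a1) - (t2 - t1) * (a3 - a1)) * (2 * (q + 1) * t1 + B) ^ 3 := by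
      apply mul_le_mul_of_nonneg_right _ (by positivity)
      exact le_mul_of_one_le_right hcoef.le hint
    have i3 : 8 / 5 * Δ * (2 * (q + 1) * t3 + B - (2 * (q + 1) * t1 + B)) ^ 3 =
        8 / 5 * Δ * (2 * (q + 1) * (t3 - t1)) ^ 3 := by ring
    linarith
  have ht31 : (0:ℝ) < t3 - t1 := by linarith
  have g2 : (2 * (q + 1) * r * (q - 1)) * (t1:ℝ) ^ 3 ≤ 8 / 5 * Δ * ((t3:ℝ) - t1) ^ 3 := by
    have hA : 0 < (2 * (q + 1)) ^ 3 := by positivity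
    have e1 : (2 * (q + 1) * r * (q - 1)) * (2 * (q + 1) * t1) ^ 3 =
        ((2 * (q + 1) * r * (q - 1)) * (t1:ℝ) ^ 3) * (2 * (q + 1)) ^ 3 := by ring
    have e2 : 8 / 5 * Δ * (2 * (q + 1) * (t3 - t1)) ^ 3 =
        (8 / 5 * Δ * ((t3:ℝ) - t1) ^ 3) * (2 * (q + 1)) ^ 3 := by ring
    rw [e1, e2] at g1
    exact le_of_mul_le_mul_right g1 hA
  have g3 : (2 * (q + 1) * (q - 1)) * (r * (t1:ℝ) ^ 3) ≤
      (2 * (q + 1) * (q - 1)) * (16 / 5 * (l * b ^ 2) * ((t3:ℝ) - t1) ^ 3) := by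
    have : 8 / 5 * Δ * ((t3:ℝ) - t1) ^ 3 ≤
        8 / 5 * ((q - 1) * (4 * l * b ^ 2 * (q + 1))) * ((t3:ℝ) - t1) ^ 3 := by
      gcongr
    calc (2 * (q + 1) * (q - 1)) * (r * (t1:ℝ) ^ 3) = (2 * (q + 1) * r * (q - 1)) * (t1:ℝ) ^ 3 := by
          ring
      _ ≤ 8 / 5 * ((q - 1) * (4 * l * b ^ 2 * (q + 1))) * ((t3:ℝ) - t1) ^ 3 := g2.trans this
      _ = _ := by ring
  have g4 : r * (t1:ℝ) ^ 3 ≤ 16 / 5 * (l * b ^ 2) * ((t3:ℝ) - t1) ^ 3 := by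
    have : 0 < q - 1 := by linarith
    exact le_of_mul_le_mul_left g3 (by positivity)
  have g5 : (r * (t1:ℝ) ^ 3) ^ 2 ≤ (16 / 5 * (l * b ^ 2) * ((t3:ℝ) - t1) ^ 3) ^ 2 :=
    pow_le_pow_left₀ (by positivity) g4 2
  have g6 : q * (t1:ℝ) ^ 6 ≤ 2 * l ^ 2 * b ^ 4 * ((t3:ℝ) - t1) ^ 6 := by
    have e1 : (r * (t1:ℝ) ^ 3) ^ 2 = 8 * (q + 1) * (t1:ℝ) ^ 6 := by
      rw [mul_pow, hr2]; ring
    have e2 : (16 / 5 * (l * b ^ 2) * ((t3:ℝ) - t1) ^ 3) ^ 2 =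
        256 / 25 * (l ^ 2 * b ^ 4 * ((t3:ℝ) - t1) ^ 6) := by ring
    rw [e1, e2] at g5
    have n1 : 0 ≤ (t1:ℝ) ^ 6 := by positivity
    have n2 : 0 ≤ (l:ℝ) ^ 2 * b ^ 4 * ((t3:ℝ) - t1) ^ 6 := by positivity
    have n3 : 8 * (q + 1) * (t1:ℝ) ^ 6 = 8 * (q * (t1:ℝ) ^ 6) + 8 * (t1:ℝ) ^ 6 := by ring
    have n4 : 2 * (l:ℝ) ^ 2 * b ^ 4 * ((t3:ℝ) - t1) ^ 6 =
      2 * ((l:ℝ) ^ 2 * b ^ 4 * ((t3:ℝ) - t1) ^ 6) := by ring
    rw [n3] at g5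
    rw [n4]
    linarith
  have h13 : t1 ≤ t3 := by omega
  have g7 : ((b ^ l * t1 ^ 6 : ℕ) : ℝ) ≤ ((2 * l ^ 2 * b ^ 4 * (t3 - t1) ^ 6 : ℕ) : ℝ) := by
    push_cast [Nat.cast_sub h13]
    rw [hq]
    exact g6
  exact_mod_cast g7

end Pool.Agent.V11167.Sig
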