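import Pool.Agent.V11167.SigA

/-!
# Counting the solutions of a conic in dyadic blocks
-/

set_option autoImplicit false

namespace Pool.Agent.V11167.Sig

open Finset

theorem three_sorted {P : ℕ → Prop} {x y z : ℕ} (hx : P x) (hy : P y) (hz : P z)
    (hxy : x ≠ y) (hxz : x ≠ z) (hyz : y ≠ z) :
    ∃ u v w, u < v ∧ v < w ∧ P u ∧ P v ∧ P w := by
  rcases lt_or_gt_of_ne hxy with h1 | h1 <;> rcases lt_or_gt_of_ne hxz with h2 | h2 <;>
    rcases lt_or_gt_of_ne hyz with h3 | h3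
  · exact ⟨x, y, z, h1, h3, hx, hy, hz⟩
  · exact ⟨x, z, y, h2, h3, hx, hz, hy⟩
  · omega
  · exact ⟨z, x, y, h2, h1, hz, hx, hy⟩
  · exact ⟨y, x, z, h1, h2, hy, hx, hz⟩
  · omega
  · exact ⟨y, z, x, h3, h2, hy, hz, hx⟩
  · exact ⟨z, y, x, h3, h1, hz, hy, hx⟩

theorem block_count (l b c i : ℕ) (hl : 1 ≤ l) (hb : 2 ≤ b) (hc : 1 ≤ c)
    (hlc : 2 * l ^ 2 * b ^ 4 ≤ b ^ l * c ^ 6) (S : Finset ℕ)
    (hS : ∀ t ∈ S, 2 ^ i ≤ t ∧ t < 2 ^ (i + 1) ∧ (2 ≤ l ∨ b ≤ t) ∧ ∃ a, 2 ≤ a ∧ E t 2 a l b) :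
    S.card ≤ 10 * c := by
  classical
  obtain ⟨T, hT⟩ : ∃ T, T = 2 ^ i := ⟨_, rfl⟩
  have hT1 : 1 ≤ T := by rw [hT]; exact Nat.one_le_two_pow
  have hS' : ∀ t ∈ S, T ≤ t ∧ t < 2 * T ∧ (2 ≤ l ∨ b ≤ t) ∧ ∃ a, 2 ≤ a ∧ E t 2 a l b := by
    intro t ht
    obtain ⟨h1, h2, h3⟩ := hS t ht
    rw [pow_succ, mul_comm] at h2
    rw [hT]
    exact ⟨h1, h2, h3⟩
  rcases lt_or_ge T c with h | h
  · have hsub : S ⊆ Finset.Ico T (2 * T) := by
      intro t ht
      obtain ⟨h1, h2, -⟩ := hS' t ht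
      exact Finset.mem_Ico.2 ⟨h1, h2⟩
    have h3 := Finset.card_le_card hsub
    rw [Nat.card_Ico] at h3
    omega
  · obtain ⟨D, hD⟩ : ∃ D, D = T / c := ⟨_, rfl⟩
    have hD1 : 1 ≤ D := by rw [hD]; exact (Nat.one_le_div_iff hc).2 h
    have hcD : c * D ≤ T := by rw [hD]; exact Nat.mul_div_le T c
    have hTD : T < c * (D + 1) := by rw [hD]; exact Nat.lt_mul_div_succ T hc
    have hfib : ∀ y ∈ S.image (fun t => t / D), (S.filter (fun t => t / D = y)).card ≤ 2 := by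
      intro y _
      by_contra hcon
      push Not at hcon
      rw [Finset.two_lt_card] at hcon
      obtain ⟨x1, hx1, x2, hx2, x3, hx3, n12, n13, n23⟩ := hcon
      obtain ⟨u, v, w, huv, hvw, hu, hv, hw⟩ :=
        three_sorted (P := fun t => t ∈ S.filter (fun t => t / D = y)) hx1 hx2 hx3 n12 n13 n23
      simp only [Finset.mem_filter] at hu hv hw
      obtain ⟨hu1, hu2, hu3, au, hau, Eu⟩ := hS' u hu.1
      obtain ⟨hv1, hv2, hv3, av, hav, Ev⟩ := hS' v hv.1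
      obtain ⟨hw1, hw2, hw3, aw, haw, Ew⟩ := hS' w hw.1
      have gap := conic_gap l b u v w au av aw hl hb (by omega) huv hvw hu3 hau hav haw Eu Ev Ew
      have hwD : w - u < D := by
        have e1 : D * y ≤ u := by rw [← hu.2]; exact Nat.mul_div_le u D
        have e2 : w < D * (y + 1) := by
          rw [← hw.2]; exact Nat.lt_mul_div_succ w (by omega)
        rw [Nat.mul_add, Nat.mul_one] at e2
        omega
      have h1 : (w - u) ^ 6 < D ^ 6 := Nat.pow_lt_pow_left hwD (by norm_num)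
      have hpos : 0 < 2 * l ^ 2 * b ^ 4 := by positivity
      have h2 : 2 * l ^ 2 * b ^ 4 * (w - u) ^ 6 < 2 * l ^ 2 * b ^ 4 * D ^ 6 :=
        Nat.mul_lt_mul_of_pos_left h1 hpos
      have h3 : 2 * l ^ 2 * b ^ 4 * D ^ 6 ≤ b ^ l * c ^ 6 * D ^ 6 := Nat.mul_le_mul_right _ hlc
      have h4 : b ^ l * c ^ 6 * D ^ 6 = b ^ l * (c * D) ^ 6 := by ring
      have h5 : b ^ l * (c * D) ^ 6 ≤ b ^ l * u ^ 6 :=
        Nat.mul_le_mul_left _ (Nat.pow_le_pow_left (hcD.trans hu1) 6)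
      omega
    have himg : (S.image (fun t => t / D)).card ≤ 4 * c := by
      have hsub : S.image (fun t => t / D) ⊆ Finset.range (4 * c) := by
        intro y hy
        obtain ⟨t, ht, rfl⟩ := Finset.mem_image.1 hy
        obtain ⟨h1, h2, -⟩ := hS' t ht
        rw [Finset.mem_range, Nat.div_lt_iff_lt_mul (by omega)]
        have : c * (D + 1) ≤ 2 * (c * D) := by nlinarith
        nlinarith
      have := Finset.card_le_card hsub
      rwa [Finset.card_range] at this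
    have := Finset.card_le_mul_card_image S 2 hfib
    omega

theorem conic_count (l b c J : ℕ) (hl : 1 ≤ l) (hb : 2 ≤ b) (hc : 1 ≤ c)
    (hlc : 2 * l ^ 2 * b ^ 4 ≤ b ^ l * c ^ 6) (S : Finset ℕ)
    (hS : ∀ t ∈ S, 1 ≤ t ∧ t < 2 ^ J ∧ (2 ≤ l ∨ b ≤ t) ∧ ∃ a, 2 ≤ a ∧ E t 2 a l b) :
    S.card ≤ J * (10 * c) := by
  classical
  have hsub : S ⊆ (Finset.range J).biUnion
      (fun i => S.filter (fun t => 2 ^ i ≤ t ∧ t < 2 ^ (i + 1))) := by
    intro t ht
    obtain ⟨h1, h2, -⟩ := hS t ht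
    rw [Finset.mem_biUnion]
    refine ⟨Nat.log 2 t, ?_, ?_⟩
    · rw [Finset.mem_range]
      exact Nat.log_lt_of_lt_pow (by omega) h2
    · rw [Finset.mem_filter]
      exact ⟨ht, Nat.pow_log_le_self 2 (by omega), Nat.lt_pow_succ_log_self (by norm_num) t⟩
  refine (Finset.card_le_card hsub).trans ?_
  have := Finset.card_biUnion_le_card_mul (Finset.range J)
    (fun i => S.filter (fun t => 2 ^ i ≤ t ∧ t < 2 ^ (i + 1))) (10 * c) (by
      intro i _
      apply block_count l b c i hl hb hc hlc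
      intro t ht
      rw [Finset.mem_filter] at ht
      obtain ⟨-, -, h3, h4⟩ := hS t ht.1
      exact ⟨ht.2.1, ht.2.2, h3, h4⟩)
  rwa [Finset.card_range] at this

/-- covering lemma -/
theorem card_le_of_cover (S : Finset ℕ) (R D : ℕ) (P : ℕ → ℕ → Prop)
    (hcov : ∀ t ∈ S, ∃ b, b < R ∧ P b t)
    (hD : ∀ b, b < R → ∀ S' : Finset ℕ, S' ⊆ S → (∀ t ∈ S', P b t) → S'.card ≤ D) :
    S.card ≤ R * D := by
  classical
  have hsub : S ⊆ (Finset.range R).biUnion (fun b => S.filter (fun t => P b t)) := by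
    intro t ht
    obtain ⟨b, hb, hP⟩ := hcov t ht
    rw [Finset.mem_biUnion]
    exact ⟨b, Finset.mem_range.2 hb, Finset.mem_filter.2 ⟨ht, hP⟩⟩
  refine (Finset.card_le_card hsub).trans ?_
  have := Finset.card_biUnion_le_card_mul (Finset.range R)
    (fun b => S.filter (fun t => P b t)) D (by
      intro b hb
      apply hD b (Finset.mem_range.1 hb) _ (Finset.filter_subset _ _)
      intro t ht
      exact (Finset.mem_filter.1 ht).2)
  rwa [Finset.card_range] at this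

end Pool.Agent.V11167.Sig
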