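import Pool.Agent.V11167.SigB
import Pool.Agent.H510R2.Div

/-!
# The divisor argument and the size of the solutions
-/

set_option autoImplicit false

namespace Pool.Agent.V11167.Sig

open Finset

theorem E_unique {t t' k a l b : ℕ} (h : E t k a l b) (h' : E t' k a l b)
    (hpos : 1 ≤ k * a + l * b) : t = t' := by
  unfold E at h h'
  obtain ⟨s, hs⟩ : ∃ s, s = k * a + l * b := ⟨_, rfl⟩
  obtain ⟨P, hP⟩ : ∃ P, P = 2 * a ^ k * b ^ l + (k * a ^ 2 + l * b ^ 2) := ⟨_, rfl⟩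
  have h1 : P + t = (t + s) ^ 2 := by rw [hP, hs]; linarith
  have h2 : P + t' = (t' + s) ^ 2 := by rw [hP, hs]; linarith
  rw [← hs] at hpos
  rcases lt_trichotomy t t' with h3 | h3 | h3
  · nlinarith
  · exact h3
  · nlinarith

/-- the number whose divisors parametrise the solutions with `a` of multiplicity one -/
def Fz (l b : ℕ) : ℤ := (b:ℤ) ^ l * ((b:ℤ) ^ l - 1) - l * b * (b - 1)

theorem Fz_le (l b : ℕ) (hb : 1 ≤ b) : Fz l b ≤ ((b:ℤ) ^ l) ^ 2 := by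
  unfold Fz
  have h1 : (0:ℤ) ≤ (b:ℤ) ^ l := by positivity
  have h2 : (0:ℤ) ≤ l * b * ((b:ℤ) - 1) := by
    have : (0:ℤ) ≤ (b:ℤ) - 1 := by
      have : (1:ℤ) ≤ b := by exact_mod_cast hb
      linarith
    positivity
  nlinarith

theorem div_part {l b t a : ℕ} (hl : 2 ≤ l) (hb : 2 ≤ b) (ht : 1 ≤ t) (ha : 2 ≤ a)
    (h : E t 1 a l b) :
    (0:ℤ) < (b:ℤ) ^ l - t - l * b ∧ 0 < Fz l b ∧ ((b:ℤ) ^ l - t - l * b) ∣ Fz l b := by
  unfold E at h
  have hz : (2 * (a:ℤ) ^ 1 * (b:ℤ) ^ l + t + 1 * (a:ℤ) ^ 2 + l * (b:ℤ) ^ 2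
      = (t + 1 * a + l * b) ^ 2) := by exact_mod_cast h
  have hbZ : (2:ℤ) ≤ b := by exact_mod_cast hb
  have hlZ : (2:ℤ) ≤ l := by exact_mod_cast hl
  have htZ : (1:ℤ) ≤ t := by exact_mod_cast ht
  have haZ : (2:ℤ) ≤ a := by exact_mod_cast ha
  generalize hq : (b:ℤ) ^ l = q at *
  have e1 : 2 * (a:ℤ) * (q - t - l * b) = t * (t - 1) + 2 * (t * (l * b)) + l * (l - 1) * b ^ 2 := by
    linear_combination hz
  have p1 : (0:ℤ) ≤ t * (t - 1) := mul_nonneg (by linarith) (by linarith)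
  have p2 : (0:ℤ) < t * (l * b) := by positivity
  have p3 : (0:ℤ) ≤ l * (l - 1) * b ^ 2 :=
    mul_nonneg (mul_nonneg (by linarith) (by linarith)) (by positivity)
  have hd : 0 < q - t - l * b := by
    have : 0 < 2 * (a:ℤ) * (q - t - l * b) := by rw [e1]; linarith
    exact (mul_pos_iff_of_pos_left (by linarith)).1 this
  have e2 : Fz l b = (q - t - l * b) * (2 * a - (q - t - l * b) + 2 * q - 1) := by
    unfold Fz
    rw [hq]
    linear_combination (-1 : ℤ) * e1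
  have hlb : (0:ℤ) < l * b := by positivity
  refine ⟨hd, ?_, ?_⟩
  · rw [e2]
    apply mul_pos hd
    linarith
  · rw [e2]
    exact dvd_mul_right _ _

theorem div_count (l b : ℕ) (hl : 2 ≤ l) (hb : 2 ≤ b) (S : Finset ℕ)
    (hS : ∀ t ∈ S, 1 ≤ t ∧ ∃ a, 2 ≤ a ∧ E t 1 a l b) (D : ℕ)
    (hD : (Fz l b).toNat ≠ 0 → (Fz l b).toNat.divisors.card ≤ D) : S.card ≤ D := by
  classical
  rcases S.eq_empty_or_nonempty with h | ⟨t0, ht0⟩
  · rw [h]; simp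
  · obtain ⟨h1, a0, h2, h3⟩ := hS t0 ht0
    obtain ⟨_, hF, _⟩ := div_part hl hb h1 h2 h3
    have hF0 : (Fz l b).toNat ≠ 0 := by omega
    refine le_trans ?_ (hD hF0)
    apply Finset.card_le_card_of_injOn (fun t : ℕ => ((b:ℤ) ^ l - (t:ℤ) - l * b).toNat)
    · intro t ht
      obtain ⟨g1, a, g2, g3⟩ := hS t ht
      obtain ⟨p1, p2, p3⟩ := div_part hl hb g1 g2 g3
      simp only [Finset.mem_coe, Nat.mem_divisors]
      refine ⟨?_, hF0⟩
      rw [← Int.natCast_dvd_natCast, Int.toNat_of_nonneg p1.le, Int.toNat_of_nonneg p2.le]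
      exact p3
    · intro t ht t' ht' heq
      obtain ⟨g1, a, g2, g3⟩ := hS t ht
      obtain ⟨p1, -, -⟩ := div_part hl hb g1 g2 g3
      obtain ⟨g1', a', g2', g3'⟩ := hS t' ht'
      obtain ⟨p1', -, -⟩ := div_part hl hb g1' g2' g3'
      simp only at heq
      omega

theorem divisor_bound_nat : ∃ C : ℕ, 1 ≤ C ∧ ∀ n X : ℕ, n ≠ 0 → n ≤ X ^ 16 →
    n.divisors.card ≤ C * X := by
  obtain ⟨C0, hC0, hdiv⟩ := Pool.Agent.H510R2.divisor_bound (1 / 16) (by norm_num)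
  obtain ⟨C, hC⟩ := exists_nat_ge C0
  refine ⟨C + 1, by omega, fun n X hn hX => ?_⟩
  have h1 := hdiv n (Nat.one_le_iff_ne_zero.2 hn)
  have h2 : (n:ℝ) ^ ((1:ℝ) / 16) ≤ X := by
    have : (n:ℝ) ≤ (X:ℝ) ^ (16:ℕ) := by exact_mod_cast hX
    calc (n:ℝ) ^ ((1:ℝ) / 16) ≤ ((X:ℝ) ^ (16:ℕ)) ^ ((1:ℝ) / 16) :=
          Real.rpow_le_rpow (by positivity) this (by norm_num)
      _ = X := by
          rw [← Real.rpow_natCast, ← Real.rpow_mul (by positivity)]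
          norm_num
  have h3 : (n.divisors.card : ℝ) ≤ ((C + 1 : ℕ) : ℝ) * X := by
    push_cast
    calc (n.divisors.card : ℝ) ≤ C0 * (n:ℝ) ^ ((1:ℝ) / 16) := h1
      _ ≤ C0 * X := by gcongr
      _ ≤ (C + 1) * X := by gcongr; linarith
  exact_mod_cast h3

end Pool.Agent.V11167.Sig
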