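import Pool.Agent.V11167.SigC

/-!
# Sizes of the solutions and the count for every type
-/

set_option autoImplicit false

namespace Pool.Agent.V11167.Sig

open Finset

theorem size1 {l b t K : ℕ} (hb : 2 ≤ b) (hl : 3 ≤ l) (hlK : l ≤ K) (hK : 2 ≤ K)
    (ht : t < K ^ 40) (h : 2 * b ^ l ≤ (t + l * b) ^ 2) : b < 2 * K ^ 27 ∧ b ^ l ≤ 2 * K ^ 80 := by
  have ht2 : t ^ 2 ≤ K ^ 80 := by
    calc t ^ 2 ≤ (K ^ 40) ^ 2 := Nat.pow_le_pow_left ht.le 2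
      _ = K ^ 80 := by ring
  have hsq : (t + l * b) ^ 2 ≤ 2 * t ^ 2 + 2 * (l * b) ^ 2 := by
    zify
    nlinarith [sq_nonneg ((t:ℤ) - l * b)]
  have e : b ^ l = b ^ (l - 2) * b ^ 2 := by
    rw [← pow_add]; congr 1; omega
  rcases le_or_gt (2 * (l * b) ^ 2) (b ^ l) with h1 | h1
  · have h2 : b ^ l ≤ 2 * K ^ 80 := by omega
    refine ⟨?_, h2⟩
    have h3 : b ^ 3 ≤ b ^ l := Nat.pow_le_pow_right (by omega) hl
    by_contra hcon
    push Not at hcon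
    have h4 : (2 * K ^ 27) ^ 3 ≤ b ^ 3 := Nat.pow_le_pow_left hcon 3
    have e3 : (2 * K ^ 27) ^ 3 = 8 * K ^ 81 := by ring
    have h5 : K ^ 80 ≤ K ^ 81 := Nat.pow_le_pow_right (by omega) (by norm_num)
    have h6 : 0 < K ^ 80 := by positivity
    omega
  · have h2 : b ^ (l - 2) < 2 * l ^ 2 := by
      by_contra hcon
      push Not at hcon
      have h7 : 2 * l ^ 2 * b ^ 2 ≤ b ^ (l - 2) * b ^ 2 := Nat.mul_le_mul_right _ hcon
      have h8 : 2 * (l * b) ^ 2 = 2 * l ^ 2 * b ^ 2 := by ring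
      omega
    have h3 : b ≤ b ^ (l - 2) := by
      calc b = b ^ 1 := (pow_one b).symm
        _ ≤ b ^ (l - 2) := Nat.pow_le_pow_right (by omega) (by omega)
    have h4 : l ^ 2 ≤ K ^ 2 := Nat.pow_le_pow_left hlK 2
    have h5 : b < 2 * K ^ 2 := by omega
    constructor
    · have : K ^ 2 ≤ K ^ 27 := Nat.pow_le_pow_right (by omega) (by norm_num)
      omega
    · have h6 : b ^ 2 ≤ (2 * K ^ 2) ^ 2 := Nat.pow_le_pow_left h5.le 2
      have h7 : b ^ l ≤ 2 * K ^ 2 * (2 * K ^ 2) ^ 2 := by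
        rw [e]; exact Nat.mul_le_mul (by omega) h6
      have e8 : 2 * K ^ 2 * (2 * K ^ 2) ^ 2 = 8 * K ^ 6 := by ring
      have h9 : 4 * K ^ 6 ≤ K ^ 80 := by
        calc 4 * K ^ 6 = 2 ^ 2 * K ^ 6 := by norm_num
          _ ≤ K ^ 2 * K ^ 6 := Nat.mul_le_mul_right _ (Nat.pow_le_pow_left hK 2)
          _ = K ^ 8 := by ring
          _ ≤ K ^ 80 := Nat.pow_le_pow_right (by omega) (by norm_num)
      omega

theorem s2 {l b t a : ℕ} (h : E t 0 a l b) : 2 * b ^ l ≤ (t + l * b) ^ 2 := by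
  unfold E at h
  simp at h
  omega

theorem s3 {l b t a : ℕ} (hb : 2 ≤ b) (hl : 2 ≤ l) (ht : 1 ≤ t) (ha : 2 ≤ a)
    (h : E t 1 a l b) : 2 * b ^ l ≤ (t + l * b) ^ 2 := by
  unfold E at h
  have hlb : 4 ≤ l * b := by nlinarith
  generalize hq : b ^ l = q at *
  obtain ⟨s, hs⟩ : ∃ s, s = t + l * b := ⟨_, rfl⟩
  have hs4 : 4 ≤ s := by omega
  have e1 : 2 * a * q + (t + l * b ^ 2) = s ^ 2 + 2 * a * s := by
    rw [hs]; nlinarith
  rw [← hs]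
  rcases le_or_gt (2 * s) q with h1 | h1
  · have h2 : a * (2 * s) ≤ a * q := Nat.mul_le_mul_left _ h1
    have h3 : a * q ≤ s ^ 2 := by nlinarith
    have h4 : 2 * q ≤ a * q := Nat.mul_le_mul_right _ ha
    omega
  · nlinarith

theorem s4 {l b t a : ℕ} (hb : 2 ≤ b) (hl : 3 ≤ l) (ha : 2 ≤ a)
    (h : E t 2 a l b) : 2 * b ^ l ≤ (t + l * b) ^ 2 := by
  unfold E at h
  have hq8 : 8 ≤ b ^ l := by
    calc 8 = 2 ^ 3 := by norm_num
      _ ≤ b ^ 3 := Nat.pow_le_pow_left hb 3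
      _ ≤ b ^ l := Nat.pow_le_pow_right (by omega) hl
  generalize hq : b ^ l = q at *
  obtain ⟨s, hs⟩ : ∃ s, s = t + l * b := ⟨_, rfl⟩
  obtain ⟨A, hA⟩ : ∃ A, A = a ^ 2 := ⟨_, rfl⟩
  have hA4 : 4 ≤ A := by rw [hA]; nlinarith
  rw [← hs]
  have e1 : 2 * A * q + t + 2 * A + l * b ^ 2 = (s + 2 * a) ^ 2 := by
    rw [hA, hs, h]; ring
  have e2 : (s + 2 * a) ^ 2 ≤ 2 * s ^ 2 + 8 * A := by
    rw [hA]; zify; nlinarith [sq_nonneg ((s:ℤ) - 2 * a)]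
  have e3 : A * q ≤ s ^ 2 + 3 * A := by
    have : 2 * A * q = 2 * (A * q) := by ring
    omega
  zify at *
  nlinarith [mul_nonneg (show (0:ℤ) ≤ (A:ℤ) - 4 by linarith) (show (0:ℤ) ≤ (q:ℤ) - 3 by linarith)]

theorem s5 {b t a K : ℕ} (hb : 2 ≤ b) (hba : b ≤ a) (hK : 2 ≤ K) (ht : t < K ^ 40)
    (h : E t 2 a 2 b) : b < 2 * K ^ 20 := by
  unfold E at h
  rcases Nat.lt_or_ge b 6 with h6 | h6
  · have : 2 ^ 20 ≤ K ^ 20 := Nat.pow_le_pow_left hK 20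
    norm_num at this
    omega
  · obtain ⟨s, hs⟩ : ∃ s, s = t + 2 * b := ⟨_, rfl⟩
    obtain ⟨A, hA⟩ : ∃ A, A = a ^ 2 := ⟨_, rfl⟩
    obtain ⟨B, hB⟩ : ∃ B, B = b ^ 2 := ⟨_, rfl⟩
    have hB36 : 36 ≤ B := by rw [hB]; nlinarith
    have hBA : B ≤ A := by rw [hA, hB]; exact Nat.pow_le_pow_left hba 2
    have e1 : 2 * A * B + t + 2 * A + 2 * B = (s + 2 * a) ^ 2 := by
      rw [hA, hB, hs, h]; ring
    have e2 : (s + 2 * a) ^ 2 ≤ 2 * s ^ 2 + 8 * A := by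
      rw [hA]; zify; nlinarith [sq_nonneg ((s:ℤ) - 2 * a)]
    have e3 : A * B ≤ s ^ 2 + 3 * A := by
      have : 2 * A * B = 2 * (A * B) := by ring
      omega
    have e4 : 36 * A ≤ A * B := by nlinarith
    have e5 : s ^ 2 ≤ 2 * t ^ 2 + 8 * B := by
      rw [hs, hB]; zify; nlinarith [sq_nonneg ((t:ℤ) - 2 * b)]
    have e6 : B * B ≤ A * B := Nat.mul_le_mul_right _ hBA
    have e7 : 36 * B ≤ B * B := Nat.mul_le_mul_right _ hB36
    have ht2 : t ^ 2 ≤ K ^ 80 := by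
      calc t ^ 2 ≤ (K ^ 40) ^ 2 := Nat.pow_le_pow_left ht.le 2
        _ = K ^ 80 := by ring
    have hpos : 0 < K ^ 80 := by positivity
    by_contra hcon
    push Not at hcon
    have h4 : (2 * K ^ 20) ^ 4 ≤ b ^ 4 := Nat.pow_le_pow_left hcon 4
    have e8 : (2 * K ^ 20) ^ 4 = 16 * K ^ 80 := by ring
    have e9 : b ^ 4 = B * B := by rw [hB]; ring
    omega

theorem s6 {b t a K : ℕ} (hb : 2 ≤ b) (hK : 2 ≤ K) (ht : t < K ^ 40) (ha : K ^ 18 ≤ a)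
    (h : E t 1 a 2 b) : b < 2 * K ^ 31 := by
  unfold E at h
  have hK18 : 2 ^ 18 ≤ K ^ 18 := Nat.pow_le_pow_left hK 18
  norm_num at hK18
  have hK31 : 2 ^ 31 ≤ K ^ 31 := Nat.pow_le_pow_left hK 31
  norm_num at hK31
  obtain ⟨s, hs⟩ : ∃ s, s = t + 2 * b := ⟨_, rfl⟩
  obtain ⟨B, hB⟩ : ∃ B, B = b ^ 2 := ⟨_, rfl⟩
  have e1 : 2 * (a * B) + (t + 2 * B) = s ^ 2 + 2 * (a * s) := by
    rw [hs, hB]; nlinarith
  have e5 : s ^ 2 ≤ 2 * t ^ 2 + 8 * B := by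
    rw [hs, hB]; zify; nlinarith [sq_nonneg ((t:ℤ) - 2 * b)]
  have ht2 : t ^ 2 < K ^ 80 := by
    calc t ^ 2 < (K ^ 40) ^ 2 := Nat.pow_lt_pow_left ht (by norm_num)
      _ = K ^ 80 := by ring
  by_contra hcon
  push Not at hcon
  have h4 : (2 * K ^ 31) ^ 2 ≤ B := by rw [hB]; exact Nat.pow_le_pow_left hcon 2
  have e8 : (2 * K ^ 31) ^ 2 = 4 * K ^ 62 := by ring
  rw [e8] at h4
  rcases le_or_gt (2 * s) B with h1 | h1
  · have h2 : a * (2 * s) ≤ a * B := Nat.mul_le_mul_left _ h1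
    have h3 : a * B ≤ 2 * t ^ 2 + 8 * B := by
      have : a * (2 * s) = 2 * (a * s) := by ring
      omega
    have h5 : K ^ 18 * B ≤ a * B := Nat.mul_le_mul_right _ ha
    have h6 : 262144 * B ≤ K ^ 18 * B := Nat.mul_le_mul_right _ hK18
    have h7 : K ^ 18 * (4 * K ^ 62) ≤ K ^ 18 * B := Nat.mul_le_mul_left _ h4
    have e9 : K ^ 18 * (4 * K ^ 62) = 4 * K ^ 80 := by ring
    omega
  · -- B < 2 t + 4 b
    have h8 : 8 * b ≤ B := by
      rw [hB]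
      have : 8 ≤ b := by omega
      nlinarith
    have h9 : K ^ 40 ≤ K ^ 62 := Nat.pow_le_pow_right (by omega) (by norm_num)
    omega

theorem s7 {k l a b t K : ℕ} (hk : 3 ≤ k) (hl : 3 ≤ l) (ha : 2 ≤ a) (hb : 2 ≤ b)
    (hm : k + l ≤ K) (hK : 2 ≤ K) (ht : t < K ^ 40) (h : E t k a l b) : a * b < 2 * K ^ 27 := by
  unfold E at h
  obtain ⟨u, hu⟩ : ∃ u, u = a * b := ⟨_, rfl⟩
  have hau : a ≤ u := by rw [hu]; nlinarith
  have hbu : b ≤ u := by rw [hu]; nlinarith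
  have h1 : k * a + l * b ≤ K * u := by
    calc k * a + l * b ≤ k * u + l * u := by gcongr
      _ = (k + l) * u := by ring
      _ ≤ K * u := Nat.mul_le_mul_right _ hm
  have h2 : u ^ 3 ≤ a ^ k * b ^ l := by
    rw [hu, mul_pow]
    exact Nat.mul_le_mul (Nat.pow_le_pow_right (by omega) hk) (Nat.pow_le_pow_right (by omega) hl)
  have h3 : 2 * (a ^ k * b ^ l) ≤ (t + K * u) ^ 2 := by
    have : (t + k * a + l * b) ^ 2 ≤ (t + K * u) ^ 2 := Nat.pow_le_pow_left (by omega) 2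
    have e : 2 * (a ^ k * b ^ l) = 2 * a ^ k * b ^ l := by ring
    omega
  have h4 : (t + K * u) ^ 2 ≤ 2 * t ^ 2 + 2 * (K * u) ^ 2 := by
    zify; nlinarith [sq_nonneg ((t:ℤ) - K * u)]
  have ht2 : t ^ 2 < K ^ 80 := by
    calc t ^ 2 < (K ^ 40) ^ 2 := Nat.pow_lt_pow_left ht (by norm_num)
      _ = K ^ 80 := by ring
  rw [← hu]
  rcases le_or_gt (2 * K ^ 2) u with h5 | h5
  · have h6 : 2 * (K * u) ^ 2 ≤ u ^ 3 := by
      calc 2 * (K * u) ^ 2 = 2 * K ^ 2 * u ^ 2 := by ring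
        _ ≤ u * u ^ 2 := Nat.mul_le_mul_right _ h5
        _ = u ^ 3 := by ring
    by_contra hcon
    push Not at hcon
    have h7 : (2 * K ^ 27) ^ 3 ≤ u ^ 3 := Nat.pow_le_pow_left hcon 3
    have e3 : (2 * K ^ 27) ^ 3 = 8 * K ^ 81 := by ring
    have h8 : K ^ 80 ≤ K ^ 81 := Nat.pow_le_pow_right (by omega) (by norm_num)
    omega
  · have : K ^ 2 ≤ K ^ 27 := Nat.pow_le_pow_right (by omega) (by norm_num)
    omega

/-- `k + l` is logarithmic in `t` -/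
theorem m_bound {t k a l b : ℕ} (ht : 1 ≤ t) (ha : 2 ≤ a) (hb : 2 ≤ b) (h : E t k a l b) :
    2 * 2 ^ (k + l) ≤ (t + 2 * (k + l)) ^ 2 := by
  unfold E at h
  have hR : (2 * (a:ℝ) ^ k * (b:ℝ) ^ l + t + k * (a:ℝ) ^ 2 + l * (b:ℝ) ^ 2
      = (t + k * a + l * b) ^ 2) := by exact_mod_cast h
  have haR : (2:ℝ) ≤ a := by exact_mod_cast ha
  have hbR : (2:ℝ) ≤ b := by exact_mod_cast hb
  have htR : (1:ℝ) ≤ t := by exact_mod_cast ht
  obtain ⟨α, hα⟩ : ∃ α : ℝ, (a:ℝ) = 2 * α := ⟨a / 2, by ring⟩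
  obtain ⟨β, hβ⟩ : ∃ β : ℝ, (b:ℝ) = 2 * β := ⟨b / 2, by ring⟩
  rw [hα, hβ] at hR
  have hα1 : 1 ≤ α := by linarith
  have hβ1 : 1 ≤ β := by linarith
  have hαk : 1 ≤ α ^ k := one_le_pow₀ hα1
  have hβl : 1 ≤ β ^ l := one_le_pow₀ hβ1
  obtain ⟨Q, hQ⟩ : ∃ Q : ℝ, Q = α ^ k * β ^ l := ⟨_, rfl⟩
  have hαQ : α ^ k ≤ Q := by rw [hQ]; exact le_mul_of_one_le_right (by linarith) hβl
  have hβQ : β ^ l ≤ Q := by rw [hQ]; exact le_mul_of_one_le_left (by linarith) hαk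
  have hQ1 : 1 ≤ Q := hαk.trans hαQ
  -- the individual terms
  have c1 : (k:ℝ) * α ≤ k * Q := by
    rcases Nat.eq_zero_or_pos k with hk | hk
    · rw [hk]; simp
    · have : α ≤ α ^ k := by
        calc α = α ^ 1 := (pow_one α).symm
          _ ≤ α ^ k := pow_le_pow_right₀ hα1 hk
      gcongr
      exact this.trans hαQ
  have c2 : (l:ℝ) * β ≤ l * Q := by
    rcases Nat.eq_zero_or_pos l with hl | hl
    · rw [hl]; simp
    · have : β ≤ β ^ l := by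
        calc β = β ^ 1 := (pow_one β).symm
          _ ≤ β ^ l := pow_le_pow_right₀ hβ1 hl
      gcongr
      exact this.trans hβQ
  have c3 : ((k:ℝ) * (k - 1)) * α ^ 2 ≤ ((k:ℝ) * (k - 1)) * Q := by
    rcases Nat.lt_or_ge k 2 with hk | hk
    · interval_cases k <;> simp
    · have : α ^ 2 ≤ α ^ k := pow_le_pow_right₀ hα1 hk
      have hk' : (2:ℝ) ≤ k := by exact_mod_cast hk
      apply mul_le_mul_of_nonneg_left (this.trans hαQ)
      apply mul_nonneg <;> linarith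
  have c4 : ((l:ℝ) * (l - 1)) * β ^ 2 ≤ ((l:ℝ) * (l - 1)) * Q := by
    rcases Nat.lt_or_ge l 2 with hl | hl
    · interval_cases l <;> simp
    · have : β ^ 2 ≤ β ^ l := pow_le_pow_right₀ hβ1 hl
      have hl' : (2:ℝ) ≤ l := by exact_mod_cast hl
      apply mul_le_mul_of_nonneg_left (this.trans hβQ)
      apply mul_nonneg <;> linarith
  have c5 : ((k:ℝ) * l) * (α * β) ≤ ((k:ℝ) * l) * Q := by
    rcases Nat.eq_zero_or_pos k with hk | hk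
    · rw [hk]; simp
    · rcases Nat.eq_zero_or_pos l with hl | hl
      · rw [hl]; simp
      · have h1 : α ≤ α ^ k := by
          calc α = α ^ 1 := (pow_one α).symm
            _ ≤ α ^ k := pow_le_pow_right₀ hα1 hk
        have h2 : β ≤ β ^ l := by
          calc β = β ^ 1 := (pow_one β).symm
            _ ≤ β ^ l := pow_le_pow_right₀ hβ1 hl
        apply mul_le_mul_of_nonneg_left _ (by positivity)
        rw [hQ]
        gcongr
  have c6 : (t:ℝ) * (t - 1) ≤ (t:ℝ) * (t - 1) * Q := by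
    apply le_mul_of_one_le_right _ hQ1
    apply mul_nonneg <;> linarith
  have e : 2 * (2:ℝ) ^ (k + l) * Q = t * (t - 1) + 4 * t * (k * α) + 4 * t * (l * β)
      + 4 * (((k:ℝ) * (k - 1)) * α ^ 2) + 4 * (((l:ℝ) * (l - 1)) * β ^ 2)
      + 8 * (((k:ℝ) * l) * (α * β)) := by
    rw [mul_pow, mul_pow] at hR
    rw [hQ, pow_add]
    linear_combination hR
  have e2 : 2 * (2:ℝ) ^ (k + l) * Q ≤ ((t:ℝ) + 2 * (k + l)) ^ 2 * Q := by
    rw [e]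
    have d1 : 4 * (t:ℝ) * (k * α) ≤ 4 * t * (k * Q) := by gcongr
    have d2 : 4 * (t:ℝ) * (l * β) ≤ 4 * t * (l * Q) := by gcongr
    have e3 : ((t:ℝ) + 2 * (k + l)) ^ 2 * Q = (t:ℝ) * (t - 1) * Q + 4 * t * (k * Q)
        + 4 * t * (l * Q) + 4 * (((k:ℝ) * (k - 1)) * Q) + 4 * (((l:ℝ) * (l - 1)) * Q)
        + 8 * (((k:ℝ) * l) * Q) + (t + 4 * k + 4 * l) * Q := by ring
    have d3 : 0 ≤ ((t:ℝ) + 4 * k + 4 * l) * Q := by positivity
    rw [e3]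
    linarith
  have e4 : 2 * (2:ℝ) ^ (k + l) ≤ ((t:ℝ) + 2 * (k + l)) ^ 2 :=
    le_of_mul_le_mul_right e2 (by linarith)
  exact_mod_cast e4

end Pool.Agent.V11167.Sig
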