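import Mathlib

/-!
# Solutions of `σ₂ = σₙ` and the minimal number of distinct entries
-/

set_option autoImplicit false

namespace Pool.Agent.V11167.Sig

/-- The second elementary symmetric polynomial `σ₂(x) = ∑_{i < j} x_i x_j`. -/
def sigma2 {n : ℕ} (x : Fin n → ℕ) : ℕ := ∑ i, ∑ j ∈ Finset.Ioi i, x i * x j

/-- The `n`-th elementary symmetric polynomial of an `n`-tuple: the product of all entries. -/
def sigmaN {n : ℕ} (x : Fin n → ℕ) : ℕ := ∏ i, x i

/-- `S(n)`: the `n`-tuples of positive integers `x_1 ≤ ... ≤ x_n` with `σ₂ = σₙ`. -/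
def Sol (n : ℕ) : Set (Fin n → ℕ) := {x | (∀ i, 0 < x i) ∧ Monotone x ∧ sigma2 x = sigmaN x}

/-- The number of distinct entries of a tuple. -/
def distinct {n : ℕ} (x : Fin n → ℕ) : ℕ := (Finset.univ.image x).card

/-- `M(n)`: the minimal number of distinct entries of a tuple in `S(n)`. -/
noncomputable def M (n : ℕ) : ℕ := sInf {m | ∃ x ∈ Sol n, distinct x = m}

end Pool.Agent.V11167.Sig
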