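import Pool.Agent.V11167.SigD

/-!
# The number of `t` for every type, and the total count
-/

set_option autoImplicit false

namespace Pool.Agent.V11167.Sig

open Finset

theorem cnt0 (l K : ℕ) (hl : 3 ≤ l) (hlK : l ≤ K) (hK : 2 ≤ K) (S : Finset ℕ)
    (hS : ∀ t ∈ S, 1 ≤ t ∧ t < K ^ 40 ∧ ∃ a b, 2 ≤ a ∧ 2 ≤ b ∧ E t 0 a l b) :
    S.card ≤ 2 * K ^ 27 * 1 := by
  apply card_le_of_cover S (2 * K ^ 27) 1 (fun b t => 2 ≤ b ∧ ∃ a, E t 0 a l b)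
  · intro t ht
    obtain ⟨h1, h2, a, b, ha, hb, h⟩ := hS t ht
    exact ⟨b, (size1 hb hl hlK hK h2 (s2 h)).1, hb, a, h⟩
  · intro b _ S' _ hP
    rw [Finset.card_le_one]
    intro x hx y hy
    obtain ⟨hb2, a, h1⟩ := hP x hx
    obtain ⟨-, a', h2⟩ := hP y hy
    have h3 : E y 0 a l b := by
      unfold E at h2 ⊢
      simpa using h2
    apply E_unique h1 h3
    have : 1 ≤ l * b := Nat.mul_pos (by omega) (by omega)
    omega

theorem cnt1 (C : ℕ) (hC : ∀ n X : ℕ, n ≠ 0 → n ≤ X ^ 16 → n.divisors.card ≤ C * X)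
    (l K : ℕ) (hl : 3 ≤ l) (hlK : l ≤ K) (hK : 2 ≤ K) (S : Finset ℕ)
    (hS : ∀ t ∈ S, 1 ≤ t ∧ t < K ^ 40 ∧ ∃ a b, 2 ≤ a ∧ 2 ≤ b ∧ E t 1 a l b) :
    S.card ≤ 2 * K ^ 27 * (C * (2 * K ^ 10)) := by
  apply card_le_of_cover S (2 * K ^ 27) _
    (fun b t => 2 ≤ b ∧ b ^ l ≤ 2 * K ^ 80 ∧ ∃ a, 2 ≤ a ∧ E t 1 a l b)
  · intro t ht
    obtain ⟨h1, h2, a, b, ha, hb, h⟩ := hS t ht
    obtain ⟨g1, g2⟩ := size1 hb hl hlK hK h2 (s3 hb (by omega) h1 ha h)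
    exact ⟨b, g1, hb, g2, a, ha, h⟩
  · intro b _ S' hS' hP
    rcases S'.eq_empty_or_nonempty with h | ⟨t0, ht0⟩
    · rw [h]; simp
    obtain ⟨hb2, hbl, -⟩ := hP t0 ht0
    apply div_count l b (by omega) hb2 S'
    · intro t ht
      exact ⟨(hS t (hS' ht)).1, (hP t ht).2.2⟩
    · intro h0
      apply hC _ _ h0
      have h1 := Fz_le l b (by omega)
      have h2 : (b ^ l) ^ 2 ≤ (2 * K ^ 80) ^ 2 := Nat.pow_le_pow_left hbl 2
      have h3 : (2 * K ^ 80) ^ 2 ≤ (2 * K ^ 10) ^ 16 := by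
        calc (2 * K ^ 80) ^ 2 = 4 * K ^ 160 := by ring
          _ ≤ 65536 * K ^ 160 := Nat.mul_le_mul_right _ (by norm_num)
          _ = (2 * K ^ 10) ^ 16 := by ring
      have h4 : ((b:ℤ) ^ l) ^ 2 = (((b ^ l) ^ 2 : ℕ) : ℤ) := by push_cast; ring
      rw [h4] at h1
      omega

theorem cnt12 (C : ℕ) (hC : ∀ n X : ℕ, n ≠ 0 → n ≤ X ^ 16 → n.divisors.card ≤ C * X)
    (j K : ℕ) (hKj : K = 2 ^ j) (hK : 2 ≤ K) (S : Finset ℕ)
    (hS : ∀ t ∈ S, 1 ≤ t ∧ t < K ^ 40 ∧ ∃ a b, 2 ≤ a ∧ 2 ≤ b ∧ E t 1 a 2 b) :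
    S.card ≤ K ^ 18 + K ^ 18 * (40 * j * (10 * (2 * K ^ 9))) + 2 * K ^ 31 * (C * K ^ 8) := by
  classical
  have hpow : K ^ 40 = 2 ^ (40 * j) := by rw [hKj, ← pow_mul, mul_comm]
  have h0 : (S.filter (fun t => t < K ^ 18)).card ≤ K ^ 18 := by
    have hsub : S.filter (fun t => t < K ^ 18) ⊆ Finset.range (K ^ 18) := by
      intro t ht
      exact Finset.mem_range.2 (Finset.mem_filter.1 ht).2
    have := Finset.card_le_card hsub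
    rwa [Finset.card_range] at this
  have h1 : (S.filter (fun t => K ^ 18 ≤ t ∧ ∃ a b, a < K ^ 18 ∧ 2 ≤ a ∧ 2 ≤ b ∧ E t 1 a 2 b)).card
      ≤ K ^ 18 * (40 * j * (10 * (2 * K ^ 9))) := by
    apply card_le_of_cover _ _ _ (fun a t => 2 ≤ a ∧ K ^ 18 ≤ t ∧ t < K ^ 40 ∧ ∃ b, 2 ≤ b ∧ E t 1 a 2 b)
    · intro t ht
      obtain ⟨g1, g2, a, b, g3, g4, g5, g6⟩ := Finset.mem_filter.1 ht
      exact ⟨a, g3, g4, g2, (hS t g1).2.1, b, g5, g6⟩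
    · intro a haK S' _ hP
      rcases S'.eq_empty_or_nonempty with h | ⟨t0, ht0⟩
      · rw [h]; simp
      have ha2 := (hP t0 ht0).1
      apply conic_count 1 a (2 * K ^ 9) (40 * j) le_rfl ha2
      · have : 0 < K ^ 9 := by positivity
        omega
      · have e1 : a ^ 1 * (2 * K ^ 9) ^ 6 = 64 * (a * (K ^ 18) ^ 3) := by ring
        rw [e1]
        have h2 : a ^ 3 ≤ (K ^ 18) ^ 3 := Nat.pow_le_pow_left haK.le 3
        have h3 : a * a ^ 3 ≤ a * (K ^ 18) ^ 3 := Nat.mul_le_mul_left _ h2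
        have e4 : a ^ 4 = a * a ^ 3 := by ring
        have e5 : 2 * 1 ^ 2 * a ^ 4 = 2 * (a * a ^ 3) := by rw [e4]; ring
        rw [e5]
        omega
      · intro t ht
        obtain ⟨g1, g2, g3, b, g4, g5⟩ := hP t ht
        have : 0 < K ^ 18 := by positivity
        refine ⟨by omega, by rw [← hpow]; exact g3, Or.inr (by omega), b, g4, ?_⟩
        exact g5.symm
  have h2 : (S.filter (fun t => ∃ a b, K ^ 18 ≤ a ∧ 2 ≤ a ∧ 2 ≤ b ∧ E t 1 a 2 b)).card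
      ≤ 2 * K ^ 31 * (C * K ^ 8) := by
    apply card_le_of_cover _ _ _ (fun b t => 2 ≤ b ∧ 1 ≤ t ∧ ∃ a, 2 ≤ a ∧ E t 1 a 2 b)
    · intro t ht
      obtain ⟨g1, a, b, g3, g4, g5, g6⟩ := Finset.mem_filter.1 ht
      exact ⟨b, s6 g5 hK (hS t g1).2.1 g3 g6, g5, (hS t g1).1, a, g4, g6⟩
    · intro b hbK S' _ hP
      rcases S'.eq_empty_or_nonempty with h | ⟨t0, ht0⟩
      · rw [h]; simp
      have hb2 := (hP t0 ht0).1
      apply div_count 2 b le_rfl hb2 S'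
      · intro t ht
        exact (hP t ht).2
      · intro h0
        apply hC _ _ h0
        have h1 := Fz_le 2 b (by omega)
        have h2 : (b ^ 2) ^ 2 ≤ ((2 * K ^ 31) ^ 2) ^ 2 :=
          Nat.pow_le_pow_left (Nat.pow_le_pow_left hbK.le 2) 2
        have h3 : ((2 * K ^ 31) ^ 2) ^ 2 ≤ (K ^ 8) ^ 16 := by
          calc ((2 * K ^ 31) ^ 2) ^ 2 = 2 ^ 4 * K ^ 124 := by ring
            _ ≤ K ^ 4 * K ^ 124 := Nat.mul_le_mul_right _ (Nat.pow_le_pow_left hK 4)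
            _ = (K ^ 8) ^ 16 := by ring
        have h4 : ((b:ℤ) ^ 2) ^ 2 = (((b ^ 2) ^ 2 : ℕ) : ℤ) := by push_cast; ring
        rw [h4] at h1
        omega
  have hsub : S ⊆ (S.filter (fun t => t < K ^ 18) ∪
      S.filter (fun t => K ^ 18 ≤ t ∧ ∃ a b, a < K ^ 18 ∧ 2 ≤ a ∧ 2 ≤ b ∧ E t 1 a 2 b)) ∪
      S.filter (fun t => ∃ a b, K ^ 18 ≤ a ∧ 2 ≤ a ∧ 2 ≤ b ∧ E t 1 a 2 b) := by
    intro t ht
    obtain ⟨g1, g2, a, b, ha, hb, h⟩ := hS t ht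
    rw [Finset.mem_union, Finset.mem_union]
    rcases Nat.lt_or_ge t (K ^ 18) with c1 | c1
    · left; left; exact Finset.mem_filter.2 ⟨ht, c1⟩
    · rcases Nat.lt_or_ge a (K ^ 18) with c2 | c2
      · left; right; exact Finset.mem_filter.2 ⟨ht, c1, a, b, c2, ha, hb, h⟩
      · right; exact Finset.mem_filter.2 ⟨ht, a, b, c2, ha, hb, h⟩
  have := Finset.card_le_card hsub
  have u1 := Finset.card_union_le (S.filter (fun t => t < K ^ 18) ∪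
      S.filter (fun t => K ^ 18 ≤ t ∧ ∃ a b, a < K ^ 18 ∧ 2 ≤ a ∧ 2 ≤ b ∧ E t 1 a 2 b))
      (S.filter (fun t => ∃ a b, K ^ 18 ≤ a ∧ 2 ≤ a ∧ 2 ≤ b ∧ E t 1 a 2 b))
  have u2 := Finset.card_union_le (S.filter (fun t => t < K ^ 18))
      (S.filter (fun t => K ^ 18 ≤ t ∧ ∃ a b, a < K ^ 18 ∧ 2 ≤ a ∧ 2 ≤ b ∧ E t 1 a 2 b))
  omega

theorem cnt2 (l j K : ℕ) (hKj : K = 2 ^ j) (hl : 2 ≤ l) (hlK : l ≤ K) (hK : 2 ≤ K) (S : Finset ℕ)
    (hS : ∀ t ∈ S, 1 ≤ t ∧ t < K ^ 40 ∧ ∃ a b, 2 ≤ a ∧ 2 ≤ b ∧ E t 2 a l b) :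
    S.card ≤ 2 * K ^ 27 * (40 * j * (10 * (2 * K ^ 7))) := by
  have hpow : K ^ 40 = 2 ^ (40 * j) := by rw [hKj, ← pow_mul, mul_comm]
  apply card_le_of_cover S (2 * K ^ 27) _
    (fun b t => 2 ≤ b ∧ 2 * l ^ 2 * b ^ 4 ≤ b ^ l * (2 * K ^ 7) ^ 6 ∧ 1 ≤ t ∧ t < K ^ 40 ∧
      ∃ a, 2 ≤ a ∧ E t 2 a l b)
  · intro t ht
    obtain ⟨h1, h2, a, b, ha, hb, h⟩ := hS t ht
    rcases Nat.lt_or_ge l 3 with c | c
    · have hl2 : l = 2 := by omega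
      subst hl2
      have key : ∀ a b, 2 ≤ a → 2 ≤ b → b ≤ a → E t 2 a 2 b →
          ∃ b, b < 2 * K ^ 27 ∧ (2 ≤ b ∧ 2 * 2 ^ 2 * b ^ 4 ≤ b ^ 2 * (2 * K ^ 7) ^ 6 ∧ 1 ≤ t ∧
            t < K ^ 40 ∧ ∃ a, 2 ≤ a ∧ E t 2 a 2 b) := by
        intro a b ha hb hba h
        have hb20 := s5 hb hba hK h2 h
        have hK27 : K ^ 20 ≤ K ^ 27 := Nat.pow_le_pow_right (by omega) (by norm_num)
        refine ⟨b, by omega, hb, ?_, h1, h2, a, ha, h⟩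
        have g1 : b ^ 2 ≤ (2 * K ^ 20) ^ 2 := Nat.pow_le_pow_left hb20.le 2
        have g2 : b ^ 2 * b ^ 2 ≤ b ^ 2 * (2 * K ^ 20) ^ 2 := Nat.mul_le_mul_left _ g1
        have g3 : b ^ 2 * (8 * (2 * K ^ 20) ^ 2) ≤ b ^ 2 * (2 * K ^ 7) ^ 6 := by
          apply Nat.mul_le_mul_left
          calc 8 * (2 * K ^ 20) ^ 2 = 32 * K ^ 40 := by ring
            _ ≤ 64 * K ^ 42 := Nat.mul_le_mul (by norm_num)
                (Nat.pow_le_pow_right (by omega) (by norm_num))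
            _ = (2 * K ^ 7) ^ 6 := by ring
        have e1 : 2 * 2 ^ 2 * b ^ 4 = 8 * (b ^ 2 * b ^ 2) := by ring
        have e2 : b ^ 2 * (8 * (2 * K ^ 20) ^ 2) = 8 * (b ^ 2 * (2 * K ^ 20) ^ 2) := by ring
        omega
      rcases le_total b a with c1 | c1
      · exact key a b ha hb c1 h
      · exact key b a hb ha c1 h.symm
    · obtain ⟨g1, g2⟩ := size1 hb c hlK hK h2 (s4 hb c ha h)
      refine ⟨b, g1, hb, ?_, h1, h2, a, ha, h⟩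
      have e6 : (2 * K ^ 7) ^ 6 = 64 * K ^ 42 := by ring
      rcases Nat.lt_or_ge l 4 with c4 | c4
      · have hl3 : l = 3 := by omega
        subst hl3
        have g3 : 18 * b ≤ 64 * K ^ 42 := by
          have : K ^ 27 ≤ K ^ 42 := Nat.pow_le_pow_right (by omega) (by norm_num)
          omega
        calc 2 * 3 ^ 2 * b ^ 4 = b ^ 3 * (18 * b) := by ring
          _ ≤ b ^ 3 * (64 * K ^ 42) := Nat.mul_le_mul_left _ g3
          _ = b ^ 3 * (2 * K ^ 7) ^ 6 := by ring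
      · have g3 : 2 * l ^ 2 ≤ (2 * K ^ 7) ^ 6 := by
          rw [e6]
          have g4 : l ^ 2 ≤ K ^ 2 := Nat.pow_le_pow_left hlK 2
          have g5 : K ^ 2 ≤ K ^ 42 := Nat.pow_le_pow_right (by omega) (by norm_num)
          omega
        have g4 : b ^ 4 ≤ b ^ l := Nat.pow_le_pow_right (by omega) c4
        calc 2 * l ^ 2 * b ^ 4 ≤ (2 * K ^ 7) ^ 6 * b ^ l := Nat.mul_le_mul g3 g4
          _ = b ^ l * (2 * K ^ 7) ^ 6 := by ring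
  · intro b _ S' _ hP
    rcases S'.eq_empty_or_nonempty with h | ⟨t0, ht0⟩
    · rw [h]; simp
    obtain ⟨hb2, hc6, -⟩ := hP t0 ht0
    apply conic_count l b (2 * K ^ 7) (40 * j) (by omega) hb2 _ hc6
    · intro t ht
      obtain ⟨-, -, g1, g2, g3⟩ := hP t ht
      exact ⟨g1, by rw [← hpow]; exact g2, Or.inl hl, g3⟩
    · have : 0 < K ^ 7 := by positivity
      omega

theorem cnt3 (C : ℕ) (hC : ∀ n X : ℕ, n ≠ 0 → n ≤ X ^ 16 → n.divisors.card ≤ C * X)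
    (k l K : ℕ) (hk : 3 ≤ k) (hl : 3 ≤ l) (hm : k + l ≤ K) (hK : 2 ≤ K) (S : Finset ℕ)
    (hS : ∀ t ∈ S, 1 ≤ t ∧ t < K ^ 40 ∧ ∃ a b, 2 ≤ a ∧ 2 ≤ b ∧ E t k a l b) :
    S.card ≤ 2 * K ^ 27 * (C * K ^ 2) := by
  apply card_le_of_cover S (2 * K ^ 27) _
    (fun u t => ∃ a b, 2 ≤ a ∧ 2 ≤ b ∧ a * b = u ∧ E t k a l b)
  · intro t ht
    obtain ⟨h1, h2, a, b, ha, hb, h⟩ := hS t ht
    exact ⟨a * b, s7 hk hl ha hb hm hK h2 h, a, b, ha, hb, rfl, h⟩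
  · intro u hu S' _ hP
    rcases S'.eq_empty_or_nonempty with h | ⟨t0, ht0⟩
    · rw [h]; simp
    have hu0 : u ≠ 0 := by
      obtain ⟨a, b, ha, hb, hab, -⟩ := hP t0 ht0
      rw [← hab]
      exact Nat.mul_ne_zero (by omega) (by omega)
    refine le_trans ?_ (hC u (K ^ 2) hu0 ?_)
    · apply Finset.card_le_card_of_forall_subsingleton
        (fun t a => ∃ b, 2 ≤ a ∧ 2 ≤ b ∧ a * b = u ∧ E t k a l b)
      · intro t ht
        obtain ⟨a, b, ha, hb, hab, h⟩ := hP t ht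
        exact ⟨a, Nat.mem_divisors.2 ⟨⟨b, hab.symm⟩, hu0⟩, b, ha, hb, hab, h⟩
      · intro a _ x hx y hy
        obtain ⟨-, b, ha, hb, hab, h⟩ := hx
        obtain ⟨-, b', ha', hb', hab', h'⟩ := hy
        have hbb : b = b' := by
          have : a * b = a * b' := by rw [hab, hab']
          exact Nat.eq_of_mul_eq_mul_left (by omega) this
        subst hbb
        apply E_unique h h'
        have : 1 ≤ l * b := Nat.mul_pos (by omega) (by omega)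
        omega
    · have h1 : K ^ 27 * 2 ≤ K ^ 27 * K ^ 5 := by
        apply Nat.mul_le_mul_left
        calc 2 ≤ K := hK
          _ = K ^ 1 := (pow_one K).symm
          _ ≤ K ^ 5 := Nat.pow_le_pow_right (by omega) (by norm_num)
      have e1 : K ^ 27 * K ^ 5 = (K ^ 2) ^ 16 := by ring
      omega

end Pool.Agent.V11167.Sig
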