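import Pool.Agent.V11167.SigDefs
import Pool.Agent.V11167.SigE

/-!
# From tuples to the equation, and the upper bound `M(n) ≤ 4`
-/

set_option autoImplicit false

namespace Pool.Agent.V11167.Sig

open Finset

theorem sigma2_identity {n : ℕ} (x : Fin n → ℕ) :
    (∑ i, x i) ^ 2 = 2 * sigma2 x + ∑ i, x i ^ 2 := by
  have h1 : sigma2 x = ∑ i, ∑ j, if i < j then x i * x j else 0 := by
    unfold sigma2
    refine Finset.sum_congr rfl (fun i _ => ?_)
    rw [← Finset.sum_filter]
    refine Finset.sum_congr ?_ (fun _ _ => rfl)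
    ext j; simp
  have h2 : sigma2 x = ∑ i, ∑ j, if j < i then x i * x j else 0 := by
    rw [h1, Finset.sum_comm]
    refine Finset.sum_congr rfl (fun i _ => Finset.sum_congr rfl (fun j _ => ?_))
    rw [mul_comm]
  have h3 : ∑ i, x i ^ 2 = ∑ i, ∑ j, if i = j then x i * x j else 0 := by
    refine Finset.sum_congr rfl (fun i _ => ?_)
    rw [Finset.sum_ite_eq]
    simp [sq]
  have h4 : (∑ i, x i) ^ 2 = ∑ i, ∑ j, x i * x j := by
    rw [sq, Finset.sum_mul_sum]
  rw [h4, two_mul, h3]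
  conv_rhs => rw [h2]
  conv_rhs => rw [← h2]
  nth_rewrite 1 [h1]
  rw [h2, ← Finset.sum_add_distrib, ← Finset.sum_add_distrib]
  refine Finset.sum_congr rfl (fun i _ => ?_)
  rw [← Finset.sum_add_distrib, ← Finset.sum_add_distrib]
  refine Finset.sum_congr rfl (fun j _ => ?_)
  rcases lt_trichotomy i j with h | h | h
  · simp [h, h.not_gt, h.ne]
  · subst h; simp
  · simp [h, h.not_gt, h.ne']

/-- for `n ≥ 9` some entry equals `1` -/
theorem exists_one {n : ℕ} (hn : 9 ≤ n) (x : Fin n → ℕ) (hx : x ∈ Sol n) : ∃ i, x i = 1 := by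
  by_contra hcon
  push Not at hcon
  obtain ⟨hpos, -, hs⟩ := hx
  have h2 : ∀ i, 2 ≤ x i := fun i => by
    have := hpos i
    have := hcon i
    omega
  have hpair : ∀ i j : Fin n, i < j → x i * x j * 2 ^ (n - 2) ≤ sigmaN x := by
    intro i j hij
    unfold sigmaN
    rw [← Finset.mul_prod_erase Finset.univ x (Finset.mem_univ i),
      ← Finset.mul_prod_erase (Finset.univ.erase i) x
        (Finset.mem_erase.2 ⟨hij.ne', Finset.mem_univ j⟩), ← mul_assoc]
    apply Nat.mul_le_mul_left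
    have hcard : ((Finset.univ.erase i).erase j).card = n - 2 := by
      rw [Finset.card_erase_of_mem (Finset.mem_erase.2 ⟨hij.ne', Finset.mem_univ j⟩),
        Finset.card_erase_of_mem (Finset.mem_univ i), Finset.card_univ, Fintype.card_fin]
      omega
    calc 2 ^ (n - 2) = ∏ _k ∈ (Finset.univ.erase i).erase j, 2 := by
          rw [Finset.prod_const, hcard]
      _ ≤ _ := Finset.prod_le_prod' (fun k _ => h2 k)
  have hsum : sigma2 x * 2 ^ (n - 2) ≤ n * (n * sigmaN x) := by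
    unfold sigma2
    rw [Finset.sum_mul]
    calc ∑ i, (∑ j ∈ Finset.Ioi i, x i * x j) * 2 ^ (n - 2)
        ≤ ∑ _i : Fin n, n * sigmaN x := by
          apply Finset.sum_le_sum
          intro i _
          rw [Finset.sum_mul]
          calc ∑ j ∈ Finset.Ioi i, x i * x j * 2 ^ (n - 2)
              ≤ ∑ j ∈ Finset.Ioi i, sigmaN x :=
                Finset.sum_le_sum (fun j hj => hpair i j (Finset.mem_Ioi.1 hj))
            _ = (Finset.Ioi i).card * sigmaN x := by rw [Finset.sum_const, smul_eq_mul]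
            _ ≤ n * sigmaN x := by
                apply Nat.mul_le_mul_right
                calc (Finset.Ioi i).card ≤ (Finset.univ : Finset (Fin n)).card :=
                      Finset.card_le_card (Finset.subset_univ _)
                  _ = n := by simp
      _ = n * (n * sigmaN x) := by
          rw [Finset.sum_const, smul_eq_mul, Finset.card_univ, Fintype.card_fin]
  have hP : 0 < sigmaN x := Finset.prod_pos (fun i _ => hpos i)
  rw [hs] at hsum
  have h5 : 2 ^ (n - 2) ≤ n * n := by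
    have : sigmaN x * 2 ^ (n - 2) ≤ sigmaN x * (n * n) := by linarith
    exact Nat.le_of_mul_le_mul_left this hP
  have h6 : ∀ m : ℕ, 9 ≤ m → m * m < 2 ^ (m - 2) := by
    intro m hm
    induction m, hm using Nat.le_induction with
    | base => norm_num
    | succ m hm ih =>
      have : m + 1 - 2 = (m - 2) + 1 := by omega
      rw [this, pow_succ]
      nlinarith
  have := h6 n hn
  omega

/-- The equation satisfied by a solution with at most three distinct entries. -/
theorem tuple_to_E {n : ℕ} (hn : 9 ≤ n) (x : Fin n → ℕ) (hx : x ∈ Sol n) (h3 : distinct x ≤ 3) :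
    ∃ t k l a b, 1 ≤ t ∧ n = t + k + l ∧ 2 ≤ a ∧ 2 ≤ b ∧ E t k a l b := by
  classical
  obtain ⟨i0, hi0⟩ := exists_one hn x hx
  obtain ⟨hpos, -, hs⟩ := hx
  have hid := sigma2_identity x
  rw [hs] at hid
  unfold sigmaN at hid
  unfold distinct at h3
  have h1 : 1 ∈ Finset.univ.image x := Finset.mem_image.2 ⟨i0, Finset.mem_univ _, hi0⟩
  obtain ⟨R, hR⟩ : ∃ R, R = (Finset.univ.image x).erase 1 := ⟨_, rfl⟩
  have hRc : R.card ≤ 2 := by
    rw [hR, Finset.card_erase_of_mem h1]; omega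
  have h1R : 1 ∉ R := by rw [hR]; simp
  have hIm : Finset.univ.image x = insert 1 R := by rw [hR, Finset.insert_erase h1]
  obtain ⟨cnt, hcnt⟩ : ∃ cnt : ℕ → ℕ, ∀ v, cnt v = (Finset.univ.filter (fun i => x i = v)).card :=
    ⟨fun v => (Finset.univ.filter (fun i => x i = v)).card, fun _ => rfl⟩
  have hsum : ∀ f : ℕ → ℕ, ∑ i, f (x i) = cnt 1 * f 1 + ∑ v ∈ R, cnt v * f v := by
    intro f
    rw [Finset.sum_comp f x, hIm, Finset.sum_insert h1R]
    simp only [smul_eq_mul, hcnt]
  have hprod : ∏ i, x i = ∏ v ∈ R, v ^ cnt v := by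
    have := Finset.prod_comp (s := (Finset.univ : Finset (Fin n))) (fun v : ℕ => v) x
    rw [this, hIm, Finset.prod_insert h1R]
    simp only [one_pow, one_mul, hcnt]
  have hone : 1 ≤ cnt 1 := by
    rw [hcnt]
    exact Finset.card_pos.2 ⟨i0, Finset.mem_filter.2 ⟨Finset.mem_univ _, hi0⟩⟩
  have hge : ∀ v ∈ R, 2 ≤ v := by
    intro v hv
    rw [hR, Finset.mem_erase, Finset.mem_image] at hv
    obtain ⟨hv1, i, -, hi⟩ := hv
    have := hpos i
    omega
  have hn' : n = cnt 1 * 1 + ∑ v ∈ R, cnt v * 1 := by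
    rw [← hsum (fun _ => 1)]; simp
  have hS1 : ∑ i, x i = cnt 1 * 1 + ∑ v ∈ R, cnt v * v := hsum (fun v => v)
  have hS2 : ∑ i, x i ^ 2 = cnt 1 * 1 ^ 2 + ∑ v ∈ R, cnt v * v ^ 2 := hsum (fun v => v ^ 2)
  rw [hS1, hS2, hprod] at hid
  interval_cases hc : R.card
  · rw [Finset.card_eq_zero] at hc
    subst hc
    refine ⟨cnt 1, 0, 0, 2, 2, hone, by simpa using hn', le_rfl, le_rfl, ?_⟩
    unfold E
    simp at hid ⊢
    omega
  · rw [Finset.card_eq_one] at hc
    obtain ⟨b, hb⟩ := hc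
    rw [hb] at hid hn' hge
    refine ⟨cnt 1, 0, cnt b, 2, b, hone, by simpa using hn', le_rfl, hge b (by simp), ?_⟩
    unfold E
    simp at hid ⊢
    omega
  · rw [Finset.card_eq_two] at hc
    obtain ⟨a, b, hab, hb⟩ := hc
    rw [hb] at hid hn' hge
    rw [Finset.sum_pair hab, Finset.sum_pair hab, Finset.prod_pair hab] at hid
    rw [Finset.sum_pair hab] at hn'
    refine ⟨cnt 1, cnt a, cnt b, a, b, hone, by omega, hge a (by simp), hge b (by simp), ?_⟩
    unfold E
    have e1 : 2 * a ^ cnt a * b ^ cnt b = 2 * (a ^ cnt a * b ^ cnt b) := by ring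
    have e2 : (cnt 1 + cnt a * a + cnt b * b) = (cnt 1 * 1 + (cnt a * a + cnt b * b)) := by ring
    rw [e1, e2, hid]
    ring

/-- the explicit solution `(1, ..., 1, 2, n, n (3 n - 5) / 2)`, `n = m + 3` -/
def ex (m : ℕ) : Fin (m + 3) → ℕ := fun i =>
  if (i:ℕ) < m then 1 else if (i:ℕ) = m then 2 else if (i:ℕ) = m + 1 then m + 3 else
    (m + 3) * (3 * m + 4) / 2

theorem ex_even (m : ℕ) : 2 * ((m + 3) * (3 * m + 4) / 2) = (m + 3) * (3 * m + 4) := by
  have : 2 ∣ (m + 3) * (3 * m + 4) := by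
    rcases Nat.even_or_odd m with h | h
    · apply Dvd.dvd.mul_left
      obtain ⟨r, hr⟩ := h
      exact ⟨3 * r + 2, by omega⟩
    · apply Dvd.dvd.mul_right
      obtain ⟨r, hr⟩ := h
      exact ⟨r + 2, by omega⟩
  omega

theorem ex_mem (m : ℕ) : ex m ∈ Sol (m + 3) := by
  have hev := ex_even m
  obtain ⟨c, hc⟩ : ∃ c, c = (m + 3) * (3 * m + 4) / 2 := ⟨_, rfl⟩
  rw [← hc] at hev
  have hc3 : m + 3 ≤ c := by nlinarith
  have hex : ∀ i : Fin (m + 3), ex m i = if (i:ℕ) < m then 1 else if (i:ℕ) = m then 2 else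
      if (i:ℕ) = m + 1 then m + 3 else c := by
    intro i; rw [hc]; rfl
  refine ⟨?_, ?_, ?_⟩
  · intro i
    rw [hex]
    split_ifs <;> omega
  · intro i j hij
    have hij' : (i:ℕ) ≤ (j:ℕ) := hij
    have := j.2
    have := i.2
    rw [hex, hex]
    split_ifs <;> omega
  · have hs1 : ∑ i, ex m i = m + 2 + (m + 3) + c := by
      rw [Fin.sum_univ_castSucc, Fin.sum_univ_castSucc, Fin.sum_univ_castSucc]
      simp [hex]
    have hs2 : ∑ i, ex m i ^ 2 = m + 4 + (m + 3) ^ 2 + c ^ 2 := by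
      rw [Fin.sum_univ_castSucc, Fin.sum_univ_castSucc, Fin.sum_univ_castSucc]
      simp [hex]
    have hp : sigmaN (ex m) = 2 * (m + 3) * c := by
      unfold sigmaN
      rw [Fin.prod_univ_castSucc, Fin.prod_univ_castSucc, Fin.prod_univ_castSucc]
      simp [hex]
    have hid := sigma2_identity (ex m)
    rw [hs1, hs2] at hid
    rw [hp]
    nlinarith

theorem ex_distinct (m : ℕ) : distinct (ex m) ≤ 4 := by
  classical
  unfold distinct
  have : Finset.univ.image (ex m) ⊆ {1, 2, m + 3, (m + 3) * (3 * m + 4) / 2} := by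
    intro v hv
    obtain ⟨i, -, rfl⟩ := Finset.mem_image.1 hv
    unfold ex
    split_ifs <;> simp
  exact (Finset.card_le_card this).trans Finset.card_le_four

theorem M_le_four {n : ℕ} (hn : 3 ≤ n) : M n ≤ 4 := by
  obtain ⟨m, rfl⟩ := Nat.exists_eq_add_of_le' hn
  have h : M (m + 3) ≤ distinct (ex m) := Nat.sInf_le ⟨ex m, ex_mem m, rfl⟩
  exact h.trans (ex_distinct m)

theorem M_attained {n : ℕ} (hn : 3 ≤ n) : ∃ x ∈ Sol n, distinct x = M n := by
  obtain ⟨m, rfl⟩ := Nat.exists_eq_add_of_le' hn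
  exact Nat.sInf_mem (s := {k | ∃ x ∈ Sol (m + 3), distinct x = k}) ⟨_, ex m, ex_mem m, rfl⟩

end Pool.Agent.V11167.Sig
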