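import Pool.Agent.V11167.SigF

/-!
# The total count and the limit superior
-/

set_option autoImplicit false

namespace Pool.Agent.V11167.Sig

open Finset

theorem eight_sq_le (m : ℕ) (hm : 10 ≤ m) : 8 * m ^ 2 ≤ 2 ^ m := by
  induction m, hm using Nat.le_induction with
  | base => norm_num
  | succ m hm ih =>
    have : 2 ^ (m + 1) = 2 * 2 ^ m := by rw [pow_succ]; ring
    rw [this]; nlinarith

theorem eighty_le (j : ℕ) (hj : 10 ≤ j) : 80 * j ≤ 2 ^ j := by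
  induction j, hj using Nat.le_induction with
  | base => norm_num
  | succ m hm ih => rw [pow_succ]; omega

/-- the common bound for all types other than `(1, 2)` -/
theorem type_bound (C : ℕ) (hC : ∀ n X : ℕ, n ≠ 0 → n ≤ X ^ 16 → n.divisors.card ≤ C * X)
    (j K : ℕ) (hKj : K = 2 ^ j) (hK : 2 ≤ K) (k l : ℕ) (hkl : k ≤ l) (hm : k + l ≤ K)
    (hne : ¬ (k = 1 ∧ l = 2)) (S : Finset ℕ)
    (hS : ∀ t ∈ S, 1 ≤ t ∧ 3 ≤ t + k + l ∧ t < K ^ 40 ∧ ∃ a b, 2 ≤ a ∧ 2 ≤ b ∧ E t k a l b) :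
    S.card ≤ 2 * K ^ 27 * 1 + 2 * K ^ 27 * (C * (2 * K ^ 10)) +
      2 * K ^ 27 * (40 * j * (10 * (2 * K ^ 7))) + 2 * K ^ 27 * (C * K ^ 2) := by
  have hS' : ∀ t ∈ S, 1 ≤ t ∧ t < K ^ 40 ∧ ∃ a b, 2 ≤ a ∧ 2 ≤ b ∧ E t k a l b := fun t ht =>
    ⟨(hS t ht).1, (hS t ht).2.2.1, (hS t ht).2.2.2⟩
  have hempty : (∀ t ∈ S, False) → S.card ≤ 2 * K ^ 27 * 1 + 2 * K ^ 27 * (C * (2 * K ^ 10)) +
      2 * K ^ 27 * (40 * j * (10 * (2 * K ^ 7))) + 2 * K ^ 27 * (C * K ^ 2) := by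
    intro h
    rw [Finset.eq_empty_of_forall_notMem (s := S) (fun t ht => h t ht)]
    simp
  rcases Nat.lt_or_ge l 3 with hl | hl
  · interval_cases l
    · have hk : k = 0 := by omega
      subst hk
      apply hempty
      intro t ht
      obtain ⟨h1, h2, h3, a, b, ha, hb, h⟩ := hS t ht
      unfold E at h
      simp at h
      nlinarith
    · interval_cases k
      · apply hempty
        intro t ht
        obtain ⟨h1, h2, h3, a, b, ha, hb, h⟩ := hS t ht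
        unfold E at h
        simp at h
        nlinarith
      · apply hempty
        intro t ht
        obtain ⟨h1, h2, h3, a, b, ha, hb, h⟩ := hS t ht
        unfold E at h
        have h4 : t = t ^ 2 + 2 * t * a + 2 * t * b := by nlinarith
        nlinarith
    · interval_cases k
      · apply hempty
        intro t ht
        obtain ⟨h1, h2, h3, a, b, ha, hb, h⟩ := hS t ht
        unfold E at h
        simp at h
        have h4 : t = t ^ 2 + 4 * t * b := by nlinarith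
        nlinarith
      · exact absurd ⟨rfl, rfl⟩ hne
      · have := cnt2 2 j K hKj le_rfl (by omega) hK S hS'
        omega
  · rcases Nat.lt_or_ge k 3 with hk | hk
    · interval_cases k
      · have := cnt0 l K hl (by omega) hK S hS'
        omega
      · have := cnt1 C hC l K hl (by omega) hK S hS'
        omega
      · have := cnt2 l j K hKj (by omega) (by omega) hK S hS'
        omega
    · have := cnt3 C hC k l K hk hl hm hK S hS'
      omega

theorem total : ∃ D : ℕ, ∀ j, 10 ≤ j → ∀ B : Finset ℕ,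
    (∀ n ∈ B, n < 2 ^ (40 * j) ∧ 3 ≤ n ∧
      ∃ t k l a b, 1 ≤ t ∧ n = t + k + l ∧ 2 ≤ a ∧ 2 ≤ b ∧ E t k a l b) →
    B.card ≤ D * 2 ^ (39 * j) := by
  classical
  obtain ⟨C, hC1, hC⟩ := divisor_bound_nat
  refine ⟨6561 * (1602 + 6 * C) + (801 + 2 * C), fun j hj B hB => ?_⟩
  obtain ⟨K, hKj⟩ : ∃ K, K = 2 ^ j := ⟨_, rfl⟩
  have hK : 2 ≤ K := by
    rw [hKj]
    calc 2 = 2 ^ 1 := by norm_num
      _ ≤ 2 ^ j := Nat.pow_le_pow_right (by norm_num) (by omega)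
  have hjK : j ≤ K := by rw [hKj]; exact Nat.lt_two_pow_self.le
  have hLK : 80 * j ≤ K := by rw [hKj]; exact eighty_le j hj
  have h40 : 2 ^ (40 * j) = K ^ 40 := by rw [hKj, ← pow_mul, mul_comm]
  have h39 : 2 ^ (39 * j) = K ^ 39 := by rw [hKj, ← pow_mul, mul_comm]
  rw [h39]
  rw [h40] at hB
  -- representation with `k ≤ l` and `k + l ≤ 80 j`
  have hB' : ∀ n ∈ B, ∃ t k l a b, 1 ≤ t ∧ n = t + k + l ∧ 2 ≤ a ∧ 2 ≤ b ∧ E t k a l b ∧
      k ≤ l ∧ k + l ≤ 80 * j := by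
    intro n hn
    obtain ⟨h1, h2, t, k, l, a, b, h3, h4, h5, h6, h7⟩ := hB n hn
    have hm : k + l ≤ 80 * j := by
      have g1 := m_bound h3 h5 h6 h7
      by_contra hcon
      push Not at hcon
      have g2 := eight_sq_le (k + l) (by omega)
      have g3 : (t + 2 * (k + l)) ^ 2 ≤ 2 * t ^ 2 + 8 * (k + l) ^ 2 := by
        zify; nlinarith [sq_nonneg ((t:ℤ) - 2 * (k + l))]
      have g4 : t ^ 2 < K ^ 80 := by
        calc t ^ 2 < (K ^ 40) ^ 2 := Nat.pow_lt_pow_left (by omega) (by norm_num)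
          _ = K ^ 80 := by ring
      have g5 : 2 ^ (80 * j + 1) ≤ 2 ^ (k + l) := Nat.pow_le_pow_right (by norm_num) (by omega)
      have g6 : 2 ^ (80 * j + 1) = 2 * K ^ 80 := by
        rw [hKj, ← pow_mul, pow_succ, mul_comm 80 j]; ring
      omega
    rcases le_total k l with c | c
    · exact ⟨t, k, l, a, b, h3, h4, h5, h6, h7, c, hm⟩
    · exact ⟨t, l, k, b, a, h3, by omega, h6, h5, h7.symm, c, by omega⟩
  obtain ⟨T, hT⟩ : ∃ T : ℕ → ℕ → Finset ℕ, ∀ k l t, t ∈ T k l ↔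
      (1 ≤ t ∧ 3 ≤ t + k + l ∧ t < K ^ 40 ∧ ∃ a b, 2 ≤ a ∧ 2 ≤ b ∧ E t k a l b) := by
    refine ⟨fun k l => (Finset.range (K ^ 40)).filter
      (fun t => 1 ≤ t ∧ 3 ≤ t + k + l ∧ ∃ a b, 2 ≤ a ∧ 2 ≤ b ∧ E t k a l b), ?_⟩
    intro k l t
    rw [Finset.mem_filter, Finset.mem_range]
    tauto
  obtain ⟨Pr, hPr⟩ : ∃ Pr : Finset (ℕ × ℕ), Pr =
      ((Finset.range (80 * j + 1)) ×ˢ (Finset.range (80 * j + 1))).filter
        (fun p => p.1 ≤ p.2 ∧ p.1 + p.2 ≤ 80 * j ∧ ¬ (p.1 = 1 ∧ p.2 = 2)) := ⟨_, rfl⟩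
  have hPrc : Pr.card ≤ (80 * j + 1) * (80 * j + 1) := by
    rw [hPr]
    refine (Finset.card_filter_le _ _).trans ?_
    rw [Finset.card_product, Finset.card_range]
  obtain ⟨M0, hM0⟩ : ∃ M0, M0 = 2 * K ^ 27 * 1 + 2 * K ^ 27 * (C * (2 * K ^ 10)) +
      2 * K ^ 27 * (40 * j * (10 * (2 * K ^ 7))) + 2 * K ^ 27 * (C * K ^ 2) := ⟨_, rfl⟩
  have hsub : B ⊆ (T 1 2).image (fun t => t + 3) ∪
      Pr.biUnion (fun p => (T p.1 p.2).image (fun t => t + p.1 + p.2)) := by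
    intro n hn
    obtain ⟨t, k, l, a, b, h1, h2, h3, h4, h5, h6, h7⟩ := hB' n hn
    obtain ⟨g1, g2, -⟩ := hB n hn
    have ht : t ∈ T k l := (hT k l t).2 ⟨h1, by omega, by omega, a, b, h3, h4, h5⟩
    rw [Finset.mem_union]
    by_cases hc : k = 1 ∧ l = 2
    · left
      obtain ⟨rfl, rfl⟩ := hc
      exact Finset.mem_image.2 ⟨t, ht, by omega⟩
    · right
      rw [Finset.mem_biUnion]
      refine ⟨(k, l), ?_, Finset.mem_image.2 ⟨t, ht, h2.symm⟩⟩
      rw [hPr, Finset.mem_filter, Finset.mem_product, Finset.mem_range, Finset.mem_range]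
      exact ⟨⟨by simp only; omega, by simp only; omega⟩, h6, h7, hc⟩
  have hc1 : ((T 1 2).image (fun t => t + 3)).card ≤
      K ^ 18 + K ^ 18 * (40 * j * (10 * (2 * K ^ 9))) + 2 * K ^ 31 * (C * K ^ 8) := by
    refine Finset.card_image_le.trans ?_
    apply cnt12 C hC j K hKj hK
    intro t ht
    obtain ⟨g1, g2, g3, g4⟩ := (hT 1 2 t).1 ht
    exact ⟨g1, g3, g4⟩
  have hc2 : (Pr.biUnion (fun p => (T p.1 p.2).image (fun t => t + p.1 + p.2))).card ≤
      Pr.card * M0 := by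
    apply Finset.card_biUnion_le_card_mul
    intro p hp
    rw [hPr, Finset.mem_filter] at hp
    refine Finset.card_image_le.trans ?_
    rw [hM0]
    apply type_bound C hC j K hKj hK p.1 p.2 hp.2.1 (hp.2.2.1.trans hLK) hp.2.2.2
    intro t ht
    exact (hT p.1 p.2 t).1 ht
  have hc3 := Finset.card_le_card hsub
  have hc4 := Finset.card_union_le ((T 1 2).image (fun t => t + 3))
    (Pr.biUnion (fun p => (T p.1 p.2).image (fun t => t + p.1 + p.2)))
  -- numerical estimates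
  have hK0 : 0 < K := by omega
  have pw : ∀ a b : ℕ, a ≤ b → K ^ a ≤ K ^ b := fun a b h => Nat.pow_le_pow_right hK0 h
  have m0 : M0 ≤ (1602 + 6 * C) * K ^ 37 := by
    rw [hM0]
    have a1 : 2 * K ^ 27 * 1 ≤ 2 * K ^ 37 := by
      have := pw 27 37 (by norm_num); omega
    have a2 : 2 * K ^ 27 * (C * (2 * K ^ 10)) = 4 * C * K ^ 37 := by ring
    have a3 : 2 * K ^ 27 * (40 * j * (10 * (2 * K ^ 7))) ≤ 1600 * K ^ 37 := by
      calc 2 * K ^ 27 * (40 * j * (10 * (2 * K ^ 7))) = 1600 * (j * K ^ 34) := by ring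
        _ ≤ 1600 * (K * K ^ 34) := by gcongr
        _ = 1600 * K ^ 35 := by ring
        _ ≤ 1600 * K ^ 37 := Nat.mul_le_mul_left _ (pw 35 37 (by norm_num))
    have a4 : 2 * K ^ 27 * (C * K ^ 2) ≤ 2 * C * K ^ 37 := by
      calc 2 * K ^ 27 * (C * K ^ 2) = 2 * C * K ^ 29 := by ring
        _ ≤ 2 * C * K ^ 37 := Nat.mul_le_mul_left _ (pw 29 37 (by norm_num))
    have a5 : (1602 + 6 * C) * K ^ 37 = 2 * K ^ 37 + 4 * C * K ^ 37 + 1600 * K ^ 37 +
      2 * C * K ^ 37 := by ring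
    omega
  have m1 : K ^ 18 + K ^ 18 * (40 * j * (10 * (2 * K ^ 9))) + 2 * K ^ 31 * (C * K ^ 8) ≤
      (801 + 2 * C) * K ^ 39 := by
    have a1 := pw 18 39 (by norm_num)
    have a3 : K ^ 18 * (40 * j * (10 * (2 * K ^ 9))) ≤ 800 * K ^ 39 := by
      calc K ^ 18 * (40 * j * (10 * (2 * K ^ 9))) = 800 * (j * K ^ 27) := by ring
        _ ≤ 800 * (K * K ^ 27) := by gcongr
        _ = 800 * K ^ 28 := by ring
        _ ≤ 800 * K ^ 39 := Nat.mul_le_mul_left _ (pw 28 39 (by norm_num))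
    have a4 : 2 * K ^ 31 * (C * K ^ 8) = 2 * C * K ^ 39 := by ring
    have a5 : (801 + 2 * C) * K ^ 39 = K ^ 39 + 800 * K ^ 39 + 2 * C * K ^ 39 := by ring
    omega
  have m2 : Pr.card * M0 ≤ 6561 * (1602 + 6 * C) * K ^ 39 := by
    have b1 : 80 * j + 1 ≤ 81 * K := by omega
    calc Pr.card * M0 ≤ ((80 * j + 1) * (80 * j + 1)) * ((1602 + 6 * C) * K ^ 37) :=
          Nat.mul_le_mul hPrc m0
      _ ≤ ((81 * K) * (81 * K)) * ((1602 + 6 * C) * K ^ 37) :=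
          Nat.mul_le_mul_right _ (Nat.mul_le_mul b1 b1)
      _ = 6561 * (1602 + 6 * C) * K ^ 39 := by ring
  have e : (6561 * (1602 + 6 * C) + (801 + 2 * C)) * K ^ 39 =
      6561 * (1602 + 6 * C) * K ^ 39 + (801 + 2 * C) * K ^ 39 := by ring
  rw [e]
  omega

/-- `M(n) ≤ 3` gives a solution of the equation -/
theorem M_le_three {n : ℕ} (hn : 9 ≤ n) (h : M n ≤ 3) :
    ∃ t k l a b, 1 ≤ t ∧ n = t + k + l ∧ 2 ≤ a ∧ 2 ≤ b ∧ E t k a l b := by
  obtain ⟨x, hx, hd⟩ := M_attained (show 3 ≤ n by omega)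
  exact tuple_to_E hn x hx (by omega)

theorem count_dyadic : ∃ D : ℕ, ∀ j, 10 ≤ j →
    ((Finset.range (2 ^ (40 * j))).filter (fun n => 3 ≤ n ∧ M n ≤ 3)).card ≤ D * 2 ^ (39 * j) := by
  classical
  obtain ⟨D, hD⟩ := total
  refine ⟨D + 9, fun j hj => ?_⟩
  have h1 := hD j hj (((Finset.range (2 ^ (40 * j))).filter (fun n => 3 ≤ n ∧ M n ≤ 3)).filter
    (fun n => 9 ≤ n)) (by
      intro n hn
      rw [Finset.mem_filter, Finset.mem_filter, Finset.mem_range] at hn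
      obtain ⟨⟨g1, g2, g3⟩, g4⟩ := hn
      exact ⟨g1, g2, M_le_three g4 g3⟩)
  have h2 : (((Finset.range (2 ^ (40 * j))).filter (fun n => 3 ≤ n ∧ M n ≤ 3)).filter
      (fun n => ¬ 9 ≤ n)).card ≤ 9 := by
    have : (((Finset.range (2 ^ (40 * j))).filter (fun n => 3 ≤ n ∧ M n ≤ 3)).filter
      (fun n => ¬ 9 ≤ n)) ⊆ Finset.range 9 := by
      intro n hn
      rw [Finset.mem_filter] at hn
      rw [Finset.mem_range]
      omega
    have := Finset.card_le_card this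
    rwa [Finset.card_range] at this
  have h3 := Finset.card_filter_add_card_filter_not
    (s := (Finset.range (2 ^ (40 * j))).filter (fun n => 3 ≤ n ∧ M n ≤ 3)) (fun n => 9 ≤ n)
  have h4 : 1 ≤ 2 ^ (39 * j) := Nat.one_le_two_pow
  have e : (D + 9) * 2 ^ (39 * j) = D * 2 ^ (39 * j) + 9 * 2 ^ (39 * j) := by ring
  rw [e]
  omega

theorem freq_four : ∀ n0 : ℕ, ∃ n, n0 ≤ n ∧ 3 ≤ n ∧ M n = 4 := by
  classical
  intro n0
  obtain ⟨D, hD⟩ := count_dyadic
  obtain ⟨j, hj⟩ : ∃ j, j = D + n0 + 10 := ⟨_, rfl⟩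
  have h1 := hD j (by omega)
  by_contra hcon
  push Not at hcon
  have hsub : Finset.Ico (n0 + 3) (2 ^ (40 * j)) ⊆
      (Finset.range (2 ^ (40 * j))).filter (fun n => 3 ≤ n ∧ M n ≤ 3) := by
    intro n hn
    rw [Finset.mem_Ico] at hn
    rw [Finset.mem_filter, Finset.mem_range]
    have g1 := hcon n (by omega) (by omega)
    have g2 := M_le_four (show 3 ≤ n by omega)
    exact ⟨hn.2, by omega, by omega⟩
  have h2 := Finset.card_le_card hsub
  rw [Nat.card_Ico] at h2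
  have h3 : 2 ^ (40 * j) = 2 ^ j * 2 ^ (39 * j) := by rw [← pow_add]; congr 1; ring
  have h4 : j < 2 ^ j := Nat.lt_two_pow_self
  have h5 : (j + 1) * 2 ^ (39 * j) ≤ 2 ^ j * 2 ^ (39 * j) := Nat.mul_le_mul_right _ h4
  have h6 : 1 ≤ 2 ^ (39 * j) := Nat.one_le_two_pow
  have h7 : (j + 1) * 2 ^ (39 * j) = D * 2 ^ (39 * j) + (n0 + 11) * 2 ^ (39 * j) := by
    rw [hj]; ring
  have h8 : (n0 + 11) * 1 ≤ (n0 + 11) * 2 ^ (39 * j) := Nat.mul_le_mul_left _ h6
  omega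

theorem limsup_four : Filter.limsup (fun n => (M n : ℕ∞)) Filter.atTop = 4 := by
  apply le_antisymm
  · apply Filter.limsup_le_of_le
    · exact Filter.isCobounded_le_of_bot
    · filter_upwards [Filter.eventually_ge_atTop 3] with n hn
      exact_mod_cast M_le_four hn
  · apply Filter.le_limsup_of_frequently_le
    · rw [Filter.frequently_atTop]
      intro n0
      obtain ⟨n, h1, h2, h3⟩ := freq_four n0
      exact ⟨n, h1, by rw [h3]; rfl⟩
    · exact Filter.isBounded_le_of_top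

/-- Almost every `n` has `M(n) = 4`, with a power saving. -/
theorem count_real : ∃ C : ℝ, ∀ N : ℕ,
    (((Finset.range N).filter (fun n => 3 ≤ n ∧ M n ≤ 3)).card : ℝ) ≤
      C * (N:ℝ) ^ ((39:ℝ) / 40) := by
  classical
  obtain ⟨D, hD⟩ := count_dyadic
  obtain ⟨P, hP⟩ : ∃ P : ℝ, P = (2:ℝ) ^ (39 * 10) := ⟨_, rfl⟩
  have hP0 : 0 ≤ P := by rw [hP]; exact pow_nonneg (by norm_num) _
  refine ⟨D * P, fun N => ?_⟩
  rcases Nat.eq_zero_or_pos N with h0 | h0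
  · subst h0
    simp
  obtain ⟨i, hi⟩ : ∃ i, i = Nat.log 2 N / 40 := ⟨_, rfl⟩
  have hlog1 : 2 ^ Nat.log 2 N ≤ N := Nat.pow_log_le_self 2 (by omega)
  have hlog2 : N < 2 ^ (Nat.log 2 N + 1) := Nat.lt_pow_succ_log_self (by norm_num) N
  have hN1 : 2 ^ (40 * i) ≤ N := by
    refine le_trans (Nat.pow_le_pow_right (by norm_num) ?_) hlog1
    omega
  have hN2 : N ≤ 2 ^ (40 * (i + 10)) := by
    refine hlog2.le.trans (Nat.pow_le_pow_right (by norm_num) ?_)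
    omega
  have h1 : ((Finset.range N).filter (fun n => 3 ≤ n ∧ M n ≤ 3)).card ≤ D * 2 ^ (39 * (i + 10)) := by
    refine le_trans (Finset.card_le_card ?_) (hD (i + 10) (by omega))
    intro n hn
    rw [Finset.mem_filter, Finset.mem_range] at hn ⊢
    exact ⟨by omega, hn.2⟩
  have h2 : (2:ℝ) ^ (39 * i) ≤ (N:ℝ) ^ ((39:ℝ) / 40) := by
    have : ((2:ℝ) ^ (40 * i)) ≤ N := by exact_mod_cast hN1
    calc (2:ℝ) ^ (39 * i) = ((2:ℝ) ^ (40 * i)) ^ ((39:ℝ) / 40) := by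
          rw [← Real.rpow_natCast, ← Real.rpow_natCast, ← Real.rpow_mul (by norm_num)]
          congr 1
          push_cast
          ring
      _ ≤ (N:ℝ) ^ ((39:ℝ) / 40) := Real.rpow_le_rpow (by positivity) this (by norm_num)
  have h3 : (((Finset.range N).filter (fun n => 3 ≤ n ∧ M n ≤ 3)).card : ℝ) ≤
      D * 2 ^ (39 * (i + 10)) := by exact_mod_cast h1
  have e : (D:ℝ) * 2 ^ (39 * (i + 10)) = D * P * 2 ^ (39 * i) := by
    rw [hP, mul_assoc, ← pow_add]; congr 2; ring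
  rw [e] at h3
  exact h3.trans (mul_le_mul_of_nonneg_left h2 (mul_nonneg (Nat.cast_nonneg _) hP0))

end Pool.Agent.V11167.Sig
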