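import Pool.Agent.V11167.VisDefs

/-! General lemmas (for MP_9521de_co). -/

namespace Pool.Agent.V11167.Vis

open MeasureTheory Set

lemma vol_rect (s t : Set ℝ) (hs : MeasurableSet s) (ht : MeasurableSet t) :
    volume (s ×ℂ t) = volume s * volume t := by
  have h1 : s ×ℂ t = Complex.measurableEquivRealProd ⁻¹' (s ×ˢ t) := by
    ext z
    simp [Complex.mem_reProdIm, Complex.measurableEquivRealProd_apply]
  rw [h1, Complex.volume_preserving_equiv_real_prod.measure_preimage (hs.prod ht).nullMeasurableSet,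
    Measure.volume_eq_prod, Measure.prod_prod]

lemma meas_rect (s t : Set ℝ) (hs : MeasurableSet s) (ht : MeasurableSet t) :
    MeasurableSet (s ×ℂ t) :=
  (Complex.measurable_re hs).inter (Complex.measurable_im ht)

lemma vol_Ioo (a b c d : ℝ) (hab : a ≤ b) :
    volume (Ioo a b ×ℂ Ioo c d) = ENNReal.ofReal ((b - a) * (d - c)) := by
  rw [vol_rect _ _ measurableSet_Ioo measurableSet_Ioo, Real.volume_Ioo, Real.volume_Ioo,
    ENNReal.ofReal_mul (by linarith)]

lemma vol_Icc (a b c d : ℝ) (hab : a ≤ b) :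
    volume (Icc a b ×ℂ Icc c d) = ENNReal.ofReal ((b - a) * (d - c)) := by
  rw [vol_rect _ _ measurableSet_Icc measurableSet_Icc, Real.volume_Icc, Real.volume_Icc,
    ENNReal.ofReal_mul (by linarith)]

/-- a nondegenerate segment is an arc -/
lemma isArc_segment (p q : ℂ) (h : p ≠ q) : IsArc (segment ℝ p q) := by
  refine ⟨fun t : ℝ => p + (t : ℂ) * (q - p), ?_, ?_, ?_, ?_⟩
  · exact contDiff_const.add (Complex.ofRealCLM.contDiff.mul contDiff_const)
  · intro t _
    have h1 : HasDerivAt (fun t : ℝ => p + (t : ℂ) * (q - p)) (1 * (q - p)) t :=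
      ((Complex.ofRealCLM.hasDerivAt (x := t)).mul_const (q - p)).const_add p
    rw [h1.deriv, one_mul]
    exact sub_ne_zero.2 (Ne.symm h)
  · intro t _ t' _ htt
    simp only [add_right_inj] at htt
    have := mul_right_cancel₀ (sub_ne_zero.2 (Ne.symm h)) htt
    exact_mod_cast this
  · rw [segment_eq_image']
    apply image_congr
    intro t _
    simp [Complex.real_smul]

lemma mem_seg_re (a b c : ℝ) (hab : a ≤ b) (z : ℂ) :
    z ∈ segment ℝ (⟨a, c⟩ : ℂ) ⟨b, c⟩ ↔ (a ≤ z.re ∧ z.re ≤ b) ∧ z.im = c := by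
  constructor
  · intro h
    rw [segment_eq_image'] at h
    obtain ⟨t, ⟨ht0, ht1⟩, rfl⟩ := h
    simp only [Complex.add_re, Complex.add_im, Complex.real_smul, Complex.mul_re, Complex.mul_im,
      Complex.sub_re, Complex.sub_im, Complex.ofReal_re, Complex.ofReal_im]
    refine ⟨⟨?_, ?_⟩, ?_⟩
    · nlinarith
    · nlinarith
    · ring
  · rintro ⟨⟨h1, h2⟩, h3⟩
    rw [segment_eq_image']
    rcases eq_or_lt_of_le hab with h | h
    · refine ⟨0, by simp, ?_⟩
      apply Complex.ext
      · simp; linarith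
      · simp [h3]
    · refine ⟨(z.re - a) / (b - a), ⟨?_, ?_⟩, ?_⟩
      · apply div_nonneg <;> linarith
      · rw [div_le_one (by linarith)]; linarith
      · apply Complex.ext
        · simp only [Complex.add_re, Complex.real_smul, Complex.mul_re,
            Complex.sub_re, Complex.sub_im, Complex.ofReal_re, Complex.ofReal_im]
          have : b - a ≠ 0 := by linarith
          field_simp
          ring
        · simp only [Complex.add_im, Complex.real_smul, Complex.mul_im,
            Complex.sub_re, Complex.sub_im, Complex.ofReal_re, Complex.ofReal_im, h3]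
          ring

lemma mem_seg_im (a b c : ℝ) (hab : a ≤ b) (z : ℂ) :
    z ∈ segment ℝ (⟨c, a⟩ : ℂ) ⟨c, b⟩ ↔ (a ≤ z.im ∧ z.im ≤ b) ∧ z.re = c := by
  constructor
  · intro h
    rw [segment_eq_image'] at h
    obtain ⟨t, ⟨ht0, ht1⟩, rfl⟩ := h
    simp only [Complex.add_re, Complex.add_im, Complex.real_smul, Complex.mul_re, Complex.mul_im,
      Complex.sub_re, Complex.sub_im, Complex.ofReal_re, Complex.ofReal_im]
    refine ⟨⟨?_, ?_⟩, ?_⟩
    · nlinarith
    · nlinarith
    · ring
  · rintro ⟨⟨h1, h2⟩, h3⟩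
    rw [segment_eq_image']
    rcases eq_or_lt_of_le hab with h | h
    · refine ⟨0, by simp, ?_⟩
      apply Complex.ext
      · simp [h3]
      · simp; linarith
    · refine ⟨(z.im - a) / (b - a), ⟨?_, ?_⟩, ?_⟩
      · apply div_nonneg <;> linarith
      · rw [div_le_one (by linarith)]; linarith
      · apply Complex.ext
        · simp only [Complex.add_re, Complex.real_smul, Complex.mul_re,
            Complex.sub_re, Complex.sub_im, Complex.ofReal_re, Complex.ofReal_im, h3]
          ring
        · simp only [Complex.add_im, Complex.real_smul, Complex.mul_im,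
            Complex.sub_re, Complex.sub_im, Complex.ofReal_re, Complex.ofReal_im]
          have : b - a ≠ 0 := by linarith
          field_simp
          ring

lemma frontier_rect (a b c d : ℝ) (hab : a < b) (hcd : c < d) (z : ℂ) :
    z ∈ frontier (Icc a b ×ℂ Icc c d) ↔
      ((a ≤ z.re ∧ z.re ≤ b) ∧ (z.im = c ∨ z.im = d)) ∨
      ((c ≤ z.im ∧ z.im ≤ d) ∧ (z.re = a ∨ z.re = b)) := by
  rw [Complex.frontier_reProdIm, closure_Icc, closure_Icc, frontier_Icc hab.le, frontier_Icc hcd.le]
  simp only [mem_union, Complex.mem_reProdIm, mem_Icc, mem_insert_iff, mem_singleton_iff]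
  tauto

lemma piecewiseSmooth_rect (a b c d : ℝ) (hab : a < b) (hcd : c < d) :
    PiecewiseSmooth (Icc a b ×ℂ Icc c d) := by
  refine ⟨{segment ℝ (⟨a, c⟩ : ℂ) ⟨b, c⟩, segment ℝ (⟨a, d⟩ : ℂ) ⟨b, d⟩,
    segment ℝ (⟨a, c⟩ : ℂ) ⟨a, d⟩, segment ℝ (⟨b, c⟩ : ℂ) ⟨b, d⟩}, ?_, ?_, ?_⟩
  · simp
  · intro S hS
    simp only [mem_insert_iff, mem_singleton_iff] at hS
    rcases hS with rfl | rfl | rfl | rfl
    · apply isArc_segment; intro h; exact hab.ne (congrArg Complex.re h)
    · apply isArc_segment; intro h; exact hab.ne (congrArg Complex.re h)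
    · apply isArc_segment; intro h; exact hcd.ne (congrArg Complex.im h)
    · apply isArc_segment; intro h; exact hcd.ne (congrArg Complex.im h)
  · ext z
    rw [frontier_rect a b c d hab hcd]
    simp only [sUnion_insert, sUnion_singleton, mem_union, mem_seg_re _ _ _ hab.le,
      mem_seg_im _ _ _ hcd.le]
    tauto

lemma compact_rect (a b c d : ℝ) : IsCompact (Icc a b ×ℂ Icc c d) :=
  isCompact_Icc.reProdIm isCompact_Icc

/-- a segment from a free interior point to a visible boundary point avoids the obstacles -/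
lemma visBd_avoid (S : Space) (v u : ℂ) (hv : v ∉ S.B) (hu : u ∈ S.visBd v) (p : ℂ)
    (hp : p ∈ segment ℝ v u) (hpu : p ≠ u) : p ∉ S.B := by
  intro hpB
  have hsub : segment ℝ v p ⊆ segment ℝ v u := (convex_segment v u).segment_subset
    (left_mem_segment ℝ v u) hp
  have hconn : IsPreconnected (segment ℝ v p) := (convex_segment v p).isPreconnected
  have hcl : IsClosed S.B := by
    rw [Space.B, sUnion_eq_biUnion]
    exact S.finite.isClosed_biUnion fun B hB => (S.compact B hB).isClosed
  have hne : (segment ℝ v p ∩ frontier S.B).Nonempty := by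
    by_contra hemp
    have hcov : segment ℝ v p ⊆ interior S.B ∪ S.Bᶜ := by
      intro z hz
      by_cases hzB : z ∈ S.B
      · left
        by_contra hint
        exact hemp ⟨z, hz, subset_closure hzB, hint⟩
      · right; exact hzB
    have hp' : p ∈ interior S.B := by
      rcases hcov (right_mem_segment ℝ v p) with h | h
      · exact h
      · exact absurd hpB h
    obtain ⟨z, _, hz1, hz2⟩ := hconn (interior S.B) S.Bᶜ isOpen_interior hcl.isOpen_compl hcov
      ⟨p, right_mem_segment ℝ v p, hp'⟩ ⟨v, left_mem_segment ℝ v p, hv⟩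
    exact hz2 (interior_subset hz1)
  obtain ⟨q, hq, hqf⟩ := hne
  have hqB : q ∈ S.B := hcl.frontier_subset hqf
  rcases hu.2 q (hsub hq) (Or.inl hqf) with h | h
  · rw [h] at hqB; exact hv hqB
  · -- q = u in segment v p, p in segment v u, so p = u
    rw [h] at hq
    -- dist v p ≤ dist v u ≤ dist v p
    have h1 : dist v u ≤ dist v p := by
      rw [← dist_add_dist_of_mem_segment hq]
      linarith [dist_nonneg (x := u) (y := p)]
    have h2 := dist_add_dist_of_mem_segment hp
    have h3 : dist p u = 0 := by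
      have := dist_nonneg (x := p) (y := u)
      linarith
    exact hpu (dist_eq_zero.1 h3)

/-- points on a segment, in coordinates -/
lemma seg_point (v u : ℂ) (t : ℝ) (ht0 : 0 ≤ t) (ht1 : t ≤ 1) :
    (⟨v.re + t * (u.re - v.re), v.im + t * (u.im - v.im)⟩ : ℂ) ∈ segment ℝ v u := by
  rw [segment_eq_image']
  refine ⟨t, ⟨ht0, ht1⟩, ?_⟩
  apply Complex.ext <;> simp

lemma seg_param (v u p : ℂ) (hp : p ∈ segment ℝ v u) :
    ∃ t : ℝ, 0 ≤ t ∧ t ≤ 1 ∧ p.re = v.re + t * (u.re - v.re) ∧ p.im = v.im + t * (u.im - v.im) := by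
  rw [segment_eq_image'] at hp
  obtain ⟨t, ⟨ht0, ht1⟩, rfl⟩ := hp
  exact ⟨t, ht0, ht1, by simp, by simp⟩

end Pool.Agent.V11167.Vis
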