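import Pool.Agent.V11167.VisA

/-! The construction (for MP_9521de_co). -/

namespace Pool.Agent.V11167.Vis

open MeasureTheory Set

structure Par where
  N : ℕ
  M : ℕ
  d : ℝ
  w : ℝ
  s : ℝ
  hN : 2 ≤ N
  hM : 2 ≤ M
  hd : 0 < d
  hd2 : d ≤ 1 / 2
  hw : 0 < w
  hw2 : 8 * w ≤ d
  hs : 0 < s
  hs2 : s ≤ 1 / 2
  hfit : 4 + 2 * w * M ≤ N * (2 + d + s) - s

namespace Par

variable (P : Par)

def L : ℝ := 2 + P.d + P.s
def A : ℝ := P.N * P.L - P.s
def plate (k i : ℕ) : Set ℂ :=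
  Icc (2 + 2 * P.w * i) (2 + 2 * P.w * i + P.w) ×ℂ Icc (k * P.L + 1) (k * P.L + 1 + P.d)
def slab (k : ℕ) : Set ℂ :=
  Icc 1 (P.A - 1) ×ℂ Icc ((k + 1) * P.L - P.s) ((k + 1) * P.L)

lemma L_pos : 2 < P.L := by
  unfold L; have := P.hd; have := P.hs; linarith

lemma kL {k k' : ℕ} (h : k < k') : (k : ℝ) * P.L + P.L ≤ k' * P.L := by
  have h1 : (k : ℝ) + 1 ≤ k' := by exact_mod_cast h
  have := P.L_pos
  nlinarith

lemma kL0 (k : ℕ) : 0 ≤ (k : ℝ) * P.L := by
  have := P.L_pos
  positivity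

lemma kA {k : ℕ} (h : k < P.N) : (k : ℝ) * P.L + 2 + P.d ≤ P.A := by
  have := P.kL h
  unfold A; unfold L at *; linarith

lemma kA' {k : ℕ} (h : k + 1 < P.N) : ((k : ℝ) + 1) * P.L ≤ P.A - 2 := by
  have := P.kL h
  push_cast at this
  unfold A; unfold L at *; linarith [P.hd]

lemma fit {i : ℕ} (h : i < P.M) : 2 + 2 * P.w * i + 2 * P.w ≤ P.A - 2 := by
  have h1 : (i : ℝ) + 1 ≤ P.M := by exact_mod_cast h
  have h2 := P.hfit
  have h3 := P.hw
  unfold A L
  nlinarith

lemma A_ge : 4 ≤ P.A := by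
  have := P.fit (i := 0) (by have := P.hM; omega)
  have := P.hw
  simp at *
  linarith

lemma iw {i i' : ℕ} (h : i < i') : 2 + 2 * P.w * i + 2 * P.w ≤ 2 + 2 * P.w * i' := by
  have h1 : (i : ℝ) + 1 ≤ i' := by exact_mod_cast h
  have h3 := P.hw
  nlinarith

lemma mem_plate {k i : ℕ} {z : ℂ} : z ∈ P.plate k i ↔
    (2 + 2 * P.w * i ≤ z.re ∧ z.re ≤ 2 + 2 * P.w * i + P.w) ∧
      (k * P.L + 1 ≤ z.im ∧ z.im ≤ k * P.L + 1 + P.d) := by
  simp [plate, Complex.mem_reProdIm]

lemma mem_slab {k : ℕ} {z : ℂ} : z ∈ P.slab k ↔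
    (1 ≤ z.re ∧ z.re ≤ P.A - 1) ∧ ((k + 1) * P.L - P.s ≤ z.im ∧ z.im ≤ (k + 1) * P.L) := by
  simp [slab, Complex.mem_reProdIm]

lemma plate_unique {k i k' i' : ℕ} {z : ℂ} (h : z ∈ P.plate k i) (h' : z ∈ P.plate k' i') :
    k = k' ∧ i = i' := by
  rw [mem_plate] at h h'
  have hd := P.hd
  have hs := P.hs
  have hw := P.hw
  have hL := P.L_pos
  have hLd : P.L = 2 + P.d + P.s := rfl
  constructor
  · rcases lt_trichotomy k k' with h1 | h1 | h1
    · have := P.kL h1; linarith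
    · exact h1
    · have := P.kL h1; linarith
  · rcases lt_trichotomy i i' with h1 | h1 | h1
    · have := P.iw h1; linarith
    · exact h1
    · have := P.iw h1; linarith

lemma slab_unique {k k' : ℕ} {z : ℂ} (h : z ∈ P.slab k) (h' : z ∈ P.slab k') : k = k' := by
  rw [mem_slab] at h h'
  have hd := P.hd
  have hs := P.hs
  have hLd : P.L = 2 + P.d + P.s := rfl
  rcases lt_trichotomy k k' with h1 | h1 | h1
  · have := P.kL h1; linarith
  · exact h1
  · have := P.kL h1; linarith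

lemma plate_slab {k i k' : ℕ} {z : ℂ} (h : z ∈ P.plate k i) (h' : z ∈ P.slab k') : False := by
  rw [mem_plate] at h
  rw [mem_slab] at h'
  have hd := P.hd
  have hs := P.hs
  have hLd : P.L = 2 + P.d + P.s := rfl
  rcases lt_or_ge k' k with h1 | h1
  · have := P.kL h1; linarith
  · rcases eq_or_lt_of_le h1 with h2 | h2
    · rw [← h2] at h'; linarith
    · have := P.kL h2; linarith

def obs : Set (Set ℂ) :=
  {X | ∃ k < P.N, ∃ i < P.M, X = P.plate k i} ∪ {X | ∃ k, k + 1 < P.N ∧ X = P.slab k}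

lemma obs_finite : P.obs.Finite := by
  apply Set.Finite.union
  · apply ((Set.finite_Iio P.N).prod (Set.finite_Iio P.M)).image (fun z : ℕ × ℕ => P.plate z.1 z.2)
      |>.subset
    rintro X ⟨k, hk, i, hi, rfl⟩
    exact ⟨(k, i), ⟨hk, hi⟩, rfl⟩
  · apply ((Set.finite_Iio P.N).image P.slab).subset
    rintro X ⟨k, hk, rfl⟩
    exact ⟨k, by simp; omega, rfl⟩

/-- the space -/
noncomputable def space : Space where
  x₀ := 0
  x₁ := P.A
  y₀ := 0
  y₁ := P.A
  hx := by have := P.A_ge; linarith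
  hy := by have := P.A_ge; linarith
  obs := P.obs
  finite := P.obs_finite
  compact := by
    rintro X (⟨k, _, i, _, rfl⟩ | ⟨k, _, rfl⟩)
    · exact compact_rect _ _ _ _
    · exact compact_rect _ _ _ _
  smooth := by
    have hd := P.hd
    have hs := P.hs
    have hw := P.hw
    have hA := P.A_ge
    rintro X (⟨k, _, i, _, rfl⟩ | ⟨k, _, rfl⟩)
    · exact piecewiseSmooth_rect _ _ _ _ (by linarith) (by linarith)
    · exact piecewiseSmooth_rect _ _ _ _ (by linarith) (by linarith)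
  subset := by
    have hd := P.hd
    have hs := P.hs
    have hw := P.hw
    have hA := P.A_ge
    rintro X (⟨k, hk, i, hi, rfl⟩ | ⟨k, hk, rfl⟩)
    · intro z hz
      rw [mem_plate] at hz
      have h1 := P.fit hi
      have h2 := P.kA hk
      have h3 := P.kL0 k
      have h4 : 0 ≤ 2 * P.w * i := by positivity
      rw [Complex.mem_reProdIm, mem_Icc, mem_Icc]
      refine ⟨⟨?_, ?_⟩, ⟨?_, ?_⟩⟩ <;> linarith
    · intro z hz
      rw [mem_slab] at hz
      have h2 := P.kA' hk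
      have h3 := P.kL0 k
      have hL := P.L_pos
      have hs2 := P.hs2
      rw [Complex.mem_reProdIm, mem_Icc, mem_Icc]
      refine ⟨⟨?_, ?_⟩, ⟨?_, ?_⟩⟩ <;> linarith
  disjoint := by
    rintro X (⟨k, hk, i, hi, rfl⟩ | ⟨k, hk, rfl⟩) Y (⟨k', hk', i', hi', rfl⟩ | ⟨k', hk', rfl⟩) hne
    · rw [Function.onFun, id, id, Set.disjoint_left]
      intro z h h'
      obtain ⟨e1, e2⟩ := P.plate_unique h h'
      exact hne (by rw [e1, e2])
    · rw [Function.onFun, id, id, Set.disjoint_left]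
      intro z h h'
      exact P.plate_slab h h'
    · rw [Function.onFun, id, id, Set.disjoint_left]
      intro z h h'
      exact P.plate_slab h' h
    · rw [Function.onFun, id, id, Set.disjoint_left]
      intro z h h'
      exact hne (by rw [P.slab_unique h h'])

lemma mem_B {z : ℂ} : z ∈ P.space.B ↔
    (∃ k < P.N, ∃ i < P.M, z ∈ P.plate k i) ∨ (∃ k, k + 1 < P.N ∧ z ∈ P.slab k) := by
  constructor
  · rintro ⟨X, (⟨k, hk, i, hi, rfl⟩ | ⟨k, hk, rfl⟩), hz⟩
    · exact Or.inl ⟨k, hk, i, hi, hz⟩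
    · exact Or.inr ⟨k, hk, hz⟩
  · rintro (⟨k, hk, i, hi, hz⟩ | ⟨k, hk, hz⟩)
    · exact ⟨_, Or.inl ⟨k, hk, i, hi, rfl⟩, hz⟩
    · exact ⟨_, Or.inr ⟨k, hk, rfl⟩, hz⟩

lemma mem_rect {z : ℂ} : z ∈ P.space.rect ↔ (0 ≤ z.re ∧ z.re ≤ P.A) ∧ (0 ≤ z.im ∧ z.im ≤ P.A) := by
  simp [Space.rect, space, Complex.mem_reProdIm]

lemma mem_free {z : ℂ} : z ∈ P.space.free ↔
    ((0 ≤ z.re ∧ z.re ≤ P.A) ∧ (0 ≤ z.im ∧ z.im ≤ P.A)) ∧ z ∉ P.space.B := by
  rw [Space.free, mem_sdiff, mem_rect]

/-- heights belonging to floor `k` -/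
def Fl (k : ℕ) (y : ℝ) : Prop :=
  (k = 0 → 0 ≤ y) ∧ (k ≠ 0 → k * P.L < y) ∧ (k + 1 = P.N → y ≤ P.A) ∧
    (k + 1 ≠ P.N → y < k * P.L + 2 + P.d)

lemma Fl_conn {k : ℕ} {y1 y2 y : ℝ} (h1 : P.Fl k y1) (h2 : P.Fl k y2) (h3 : y1 ≤ y) (h4 : y ≤ y2) :
    P.Fl k y := by
  obtain ⟨a1, a2, a3, a4⟩ := h1
  obtain ⟨b1, b2, b3, b4⟩ := h2
  exact ⟨fun h => (a1 h).trans h3, fun h => (a2 h).trans_le h3, fun h => h4.trans (b3 h),
    fun h => h4.trans_lt (b4 h)⟩

lemma Fl_ge {k : ℕ} {y : ℝ} (h : P.Fl k y) : k * P.L ≤ y := by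
  by_cases hk : k = 0
  · have := h.1 hk
    rw [hk]; simpa using this
  · exact (h.2.1 hk).le

lemma Fl_le {k : ℕ} {y : ℝ} (hk : k < P.N) (h : P.Fl k y) : y ≤ k * P.L + 2 + P.d := by
  by_cases hk : k + 1 = P.N
  · have h1 := h.2.2.1 hk
    have : P.A = k * P.L + 2 + P.d := by
      unfold A
      have h2 : (P.N : ℝ) = k + 1 := by exact_mod_cast hk.symm
      rw [h2]; unfold L; ring
    linarith
  · exact (h.2.2.2 hk).le

lemma Fl_not_slab {k k' : ℕ} {z : ℂ} (h : P.Fl k z.im) (hk' : k' + 1 < P.N) :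
    z ∉ P.slab k' := by
  intro hz
  rw [mem_slab] at hz
  rcases lt_or_ge k' k with h1 | h1
  · have h2 := P.kL h1
    have h3 := h.2.1 (by omega)
    linarith
  · have h2 : k + 1 ≠ P.N := by omega
    have h3 := h.2.2.2 h2
    have hLd : P.L = 2 + P.d + P.s := rfl
    rcases eq_or_lt_of_le h1 with h4 | h4
    · rw [← h4] at hz; linarith
    · have := P.kL h4
      have := P.L_pos
      have := P.hs2
      linarith

lemma Fl_row {k k' : ℕ} {y : ℝ} (hk : k < P.N) (hk' : k' < P.N) (h : P.Fl k y)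
    (h1 : k' * P.L + 1 ≤ y) (h2 : y ≤ k' * P.L + 1 + P.d) : k' = k := by
  have hLd : P.L = 2 + P.d + P.s := rfl
  have hs := P.hs
  rcases lt_trichotomy k' k with h3 | h3 | h3
  · have := P.kL h3
    have := P.Fl_ge h
    linarith
  · exact h3
  · have := P.kL h3
    have := P.Fl_le hk h
    linarith

lemma Fl_range {k : ℕ} {y : ℝ} (hk : k < P.N) (h : P.Fl k y) : 0 ≤ y ∧ y ≤ P.A := by
  have h1 := P.Fl_ge h
  have h2 := P.Fl_le hk h
  have h3 := P.kA hk
  have h4 := P.kL0 k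
  constructor <;> linarith

/-- freeness criterion on a floor -/
lemma free_of_Fl {k : ℕ} (hk : k < P.N) {z : ℂ} (hx0 : 0 ≤ z.re) (hx1 : z.re ≤ P.A)
    (h : P.Fl k z.im)
    (hpl : ∀ i < P.M, z ∉ P.plate k i) : z ∈ P.space.free := by
  rw [mem_free]
  refine ⟨⟨⟨hx0, hx1⟩, P.Fl_range hk h⟩, ?_⟩
  rw [mem_B]
  rintro (⟨k', hk', i, hi, hz⟩ | ⟨k', hk', hz⟩)
  · have hz' := hz
    rw [mem_plate] at hz'
    have := P.Fl_row hk hk' h hz'.2.1 hz'.2.2
    rw [this] at hz
    exact hpl i hi hz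
  · exact P.Fl_not_slab h hk' hz

/-- every free point away from the side strips lies on some floor -/
lemma exists_floor {z : ℂ} (hz : z ∈ P.space.free) (h1 : 1 ≤ z.re) (h2 : z.re ≤ P.A - 1) :
    ∃ k < P.N, P.Fl k z.im := by
  rw [mem_free, mem_B] at hz
  obtain ⟨⟨_, hy0, hy1⟩, hB⟩ := hz
  push Not at hB
  obtain ⟨_, hB⟩ := hB
  have hL := P.L_pos
  have hs := P.hs
  have hLd : P.L = 2 + P.d + P.s := rfl
  set k := ⌊z.im / P.L⌋₊ with hk
  have hk1 : (k : ℝ) * P.L ≤ z.im := by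
    have := Nat.floor_le (a := z.im / P.L) (by positivity)
    rw [le_div_iff₀ (by linarith)] at this
    exact this
  have hk2 : z.im < (k + 1) * P.L := by
    have := Nat.lt_floor_add_one (z.im / P.L)
    rw [div_lt_iff₀ (by linarith)] at this
    exact this
  have hkN : k < P.N := by
    by_contra hcon
    push Not at hcon
    have h3 : (P.N : ℝ) ≤ k := by exact_mod_cast hcon
    have h4 : (P.N : ℝ) * P.L ≤ k * P.L := mul_le_mul_of_nonneg_right h3 (by linarith)
    have h5 : P.A = P.N * P.L - P.s := rfl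
    linarith
  refine ⟨k, hkN, ?_, ?_, ?_, ?_⟩
  · intro _; exact hy0
  · intro hk0
    rcases eq_or_lt_of_le hk1 with h | h
    · exfalso
      obtain ⟨j, hj⟩ := Nat.exists_eq_succ_of_ne_zero hk0
      have h3 := hB j (by omega)
      apply h3
      rw [mem_slab]
      have h4 : (k : ℝ) = j + 1 := by rw [hj]; push_cast; ring
      rw [h4] at h
      exact ⟨⟨h1, h2⟩, by linarith, by linarith⟩
    · exact h
  · intro _; exact hy1
  · intro hkN'
    by_contra hcon
    push Not at hcon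
    have h3 := hB k (by omega)
    apply h3
    rw [mem_slab]
    exact ⟨⟨h1, h2⟩, by linarith, by linarith⟩

end Par

lemma seg_re {v u p : ℂ} (hp : p ∈ segment ℝ v u) :
    (v.re ≤ p.re ∧ p.re ≤ u.re) ∨ (u.re ≤ p.re ∧ p.re ≤ v.re) := by
  obtain ⟨t, h0, h1, h2, _⟩ := seg_param v u p hp
  rcases le_total v.re u.re with h | h
  · left; constructor <;> nlinarith
  · right; constructor <;> nlinarith

lemma seg_im {v u p : ℂ} (hp : p ∈ segment ℝ v u) :
    (v.im ≤ p.im ∧ p.im ≤ u.im) ∨ (u.im ≤ p.im ∧ p.im ≤ v.im) := by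
  obtain ⟨t, h0, h1, _, h2⟩ := seg_param v u p hp
  rcases le_total v.im u.im with h | h
  · left; constructor <;> nlinarith
  · right; constructor <;> nlinarith

namespace Par

variable (P : Par)

lemma vol_free_lt : volume P.space.rect < ⊤ := by
  have : P.space.rect = Icc 0 P.A ×ℂ Icc 0 P.A := rfl
  rw [this, vol_Icc _ _ _ _ (by have := P.A_ge; linarith)]
  exact ENNReal.ofReal_lt_top

/-- area of the visible region from a rectangle contained in it -/
lemma area_vis_ge {v : ℂ} {a b c e : ℝ} (hab : a ≤ b)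
    (h : Ioo a b ×ℂ Ioo c e ⊆ P.space.vis v) : (b - a) * (e - c) ≤ Space.area (P.space.vis v) := by
  have h1 : P.space.vis v ⊆ P.space.rect := by
    intro u hu
    exact (hu (right_mem_segment ℝ v u)).1
  have h2 : volume (P.space.vis v) ≠ ⊤ := ((measure_mono h1).trans_lt P.vol_free_lt).ne
  have h3 := measure_mono (μ := volume) h
  rw [vol_Ioo _ _ _ _ hab] at h3
  have h4 := (ENNReal.toReal_mono h2 h3)
  refine le_trans ?_ h4
  rw [ENNReal.toReal_ofReal']
  exact le_max_left _ _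

lemma vis_strip_left {v : ℂ} (hv : v ∈ P.space.free) (h : v.re < 1) :
    1 ≤ Space.area (P.space.vis v) := by
  rw [mem_free] at hv
  have hA := P.A_ge
  refine le_trans ?_ (P.area_vis_ge (a := 0) (b := 1) (c := 0) (e := P.A) (by norm_num) ?_)
  · linarith
  · intro u hu p hp
    rw [Complex.mem_reProdIm, mem_Ioo, mem_Ioo] at hu
    have h1 := seg_re hp
    have h2 := seg_im hp
    have hp1 : 0 ≤ p.re ∧ p.re < 1 := by
      rcases h1 with h1 | h1 <;> constructor <;> linarith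
    have hp2 : 0 ≤ p.im ∧ p.im ≤ P.A := by
      rcases h2 with h2 | h2 <;> constructor <;> linarith
    rw [mem_free, mem_B]
    refine ⟨⟨⟨hp1.1, by linarith⟩, hp2⟩, ?_⟩
    have hw := P.hw
    rintro (⟨k, _, i, _, hz⟩ | ⟨k, _, hz⟩)
    · rw [mem_plate] at hz
      have : 0 ≤ 2 * P.w * i := by positivity
      linarith
    · rw [mem_slab] at hz
      linarith

lemma vis_strip_right {v : ℂ} (hv : v ∈ P.space.free) (h : P.A - 1 < v.re) :
    1 ≤ Space.area (P.space.vis v) := by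
  rw [mem_free] at hv
  have hA := P.A_ge
  refine le_trans ?_ (P.area_vis_ge (a := P.A - 1) (b := P.A) (c := 0) (e := P.A) (by linarith) ?_)
  · linarith
  · intro u hu p hp
    rw [Complex.mem_reProdIm, mem_Ioo, mem_Ioo] at hu
    have h1 := seg_re hp
    have h2 := seg_im hp
    have hp1 : P.A - 1 < p.re ∧ p.re ≤ P.A := by
      rcases h1 with h1 | h1 <;> constructor <;> linarith
    have hp2 : 0 ≤ p.im ∧ p.im ≤ P.A := by
      rcases h2 with h2 | h2 <;> constructor <;> linarith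
    rw [mem_free, mem_B]
    refine ⟨⟨⟨by linarith, hp1.2⟩, hp2⟩, ?_⟩
    have hw := P.hw
    rintro (⟨k, _, i, hi, hz⟩ | ⟨k, _, hz⟩)
    · rw [mem_plate] at hz
      have := P.fit hi
      linarith
    · rw [mem_slab] at hz
      linarith

lemma Fl_lower {k : ℕ} (hk : k < P.N) {y : ℝ} (h1 : k * P.L < y) (h2 : y < k * P.L + 1) :
    P.Fl k y := by
  have h3 := P.kA hk
  have h4 := P.kL0 k
  have hd := P.hd
  refine ⟨fun _ => by linarith, fun _ => h1, fun _ => by linarith, fun _ => by linarith⟩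

lemma Fl_upper {k : ℕ} (hk : k < P.N) {y : ℝ} (h1 : k * P.L + 1 ≤ y)
    (h2 : y < k * P.L + 2 + P.d) : P.Fl k y := by
  have h3 := P.kA hk
  have h4 := P.kL0 k
  refine ⟨fun _ => by linarith, fun _ => by linarith, fun _ => by linarith, fun _ => by linarith⟩

lemma vis_lower {v : ℂ} (hv : v ∈ P.space.free) {k : ℕ} (hk : k < P.N) (hF : P.Fl k v.im)
    (h : v.im < k * P.L + 1) : 1 ≤ Space.area (P.space.vis v) := by
  rw [mem_free] at hv
  have hA := P.A_ge
  refine le_trans ?_ (P.area_vis_ge (a := 0) (b := P.A) (c := k * P.L) (e := k * P.L + 1)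
    (by linarith) ?_)
  · linarith
  · intro u hu p hp
    rw [Complex.mem_reProdIm, mem_Ioo, mem_Ioo] at hu
    have hFu := P.Fl_lower hk hu.2.1 hu.2.2
    have h1 := seg_re hp
    have h2 := seg_im hp
    have hp1 : 0 ≤ p.re ∧ p.re ≤ P.A := by
      rcases h1 with h1 | h1 <;> constructor <;> linarith
    have hp2 : P.Fl k p.im ∧ p.im < k * P.L + 1 := by
      rcases h2 with h2 | h2
      · exact ⟨P.Fl_conn hF hFu h2.1 h2.2, by linarith⟩
      · exact ⟨P.Fl_conn hFu hF h2.1 h2.2, by linarith⟩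
    apply P.free_of_Fl hk hp1.1 hp1.2 hp2.1
    intro i _ hz
    rw [mem_plate] at hz
    linarith

lemma vis_upper {v : ℂ} (hv : v ∈ P.space.free) {k : ℕ} (hk : k < P.N) (hF : P.Fl k v.im)
    (h : k * P.L + 1 + P.d < v.im) : 1 ≤ Space.area (P.space.vis v) := by
  rw [mem_free] at hv
  have hA := P.A_ge
  have hd := P.hd
  refine le_trans ?_ (P.area_vis_ge (a := 0) (b := P.A) (c := k * P.L + 1 + P.d)
    (e := k * P.L + 2 + P.d) (by linarith) ?_)
  · linarith
  · intro u hu p hp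
    rw [Complex.mem_reProdIm, mem_Ioo, mem_Ioo] at hu
    have hFu := P.Fl_upper hk (y := u.im) (by linarith) hu.2.2
    have h1 := seg_re hp
    have h2 := seg_im hp
    have hp1 : 0 ≤ p.re ∧ p.re ≤ P.A := by
      rcases h1 with h1 | h1 <;> constructor <;> linarith
    have hp2 : P.Fl k p.im ∧ k * P.L + 1 + P.d < p.im := by
      rcases h2 with h2 | h2
      · exact ⟨P.Fl_conn hF hFu h2.1 h2.2, by linarith⟩
      · exact ⟨P.Fl_conn hFu hF h2.1 h2.2, by linarith⟩
    apply P.free_of_Fl hk hp1.1 hp1.2 hp2.1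
    intro i _ hz
    rw [mem_plate] at hz
    linarith

lemma vis_left {v : ℂ} (hv : v ∈ P.space.free) {k : ℕ} (hk : k < P.N) (hF : P.Fl k v.im)
    (h : v.re < 2) : 1 ≤ Space.area (P.space.vis v) := by
  rw [mem_free] at hv
  have hA := P.A_ge
  have hd := P.hd
  refine le_trans ?_ (P.area_vis_ge (a := 0) (b := 2) (c := k * P.L) (e := k * P.L + 1)
    (by linarith) ?_)
  · linarith
  · intro u hu p hp
    rw [Complex.mem_reProdIm, mem_Ioo, mem_Ioo] at hu
    have hFu := P.Fl_lower hk hu.2.1 hu.2.2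
    have h1 := seg_re hp
    have h2 := seg_im hp
    have hp1 : 0 ≤ p.re ∧ p.re < 2 := by
      rcases h1 with h1 | h1 <;> constructor <;> linarith
    have hp2 : P.Fl k p.im := by
      rcases h2 with h2 | h2
      · exact P.Fl_conn hF hFu h2.1 h2.2
      · exact P.Fl_conn hFu hF h2.1 h2.2
    apply P.free_of_Fl hk hp1.1 (by linarith) hp2
    intro i _ hz
    rw [mem_plate] at hz
    have hw := P.hw
    have : 0 ≤ 2 * P.w * i := by positivity
    linarith

lemma vis_right {v : ℂ} (hv : v ∈ P.space.free) {k : ℕ} (hk : k < P.N) (hF : P.Fl k v.im)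
    (h : ∀ i < P.M, 2 + 2 * P.w * i + P.w < v.re) : 1 ≤ Space.area (P.space.vis v) := by
  rw [mem_free] at hv
  have hA := P.A_ge
  have hd := P.hd
  have hM := P.hM
  have h0 := h (P.M - 1) (by omega)
  have hf := P.fit (i := P.M - 1) (by omega)
  have hw := P.hw
  refine le_trans ?_ (P.area_vis_ge (a := P.A - 2) (b := P.A) (c := k * P.L) (e := k * P.L + 1)
    (by linarith) ?_)
  · linarith
  · intro u hu p hp
    rw [Complex.mem_reProdIm, mem_Ioo, mem_Ioo] at hu
    have hFu := P.Fl_lower hk hu.2.1 hu.2.2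
    have h1 := seg_re hp
    have h2 := seg_im hp
    have hp1 : 2 + 2 * P.w * ((P.M - 1 : ℕ) : ℝ) + P.w < p.re ∧ p.re ≤ P.A := by
      rcases h1 with h1 | h1 <;> constructor <;> linarith
    have hp2 : P.Fl k p.im := by
      rcases h2 with h2 | h2
      · exact P.Fl_conn hF hFu h2.1 h2.2
      · exact P.Fl_conn hFu hF h2.1 h2.2
    have hpos : 0 ≤ 2 * P.w * ((P.M - 1 : ℕ) : ℝ) := by positivity
    apply P.free_of_Fl hk (by linarith) hp1.2 hp2
    intro i hi hz
    rw [mem_plate] at hz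
    have h5 : (i : ℝ) ≤ ((P.M - 1 : ℕ) : ℝ) := by
      have : i ≤ P.M - 1 := by omega
      exact_mod_cast this
    nlinarith

/-- points of an open channel are free -/
lemma channel_free {k i : ℕ} (hk : k < P.N) (hi : i + 1 < P.M) {z : ℂ}
    (hx1 : 2 + 2 * P.w * i + P.w < z.re) (hx2 : z.re < 2 + 2 * P.w * i + 2 * P.w)
    (hy1 : k * P.L + 1 ≤ z.im) (hy2 : z.im ≤ k * P.L + 1 + P.d) : z ∈ P.space.free := by
  have hw := P.hw
  have hf := P.fit (i := i) (by omega)
  have hpos : 0 ≤ 2 * P.w * (i : ℝ) := by positivity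
  apply P.free_of_Fl hk (by linarith) (by linarith) (P.Fl_upper hk hy1 (by linarith))
  intro j _ hz
  rw [mem_plate] at hz
  rcases lt_trichotomy i j with h | h | h
  · have := P.iw h; linarith
  · rw [← h] at hz; linarith
  · have := P.iw h; linarith

lemma vis_channel {k i : ℕ} (hk : k < P.N) (hi : i + 1 < P.M) {v : ℂ}
    (hx1 : 2 + 2 * P.w * i + P.w < v.re) (hx2 : v.re < 2 + 2 * P.w * i + 2 * P.w)
    (hy1 : k * P.L + 1 ≤ v.im) (hy2 : v.im ≤ k * P.L + 1 + P.d) :
    P.w / (4 * P.d) ≤ Space.area (P.space.vis v) := by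
  have hw := P.hw
  have hd := P.hd
  have hd2 := P.hd2
  have hw2 := P.hw2
  have hf := P.fit (i := i) (by omega)
  have hpos : 0 ≤ 2 * P.w * (i : ℝ) := by positivity
  set x1 := 2 + 2 * P.w * i + P.w with hx1d
  set x2 := 2 + 2 * P.w * i + 2 * P.w with hx2d
  set Y := k * P.L + 1 with hY
  have hq : P.w / (2 * P.d) ≤ 1 / 16 := by
    rw [div_le_iff₀ (by linarith)]; linarith
  have hl : (v.re - x1) / (2 * P.d) ≤ P.w / (2 * P.d) :=
    div_le_div_of_nonneg_right (by linarith) (by linarith)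
  have hr : (x2 - v.re) / (2 * P.d) ≤ P.w / (2 * P.d) :=
    div_le_div_of_nonneg_right (by linarith) (by linarith)
  have hl0 : 0 ≤ (v.re - x1) / (2 * P.d) := div_nonneg (by linarith) (by linarith)
  have hr0 : 0 ≤ (x2 - v.re) / (2 * P.d) := div_nonneg (by linarith) (by linarith)
  refine le_trans (le_of_eq ?_) (P.area_vis_ge (a := v.re - (v.re - x1) / (2 * P.d))
    (b := v.re + (x2 - v.re) / (2 * P.d)) (c := v.im + 1 / 2) (e := v.im + 1) (by linarith) ?_)
  · rw [hx1d, hx2d]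
    field_simp
    ring
  · intro u hu p hp
    rw [Complex.mem_reProdIm, mem_Ioo, mem_Ioo] at hu
    obtain ⟨⟨u1, u2⟩, u3, u4⟩ := hu
    obtain ⟨t, ht0, ht1, hpr, hpi⟩ := seg_param v u p hp
    have g1 : P.d ≤ u.im - v.im := by linarith
    rcases le_or_gt p.im (Y + P.d) with hle | hgt
    · -- inside the channel
      have ht : t * (u.im - v.im) ≤ P.d := by
        have : v.im + t * (u.im - v.im) ≤ Y + P.d := by rw [← hpi]; exact hle
        linarith
      have ht2 : t ≤ 2 * P.d := by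
        have : t * (1 / 2) ≤ t * (u.im - v.im) := mul_le_mul_of_nonneg_left (by linarith) ht0
        linarith
      have e1 : (v.re - x1) / (2 * P.d) * (2 * P.d) = v.re - x1 := by field_simp
      have e2 : (x2 - v.re) / (2 * P.d) * (2 * P.d) = x2 - v.re := by field_simp
      have hre1 : x1 < p.re := by
        rw [hpr]
        rcases eq_or_lt_of_le ht0 with h0 | h0
        · rw [← h0]; simp; exact hx1
        · have h6 : t * (v.re - u.re) < t * ((v.re - x1) / (2 * P.d)) :=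
            mul_lt_mul_of_pos_left (by linarith) h0
          have h7 : t * ((v.re - x1) / (2 * P.d)) ≤ 2 * P.d * ((v.re - x1) / (2 * P.d)) :=
            mul_le_mul_of_nonneg_right ht2 hl0
          linarith
      have hre2 : p.re < x2 := by
        rw [hpr]
        rcases eq_or_lt_of_le ht0 with h0 | h0
        · rw [← h0]; simp; exact hx2
        · have h6 : t * (u.re - v.re) < t * ((x2 - v.re) / (2 * P.d)) :=
            mul_lt_mul_of_pos_left (by linarith) h0
          have h7 : t * ((x2 - v.re) / (2 * P.d)) ≤ 2 * P.d * ((x2 - v.re) / (2 * P.d)) :=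
            mul_le_mul_of_nonneg_right ht2 hr0
          linarith
      have him : Y ≤ p.im := by
        rw [hpi]
        have : 0 ≤ t * (u.im - v.im) := mul_nonneg ht0 (by linarith)
        linarith
      exact P.channel_free hk hi hre1 hre2 him hle
    · -- in the upper room
      have him : p.im < k * P.L + 2 + P.d := by
        rw [hpi]
        have : t * (u.im - v.im) ≤ 1 * (u.im - v.im) := mul_le_mul_of_nonneg_right ht1 (by linarith)
        linarith
      have hre : 0 ≤ p.re ∧ p.re ≤ P.A := by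
        rcases seg_re hp with h | h <;> constructor <;> linarith
      apply P.free_of_Fl hk hre.1 hre.2 (P.Fl_upper hk (by linarith) him)
      intro j _ hz
      rw [mem_plate] at hz
      linarith

theorem vis_all {v : ℂ} (hv : v ∈ P.space.free) : P.w / (4 * P.d) ≤ Space.area (P.space.vis v) := by
  have hw := P.hw
  have hd := P.hd
  have hw2 := P.hw2
  have h1 : P.w / (4 * P.d) ≤ 1 := by
    rw [div_le_iff₀ (by linarith)]; linarith
  rcases lt_or_ge v.re 1 with h | h
  · exact h1.trans (P.vis_strip_left hv h)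
  rcases lt_or_ge (P.A - 1) v.re with h' | h'
  · exact h1.trans (P.vis_strip_right hv h')
  obtain ⟨k, hk, hF⟩ := P.exists_floor hv h h'
  rcases lt_or_ge v.im (k * P.L + 1) with h2 | h2
  · exact h1.trans (P.vis_lower hv hk hF h2)
  rcases lt_or_ge (k * P.L + 1 + P.d) v.im with h3 | h3
  · exact h1.trans (P.vis_upper hv hk hF h3)
  rcases lt_or_ge v.re 2 with h4 | h4
  · exact h1.trans (P.vis_left hv hk hF h4)
  by_cases h5 : ∀ i < P.M, 2 + 2 * P.w * i + P.w < v.re
  · exact h1.trans (P.vis_right hv hk hF h5)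
  · push Not at h5
    -- smallest such i
    classical
    have hex : ∃ i, i < P.M ∧ v.re ≤ 2 + 2 * P.w * i + P.w := h5
    set i := Nat.find hex with hi
    obtain ⟨hi1, hi2⟩ := Nat.find_spec hex
    rw [← hi] at hi1 hi2
    have hnp : v ∉ P.plate k i := by
      intro hz
      have := (P.mem_free.1 hv).2
      exact this (P.mem_B.2 (Or.inl ⟨k, hk, i, hi1, hz⟩))
    have hlt : v.re < 2 + 2 * P.w * i := by
      by_contra hcon
      push Not at hcon
      exact hnp (P.mem_plate.2 ⟨⟨hcon, hi2⟩, h2, h3⟩)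
    have hi0 : i ≠ 0 := by
      intro h0
      rw [h0] at hlt
      simp at hlt
      linarith
    obtain ⟨j, hj⟩ := Nat.exists_eq_succ_of_ne_zero hi0
    have hj2 : ¬ (j < P.M ∧ v.re ≤ 2 + 2 * P.w * j + P.w) := Nat.find_min hex (by rw [← hi]; omega)
    have hj3 : 2 + 2 * P.w * j + P.w < v.re := by
      by_contra hcon
      push Not at hcon
      exact hj2 ⟨by omega, hcon⟩
    refine P.vis_channel hk (i := j) (by omega) hj3 ?_ h2 h3
    rw [hj] at hlt
    push_cast at hlt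
    linarith

end Par

end Pool.Agent.V11167.Vis
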