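import Pool.Agent.V11167.VisB

/-! Upper bound for the visible boundary (for MP_9521de_co). -/

namespace Pool.Agent.V11167.Vis

open MeasureTheory Set

namespace Par

variable (P : Par)

lemma B_closed (S : Space) : IsClosed S.B := by
  rw [Space.B, sUnion_eq_biUnion]
  exact S.finite.isClosed_biUnion fun B hB => (S.compact B hB).isClosed

/-- boundary points lie in the rectangle, and are either in an obstacle or on a side -/
lemma W_sub {u : ℂ} (hu : u ∈ P.space.W) : u ∈ P.space.rect ∧
    (u ∈ P.space.B ∨ (u.re = 0 ∨ u.re = P.A ∨ u.im = 0 ∨ u.im = P.A)) := by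
  rcases hu with h | h
  · have h1 : u ∈ P.space.B := (B_closed P.space).frontier_subset h
    refine ⟨?_, Or.inl h1⟩
    obtain ⟨X, hX, huX⟩ := h1
    exact P.space.subset X hX huX
  · have hcl : IsClosed P.space.rect := (compact_rect _ _ _ _).isClosed
    refine ⟨hcl.frontier_subset h, Or.inr ?_⟩
    have h2 : P.space.rect = Icc 0 P.A ×ℂ Icc 0 P.A := rfl
    have hA := P.A_ge
    rw [h2, frontier_rect _ _ _ _ (by linarith) (by linarith)] at h
    tauto

lemma between {a b lo hi t : ℝ} (h1 : lo ≤ a) (h2 : a ≤ hi) (h3 : lo ≤ b) (h4 : b ≤ hi)
    (h5 : 0 ≤ t) (h6 : t ≤ 1) : lo ≤ a + t * (b - a) ∧ a + t * (b - a) ≤ hi := by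
  constructor
  · nlinarith
  · nlinarith

set_option maxHeartbeats 2000000 in
lemma visBd_main {k i : ℕ} (hk : k < P.N) (hi : i + 1 < P.M) {v u : ℂ}
    (hx1 : 2 + 2 * P.w * i + P.w < v.re) (hx2 : v.re < 2 + 2 * P.w * i + 2 * P.w)
    (hy1 : k * P.L + 1 + P.d / 4 ≤ v.im) (hy2 : v.im ≤ k * P.L + 1 + 3 * P.d / 4)
    (hu : u ∈ P.space.visBd v) :
    ((k * P.L + 1 ≤ u.im ∧ u.im ≤ k * P.L + 1 + P.d) ∧
      (u.re = 2 + 2 * P.w * i + P.w ∨ u.re = 2 + 2 * P.w * i + 2 * P.w)) ∨
    ((v.re - 6 * (P.w / P.d) ≤ u.re ∧ u.re ≤ v.re + 6 * (P.w / P.d)) ∧
      (u.im = k * P.L ∨ u.im = k * P.L + 2 + P.d)) := by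
  have hw := P.hw
  have hd := P.hd
  have hd2 := P.hd2
  have hw2 := P.hw2
  have hs := P.hs
  have hLd : P.L = 2 + P.d + P.s := rfl
  have hf := P.fit (i := i + 1) hi
  push_cast at hf
  have hpos : 0 ≤ 2 * P.w * (i : ℝ) := by positivity
  have hkA := P.kA hk
  have hkL := P.kL0 k
  have hvfree : v ∈ P.space.free := P.channel_free hk hi hx1 hx2 (by linarith) (by linarith)
  have hvB : v ∉ P.space.B := hvfree.2
  have hav : ∀ p ∈ segment ℝ v u, p ≠ u → p ∉ P.space.B := fun p hp hpu =>
    visBd_avoid P.space v u hvB hu p hp hpu
  obtain ⟨hurect, hucase⟩ := P.W_sub hu.1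
  rw [mem_rect] at hurect
  set x1 := 2 + 2 * P.w * i + P.w with hx1d
  set x2 := 2 + 2 * P.w * i + 2 * P.w with hx2d
  set Y := k * P.L + 1 with hY
  set Q := P.w / P.d with hQ
  have hQd : Q * P.d = P.w := by rw [hQ]; field_simp
  have hQ8 : Q ≤ 1 / 8 := by rw [hQ, div_le_iff₀ hd]; linarith
  have hQ0 : 0 < Q := by rw [hQ]; positivity
  -- walls
  have wallL : ∀ t : ℝ, 0 ≤ t → t < 1 → v.re + t * (u.re - v.re) = x1 →
      Y ≤ v.im + t * (u.im - v.im) → v.im + t * (u.im - v.im) ≤ Y + P.d → u.re ≠ x1 → False := by
    intro t ht0 ht1 h1 h2 h3 hne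
    have hp := seg_point v u t ht0 ht1.le
    refine hav _ hp ?_ ?_
    · intro h
      have := congrArg Complex.re h
      simp only at this
      rw [h1] at this
      exact hne this.symm
    · rw [mem_B]
      refine Or.inl ⟨k, hk, i, by omega, ?_⟩
      rw [mem_plate]
      simp only [h1]
      refine ⟨⟨by linarith, by linarith⟩, h2, h3⟩
  have wallR : ∀ t : ℝ, 0 ≤ t → t < 1 → v.re + t * (u.re - v.re) = x2 →
      Y ≤ v.im + t * (u.im - v.im) → v.im + t * (u.im - v.im) ≤ Y + P.d → u.re ≠ x2 → False := by
    intro t ht0 ht1 h1 h2 h3 hne
    have hp := seg_point v u t ht0 ht1.le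
    refine hav _ hp ?_ ?_
    · intro h
      have := congrArg Complex.re h
      simp only at this
      rw [h1] at this
      exact hne this.symm
    · rw [mem_B]
      refine Or.inl ⟨k, hk, i + 1, hi, ?_⟩
      rw [mem_plate]
      simp only [h1]
      push_cast
      refine ⟨⟨by linarith, by linarith⟩, h2, h3⟩
  rcases lt_or_ge u.im Y with hlo | hlo
  · -- below
    right
    have hT : 0 < v.im - u.im := by linarith
    set t0 := (v.im - Y) / (v.im - u.im) with ht0
    have ht0p : 0 < t0 := div_pos (by linarith) hT
    have ht01 : t0 < 1 := by rw [ht0, div_lt_one hT]; linarith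
    have ht0m : t0 * (v.im - u.im) = v.im - Y := by rw [ht0]; field_simp
    have key : |t0 * (u.re - v.re)| < P.w := by
      rw [abs_lt]
      constructor
      · by_contra hcon
        push Not at hcon
        -- crosses x1 before leaving
        have hxx : t0 * (v.re - u.re) ≥ P.w := by linarith
        have hneg : 0 < v.re - u.re := by
          by_contra hc
          push Not at hc
          have : t0 * (v.re - u.re) ≤ 0 := mul_nonpos_of_nonneg_of_nonpos ht0p.le hc
          linarith
        set t1 := (v.re - x1) / (v.re - u.re) with ht1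
        have ht1m : t1 * (v.re - u.re) = v.re - x1 := by rw [ht1]; field_simp
        have ht1p : 0 ≤ t1 := div_nonneg (by linarith) hneg.le
        have ht1t0 : t1 < t0 := by
          by_contra hc
          push Not at hc
          have : t0 * (v.re - u.re) ≤ t1 * (v.re - u.re) := mul_le_mul_of_nonneg_right hc hneg.le
          linarith
        have e1 : t1 * (v.im - u.im) ≤ t0 * (v.im - u.im) := mul_le_mul_of_nonneg_right ht1t0.le hT.le
        have e2 : 0 ≤ t1 * (v.im - u.im) := mul_nonneg ht1p hT.le
        refine wallL t1 ht1p (by linarith) (by linarith) (by linarith) (by linarith) ?_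
        intro hux
        rw [hux] at ht1m
        have : t1 = 1 := by
          have h3 : 0 < v.re - x1 := by linarith
          have h4 : (t1 - 1) * (v.re - x1) = 0 := by linarith
          rcases mul_eq_zero.1 h4 with h | h
          · linarith
          · linarith
        linarith
      · by_contra hcon
        push Not at hcon
        have hneg : 0 < u.re - v.re := by
          by_contra hc
          push Not at hc
          have : t0 * (u.re - v.re) ≤ 0 := mul_nonpos_of_nonneg_of_nonpos ht0p.le hc
          linarith
        set t1 := (x2 - v.re) / (u.re - v.re) with ht1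
        have ht1m : t1 * (u.re - v.re) = x2 - v.re := by rw [ht1]; field_simp
        have ht1p : 0 ≤ t1 := div_nonneg (by linarith) hneg.le
        have ht1t0 : t1 < t0 := by
          by_contra hc
          push Not at hc
          have : t0 * (u.re - v.re) ≤ t1 * (u.re - v.re) := mul_le_mul_of_nonneg_right hc hneg.le
          linarith
        have e1 : t1 * (v.im - u.im) ≤ t0 * (v.im - u.im) := mul_le_mul_of_nonneg_right ht1t0.le hT.le
        have e2 : 0 ≤ t1 * (v.im - u.im) := mul_nonneg ht1p hT.le
        refine wallR t1 ht1p (by linarith) (by linarith) (by linarith) (by linarith) ?_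
        intro hux
        rw [hux] at ht1m
        have : t1 = 1 := by
          have h3 : 0 < x2 - v.re := by linarith
          have h4 : (t1 - 1) * (x2 - v.re) = 0 := by linarith
          rcases mul_eq_zero.1 h4 with h | h
          · linarith
          · linarith
        linarith
    -- slope bound
    have hslope : |u.re - v.re| ≤ 4 * Q * (v.im - u.im) := by
      rw [abs_mul, abs_of_pos ht0p] at key
      have h1 : P.d / 4 ≤ t0 * (v.im - u.im) := by linarith
      have h2 : (t0 * (v.im - u.im)) * |u.re - v.re| ≤ P.w * (v.im - u.im) := by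
        have : t0 * |u.re - v.re| * (v.im - u.im) ≤ P.w * (v.im - u.im) :=
          mul_le_mul_of_nonneg_right key.le hT.le
        linarith
      have h3 : P.d / 4 * |u.re - v.re| ≤ (t0 * (v.im - u.im)) * |u.re - v.re| :=
        mul_le_mul_of_nonneg_right h1 (abs_nonneg _)
      have h4 : P.d / 4 * |u.re - v.re| ≤ P.d / 4 * (4 * Q * (v.im - u.im)) := by
        calc P.d / 4 * |u.re - v.re| ≤ P.w * (v.im - u.im) := h3.trans h2
          _ = P.d / 4 * (4 * Q * (v.im - u.im)) := by rw [← hQd]; ring
      exact le_of_mul_le_mul_left h4 (by positivity)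
    have hrange : ∀ t : ℝ, 0 ≤ t → t ≤ 1 → t * (v.im - u.im) ≤ 3 / 2 →
        |t * (u.re - v.re)| ≤ 6 * Q := by
      intro t h0 h1 h2
      rw [abs_mul, abs_of_nonneg h0]
      calc t * |u.re - v.re| ≤ t * (4 * Q * (v.im - u.im)) := mul_le_mul_of_nonneg_left hslope h0
        _ = 4 * Q * (t * (v.im - u.im)) := by ring
        _ ≤ 4 * Q * (3 / 2) := mul_le_mul_of_nonneg_left h2 (by positivity)
        _ = 6 * Q := by ring
    have hge : k * P.L ≤ u.im := by
      by_contra hcon
      push Not at hcon
      set t2 := (v.im - k * P.L) / (v.im - u.im) with ht2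
      have ht2p : 0 ≤ t2 := div_nonneg (by linarith) hT.le
      have ht21 : t2 < 1 := by rw [ht2, div_lt_one hT]; linarith
      have ht2m : t2 * (v.im - u.im) = v.im - k * P.L := by rw [ht2]; field_simp
      have hr := abs_le.1 (hrange t2 ht2p ht21.le (by linarith))
      by_cases hk0 : k = 0
      · rw [hk0] at hcon
        simp at hcon
        linarith [hurect.2.1]
      · obtain ⟨j, hj⟩ := Nat.exists_eq_succ_of_ne_zero hk0
        have hp := seg_point v u t2 ht2p ht21.le
        refine hav _ hp ?_ ?_
        · intro h
          have := congrArg Complex.im h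
          simp only at this
          linarith
        · rw [mem_B]
          refine Or.inr ⟨j, by omega, ?_⟩
          rw [mem_slab]
          simp only
          have h4 : (k : ℝ) = j + 1 := by rw [hj]; push_cast; ring
          rw [← h4]
          refine ⟨⟨by linarith, by linarith⟩, by linarith, by linarith⟩
    have hr1 := abs_le.1 (hrange 1 (by norm_num) le_rfl (by linarith))
    refine ⟨⟨by linarith, by linarith⟩, Or.inl ?_⟩
    rcases eq_or_lt_of_le hge with h | h
    · exact h.symm
    · exfalso
      have hfree : u ∈ P.space.free := by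
        apply P.free_of_Fl hk hurect.1.1 hurect.1.2 (P.Fl_lower hk h (by linarith))
        intro j _ hz
        rw [mem_plate] at hz
        linarith
      rcases hucase with h1 | h1 | h1 | h1 | h1
      · exact hfree.2 h1
      · linarith
      · linarith
      · linarith
      · linarith
  · rcases le_or_gt u.im (Y + P.d) with hhi | hhi
    · -- same height as the channel
      left
      refine ⟨⟨hlo, hhi⟩, ?_⟩
      have him : ∀ t : ℝ, 0 ≤ t → t ≤ 1 → Y ≤ v.im + t * (u.im - v.im) ∧
          v.im + t * (u.im - v.im) ≤ Y + P.d := by
        intro t h0 h1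
        exact between (by linarith) (by linarith) hlo hhi h0 h1
      rcases lt_trichotomy u.re x1 with h | h | h
      · exfalso
        have hneg : 0 < v.re - u.re := by linarith
        set t1 := (v.re - x1) / (v.re - u.re) with ht1
        have ht1m : t1 * (v.re - u.re) = v.re - x1 := by rw [ht1]; field_simp
        have ht1p : 0 ≤ t1 := div_nonneg (by linarith) hneg.le
        have ht11 : t1 < 1 := by rw [ht1, div_lt_one hneg]; linarith
        obtain ⟨g1, g2⟩ := him t1 ht1p ht11.le
        exact wallL t1 ht1p ht11 (by linarith) g1 g2 h.ne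
      · exact Or.inl h
      · rcases lt_trichotomy u.re x2 with h' | h' | h'
        · exfalso
          have hfree := P.channel_free hk hi h h' hlo hhi
          rcases hucase with h1 | h1 | h1 | h1 | h1
          · exact hfree.2 h1
          · linarith
          · linarith
          · linarith
          · linarith
        · exact Or.inr h'
        · exfalso
          have hneg : 0 < u.re - v.re := by linarith
          set t1 := (x2 - v.re) / (u.re - v.re) with ht1
          have ht1m : t1 * (u.re - v.re) = x2 - v.re := by rw [ht1]; field_simp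
          have ht1p : 0 ≤ t1 := div_nonneg (by linarith) hneg.le
          have ht11 : t1 < 1 := by rw [ht1, div_lt_one hneg]; linarith
          obtain ⟨g1, g2⟩ := him t1 ht1p ht11.le
          exact wallR t1 ht1p ht11 (by linarith) g1 g2 h'.ne'
    · -- above
      right
      have hT : 0 < u.im - v.im := by linarith
      set t0 := (Y + P.d - v.im) / (u.im - v.im) with ht0
      have ht0p : 0 < t0 := div_pos (by linarith) hT
      have ht01 : t0 < 1 := by rw [ht0, div_lt_one hT]; linarith
      have ht0m : t0 * (u.im - v.im) = Y + P.d - v.im := by rw [ht0]; field_simp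
      have key : |t0 * (u.re - v.re)| < P.w := by
        rw [abs_lt]
        constructor
        · by_contra hcon
          push Not at hcon
          have hxx : t0 * (v.re - u.re) ≥ P.w := by linarith
          have hneg : 0 < v.re - u.re := by
            by_contra hc
            push Not at hc
            have : t0 * (v.re - u.re) ≤ 0 := mul_nonpos_of_nonneg_of_nonpos ht0p.le hc
            linarith
          set t1 := (v.re - x1) / (v.re - u.re) with ht1
          have ht1m : t1 * (v.re - u.re) = v.re - x1 := by rw [ht1]; field_simp
          have ht1p : 0 ≤ t1 := div_nonneg (by linarith) hneg.le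
          have ht1t0 : t1 < t0 := by
            by_contra hc
            push Not at hc
            have : t0 * (v.re - u.re) ≤ t1 * (v.re - u.re) := mul_le_mul_of_nonneg_right hc hneg.le
            linarith
          have e1 : t1 * (u.im - v.im) ≤ t0 * (u.im - v.im) := mul_le_mul_of_nonneg_right ht1t0.le hT.le
          have e2 : 0 ≤ t1 * (u.im - v.im) := mul_nonneg ht1p hT.le
          refine wallL t1 ht1p (by linarith) (by linarith) (by linarith) (by linarith) ?_
          intro hux
          rw [hux] at ht1m
          have : t1 = 1 := by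
            have h3 : 0 < v.re - x1 := by linarith
            have h4 : (t1 - 1) * (v.re - x1) = 0 := by linarith
            rcases mul_eq_zero.1 h4 with h | h
            · linarith
            · linarith
          linarith
        · by_contra hcon
          push Not at hcon
          have hneg : 0 < u.re - v.re := by
            by_contra hc
            push Not at hc
            have : t0 * (u.re - v.re) ≤ 0 := mul_nonpos_of_nonneg_of_nonpos ht0p.le hc
            linarith
          set t1 := (x2 - v.re) / (u.re - v.re) with ht1
          have ht1m : t1 * (u.re - v.re) = x2 - v.re := by rw [ht1]; field_simp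
          have ht1p : 0 ≤ t1 := div_nonneg (by linarith) hneg.le
          have ht1t0 : t1 < t0 := by
            by_contra hc
            push Not at hc
            have : t0 * (u.re - v.re) ≤ t1 * (u.re - v.re) := mul_le_mul_of_nonneg_right hc hneg.le
            linarith
          have e1 : t1 * (u.im - v.im) ≤ t0 * (u.im - v.im) := mul_le_mul_of_nonneg_right ht1t0.le hT.le
          have e2 : 0 ≤ t1 * (u.im - v.im) := mul_nonneg ht1p hT.le
          refine wallR t1 ht1p (by linarith) (by linarith) (by linarith) (by linarith) ?_
          intro hux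
          rw [hux] at ht1m
          have : t1 = 1 := by
            have h3 : 0 < x2 - v.re := by linarith
            have h4 : (t1 - 1) * (x2 - v.re) = 0 := by linarith
            rcases mul_eq_zero.1 h4 with h | h
            · linarith
            · linarith
          linarith
      have hslope : |u.re - v.re| ≤ 4 * Q * (u.im - v.im) := by
        rw [abs_mul, abs_of_pos ht0p] at key
        have h1 : P.d / 4 ≤ t0 * (u.im - v.im) := by linarith
        have h2 : (t0 * (u.im - v.im)) * |u.re - v.re| ≤ P.w * (u.im - v.im) := by
          have : t0 * |u.re - v.re| * (u.im - v.im) ≤ P.w * (u.im - v.im) :=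
            mul_le_mul_of_nonneg_right key.le hT.le
          linarith
        have h3 : P.d / 4 * |u.re - v.re| ≤ (t0 * (u.im - v.im)) * |u.re - v.re| :=
          mul_le_mul_of_nonneg_right h1 (abs_nonneg _)
        have h4 : P.d / 4 * |u.re - v.re| ≤ P.d / 4 * (4 * Q * (u.im - v.im)) := by
          calc P.d / 4 * |u.re - v.re| ≤ P.w * (u.im - v.im) := h3.trans h2
            _ = P.d / 4 * (4 * Q * (u.im - v.im)) := by rw [← hQd]; ring
        exact le_of_mul_le_mul_left h4 (by positivity)
      have hrange : ∀ t : ℝ, 0 ≤ t → t ≤ 1 → t * (u.im - v.im) ≤ 3 / 2 →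
          |t * (u.re - v.re)| ≤ 6 * Q := by
        intro t h0 h1 h2
        rw [abs_mul, abs_of_nonneg h0]
        calc t * |u.re - v.re| ≤ t * (4 * Q * (u.im - v.im)) := mul_le_mul_of_nonneg_left hslope h0
          _ = 4 * Q * (t * (u.im - v.im)) := by ring
          _ ≤ 4 * Q * (3 / 2) := mul_le_mul_of_nonneg_left h2 (by positivity)
          _ = 6 * Q := by ring
      have hle : u.im ≤ k * P.L + 2 + P.d := by
        by_contra hcon
        push Not at hcon
        set t2 := (k * P.L + 2 + P.d - v.im) / (u.im - v.im) with ht2
        have ht2p : 0 ≤ t2 := div_nonneg (by linarith) hT.le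
        have ht21 : t2 < 1 := by rw [ht2, div_lt_one hT]; linarith
        have ht2m : t2 * (u.im - v.im) = k * P.L + 2 + P.d - v.im := by rw [ht2]; field_simp
        have hr := abs_le.1 (hrange t2 ht2p ht21.le (by linarith))
        by_cases hkN : k + 1 = P.N
        · have : P.A = k * P.L + 2 + P.d := by
            unfold A
            have h2 : (P.N : ℝ) = k + 1 := by exact_mod_cast hkN.symm
            rw [h2]; unfold L; ring
          linarith [hurect.2.2]
        · have hp := seg_point v u t2 ht2p ht21.le
          refine hav _ hp ?_ ?_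
          · intro h
            have := congrArg Complex.im h
            simp only at this
            linarith
          · rw [mem_B]
            refine Or.inr ⟨k, by omega, ?_⟩
            rw [mem_slab]
            simp only
            refine ⟨⟨by linarith, by linarith⟩, by linarith, by linarith⟩
      have hr1 := abs_le.1 (hrange 1 (by norm_num) le_rfl (by linarith))
      refine ⟨⟨by linarith, by linarith⟩, Or.inr ?_⟩
      rcases eq_or_lt_of_le hle with h | h
      · exact h
      · exfalso
        have hfree : u ∈ P.space.free := by
          apply P.free_of_Fl hk hurect.1.1 hurect.1.2 (P.Fl_upper hk (by linarith) h)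
          intro j _ hz
          rw [mem_plate] at hz
          linarith
        rcases hucase with h1 | h1 | h1 | h1 | h1
        · exact hfree.2 h1
        · linarith
        · linarith
        · linarith
        · linarith

end Par

end Pool.Agent.V11167.Vis
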