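import Pool.Agent.V11167.VisC

/-! Conclusion (for MP_9521de_co). -/

namespace Pool.Agent.V11167.Vis

open MeasureTheory Set

lemma nat_mul_ofReal (n : ℕ) (x : ℝ) :
    (n : ENNReal) * ENNReal.ofReal x = ENNReal.ofReal (n * x) := by
  rw [ENNReal.ofReal_mul (Nat.cast_nonneg _), ENNReal.ofReal_natCast]

namespace Par

variable (P : Par)

lemma length_visBd {k i : ℕ} (hk : k < P.N) (hi : i + 1 < P.M) {v : ℂ}
    (hx1 : 2 + 2 * P.w * i + P.w < v.re) (hx2 : v.re < 2 + 2 * P.w * i + 2 * P.w)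
    (hy1 : k * P.L + 1 + P.d / 4 ≤ v.im) (hy2 : v.im ≤ k * P.L + 1 + 3 * P.d / 4) :
    Measure.hausdorffMeasure 1 (P.space.visBd v) ≤ ENNReal.ofReal (2 * P.d + 24 * (P.w / P.d)) := by
  have hw := P.hw
  have hd := P.hd
  set x1 := 2 + 2 * P.w * i + P.w with hx1d
  set x2 := 2 + 2 * P.w * i + 2 * P.w with hx2d
  set Y := k * P.L + 1 with hY
  set Q := P.w / P.d with hQ
  have hQ0 : 0 < Q := by rw [hQ]; positivity
  have hsub : P.space.visBd v ⊆ (segment ℝ (⟨x1, Y⟩ : ℂ) ⟨x1, Y + P.d⟩ ∪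
      segment ℝ (⟨x2, Y⟩ : ℂ) ⟨x2, Y + P.d⟩) ∪
      (segment ℝ (⟨v.re - 6 * Q, k * P.L⟩ : ℂ) ⟨v.re + 6 * Q, k * P.L⟩ ∪
      segment ℝ (⟨v.re - 6 * Q, k * P.L + 2 + P.d⟩ : ℂ) ⟨v.re + 6 * Q, k * P.L + 2 + P.d⟩) := by
    intro u hu
    have h := P.visBd_main hk hi hx1 hx2 hy1 hy2 hu
    simp only [mem_union]
    rw [mem_seg_im _ _ _ (by linarith), mem_seg_im _ _ _ (by linarith),
      mem_seg_re _ _ _ (by linarith), mem_seg_re _ _ _ (by linarith)]
    rcases h with ⟨h1, h2 | h2⟩ | ⟨h1, h2 | h2⟩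
    · exact Or.inl (Or.inl ⟨h1, h2⟩)
    · exact Or.inl (Or.inr ⟨h1, h2⟩)
    · exact Or.inr (Or.inl ⟨h1, h2⟩)
    · exact Or.inr (Or.inr ⟨h1, h2⟩)
  refine (measure_mono hsub).trans ?_
  refine (measure_union_le _ _).trans ?_
  refine (add_le_add (measure_union_le _ _) (measure_union_le _ _)).trans ?_
  rw [hausdorffMeasure_segment, hausdorffMeasure_segment, hausdorffMeasure_segment,
    hausdorffMeasure_segment]
  have e1 : ∀ x : ℝ, edist (⟨x, Y⟩ : ℂ) ⟨x, Y + P.d⟩ = ENNReal.ofReal P.d := by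
    intro x
    rw [edist_dist, Complex.dist_of_re_eq (by rfl)]
    congr 1
    rw [Real.dist_eq]
    simp only
    rw [abs_sub_comm]
    have : Y + P.d - Y = P.d := by ring
    rw [this, abs_of_pos hd]
  have e2 : ∀ y : ℝ, edist (⟨v.re - 6 * Q, y⟩ : ℂ) ⟨v.re + 6 * Q, y⟩ = ENNReal.ofReal (12 * Q) := by
    intro y
    rw [edist_dist, Complex.dist_of_im_eq (by rfl)]
    congr 1
    rw [Real.dist_eq]
    simp only
    rw [abs_sub_comm]
    have : v.re + 6 * Q - (v.re - 6 * Q) = 12 * Q := by ring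
    rw [this, abs_of_pos (by linarith)]
  rw [e1, e1, e2, e2, ← ENNReal.ofReal_add hd.le hd.le,
    ← ENNReal.ofReal_add (by linarith) (by linarith),
    ← ENNReal.ofReal_add (by linarith) (by linarith)]
  apply ENNReal.ofReal_le_ofReal
  linarith

/-- the middle halves of the channels -/
def Mid : Set ℂ := ⋃ z ∈ Finset.range P.N ×ˢ Finset.range (P.M - 1),
  Ioo (2 + 2 * P.w * (z.2 : ℝ) + P.w) (2 + 2 * P.w * (z.2 : ℝ) + 2 * P.w) ×ℂ
    Ioo ((z.1 : ℝ) * P.L + 1 + P.d / 4) ((z.1 : ℝ) * P.L + 1 + 3 * P.d / 4)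

lemma vol_Mid : volume P.Mid = ENNReal.ofReal (P.N * (P.M - 1 : ℕ) * (P.w * (P.d / 2))) := by
  have hw := P.hw
  have hd := P.hd
  have hs := P.hs
  have hLd : P.L = 2 + P.d + P.s := rfl
  unfold Mid
  rw [measure_biUnion_finset]
  · have h1 : ∀ z ∈ Finset.range P.N ×ˢ Finset.range (P.M - 1),
        volume (Ioo (2 + 2 * P.w * (z.2 : ℝ) + P.w) (2 + 2 * P.w * (z.2 : ℝ) + 2 * P.w) ×ℂ
        Ioo ((z.1 : ℝ) * P.L + 1 + P.d / 4) ((z.1 : ℝ) * P.L + 1 + 3 * P.d / 4))
        = ENNReal.ofReal (P.w * (P.d / 2)) := by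
      intro z _
      rw [vol_Ioo _ _ _ _ (by linarith)]
      congr 1
      ring
    rw [Finset.sum_congr rfl h1, Finset.sum_const, Finset.card_product, Finset.card_range,
      Finset.card_range, nsmul_eq_mul, nat_mul_ofReal]
    push_cast
    rfl
  · intro z _ z' _ hne
    rw [Function.onFun, Set.disjoint_left]
    intro p hp hp'
    rw [Complex.mem_reProdIm, mem_Ioo, mem_Ioo] at hp hp'
    apply hne
    apply Prod.ext
    · rcases lt_trichotomy z.1 z'.1 with h | h | h
      · have := P.kL h; linarith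
      · exact h
      · have := P.kL h; linarith
    · rcases lt_trichotomy z.2 z'.2 with h | h | h
      · have := P.iw h; linarith
      · exact h
      · have := P.iw h; linarith
  · intro z _
    exact meas_rect _ _ measurableSet_Ioo measurableSet_Ioo

lemma Mid_sub {c ε : ℝ} (h : 2 * P.d + 24 * (P.w / P.d) < c * Real.sqrt (ε * Space.area P.space.free)) :
    P.Mid ⊆ P.space.E c ε := by
  intro v hv
  unfold Mid at hv
  simp only [mem_iUnion] at hv
  obtain ⟨⟨k, i⟩, hz, hv⟩ := hv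
  rw [Finset.mem_product, Finset.mem_range, Finset.mem_range] at hz
  obtain ⟨hk, hi⟩ := hz
  simp only at hk hi
  have hi' : i + 1 < P.M := by omega
  rw [Complex.mem_reProdIm, mem_Ioo, mem_Ioo] at hv
  simp only at hv
  have hd := P.hd
  have hw := P.hw
  refine ⟨P.channel_free hk hi' hv.1.1 hv.1.2 (by linarith) (by linarith), ?_⟩
  refine (P.length_visBd hk hi' hv.1.1 hv.1.2 hv.2.1.le hv.2.2.le).trans_lt ?_
  apply (ENNReal.ofReal_lt_ofReal_iff_of_nonneg (by positivity)).2 h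

lemma area_rect : Space.area P.space.rect = P.A ^ 2 := by
  have h : P.space.rect = Icc 0 P.A ×ℂ Icc 0 P.A := rfl
  have hA := P.A_ge
  rw [Space.area, h, vol_Icc _ _ _ _ (by linarith), ENNReal.toReal_ofReal (by nlinarith)]
  ring

lemma vol_B : volume P.space.B ≤ ENNReal.ofReal (P.N * (P.A * (P.d + P.s))) := by
  have hA := P.A_ge
  have hd := P.hd
  have hs := P.hs
  have hw := P.hw
  have hsub : P.space.B ⊆ (⋃ k ∈ Finset.range P.N, Icc 0 P.A ×ℂ Icc (k * P.L + 1) (k * P.L + 1 + P.d)) ∪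
      (⋃ k ∈ Finset.range P.N, Icc 0 P.A ×ℂ Icc ((k + 1) * P.L - P.s) ((k + 1) * P.L)) := by
    intro z hz
    rw [mem_B] at hz
    rcases hz with ⟨k, hk, i, hi, hz⟩ | ⟨k, hk, hz⟩
    · left
      simp only [mem_iUnion]
      refine ⟨k, Finset.mem_range.2 hk, ?_⟩
      rw [mem_plate] at hz
      have := P.fit hi
      have hpos : 0 ≤ 2 * P.w * (i : ℝ) := by positivity
      rw [Complex.mem_reProdIm, mem_Icc, mem_Icc]
      exact ⟨⟨by linarith, by linarith⟩, hz.2⟩
    · right
      simp only [mem_iUnion]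
      refine ⟨k, Finset.mem_range.2 (by omega), ?_⟩
      rw [mem_slab] at hz
      rw [Complex.mem_reProdIm, mem_Icc, mem_Icc]
      exact ⟨⟨by linarith, by linarith⟩, hz.2⟩
  refine (measure_mono hsub).trans ((measure_union_le _ _).trans ?_)
  have h1 : volume (⋃ k ∈ Finset.range P.N, Icc 0 P.A ×ℂ Icc ((k : ℝ) * P.L + 1) (k * P.L + 1 + P.d))
      ≤ ENNReal.ofReal (P.N * (P.A * P.d)) := by
    refine (measure_biUnion_finset_le _ _).trans ?_
    have h2 : ∀ k ∈ Finset.range P.N, volume (Icc 0 P.A ×ℂ Icc ((k : ℝ) * P.L + 1) (k * P.L + 1 + P.d))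
        = ENNReal.ofReal (P.A * P.d) := by
      intro k _
      rw [vol_Icc _ _ _ _ (by linarith)]
      congr 1; ring
    rw [Finset.sum_congr rfl h2, Finset.sum_const, Finset.card_range, nsmul_eq_mul,
      nat_mul_ofReal]
  have h1' : volume (⋃ k ∈ Finset.range P.N, Icc 0 P.A ×ℂ Icc (((k : ℝ) + 1) * P.L - P.s) ((k + 1) * P.L))
      ≤ ENNReal.ofReal (P.N * (P.A * P.s)) := by
    refine (measure_biUnion_finset_le _ _).trans ?_
    have h2 : ∀ k ∈ Finset.range P.N,
        volume (Icc 0 P.A ×ℂ Icc (((k : ℝ) + 1) * P.L - P.s) ((k + 1) * P.L))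
        = ENNReal.ofReal (P.A * P.s) := by
      intro k _
      rw [vol_Icc _ _ _ _ (by linarith)]
      congr 1; ring
    rw [Finset.sum_congr rfl h2, Finset.sum_const, Finset.card_range, nsmul_eq_mul,
      nat_mul_ofReal]
  refine (add_le_add h1 h1').trans ?_
  rw [← ENNReal.ofReal_add (by positivity) (by positivity)]
  apply ENNReal.ofReal_le_ofReal
  linarith

lemma area_free_ge : P.A ^ 2 - P.N * (P.A * (P.d + P.s)) ≤ Space.area P.space.free := by
  have hA := P.A_ge
  have hd := P.hd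
  have hs := P.hs
  have h1 : volume P.space.rect ≤ volume P.space.free + volume P.space.B := by
    refine le_trans (measure_mono ?_) (measure_union_le _ _)
    intro z hz
    by_cases h : z ∈ P.space.B
    · exact Or.inr h
    · exact Or.inl ⟨hz, h⟩
  have hfin1 : volume P.space.free ≠ ⊤ :=
    ((measure_mono sdiff_subset).trans_lt P.vol_free_lt).ne
  have h2 : volume P.space.rect ≤ volume P.space.free +
      ENNReal.ofReal (P.N * (P.A * (P.d + P.s))) := h1.trans (by gcongr; exact P.vol_B)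
  have h3 := ENNReal.toReal_mono (ENNReal.add_ne_top.2 ⟨hfin1, ENNReal.ofReal_ne_top⟩) h2
  rw [ENNReal.toReal_add hfin1 ENNReal.ofReal_ne_top, ENNReal.toReal_ofReal (by positivity)] at h3
  have h4 := P.area_rect
  unfold Space.area at *
  linarith

lemma area_free_le : Space.area P.space.free ≤ P.A ^ 2 := by
  rw [← P.area_rect]
  exact ENNReal.toReal_mono P.vol_free_lt.ne (measure_mono sdiff_subset)

end Par

set_option maxHeartbeats 1000000 in
theorem main (rho : ℝ) (hr1 : rho < 1) (hr0 : 0 < rho) (c C : ℝ) (hc : 0 < c) (hC : 0 < C) :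
    ∃ ε : ℝ, 0 < ε ∧ ε ≤ 1 ∧ ∃ S : Space, (S.x₁ - S.x₀ = S.y₁ - S.y₀ ∧
      rho * Space.area S.rect ≤ Space.area S.free) ∧ S.IsVisible ε ∧
      C * Real.sqrt ε * Space.area S.free < Space.area (S.E c ε) := by
  set c' := min c 1 with hc'
  have hc'0 : 0 < c' := lt_min hc one_pos
  have hc'1 : c' ≤ 1 := min_le_right _ _
  have hc'c : c' ≤ c := min_le_left _ _
  set κ := min (c' / 512) (1 - rho) with hκ
  have hκ0 : 0 < κ := lt_min (by positivity) (by linarith)
  have hκ1 : κ ≤ c' / 512 := min_le_left _ _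
  have hκ2 : κ ≤ 1 - rho := min_le_right _ _
  set d := c' * κ / 8 with hd
  set w := κ ^ 2 * d with hw
  set s := (1 - rho) / 2 with hs
  have hd0 : 0 < d := by positivity
  have hw0 : 0 < w := by positivity
  have hs0 : 0 < s := by rw [hs]; linarith
  have hdκ : d ≤ κ / 8 := by rw [hd]; nlinarith
  have hκ3 : κ ≤ 1 / 512 := by linarith
  have hw1 : 8 * w ≤ d := by
    rw [hw]
    have : κ ^ 2 ≤ 1 / 8 := by nlinarith
    nlinarith
  obtain ⟨N, hN⟩ := exists_nat_gt (max 16 (max (1 / rho) (96 * C / c')))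
  have hN16 : (16 : ℝ) < N := (le_max_left _ _).trans_lt hN
  have hNr : 1 / rho < N := ((le_max_left _ _).trans (le_max_right _ _)).trans_lt hN
  have hNC : 96 * C / c' < N := ((le_max_right _ _).trans (le_max_right _ _)).trans_lt hN
  set A := N * (2 + d + s) - s with hA
  have hAN : (N : ℝ) ≤ A := by
    rw [hA]
    have h1 : (N : ℝ) * 2 ≤ N * (2 + d + s) := mul_le_mul_of_nonneg_left (by linarith) (by linarith)
    have h2 : s ≤ 1 := by rw [hs]; linarith
    linarith
  have hA3 : A ≤ 3 * N := by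
    rw [hA]
    have h1 : 2 + d + s ≤ 3 := by rw [hs]; linarith
    have h2 : (N : ℝ) * (2 + d + s) ≤ N * 3 := mul_le_mul_of_nonneg_left h1 (by linarith)
    linarith
  have hA2 : (N : ℝ) * (2 + d) ≤ A := by
    rw [hA]
    have h1 : 1 * s ≤ (N : ℝ) * s := mul_le_mul_of_nonneg_right (by linarith) hs0.le
    have h2 : (N : ℝ) * (2 + d + s) = N * (2 + d) + N * s := by ring
    linarith
  set M := ⌊(A - 4) / (2 * w)⌋₊ with hM
  have hMle : (M : ℝ) * (2 * w) ≤ A - 4 := by
    have := Nat.floor_le (a := (A - 4) / (2 * w)) (by apply div_nonneg <;> linarith)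
    rw [le_div_iff₀ (by positivity)] at this
    exact this
  have hMgt : A - 4 < ((M : ℝ) + 1) * (2 * w) := by
    have := Nat.lt_floor_add_one ((A - 4) / (2 * w))
    rw [div_lt_iff₀ (by positivity)] at this
    exact this
  have hw2 : w ≤ 1 := by linarith
  have hM2 : 2 ≤ M := by
    by_contra hcon
    push Not at hcon
    have h1 : (M : ℝ) + 1 ≤ 2 := by
      have : M + 1 ≤ 2 := by omega
      exact_mod_cast this
    have h2 : ((M : ℝ) + 1) * (2 * w) ≤ 2 * (2 * w) := mul_le_mul_of_nonneg_right h1 (by linarith)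
    linarith
  let P : Par := {
    N := N
    M := M
    d := d
    w := w
    s := s
    hN := by
      have : (2 : ℝ) ≤ N := by linarith
      exact_mod_cast this
    hM := hM2
    hd := hd0
    hd2 := by linarith
    hw := hw0
    hw2 := hw1
    hs := hs0
    hs2 := by rw [hs]; linarith
    hfit := by linarith }
  have hPA : P.A = A := rfl
  have hPd : P.d = d := rfl
  have hPw : P.w = w := rfl
  have hPs : P.s = s := rfl
  have hA0 : 0 < A := by linarith
  -- free area
  have hF1 : rho * A ^ 2 ≤ Space.area P.space.free := by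
    refine le_trans ?_ P.area_free_ge
    rw [hPA, hPd, hPs]
    change rho * A ^ 2 ≤ A ^ 2 - (N : ℝ) * (A * (d + s))
    have h1 : (N : ℝ) * (d + s) ≤ (1 - rho) * A := by
      have h2 : 2 * (N : ℝ) ≤ A := by
        have h7 : 0 ≤ (N : ℝ) * d := mul_nonneg (by linarith) hd0.le
        have h8 : (N : ℝ) * (2 + d) = 2 * N + N * d := by ring
        linarith
      have h3 : d + s ≤ 2 * (1 - rho) := by rw [hs]; linarith
      have h4 : (N : ℝ) * (d + s) ≤ N * (2 * (1 - rho)) := by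
        apply mul_le_mul_of_nonneg_left h3 (by linarith)
      have h5 : (1 - rho) * (2 * (N : ℝ)) ≤ (1 - rho) * A :=
        mul_le_mul_of_nonneg_left h2 (by linarith)
      linarith
    have h6 := mul_le_mul_of_nonneg_right h1 hA0.le
    have e1 : (N : ℝ) * (A * (d + s)) = (N : ℝ) * (d + s) * A := by ring
    have e2 : (1 - rho) * A * A = A ^ 2 - rho * A ^ 2 := by ring
    linarith
  have hF2 : Space.area P.space.free ≤ A ^ 2 := P.area_free_le
  set Fa := Space.area P.space.free with hFa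
  have hFpos : 1 ≤ Fa := by
    have h1 : 1 < rho * N := by
      rw [div_lt_iff₀ hr0] at hNr; linarith
    have h2 : rho * (N : ℝ) ≤ rho * A := mul_le_mul_of_nonneg_left hAN hr0.le
    have h3 : 1 ≤ A := by linarith
    have h4 : 1 ≤ rho * A := by linarith
    have h5 : rho * A * 1 ≤ rho * A * A := mul_le_mul_of_nonneg_left h3 (by linarith)
    have h6 : rho * A * A = rho * A ^ 2 := by ring
    linarith
  have hQ : w / d = κ ^ 2 := by rw [hw]; field_simp
  have hq4 : w / (4 * d) = (κ / 2) ^ 2 := by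
    rw [hw]; field_simp; ring
  refine ⟨(κ / 2) ^ 2 / Fa, by positivity, ?_, P.space, ⟨by rfl, ?_⟩, ?_, ?_⟩
  · rw [div_le_one (by linarith)]
    have g1 : (κ / 2) ^ 2 ≤ 1 := by
      have : κ / 2 ≤ 1 := by linarith
      exact pow_le_one₀ (by linarith) this
    linarith
  · rw [P.area_rect, hPA]; exact hF1
  · intro v hv
    have h1 := P.vis_all hv
    rw [hPw, hPd, hq4] at h1
    rw [← hFa]
    have h2 : (κ / 2) ^ 2 / Fa * Fa = (κ / 2) ^ 2 := by
      field_simp
    rw [h2]; exact h1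
  · have hεF : (κ / 2) ^ 2 / Fa * Fa = (κ / 2) ^ 2 := by
      field_simp
    have hsub : P.Mid ⊆ P.space.E c ((κ / 2) ^ 2 / Fa) := by
      apply P.Mid_sub
      rw [← hFa, hεF, Real.sqrt_sq (by positivity), hPd, hPw, hQ, hd]
      have g1 : c' * (κ / 2) ≤ c * (κ / 2) := mul_le_mul_of_nonneg_right hc'c (by linarith)
      have g2 : 24 * κ ^ 2 ≤ 24 * (κ * (c' / 512)) := by
        have : κ * κ ≤ κ * (c' / 512) := mul_le_mul_of_nonneg_left hκ1 hκ0.le
        have e : κ ^ 2 = κ * κ := by ring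
        rw [e]; linarith
      have g3 : 0 < c' * κ := mul_pos hc'0 hκ0
      have g4 : κ * (c' / 512) = c' * κ / 512 := by ring
      have g5 : c' * (κ / 2) = c' * κ / 2 := by ring
      rw [g4] at g2
      rw [g5] at g1
      linarith
    have hEfin : volume (P.space.E c ((κ / 2) ^ 2 / Fa)) ≠ ⊤ := by
      refine ((measure_mono ?_).trans_lt P.vol_free_lt).ne
      intro z hz
      exact hz.1.1
    have h1 := ENNReal.toReal_mono hEfin (measure_mono (μ := volume) hsub)
    rw [P.vol_Mid, ENNReal.toReal_ofReal (by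
      have := P.hw; have := P.hd; positivity)] at h1
    refine lt_of_lt_of_le ?_ h1
    change C * Real.sqrt ((κ / 2) ^ 2 / Fa) * Fa < (N : ℝ) * ((M - 1 : ℕ) : ℝ) * (w * (d / 2))
    have h2 : Real.sqrt ((κ / 2) ^ 2 / Fa) * Fa ≤ κ / 2 * A := by
      rw [Real.sqrt_div (by positivity), Real.sqrt_sq (by positivity), div_mul_eq_mul_div, mul_div_assoc]
      apply mul_le_mul_of_nonneg_left _ (by positivity)
      rw [Real.div_sqrt]
      exact Real.sqrt_le_iff.2 ⟨hA0.le, hF2⟩
    have h3 : C * Real.sqrt ((κ / 2) ^ 2 / Fa) * Fa ≤ C * (κ / 2 * A) := by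
      rw [mul_assoc]; exact mul_le_mul_of_nonneg_left h2 hC.le
    refine lt_of_le_of_lt h3 ?_
    have hM1 : ((M - 1 : ℕ) : ℝ) = M - 1 := by
      rw [Nat.cast_sub (by omega)]; simp
    rw [hM1]
    have h4 : A / 4 ≤ ((M : ℝ) - 1) * w := by
      have e1 : ((M : ℝ) + 1) * (2 * w) = 2 * (((M : ℝ) - 1) * w) + 4 * w := by ring
      linarith
    have h5 : A / 3 * (A / 4) * (d / 2) ≤ (N : ℝ) * (((M : ℝ) - 1) * w) * (d / 2) := by
      apply mul_le_mul_of_nonneg_right _ (by positivity)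
      apply mul_le_mul (by linarith) h4 (by positivity) (by linarith)
    have h6 : (N : ℝ) * ((M : ℝ) - 1) * (w * (d / 2)) = (N : ℝ) * (((M : ℝ) - 1) * w) * (d / 2) := by
      ring
    rw [h6]
    refine lt_of_lt_of_le ?_ h5
    have h7 : 96 * C < c' * A := by
      rw [div_lt_iff₀ hc'0] at hNC
      have : (N : ℝ) * c' ≤ A * c' := mul_le_mul_of_nonneg_right hAN hc'0.le
      linarith
    have h8 : A / 3 * (A / 4) * (d / 2) = (κ / 2 * A) * (c' * A) / 96 := by
      rw [hd]; ring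
    rw [h8]
    have h9 : 0 < κ / 2 * A := by positivity
    have h10 : (κ / 2 * A) * (96 * C) < (κ / 2 * A) * (c' * A) := mul_lt_mul_of_pos_left h7 h9
    linarith

end Pool.Agent.V11167.Vis
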