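import Mathlib

/-! Definitions used in the statement for MP_9521de_co. The plane is `ℂ` with its Euclidean
metric and Lebesgue measure. -/

namespace Pool.Agent.V11167.Vis

open MeasureTheory Set

/-- a regular simple `C²` arc -/
def IsArc (S : Set ℂ) : Prop :=
  ∃ γ : ℝ → ℂ, ContDiff ℝ 2 γ ∧ (∀ t ∈ Icc (0 : ℝ) 1, deriv γ t ≠ 0) ∧
    InjOn γ (Icc 0 1) ∧ S = γ '' Icc 0 1

/-- the boundary of `B` is a finite union of regular `C²` arcs -/
def PiecewiseSmooth (B : Set ℂ) : Prop :=
  ∃ Γ : Set (Set ℂ), Γ.Finite ∧ (∀ S ∈ Γ, IsArc S) ∧ frontier B = ⋃₀ Γ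

/-- A closed rectangle with finitely many pairwise disjoint compact obstacles with piecewise
smooth boundary. -/
structure Space where
  x₀ : ℝ
  x₁ : ℝ
  y₀ : ℝ
  y₁ : ℝ
  hx : x₀ < x₁
  hy : y₀ < y₁
  obs : Set (Set ℂ)
  finite : obs.Finite
  compact : ∀ B ∈ obs, IsCompact B
  smooth : ∀ B ∈ obs, PiecewiseSmooth B
  subset : ∀ B ∈ obs, B ⊆ Icc x₀ x₁ ×ℂ Icc y₀ y₁
  disjoint : obs.PairwiseDisjoint id

namespace Space

variable (S : Space)

/-- the rectangle -/
def rect : Set ℂ := Icc S.x₀ S.x₁ ×ℂ Icc S.y₀ S.y₁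

/-- union of the obstacles -/
def B : Set ℂ := ⋃₀ S.obs

/-- free space -/
def free : Set ℂ := S.rect \ S.B

/-- area -/
noncomputable def area (X : Set ℂ) : ℝ := (volume X).toReal

/-- the region visible from `v` -/
def vis (v : ℂ) : Set ℂ := {v' | segment ℝ v v' ⊆ S.free}

/-- `ε`-visible space -/
def IsVisible (ε : ℝ) : Prop := ∀ v ∈ S.free, ε * area S.free ≤ area (S.vis v)

/-- all boundary points -/
def W : Set ℂ := frontier S.B ∪ frontier S.rect

/-- the visible boundary: points `u` of `W` such that `[v, u)` contains no point of `W`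
other than possibly `v` -/
def visBd (v : ℂ) : Set ℂ := {u ∈ S.W | ∀ p ∈ segment ℝ v u, p ∈ S.W → p = v ∨ p = u}

/-- the exceptional set: free points that see boundary of length less than
`c √(ε area F)` -/
def E (c ε : ℝ) : Set ℂ :=
  {v ∈ S.free | Measure.hausdorffMeasure 1 (S.visBd v) < ENNReal.ofReal (c * Real.sqrt (ε * area S.free))}

/-- shape conditions: side ratio at least `lam` and free area at least `rho` of the rectangle -/
def Adm (lam rho : ℝ) : Prop :=
  lam * (S.x₁ - S.x₀) ≤ S.y₁ - S.y₀ ∧ lam * (S.y₁ - S.y₀) ≤ S.x₁ - S.x₀ ∧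
    rho * area S.rect ≤ area S.free

end Space

end Pool.Agent.V11167.Vis
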